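import Pool.Agent.Lib.MP_b9289b_nt.Mg.G001

section

/-!
# E02: the local solution

Near `0` let `G` be the primitive (`G 0 = 0`) of `1 / (√(1-y²) √(1-l y²))` (`Complex.cpow` or
`exp (-log(..)/2)`, holomorphic near `0`; a primitive exists on a ball,
`Convex.exists_forall_hasDerivWithinAt`), `G' 0 = 1`, and `S` the local inverse of `2 G`
(`HasStrictDerivAt.localInverse`, holomorphic).  Then `S'^2 = (1 - S²)(1 - l S²)/4`, and `φ = S²`
satisfies `φ' = 2 S S'`, `φ'^2 = φ (1 - φ)(1 - l φ)`.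
`φ'' = P'(φ)/2`: differentiate `φ'^2 = P(φ)` to get `2 φ' φ'' = P'(φ) φ'`; `φ'` is not identically
zero near any point of a small ball (`φ` is not constant), so `φ'' = P'(φ)/2` on a dense set, and
then everywhere by continuity.

Duplication: `R(x) = 4 x (1 - x)(1 - l x)/(1 - l x²)²` satisfies `R'(x)² P(x) = 4 P(R(x))`
(`field_simp; ring`).  `X u = R(φ(u/2))` satisfies `X'^2 = P(X)`, `X 0 = X' 0 = 0`, hence
`X'' = P'(X)/2` as above (`X` is not constant near `0`), so `X = φ` near `0` by `ode_unique`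
(with `w = 1`, `Y = X'`).
-/

open Filter Topology Metric
open scoped ComplexConjugate

noncomputable section

namespace Pool.Agent.Lib.MP_b9289b_nt

/-- an analytic function with zero derivative near a point is constant near it -/
private theorem E02_const {X : ℂ → ℂ} {z₀ : ℂ} (hX : AnalyticAt ℂ X z₀)
    (h : ∀ᶠ z in 𝓝 z₀, deriv X z = 0) : ∀ᶠ z in 𝓝 z₀, X z = X z₀ := by
  obtain ⟨r, hr, hball⟩ := Metric.eventually_nhds_iff_ball.mp (h.and hX.eventually_analyticAt)
  filter_upwards [Metric.ball_mem_nhds z₀ hr] with z hz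
  exact isOpen_ball.is_const_of_deriv_eq_zero (convex_ball z₀ r).isPreconnected
    (fun w hw => (hball w hw).2.differentiableAt.differentiableWithinAt)
    (fun w hw => (hball w hw).1) hz (mem_ball_self hr)

/-- `X'^2 = P(X)`, `X` analytic and not locally constant implies `X'' = P'(X)/2`. -/
theorem ode2_of_ode {l : ℂ} {X : ℂ → ℂ} {z₀ : ℂ} (hX : AnalyticAt ℂ X z₀)
    (h : ∀ᶠ z in 𝓝 z₀, deriv X z ^ 2 = PL l (X z)) (hnc : ¬ ∀ᶠ z in 𝓝 z₀, X z = X z₀) :
    ∀ᶠ z in 𝓝 z₀, deriv (deriv X) z = PL' l (X z) / 2 := by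
  have hY : AnalyticAt ℂ (deriv X) z₀ := hX.deriv
  have hW : AnalyticAt ℂ (fun z => 2 * deriv (deriv X) z - PL' l (X z)) z₀ := by
    unfold PL'
    have := hY.deriv
    fun_prop
  have h1 : (fun z => deriv X z ^ 2) =ᶠ[𝓝 z₀] fun z => PL l (X z) := h
  have h2 : ∀ᶠ z in 𝓝 z₀, deriv X z * (2 * deriv (deriv X) z - PL' l (X z)) = 0 := by
    filter_upwards [h1.deriv, hX.eventually_analyticAt] with z hz ha
    have d1 : HasDerivAt (fun z => deriv X z ^ 2) (2 * deriv X z * deriv (deriv X) z) z := by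
      have := (ha.deriv.differentiableAt.hasDerivAt).pow 2
      refine this.congr_deriv ?_
      norm_num
    have d2 : HasDerivAt (fun z => PL l (X z)) (PL' l (X z) * deriv X z) z :=
      (hasDerivAt_PL l (X z)).comp z ha.differentiableAt.hasDerivAt
    rw [d1.deriv, d2.deriv] at hz
    linear_combination hz
  rcases hY.eventually_eq_zero_or_eventually_ne_zero with hz | hz
  · exact absurd (E02_const hX hz) hnc
  · have h3 : ∀ᶠ z in 𝓝[≠] z₀, 2 * deriv (deriv X) z - PL' l (X z) = 0 := by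
      filter_upwards [hz, h2.filter_mono nhdsWithin_le_nhds] with z h3 h4
      exact (mul_eq_zero.mp h4).resolve_left h3
    have h4 := hW.frequently_zero_iff_eventually_zero.mp h3.frequently
    filter_upwards [h4] with z h5
    linear_combination h5 / 2

theorem exists_local (l : ℂ) : ∃ φ : ℂ → ℂ, AnalyticAt ℂ φ 0 ∧ φ 0 = 0 ∧
    (¬ ∀ᶠ u in 𝓝 (0 : ℂ), φ u = 0) ∧ ∀ᶠ u in 𝓝 (0 : ℂ), deriv φ u ^ 2 = PL l (φ u) := by
  set h : ℂ → ℂ := fun y => (1 - y ^ 2) * (1 - l * y ^ 2) with hh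
  have hcont : Continuous h := by fun_prop
  have hdiff : Differentiable ℂ h := by fun_prop
  have h0 : h 0 = 1 := by simp [hh]
  have hslit : ∀ᶠ y in 𝓝 (0 : ℂ), h y ∈ Complex.slitPlane := by
    apply hcont.continuousAt.eventually_mem
    rw [h0]
    exact Complex.isOpen_slitPlane.mem_nhds Complex.one_mem_slitPlane
  obtain ⟨r, hr, hball⟩ := Metric.eventually_nhds_iff_ball.mp hslit
  set q : ℂ → ℂ := fun y => h y ^ ((2 : ℕ)⁻¹ : ℂ) with hq
  have hq2 : ∀ y, q y ^ 2 = h y := fun y => Complex.cpow_nat_inv_pow (h y) two_ne_zero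
  have hq0 : ∀ y ∈ ball (0 : ℂ) r, q y ≠ 0 := by
    intro y hy hqy
    have h1 := hq2 y
    rw [hqy] at h1
    exact Complex.slitPlane_ne_zero (hball y hy) (by rw [← h1]; norm_num)
  have hqd : DifferentiableOn ℂ q (ball (0 : ℂ) r) := by
    intro y hy
    exact ((hdiff y).cpow (differentiableAt_const _) (hball y hy)).differentiableWithinAt
  have hgd : DifferentiableOn ℂ (fun y => 2 / q y) (ball (0 : ℂ) r) :=
    (differentiableOn_const _).div hqd hq0
  obtain ⟨f, hf0, hf⟩ := (hgd.isExactOn_ball).with_val_at 0 0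
  have hfd : DifferentiableOn ℂ f (ball (0 : ℂ) r) :=
    fun y hy => (hf y hy).differentiableAt.differentiableWithinAt
  have hfa : AnalyticAt ℂ f 0 := hfd.analyticAt (ball_mem_nhds 0 hr)
  have hf' : deriv f 0 ≠ 0 := by
    rw [(hf 0 (mem_ball_self hr)).deriv]
    exact div_ne_zero two_ne_zero (hq0 0 (mem_ball_self hr))
  set S := hfa.hasStrictDerivAt.localInverse _ _ _ hf' with hS
  have hSa : AnalyticAt ℂ S 0 := by
    have := hfa.analyticAt_localInverse hf'
    rwa [hf0] at this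
  have hS0 : S 0 = 0 := by
    have : S (f 0) = 0 := HasStrictFDerivAt.localInverse_apply_image ..
    rwa [hf0] at this
  have hright : ∀ᶠ u in 𝓝 (0 : ℂ), f (S u) = u := by
    have := HasStrictDerivAt.eventually_right_inverse hfa.hasStrictDerivAt hf'
    rwa [hf0] at this
  have hSball : ∀ᶠ u in 𝓝 (0 : ℂ), S u ∈ ball (0 : ℂ) r := by
    apply hSa.continuousAt.eventually_mem
    rw [hS0]
    exact ball_mem_nhds 0 hr
  have hSd : ∀ᶠ u in 𝓝 (0 : ℂ), deriv S u = q (S u) / 2 := by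
    filter_upwards [hright.eventually_nhds, hSball, hSa.eventually_analyticAt] with u h1 h2 h3
    have d1 : HasDerivAt (fun u => f (S u)) (2 / q (S u) * deriv S u) u :=
      (hf (S u) h2).comp u h3.differentiableAt.hasDerivAt
    have d2 : HasDerivAt (fun u => f (S u)) 1 u := by
      refine (hasDerivAt_id u).congr_of_eventuallyEq ?_
      filter_upwards [h1] with v hv
      rw [hv]
      rfl
    have h4 := d1.unique d2
    have h5 := hq0 (S u) h2
    field_simp at h4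
    linear_combination h4 / 2
  refine ⟨fun u => S u ^ 2, hSa.pow 2, by simp [hS0], ?_, ?_⟩
  · intro hcon
    have h1 : ∀ᶠ u in 𝓝 (0 : ℂ), u = 0 := by
      filter_upwards [hcon, hright] with u h2 h3
      have h4 : S u = 0 := pow_eq_zero_iff two_ne_zero |>.mp h2
      rw [h4, hf0] at h3
      exact h3.symm
    have h2 : ∀ᶠ u in 𝓝[≠] (0 : ℂ), False := by
      filter_upwards [h1.filter_mono nhdsWithin_le_nhds, self_mem_nhdsWithin] with u h2 h3
      exact h3 h2
    exact absurd h2.exists (by simp)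
  · filter_upwards [hSd, hSa.eventually_analyticAt] with u h1 h2
    have d1 : HasDerivAt (fun u => S u ^ 2) (2 * S u * deriv S u) u := by
      refine (h2.differentiableAt.hasDerivAt.pow 2).congr_deriv ?_
      norm_num
    rw [d1.deriv, h1]
    have h3 := hq2 (S u)
    simp only [hh] at h3
    unfold PL
    linear_combination S u ^ 2 * h3

/-- The rational function of the duplication formula. -/
def RL (l x : ℂ) : ℂ := 4 * PL l x / (1 - l * x ^ 2) ^ 2

private theorem E02_RL {l x : ℂ} (hx : 1 - l * x ^ 2 ≠ 0) :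
    HasDerivAt (RL l) (4 * ((1 - 2 * x + l * x ^ 2) * (1 - 2 * l * x + l * x ^ 2)) /
      (1 - l * x ^ 2) ^ 3) x := by
  have d1 : HasDerivAt (fun x : ℂ => (1 - l * x ^ 2) ^ 2)
      (2 * (1 - l * x ^ 2) * (-(l * (2 * x)))) x := by
    have e1 : HasDerivAt (fun x : ℂ => x ^ 2) (2 * x) x := by
      refine (hasDerivAt_pow 2 x).congr_deriv ?_
      norm_num
    have e2 : HasDerivAt (fun x : ℂ => 1 - l * x ^ 2) (-(l * (2 * x))) x := by
      refine ((hasDerivAt_const x (1 : ℂ)).sub (e1.const_mul l)).congr_deriv ?_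
      ring
    refine (e2.pow 2).congr_deriv ?_
    norm_num
  have d2 := ((hasDerivAt_PL l x).const_mul 4).div d1 (pow_ne_zero 2 hx)
  refine d2.congr_deriv ?_
  unfold PL PL'
  field_simp
  ring

private theorem E02_alg {l x : ℂ} (hx : 1 - l * x ^ 2 ≠ 0) :
    (4 * ((1 - 2 * x + l * x ^ 2) * (1 - 2 * l * x + l * x ^ 2)) / (1 - l * x ^ 2) ^ 3) ^ 2 *
      PL l x = 4 * PL l (RL l x) := by
  have h0 : RL l x * (1 - l * x ^ 2) ^ 2 = 4 * PL l x := by
    unfold RL
    rw [div_mul_cancel₀ _ (pow_ne_zero 2 hx)]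
  unfold PL at h0
  have h1 : 1 - RL l x = (1 - 2 * x + l * x ^ 2) ^ 2 / (1 - l * x ^ 2) ^ 2 := by
    rw [eq_div_iff (pow_ne_zero 2 hx)]
    linear_combination -h0
  have h2 : 1 - l * RL l x = (1 - 2 * l * x + l * x ^ 2) ^ 2 / (1 - l * x ^ 2) ^ 2 := by
    rw [eq_div_iff (pow_ne_zero 2 hx)]
    linear_combination -l * h0
  have h3 : PL l (RL l x) = RL l x * (1 - RL l x) * (1 - l * RL l x) := rfl
  rw [h3, h1, h2]
  unfold RL
  field_simp

theorem duplication {l : ℂ} {φ : ℂ → ℂ} (h1 : AnalyticAt ℂ φ 0) (h2 : φ 0 = 0)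
    (h3 : ¬ ∀ᶠ u in 𝓝 (0 : ℂ), φ u = 0) (h4 : ∀ᶠ u in 𝓝 (0 : ℂ), deriv φ u ^ 2 = PL l (φ u)) :
    ∀ᶠ u in 𝓝 (0 : ℂ), φ (2 * u) = RL l (φ u) := by
  -- small values
  have hden : ∀ᶠ x in 𝓝 (0 : ℂ), 1 - l * x ^ 2 ≠ 0 := by
    have hc : Continuous fun x : ℂ => 1 - l * x ^ 2 := by fun_prop
    exact hc.continuousAt.eventually_ne (by simp)
  have hrt : ∀ᶠ x in 𝓝 (0 : ℂ), PL l x = 0 → x = 0 := by
    have hc : Continuous fun x : ℂ => (1 - x) * (1 - l * x) := by fun_prop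
    have : ∀ᶠ x in 𝓝 (0 : ℂ), (1 - x) * (1 - l * x) ≠ 0 :=
      hc.continuousAt.eventually_ne (by simp)
    filter_upwards [this] with x hx hx0
    unfold PL at hx0
    rw [mul_assoc] at hx0
    exact (mul_eq_zero.mp hx0).resolve_right hx
  have hhalf : Tendsto (fun u : ℂ => u / 2) (𝓝 0) (𝓝 0) := by
    have hc : Continuous fun u : ℂ => u / 2 := by fun_prop
    have := hc.tendsto 0
    rwa [zero_div] at this
  have hdbl : Tendsto (fun u : ℂ => 2 * u) (𝓝 0) (𝓝 0) := by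
    have hc : Continuous fun u : ℂ => 2 * u := by fun_prop
    have := hc.tendsto 0
    rwa [mul_zero] at this
  have hφt : Tendsto φ (𝓝 0) (𝓝 0) := by
    have := h1.continuousAt.tendsto
    rwa [h2] at this
  -- the function `X`
  set X : ℂ → ℂ := fun u => RL l (φ (u / 2)) with hX
  have hev := (hφt.comp hhalf).eventually hden
  have hXd : ∀ᶠ u in 𝓝 (0 : ℂ), HasDerivAt X
      (4 * ((1 - 2 * φ (u / 2) + l * φ (u / 2) ^ 2) *
        (1 - 2 * l * φ (u / 2) + l * φ (u / 2) ^ 2)) / (1 - l * φ (u / 2) ^ 2) ^ 3 *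
          (deriv φ (u / 2) * (1 / 2))) u := by
    filter_upwards [hev, hhalf.eventually h1.eventually_analyticAt] with u g1 g2
    have e1 : HasDerivAt (fun u : ℂ => u / 2) (1 / 2) u := (hasDerivAt_id u).div_const 2
    have e2 : HasDerivAt (fun u : ℂ => φ (u / 2)) (deriv φ (u / 2) * (1 / 2)) u :=
      HasDerivAt.comp u g2.differentiableAt.hasDerivAt e1
    exact HasDerivAt.comp u (E02_RL g1) e2
  have hXa : AnalyticAt ℂ X 0 := by
    obtain ⟨s, hs, hs0⟩ := Metric.eventually_nhds_iff_ball.mp hXd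
    have : DifferentiableOn ℂ X (ball (0 : ℂ) s) :=
      fun u hu => (hs0 u hu).differentiableAt.differentiableWithinAt
    exact this.analyticAt (ball_mem_nhds 0 hs)
  have hX0 : X 0 = 0 := by
    simp [hX, RL, PL, h2]
  have hφ'0 : deriv φ 0 = 0 := by
    have := h4.self_of_nhds
    rw [h2] at this
    have h5 : PL l 0 = 0 := by simp [PL]
    rw [h5] at this
    exact pow_eq_zero_iff two_ne_zero |>.mp this
  have hX'0 : deriv X 0 = 0 := by
    rw [hXd.self_of_nhds.deriv, zero_div, hφ'0]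
    ring
  have hXode : ∀ᶠ u in 𝓝 (0 : ℂ), deriv X u ^ 2 = PL l (X u) := by
    filter_upwards [hXd, hev, hhalf.eventually h4] with u g1 g2 g3
    rw [g1.deriv, mul_pow, mul_pow, g3]
    have g2' : 1 - l * φ (u / 2) ^ 2 ≠ 0 := g2
    have := E02_alg g2'
    change _ = PL l (RL l (φ (u / 2)))
    linear_combination this / 4
  have hXnc : ¬ ∀ᶠ u in 𝓝 (0 : ℂ), X u = X 0 := by
    intro hcon
    apply h3
    have hcon2 := hdbl.eventually hcon
    filter_upwards [hcon2, hφt.eventually hden, hφt.eventually hrt] with u g1 g2 g3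
    apply g3
    rw [hX0] at g1
    simp only [hX] at g1
    rw [mul_div_cancel_left₀ u two_ne_zero] at g1
    unfold RL at g1
    rw [div_eq_zero_iff] at g1
    rcases g1 with g1 | g1
    · simpa using g1
    · exact absurd g1 (pow_ne_zero 2 g2)
  have hX2 := ode2_of_ode hXa hXode hXnc
  have hφnc : ¬ ∀ᶠ u in 𝓝 (0 : ℂ), φ u = φ 0 := by
    rw [h2]
    exact h3
  have hφ2 := ode2_of_ode h1 h4 hφnc
  have huniq := ode_unique (l := l) (z₀ := 0) (w := fun _ => 1) (X := X) (Y := deriv X)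
    (X₁ := φ) (Y₁ := deriv φ) analyticAt_const hXa hXa.deriv h1 h1.deriv
    (by
      filter_upwards [hX2] with z hz
      rw [one_mul, one_mul]
      exact ⟨rfl, hz⟩)
    (by
      filter_upwards [hφ2] with z hz
      rw [one_mul, one_mul]
      exact ⟨rfl, hz⟩)
    (by rw [hX0, h2]) (by rw [hX'0, hφ'0])
  filter_upwards [hdbl.eventually huniq] with u hu
  rw [← hu.1]
  simp only [hX]
  rw [mul_div_cancel_left₀ u two_ne_zero]

end Pool.Agent.Lib.MP_b9289b_nt
end
end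

section

/-!
# E03: the global function `Φ_l`

Let `φ` be the local solution, analytic on `ball 0 (2r)` with `φ (2u) = RL l (φ u)` for
`u ∈ ball 0 r`.  `Φ_n u = (RL l)^[n] (φ (u / 2^n))` is meromorphic on `ball 0 (2^n r)` (a rational
function of a meromorphic function), and `Φ_{n+1} = Φ_n` on `ball 0 (2^n r)` near every point
(indeed `Φ_{n+1} u = (RL l)^[n] (RL l (φ (u/2^(n+1))))` and `RL l (φ (v/2)) = φ v` for
`v = u/2^n ∈ ball 0 (2r)`, `‖v/2‖ < r`: equality everywhere).  So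
`Φ u := Φ_n u` for the least `n` with `‖u‖ < 2^n r` satisfies `Φ = Φ_m` on `ball 0 (2^m r)` for all
`m`; it is meromorphic; replace it by its normal form (`toMeromorphicNFOn Φ univ`, Mathlib
`Analysis/Meromorphic/NormalForm.lean`).  The differential equation holds near `0`; both sides are
meromorphic on `ℂ`, so it holds outside a discrete set by the identity theorem, and at every point
where `Φ` is analytic by continuity; `ode2` in the same way (from `ode2_of_ode`).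
-/

open Filter Topology Metric
open scoped ComplexConjugate

noncomputable section

namespace Pool.Agent.Lib.MP_b9289b_nt

private lemma E03_meroPL {l : ℂ} {g : ℂ → ℂ} {u : ℂ} (hg : MeromorphicAt g u) :
    MeromorphicAt (fun z => PL l (g z)) u := by
  have h1 : MeromorphicAt (fun _ : ℂ => (1 : ℂ)) u := MeromorphicAt.const _ _
  have hl : MeromorphicAt (fun _ : ℂ => l) u := MeromorphicAt.const _ _
  have := (hg.mul (h1.sub hg)).mul (h1.sub (hl.mul hg))
  exact this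

private lemma E03_meroPL' {l : ℂ} {g : ℂ → ℂ} {u : ℂ} (hg : MeromorphicAt g u) :
    MeromorphicAt (fun z => PL' l (g z)) u := by
  have h1 : MeromorphicAt (fun _ : ℂ => (1 : ℂ)) u := MeromorphicAt.const _ _
  have h2 : MeromorphicAt (fun _ : ℂ => (2 * (1 + l) : ℂ)) u := MeromorphicAt.const _ _
  have h3 : MeromorphicAt (fun _ : ℂ => (3 * l : ℂ)) u := MeromorphicAt.const _ _
  exact (h1.sub (h2.mul hg)).add (h3.mul (hg.pow 2))

private lemma E03_meroRL {l : ℂ} {g : ℂ → ℂ} {u : ℂ} (hg : MeromorphicAt g u) :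
    MeromorphicAt (fun z => RL l (g z)) u := by
  have h1 : MeromorphicAt (fun _ : ℂ => (1 : ℂ)) u := MeromorphicAt.const _ _
  have h4 : MeromorphicAt (fun _ : ℂ => (4 : ℂ)) u := MeromorphicAt.const _ _
  have hl : MeromorphicAt (fun _ : ℂ => l) u := MeromorphicAt.const _ _
  exact (h4.mul (E03_meroPL hg)).div ((h1.sub (hl.mul (hg.pow 2))).pow 2)

private lemma E03_meroIter {l : ℂ} {g : ℂ → ℂ} {u : ℂ} (hg : MeromorphicAt g u) (n : ℕ) :
    MeromorphicAt (fun z => (RL l)^[n] (g z)) u := by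
  induction n with
  | zero => simpa using hg
  | succ n ih =>
    simp only [Function.iterate_succ_apply']
    exact E03_meroRL ih

/-- identity theorem: a meromorphic function on `ℂ` vanishing near `0` vanishes near each point. -/
private lemma E03_identity {G : ℂ → ℂ} (hG : ∀ u, MeromorphicAt G u)
    (h0 : ∀ᶠ u in 𝓝 (0 : ℂ), G u = 0) (u : ℂ) : ∀ᶠ z in 𝓝[≠] u, G z = 0 := by
  have hM : Meromorphic G := fun u => hG u
  by_contra hcon
  have h1 : meromorphicOrderAt G u ≠ ⊤ := fun h => hcon (meromorphicOrderAt_eq_top_iff.1 h)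
  have h2 := hM.exists_meromorphicOrderAt_ne_top_iff_forall.1 ⟨u, h1⟩ 0
  exact h2 (meromorphicOrderAt_eq_top_iff.2 (h0.filter_mono nhdsWithin_le_nhds))

private lemma E03_eval {G : ℂ → ℂ} {u : ℂ} (hG : ContinuousAt G u)
    (h : ∀ᶠ z in 𝓝[≠] u, G z = 0) : G u = 0 := by
  have h1 : Tendsto G (𝓝[≠] u) (𝓝 (G u)) := hG.tendsto.mono_left nhdsWithin_le_nhds
  have h2 : Tendsto G (𝓝[≠] u) (𝓝 0) := by
    refine Tendsto.congr' ?_ tendsto_const_nhds
    filter_upwards [h] with z hz using hz.symm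
  exact tendsto_nhds_unique h1 h2

theorem exists_isPhi (l : ℂ) : ∃ Φ : ℂ → ℂ, IsPhi l Φ := by
  classical
  obtain ⟨φ, hφ, hφ0, hnc, hode⟩ := exists_local l
  have hdup := duplication hφ hφ0 hnc hode
  obtain ⟨r, hr, hball⟩ : ∃ r > 0, ∀ u : ℂ, ‖u‖ < r →
      AnalyticAt ℂ φ u ∧ φ (2 * u) = RL l (φ u) := by
    have h := hφ.eventually_analyticAt.and hdup
    rw [Metric.eventually_nhds_iff] at h
    obtain ⟨r, hr, h⟩ := h
    exact ⟨r, hr, fun u hu => h (by simpa using hu)⟩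
  -- `Φ_n`
  set P : ℕ → ℂ → ℂ := fun n u => (RL l)^[n] (φ (u / 2 ^ n)) with hP
  have hstep : ∀ (n : ℕ) (u : ℂ), ‖u‖ < 2 ^ n * r → P (n + 1) u = P n u := by
    intro n u hu
    simp only [hP, Function.iterate_succ_apply]
    have h1 : ‖u / 2 ^ (n + 1)‖ < r := by
      rw [norm_div, norm_pow, Complex.norm_ofNat, div_lt_iff₀ (by positivity)]
      calc ‖u‖ < 2 ^ n * r := hu
        _ ≤ r * 2 ^ (n + 1) := by rw [pow_succ]; nlinarith [pow_pos (two_pos : (0:ℝ) < 2) n]
    rw [← (hball _ h1).2]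
    congr 2
    rw [pow_succ]
    field_simp
  have hmono : ∀ (n k : ℕ) (u : ℂ), ‖u‖ < 2 ^ n * r → P (n + k) u = P n u := by
    intro n k u hu
    induction k with
    | zero => rfl
    | succ k ih =>
      rw [← add_assoc, hstep (n + k) u, ih]
      refine hu.trans_le ?_
      have : (2 : ℝ) ^ n ≤ 2 ^ (n + k) := pow_le_pow_right₀ (by norm_num) (by omega)
      nlinarith
  have hex : ∀ u : ℂ, ∃ n : ℕ, ‖u‖ < 2 ^ n * r := by
    intro u
    obtain ⟨n, hn⟩ := pow_unbounded_of_one_lt (‖u‖ / r) (by norm_num : (1 : ℝ) < 2)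
    exact ⟨n, by rwa [div_lt_iff₀ hr] at hn⟩
  set F : ℂ → ℂ := fun u => P (Nat.find (hex u)) u with hF
  have hFP : ∀ (m : ℕ) (u : ℂ), ‖u‖ < 2 ^ m * r → F u = P m u := by
    intro m u hu
    have h1 : Nat.find (hex u) ≤ m := Nat.find_min' (hex u) hu
    obtain ⟨k, hk⟩ := Nat.exists_eq_add_of_le h1
    have := hmono (Nat.find (hex u)) k u (Nat.find_spec (hex u))
    rw [← hk] at this
    simp only [hF]
    exact this.symm
  have hPmero : ∀ (n : ℕ) (u : ℂ), ‖u‖ < 2 ^ n * r → MeromorphicAt (P n) u := by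
    intro n u hu
    have h1 : ‖u / 2 ^ n‖ < r := by
      rw [norm_div, norm_pow, Complex.norm_ofNat, div_lt_iff₀ (by positivity)]
      linarith
    have h2 : AnalyticAt ℂ (fun z : ℂ => z / 2 ^ n) u := by
      exact analyticAt_id.div_const
    have h3 : AnalyticAt ℂ (fun z : ℂ => φ (z / 2 ^ n)) u :=
      AnalyticAt.fun_comp (hball _ h1).1 h2
    exact E03_meroIter h3.meromorphicAt n
  have hev : ∀ (n : ℕ) (u : ℂ), ‖u‖ < 2 ^ n * r → F =ᶠ[𝓝 u] P n := by
    intro n u hu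
    have : ∀ᶠ z : ℂ in 𝓝 u, ‖z‖ < 2 ^ n * r :=
      (continuous_norm.tendsto u).eventually (gt_mem_nhds hu)
    filter_upwards [this] with z hz using hFP n z hz
  have hFmero : ∀ u, MeromorphicAt F u := by
    intro u
    obtain ⟨n, hn⟩ := hex u
    exact (hPmero n u hn).congr ((hev n u hn).symm.filter_mono nhdsWithin_le_nhds)
  have hFon : MeromorphicOn F Set.univ := fun u _ => hFmero u
  set Φ : ℂ → ℂ := toMeromorphicNFOn F Set.univ with hΦ
  have hnf : ∀ u, MeromorphicNFAt Φ u := fun u => meromorphicNFOn_toMeromorphicNFOn F Set.univ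
    (Set.mem_univ u)
  have hFφ : F =ᶠ[𝓝 0] φ := by
    refine (hev 0 0 (by simpa using hr)).trans ?_
    filter_upwards with z
    simp [hP]
  have hF0 : AnalyticAt ℂ F 0 := hφ.congr hFφ.symm
  have hΦF : Φ =ᶠ[𝓝 0] F := by
    have h1 := toMeromorphicNFOn_eq_toMeromorphicNFAt_on_nhds hFon (Set.mem_univ (0 : ℂ))
    rw [toMeromorphicNFAt_eq_self.2 hF0.meromorphicNFAt] at h1
    exact h1
  have hΦφ : Φ =ᶠ[𝓝 0] φ := hΦF.trans hFφ
  have hΦ0 : AnalyticAt ℂ Φ 0 := hφ.congr hΦφ.symm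
  have hode0 : ∀ᶠ u in 𝓝 (0 : ℂ), deriv Φ u ^ 2 = PL l (Φ u) := by
    filter_upwards [hΦφ.deriv, hΦφ, hode] with u h1 h2 h3
    rw [h1, h2, h3]
  have hΦ00 : Φ 0 = 0 := by rw [hΦφ.eq_of_nhds, hφ0]
  have hΦnc : ¬ ∀ᶠ u in 𝓝 (0 : ℂ), Φ u = 0 := by
    intro h
    apply hnc
    filter_upwards [h, hΦφ] with u h1 h2
    rw [← h2, h1]
  have hode20 : ∀ᶠ u in 𝓝 (0 : ℂ), deriv (deriv Φ) u = PL' l (Φ u) / 2 :=
    ode2_of_ode hΦ0 hode0 (by rw [hΦ00]; exact hΦnc)
  have hΦmero : ∀ u, MeromorphicAt Φ u := fun u => (hnf u).meromorphicAt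
  refine ⟨Φ, hnf, hΦ0, hΦ00, hΦnc, ?_, ?_⟩
  · intro u hu
    have hG : ∀ u, MeromorphicAt (fun z => deriv Φ z ^ 2 - PL l (Φ z)) u := fun u =>
      ((hΦmero u).deriv.pow 2).sub (E03_meroPL (hΦmero u))
    have h0 : ∀ᶠ u in 𝓝 (0 : ℂ), deriv Φ u ^ 2 - PL l (Φ u) = 0 := by
      filter_upwards [hode0] with u h
      rw [h, sub_self]
    have h1 := E03_identity hG h0 u
    have hc : ContinuousAt (fun z => deriv Φ z ^ 2 - PL l (Φ z)) u := by
      have h2 : ContinuousAt (deriv Φ) u := hu.deriv.continuousAt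
      have h3 : ContinuousAt Φ u := hu.continuousAt
      have h4 : ContinuousAt (fun z => PL l (Φ z)) u :=
        ContinuousAt.comp' (hasDerivAt_PL l (Φ u)).continuousAt h3
      exact (h2.pow 2).sub h4
    have h5 := E03_eval hc h1
    exact sub_eq_zero.1 h5
  · intro u hu
    have hG : ∀ u, MeromorphicAt (fun z => deriv (deriv Φ) z - PL' l (Φ z) / 2) u := fun u =>
      (hΦmero u).deriv.deriv.sub ((E03_meroPL' (hΦmero u)).div (MeromorphicAt.const 2 u))
    have h0 : ∀ᶠ u in 𝓝 (0 : ℂ), deriv (deriv Φ) u - PL' l (Φ u) / 2 = 0 := by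
      filter_upwards [hode20] with u h
      rw [h, sub_self]
    have h1 := E03_identity hG h0 u
    have hc : ContinuousAt (fun z => deriv (deriv Φ) z - PL' l (Φ z) / 2) u := by
      have h2 : ContinuousAt (deriv (deriv Φ)) u := hu.deriv.deriv.continuousAt
      have h3 : ContinuousAt Φ u := hu.continuousAt
      have h4 : ContinuousAt (fun z => PL' l (Φ z)) u := by
        unfold PL'
        fun_prop
      exact h2.sub (h4.div_const 2)
    have h5 := E03_eval hc h1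
    exact sub_eq_zero.1 h5

end Pool.Agent.Lib.MP_b9289b_nt
end
end

section

/-!
# E05: `2 K(l)` is a period of `Φ_l`

`U = {φ ∈ ℂ : 1 - l sin² φ ∈ slitPlane}` is open and contains `[0, π/2]` (`1 - l ∈ slitPlane` and
`slitPlane` is star shaped about `1`).  Choose a thickening `V ⊆ U` of the segment `[0, π/2]`
(convex, open) and a primitive `g` (`g 0 = 0`) of `(1 - l sin² φ)^(-1/2)` on `V`
(`Convex.exists_forall_hasDerivWithinAt`).  `X = Φ ∘ (2 g)`, `Y = Φ' ∘ (2 g)` and `X₁ = sin²`,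
`Y₁ = sin cos (1 - l sin²)^(1/2)` satisfy near `0` the equations `X' = w Y`, `Y' = w P'(X)/2` with
`w = 2 (1 - l sin²)^(-1/2)` and have the same value `(0, 0)` at `0`: so `Φ (2 g φ) = sin² φ` near
`0` by `ode_unique`, hence for `φ ∈ V` outside a discrete set (identity theorem, `V` preconnected;
`2 g` is not constant because `g' ≠ 0`).  At `φ = π/2`: `2 g (π/2) = KK l` (fundamental theorem of
calculus on the segment), `2 g` is a local homeomorphism there, so `Φ` tends to `1` at `KK l`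
(punctured) and is analytic there (normal form), `Φ (KK l) = 1` by continuity, and
`Φ'(KK l)² = P_l(1) = 0`.  Then `IsPhi.two_mul_mem`.
-/

open Filter Topology Metric
open scoped ComplexConjugate

noncomputable section

namespace Pool.Agent.Lib.MP_b9289b_nt

/-- the integrand -/
private def ff (l φ : ℂ) : ℂ := (1 - l * Complex.sin φ ^ 2) ^ (-(1 / 2) : ℂ)

private lemma slit_segment {l : ℂ} (hl : 1 - l ∈ Complex.slitPlane) {s : ℝ} (h0 : 0 ≤ s)
    (h1 : s ≤ 1) : 1 - l * (s : ℂ) ∈ Complex.slitPlane := by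
  rw [Complex.mem_slitPlane_iff] at hl ⊢
  have e1 : (1 - l * (s : ℂ)).re = 1 - l.re * s := by simp
  have e2 : (1 - l * (s : ℂ)).im = -(l.im * s) := by simp
  have e3 : (1 - l).re = 1 - l.re := by simp
  have e4 : (1 - l).im = -l.im := by simp
  rw [e1, e2]
  rw [e3, e4] at hl
  rcases hl with h | h
  · left
    rcases le_or_gt l.re 0 with h2 | h2
    · nlinarith
    · nlinarith
  · rcases h0.eq_or_lt with h2 | h2
    · left
      rw [← h2]
      norm_num
    · right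
      rw [neg_ne_zero] at h ⊢
      exact mul_ne_zero h h2.ne'

private lemma exists_prim {l : ℂ} (hl : 1 - l ∈ Complex.slitPlane) : ∃ (V : Set ℂ) (g : ℂ → ℂ),
    IsOpen V ∧ Convex ℝ V ∧ (∀ t : ℝ, 0 ≤ t → t ≤ Real.pi / 2 → (t : ℂ) ∈ V) ∧
    (∀ z ∈ V, 1 - l * Complex.sin z ^ 2 ∈ Complex.slitPlane) ∧ g 0 = 0 ∧
    DifferentiableOn ℂ (ff l) V ∧ ∀ z ∈ V, HasDerivAt g (ff l z) z := by
  set K : Set ℂ := (fun t : ℝ => (t : ℂ)) '' Set.Icc 0 (Real.pi / 2) with hK
  set U : Set ℂ := (fun z : ℂ => 1 - l * Complex.sin z ^ 2) ⁻¹' Complex.slitPlane with hU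
  have hKc : IsCompact K := isCompact_Icc.image Complex.continuous_ofReal
  have hKconv : Convex ℝ K := by
    have h : K = Complex.ofRealCLM '' Set.Icc 0 (Real.pi / 2) := rfl
    rw [h]
    exact (convex_Icc 0 (Real.pi / 2)).linear_image Complex.ofRealCLM.toLinearMap
  have hUo : IsOpen U := by
    refine Complex.isOpen_slitPlane.preimage ?_
    fun_prop
  have hKU : K ⊆ U := by
    rintro _ ⟨t, ht, rfl⟩
    have h1 : Real.sin t ^ 2 ≤ 1 := Real.sin_sq_le_one t
    have h2 := slit_segment hl (sq_nonneg (Real.sin t)) h1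
    change 1 - l * Complex.sin (t : ℂ) ^ 2 ∈ Complex.slitPlane
    rw [← Complex.ofReal_sin]
    exact_mod_cast h2
  obtain ⟨δ, hδ, hsub⟩ := hKc.exists_thickening_subset_open hUo hKU
  have hd : DifferentiableOn ℂ (ff l) (thickening δ K) := by
    intro z hz
    refine DifferentiableAt.differentiableWithinAt ?_
    refine DifferentiableAt.cpow_const ?_ (hsub hz)
    fun_prop
  obtain ⟨g, hg⟩ := (hKconv.thickening δ).exists_forall_hasDerivWithinAt hd
  refine ⟨thickening δ K, fun z => g z - g 0, isOpen_thickening, hKconv.thickening δ, ?_,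
    fun z hz => hsub hz, sub_self _, hd, ?_⟩
  · intro t h0 h1
    exact self_subset_thickening hδ K ⟨t, ⟨h0, h1⟩, rfl⟩
  · intro z hz
    exact ((hg z hz).hasDerivAt (isOpen_thickening.mem_nhds hz)).sub_const _

private lemma KK_eq {l : ℂ} {V : Set ℂ} {g : ℂ → ℂ}
    (hV : ∀ t : ℝ, 0 ≤ t → t ≤ Real.pi / 2 → (t : ℂ) ∈ V) (hd : DifferentiableOn ℂ (ff l) V)
    (hg : ∀ z ∈ V, HasDerivAt g (ff l z) z) (hg0 : g 0 = 0) :
    KK l = 2 * g ((Real.pi / 2 : ℝ) : ℂ) := by
  have hpi : (0 : ℝ) ≤ Real.pi / 2 := by positivity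
  have e : ∀ t : ℝ, (1 - l * (Real.sin t : ℂ) ^ 2) ^ (-(1 / 2) : ℂ) = ff l (t : ℂ) := by
    intro t
    unfold ff
    rw [Complex.ofReal_sin]
  unfold KK
  congr 1
  simp only [e]
  have h := intervalIntegral.integral_eq_sub_of_hasDerivAt (a := 0) (b := Real.pi / 2)
    (f := fun t : ℝ => g (t : ℂ)) (f' := fun t : ℝ => ff l (t : ℂ)) ?_ ?_
  · rw [h, Complex.ofReal_zero, hg0, sub_zero]
  · intro t ht
    rw [Set.uIcc_of_le hpi] at ht
    exact (hg _ (hV t ht.1 ht.2)).comp_ofReal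
  · apply ContinuousOn.intervalIntegrable
    rw [Set.uIcc_of_le hpi]
    exact hd.continuousOn.comp Complex.continuous_ofReal.continuousOn fun t ht => hV t ht.1 ht.2

/-- the functions `sin²` and `sin cos √(1 - l sin²)` -/
private lemma trig_ode {l z : ℂ} (hz : 1 - l * Complex.sin z ^ 2 ∈ Complex.slitPlane) :
    deriv (fun z : ℂ => Complex.sin z ^ 2) z = 2 * ff l z *
      (Complex.sin z * Complex.cos z * (1 - l * Complex.sin z ^ 2) ^ ((1 / 2 : ℂ))) ∧
    deriv (fun z : ℂ => Complex.sin z * Complex.cos z *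
      (1 - l * Complex.sin z ^ 2) ^ ((1 / 2 : ℂ))) z =
      2 * ff l z * (PL' l (Complex.sin z ^ 2) / 2) := by
  set a := 1 - l * Complex.sin z ^ 2 with ha
  have ha0 : a ≠ 0 := Complex.slitPlane_ne_zero hz
  have e1 : ff l z * a ^ (1 / 2 : ℂ) = 1 := by
    unfold ff
    rw [← ha, ← Complex.cpow_add _ _ ha0]
    norm_num
  have e2 : a ^ (1 / 2 : ℂ) = a * ff l z := by
    unfold ff
    rw [← ha]
    nth_rewrite 2 [← Complex.cpow_one a]
    rw [← Complex.cpow_add _ _ ha0]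
    norm_num
  have hs := Complex.hasDerivAt_sin z
  have hc := Complex.hasDerivAt_cos z
  have hs2 : HasDerivAt (fun z : ℂ => Complex.sin z ^ 2) (2 * Complex.sin z * Complex.cos z) z := by
    have h := hs.pow 2
    refine h.congr_deriv ?_
    norm_num
  have ha' : HasDerivAt (fun z : ℂ => 1 - l * Complex.sin z ^ 2)
      (-(l * (2 * Complex.sin z * Complex.cos z))) z := by
    simpa using (hs2.const_mul l).const_sub 1
  have hh := ha'.cpow_const (c := (1 / 2 : ℂ)) hz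
  have hsc := (hs.mul hc).mul hh
  constructor
  · rw [hs2.deriv]
    calc 2 * Complex.sin z * Complex.cos z
        = 2 * Complex.sin z * Complex.cos z * (ff l z * a ^ (1 / 2 : ℂ)) := by rw [e1, mul_one]
      _ = _ := by ring
  · have h3 : HasDerivAt (fun z : ℂ => Complex.sin z * Complex.cos z *
        (1 - l * Complex.sin z ^ 2) ^ ((1 / 2 : ℂ))) _ z := hsc
    rw [h3.deriv, ← ha]
    have e3 : a ^ (1 / 2 - 1 : ℂ) = ff l z := by
      unfold ff
      rw [← ha]
      norm_num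
    have e5 : (Complex.sin * Complex.cos) z = Complex.sin z * Complex.cos z := rfl
    rw [e3, e2, e5]
    have e4 : Complex.cos z ^ 2 = 1 - Complex.sin z ^ 2 := by
      rw [← Complex.sin_sq_add_cos_sq z]
      ring
    unfold PL'
    rw [ha]
    linear_combination (ff l z * (1 - 2 * l * Complex.sin z ^ 2)) * e4

theorem IsPhi.KK_mem {l : ℂ} {Φ : ℂ → ℂ} (hΦ : IsPhi l Φ) (hl : 1 - l ∈ Complex.slitPlane) :
    2 * KK l ∈ PerGrp Φ := by
  obtain ⟨V, g, hVo, hVc, hV, hVs, hg0, hd, hg⟩ := exists_prim hl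
  have hpi : (0 : ℝ) ≤ Real.pi / 2 := by positivity
  have h0V : (0 : ℂ) ∈ V := by
    have := hV 0 le_rfl hpi
    rwa [Complex.ofReal_zero] at this
  have h1V : ((Real.pi / 2 : ℝ) : ℂ) ∈ V := hV _ hpi le_rfl
  have hgA : ∀ z ∈ V, AnalyticAt ℂ g z := fun z hz =>
    DifferentiableOn.analyticAt (s := V)
      (fun w hw => (hg w hw).differentiableAt.differentiableWithinAt) (hVo.mem_nhds hz)
  have h2gA : ∀ z ∈ V, AnalyticAt ℂ (fun z => 2 * g z) z := fun z hz =>
    analyticAt_const.mul (hgA z hz)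
  have h2g : ∀ z ∈ V, HasDerivAt (fun z => 2 * g z) (2 * ff l z) z := fun z hz =>
    (hg z hz).const_mul 2
  have hffA : ∀ z ∈ V, AnalyticAt ℂ (ff l) z := fun z hz => hd.analyticAt (hVo.mem_nhds hz)
  have e0 : (fun z => 2 * g z) 0 = 0 := by simp [hg0]
  have hΦ0 : AnalyticAt ℂ Φ ((fun z => 2 * g z) 0) := by
    rw [e0]
    exact hΦ.analytic_zero
  have hXA : AnalyticAt ℂ (fun z => Φ (2 * g z)) 0 :=
    AnalyticAt.comp (g := Φ) (f := fun z => 2 * g z) hΦ0 (h2gA 0 h0V)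
  have hYA : AnalyticAt ℂ (fun z => deriv Φ (2 * g z)) 0 :=
    AnalyticAt.comp (g := deriv Φ) (f := fun z => 2 * g z) hΦ0.deriv (h2gA 0 h0V)
  have hX₁A : AnalyticAt ℂ (fun z : ℂ => Complex.sin z ^ 2) 0 := by fun_prop
  have hY₁A : AnalyticAt ℂ (fun z : ℂ => Complex.sin z * Complex.cos z *
      (1 - l * Complex.sin z ^ 2) ^ ((1 / 2 : ℂ))) 0 := by
    refine DifferentiableOn.analyticAt (s := V) (fun w hw => ?_) (hVo.mem_nhds h0V)
    refine DifferentiableAt.differentiableWithinAt ?_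
    refine DifferentiableAt.mul (by fun_prop) ?_
    exact DifferentiableAt.cpow_const (by fun_prop) (hVs w hw)
  have hwA : AnalyticAt ℂ (fun z => 2 * ff l z) 0 := analyticAt_const.mul (hffA 0 h0V)
  -- the two systems
  have hev0 : ∀ᶠ z in 𝓝 (0 : ℂ), z ∈ V := hVo.mem_nhds h0V
  have hev : ∀ᶠ z in 𝓝 (0 : ℂ), z ∈ V ∧ AnalyticAt ℂ Φ (2 * g z) :=
    hev0.and ((h2gA 0 h0V).continuousAt.eventually hΦ0.eventually_analyticAt)
  have key := ode_unique (l := l) hwA hXA hYA hX₁A hY₁A (by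
    filter_upwards [hev] with z hz
    constructor
    · have h1 := hz.2.differentiableAt.hasDerivAt.comp z (h2g z hz.1)
      have h2 : HasDerivAt (fun z => Φ (2 * g z)) (deriv Φ (2 * g z) * (2 * ff l z)) z := h1
      rw [h2.deriv, mul_comm]
    · have h1 := hz.2.deriv.differentiableAt.hasDerivAt.comp z (h2g z hz.1)
      have h2 : HasDerivAt (fun z => deriv Φ (2 * g z))
        (deriv (deriv Φ) (2 * g z) * (2 * ff l z)) z := h1
      rw [h2.deriv, hΦ.ode2 _ hz.2, mul_comm]) (by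
    filter_upwards [hVo.mem_nhds h0V] with z hz
    exact trig_ode (hVs z hz)) (by
    have h1 : Φ (2 * g 0) = 0 := by rw [hg0, mul_zero, hΦ.map_zero]
    rw [h1]
    simp) (by
    have h1 : deriv Φ (2 * g 0) = 0 := by
      rw [hg0, mul_zero]
      have h2 := hΦ.ode 0 hΦ.analytic_zero
      rw [hΦ.map_zero] at h2
      have h3 : PL l 0 = 0 := by simp [PL]
      rw [h3] at h2
      exact pow_eq_zero_iff (two_ne_zero) |>.1 h2
    rw [h1]
    simp)
  -- the identity theorem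
  have hmX : ∀ z ∈ V, MeromorphicAt (fun z => Φ (2 * g z)) z := fun z hz =>
    MeromorphicAt.comp_analyticAt (f := Φ) (g := fun z => 2 * g z) (hΦ.nf _).meromorphicAt
      (h2gA z hz)
  have hms : ∀ z : ℂ, AnalyticAt ℂ (fun z : ℂ => Complex.sin z ^ 2) z := fun z => by fun_prop
  have hmF : MeromorphicOn (fun z => Φ (2 * g z) - Complex.sin z ^ 2) V := fun z hz =>
    (hmX z hz).sub (hms z).meromorphicAt
  have htop : meromorphicOrderAt (fun z => Φ (2 * g z) - Complex.sin z ^ 2)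
      ((Real.pi / 2 : ℝ) : ℂ) = ⊤ := by
    by_contra hne
    have h2 := hmF.meromorphicOrderAt_ne_top_of_isPreconnected hVc.isPreconnected h1V h0V hne
    apply h2
    rw [meromorphicOrderAt_eq_top_iff]
    refine Filter.Eventually.filter_mono nhdsWithin_le_nhds ?_
    filter_upwards [key] with z hz
    rw [hz.1, sub_self]
  rw [meromorphicOrderAt_eq_top_iff] at htop
  have hev1 : (fun z => Φ (2 * g z)) =ᶠ[𝓝[≠] ((Real.pi / 2 : ℝ) : ℂ)]
      (fun z => Complex.sin z ^ 2) := by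
    filter_upwards [htop] with z hz
    exact sub_eq_zero.1 hz
  -- `Φ` is analytic at `κ₀`
  have hff0 : ff l ((Real.pi / 2 : ℝ) : ℂ) ≠ 0 := by
    unfold ff
    rw [Ne, Complex.cpow_eq_zero_iff]
    rintro ⟨h, -⟩
    exact Complex.slitPlane_ne_zero (hVs _ h1V) h
  have hord : meromorphicOrderAt (Φ ∘ (fun z => 2 * g z)) ((Real.pi / 2 : ℝ) : ℂ) =
      meromorphicOrderAt Φ (2 * g ((Real.pi / 2 : ℝ) : ℂ)) :=
    meromorphicOrderAt_comp_of_deriv_ne_zero (h2gA _ h1V) (by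
      rw [(h2g _ h1V).deriv]
      exact mul_ne_zero two_ne_zero hff0)
  have hnn : 0 ≤ meromorphicOrderAt Φ (2 * g ((Real.pi / 2 : ℝ) : ℂ)) := by
    rw [← hord]
    have h1 : meromorphicOrderAt (Φ ∘ (fun z => 2 * g z)) ((Real.pi / 2 : ℝ) : ℂ) =
        meromorphicOrderAt (fun z : ℂ => Complex.sin z ^ 2) ((Real.pi / 2 : ℝ) : ℂ) :=
      meromorphicOrderAt_congr hev1
    rw [h1]
    exact (hms _).meromorphicOrderAt_nonneg
  have hκA : AnalyticAt ℂ Φ (2 * g ((Real.pi / 2 : ℝ) : ℂ)) :=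
    (hΦ.nf _).meromorphicOrderAt_nonneg_iff_analyticAt.1 hnn
  have hval : Φ (2 * g ((Real.pi / 2 : ℝ) : ℂ)) = 1 := by
    have h1 : Tendsto (fun z => Φ (2 * g z)) (𝓝[≠] ((Real.pi / 2 : ℝ) : ℂ))
        (𝓝 (Φ (2 * g ((Real.pi / 2 : ℝ) : ℂ)))) := by
      refine Tendsto.mono_left ?_ nhdsWithin_le_nhds
      exact ContinuousAt.comp (g := Φ) (f := fun z => 2 * g z) hκA.continuousAt
        (h2gA _ h1V).continuousAt
    have h2 : Tendsto (fun z : ℂ => Complex.sin z ^ 2) (𝓝[≠] ((Real.pi / 2 : ℝ) : ℂ))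
        (𝓝 (Complex.sin ((Real.pi / 2 : ℝ) : ℂ) ^ 2)) :=
      (hms _).continuousAt.tendsto.mono_left nhdsWithin_le_nhds
    have h3 := tendsto_nhds_unique (h1.congr' hev1) h2
    rw [h3, ← Complex.ofReal_sin, Real.sin_pi_div_two]
    simp
  have hder : deriv Φ (2 * g ((Real.pi / 2 : ℝ) : ℂ)) = 0 := by
    have h2 := hΦ.ode _ hκA
    rw [hval] at h2
    have h3 : PL l 1 = 0 := by simp [PL]
    rw [h3] at h2
    exact pow_eq_zero_iff (two_ne_zero) |>.1 h2
  rw [KK_eq hV hd hg hg0]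
  exact hΦ.two_mul_mem hκA hder

/-- also `2 i K(1-l)` is a period (`IsPhi.imag` and `exists_isPhi`). -/
theorem IsPhi.I_KK_mem {l : ℂ} {Φ Ψ : ℂ → ℂ} (hΦ : IsPhi l Φ) (hΨ : IsPhi (1 - l) Ψ)
    (hl : l ∈ Complex.slitPlane) : 2 * (Complex.I * KK (1 - l)) ∈ PerGrp Φ := by
  have h1 := hΨ.KK_mem (by rwa [sub_sub_cancel])
  have h2 := hΦ.imag hΨ h1
  rwa [mul_left_comm] at h2

end Pool.Agent.Lib.MP_b9289b_nt
end
end

section

/-!
# E14: lattices in `ℂ`

`rat_of_discrete`: `L` discrete, `v₁, v₂ ∈ L` linearly independent over `ℝ`, then every `z ∈ L` is a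
rational combination of `v₁, v₂`: the elements `n z - (element of ℤ v₁ + ℤ v₂)` can be chosen in
the compact fundamental parallelogram, where `L` has only finitely many elements (a discrete
subgroup is closed, `AddSubgroup.isClosed_of_discrete`), so two of them coincide for
`n ≠ n'`.

`lattice_compare`: choose `p₁, p₂ ∈ P` independent (possible since `P` is not in a real line),
`Qlat l = ℚ p₁ + ℚ p₂` by `rat_of_discrete` for `L` (both inclusions; `K(l), i K(1-l)` are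
independent as `Im T(l) ≠ 0`), in the same way `Qlat l' = ℚ q₁ + ℚ q₂`; in `M` the elements
`c p₁, c p₂` are independent, so `c' q₁, c' q₂` are rational combinations of them and vice versa;
thus `c Qlat l = c' Qlat l'`.
-/

open Filter Topology Metric
open scoped ComplexConjugate
noncomputable section
namespace Pool.Agent.Lib.MP_b9289b_nt

private lemma indep_real {v₁ v₂ : ℂ} (hv : (v₂ * conj v₁).im ≠ 0) {a b : ℝ}
    (h : (a : ℂ) * v₁ + b * v₂ = 0) : a = 0 ∧ b = 0 := by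
  have hre := congrArg Complex.re h
  have him := congrArg Complex.im h
  simp at hre him hv
  have hb : b * (v₂.im * v₁.re - v₂.re * v₁.im) = 0 := by
    linear_combination v₁.re * him - v₁.im * hre
  have ha : a * (v₂.im * v₁.re - v₂.re * v₁.im) = 0 := by
    linear_combination (-v₂.re) * him + v₂.im * hre
  have hne : (v₂.im * v₁.re - v₂.re * v₁.im) ≠ 0 := by
    intro h0; apply hv; linarith
  exact ⟨(mul_eq_zero.mp ha).resolve_right hne, (mul_eq_zero.mp hb).resolve_right hne⟩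

theorem rat_of_discrete {L : AddSubgroup ℂ} (hL : DiscreteTopology L) {v₁ v₂ z : ℂ} (h₁ : v₁ ∈ L)
    (h₂ : v₂ ∈ L) (hz : z ∈ L) (hv : (v₂ * conj v₁).im ≠ 0) :
    ∃ m n : ℚ, z = m * v₁ + n * v₂ := by
  classical
  let S : Submodule ℤ ℂ := AddSubgroup.toIntSubmodule L
  have hD : DiscreteTopology S := hL
  have hspan : Submodule.span ℝ (S : Set ℂ) = ⊤ := by
    rw [eq_top_iff]
    intro w _
    have hS1 : v₁ ∈ Submodule.span ℝ (S : Set ℂ) := Submodule.subset_span h₁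
    have hS2 : v₂ ∈ Submodule.span ℝ (S : Set ℂ) := Submodule.subset_span h₂
    set D : ℝ := (v₂ * conj v₁).im with hD
    have hw : w = (((v₂ * conj w).im / D : ℝ)) • v₁ + ((w * conj v₁).im / D : ℝ) • v₂ := by
      have hD' : D = v₂.im * v₁.re - v₂.re * v₁.im := by rw [hD]; simp; ring
      apply Complex.ext
      · simp
        field_simp
        rw [hD']; ring
      · simp
        field_simp
        rw [hD']; ring
    rw [hw]
    exact Submodule.add_mem _ (Submodule.smul_mem _ _ hS1) (Submodule.smul_mem _ _ hS2)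
  have : IsZLattice ℝ S := ⟨hspan⟩
  have : Module.Finite ℤ S := ZLattice.module_finite ℝ S
  have hr : Module.finrank ℤ S = 2 := by
    rw [ZLattice.rank ℝ S]; exact Complex.finrank_real_complex
  let f : Fin 3 → S := ![⟨v₁, h₁⟩, ⟨v₂, h₂⟩, ⟨z, hz⟩]
  have hdep : ¬ LinearIndependent ℤ f := by
    intro hli
    have := hli.fintype_card_le_finrank
    rw [hr] at this
    simp at this
  rw [Fintype.linearIndependent_iff] at hdep
  push Not at hdep
  obtain ⟨g, hg, i, hi⟩ := hdep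
  have hg' : (g 0 : ℂ) * v₁ + g 1 * v₂ + g 2 * z = 0 := by
    have := congrArg (fun x : S => (x : ℂ)) hg
    simpa [Fin.sum_univ_three, f] using this
  have hg2 : g 2 ≠ 0 := by
    intro h0
    rw [h0] at hg'
    have h3 : ((g 0 : ℝ) : ℂ) * v₁ + ((g 1 : ℝ) : ℂ) * v₂ = 0 := by
      simpa using hg'
    obtain ⟨ha, hb⟩ := indep_real hv h3
    have ha' : g 0 = 0 := by exact_mod_cast ha
    have hb' : g 1 = 0 := by exact_mod_cast hb
    fin_cases i <;> simp_all
  have hg2' : (g 2 : ℂ) ≠ 0 := by exact_mod_cast hg2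
  refine ⟨-(g 0 : ℚ) / g 2, -(g 1 : ℚ) / g 2, ?_⟩
  push_cast
  field_simp
  linear_combination hg'

private lemma span_le_of_discrete {L : AddSubgroup ℂ} (hL : DiscreteTopology L) {v₁ v₂ w₁ w₂ : ℂ}
    (h₁ : v₁ ∈ L) (h₂ : v₂ ∈ L) (hw₁ : w₁ ∈ L) (hw₂ : w₂ ∈ L) (hv : (v₂ * conj v₁).im ≠ 0) :
    Submodule.span ℚ ({w₁, w₂} : Set ℂ) ≤ Submodule.span ℚ ({v₁, v₂} : Set ℂ) := by
  rw [Submodule.span_le]
  intro w hw
  have hwL : w ∈ L := by
    rcases hw with rfl | rfl
    · exact hw₁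
    · exact hw₂
  obtain ⟨m, n, h⟩ := rat_of_discrete hL h₁ h₂ hwL hv
  rw [SetLike.mem_coe, Submodule.mem_span_pair]
  exact ⟨m, n, by rw [h]; simp [Rat.smul_def]⟩

private lemma span_eq_of_discrete {L : AddSubgroup ℂ} (hL : DiscreteTopology L) {v₁ v₂ w₁ w₂ : ℂ}
    (h₁ : v₁ ∈ L) (h₂ : v₂ ∈ L) (hw₁ : w₁ ∈ L) (hw₂ : w₂ ∈ L) (hv : (v₂ * conj v₁).im ≠ 0)
    (hw : (w₂ * conj w₁).im ≠ 0) :
    Submodule.span ℚ ({v₁, v₂} : Set ℂ) = Submodule.span ℚ ({w₁, w₂} : Set ℂ) :=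
  le_antisymm (span_le_of_discrete hL hw₁ hw₂ h₁ h₂ hw) (span_le_of_discrete hL h₁ h₂ hw₁ hw₂ hv)

private lemma mem_span_smul (c v₁ v₂ z : ℂ) (hc : c ≠ 0) :
    c * z ∈ Submodule.span ℚ ({c * v₁, c * v₂} : Set ℂ) ↔
      z ∈ Submodule.span ℚ ({v₁, v₂} : Set ℂ) := by
  rw [Submodule.mem_span_pair, Submodule.mem_span_pair]
  constructor
  · rintro ⟨a, b, h⟩
    refine ⟨a, b, ?_⟩
    have h' : c * ((a : ℂ) * v₁ + b * v₂) = c * z := by
      rw [← h]; simp only [Rat.smul_def]; ring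
    have := mul_left_cancel₀ hc h'
    rw [← this]; simp only [Rat.smul_def]
  · rintro ⟨a, b, h⟩
    exact ⟨a, b, by rw [← h]; simp only [Rat.smul_def]; ring⟩

private lemma exists_pair {P : Set ℂ} (hPr : ∀ α : ℂ, α ≠ 0 → ∃ p ∈ P, (α * p).im ≠ 0) :
    ∃ p₁ ∈ P, ∃ p₂ ∈ P, (p₂ * conj p₁).im ≠ 0 := by
  obtain ⟨p₁, h1, h1'⟩ := hPr 1 one_ne_zero
  have h0 : p₁ ≠ 0 := by rintro rfl; simp at h1'
  have h0' : conj p₁ ≠ 0 := by simpa using h0
  obtain ⟨p₂, h2, h2'⟩ := hPr (conj p₁) h0'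
  exact ⟨p₁, h1, p₂, h2, by rwa [mul_comm]⟩

private lemma Qlat_eq {l : ℂ} (hK : KK l ≠ 0) (hT : (TT l).im ≠ 0) {L : AddSubgroup ℂ}
    (hL : DiscreteTopology L) (h1 : 2 * KK l ∈ L) (h2 : 2 * (Complex.I * KK (1 - l)) ∈ L)
    {p₁ p₂ : ℂ} (hp₁ : p₁ ∈ L) (hp₂ : p₂ ∈ L) (hp : (p₂ * conj p₁).im ≠ 0) :
    Qlat l = Submodule.span ℚ ({p₁, p₂} : Set ℂ) := by
  have him : (2 * (Complex.I * KK (1 - l)) * conj (2 * KK l)).im ≠ 0 := by
    have e : 2 * (Complex.I * KK (1 - l)) * conj (2 * KK l)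
        = ((4 * Complex.normSq (KK l) : ℝ) : ℂ) * TT l := by
      have hTT : Complex.I * KK (1 - l) = TT l * KK l := by
        rw [TT, div_mul_cancel₀ _ hK]
      have h2c : conj (2 : ℂ) = 2 := Complex.conj_ofNat 2
      rw [hTT]
      push_cast
      rw [← Complex.mul_conj, map_mul, h2c]
      ring
    rw [e, Complex.im_ofReal_mul]
    exact mul_ne_zero (mul_ne_zero (by norm_num) (by simpa using hK)) hT
  have h3 := span_eq_of_discrete hL h1 h2 hp₁ hp₂ him hp
  rw [← h3, Qlat]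
  ext z
  have h4 : z ∈ Submodule.span ℚ ({2 * KK l, 2 * (Complex.I * KK (1 - l))} : Set ℂ) ↔
      z ∈ Submodule.span ℚ ({KK l, Complex.I * KK (1 - l)} : Set ℂ) := by
    rw [Submodule.mem_span_pair, Submodule.mem_span_pair]
    constructor
    · rintro ⟨a, b, h⟩
      refine ⟨2 * a, 2 * b, ?_⟩
      rw [← h]; simp only [Rat.smul_def]; push_cast; ring
    · rintro ⟨a, b, h⟩
      refine ⟨a / 2, b / 2, ?_⟩
      rw [← h]; simp only [Rat.smul_def]; push_cast; ring
  exact h4.symm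

theorem lattice_compare {l l' : ℂ} (hK : KK l ≠ 0) (hK' : KK l' ≠ 0) (hT : (TT l).im ≠ 0)
    (hT' : (TT l').im ≠ 0) {L L' M : AddSubgroup ℂ} (hL : DiscreteTopology L)
    (hL' : DiscreteTopology L') (hM : DiscreteTopology M)
    (h1 : 2 * KK l ∈ L) (h2 : 2 * (Complex.I * KK (1 - l)) ∈ L)
    (h1' : 2 * KK l' ∈ L') (h2' : 2 * (Complex.I * KK (1 - l')) ∈ L')
    {P P' : Set ℂ} (hP : P ⊆ L) (hP' : P' ⊆ L')
    (hPr : ∀ α : ℂ, α ≠ 0 → ∃ p ∈ P, (α * p).im ≠ 0)
    (hPr' : ∀ α : ℂ, α ≠ 0 → ∃ p ∈ P', (α * p).im ≠ 0)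
    {c c' : ℂ} (hc : c ≠ 0) (hc' : c' ≠ 0) (hcP : ∀ p ∈ P, c * p ∈ M)
    (hcP' : ∀ p ∈ P', c' * p ∈ M) : SameLat l l' := by
  obtain ⟨p₁, hp₁, p₂, hp₂, hp⟩ := exists_pair hPr
  obtain ⟨q₁, hq₁, q₂, hq₂, hq⟩ := exists_pair hPr'
  have e1 := Qlat_eq hK hT hL h1 h2 (hP hp₁) (hP hp₂) hp
  have e2 := Qlat_eq hK' hT' hL' h1' h2' (hP' hq₁) (hP' hq₂) hq
  have scale : ∀ (d x y : ℂ), d ≠ 0 → (y * conj x).im ≠ 0 →
      ((d * y) * conj (d * x)).im ≠ 0 := by
    intro d x y hd hxy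
    have e : (d * y) * conj (d * x) = ((Complex.normSq d : ℝ) : ℂ) * (y * conj x) := by
      rw [← Complex.mul_conj]; simp; ring
    rw [e, Complex.im_ofReal_mul]
    exact mul_ne_zero (by simpa using hd) hxy
  have e3 := span_eq_of_discrete hM (hcP _ hp₁) (hcP _ hp₂) (hcP' _ hq₁) (hcP' _ hq₂)
    (scale c _ _ hc hp) (scale c' _ _ hc' hq)
  refine ⟨c / c', div_ne_zero hc hc', fun z => ?_⟩
  rw [e1, e2, ← mem_span_smul c p₁ p₂ z hc, e3, ← mem_span_smul c' q₁ q₂ _ hc']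
  have : c' * (c / c' * z) = c * z := by field_simp
  rw [this]

end Pool.Agent.Lib.MP_b9289b_nt
end
end
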