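import Mathlib

section

/-!
# Elliptic functions in Legendre form: definitions

`P_l(x) = x (1 - x) (1 - l x)`.  `Φ` is the solution of `Φ'^2 = P_l(Φ)`, `Φ(0) = 0` (it is
`sn²(u/2)`), a meromorphic function on `ℂ`.
-/

open Filter Topology
open scoped ComplexConjugate

noncomputable section

namespace Pool.Agent.Lib.MP_b9289b_nt

/-- `P_l(x) = x (1 - x) (1 - l x)`. -/
def PL (l x : ℂ) : ℂ := x * (1 - x) * (1 - l * x)

/-- The derivative `P_l'(x)`. -/
def PL' (l x : ℂ) : ℂ := 1 - 2 * (1 + l) * x + 3 * l * x ^ 2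

lemma hasDerivAt_PL (l x : ℂ) : HasDerivAt (PL l) (PL' l x) x := by
  have h := ((hasDerivAt_id x).mul ((hasDerivAt_const x (1 : ℂ)).sub (hasDerivAt_id x))).mul
    ((hasDerivAt_const x (1 : ℂ)).sub ((hasDerivAt_id x).const_mul l))
  refine h.congr_deriv ?_
  simp only [PL', id, Pi.mul_apply, Pi.sub_apply]
  ring

/-- The function `Φ_l`. -/
structure IsPhi (l : ℂ) (Φ : ℂ → ℂ) : Prop where
  nf : ∀ u, MeromorphicNFAt Φ u
  analytic_zero : AnalyticAt ℂ Φ 0
  map_zero : Φ 0 = 0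
  nonconst : ¬ ∀ᶠ u in 𝓝 (0 : ℂ), Φ u = 0
  ode : ∀ u, AnalyticAt ℂ Φ u → deriv Φ u ^ 2 = PL l (Φ u)
  ode2 : ∀ u, AnalyticAt ℂ Φ u → deriv (deriv Φ) u = PL' l (Φ u) / 2

lemma eventually_codiscreteC {p : ℂ → Prop} :
    (∀ᶠ z in codiscrete ℂ, p z) ↔ ∀ z : ℂ, ∀ᶠ w in 𝓝[≠] z, p w := by
  rw [Filter.Eventually, mem_codiscrete]
  refine forall_congr' fun z => ?_
  rw [disjoint_principal_right, compl_compl]
  rfl

lemma tendsto_add_codiscrete (p : ℂ) : Tendsto (fun u : ℂ => u + p) (codiscrete ℂ) (codiscrete ℂ) := by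
  intro S hS
  have hS' : ∀ᶠ z in codiscrete ℂ, z ∈ S := hS
  rw [eventually_codiscreteC] at hS'
  change ∀ᶠ z in codiscrete ℂ, z + p ∈ S
  rw [eventually_codiscreteC]
  intro z
  have h : Tendsto (fun u : ℂ => u + p) (𝓝[≠] z) (𝓝[≠] (z + p)) := by
    refine tendsto_nhdsWithin_of_tendsto_nhds_of_eventually_within _ ?_ ?_
    · exact ((continuous_add_const p).tendsto z).mono_left nhdsWithin_le_nhds
    · filter_upwards [self_mem_nhdsWithin] with w hw h
      exact hw (add_right_cancel h)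
  exact h.eventually (hS' (z + p))

/-- The group of periods of a function on `ℂ`. -/
def PerGrp (Φ : ℂ → ℂ) : AddSubgroup ℂ where
  carrier := {p | ∀ᶠ u in codiscrete ℂ, Φ (u + p) = Φ u}
  zero_mem' := by simp
  add_mem' := by
    intro p q hp hq
    have h1 := (tendsto_add_codiscrete p).eventually hq
    change ∀ᶠ u in codiscrete ℂ, Φ (u + (p + q)) = Φ u
    filter_upwards [h1, hp] with u h1 h2
    rw [← add_assoc, h1, h2]
  neg_mem' := by
    intro p hp
    have h1 := (tendsto_add_codiscrete (-p)).eventually hp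
    change ∀ᶠ u in codiscrete ℂ, Φ (u + -p) = Φ u
    filter_upwards [h1] with u h1
    rw [← h1, neg_add_cancel_right]

/-- The complete elliptic integral `K(l) = ∫₀¹ dx / √(x (1-x) (1-lx)) =
2 ∫₀^{π/2} dφ / √(1 - l sin² φ)` (twice the classical one). -/
def KK (l : ℂ) : ℂ := 2 * ∫ φ in (0 : ℝ)..(Real.pi / 2), (1 - l * (Real.sin φ : ℂ) ^ 2) ^ (-(1 / 2) : ℂ)

end Pool.Agent.Lib.MP_b9289b_nt
end
end

section

/-!
# E01: uniqueness for the differential equation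

`D = X - X₁`, `E = Y - Y₁`.  On a small closed ball `B` of radius `ρ` about `z₀`:
`‖D'‖ ≤ C ‖E‖`, `‖E'‖ ≤ C ‖D‖` (`w` is bounded, `P'` is Lipschitz on bounded sets), so by the mean
value inequality `sup_B ‖D‖ ≤ ρ C sup_B ‖E‖` and `sup_B ‖E‖ ≤ ρ C sup_B ‖D‖`; take `ρ C < 1`.
-/

open Filter Topology
open scoped ComplexConjugate

noncomputable section

namespace Pool.Agent.Lib.MP_b9289b_nt

theorem ode_unique {l z₀ : ℂ} {w X Y X₁ Y₁ : ℂ → ℂ} (hw : AnalyticAt ℂ w z₀)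
    (hX : AnalyticAt ℂ X z₀) (hY : AnalyticAt ℂ Y z₀)
    (hX₁ : AnalyticAt ℂ X₁ z₀) (hY₁ : AnalyticAt ℂ Y₁ z₀)
    (h : ∀ᶠ z in 𝓝 z₀, deriv X z = w z * Y z ∧ deriv Y z = w z * (PL' l (X z) / 2))
    (h₁ : ∀ᶠ z in 𝓝 z₀, deriv X₁ z = w z * Y₁ z ∧ deriv Y₁ z = w z * (PL' l (X₁ z) / 2))
    (h0 : X z₀ = X₁ z₀) (h0' : Y z₀ = Y₁ z₀) :
    ∀ᶠ z in 𝓝 z₀, X z = X₁ z ∧ Y z = Y₁ z := by
  -- bounds near `z₀`
  set W : ℝ := ‖w z₀‖ + 1 with hW
  set A : ℝ := ‖X z₀‖ + 1 with hA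
  have hWpos : 0 < W := by positivity
  have hApos : 0 < A := by positivity
  set C : ℝ := ‖1 + l‖ + 3 * ‖l‖ * A + 1 with hC
  have hCpos : 0 < C := by positivity
  have e1 : ∀ᶠ z in 𝓝 z₀, ‖w z‖ < W :=
    (hw.continuousAt.norm).eventually_lt continuousAt_const (by simp [hW])
  have e2 : ∀ᶠ z in 𝓝 z₀, ‖X z‖ < A :=
    (hX.continuousAt.norm).eventually_lt continuousAt_const (by simp [hA])
  have e3 : ∀ᶠ z in 𝓝 z₀, ‖X₁ z‖ < A :=
    (hX₁.continuousAt.norm).eventually_lt continuousAt_const (by simp [hA, h0])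
  have e4 := hX.eventually_analyticAt
  have e5 := hY.eventually_analyticAt
  have e6 := hX₁.eventually_analyticAt
  have e7 := hY₁.eventually_analyticAt
  obtain ⟨R, hR, hball⟩ := Metric.eventually_nhds_iff_ball.1
    (((((((e1.and e2).and e3).and e4).and e5).and e6).and e7).and (h.and h₁))
  -- the radius
  set ρ : ℝ := min (R / 2) (1 / (2 * W * C + 2 * W)) with hρ
  have hρpos : 0 < ρ := lt_min (by linarith) (by positivity)
  have hρR : ρ < R := lt_of_le_of_lt (min_le_left _ _) (by linarith)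
  have hρC : ρ * (W * C) ≤ 1 / 2 := by
    have h1 : ρ ≤ 1 / (2 * W * C + 2 * W) := min_le_right _ _
    calc ρ * (W * C) ≤ 1 / (2 * W * C + 2 * W) * (W * C) := by gcongr
      _ ≤ 1 / 2 := by
        rw [div_mul_eq_mul_div, one_mul, div_le_div_iff₀ (by positivity) (by norm_num)]
        nlinarith
  have hρW : ρ * W ≤ 1 / 2 := by
    have h1 : ρ ≤ 1 / (2 * W * C + 2 * W) := min_le_right _ _
    calc ρ * W ≤ 1 / (2 * W * C + 2 * W) * W := by gcongr
      _ ≤ 1 / 2 := by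
        rw [div_mul_eq_mul_div, one_mul, div_le_div_iff₀ (by positivity) (by norm_num)]
        nlinarith [mul_pos hWpos hCpos]
  set B := Metric.closedBall z₀ ρ with hB
  have hBR : ∀ z ∈ B, z ∈ Metric.ball z₀ R := fun z hz =>
    lt_of_le_of_lt (Metric.mem_closedBall.1 hz) hρR
  have hz₀B : z₀ ∈ B := Metric.mem_closedBall_self hρpos.le
  have hcomp : IsCompact B := isCompact_closedBall _ _
  have hconv : Convex ℝ B := convex_closedBall _ _
  -- the maximum
  have hcont : ContinuousOn (fun z => max ‖X z - X₁ z‖ ‖Y z - Y₁ z‖) B := by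
    intro z hz
    obtain ⟨⟨⟨⟨⟨_, a4⟩, a5⟩, a6⟩, a7⟩, _⟩ := hball z (hBR z hz)
    exact ContinuousAt.continuousWithinAt (((a4.continuousAt.sub a6.continuousAt).norm).max
      ((a5.continuousAt.sub a7.continuousAt).norm))
  obtain ⟨zm, hzm, hmax⟩ := hcomp.exists_isMaxOn ⟨z₀, hz₀B⟩ hcont
  set M : ℝ := max ‖X zm - X₁ zm‖ ‖Y zm - Y₁ zm‖ with hM
  have hMax : ∀ z ∈ B, ‖X z - X₁ z‖ ≤ M ∧ ‖Y z - Y₁ z‖ ≤ M := fun z hz =>
    ⟨(le_max_left _ _).trans (hmax hz), (le_max_right _ _).trans (hmax hz)⟩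
  have hMnn : 0 ≤ M := (norm_nonneg _).trans (le_max_left _ _)
  have hdist : ∀ z ∈ B, ‖z - z₀‖ ≤ ρ := fun z hz => by
    simpa [dist_eq_norm] using Metric.mem_closedBall.1 hz
  have hD : ∀ z ∈ B, ‖X z - X₁ z‖ ≤ M / 2 := by
    intro z hz
    have h1 := hconv.norm_image_sub_le_of_norm_hasDerivWithin_le
      (f := fun z => X z - X₁ z) (f' := fun z => w z * (Y z - Y₁ z)) (C := W * M)
      (fun x hx => by
        obtain ⟨⟨⟨⟨⟨_, a4⟩, _⟩, a6⟩, _⟩, b1, b2⟩ := hball x (hBR x hx)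
        have := a4.differentiableAt.hasDerivAt.sub a6.differentiableAt.hasDerivAt
        rw [b1.1, b2.1] at this
        exact (this.congr_deriv (by ring)).hasDerivWithinAt)
      (fun x hx => by
        obtain ⟨⟨⟨⟨⟨⟨⟨a1, _⟩, _⟩, _⟩, _⟩, _⟩, _⟩, _⟩ := hball x (hBR x hx)
        rw [norm_mul]
        exact mul_le_mul a1.le (hMax x hx).2 (norm_nonneg _) hWpos.le) hz₀B hz
    have h2 : X z₀ - X₁ z₀ = 0 := by rw [h0, sub_self]
    simp only [h2, sub_zero] at h1
    calc ‖X z - X₁ z‖ ≤ W * M * ‖z - z₀‖ := h1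
      _ ≤ W * M * ρ := by gcongr; exact hdist z hz
      _ = ρ * W * M := by ring
      _ ≤ 1 / 2 * M := by gcongr
      _ = M / 2 := by ring
  have hE : ∀ z ∈ B, ‖Y z - Y₁ z‖ ≤ M / 2 := by
    intro z hz
    have h1 := hconv.norm_image_sub_le_of_norm_hasDerivWithin_le
      (f := fun z => Y z - Y₁ z) (f' := fun z => w z * ((PL' l (X z) - PL' l (X₁ z)) / 2))
      (C := W * (C * M))
      (fun x hx => by
        obtain ⟨⟨⟨⟨⟨_, _⟩, a5⟩, _⟩, a7⟩, b1, b2⟩ := hball x (hBR x hx)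
        have := a5.differentiableAt.hasDerivAt.sub a7.differentiableAt.hasDerivAt
        rw [b1.2, b2.2] at this
        exact (this.congr_deriv (by ring)).hasDerivWithinAt)
      (fun x hx => by
        obtain ⟨⟨⟨⟨⟨⟨⟨a1, a2⟩, a3⟩, _⟩, _⟩, _⟩, _⟩, _⟩ := hball x (hBR x hx)
        rw [norm_mul]
        refine mul_le_mul a1.le ?_ (norm_nonneg _) hWpos.le
        have e : (PL' l (X x) - PL' l (X₁ x)) / 2 =
            (X x - X₁ x) * (-(1 + l) + 3 / 2 * l * (X x + X₁ x)) := by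
          unfold PL'; ring
        rw [e, norm_mul, mul_comm]
        refine mul_le_mul ?_ (hMax x hx).1 (norm_nonneg _) hCpos.le
        calc ‖-(1 + l) + 3 / 2 * l * (X x + X₁ x)‖
            ≤ ‖-(1 + l)‖ + ‖3 / 2 * l * (X x + X₁ x)‖ := norm_add_le _ _
          _ ≤ ‖1 + l‖ + 3 / 2 * ‖l‖ * (A + A) := by
            rw [norm_neg, norm_mul, norm_mul]
            have : ‖X x + X₁ x‖ ≤ A + A := (norm_add_le _ _).trans (add_le_add a2.le a3.le)
            have h32 : ‖(3 / 2 : ℂ)‖ = 3 / 2 := by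
              rw [norm_div]; norm_num
            rw [h32]
            gcongr
          _ ≤ C := by rw [hC]; nlinarith) hz₀B hz
    have h2 : Y z₀ - Y₁ z₀ = 0 := by rw [h0', sub_self]
    simp only [h2, sub_zero] at h1
    calc ‖Y z - Y₁ z‖ ≤ W * (C * M) * ‖z - z₀‖ := h1
      _ ≤ W * (C * M) * ρ := by gcongr; exact hdist z hz
      _ = ρ * (W * C) * M := by ring
      _ ≤ 1 / 2 * M := by gcongr
      _ = M / 2 := by ring
  have hM0 : M ≤ M / 2 := max_le (hD zm hzm) (hE zm hzm)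
  have hM1 : M = 0 := by linarith
  have hnear : ∀ᶠ z in 𝓝 z₀, z ∈ B := Metric.closedBall_mem_nhds z₀ hρpos
  filter_upwards [hnear] with z hz
  have h1 := hMax z hz
  rw [hM1] at h1
  exact ⟨sub_eq_zero.1 (norm_le_zero_iff.1 h1.1), sub_eq_zero.1 (norm_le_zero_iff.1 h1.2)⟩

end Pool.Agent.Lib.MP_b9289b_nt
end
end

section

/-!
# E04: uniqueness, parity, half periods, discreteness

All by `ode_unique` (with `w = 1` and `Y = X'`) near `0` and the identity theorem for meromorphic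
functions on `ℂ` (two meromorphic functions on `ℂ` which agree near one point agree near every
point; in normal form they agree everywhere).  Note `deriv Φ 0 = 0` from `ode`.
* `phi_even`: `X u = Φ (-u)`.
* `two_mul_mem`: `X v = Φ (κ₀ + v)`, `X₁ v = Φ (κ₀ - v)`, both have value `Φ κ₀` and derivative `0`
  at `v = 0`; so `Φ (κ₀ + v) = Φ (κ₀ - v)` and `Φ (u + 2 κ₀) = Φ (-u) = Φ u`.
* `imag`: `X u = Φ (I u)`, `X₁ u = Ψ u / (Ψ u - 1)` satisfy `X'^2 = - P_l(X)`; compare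
  `Φ (I u)` with it, or better: `Z u := Ψ (-I u)/(Ψ (-I u) - 1)` satisfies `Z'^2 = P_l(Z)`,
  `Z'' = P_l'(Z)/2`, `Z 0 = Z' 0 = 0`, so `Z = Φ`.
* `discrete`: `Φ p = Φ 0 = 0` for every period `p`, and the zero `0` of `Φ` is isolated.
-/

open Filter Topology Metric
open scoped ComplexConjugate

noncomputable section

namespace Pool.Agent.Lib.MP_b9289b_nt

variable {l : ℂ} {Φ Ψ : ℂ → ℂ}

/-- identity theorem for meromorphic functions -/
private lemma E04_ident {f g : ℂ → ℂ} (hf : ∀ u, MeromorphicAt f u) (hg : ∀ u, MeromorphicAt g u)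
    {z₀ : ℂ} (h : ∀ᶠ z in 𝓝 z₀, f z = g z) (w : ℂ) : ∀ᶠ z in 𝓝[≠] w, f z = g z := by
  have hmer : MeromorphicOn (f - g) Set.univ := fun u _ => (hf u).sub (hg u)
  have h1 : meromorphicOrderAt (f - g) z₀ = ⊤ := by
    rw [meromorphicOrderAt_eq_top_iff]
    filter_upwards [h.filter_mono nhdsWithin_le_nhds] with z hz
    rw [Pi.sub_apply, hz, sub_self]
  have h2 : meromorphicOrderAt (f - g) w = ⊤ := by
    by_contra hc
    exact hmer.meromorphicOrderAt_ne_top_of_isPreconnected isPreconnected_univ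
      (Set.mem_univ w) (Set.mem_univ z₀) hc h1
  rw [meromorphicOrderAt_eq_top_iff] at h2
  filter_upwards [h2] with z hz
  rw [Pi.sub_apply, sub_eq_zero] at hz
  exact hz

private lemma E04_ident_nf {f g : ℂ → ℂ} (hf : ∀ u, MeromorphicNFAt f u)
    (hg : ∀ u, MeromorphicNFAt g u) {z₀ : ℂ} (h : ∀ᶠ z in 𝓝 z₀, f z = g z) (w : ℂ) :
    f w = g w := by
  have h1 := E04_ident (fun u => (hf u).meromorphicAt) (fun u => (hg u).meromorphicAt) h w
  exact (((hf w).eventuallyEq_nhdsNE_iff_eventuallyEq_nhds (hg w)).mp h1).self_of_nhds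

private lemma E04_aff (hΦ : ∀ u, MeromorphicNFAt Φ u) (a b u : ℂ) :
    MeromorphicNFAt (fun v => Φ (a * v + b)) u :=
  MeromorphicNFAt.comp_analyticAt (g := fun v => a * v + b) (hΦ _) (by fun_prop)

lemma IsPhi.period_iff (hΦ : IsPhi l Φ) {p : ℂ} : p ∈ PerGrp Φ ↔ ∀ u, Φ (u + p) = Φ u := by
  constructor
  · intro h u
    have h1 : ∀ᶠ u in codiscrete ℂ, Φ (u + p) = Φ u := h
    rw [eventually_codiscreteC] at h1
    have h2 : MeromorphicNFAt (fun v => Φ (v + p)) u :=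
      MeromorphicNFAt.comp_analyticAt (g := fun v => v + p) (hΦ.nf _) (by fun_prop)
    exact ((h2.eventuallyEq_nhdsNE_iff_eventuallyEq_nhds (hΦ.nf u)).mp (h1 u)).self_of_nhds
  · intro h
    change ∀ᶠ u in codiscrete ℂ, Φ (u + p) = Φ u
    exact Eventually.of_forall h

private lemma E04_deriv_zero (hΦ : IsPhi l Φ) : deriv Φ 0 = 0 := by
  have h1 := hΦ.ode 0 hΦ.analytic_zero
  rw [hΦ.map_zero] at h1
  have h2 : PL l 0 = 0 := by simp [PL]
  rw [h2] at h1
  exact (pow_eq_zero_iff two_ne_zero).mp h1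

/-- the differential equation for `v ↦ Φ (a v + b)`, `a = ±1` -/
private lemma E04_ode (hΦ : IsPhi l Φ) {a b : ℂ} (ha : a ^ 2 = 1) (hb : AnalyticAt ℂ Φ b) :
    AnalyticAt ℂ (fun v => Φ (a * v + b)) 0 ∧
    AnalyticAt ℂ (fun v => a * deriv Φ (a * v + b)) 0 ∧
    ∀ᶠ v in 𝓝 (0 : ℂ), deriv (fun v => Φ (a * v + b)) v = 1 * (a * deriv Φ (a * v + b)) ∧
      deriv (fun v => a * deriv Φ (a * v + b)) v = 1 * (PL' l (Φ (a * v + b)) / 2) := by
  have hg : AnalyticAt ℂ (fun v : ℂ => a * v + b) 0 := by fun_prop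
  have hb0 : a * 0 + b = b := by simp
  have h1 : AnalyticAt ℂ (fun v => Φ (a * v + b)) 0 := by
    refine AnalyticAt.comp (g := Φ) (f := fun v : ℂ => a * v + b) ?_ hg
    rw [hb0]
    exact hb
  have h2 : AnalyticAt ℂ (fun v => deriv Φ (a * v + b)) 0 := by
    refine AnalyticAt.comp (g := deriv Φ) (f := fun v : ℂ => a * v + b) ?_ hg
    rw [hb0]
    exact hb.deriv
  refine ⟨h1, analyticAt_const.mul h2, ?_⟩
  have ht : Tendsto (fun v : ℂ => a * v + b) (𝓝 0) (𝓝 b) := by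
    have := hg.continuousAt.tendsto
    rwa [hb0] at this
  filter_upwards [ht.eventually hb.eventually_analyticAt] with v hv
  have e0 : HasDerivAt (fun v : ℂ => a * v + b) a v := by
    refine (((hasDerivAt_id v).const_mul a).add_const b).congr_deriv ?_
    rw [mul_one]
  have e1 : HasDerivAt (fun v => Φ (a * v + b)) (deriv Φ (a * v + b) * a) v :=
    HasDerivAt.comp v hv.differentiableAt.hasDerivAt e0
  have e2 : HasDerivAt (fun v => deriv Φ (a * v + b)) (deriv (deriv Φ) (a * v + b) * a) v :=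
    HasDerivAt.comp (h₂ := deriv Φ) v hv.deriv.differentiableAt.hasDerivAt e0
  rw [e1.deriv, (e2.const_mul a).deriv, hΦ.ode2 _ hv]
  constructor
  · ring
  · linear_combination (PL' l (Φ (a * v + b)) / 2) * ha

/-- two such functions with the same initial values agree -/
private lemma E04_eq (hΦ : IsPhi l Φ) {a b a' b' : ℂ} (ha : a ^ 2 = 1) (ha' : a' ^ 2 = 1)
    (hb : AnalyticAt ℂ Φ b) (hb' : AnalyticAt ℂ Φ b') (h0 : Φ b = Φ b')
    (h1 : a * deriv Φ b = a' * deriv Φ b') (v : ℂ) : Φ (a * v + b) = Φ (a' * v + b') := by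
  obtain ⟨x1, x2, x3⟩ := E04_ode hΦ ha hb
  obtain ⟨y1, y2, y3⟩ := E04_ode hΦ ha' hb'
  have h := ode_unique (l := l) (z₀ := 0) (w := fun _ => 1) analyticAt_const x1 x2 y1 y2 x3 y3
    (by simpa using h0) (by simpa using h1)
  exact E04_ident_nf (E04_aff hΦ.nf a b) (E04_aff hΦ.nf a' b') (z₀ := 0)
    (h.mono fun z hz => hz.1) v

lemma IsPhi.phi_even (hΦ : IsPhi l Φ) (u : ℂ) : Φ (-u) = Φ u := by
  have h := E04_eq hΦ (a := -1) (b := 0) (a' := 1) (b' := 0) (by norm_num) (by norm_num)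
    hΦ.analytic_zero hΦ.analytic_zero rfl (by rw [E04_deriv_zero hΦ]; ring) u
  simpa using h

lemma IsPhi.two_mul_mem (hΦ : IsPhi l Φ) {κ₀ : ℂ} (h : AnalyticAt ℂ Φ κ₀) (h' : deriv Φ κ₀ = 0) :
    2 * κ₀ ∈ PerGrp Φ := by
  rw [hΦ.period_iff]
  intro u
  have h1 := E04_eq hΦ (a := 1) (b := κ₀) (a' := -1) (b' := κ₀) (by norm_num) (by norm_num)
    h h rfl (by rw [h']; ring) (u + κ₀)
  have e1 : u + 2 * κ₀ = 1 * (u + κ₀) + κ₀ := by ring
  have e2 : -1 * (u + κ₀) + κ₀ = -u := by ring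
  rw [e1, h1, e2, hΦ.phi_even]

private lemma E04_alg {ψ ψ' ψ'' : ℂ} (h : ψ - 1 ≠ 0) (h1 : ψ' ^ 2 = PL (1 - l) ψ)
    (h2 : ψ'' = PL' (1 - l) ψ / 2) :
    ψ'' / (ψ - 1) ^ 2 - 2 * ψ' ^ 2 / (ψ - 1) ^ 3 = PL' l (ψ / (ψ - 1)) / 2 := by
  rw [h1, h2]
  unfold PL PL'
  field_simp
  ring

private lemma E04_Z (hΦ : IsPhi l Φ) (hΨ : IsPhi (1 - l) Ψ) :
    ∀ᶠ u in 𝓝 (0 : ℂ), Ψ (-Complex.I * u) / (Ψ (-Complex.I * u) - 1) = Φ u := by
  have hI : Complex.I ^ 2 = -1 := Complex.I_sq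
  set X : ℂ → ℂ := fun u => Ψ (-Complex.I * u) / (Ψ (-Complex.I * u) - 1) with hX
  set Y : ℂ → ℂ := fun u => Complex.I * deriv Ψ (-Complex.I * u) / (Ψ (-Complex.I * u) - 1) ^ 2
    with hY
  have hg : AnalyticAt ℂ (fun v : ℂ => -Complex.I * v) 0 := by fun_prop
  have hg0 : -Complex.I * 0 = 0 := by simp
  have ht : Tendsto (fun v : ℂ => -Complex.I * v) (𝓝 0) (𝓝 0) := by
    have := hg.continuousAt.tendsto
    rwa [hg0] at this
  have a1 : AnalyticAt ℂ (fun v => Ψ (-Complex.I * v)) 0 := by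
    refine AnalyticAt.comp (g := Ψ) (f := fun v : ℂ => -Complex.I * v) ?_ hg
    rw [hg0]
    exact hΨ.analytic_zero
  have a2 : AnalyticAt ℂ (fun v => deriv Ψ (-Complex.I * v)) 0 := by
    refine AnalyticAt.comp (g := deriv Ψ) (f := fun v : ℂ => -Complex.I * v) ?_ hg
    rw [hg0]
    exact hΨ.analytic_zero.deriv
  have n0 : (fun v => Ψ (-Complex.I * v) - 1) 0 ≠ 0 := by
    simp [hΨ.map_zero]
  have a3 : AnalyticAt ℂ (fun v => Ψ (-Complex.I * v) - 1) 0 := a1.sub analyticAt_const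
  have hXa : AnalyticAt ℂ X 0 := a1.div a3 n0
  have hYa : AnalyticAt ℂ Y 0 := (analyticAt_const.mul a2).div (a3.pow 2) (pow_ne_zero 2 n0)
  have hode : ∀ᶠ u in 𝓝 (0 : ℂ), deriv X u = 1 * Y u ∧ deriv Y u = 1 * (PL' l (X u) / 2) := by
    filter_upwards [ht.eventually hΨ.analytic_zero.eventually_analyticAt,
      a3.continuousAt.eventually_ne n0] with u g1 g2
    have e0 : HasDerivAt (fun v : ℂ => -Complex.I * v) (-Complex.I) u := by
      refine ((hasDerivAt_id u).const_mul (-Complex.I)).congr_deriv ?_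
      rw [mul_one]
    have e1 : HasDerivAt (fun v => Ψ (-Complex.I * v)) (deriv Ψ (-Complex.I * u) * -Complex.I) u :=
      HasDerivAt.comp u g1.differentiableAt.hasDerivAt e0
    have e2 : HasDerivAt (fun v => deriv Ψ (-Complex.I * v))
        (deriv (deriv Ψ) (-Complex.I * u) * -Complex.I) u :=
      HasDerivAt.comp (h₂ := deriv Ψ) u g1.deriv.differentiableAt.hasDerivAt e0
    have e3 : HasDerivAt (fun v => Ψ (-Complex.I * v) - 1)
        (deriv Ψ (-Complex.I * u) * -Complex.I) u := e1.sub_const 1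
    have e4 : HasDerivAt (fun v => (Ψ (-Complex.I * v) - 1) ^ 2)
        (2 * (Ψ (-Complex.I * u) - 1) * (deriv Ψ (-Complex.I * u) * -Complex.I)) u := by
      refine (e3.pow 2).congr_deriv ?_
      norm_num
    have e5 := e1.div e3 g2
    have e6 := (e2.const_mul Complex.I).div e4 (pow_ne_zero 2 g2)
    have hX' : HasDerivAt X _ u := e5
    have hY' : HasDerivAt Y _ u := e6
    constructor
    · rw [hX'.deriv, one_mul]
      simp only [hY]
      field_simp
      ring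
    · have halg := E04_alg (l := l) g2 (hΨ.ode _ g1) (hΨ.ode2 _ g1)
      rw [hY'.deriv, one_mul]
      change _ = PL' l (Ψ (-Complex.I * u) / (Ψ (-Complex.I * u) - 1)) / 2
      rw [← halg]
      field_simp
      ring_nf
      rw [hI]
      ring
  have hX0 : X 0 = Φ 0 := by
    simp [hX, hΨ.map_zero, hΦ.map_zero]
  have hY0 : Y 0 = deriv Φ 0 := by
    simp [hY, E04_deriv_zero hΦ, E04_deriv_zero hΨ]
  have hΦode : ∀ᶠ u in 𝓝 (0 : ℂ), deriv Φ u = 1 * deriv Φ u ∧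
      deriv (deriv Φ) u = 1 * (PL' l (Φ u) / 2) := by
    filter_upwards [hΦ.analytic_zero.eventually_analyticAt] with u hu
    rw [one_mul, one_mul]
    exact ⟨rfl, hΦ.ode2 u hu⟩
  have h := ode_unique (l := l) (z₀ := 0) (w := fun _ => 1) analyticAt_const hXa hYa
    hΦ.analytic_zero hΦ.analytic_zero.deriv hode hΦode hX0 hY0
  exact h.mono fun z hz => hz.1

lemma IsPhi.imag (hΦ : IsPhi l Φ) (hΨ : IsPhi (1 - l) Ψ) {p : ℂ} (hp : p ∈ PerGrp Ψ) :
    Complex.I * p ∈ PerGrp Φ := by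
  rw [hΨ.period_iff] at hp
  have hm : ∀ u, MeromorphicAt (fun u => Ψ (-Complex.I * u) / (Ψ (-Complex.I * u) - 1)) u := by
    intro u
    have h1 : MeromorphicAt (fun v => Ψ (-Complex.I * v)) u :=
      ((hΨ.nf _).comp_analyticAt (g := fun v => -Complex.I * v) (by fun_prop)).meromorphicAt
    exact h1.div (h1.sub (MeromorphicAt.const 1 u))
  have h1 : ∀ᶠ u in codiscrete ℂ,
      Ψ (-Complex.I * u) / (Ψ (-Complex.I * u) - 1) = Φ u := by
    rw [eventually_codiscreteC]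
    exact E04_ident hm (fun u => (hΦ.nf u).meromorphicAt) (E04_Z hΦ hΨ)
  have h2 := (tendsto_add_codiscrete (Complex.I * p)).eventually h1
  change ∀ᶠ u in codiscrete ℂ, Φ (u + Complex.I * p) = Φ u
  filter_upwards [h1, h2] with u g1 g2
  rw [← g2, ← g1]
  have e : -Complex.I * (u + Complex.I * p) = -Complex.I * u + p := by
    have hI : Complex.I * Complex.I = -1 := Complex.I_mul_I
    linear_combination -p * hI
  rw [e, hp]

lemma IsPhi.discrete (hΦ : IsPhi l Φ) : DiscreteTopology (PerGrp Φ) := by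
  apply discreteTopology_of_isOpen_singleton_zero
  have h1 : ∀ᶠ u in 𝓝[≠] (0 : ℂ), Φ u ≠ 0 :=
    hΦ.analytic_zero.eventually_eq_zero_or_eventually_ne_zero.resolve_left hΦ.nonconst
  rw [eventually_nhdsWithin_iff, Metric.eventually_nhds_iff_ball] at h1
  obtain ⟨r, hr, hball⟩ := h1
  have h2 : ({0} : Set (PerGrp Φ)) = Subtype.val ⁻¹' (ball (0 : ℂ) r) := by
    ext p
    rw [Set.mem_singleton_iff, Set.mem_preimage]
    constructor
    · rintro rfl
      exact mem_ball_self hr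
    · intro hp
      by_contra hne
      have hne' : (p : ℂ) ≠ 0 := fun h => hne (Subtype.ext h)
      have h3 := hball p hp hne'
      have h4 := (hΦ.period_iff.mp p.2) 0
      rw [zero_add, hΦ.map_zero] at h4
      exact h3 h4
  rw [h2]
  exact isOpen_ball.preimage continuous_subtype_val

end Pool.Agent.Lib.MP_b9289b_nt
end
end

section

/-!
# E06: the complete elliptic integral `KK`: analyticity, conjugation, real values

For `1 - l ∈ slitPlane` and `x = sin² φ ∈ [0,1]` also `1 - l x ∈ slitPlane` (it is a convex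
combination of `1` and `1 - l`; if it were in `(-∞, 0]` ...), so the integrand is continuous in `φ`
and analytic in `l`; differentiate under the integral sign
(`hasDerivAt_integral_of_dominated_loc_of_deriv_le` / `intervalIntegral` version), then
`DifferentiableOn.analyticOnNhd` on the open set `{l | 1 - l ∈ slitPlane}`.
-/

open Filter Topology Metric
open scoped ComplexConjugate

noncomputable section

namespace Pool.Agent.Lib.MP_b9289b_nt

lemma one_sub_mul_mem {l : ℂ} (hl : 1 - l ∈ Complex.slitPlane) {x : ℝ} (h0 : 0 ≤ x) (h1 : x ≤ 1) :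
    1 - l * (x : ℂ) ∈ Complex.slitPlane := by
  rw [Complex.mem_slitPlane_iff] at hl ⊢
  simp only [Complex.sub_re, Complex.one_re, Complex.sub_im, Complex.one_im, Complex.mul_re,
    Complex.ofReal_re, Complex.ofReal_im, Complex.mul_im, mul_zero, sub_zero, zero_sub,
    zero_add, neg_ne_zero] at hl ⊢
  rcases hl with hl | hl
  · left
    rcases le_or_gt l.re 0 with h | h
    · nlinarith
    · nlinarith
  · rcases h0.eq_or_lt with h | h
    · left
      rw [← h]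
      norm_num
    · right
      exact mul_ne_zero hl h.ne'

private lemma sin_sq_mem {l : ℂ} (hl : 1 - l ∈ Complex.slitPlane) (φ : ℝ) :
    1 - l * (Real.sin φ : ℂ) ^ 2 ∈ Complex.slitPlane := by
  have h := one_sub_mul_mem hl (x := Real.sin φ ^ 2) (sq_nonneg _) (Real.sin_sq_le_one φ)
  rw [Complex.ofReal_pow] at h
  exact h

lemma continuous_KK_integrand {l : ℂ} (hl : 1 - l ∈ Complex.slitPlane) :
    Continuous (fun φ : ℝ => (1 - l * (Real.sin φ : ℂ) ^ 2) ^ (-(1 / 2) : ℂ)) := by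
  refine Continuous.cpow ?_ continuous_const (fun φ => sin_sq_mem hl φ)
  exact continuous_const.sub (continuous_const.mul
    ((Complex.continuous_ofReal.comp Real.continuous_sin).pow 2))

private lemma isOpen_KK : IsOpen {l : ℂ | 1 - l ∈ Complex.slitPlane} :=
  Complex.isOpen_slitPlane.preimage (continuous_const.sub continuous_id)

private lemma KK_hasDerivAt {l : ℂ} (hl : 1 - l ∈ Complex.slitPlane) :
    ∃ K' : ℂ, HasDerivAt KK K' l := by
  have hnh : {l : ℂ | 1 - l ∈ Complex.slitPlane} ∈ 𝓝 l := isOpen_KK.mem_nhds hl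
  obtain ⟨ε, hε, hball⟩ := Metric.nhds_basis_closedBall.mem_iff.1 hnh
  let F : ℂ → ℝ → ℂ := fun l φ => (1 - l * (Real.sin φ : ℂ) ^ 2) ^ (-(1 / 2) : ℂ)
  let F' : ℂ → ℝ → ℂ := fun l φ => (-(1 / 2) : ℂ) * (1 - l * (Real.sin φ : ℂ) ^ 2) ^ (-(1 / 2) - 1 : ℂ) *
    (-((Real.sin φ : ℂ) ^ 2))
  have hder : ∀ x ∈ Metric.closedBall l ε, ∀ t : ℝ, HasDerivAt (fun x => F x t) (F' x t) x := by
    intro x hx t
    have h1 : HasDerivAt (fun x : ℂ => 1 - x * (Real.sin t : ℂ) ^ 2)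
        (-((Real.sin t : ℂ) ^ 2)) x := by
      have h2 := ((hasDerivAt_id x).mul_const ((Real.sin t : ℂ) ^ 2)).const_sub 1
      rw [one_mul] at h2
      exact h2
    exact h1.cpow_const (sin_sq_mem (hball hx) t)
  have hcont : ContinuousOn (fun p : ℂ × ℝ => F' p.1 p.2)
      (Metric.closedBall l ε ×ˢ Set.Icc 0 (Real.pi / 2)) := by
    have hc : Continuous (fun p : ℂ × ℝ => (Real.sin p.2 : ℂ) ^ 2) :=
      (Complex.continuous_ofReal.comp (Real.continuous_sin.comp continuous_snd)).pow 2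
    refine ContinuousOn.mul (continuousOn_const.mul (ContinuousOn.cpow_const ?_ ?_))
      hc.neg.continuousOn
    · exact (continuous_const.sub (continuous_fst.mul hc)).continuousOn
    · rintro ⟨x, t⟩ ⟨hx, _⟩
      exact sin_sq_mem (hball hx) t
  obtain ⟨C, hC⟩ := ((isCompact_closedBall l ε).prod isCompact_Icc).exists_bound_of_continuousOn
    hcont
  have hF'c : Continuous (F' l) := by
    have hc : Continuous (fun t : ℝ => (Real.sin t : ℂ) ^ 2) :=
      (Complex.continuous_ofReal.comp Real.continuous_sin).pow 2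
    refine Continuous.mul (continuous_const.mul (Continuous.cpow ?_ continuous_const ?_)) hc.neg
    · exact continuous_const.sub (continuous_const.mul hc)
    · intro t
      exact sin_sq_mem hl t
  have key := intervalIntegral.hasDerivAt_integral_of_dominated_loc_of_deriv_le
    (μ := MeasureTheory.volume) (a := 0) (b := Real.pi / 2) (F := F) (F' := F') (x₀ := l)
    (s := Metric.closedBall l ε) (bound := fun _ => C)
    (Metric.closedBall_mem_nhds l hε)
    (by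
      filter_upwards [Metric.closedBall_mem_nhds l hε] with x hx
      exact (continuous_KK_integrand (hball hx)).aestronglyMeasurable)
    ((continuous_KK_integrand hl).intervalIntegrable _ _)
    hF'c.aestronglyMeasurable
    (by
      refine Filter.Eventually.of_forall fun t ht x hx => ?_
      rw [Set.uIoc_of_le (by positivity)] at ht
      exact hC (x, t) ⟨hx, ht.1.le, ht.2⟩)
    intervalIntegrable_const
    (Filter.Eventually.of_forall fun t _ x hx => hder x hx t)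
  exact ⟨_, key.2.const_mul 2⟩

theorem KK_analyticAt {l : ℂ} (hl : 1 - l ∈ Complex.slitPlane) : AnalyticAt ℂ KK l := by
  have h : DifferentiableOn ℂ KK {l : ℂ | 1 - l ∈ Complex.slitPlane} := by
    intro x hx
    obtain ⟨K', hK'⟩ := KK_hasDerivAt hx
    exact hK'.differentiableAt.differentiableWithinAt
  exact h.analyticAt (isOpen_KK.mem_nhds hl)

theorem KK_conj {l : ℂ} (hl : 1 - l ∈ Complex.slitPlane) : KK (conj l) = conj (KK l) := by
  unfold KK
  rw [map_mul, ← intervalIntegral.intervalIntegral_conj]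
  have h2 : conj (2 : ℂ) = 2 := Complex.conj_ofNat 2
  rw [h2]
  congr 1
  refine intervalIntegral.integral_congr fun φ _ => ?_
  have h1 : 1 - conj l * (Real.sin φ : ℂ) ^ 2 = conj (1 - l * (Real.sin φ : ℂ) ^ 2) := by
    rw [map_sub, map_one, map_mul, map_pow, Complex.conj_ofReal]
  have h3 := (Complex.mem_slitPlane_iff_arg.1 (sin_sq_mem hl φ)).1
  rw [h1, Complex.conj_cpow _ _ h3]
  congr 2
  rw [map_neg, map_div₀, map_one, h2]

lemma KK_zero : KK 0 = Real.pi := by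
  unfold KK
  simp only [zero_mul, sub_zero, Complex.one_cpow, intervalIntegral.integral_const]
  rw [Complex.real_smul]
  push_cast
  ring

/-- the real function -/
def KR (x : ℝ) : ℝ := 2 * ∫ φ in (0 : ℝ)..(Real.pi / 2), (√(1 - x * Real.sin φ ^ 2))⁻¹

private lemma KR_pos_aux {x : ℝ} (hx : x < 1) (φ : ℝ) : 0 < 1 - x * Real.sin φ ^ 2 := by
  have h1 := Real.sin_sq_le_one φ
  have h2 := sq_nonneg (Real.sin φ)
  rcases le_or_gt x 0 with h | h
  · nlinarith
  · nlinarith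

private lemma KR_cont {x : ℝ} (hx : x < 1) :
    Continuous (fun φ : ℝ => (√(1 - x * Real.sin φ ^ 2))⁻¹) := by
  refine Continuous.inv₀ (Real.continuous_sqrt.comp
    (continuous_const.sub (continuous_const.mul (Real.continuous_sin.pow 2)))) fun φ => ?_
  exact (Real.sqrt_pos.2 (KR_pos_aux hx φ)).ne'

lemma KK_ofReal {x : ℝ} (hx : x < 1) : KK (x : ℂ) = (KR x : ℂ) := by
  unfold KK KR
  rw [Complex.ofReal_mul, ← intervalIntegral.integral_ofReal]
  congr 1
  refine intervalIntegral.integral_congr fun φ _ => ?_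
  have h1 : (1 - (x : ℂ) * (Real.sin φ : ℂ) ^ 2) = ((1 - x * Real.sin φ ^ 2 : ℝ) : ℂ) := by
    push_cast
    rfl
  have h2 : (-(1 / 2) : ℂ) = ((-(1 / 2) : ℝ) : ℂ) := by
    push_cast
    rfl
  rw [h1, h2, ← Complex.ofReal_cpow (KR_pos_aux hx φ).le, Real.rpow_neg (KR_pos_aux hx φ).le,
    Real.sqrt_eq_rpow]

lemma KR_pos {x : ℝ} (hx : x < 1) : 0 < KR x := by
  unfold KR
  refine mul_pos two_pos (intervalIntegral.intervalIntegral_pos_of_pos
    ((KR_cont hx).intervalIntegrable _ _) (fun φ => ?_) (by positivity))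
  exact inv_pos.2 (Real.sqrt_pos.2 (KR_pos_aux hx φ))

lemma KR_lt {x y : ℝ} (hxy : x < y) (hy : y < 1) : KR x < KR y := by
  unfold KR
  refine mul_lt_mul_of_pos_left ?_ two_pos
  refine intervalIntegral.integral_lt_integral_of_continuousOn_of_le_of_exists_lt
    (by positivity) (KR_cont (hxy.trans hy)).continuousOn (KR_cont hy).continuousOn
    (fun φ _ => ?_) ⟨Real.pi / 2, ⟨by positivity, le_rfl⟩, ?_⟩
  · refine inv_anti₀ (Real.sqrt_pos.2 (KR_pos_aux hy φ)) (Real.sqrt_le_sqrt ?_)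
    have h2 := sq_nonneg (Real.sin φ)
    nlinarith
  · refine inv_strictAnti₀ (Real.sqrt_pos.2 (KR_pos_aux hy _)) (Real.sqrt_lt_sqrt
      (KR_pos_aux hy _).le ?_)
    rw [Real.sin_pi_div_two]
    linarith

private lemma KR_lower {x : ℝ} (h0 : 0 ≤ x) (hx : x < 1) : -Real.log (1 - x) ≤ KR x := by
  have hpi : (1 : ℝ) < Real.pi / 2 := by
    have := Real.pi_gt_three
    linarith
  have hδ : 0 < √(1 - x) := Real.sqrt_pos.2 (by linarith)
  have h1 : ∫ φ in (0 : ℝ)..(Real.pi / 2), (Real.pi / 2 + √(1 - x) - φ)⁻¹ =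
      Real.log ((Real.pi / 2 + √(1 - x)) / √(1 - x)) := by
    rw [intervalIntegral.integral_comp_sub_left (fun x => x⁻¹)]
    rw [sub_zero, add_sub_cancel_left]
    exact integral_inv_of_pos hδ (by positivity)
  have h2 : ∫ φ in (0 : ℝ)..(Real.pi / 2), (Real.pi / 2 + √(1 - x) - φ)⁻¹ ≤
      ∫ φ in (0 : ℝ)..(Real.pi / 2), (√(1 - x * Real.sin φ ^ 2))⁻¹ := by
    refine intervalIntegral.integral_mono_on (by positivity) ?_
      ((KR_cont hx).intervalIntegrable _ _) fun φ hφ => ?_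
    · refine ContinuousOn.intervalIntegrable ?_
      refine ContinuousOn.inv₀ (by fun_prop) fun φ hφ => ?_
      rw [Set.uIcc_of_le (by positivity)] at hφ
      have := hφ.2
      linarith
    · refine inv_anti₀ (Real.sqrt_pos.2 (KR_pos_aux hx φ)) ?_
      rw [Real.sqrt_le_left (by linarith [hφ.2])]
      have h3 : Real.cos φ ≤ Real.pi / 2 - φ := by
        rw [← Real.sin_pi_div_two_sub]
        exact Real.sin_le (by linarith [hφ.2])
      have h4 : 0 ≤ Real.cos φ := Real.cos_nonneg_of_mem_Icc ⟨by linarith [hφ.1], hφ.2⟩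
      have h5 := Real.sin_sq_add_cos_sq φ
      have h6 : √(1 - x) ^ 2 = 1 - x := Real.sq_sqrt (by linarith)
      have h7 := sq_nonneg (Real.cos φ)
      have h8 : Real.cos φ ^ 2 ≤ (Real.pi / 2 - φ) ^ 2 := by
        exact pow_le_pow_left₀ h4 h3 2
      have h9 : 0 ≤ (Real.pi / 2 - φ) * √(1 - x) := mul_nonneg (by linarith) hδ.le
      nlinarith
  have h3 : Real.log (1 / √(1 - x)) ≤ Real.log ((Real.pi / 2 + √(1 - x)) / √(1 - x)) := by
    refine Real.log_le_log (by positivity) ?_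
    exact div_le_div_of_nonneg_right (by linarith) hδ.le
  have h4 : Real.log (1 / √(1 - x)) = -(Real.log (1 - x) / 2) := by
    rw [one_div, Real.log_inv, Real.log_sqrt (by linarith)]
  unfold KR
  linarith

/-- `KR x → ∞` as `x → 1`: for `0 ≤ x < 1`, `1 - x sin² φ = cos² φ + (1-x) sin² φ ≤
(cos φ + √(1-x))²`, and `cos φ ≤ π/2 - φ`, so
`KR x ≥ 2 ∫₀^{π/2} dψ / (ψ + √(1-x)) = 2 log ((π/2 + √(1-x)) / √(1-x))`. -/
theorem KR_tendsto : Tendsto KR (𝓝[<] 1) atTop := by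
  have h1 : Tendsto (fun x : ℝ => 1 - x) (𝓝[<] 1) (𝓝[>] 0) := by
    refine tendsto_nhdsWithin_of_tendsto_nhds_of_eventually_within _ ?_ ?_
    · have h2 : Tendsto (fun x : ℝ => 1 - x) (𝓝 1) (𝓝 (1 - 1)) :=
        (continuous_const.sub continuous_id).tendsto 1
      rw [sub_self] at h2
      exact h2.mono_left nhdsWithin_le_nhds
    · filter_upwards [self_mem_nhdsWithin] with x hx
      exact sub_pos.2 (Set.mem_Iio.1 hx)
  have h2 : Tendsto (fun x : ℝ => -Real.log (1 - x)) (𝓝[<] 1) atTop :=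
    tendsto_neg_atBot_atTop.comp (Real.tendsto_log_nhdsGT_zero.comp h1)
  refine tendsto_atTop_mono' _ ?_ h2
  filter_upwards [Ioo_mem_nhdsLT (show (0 : ℝ) < 1 by norm_num)] with x hx
  exact KR_lower hx.1.le hx.2

end Pool.Agent.Lib.MP_b9289b_nt
end
end

section

/-!
# E07: the real function `h(x) = K(1-x)/K(x)` on `(0,1)`

Strictly decreasing, `h (1-x) = 1/h x`, `h (1/2) = 1`, `h → ∞` at `0` (`KR (1-x) → ∞`,
`KR x → KR 0 = π`: `KR` is continuous at `0` because `KK` is), `h → 0` at `1`.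
-/

open Filter Topology Metric
open scoped ComplexConjugate

noncomputable section

namespace Pool.Agent.Lib.MP_b9289b_nt

private lemma e7_cont {x : ℝ} (hx : x < 1) : ContinuousAt KR x := by
  have h1 : (1 : ℂ) - (x : ℂ) ∈ Complex.slitPlane := by
    rw [← Complex.ofReal_one, ← Complex.ofReal_sub]
    exact Complex.ofReal_mem_slitPlane.2 (by linarith)
  have h2 : ContinuousAt KK (x : ℂ) := (KK_analyticAt h1).continuousAt
  have h3 : ContinuousAt (fun y : ℝ => (KK (y : ℂ)).re) x := by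
    have h4 : ContinuousAt (fun y : ℝ => KK (y : ℂ)) x :=
      ContinuousAt.comp (f := fun y : ℝ => (y : ℂ)) (g := KK) h2
        Complex.continuous_ofReal.continuousAt
    exact Complex.continuous_re.continuousAt.comp h4
  refine h3.congr ?_
  filter_upwards [gt_mem_nhds hx] with y hy
  rw [KK_ofReal hy, Complex.ofReal_re]

/-- `h(x) = K(1-x)/K(x)`. -/
def hR (x : ℝ) : ℝ := KR (1 - x) / KR x

lemma hR_pos {x : ℝ} (h0 : 0 < x) (h1 : x < 1) : 0 < hR x :=
  div_pos (KR_pos (by linarith)) (KR_pos h1)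

lemma hR_lt {x y : ℝ} (h0 : 0 < x) (hxy : x < y) (hy : y < 1) : hR y < hR x := by
  have h1 : KR (1 - y) < KR (1 - x) := KR_lt (by linarith) (by linarith)
  have h2 : KR x < KR y := KR_lt hxy hy
  have h3 : 0 < KR x := KR_pos (by linarith)
  have h4 : 0 < KR y := KR_pos hy
  have h5 : 0 < KR (1 - y) := KR_pos (by linarith)
  unfold hR
  rw [div_lt_div_iff₀ h4 h3]
  exact mul_lt_mul'' h1 h2 h5.le h3.le

lemma hR_one_sub {x : ℝ} (h0 : 0 < x) (h1 : x < 1) : hR (1 - x) = 1 / hR x := by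
  unfold hR
  rw [sub_sub_cancel, one_div_div]

lemma hR_half : hR (1 / 2) = 1 := by
  unfold hR
  have h1 : (1 : ℝ) - 1 / 2 = 1 / 2 := by norm_num
  rw [h1]
  exact div_self (KR_pos (by norm_num)).ne'

lemma hR_tendsto_zero : Tendsto hR (𝓝[>] 0) atTop := by
  have h1 : Tendsto (fun x : ℝ => 1 - x) (𝓝[>] 0) (𝓝[<] 1) := by
    refine tendsto_nhdsWithin_of_tendsto_nhds_of_eventually_within _ ?_ ?_
    · have h2 : Tendsto (fun x : ℝ => 1 - x) (𝓝 0) (𝓝 (1 - 0)) :=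
        tendsto_const_nhds.sub tendsto_id
      rw [sub_zero] at h2
      exact h2.mono_left nhdsWithin_le_nhds
    · filter_upwards [self_mem_nhdsWithin] with x hx
      have hx0 : 0 < x := hx
      exact Set.mem_Iio.2 (by linarith)
  have h2 : Tendsto (fun x => KR (1 - x)) (𝓝[>] 0) atTop := KR_tendsto.comp h1
  have h3 : Tendsto (fun x => (KR x)⁻¹) (𝓝[>] 0) (𝓝 (KR 0)⁻¹) :=
    (((e7_cont (show (0 : ℝ) < 1 by norm_num)).tendsto).mono_left nhdsWithin_le_nhds).inv₀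
      (KR_pos (by norm_num)).ne'
  exact h2.atTop_mul_pos (inv_pos.2 (KR_pos (by norm_num))) h3

lemma hR_tendsto_one : Tendsto hR (𝓝[<] 1) (𝓝 0) := by
  have h1 : Tendsto (fun x : ℝ => 1 - x) (𝓝[<] 1) (𝓝 0) := by
    have h2 : Tendsto (fun x : ℝ => 1 - x) (𝓝 1) (𝓝 (1 - 1)) :=
      tendsto_const_nhds.sub tendsto_id
    rw [sub_self] at h2
    exact h2.mono_left nhdsWithin_le_nhds
  have h2 : Tendsto (fun x => KR (1 - x)) (𝓝[<] 1) (𝓝 (KR 0)) :=
    (e7_cont (show (0 : ℝ) < 1 by norm_num)).tendsto.comp h1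
  exact h2.div_atTop KR_tendsto

lemma hR_continuousAt {x : ℝ} (h0 : 0 < x) (h1 : x < 1) : ContinuousAt hR x := by
  have h2 : ContinuousAt (fun y : ℝ => KR (1 - y)) x := by
    have h3 : ContinuousAt KR (1 - x) := e7_cont (by linarith)
    exact ContinuousAt.comp (f := fun y : ℝ => 1 - y) (g := KR) h3
      (continuous_const.sub continuous_id).continuousAt
  exact h2.div (e7_cont h1) (KR_pos h1).ne'

/-- `T(l) = i K(1-l)/K(l)`. -/
def TT (l : ℂ) : ℂ := Complex.I * KK (1 - l) / KK l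

lemma TT_ofReal {x : ℝ} (h0 : 0 < x) (h1 : x < 1) : TT (x : ℂ) = Complex.I * (hR x : ℂ) := by
  unfold TT hR
  have h2 : (1 : ℂ) - (x : ℂ) = ((1 - x : ℝ) : ℂ) := by push_cast; ring
  rw [h2, KK_ofReal h1, KK_ofReal (show 1 - x < 1 by linarith), Complex.ofReal_div, mul_div_assoc]

/-- `h(x²) = r h(x)` for all `x ∈ (0,1)` is impossible: at `x = 1/√2`, `r = 1/h(1/√2) =
h(1 - 1/√2)`; at `x = 1/2`: `h(1/4) = r h(1/2) = r`; so `1/4 = 1 - 1/√2` by injectivity. -/
theorem hR_sq_ne (r : ℝ) (h : ∀ x : ℝ, 0 < x → x < 1 → hR (x ^ 2) = r * hR x) : False := by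
  have hc0 : 0 < √(1 / 2 : ℝ) := Real.sqrt_pos.2 (by norm_num)
  have hc2 : √(1 / 2 : ℝ) ^ 2 = 1 / 2 := Real.sq_sqrt (by norm_num)
  have hc1 : √(1 / 2 : ℝ) < 1 := by
    by_contra hcon
    rw [not_lt] at hcon
    nlinarith
  have h1 := h _ hc0 hc1
  rw [hc2, hR_half] at h1
  have h2 := h (1 / 2) (by norm_num) (by norm_num)
  rw [hR_half, mul_one] at h2
  have h3 : r = hR (1 - √(1 / 2 : ℝ)) := by
    rw [hR_one_sub hc0 hc1]
    have h4 := hR_pos hc0 hc1
    rw [eq_div_iff h4.ne']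
    exact h1.symm
  have h5 : hR ((1 / 2 : ℝ) ^ 2) = hR (1 - √(1 / 2 : ℝ)) := by rw [h2, ← h3]
  have h6 : (1 / 2 : ℝ) ^ 2 = 1 - √(1 / 2 : ℝ) := by
    rcases lt_trichotomy ((1 / 2 : ℝ) ^ 2) (1 - √(1 / 2 : ℝ)) with h7 | h7 | h7
    · exact absurd h5 (hR_lt (by norm_num) h7 (by linarith)).ne'
    · exact h7
    · exact absurd h5 (hR_lt (by linarith) h7 (by norm_num)).ne
  have h7 : √(1 / 2 : ℝ) = 3 / 4 := by
    have h8 : (1 / 2 : ℝ) ^ 2 = 1 / 4 := by norm_num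
    linarith
  rw [h7] at hc2
  norm_num at hc2

end Pool.Agent.Lib.MP_b9289b_nt
end
end

section

/-!
# E08: `K(l)` and `K(1-l)` for `Im l > 0`

Let `p = (1-l)^(-1/2)`, `q = l^(-1/2)`.  The argument of `1 - l x` for `x ∈ (0,1)` is between
`arg (1-l) < 0` and `0`, so `(1 - l x)^(-1/2) = A + B p` with real `A, B > 0` (equivalently
`0 < Im (..)` and `Im (.. * conj p) < 0`), hence `KK l = A + B p` with `A, B > 0`; in the same way
`KK (1-l) = C + D q` with `C, D > 0`.  `0 < Re p`, `0 < Re q`, `0 < Im p`, `Im q < 0` and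
`0 < Re (q * conj p)` (`(q * conj p)² = 1/(l * conj (1-l))` and `Im (l * conj (1-l)) = Im l > 0`).
So `Re (KK (1-l) * conj (KK l)) = C A + C B Re p + D A Re q + D B Re (q conj p) > 0`.
-/

open Filter Topology Metric
open scoped ComplexConjugate

noncomputable section

namespace Pool.Agent.Lib.MP_b9289b_nt

private lemma e8_rt {w : ℂ} (hw : w.im < 0) : 0 < (w ^ (-(1 / 2) : ℂ)).re ∧
    0 < (w ^ (-(1 / 2) : ℂ)).im ∧ (w ^ (-(1 / 2) : ℂ)) ^ 2 = w⁻¹ := by
  have hw0 : w ≠ 0 := by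
    rintro rfl
    simp at hw
  have ha1 : w.arg < 0 := Complex.arg_neg_iff.2 hw
  have ha2 : -Real.pi < w.arg := Complex.neg_pi_lt_arg w
  have e1 : (Complex.log w * (-(1 / 2) : ℂ)).im = -w.arg / 2 := by
    have : (-(1 / 2) : ℂ) = ((-(1 / 2) : ℝ) : ℂ) := by push_cast; ring
    rw [this, Complex.im_mul_ofReal, Complex.log_im]
    ring
  refine ⟨?_, ?_, ?_⟩
  · rw [Complex.cpow_def_of_ne_zero hw0, Complex.exp_re, e1]
    exact mul_pos (Real.exp_pos _) (Real.cos_pos_of_mem_Ioo ⟨by linarith [Real.pi_pos], by linarith⟩)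
  · rw [Complex.cpow_def_of_ne_zero hw0, Complex.exp_im, e1]
    exact mul_pos (Real.exp_pos _) (Real.sin_pos_of_pos_of_lt_pi (by linarith)
      (by linarith [Real.pi_pos]))
  · rw [← Complex.cpow_nat_mul]
    have : ((2 : ℕ) : ℂ) * (-(1 / 2) : ℂ) = -1 := by push_cast; ring
    rw [this, Complex.cpow_neg_one]

private lemma e8_slit {l : ℂ} (hl : 0 < l.im) : 1 - l ∈ Complex.slitPlane := by
  rw [Complex.mem_slitPlane_iff]
  right
  rw [Complex.sub_im, Complex.one_im]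
  linarith

/-- positivity of a linear functional on `KK l` -/
private lemma e8_pos {l : ℂ} (hl : 0 < l.im) (L : ℂ →L[ℝ] ℝ)
    (h : ∀ s : ℝ, 0 < s → s < 1 → 0 < L ((1 - l * (s : ℂ)) ^ (-(1 / 2) : ℂ))) : 0 < L (KK l) := by
  have hc := continuous_KK_integrand (e8_slit hl)
  unfold KK
  have e1 : (2 : ℂ) * (∫ φ in (0 : ℝ)..(Real.pi / 2),
      (1 - l * (Real.sin φ : ℂ) ^ 2) ^ (-(1 / 2) : ℂ)) =
      (2 : ℝ) • (∫ φ in (0 : ℝ)..(Real.pi / 2),
      (1 - l * (Real.sin φ : ℂ) ^ 2) ^ (-(1 / 2) : ℂ)) := by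
    rw [Complex.real_smul]
    push_cast
    rfl
  rw [e1, map_smul, smul_eq_mul,
    ← ContinuousLinearMap.intervalIntegral_comp_comm L (hc.intervalIntegrable _ _)]
  refine mul_pos two_pos ?_
  refine intervalIntegral.intervalIntegral_pos_of_pos_on
    ((L.continuous.comp hc).intervalIntegrable _ _) ?_ (by positivity)
  intro φ hφ
  have h1 : 0 < Real.sin φ := Real.sin_pos_of_pos_of_lt_pi hφ.1 (by
    have := hφ.2
    linarith [Real.pi_pos])
  have h2 : Real.sin φ < 1 := by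
    have h3 := Real.sin_lt_sin_of_lt_of_le_pi_div_two (x := φ) (y := Real.pi / 2)
      (by linarith [hφ.1, Real.pi_pos]) le_rfl hφ.2
    rwa [Real.sin_pi_div_two] at h3
  have h3 := h (Real.sin φ ^ 2) (by positivity) (by nlinarith)
  rw [Complex.ofReal_pow] at h3
  exact h3

private lemma e8_im {l : ℂ} (s : ℝ) : (1 - l * (s : ℂ)).im = -(l.im * s) := by
  rw [Complex.sub_im, Complex.one_im, Complex.im_mul_ofReal]
  ring

lemma KK_im_pos {l : ℂ} (hl : 0 < l.im) : 0 < (KK l).im := by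
  refine e8_pos hl Complex.imCLM fun s hs _ => ?_
  have h1 := mul_pos hl hs
  exact (e8_rt (by rw [e8_im]; linarith)).2.1

lemma KK_re_pos {l : ℂ} (hl : 0 < l.im) : 0 < (KK l).re := by
  refine e8_pos hl Complex.reCLM fun s hs _ => ?_
  have h1 := mul_pos hl hs
  exact (e8_rt (by rw [e8_im]; linarith)).1

private lemma e8_conj {l : ℂ} (hl : 0 < l.im) : KK (1 - l) = conj (KK (1 - conj l)) := by
  have h1 : 1 - (1 - l) ∈ Complex.slitPlane := by
    rw [sub_sub_cancel, Complex.mem_slitPlane_iff]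
    exact Or.inr hl.ne'
  have h2 := KK_conj h1
  rw [map_sub, map_one] at h2
  rw [h2, Complex.conj_conj]

private lemma e8_im' {l : ℂ} (hl : 0 < l.im) : 0 < (1 - conj l).im := by
  rw [Complex.sub_im, Complex.one_im, Complex.conj_im]
  linarith

lemma KK_one_sub_im_neg {l : ℂ} (hl : 0 < l.im) : (KK (1 - l)).im < 0 := by
  rw [e8_conj hl, Complex.conj_im]
  have := KK_im_pos (e8_im' hl)
  linarith

lemma KK_one_sub_re_pos {l : ℂ} (hl : 0 < l.im) : 0 < (KK (1 - l)).re := by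
  rw [e8_conj hl, Complex.conj_re]
  exact KK_re_pos (e8_im' hl)

/-- `Im u² < 0` and `0 < Re u` give `Im u < 0` -/
private lemma e8_sq_im {u : ℂ} (h : (u ^ 2).im < 0) : u.re * u.im < 0 := by
  rw [sq, Complex.mul_im] at h
  linarith

private lemma e8_inv_im {u : ℂ} (h : 0 < u.im) : (u⁻¹).im < 0 := by
  rw [Complex.inv_im]
  have h0 : 0 < Complex.normSq u := by
    rw [Complex.normSq_pos]
    rintro rfl
    simp at h
  rw [neg_div]
  have := div_pos h h0
  linarith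

/-- `KK l` is in the cone of `1` and `p = (1-l)^(-1/2)` -/
private lemma e8_cone {l : ℂ} (hl : 0 < l.im) : ∃ A B : ℝ, 0 < A ∧ 0 < B ∧
    KK l = A + B * (1 - l) ^ (-(1 / 2) : ℂ) := by
  have h1l : (1 - l).im < 0 := by
    rw [Complex.sub_im, Complex.one_im]
    linarith
  obtain ⟨hp1, hp2, hp3⟩ := e8_rt h1l
  set p : ℂ := (1 - l) ^ (-(1 / 2) : ℂ) with hp
  have hL := e8_pos hl (p.im • Complex.reCLM - p.re • Complex.imCLM) (by
    intro s hs0 hs1
    have h1 := mul_pos hl hs0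
    obtain ⟨hz1, hz2, hz3⟩ := e8_rt (w := 1 - l * (s : ℂ)) (by rw [e8_im]; linarith)
    set z : ℂ := (1 - l * (s : ℂ)) ^ (-(1 / 2) : ℂ) with hz
    have e1 : (z * conj p) ^ 2 = ((1 - l * (s : ℂ)) * conj (1 - l))⁻¹ := by
      rw [mul_pow, ← map_pow, hz3, hp3, mul_inv, map_inv₀]
    have e2 : 0 < ((1 - l * (s : ℂ)) * conj (1 - l)).im := by
      have e3 : ((1 - l * (s : ℂ)) * conj (1 - l)).im = (1 - s) * l.im := by
        simp only [Complex.mul_im, Complex.conj_re, Complex.conj_im, Complex.sub_re,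
          Complex.sub_im, Complex.one_re, Complex.one_im, Complex.re_mul_ofReal,
          Complex.im_mul_ofReal, Complex.ofReal_re, Complex.ofReal_im]
        ring
      rw [e3]
      exact mul_pos (by linarith) hl
    have e4 : (z * conj p).re * (z * conj p).im < 0 := by
      apply e8_sq_im
      rw [e1]
      exact e8_inv_im e2
    have e5 : 0 < (z * conj p).re := by
      rw [Complex.mul_re, Complex.conj_re, Complex.conj_im]
      nlinarith [mul_pos hz1 hp1, mul_pos hz2 hp2]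
    have e6 : (z * conj p).im < 0 := by
      by_contra hcon
      rw [not_lt] at hcon
      exact absurd e4 (not_lt.2 (mul_nonneg e5.le hcon))
    rw [Complex.mul_im, Complex.conj_re, Complex.conj_im] at e6
    change 0 < p.im * z.re - p.re * z.im
    linarith)
  have hL' : 0 < p.im * (KK l).re - p.re * (KK l).im := hL
  have hi := KK_im_pos hl
  refine ⟨(p.im * (KK l).re - p.re * (KK l).im) / p.im, (KK l).im / p.im, div_pos hL' hp2,
    div_pos hi hp2, ?_⟩
  apply Complex.ext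
  · rw [Complex.add_re, Complex.ofReal_re, Complex.re_ofReal_mul]
    field_simp
    ring
  · rw [Complex.add_im, Complex.ofReal_im, Complex.im_ofReal_mul]
    field_simp
    ring

theorem KK_mul_conj_re_pos {l : ℂ} (hl : 0 < l.im) : 0 < (KK (1 - l) * conj (KK l)).re := by
  obtain ⟨A, B, hA, hB, hAB⟩ := e8_cone hl
  obtain ⟨C, D, hC, hD, hCD⟩ := e8_cone (e8_im' hl)
  have h1l : (1 - l).im < 0 := by
    rw [Complex.sub_im, Complex.one_im]
    linarith
  have h2l : (1 - (1 - conj l)).im < 0 := by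
    rw [sub_sub_cancel, Complex.conj_im]
    linarith
  obtain ⟨hp1, hp2, hp3⟩ := e8_rt h1l
  obtain ⟨hq1, hq2, hq3⟩ := e8_rt h2l
  set p : ℂ := (1 - l) ^ (-(1 / 2) : ℂ) with hp
  set q : ℂ := (1 - (1 - conj l)) ^ (-(1 / 2) : ℂ) with hq
  rw [e8_conj hl, hAB, hCD, ← map_mul, Complex.conj_re]
  -- `q p` has positive real part
  have e1 : ((q * p) ^ 2) = (conj l * (1 - l))⁻¹ := by
    rw [mul_pow, hp3, hq3, sub_sub_cancel, mul_inv]
  have e2 : (conj l * (1 - l)).im < 0 := by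
    have e3 : (conj l * (1 - l)).im = -l.im := by
      simp only [Complex.mul_im, Complex.conj_re, Complex.conj_im, Complex.sub_re,
          Complex.sub_im, Complex.one_re, Complex.one_im]
      ring
    rw [e3]
    linarith
  have e3 : 0 < ((q * p) ^ 2).im := by
    rw [e1, Complex.inv_im]
    refine div_pos (by linarith) ?_
    rw [Complex.normSq_pos]
    intro h0
    rw [h0] at e2
    simp at e2
  have e4 : 0 < (q * p).im := by
    rw [Complex.mul_im]
    nlinarith [mul_pos hq1 hp2, mul_pos hq2 hp1]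
  have e5 : 0 < (q * p).re := by
    rw [sq, Complex.mul_im] at e3
    by_contra hcon
    rw [not_lt] at hcon
    nlinarith [mul_nonneg (neg_nonneg.2 hcon) e4.le]
  have e6 : ((C + D * q) * (A + B * p)).re =
      C * A + C * B * p.re + D * A * q.re + D * B * (q * p).re := by
    have e7 : (C + D * q) * (A + B * p) = ((C * A : ℝ) : ℂ) + ((C * B : ℝ) : ℂ) * p +
        ((D * A : ℝ) : ℂ) * q + ((D * B : ℝ) : ℂ) * (q * p) := by
      push_cast
      ring
    rw [e7, Complex.add_re, Complex.add_re, Complex.add_re, Complex.ofReal_re,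
      Complex.re_ofReal_mul, Complex.re_ofReal_mul, Complex.re_ofReal_mul]
  rw [e6]
  positivity

end Pool.Agent.Lib.MP_b9289b_nt
end
end

section

/-!
# E09: `T(l) = i K(1-l)/K(l)` for `Im l > 0`, and its limit behaviour at `0`

`TT_im_pos`, `TT_re_pos` from E08: `T = i K(1-l) conj(K(l)) / |K(l)|²`, so
`Im T = Re (K(1-l) conj K(l))/|K(l)|²` and `Re T = - Im (K(1-l) conj K(l))/|K(l)|²` with
`Im (K(1-l) conj K(l)) = Im K(1-l) Re K(l) - Re K(1-l) Im K(l) < 0`.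

Limits.  Let `l = l(τ) → 0` along a filter with `Re l > 0`, `Im l > 0` and
`Im l / ‖l‖^(3/2) → 0` (so `arg l * ‖l‖^(-1/2) → 0`).
`K(1-l) = 2 ∫ (cos² φ + l sin² φ)^(-1/2)`; with `w = cos² φ + l sin² φ`:
`‖w‖² ≥ cos⁴ + ‖l‖² sin⁴ ≥ ‖l‖²/2` for `‖l‖ ≤ 1`, `0 ≤ Im w ≤ Im l`,
`|arg w| ≤ arg l` (`w` is in the sector between `1` and `l`), so
`|Im w^(-1/2)| ≤ ‖w‖^(-1/2) sin(arg l/2) ≤ 2 ‖l‖^(-1/2) arg l → 0`: `Im K(1-l) → 0`.
`‖K(1-l)‖ ≤ C ‖l‖^(-1/2)` and `‖Im K(l)‖ ≤ ‖K(l) - K(0)‖ ≤ C ‖l‖`, so the product tends to `0`.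
`Re w^(-1/2) ≥ c ‖w‖^(-1/2) ≥ c (cos φ + ‖l‖^(1/2))^(-1)` and the integral of this tends to `∞` (see
`KR_tendsto`).
-/

open Filter Topology Metric
open scoped ComplexConjugate

noncomputable section

namespace Pool.Agent.Lib.MP_b9289b_nt

private lemma e9_TT (l : ℂ) : TT l =
    Complex.I * (KK (1 - l) * conj (KK l)) * ((Complex.normSq (KK l))⁻¹ : ℝ) := by
  unfold TT
  rw [div_eq_mul_inv, Complex.inv_def]
  push_cast
  ring

private lemma e9_TT_re (l : ℂ) : (TT l).re =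
    ((KK (1 - l)).re * (KK l).im - (KK (1 - l)).im * (KK l).re) * (Complex.normSq (KK l))⁻¹ := by
  rw [e9_TT, Complex.re_mul_ofReal, Complex.I_mul_re, Complex.mul_im, Complex.conj_re,
    Complex.conj_im]
  ring

private lemma e9_normSq_pos {l : ℂ} (hl : 0 < l.im) : 0 < Complex.normSq (KK l) := by
  rw [Complex.normSq_pos]
  intro h
  have h1 := KK_im_pos hl
  rw [h] at h1
  simp at h1

lemma TT_im_pos {l : ℂ} (hl : 0 < l.im) : 0 < (TT l).im := by
  rw [e9_TT, Complex.im_mul_ofReal, Complex.I_mul_im]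
  exact mul_pos (KK_mul_conj_re_pos hl) (inv_pos.2 (e9_normSq_pos hl))

lemma TT_re_pos {l : ℂ} (hl : 0 < l.im) : 0 < (TT l).re := by
  rw [e9_TT_re]
  refine mul_pos ?_ (inv_pos.2 (e9_normSq_pos hl))
  have h1 := mul_pos (KK_one_sub_re_pos hl) (KK_im_pos hl)
  have h2 := mul_pos (neg_pos.2 (KK_one_sub_im_neg hl)) (KK_re_pos hl)
  linarith

lemma TT_conj {l : ℂ} (hl : 0 < l.im) : TT (conj l) = -conj (TT l) := by
  have h1 : 1 - l ∈ Complex.slitPlane := by
    rw [Complex.mem_slitPlane_iff]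
    right
    rw [Complex.sub_im, Complex.one_im]
    linarith
  have h2 : 1 - (1 - l) ∈ Complex.slitPlane := by
    rw [sub_sub_cancel, Complex.mem_slitPlane_iff]
    exact Or.inr hl.ne'
  have h3 := KK_conj h1
  have h4 := KK_conj h2
  rw [map_sub, map_one] at h4
  unfold TT
  rw [h3, h4, map_div₀, map_mul, Complex.conj_I]
  ring

/-- square roots in the right half plane -/
private lemma e9_rt {w : ℂ} (hw : 0 < w.re) : 0 < (w ^ (-(1 / 2) : ℂ)).re ∧
    (w ^ (-(1 / 2) : ℂ)) ^ 2 = w⁻¹ := by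
  have hw0 : w ≠ 0 := by
    rintro rfl
    simp at hw
  have ha := abs_lt.1 (Complex.abs_arg_lt_pi_div_two_iff.2 (Or.inl hw))
  have e1 : (Complex.log w * (-(1 / 2) : ℂ)).im = -w.arg / 2 := by
    have : (-(1 / 2) : ℂ) = ((-(1 / 2) : ℝ) : ℂ) := by push_cast; ring
    rw [this, Complex.im_mul_ofReal, Complex.log_im]
    ring
  refine ⟨?_, ?_⟩
  · rw [Complex.cpow_def_of_ne_zero hw0, Complex.exp_re, e1]
    exact mul_pos (Real.exp_pos _) (Real.cos_pos_of_mem_Ioo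
      ⟨by linarith [Real.pi_pos, ha.1, ha.2], by linarith [Real.pi_pos, ha.1, ha.2]⟩)
  · rw [← Complex.cpow_nat_mul]
    have : ((2 : ℕ) : ℂ) * (-(1 / 2) : ℂ) = -1 := by push_cast; ring
    rw [this, Complex.cpow_neg_one]

private lemma e9_w_re (l : ℂ) (φ : ℝ) : (1 - (1 - l) * (Real.sin φ : ℂ) ^ 2).re =
    Real.cos φ ^ 2 + l.re * Real.sin φ ^ 2 := by
  have h := Real.sin_sq_add_cos_sq φ
  rw [← Complex.ofReal_pow, Complex.sub_re, Complex.one_re, Complex.re_mul_ofReal, Complex.sub_re,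
    Complex.one_re]
  linear_combination -h

private lemma e9_w_im (l : ℂ) (φ : ℝ) : (1 - (1 - l) * (Real.sin φ : ℂ) ^ 2).im =
    l.im * Real.sin φ ^ 2 := by
  rw [← Complex.ofReal_pow, Complex.sub_im, Complex.one_im, Complex.im_mul_ofReal, Complex.sub_im,
    Complex.one_im]
  ring

private lemma e9_w_re_pos {l : ℂ} (hre : 0 < l.re) (φ : ℝ) :
    0 < (1 - (1 - l) * (Real.sin φ : ℂ) ^ 2).re := by
  rw [e9_w_re]
  have h := Real.sin_sq_add_cos_sq φ
  rcases eq_or_lt_of_le (sq_nonneg (Real.cos φ)) with h1 | h1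
  · have h2 : Real.sin φ ^ 2 = 1 := by linarith
    rw [← h1, h2]
    linarith
  · have := mul_nonneg hre.le (sq_nonneg (Real.sin φ))
    linarith

private lemma e9_w_le (l : ℂ) (φ : ℝ) : ‖1 - (1 - l) * (Real.sin φ : ℂ) ^ 2‖ ≤
    1 - (1 - ‖l‖) * Real.sin φ ^ 2 := by
  have h := Real.sin_sq_add_cos_sq φ
  have e1 : 1 - (1 - l) * (Real.sin φ : ℂ) ^ 2 =
      ((Real.cos φ ^ 2 : ℝ) : ℂ) + l * ((Real.sin φ ^ 2 : ℝ) : ℂ) := by
    have h' : ((Real.sin φ ^ 2 : ℝ) : ℂ) + ((Real.cos φ ^ 2 : ℝ) : ℂ) = 1 := by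
      rw [← Complex.ofReal_add, h, Complex.ofReal_one]
    rw [← Complex.ofReal_pow]
    linear_combination -h'
  rw [e1]
  refine (norm_add_le _ _).trans ?_
  rw [norm_mul, Complex.norm_real, Complex.norm_real, Real.norm_of_nonneg (sq_nonneg _),
    Real.norm_of_nonneg (sq_nonneg _)]
  linarith

private lemma e9_w_ge {l : ℂ} (hre : 0 < l.re) (h1 : ‖l‖ ≤ 1) (φ : ℝ) :
    ‖l‖ / 2 ≤ ‖1 - (1 - l) * (Real.sin φ : ℂ) ^ 2‖ := by
  have h := Real.sin_sq_add_cos_sq φ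
  set w : ℂ := 1 - (1 - l) * (Real.sin φ : ℂ) ^ 2 with hw
  have h2 : ‖w‖ ^ 2 = (Real.cos φ ^ 2 + l.re * Real.sin φ ^ 2) ^ 2 + (l.im * Real.sin φ ^ 2) ^ 2 := by
    rw [Complex.sq_norm, Complex.normSq_apply, e9_w_re, e9_w_im]
    ring
  have h3 : ‖l‖ ^ 2 = l.re ^ 2 + l.im ^ 2 := by
    rw [Complex.sq_norm, Complex.normSq_apply]
    ring
  set c := Real.cos φ ^ 2 with hc
  set s := Real.sin φ ^ 2 with hs
  have hc0 : 0 ≤ c := sq_nonneg _
  have hs0 : 0 ≤ s := sq_nonneg _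
  have hn : 0 ≤ ‖l‖ := norm_nonneg l
  have h4 : ‖l‖ ^ 2 ≤ 1 := pow_le_one₀ hn h1
  have h5 : c ^ 2 + ‖l‖ ^ 2 * s ^ 2 ≤ ‖w‖ ^ 2 := by
    rw [h2, h3]
    nlinarith [mul_nonneg (mul_nonneg hc0 hre.le) hs0]
  have h6 : ‖l‖ ^ 2 * c ^ 2 ≤ c ^ 2 := by nlinarith [sq_nonneg c]
  have h7 : 1 / 2 ≤ c ^ 2 + s ^ 2 := by nlinarith [sq_nonneg (c - s)]
  have h8 : (‖l‖ / 2) ^ 2 ≤ ‖w‖ ^ 2 := by
    have h9 := mul_le_mul_of_nonneg_left h7 (sq_nonneg ‖l‖)
    nlinarith [sq_nonneg ‖l‖]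
  exact le_of_sq_le_sq h8 (norm_nonneg w)

private lemma e9_z {l : ℂ} (hre : 0 < l.re) (φ : ℝ) :
    0 < ((1 - (1 - l) * (Real.sin φ : ℂ) ^ 2) ^ (-(1 / 2) : ℂ)).re ∧
    ‖(1 - (1 - l) * (Real.sin φ : ℂ) ^ 2) ^ (-(1 / 2) : ℂ)‖ ^ 2 *
      ‖1 - (1 - l) * (Real.sin φ : ℂ) ^ 2‖ = 1 ∧
    ‖(1 - (1 - l) * (Real.sin φ : ℂ) ^ 2) ^ (-(1 / 2) : ℂ)‖ ^ 2 ≤
      2 * ((1 - (1 - l) * (Real.sin φ : ℂ) ^ 2) ^ (-(1 / 2) : ℂ)).re ^ 2 := by
  have hw := e9_w_re_pos hre φ
  set w : ℂ := 1 - (1 - l) * (Real.sin φ : ℂ) ^ 2 with hwdef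
  obtain ⟨h1, h2⟩ := e9_rt hw
  set z : ℂ := w ^ (-(1 / 2) : ℂ) with hz
  have hw0 : w ≠ 0 := by
    intro h0
    rw [h0] at hw
    simp at hw
  refine ⟨h1, ?_, ?_⟩
  · rw [← norm_pow, h2, norm_inv]
    exact inv_mul_cancel₀ (norm_ne_zero_iff.2 hw0)
  · have h3 : 0 < (z ^ 2).re := by
      rw [h2, Complex.inv_re]
      exact div_pos hw (Complex.normSq_pos.2 hw0)
    have h4 : (z ^ 2).re = z.re ^ 2 - z.im ^ 2 := by
      rw [sq, Complex.mul_re]
      ring
    rw [Complex.sq_norm, Complex.normSq_apply]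
    nlinarith

private lemma e9_slit {l : ℂ} (hre : 0 < l.re) : 1 - (1 - l) ∈ Complex.slitPlane := by
  rw [sub_sub_cancel, Complex.mem_slitPlane_iff]
  exact Or.inl hre

private lemma e9_L (L : ℂ →L[ℝ] ℝ) {l : ℂ} (hre : 0 < l.re) : L (KK (1 - l)) =
    2 * ∫ φ in (0 : ℝ)..(Real.pi / 2),
      L ((1 - (1 - l) * (Real.sin φ : ℂ) ^ 2) ^ (-(1 / 2) : ℂ)) := by
  have hc := continuous_KK_integrand (e9_slit hre)
  unfold KK
  have e1 : (2 : ℂ) * (∫ φ in (0 : ℝ)..(Real.pi / 2),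
      (1 - (1 - l) * (Real.sin φ : ℂ) ^ 2) ^ (-(1 / 2) : ℂ)) =
      (2 : ℝ) • (∫ φ in (0 : ℝ)..(Real.pi / 2),
      (1 - (1 - l) * (Real.sin φ : ℂ) ^ 2) ^ (-(1 / 2) : ℂ)) := by
    rw [Complex.real_smul]
    push_cast
    rfl
  rw [e1, map_smul, smul_eq_mul,
    ← ContinuousLinearMap.intervalIntegral_comp_comm L (hc.intervalIntegrable _ _)]

private lemma e9_KR_le {l : ℂ} (hre : 0 < l.re) (h0 : 0 < ‖l‖) (h1 : ‖l‖ ≤ 1) :
    KR (1 - ‖l‖) / 2 ≤ ‖KK (1 - l)‖ := by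
  have hc := continuous_KK_integrand (e9_slit hre)
  have h2 : (KK (1 - l)).re = 2 * ∫ φ in (0 : ℝ)..(Real.pi / 2),
      ((1 - (1 - l) * (Real.sin φ : ℂ) ^ 2) ^ (-(1 / 2) : ℂ)).re := e9_L Complex.reCLM hre
  have hpos : ∀ φ : ℝ, 0 < 1 - (1 - ‖l‖) * Real.sin φ ^ 2 := by
    intro φ
    have h3 := Real.sin_sq_le_one φ
    have h4 := sq_nonneg (Real.sin φ)
    nlinarith
  have hcont : Continuous (fun φ : ℝ => (√(1 - (1 - ‖l‖) * Real.sin φ ^ 2))⁻¹) := by
    refine Continuous.inv₀ (by fun_prop) fun φ => ?_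
    exact (Real.sqrt_pos.2 (hpos φ)).ne'
  have h3 : ∫ φ in (0 : ℝ)..(Real.pi / 2), (√(1 - (1 - ‖l‖) * Real.sin φ ^ 2))⁻¹ / 2 ≤
      ∫ φ in (0 : ℝ)..(Real.pi / 2),
        ((1 - (1 - l) * (Real.sin φ : ℂ) ^ 2) ^ (-(1 / 2) : ℂ)).re := by
    refine intervalIntegral.integral_mono_on (by positivity)
      ((hcont.div_const 2).intervalIntegrable _ _)
      ((Complex.continuous_re.comp hc).intervalIntegrable _ _) fun φ _ => ?_
    obtain ⟨z1, z2, z3⟩ := e9_z hre φ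
    have z4 := e9_w_le l φ
    set z : ℂ := (1 - (1 - l) * (Real.sin φ : ℂ) ^ 2) ^ (-(1 / 2) : ℂ) with hz
    set y : ℝ := √(1 - (1 - ‖l‖) * Real.sin φ ^ 2) with hy
    have hy0 : 0 < y := Real.sqrt_pos.2 (hpos φ)
    have hy2 : y ^ 2 = 1 - (1 - ‖l‖) * Real.sin φ ^ 2 := Real.sq_sqrt (hpos φ).le
    rw [← hy2] at z4
    have h5 : 1 ≤ 2 * z.re ^ 2 * y ^ 2 := by
      calc (1 : ℝ) = ‖z‖ ^ 2 * ‖1 - (1 - l) * (Real.sin φ : ℂ) ^ 2‖ := z2.symm
        _ ≤ (2 * z.re ^ 2) * y ^ 2 := mul_le_mul z3 z4 (norm_nonneg _) (by positivity)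
    rw [div_le_iff₀ two_pos, inv_le_iff_one_le_mul₀ hy0]
    have h6 : (1 : ℝ) ^ 2 ≤ (z.re * 2 * y) ^ 2 := by nlinarith
    exact le_of_sq_le_sq h6 (by positivity)
  rw [intervalIntegral.integral_div] at h3
  have h4 : KR (1 - ‖l‖) / 2 ≤ (KK (1 - l)).re := by
    rw [h2]
    unfold KR
    linarith
  exact h4.trans ((le_abs_self _).trans (Complex.abs_re_le_norm _))

private lemma e9_norm_le {l : ℂ} (hre : 0 < l.re) (h0 : 0 < ‖l‖) (h1 : ‖l‖ ≤ 1) :
    ‖KK (1 - l)‖ ≤ Real.pi * √(2 / ‖l‖) := by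
  unfold KK
  rw [norm_mul, Complex.norm_ofNat]
  have h2 : ‖∫ φ in (0 : ℝ)..(Real.pi / 2),
      (1 - (1 - l) * (Real.sin φ : ℂ) ^ 2) ^ (-(1 / 2) : ℂ)‖ ≤
      √(2 / ‖l‖) * |Real.pi / 2 - 0| := by
    refine intervalIntegral.norm_integral_le_of_norm_le_const fun φ _ => ?_
    obtain ⟨z1, z2, z3⟩ := e9_z hre φ
    have z4 := e9_w_ge hre h1 φ
    refine Real.le_sqrt_of_sq_le ?_
    rw [le_div_iff₀ h0]
    have h5 := mul_le_mul_of_nonneg_left z4 (sq_nonneg
      ‖(1 - (1 - l) * (Real.sin φ : ℂ) ^ 2) ^ (-(1 / 2) : ℂ)‖)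
    rw [z2] at h5
    linarith
  rw [sub_zero, abs_of_pos (by positivity)] at h2
  linarith

private lemma e9_im_le {l : ℂ} (hre : 0 < l.re) (him : 0 < l.im) (h0 : 0 < ‖l‖) (h1 : ‖l‖ ≤ 1) :
    |(KK (1 - l)).im| ≤ Real.pi * (l.im * √(2 / ‖l‖) ^ 3) := by
  have h2 : (KK (1 - l)).im = 2 * ∫ φ in (0 : ℝ)..(Real.pi / 2),
      ((1 - (1 - l) * (Real.sin φ : ℂ) ^ 2) ^ (-(1 / 2) : ℂ)).im := e9_L Complex.imCLM hre
  have h3 : ‖∫ φ in (0 : ℝ)..(Real.pi / 2),
      ((1 - (1 - l) * (Real.sin φ : ℂ) ^ 2) ^ (-(1 / 2) : ℂ)).im‖ ≤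
      (l.im * √(2 / ‖l‖) ^ 3) * |Real.pi / 2 - 0| := by
    refine intervalIntegral.norm_integral_le_of_norm_le_const fun φ _ => ?_
    obtain ⟨z1, z2, z3⟩ := e9_z hre φ
    have z4 := e9_w_ge hre h1 φ
    have hw := e9_w_re_pos hre φ
    have z5 := (e9_rt hw).2
    have z6 := e9_w_im l φ
    set w : ℂ := 1 - (1 - l) * (Real.sin φ : ℂ) ^ 2 with hwdef
    set z : ℂ := w ^ (-(1 / 2) : ℂ) with hz
    have hzn : ‖z‖ ≤ √(2 / ‖l‖) := by
      refine Real.le_sqrt_of_sq_le ?_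
      rw [le_div_iff₀ h0]
      have h5 := mul_le_mul_of_nonneg_left z4 (sq_nonneg ‖z‖)
      rw [z2] at h5
      linarith
    have hz0 : 0 < ‖z‖ := norm_pos_iff.2 (by
      intro h0
      rw [h0] at z1
      simp at z1)
    have hw0 : 0 < ‖w‖ := by
      by_contra hcon
      have : ‖w‖ = 0 := le_antisymm (not_lt.1 hcon) (norm_nonneg _)
      rw [this, mul_zero] at z2
      exact zero_ne_one z2
    -- `2 z.re z.im = - Im w ‖z‖ ^ 4`
    have e1 : 2 * z.re * z.im = -(w.im * ‖z‖ ^ 4) := by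
      have e2 : (z ^ 2).im = 2 * z.re * z.im := by
        rw [sq, Complex.mul_im]
        ring
      rw [← e2, z5, Complex.inv_im, ← Complex.sq_norm]
      have e3 : ‖z‖ ^ 2 = ‖w‖⁻¹ := eq_inv_of_mul_eq_one_left z2
      have e4 : ‖z‖ ^ 4 = (‖w‖⁻¹) ^ 2 := by rw [← e3]; ring
      rw [e4, inv_pow]
      ring
    have e2 : ‖z‖ ≤ 2 * z.re := by
      have h6 : ‖z‖ ^ 2 ≤ (2 * z.re) ^ 2 := by nlinarith [sq_nonneg z.re]
      exact le_of_sq_le_sq h6 (by positivity)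
    have e3 : ‖z‖ * |z.im| ≤ w.im * ‖z‖ ^ 4 := by
      have h7 : |2 * z.re * z.im| = 2 * z.re * |z.im| := by
        rw [abs_mul, abs_of_pos (by positivity)]
      have h8 : 0 ≤ w.im * ‖z‖ ^ 4 := by
        rw [z6]
        positivity
      rw [e1, abs_neg, abs_of_nonneg h8] at h7
      rw [h7]
      exact mul_le_mul_of_nonneg_right e2 (abs_nonneg _)
    have e4 : |z.im| ≤ w.im * ‖z‖ ^ 3 := by
      have h8 : ‖z‖ * |z.im| ≤ ‖z‖ * (w.im * ‖z‖ ^ 3) := by linarith [e3]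
      exact le_of_mul_le_mul_left h8 hz0
    rw [Real.norm_eq_abs]
    refine e4.trans ?_
    have e5 : w.im ≤ l.im := by
      rw [z6]
      have := Real.sin_sq_le_one φ
      nlinarith
    have e6 : ‖z‖ ^ 3 ≤ √(2 / ‖l‖) ^ 3 := pow_le_pow_left₀ hz0.le hzn 3
    exact mul_le_mul e5 e6 (by positivity) him.le
  rw [sub_zero, abs_of_pos (by positivity), Real.norm_eq_abs] at h3
  rw [h2, abs_mul, abs_of_pos (two_pos)]
  linarith

/-- `‖T(l)‖ → ∞`. -/
theorem TT_norm_tendsto {ι : Type*} {F : Filter ι} {l : ι → ℂ} (h0 : Tendsto l F (𝓝 0))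
    (hre : ∀ᶠ τ in F, 0 < (l τ).re) (him : ∀ᶠ τ in F, 0 < (l τ).im) :
    Tendsto (fun τ => ‖TT (l τ)‖) F atTop := by
  have hK0 : (1 : ℂ) - 0 ∈ Complex.slitPlane := by simp
  have hn0 : Tendsto (fun τ => ‖l τ‖) F (𝓝 0) := by
    have := h0.norm
    rwa [norm_zero] at this
  have hpos : ∀ᶠ τ in F, 0 < ‖l τ‖ := by
    filter_upwards [him] with τ hτ
    refine norm_pos_iff.2 ?_
    intro h
    rw [h] at hτ
    simp at hτ
  have hle : ∀ᶠ τ in F, ‖l τ‖ ≤ 1 := by
    filter_upwards [hn0.eventually (gt_mem_nhds (show (0 : ℝ) < 1 by norm_num))] with τ hτ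
    exact hτ.le
  have h1 : Tendsto (fun τ => 1 - ‖l τ‖) F (𝓝[<] 1) := by
    refine tendsto_nhdsWithin_of_tendsto_nhds_of_eventually_within _ ?_ ?_
    · have h2 : Tendsto (fun τ => 1 - ‖l τ‖) F (𝓝 (1 - 0)) := tendsto_const_nhds.sub hn0
      rwa [sub_zero] at h2
    · filter_upwards [hpos] with τ hτ
      exact Set.mem_Iio.2 (by linarith)
  have h2 : Tendsto (fun τ => KR (1 - ‖l τ‖)) F atTop := KR_tendsto.comp h1
  have h3 : Tendsto (fun τ => KK (l τ)) F (𝓝 (KK 0)) :=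
    ((KK_analyticAt hK0).continuousAt.tendsto).comp h0
  have hπ : (0 : ℝ) < 2 * ‖KK 0‖ := by
    rw [KK_zero, Complex.norm_real, Real.norm_of_nonneg Real.pi_pos.le]
    positivity
  have h4 : Tendsto (fun τ => (2 * ‖KK (l τ)‖)⁻¹) F (𝓝 (2 * ‖KK 0‖)⁻¹) :=
    (tendsto_const_nhds.mul h3.norm).inv₀ hπ.ne'
  have h5 := h2.atTop_mul_pos (inv_pos.2 hπ) h4
  refine tendsto_atTop_mono' F ?_ h5
  filter_upwards [hre, hpos, hle] with τ t1 t2 t3
  have h6 := e9_KR_le t1 t2 t3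
  unfold TT
  rw [norm_div, norm_mul, Complex.norm_I, one_mul, mul_inv, div_eq_mul_inv, ← mul_assoc]
  exact mul_le_mul_of_nonneg_right (by linarith) (by positivity)

/-- `Re T(l) → 0` if `Im l = o(‖l‖^(3/2))`. -/
theorem TT_re_tendsto {ι : Type*} {F : Filter ι} {l : ι → ℂ} (h0 : Tendsto l F (𝓝 0))
    (hre : ∀ᶠ τ in F, 0 < (l τ).re) (him : ∀ᶠ τ in F, 0 < (l τ).im)
    (hsm : Tendsto (fun τ => (l τ).im / ‖l τ‖ ^ (3 / 2 : ℝ)) F (𝓝 0)) :
    Tendsto (fun τ => (TT (l τ)).re) F (𝓝 0) := by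
  have hK0 : (1 : ℂ) - 0 ∈ Complex.slitPlane := by simp
  have hn0 : Tendsto (fun τ => ‖l τ‖) F (𝓝 0) := by
    have := h0.norm
    rwa [norm_zero] at this
  have hpos : ∀ᶠ τ in F, 0 < ‖l τ‖ := by
    filter_upwards [him] with τ hτ
    refine norm_pos_iff.2 ?_
    intro h
    rw [h] at hτ
    simp at hτ
  have hle : ∀ᶠ τ in F, ‖l τ‖ ≤ 1 := by
    filter_upwards [hn0.eventually (gt_mem_nhds (show (0 : ℝ) < 1 by norm_num))] with τ hτ
    exact hτ.le
  have h3 : Tendsto (fun τ => KK (l τ)) F (𝓝 (KK 0)) :=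
    ((KK_analyticAt hK0).continuousAt.tendsto).comp h0
  -- the imaginary part of `K(1-l)`
  have hA : Tendsto (fun τ => (KK (1 - l τ)).im) F (𝓝 0) := by
    have h4 : Tendsto (fun τ => (Real.pi * √2 ^ 3) * ((l τ).im / ‖l τ‖ ^ (3 / 2 : ℝ))) F
        (𝓝 ((Real.pi * √2 ^ 3) * 0)) := hsm.const_mul _
    rw [mul_zero] at h4
    refine squeeze_zero_norm' ?_ h4
    filter_upwards [hre, him, hpos, hle] with τ t1 t2 t3 t4
    rw [Real.norm_eq_abs]
    refine (e9_im_le t1 t2 t3 t4).trans (le_of_eq ?_)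
    have h5 : ‖l τ‖ ^ (3 / 2 : ℝ) = √‖l τ‖ ^ 3 := by
      rw [Real.sqrt_eq_rpow, ← Real.rpow_natCast, ← Real.rpow_mul t3.le]
      norm_num
    rw [h5, Real.sqrt_div (by norm_num), div_pow]
    ring
  -- the product
  have hB : Tendsto (fun τ => (KK (1 - l τ)).re * (KK (l τ)).im) F (𝓝 0) := by
    have h4 : (fun z => KK z - KK 0) =O[𝓝 0] fun z => z - 0 :=
      (KK_analyticAt hK0).differentiableAt.isBigO_sub
    obtain ⟨C, hC⟩ := h4.bound
    have h5 := h0.eventually hC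
    have h6 : Tendsto (fun τ => (Real.pi * √2 * C) * √‖l τ‖) F
        (𝓝 ((Real.pi * √2 * C) * √0)) :=
      ((Real.continuous_sqrt.tendsto 0).comp hn0).const_mul _
    rw [Real.sqrt_zero, mul_zero] at h6
    refine squeeze_zero_norm' ?_ h6
    filter_upwards [hre, him, hpos, hle, h5] with τ t1 t2 t3 t4 t5
    rw [sub_zero] at t5
    have h7 : |(KK (l τ)).im| ≤ C * ‖l τ‖ := by
      have h8 : (KK (l τ)).im = (KK (l τ) - KK 0).im := by
        rw [Complex.sub_im, KK_zero, Complex.ofReal_im, sub_zero]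
      rw [h8]
      exact (Complex.abs_im_le_norm _).trans t5
    have h8 : |(KK (1 - l τ)).re| ≤ Real.pi * √(2 / ‖l τ‖) :=
      (Complex.abs_re_le_norm _).trans (e9_norm_le t1 t3 t4)
    rw [Real.norm_eq_abs, abs_mul]
    refine (mul_le_mul h8 h7 (abs_nonneg _) (by positivity)).trans (le_of_eq ?_)
    rw [Real.sqrt_div (by norm_num)]
    have h9 : ‖l τ‖ = √‖l τ‖ * √‖l τ‖ := (Real.mul_self_sqrt t3.le).symm
    have h10 : √‖l τ‖ ≠ 0 := (Real.sqrt_pos.2 t3).ne'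
    calc Real.pi * (√2 / √‖l τ‖) * (C * ‖l τ‖)
        = Real.pi * (√2 / √‖l τ‖) * (C * (√‖l τ‖ * √‖l τ‖)) := by rw [← h9]
      _ = Real.pi * √2 * C * √‖l τ‖ := by field_simp
  have hC : Tendsto (fun τ => (KK (l τ)).re) F (𝓝 (KK 0).re) :=
    (Complex.continuous_re.tendsto _).comp h3
  have hD : Tendsto (fun τ => (Complex.normSq (KK (l τ)))⁻¹) F (𝓝 (Complex.normSq (KK 0))⁻¹) := by
    refine ((Complex.continuous_normSq.tendsto _).comp h3).inv₀ ?_
    rw [Ne, Complex.normSq_eq_zero, KK_zero]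
    exact_mod_cast Real.pi_ne_zero
  have hE := (hB.sub (hA.mul hC)).mul hD
  rw [zero_mul, sub_zero, zero_mul] at hE
  refine hE.congr fun τ => ?_
  rw [e9_TT_re]

end Pool.Agent.Lib.MP_b9289b_nt
end
end

section

/-!
# E10: commensurability classes of the lattices

`Qlat l` is the `ℚ`-span of `K(l)` and `i K(1-l)`; `SameLat l l'`: the two are proportional.
-/

open Filter Topology Metric
open scoped ComplexConjugate

noncomputable section

namespace Pool.Agent.Lib.MP_b9289b_nt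

/-- The rational span of `K(l)` and `i K(1-l)`. -/
def Qlat (l : ℂ) : Submodule ℚ ℂ := Submodule.span ℚ {KK l, Complex.I * KK (1 - l)}

/-- `Qlat l` and `Qlat l'` are proportional. -/
def SameLat (l l' : ℂ) : Prop := ∃ c : ℂ, c ≠ 0 ∧ ∀ z, z ∈ Qlat l ↔ c * z ∈ Qlat l'

private lemma e10_mem (l z : ℂ) :
    z ∈ Qlat l ↔ ∃ a b : ℚ, (a : ℂ) * KK l + (b : ℂ) * (Complex.I * KK (1 - l)) = z := by
  unfold Qlat
  rw [Submodule.mem_span_pair]
  constructor
  · rintro ⟨a, b, h⟩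
    exact ⟨a, b, by rw [← h, Algebra.smul_def, Algebra.smul_def]; rfl⟩
  · rintro ⟨a, b, h⟩
    exact ⟨a, b, by rw [← h, Algebra.smul_def, Algebra.smul_def]; rfl⟩

lemma SameLat.symm {l l' : ℂ} (h : SameLat l l') : SameLat l' l := by
  obtain ⟨c, hc, h⟩ := h
  refine ⟨c⁻¹, inv_ne_zero hc, fun z => ?_⟩
  rw [h (c⁻¹ * z), mul_inv_cancel_left₀ hc]

lemma SameLat.trans {l l' l'' : ℂ} (h : SameLat l l') (h' : SameLat l' l'') : SameLat l l'' := by
  obtain ⟨c, hc, h⟩ := h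
  obtain ⟨d, hd, h'⟩ := h'
  refine ⟨d * c, mul_ne_zero hd hc, fun z => ?_⟩
  rw [h z, h' (c * z), mul_assoc]

private lemma e10_conj {l : ℂ} (hl : l ∈ Complex.slitPlane) (hl1 : 1 - l ∈ Complex.slitPlane) (z : ℂ) :
    z ∈ Qlat (conj l) ↔ conj z ∈ Qlat l := by
  have h1 : KK (conj l) = conj (KK l) := KK_conj hl1
  have h2 : KK (1 - conj l) = conj (KK (1 - l)) := by
    have := KK_conj (l := 1 - l) (by simpa using hl)
    rw [← this]
    simp
  rw [e10_mem, e10_mem, h1, h2]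
  constructor
  · rintro ⟨a, b, h⟩
    refine ⟨a, -b, ?_⟩
    rw [← h]
    simp [map_add, map_mul]
  · rintro ⟨a, b, h⟩
    refine ⟨a, -b, ?_⟩
    have := congrArg conj h
    rw [Complex.conj_conj] at this
    rw [← this]
    simp [map_add, map_mul]

/-- Complex conjugation: `conj K(l) = K(conj l)`, `conj (i K(1-l)) = - i K(1 - conj l)`. -/
lemma SameLat.conj {l l' : ℂ} (hl : l ∈ Complex.slitPlane) (hl1 : 1 - l ∈ Complex.slitPlane)
    (hl' : l' ∈ Complex.slitPlane) (hl1' : 1 - l' ∈ Complex.slitPlane) (h : SameLat l l') :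
    SameLat (conj l) (conj l') := by
  obtain ⟨c, hc, h⟩ := h
  refine ⟨(starRingEnd ℂ) c, by simpa using hc, fun z => ?_⟩
  rw [e10_conj hl hl1, e10_conj hl' hl1', h, map_mul, Complex.conj_conj]

/-- `c K(l) = m K(l') + n i K(1-l')`, `c i K(1-l) = p K(l') + q i K(1-l')`; if `m q = n p` then
`T(l)` would be rational (or `K(l) = 0`). -/
theorem SameLat.rel {l l' : ℂ} (hl : KK l ≠ 0) (hl' : KK l' ≠ 0) (hT : (TT l).im ≠ 0)
    (h : SameLat l l') : ∃ m n p q : ℚ, m * q - n * p ≠ 0 ∧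
      TT l * (m + n * TT l') = p + q * TT l' := by
  obtain ⟨c, hc, h⟩ := h
  have h1 : KK l ∈ Qlat l := (e10_mem l _).2 ⟨1, 0, by simp⟩
  have h2 : Complex.I * KK (1 - l) ∈ Qlat l := (e10_mem l _).2 ⟨0, 1, by simp⟩
  obtain ⟨m, n, h3⟩ := (e10_mem l' _).1 ((h _).1 h1)
  obtain ⟨p, q, h4⟩ := (e10_mem l' _).1 ((h _).1 h2)
  have hTl : TT l * KK l = Complex.I * KK (1 - l) := by unfold TT; field_simp
  have hTl' : TT l' * KK l' = Complex.I * KK (1 - l') := by unfold TT; field_simp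
  have h5 : ((m : ℂ) + n * TT l') * KK l' = c * KK l := by rw [← h3, ← hTl']; ring
  have h6 : ((p : ℂ) + q * TT l') * KK l' = c * (Complex.I * KK (1 - l)) := by rw [← h4, ← hTl']; ring
  have h7 : TT l * (m + n * TT l') = p + q * TT l' := by
    apply mul_right_cancel₀ hl'
    rw [mul_assoc, h5, h6, ← hTl]
    ring
  have h8 : (m : ℂ) + n * TT l' ≠ 0 := by
    intro h0
    rw [h0, zero_mul] at h5
    exact mul_ne_zero hc hl h5.symm
  refine ⟨m, n, p, q, ?_, h7⟩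
  intro hdet
  have hdet' : (m : ℂ) * q = n * p := by
    have : m * q = n * p := by linarith
    exact_mod_cast this
  have key : ∃ r : ℚ, TT l = r := by
    by_cases hm : m = 0
    · by_cases hn : n = 0
      · exact absurd (by rw [hm, hn]; simp) h8
      · have hp : p = 0 := by
          have : n * p = 0 := by rw [hm] at hdet; linarith
          rcases mul_eq_zero.mp this with h | h
          · exact absurd h hn
          · exact h
        refine ⟨q / n, ?_⟩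
        rw [hm, hp] at h7
        rw [hm] at h8
        have hn' : (n : ℂ) ≠ 0 := by exact_mod_cast hn
        have h9 : TT l' ≠ 0 := by
          intro h0
          apply h8
          rw [h0]
          simp
        push_cast
        rw [eq_div_iff hn']
        apply mul_right_cancel₀ h9
        have : TT l * ((n : ℂ) * TT l') = q * TT l' := by simpa using h7
        rw [← this]
        ring
    · refine ⟨p / m, ?_⟩
      have hm' : (m : ℂ) ≠ 0 := by exact_mod_cast hm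
      push_cast
      rw [eq_div_iff hm']
      apply mul_right_cancel₀ h8
      calc TT l * m * (m + n * TT l') = m * (TT l * (m + n * TT l')) := by ring
        _ = m * (p + q * TT l') := by rw [h7]
        _ = p * m + (m * q) * TT l' := by ring
        _ = p * m + (n * p) * TT l' := by rw [hdet']
        _ = p * (m + n * TT l') := by ring
  obtain ⟨r, hr⟩ := key
  apply hT
  rw [hr]
  simp

end Pool.Agent.Lib.MP_b9289b_nt
end
end

section

/-!
# E11: relations which hold for uncountably many parameters hold for all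

For fixed `m, n, p, q` the function `t ↦ T(l t) (m + n T(l' t)) - (p + q T(l' t))` is real analytic
on `(1, ∞)`, so it is identically zero or has only countably many zeros there (its zero set in the
preconnected set `Ioi 1` is codiscrete-complement: `AnalyticOnNhd.eqOn_zero_or_eventually_ne_zero_of_preconnected`
or `AnalyticOnNhd.preimage_zero_mem_codiscreteWithin`; a subset without accumulation points in
`Ioi 1` is countable).  There are countably many `(m, n, p, q) ∈ ℚ⁴`.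
-/

open Filter Topology Metric
open scoped ComplexConjugate

noncomputable section

namespace Pool.Agent.Lib.MP_b9289b_nt

/-- zeros of a nonzero real analytic function are countable. -/
lemma countable_zeros {f : ℝ → ℂ} (hf : ∀ t, 1 < t → AnalyticAt ℝ f t)
    (h : ¬ ∀ t, 1 < t → f t = 0) : {t : ℝ | 1 < t ∧ f t = 0}.Countable := by
  push Not at h
  obtain ⟨x, hx, hfx⟩ := h
  have h1 : AnalyticOnNhd ℝ f (Set.Ioi 1) := fun t ht => hf t ht
  have h2 := h1.preimage_zero_mem_codiscreteWithin hfx hx isConnected_Ioi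
  have h3 : IsDiscrete ((f ⁻¹' {0}) ∩ Set.Ioi 1) := isDiscrete_of_codiscreteWithin h2
  have h4 : {t : ℝ | 1 < t ∧ f t = 0} = (f ⁻¹' {0}) ∩ Set.Ioi 1 := by
    ext t
    simp [and_comm]
  rw [h4]
  exact (HereditarilyLindelofSpace.isLindelof _).countable_of_isDiscrete h3

/-- `t ↦ T(l t)` is real analytic if `l` is. -/
lemma analyticAt_TT_comp {l : ℝ → ℂ} {t : ℝ} (hl : AnalyticAt ℝ l t)
    (h1 : 1 - l t ∈ Complex.slitPlane) (h2 : l t ∈ Complex.slitPlane) (h3 : KK (l t) ≠ 0) :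
    AnalyticAt ℝ (fun t => TT (l t)) t := by
  have hK : AnalyticAt ℝ (fun t => KK (l t)) t := (KK_analyticAt h1).restrictScalars.comp hl
  have hK1 : AnalyticAt ℝ (fun t => KK (1 - l t)) t := by
    have h4 : AnalyticAt ℂ KK (1 - l t) := KK_analyticAt (by simpa using h2)
    have h5 : AnalyticAt ℝ (fun t => 1 - l t) t := analyticAt_const.sub hl
    exact AnalyticAt.comp (f := fun t => 1 - l t) (x := t) h4.restrictScalars h5
  unfold TT
  exact (analyticAt_const.mul hK1).div hK h3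

theorem sameLat_countable {l l' : ℝ → ℂ} (hl : ∀ t, 1 < t → AnalyticAt ℝ l t)
    (hl' : ∀ t, 1 < t → AnalyticAt ℝ l' t)
    (h1 : ∀ t, 1 < t → 1 - l t ∈ Complex.slitPlane ∧ l t ∈ Complex.slitPlane ∧ KK (l t) ≠ 0 ∧
      (TT (l t)).im ≠ 0)
    (h2 : ∀ t, 1 < t → 1 - l' t ∈ Complex.slitPlane ∧ l' t ∈ Complex.slitPlane ∧ KK (l' t) ≠ 0)
    (hno : ∀ m n p q : ℚ, m * q - n * p ≠ 0 →
      ¬ ∀ t, 1 < t → TT (l t) * (m + n * TT (l' t)) = p + q * TT (l' t)) :
    {t : ℝ | 1 < t ∧ SameLat (l t) (l' t)}.Countable := by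
  have hc : (⋃ v : {v : ℚ × ℚ × ℚ × ℚ // v.1 * v.2.2.2 - v.2.1 * v.2.2.1 ≠ 0},
      {t : ℝ | 1 < t ∧ TT (l t) * (v.1.1 + v.1.2.1 * TT (l' t)) - (v.1.2.2.1 + v.1.2.2.2 * TT (l' t)) = 0}).Countable := by
    refine Set.countable_iUnion (fun v => ?_)
    apply countable_zeros
    · intro t ht
      have a1 := analyticAt_TT_comp (hl t ht) (h1 t ht).1 (h1 t ht).2.1 (h1 t ht).2.2.1
      have a2 := analyticAt_TT_comp (hl' t ht) (h2 t ht).1 (h2 t ht).2.1 (h2 t ht).2.2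
      exact (a1.mul (analyticAt_const.add (analyticAt_const.mul a2))).sub
        (analyticAt_const.add (analyticAt_const.mul a2))
    · intro hall
      exact hno v.1.1 v.1.2.1 v.1.2.2.1 v.1.2.2.2 v.2 (fun t ht => sub_eq_zero.mp (hall t ht))
  refine hc.mono ?_
  rintro t ⟨ht, hs⟩
  obtain ⟨m, n, p, q, hd, he⟩ := hs.rel (h1 t ht).2.2.1 (h2 t ht).2.2 (h1 t ht).2.2.2
  rw [Set.mem_iUnion]
  exact ⟨⟨(m, n, p, q), hd⟩, ht, sub_eq_zero.mpr he⟩

end Pool.Agent.Lib.MP_b9289b_nt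
end
end

section

/-!
# E12: the relations are not identities

`T(1/t²) = i h(1/t²)`, `T(1/(1+t)) = i h(1/(1+t))`, `T(1/t) = i h(1/t)` with the positive real
function `h = hR`.  For real `h, h'`: `i h (m + n i h') = p + q i h'` means `- n h h' = p` and
`m h = q h'`.
* `A, B` (`h = h(1/(1+t))`, `h' = h(1/t)`): for `t → 1`: `h → h(1/2) = 1`, `h' → h(1) = 0`, so `m = 0`,
  `p = 0`.
* `N, A` (`h = h(1/t²) → 0`, `h' = h(1/(1+t)) → 1`): `q = 0` and `p = 0`.
* `N, B` (`h = h(1/t²)`, `h' = h(1/t)`): `t → ∞`: `h h' → ∞`, so `n = 0`, `p = 0`, `m ≠ 0 ≠ q`, and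
  `h(x²) = (q/m) h(x)` for `x = 1/t ∈ (0,1)`, contradiction to `hR_sq_ne`.
-/

open Filter Topology Metric
open scoped ComplexConjugate

noncomputable section

namespace Pool.Agent.Lib.MP_b9289b_nt

private lemma real_rel {h h' : ℝ} {m n p q : ℚ}
    (hr : Complex.I * (h : ℂ) * (m + n * (Complex.I * (h' : ℂ))) =
      p + q * (Complex.I * (h' : ℂ))) :
    -(n : ℝ) * (h * h') = p ∧ (m : ℝ) * h = q * h' := by
  have hre := congrArg Complex.re hr
  have him := congrArg Complex.im hr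
  simp at hre him
  constructor
  · linarith
  · linarith

private lemma tendsto_inv_one : Tendsto (fun t : ℝ => 1 / t) (𝓝[>] 1) (𝓝[<] 1) := by
  refine tendsto_nhdsWithin_iff.2 ⟨?_, ?_⟩
  · have h : ContinuousAt (fun t : ℝ => 1 / t) 1 :=
      continuousAt_const.div continuousAt_id one_ne_zero
    have h' := h.tendsto
    simp only [div_one] at h'
    exact h'.mono_left nhdsWithin_le_nhds
  · filter_upwards [self_mem_nhdsWithin] with t ht
    have ht : (1 : ℝ) < t := ht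
    rw [Set.mem_Iio, div_lt_one (by linarith)]
    exact ht

private lemma tendsto_inv_sq_one : Tendsto (fun t : ℝ => 1 / t ^ 2) (𝓝[>] 1) (𝓝[<] 1) := by
  refine tendsto_nhdsWithin_iff.2 ⟨?_, ?_⟩
  · have h : ContinuousAt (fun t : ℝ => 1 / t ^ 2) 1 :=
      continuousAt_const.div (continuousAt_id.pow 2) (by norm_num)
    have h' := h.tendsto
    simp only [one_pow, div_one] at h'
    exact h'.mono_left nhdsWithin_le_nhds
  · filter_upwards [self_mem_nhdsWithin] with t ht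
    have ht : (1 : ℝ) < t := ht
    rw [Set.mem_Iio, div_lt_one (by positivity)]
    nlinarith

private lemma tendsto_hR_half : Tendsto (fun t : ℝ => hR (1 / (1 + t))) (𝓝[>] 1) (𝓝 1) := by
  have h1 : ContinuousAt (fun t : ℝ => 1 / (1 + t)) 1 :=
    continuousAt_const.div (continuousAt_const.add continuousAt_id) (by norm_num)
  have h2 : ContinuousAt hR ((fun t : ℝ => 1 / (1 + t)) 1) :=
    hR_continuousAt (by norm_num) (by norm_num)
  have h3 : Tendsto (fun t : ℝ => hR ((fun t : ℝ => 1 / (1 + t)) t)) (𝓝 1)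
      (𝓝 (hR ((fun t : ℝ => 1 / (1 + t)) 1))) := h2.tendsto.comp h1.tendsto
  have h4 : hR ((fun t : ℝ => 1 / (1 + t)) 1) = 1 := by
    have : (fun t : ℝ => 1 / (1 + t)) 1 = 1 / 2 := by norm_num
    rw [this, hR_half]
  rw [h4] at h3
  exact h3.mono_left nhdsWithin_le_nhds

private lemma tendsto_hR_inv : Tendsto (fun t : ℝ => hR (1 / t)) (𝓝[>] 1) (𝓝 0) :=
  hR_tendsto_one.comp tendsto_inv_one

private lemma tendsto_hR_inv_sq : Tendsto (fun t : ℝ => hR (1 / t ^ 2)) (𝓝[>] 1) (𝓝 0) :=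
  hR_tendsto_one.comp tendsto_inv_sq_one

private lemma rel_real (x y : ℝ) (hx0 : 0 < x) (hx1 : x < 1) (hy0 : 0 < y) (hy1 : y < 1)
    {m n p q : ℚ} (hr : TT (x : ℂ) * (m + n * TT (y : ℂ)) = p + q * TT (y : ℂ)) :
    -(n : ℝ) * (hR x * hR y) = p ∧ (m : ℝ) * hR x = q * hR y := by
  rw [TT_ofReal hx0 hx1, TT_ofReal hy0 hy1] at hr
  exact real_rel hr

theorem not_rel_AB (m n p q : ℚ) (h : m * q - n * p ≠ 0) :
    ¬ ∀ t : ℝ, 1 < t → TT ((1 / (1 + t) : ℝ) : ℂ) * (m + n * TT ((1 / t : ℝ) : ℂ)) =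
      p + q * TT ((1 / t : ℝ) : ℂ) := by
  intro hall
  have hrel : ∀ t : ℝ, 1 < t → -(n : ℝ) * (hR (1 / (1 + t)) * hR (1 / t)) = p ∧
      (m : ℝ) * hR (1 / (1 + t)) = q * hR (1 / t) := by
    intro t ht
    refine rel_real _ _ (by positivity) ?_ (by positivity) ?_ (hall t ht)
    · rw [div_lt_one (by linarith)]; linarith
    · rw [div_lt_one (by linarith)]; exact ht
  have e1 : Tendsto (fun t : ℝ => -(n : ℝ) * (hR (1 / (1 + t)) * hR (1 / t))) (𝓝[>] 1)
      (𝓝 (-(n : ℝ) * (1 * 0))) := (tendsto_hR_half.mul tendsto_hR_inv).const_mul _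
  have e2 : Tendsto (fun t : ℝ => -(n : ℝ) * (hR (1 / (1 + t)) * hR (1 / t))) (𝓝[>] 1)
      (𝓝 (p : ℝ)) := by
    refine tendsto_const_nhds.congr' ?_
    filter_upwards [self_mem_nhdsWithin] with t ht
    exact (hrel t ht).1.symm
  have e3 : Tendsto (fun t : ℝ => (m : ℝ) * hR (1 / (1 + t))) (𝓝[>] 1) (𝓝 ((m : ℝ) * 1)) :=
    tendsto_hR_half.const_mul _
  have e4 : Tendsto (fun t : ℝ => (m : ℝ) * hR (1 / (1 + t))) (𝓝[>] 1) (𝓝 ((q : ℝ) * 0)) := by
    refine (tendsto_hR_inv.const_mul (q : ℝ)).congr' ?_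
    filter_upwards [self_mem_nhdsWithin] with t ht
    exact (hrel t ht).2.symm
  have hp : (p : ℝ) = 0 := by
    have := tendsto_nhds_unique e1 e2
    linarith
  have hm : (m : ℝ) = 0 := by
    have := tendsto_nhds_unique e3 e4
    linarith
  have hp' : p = 0 := by exact_mod_cast hp
  have hm' : m = 0 := by exact_mod_cast hm
  exact h (by rw [hp', hm']; ring)

theorem not_rel_NA (m n p q : ℚ) (h : m * q - n * p ≠ 0) :
    ¬ ∀ t : ℝ, 1 < t → TT ((1 / t ^ 2 : ℝ) : ℂ) * (m + n * TT ((1 / (1 + t) : ℝ) : ℂ)) =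
      p + q * TT ((1 / (1 + t) : ℝ) : ℂ) := by
  intro hall
  have hrel : ∀ t : ℝ, 1 < t → -(n : ℝ) * (hR (1 / t ^ 2) * hR (1 / (1 + t))) = p ∧
      (m : ℝ) * hR (1 / t ^ 2) = q * hR (1 / (1 + t)) := by
    intro t ht
    refine rel_real _ _ (by positivity) ?_ (by positivity) ?_ (hall t ht)
    · rw [div_lt_one (by positivity)]; nlinarith
    · rw [div_lt_one (by linarith)]; linarith
  have e1 : Tendsto (fun t : ℝ => -(n : ℝ) * (hR (1 / t ^ 2) * hR (1 / (1 + t)))) (𝓝[>] 1)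
      (𝓝 (-(n : ℝ) * (0 * 1))) := (tendsto_hR_inv_sq.mul tendsto_hR_half).const_mul _
  have e2 : Tendsto (fun t : ℝ => -(n : ℝ) * (hR (1 / t ^ 2) * hR (1 / (1 + t)))) (𝓝[>] 1)
      (𝓝 (p : ℝ)) := by
    refine tendsto_const_nhds.congr' ?_
    filter_upwards [self_mem_nhdsWithin] with t ht
    exact (hrel t ht).1.symm
  have e3 : Tendsto (fun t : ℝ => (q : ℝ) * hR (1 / (1 + t))) (𝓝[>] 1) (𝓝 ((q : ℝ) * 1)) :=
    tendsto_hR_half.const_mul _
  have e4 : Tendsto (fun t : ℝ => (q : ℝ) * hR (1 / (1 + t))) (𝓝[>] 1) (𝓝 ((m : ℝ) * 0)) := by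
    refine (tendsto_hR_inv_sq.const_mul (m : ℝ)).congr' ?_
    filter_upwards [self_mem_nhdsWithin] with t ht
    exact (hrel t ht).2
  have hp : (p : ℝ) = 0 := by
    have := tendsto_nhds_unique e1 e2
    linarith
  have hq : (q : ℝ) = 0 := by
    have := tendsto_nhds_unique e3 e4
    linarith
  have hp' : p = 0 := by exact_mod_cast hp
  have hq' : q = 0 := by exact_mod_cast hq
  exact h (by rw [hp', hq']; ring)

private lemma tendsto_inv_top : Tendsto (fun t : ℝ => 1 / t) atTop (𝓝[>] 0) := by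
  refine tendsto_nhdsWithin_iff.2 ⟨?_, ?_⟩
  · simpa using tendsto_inv_atTop_zero (𝕜 := ℝ)
  · filter_upwards [eventually_gt_atTop 0] with t ht
    exact div_pos one_pos ht

private lemma tendsto_inv_sq_top : Tendsto (fun t : ℝ => 1 / t ^ 2) atTop (𝓝[>] 0) := by
  refine tendsto_nhdsWithin_iff.2 ⟨?_, ?_⟩
  · have h2 : Tendsto (fun t : ℝ => t ^ 2) atTop atTop := tendsto_pow_atTop (by norm_num)
    have := (tendsto_inv_atTop_zero (𝕜 := ℝ)).comp h2
    simpa [Function.comp_def] using this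
  · filter_upwards [eventually_gt_atTop 0] with t ht
    exact div_pos (one_pos (α := ℝ)) (pow_pos ht 2)

theorem not_rel_NB (m n p q : ℚ) (h : m * q - n * p ≠ 0) :
    ¬ ∀ t : ℝ, 1 < t → TT ((1 / t ^ 2 : ℝ) : ℂ) * (m + n * TT ((1 / t : ℝ) : ℂ)) =
      p + q * TT ((1 / t : ℝ) : ℂ) := by
  intro hall
  have hrel : ∀ t : ℝ, 1 < t → -(n : ℝ) * (hR (1 / t ^ 2) * hR (1 / t)) = p ∧
      (m : ℝ) * hR (1 / t ^ 2) = q * hR (1 / t) := by
    intro t ht
    refine rel_real _ _ (by positivity) ?_ (by positivity) ?_ (hall t ht)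
    · rw [div_lt_one (by positivity)]; nlinarith
    · rw [div_lt_one (by linarith)]; exact ht
  have e1 : Tendsto (fun t : ℝ => hR (1 / t ^ 2) * hR (1 / t)) atTop atTop :=
    (hR_tendsto_zero.comp tendsto_inv_sq_top).atTop_mul_atTop₀ (hR_tendsto_zero.comp tendsto_inv_top)
  have hn : (n : ℝ) = 0 := by
    by_contra hn
    have h1 : ∀ᶠ t : ℝ in atTop, hR (1 / t ^ 2) * hR (1 / t) > |(p : ℝ) / n| :=
      e1.eventually_gt_atTop _
    obtain ⟨t, ht1, ht2⟩ := (h1.and (eventually_gt_atTop 1)).exists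
    have h2 := (hrel t ht2).1
    have h3 : hR (1 / t ^ 2) * hR (1 / t) = -((p : ℝ) / n) := by
      rw [← h2]
      field_simp
    rw [h3] at ht1
    exact absurd ht1 (not_lt.2 ((neg_le_abs _)))
  have hn' : n = 0 := by exact_mod_cast hn
  have hm' : m ≠ 0 := by
    rintro rfl
    exact h (by rw [hn']; ring)
  have hm : (m : ℝ) ≠ 0 := by exact_mod_cast hm'
  refine hR_sq_ne ((q : ℝ) / m) ?_
  intro x hx0 hx1
  have h1 : 1 < 1 / x := by rw [lt_div_iff₀ hx0]; linarith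
  have h2 := (hrel (1 / x) h1).2
  have h3 : 1 / (1 / x) = x := by field_simp
  have h4 : 1 / (1 / x) ^ 2 = x ^ 2 := by field_simp
  rw [h3, h4] at h2
  field_simp
  linarith

end Pool.Agent.Lib.MP_b9289b_nt
end
end
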