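import Mathlib
import Pool.Agent.Lib.MP_b9289b_nt.Defs

section

/-!
# S01: the hyperbolic Laplacian commutes with isometries

For `φ` holomorphic near `z` and `f` of class `C²` near `φ z` (real sense) the second derivative of
`f ∘ φ` is `D²(f ∘ φ)_z(v, v) = D²f_{φ z}(φ' v, φ' v) + Df_{φ z}(φ'' v²)`; summing over
`v = 1, I` gives `Δ (f ∘ φ) z = ‖φ' z‖² * (Δ f) (φ z)`
(`laplacian_eq_iteratedFDeriv_complexPlane`; `D²f(φ',φ') + D²f(iφ',iφ') = |φ'|² Δ f` by
bilinearity and symmetry of the second derivative, `φ' = p + i q`).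
Another way: the group generated by `z ↦ z + b`, `z ↦ a z`, `z ↦ -1/z` (see
`UpperHalfPlane.exists_SL2_smul_eq_of_apply_zero_one_ne_zero`), but the general formula is easier.
-/

open UpperHalfPlane Filter Topology MatrixGroups
open scoped ContDiff ComplexConjugate

noncomputable section

namespace Pool.Agent.Lib.MP_b9289b_nt

/-- The second derivative in terms of the derivatives of the directional derivatives. -/
private theorem second_apply {F : ℂ → ℂ} {z : ℂ} (hF : ContDiffAt ℝ 2 F z) (u v : ℂ) :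
    iteratedFDeriv ℝ 2 F z ![u, v] = fderiv ℝ (fun w => fderiv ℝ F w v) z u := by
  have h1 : DifferentiableAt ℝ (fderiv ℝ F) z :=
    (hF.fderiv_right (m := 1) (by norm_num)).differentiableAt (by norm_num)
  rw [iteratedFDeriv_two_apply, fderiv_clm_apply h1 (differentiableAt_const v)]
  simp

/-- The second derivative of the composition with a holomorphic function. -/
private theorem second_comp {f φ : ℂ → ℂ} {z : ℂ} (hφ : AnalyticAt ℂ φ z)
    (hf : ContDiffAt ℝ 2 f (φ z)) (u v : ℂ) :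
    iteratedFDeriv ℝ 2 (fun w => f (φ w)) z ![u, v] =
      fderiv ℝ (fderiv ℝ f) (φ z) (deriv φ z * u) (deriv φ z * v) +
        fderiv ℝ f (φ z) (deriv (deriv φ) z * u * v) := by
  have hφc : ContDiffAt ℝ 2 φ z := hφ.contDiffAt.restrict_scalars ℝ
  have hF : ContDiffAt ℝ 2 (fun w => f (φ w)) z := hf.comp z hφc
  rw [second_apply hF]
  have hev : (fun w => fderiv ℝ (fun w => f (φ w)) w v) =ᶠ[𝓝 z]
      fun w => fderiv ℝ f (φ w) (deriv φ w * v) := by
    have h1 : ∀ᶠ w in 𝓝 z, ContDiffAt ℝ 2 f (φ w) :=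
      hφ.continuousAt.eventually (hf.eventually (by norm_num))
    filter_upwards [hφ.eventually_analyticAt, h1] with w hw hw'
    have h2 : HasFDerivAt φ (deriv φ w • (1 : ℂ →L[ℝ] ℂ)) w :=
      hw.differentiableAt.hasDerivAt.complexToReal_fderiv
    have h3 : HasFDerivAt f (fderiv ℝ f (φ w)) (φ w) :=
      (hw'.differentiableAt (by norm_num)).hasFDerivAt
    have h4 := (h3.comp w h2).fderiv
    change fderiv ℝ (f ∘ φ) w v = _
    rw [h4]
    simp
  rw [hev.fderiv_eq]
  have h2 : HasFDerivAt φ (deriv φ z • (1 : ℂ →L[ℝ] ℂ)) z :=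
    hφ.differentiableAt.hasDerivAt.complexToReal_fderiv
  have h3 : HasFDerivAt (deriv φ) (deriv (deriv φ) z • (1 : ℂ →L[ℝ] ℂ)) z :=
    hφ.deriv.differentiableAt.hasDerivAt.complexToReal_fderiv
  have h4 : HasFDerivAt (fderiv ℝ f) (fderiv ℝ (fderiv ℝ f) (φ z)) (φ z) :=
    ((hf.fderiv_right (m := 1) (by norm_num)).differentiableAt (by norm_num)).hasFDerivAt
  have h5 := (h4.comp z h2).clm_apply (h3.mul_const v)
  have h6 : fderiv ℝ (fun w => fderiv ℝ f (φ w) (deriv φ w * v)) z = _ := h5.fderiv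
  rw [h6]
  simp only [ContinuousLinearMap.add_apply, ContinuousLinearMap.comp_apply,
    ContinuousLinearMap.flip_apply, ContinuousLinearMap.smul_apply, smul_eq_mul,
    ContinuousLinearMap.one_apply, Function.comp_apply]
  rw [add_comm]
  congr 2
  · ring

/-- Conformal invariance. -/
theorem laplacian_comp_hol {f φ : ℂ → ℂ} {z : ℂ} (hφ : AnalyticAt ℂ φ z)
    (hf : ContDiffAt ℝ 2 f (φ z)) :
    Laplacian.laplacian (fun w => f (φ w)) z = (‖deriv φ z‖ : ℂ) ^ 2 * Laplacian.laplacian f (φ z) := by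
  rw [InnerProductSpace.laplacian_eq_iteratedFDeriv_complexPlane,
    InnerProductSpace.laplacian_eq_iteratedFDeriv_complexPlane]
  simp only
  rw [second_comp hφ hf, second_comp hφ hf, iteratedFDeriv_two_apply, iteratedFDeriv_two_apply]
  obtain ⟨B, hB⟩ : ∃ B, B = fderiv ℝ (fderiv ℝ f) (φ z) := ⟨_, rfl⟩
  obtain ⟨p, hp⟩ : ∃ p, p = deriv φ z := ⟨_, rfl⟩
  rw [← hB, ← hp]
  have hdec : ∀ q : ℂ, q = q.re • (1 : ℂ) + q.im • Complex.I := fun q => by
    apply Complex.ext <;> simp
  have h1 : B (p * 1) (p * 1) = p.re ^ 2 • B 1 1 + (p.re * p.im) • (B 1 Complex.I + B Complex.I 1) +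
      p.im ^ 2 • B Complex.I Complex.I := by
    rw [mul_one]
    conv_lhs => rw [hdec p]
    simp only [map_add, map_smul, ContinuousLinearMap.add_apply, ContinuousLinearMap.smul_apply,
      smul_add, smul_smul]
    module
  have h2 : B (p * Complex.I) (p * Complex.I) = p.im ^ 2 • B 1 1 -
      (p.re * p.im) • (B 1 Complex.I + B Complex.I 1) + p.re ^ 2 • B Complex.I Complex.I := by
    have h3 : p * Complex.I = (-p.im) • (1 : ℂ) + p.re • Complex.I := by
      apply Complex.ext <;> simp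
    rw [h3]
    simp only [map_add, map_smul, ContinuousLinearMap.add_apply, ContinuousLinearMap.smul_apply,
      smul_add, smul_smul]
    module
  have h3 : ((‖p‖ : ℝ) : ℂ) ^ 2 = ((p.re ^ 2 + p.im ^ 2 : ℝ) : ℂ) := by
    rw [← Complex.ofReal_pow, Complex.sq_norm, Complex.normSq_apply]
    congr 1
    ring
  rw [h1, h2, h3]
  have h4 : fderiv ℝ f (φ z) (deriv (deriv φ) z * Complex.I * Complex.I) =
      -fderiv ℝ f (φ z) (deriv (deriv φ) z * 1 * 1) := by
    rw [← map_neg]
    congr 1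
    rw [mul_assoc, Complex.I_mul_I]
    ring
  rw [h4]
  simp only [Matrix.cons_val_zero, Matrix.cons_val_one, Complex.real_smul]
  push_cast
  ring

end Pool.Agent.Lib.MP_b9289b_nt
end
end

section

/-!
# S02: eigenfunctions composed with elements of `GL(2,ℝ)`

For `0 < det g`: `laplacian_comp_hol` with `φ w = g • w`, `φ' = det g / (denom g z)²`
(`UpperHalfPlane.deriv_smul`, `analyticAt_smul`) and `im (g • z) = det g * im z / |denom g z|²`
(`im_smul_eq_div_normSq`).  For `det g < 0` write `g = J * (J * g)`; for `J`, `J z = - conj z` is a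
linear isometry of the plane: `Δ (f ∘ J) = (Δ f) ∘ J` (second derivative of a composition with a
continuous linear map, `laplacian_eq_iteratedFDeriv_complexPlane` with `J 1 = -1`, `J I = I`).
-/

open UpperHalfPlane Filter Topology MatrixGroups
open scoped ContDiff ComplexConjugate

noncomputable section

namespace Pool.Agent.Lib.MP_b9289b_nt

/-- Orientation preserving isometries. -/
private theorem IsEigen.smul_pos {μ : ℂ} {f : ℍ → ℂ} (hf : IsEigen μ f) (g : GL (Fin 2) ℝ)
    (hg : 0 < g.val.det) : IsEigen μ (fun z => f (g • z)) := by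
  have heq : (↑ₕ(fun z => f (g • z)) : ℂ → ℂ) =
      fun w => (↑ₕf) ((g • ofComplex w : ℍ) : ℂ) := by
    funext w
    simp [Function.comp]
  have hz : ∀ z : ℍ, ((g • ofComplex (z : ℂ) : ℍ) : ℂ) = ((g • z : ℍ) : ℂ) := fun z => by
    rw [ofComplex_apply]
  have han : ∀ z : ℍ, AnalyticAt ℂ (fun w : ℂ => ((g • ofComplex w : ℍ) : ℂ)) (z : ℂ) := fun z =>
    z.analyticAt_smul hg
  refine ⟨fun z => ?_, fun z => ?_⟩
  · rw [heq]
    have h1 : ContDiffAt ℝ ∞ (↑ₕf) ((g • ofComplex (z : ℂ) : ℍ) : ℂ) := hf.1 _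
    exact ContDiffAt.comp (g := (↑ₕf : ℂ → ℂ))
      (f := fun w : ℂ => ((g • ofComplex w : ℍ) : ℂ)) (z : ℂ) h1
      ((han z).contDiffAt.restrict_scalars ℝ)
  · have h1 : ContDiffAt ℝ 2 (↑ₕf) ((g • ofComplex (z : ℂ) : ℍ) : ℂ) :=
      (hf.1 _).of_le ENat.LEInfty.out
    rw [heq, laplacian_comp_hol (f := ↑ₕf) (han z) h1, z.deriv_smul hg, hz]
    have h2 := hf.2 (g • z)
    rw [← h2, ← mul_assoc]
    congr 1
    rw [z.im_smul_eq_div_normSq g, norm_div, norm_pow, ← Complex.normSq_eq_norm_sq]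
    have h3 : ‖((g.val.det : ℝ) : ℂ)‖ = |g.det.val| := by
      rw [Complex.norm_real]
      rfl
    rw [h3]
    push_cast
    ring

/-- The reflection. -/
private theorem IsEigen.smul_J {μ : ℂ} {f : ℍ → ℂ} (hf : IsEigen μ f) :
    IsEigen μ (fun z => f (J • z)) := by
  let L : ℂ ≃L[ℝ] ℂ := Complex.conjCLE.trans (ContinuousLinearEquiv.neg ℝ)
  have hL : ∀ w : ℂ, L w = -conj w := fun w => rfl
  have hz : ∀ z : ℍ, L (z : ℂ) = ((J • z : ℍ) : ℂ) := fun z => by rw [hL, coe_J_smul]
  have hev : ∀ z : ℍ, (↑ₕ(fun z => f (J • z)) : ℂ → ℂ) =ᶠ[𝓝 (z : ℂ)] (↑ₕf) ∘ L := by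
    intro z
    filter_upwards [isOpen_upperHalfPlaneSet.mem_nhds z.im_pos] with w hw
    have hw' : 0 < w.im := hw
    obtain ⟨y, rfl⟩ : ∃ y : ℍ, (y : ℂ) = w := ⟨⟨w, hw'⟩, rfl⟩
    rw [Function.comp_apply, Function.comp_apply, hz, Function.comp_apply, ofComplex_apply,
      ofComplex_apply]
  refine ⟨fun z => ?_, fun z => ?_⟩
  · refine ContDiffAt.congr_of_eventuallyEq ?_ (hev z)
    have h1 : ContDiffAt ℝ ∞ (↑ₕf) (L (z : ℂ)) := by
      rw [hz]
      exact hf.1 _
    exact h1.comp (z : ℂ) L.contDiff.contDiffAt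
  · have h1 := (InnerProductSpace.laplacian_congr_nhds (hev z)).eq_of_nhds
    rw [h1]
    have h2 : ∀ u v : ℂ, iteratedFDeriv ℝ 2 ((↑ₕf) ∘ L) (z : ℂ) ![u, v] =
        iteratedFDeriv ℝ 2 (↑ₕf) (L (z : ℂ)) ![L u, L v] := by
      intro u v
      rw [← iteratedFDerivWithin_univ, ← iteratedFDerivWithin_univ]
      have h3 := L.iteratedFDerivWithin_comp_right (↑ₕf) uniqueDiffOn_univ
        (Set.mem_univ (L (z : ℂ))) 2
      rw [Set.preimage_univ] at h3
      rw [h3, ContinuousMultilinearMap.compContinuousLinearMap_apply]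
      congr 1
      funext i
      fin_cases i <;> rfl
    have h4 : Laplacian.laplacian ((↑ₕf) ∘ L) (z : ℂ) =
        Laplacian.laplacian (↑ₕf) ((J • z : ℍ) : ℂ) := by
      rw [InnerProductSpace.laplacian_eq_iteratedFDeriv_complexPlane,
        InnerProductSpace.laplacian_eq_iteratedFDeriv_complexPlane]
      simp only
      rw [h2, h2, hz]
      have h5 : L 1 = -1 := by rw [hL]; simp
      have h6 : L Complex.I = Complex.I := by rw [hL]; simp
      rw [h5, h6, iteratedFDeriv_two_apply, iteratedFDeriv_two_apply, iteratedFDeriv_two_apply]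
      simp
    rw [h4]
    have h7 := hf.2 (J • z)
    have h8 : (J • z).im = z.im := by
      rw [← coe_im, coe_J_smul]
      simp
    rw [h8] at h7
    exact h7

theorem IsEigen.smul {μ : ℂ} {f : ℍ → ℂ} (hf : IsEigen μ f) (g : GL (Fin 2) ℝ) :
    IsEigen μ (fun z => f (g • z)) := by
  rcases g.det_ne_zero.lt_or_gt with h | h
  · have h1 := hf.smul_J.smul_pos (J * g) (by
      have h2 : (J * g).val.det = -g.val.det := by
        rw [Units.val_mul, Matrix.det_mul]
        simp
      rw [h2]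
      exact neg_pos.2 h)
    have h3 : (fun z : ℍ => f (J • (J * g) • z)) = fun z => f (g • z) := by
      funext z
      rw [smul_smul, ← mul_assoc, ← pow_two, J_sq, one_mul]
    rw [h3] at h1
    exact h1
  · exact hf.smul_pos g h

lemma IsEigen.const_mul {μ : ℂ} {f : ℍ → ℂ} (hf : IsEigen μ f) (c : ℂ) :
    IsEigen μ (fun z => c * f z) := by
  refine ⟨fun z => (contDiffAt_const (c := c)).mul (hf.1 z), fun z => ?_⟩
  have h1 : (↑ₕ(fun z => c * f z) : ℂ → ℂ) = c • (↑ₕf) := rfl
  have h2 : Laplacian.laplacian (c • (↑ₕf)) (z : ℂ) = c • Laplacian.laplacian (↑ₕf) (z : ℂ) :=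
    InnerProductSpace.laplacian_smul c ((hf.1 z).of_le ENat.LEInfty.out)
  rw [h1, h2, smul_eq_mul]
  linear_combination c * hf.2 z

end Pool.Agent.Lib.MP_b9289b_nt
end
end

section

/-!
# Part U of MP_b9289b_nt: conformal maps onto the unit disc (definitions)
-/

open Metric Set Filter Topology
open scoped ComplexConjugate

noncomputable section

namespace Pool.Agent.Lib.MP_b9289b_nt

/-- `f` maps `Ω` conformally onto the unit disc. -/
structure Conf (Ω : Set ℂ) (f : ℂ → ℂ) : Prop where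
  diff : DifferentiableOn ℂ f Ω
  inj : InjOn f Ω
  image : f '' Ω = ball 0 1

/-- `Ω` is an open subset of the unit disc, star-shaped about `0`. -/
structure Star (Ω : Set ℂ) : Prop where
  isOpen : IsOpen Ω
  zero_mem : (0 : ℂ) ∈ Ω
  sub : Ω ⊆ ball 0 1
  star : ∀ z ∈ Ω, ∀ t : ℝ, 0 ≤ t → t ≤ 1 → (t : ℂ) * z ∈ Ω

/-- `f` is the normalised Riemann map of `Ω`. -/
structure RMap (Ω : Set ℂ) (f : ℂ → ℂ) : Prop extends Conf Ω f where
  zero : f 0 = 0
  pos : ∃ r : ℝ, 0 < r ∧ deriv f 0 = r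

end Pool.Agent.Lib.MP_b9289b_nt
end
end

section

open Metric Set Filter Topology
open scoped ComplexConjugate

noncomputable section

namespace Pool.Agent.Lib.MP_b9289b_nt

/-- The functions bounded by `1` with the Lipschitz bounds given by the Cauchy estimate. -/
private def montelT (Ω : Set ℂ) : Set (Ω → ℂ) :=
  {h | (∀ z, ‖h z‖ ≤ 1) ∧ ∀ (z₀ : ℂ) (r : ℝ), 0 < r → ball z₀ (2 * r) ⊆ Ω → ∀ z w : Ω,
    (z : ℂ) ∈ ball z₀ r → (w : ℂ) ∈ ball z₀ r → ‖h z - h w‖ ≤ 1 / r * ‖(z : ℂ) - w‖}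

private lemma montelT_compact (Ω : Set ℂ) : IsCompact (montelT Ω) := by
  have h1 : IsCompact (Set.pi Set.univ fun _ : Ω => closedBall (0 : ℂ) 1) :=
    isCompact_univ_pi fun _ => isCompact_closedBall 0 1
  refine h1.of_isClosed_subset ?_ ?_
  · have e : montelT Ω = (⋂ z : Ω, {h : Ω → ℂ | ‖h z‖ ≤ 1}) ∩
        ⋂ (z₀ : ℂ) (r : ℝ) (_ : 0 < r) (_ : ball z₀ (2 * r) ⊆ Ω) (z : Ω) (w : Ω)
          (_ : (z : ℂ) ∈ ball z₀ r) (_ : (w : ℂ) ∈ ball z₀ r),
          {h : Ω → ℂ | ‖h z - h w‖ ≤ 1 / r * ‖(z : ℂ) - w‖} := by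
      ext h
      simp only [montelT, Set.mem_ofPred_eq, mem_inter_iff, mem_iInter]
    rw [e]
    refine IsClosed.inter (isClosed_iInter fun z => ?_) ?_
    · exact isClosed_le (continuous_apply z).norm continuous_const
    · refine isClosed_iInter fun z₀ => isClosed_iInter fun r => isClosed_iInter fun _ =>
        isClosed_iInter fun _ => isClosed_iInter fun z => isClosed_iInter fun w =>
        isClosed_iInter fun _ => isClosed_iInter fun _ => ?_
      exact isClosed_le ((continuous_apply z).sub (continuous_apply w)).norm continuous_const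
  · intro h hh z _
    rw [mem_closedBall_zero_iff]
    exact hh.1 z

private lemma exists_ball_two {Ω : Set ℂ} (hΩ : IsOpen Ω) {z : ℂ} (hz : z ∈ Ω) :
    ∃ r : ℝ, 0 < r ∧ ball z (2 * r) ⊆ Ω := by
  obtain ⟨ε, hε, h⟩ := Metric.isOpen_iff.1 hΩ z hz
  exact ⟨ε / 2, by positivity, by rwa [mul_div_cancel₀ _ (two_ne_zero' ℝ)]⟩

private lemma montelT_modulus {Ω : Set ℂ} (hΩ : IsOpen Ω) (z₀ : Ω) :
    ∃ b : Ω → ℝ, Tendsto b (𝓝 z₀) (𝓝 0) ∧
      ∀ᶠ x in 𝓝 z₀, ∀ h ∈ montelT Ω, dist (h z₀) (h x) ≤ b x := by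
  obtain ⟨r, hr, hb⟩ := exists_ball_two hΩ z₀.2
  refine ⟨fun x => 1 / r * dist (z₀ : Ω) x, ?_, ?_⟩
  · have : Tendsto (fun x : Ω => 1 / r * dist z₀ x) (𝓝 z₀) (𝓝 (1 / r * dist z₀ z₀)) :=
      (tendsto_const_nhds.dist tendsto_id).const_mul _
    rwa [dist_self, mul_zero] at this
  · filter_upwards [ball_mem_nhds z₀ hr] with x hx h hh
    rw [dist_eq_norm, Subtype.dist_eq, dist_eq_norm]
    exact hh.2 z₀ r hr hb z₀ x (mem_ball_self hr) hx

private lemma montelT_continuous {Ω : Set ℂ} (hΩ : IsOpen Ω) {h : Ω → ℂ} (hh : h ∈ montelT Ω) :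
    Continuous h := by
  rw [continuous_iff_continuousAt]
  intro z₀
  obtain ⟨b, hb, hev⟩ := montelT_modulus hΩ z₀
  rw [ContinuousAt, tendsto_iff_dist_tendsto_zero]
  refine squeeze_zero' (Eventually.of_forall fun _ => dist_nonneg) ?_ hb
  filter_upwards [hev] with x hx
  rw [dist_comm]
  exact hx h hh

private lemma mem_montelT {Ω : Set ℂ} {f : ℂ → ℂ} (hf : DifferentiableOn ℂ f Ω)
    (hΩ : IsOpen Ω) (hb : ∀ z ∈ Ω, ‖f z‖ ≤ 1) : (fun z : Ω => f z) ∈ montelT Ω := by
  refine ⟨fun z => hb z z.2, fun z₀ r hr hsub z w hz hw => ?_⟩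
  have hbs : ball z₀ r ⊆ Ω := (ball_subset_ball (by linarith)).trans hsub
  refine (convex_ball z₀ r).norm_image_sub_le_of_norm_deriv_le (𝕜 := ℂ)
    (fun x hx => hf.differentiableAt (hΩ.mem_nhds (hbs hx))) (fun x hx => ?_) hw hz
  have hcb : closedBall x r ⊆ Ω := by
    intro y hy
    refine hsub ?_
    rw [mem_ball] at hx ⊢
    rw [mem_closedBall] at hy
    calc dist y z₀ ≤ dist y x + dist x z₀ := dist_triangle _ _ _
      _ < 2 * r := by linarith
  refine Complex.norm_deriv_le_of_forall_mem_sphere_norm_le hr ?_ fun y hy => ?_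
  · exact (hf.mono hcb).diffContOnCl_ball subset_rfl
  · exact hb y (hcb (sphere_subset_closedBall hy))

/-- (D05) Montel's theorem for sequences. PROOF: a dense sequence `q` of points of `Ω`; by a diagonal argument a subsequence converges at all `q k` (the sequences
`n ↦ f n (q k)` are in the compact closed unit disc; e.g. the product of closed discs over `ℕ` is sequentially compact, `isCompact_univ_pi`, first countable). By the
Cauchy estimate (`Complex.norm_deriv_le_of_forall_mem_sphere_norm_le`) the `f n` are uniformly Lipschitz on a small disc about every point of `Ω`; so the subsequence is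
locally uniformly Cauchy and converges locally uniformly. (Alternatively use Arzela-Ascoli of Mathlib.) -/
theorem montel {Ω : Set ℂ} (hΩ : IsOpen Ω) (f : ℕ → ℂ → ℂ) (hf : ∀ n, DifferentiableOn ℂ (f n) Ω)
    (hb : ∀ n, ∀ z ∈ Ω, ‖f n z‖ ≤ 1) : ∃ φ : ℕ → ℕ, StrictMono φ ∧
      ∃ g : ℂ → ℂ, TendstoLocallyUniformlyOn (fun n => f (φ n)) g atTop Ω := by
  classical
  have hlc : LocallyCompactSpace Ω := hΩ.locallyCompactSpace
  let S : Set C(Ω, ℂ) := {h | (h : Ω → ℂ) ∈ montelT Ω}
  have himg : ContinuousMap.toFun '' S = montelT Ω := by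
    ext h
    constructor
    · rintro ⟨g, hg, rfl⟩
      exact hg
    · intro hh
      exact ⟨⟨h, montelT_continuous hΩ hh⟩, hh, rfl⟩
  have hS : IsCompact S := by
    refine ArzelaAscoli.isCompact_of_equicontinuous S ?_ ?_
    · rw [himg]
      exact montelT_compact Ω
    · intro z₀
      obtain ⟨b, hb, hev⟩ := montelT_modulus hΩ z₀
      refine Metric.equicontinuousAt_of_continuity_modulus b hb _ ?_
      filter_upwards [hev] with x hx i
      exact hx _ i.2
  let F : ℕ → C(Ω, ℂ) := fun n => ⟨fun z : Ω => f n z,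
    montelT_continuous hΩ (mem_montelT (hf n) hΩ (hb n))⟩
  have hF : ∀ n, F n ∈ S := fun n => mem_montelT (hf n) hΩ (hb n)
  obtain ⟨G, _, φ, hφ, hlim⟩ := hS.tendsto_subseq hF
  refine ⟨φ, hφ, fun z => if h : z ∈ Ω then G ⟨z, h⟩ else 0, ?_⟩
  rw [tendstoLocallyUniformlyOn_iff_tendstoLocallyUniformly_comp_coe]
  rw [ContinuousMap.tendsto_iff_tendstoLocallyUniformly] at hlim
  have e : ((fun z => if h : z ∈ Ω then G ⟨z, h⟩ else 0) ∘ ((↑) : Ω → ℂ)) = (G : Ω → ℂ) := by
    funext z
    simp only [Function.comp_apply, z.2, dite_true, Subtype.coe_eta]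
  rw [e]
  exact hlim

end Pool.Agent.Lib.MP_b9289b_nt
end
end

section

open Metric Set Filter Topology
open scoped ComplexConjugate

noncomputable section

namespace Pool.Agent.Lib.MP_b9289b_nt

/-- (D06) Hurwitz's theorem for nonvanishing functions. PROOF: `g` is holomorphic on the disc. If `g z₁ = 0` and `g` is not identically zero near `z₁`, then `‖g‖ ≥ m > 0` on a small
circle about `z₁`, so `‖f n‖ ≥ m/2` on this circle for large `n`; `1 / f n` is holomorphic inside, so by the maximum principle `‖f n z₁‖ ≥ m/2`, but `f n z₁ → 0`. -/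
theorem hurwitz {c : ℂ} {r : ℝ} (hr : 0 < r) {f : ℕ → ℂ → ℂ} {g : ℂ → ℂ}
    (hf : ∀ n, DifferentiableOn ℂ (f n) (ball c r)) (hn : ∀ n, ∀ z ∈ ball c r, f n z ≠ 0)
    (hg : TendstoLocallyUniformlyOn f g atTop (ball c r)) (h0 : g c = 0) :
    ∀ᶠ z in 𝓝 c, g z = 0 := by
  by_contra hne
  have hcr : c ∈ ball c r := mem_ball_self hr
  have hgd : DifferentiableOn ℂ g (ball c r) :=
    hg.differentiableOn (Eventually.of_forall hf) isOpen_ball
  have hga : AnalyticAt ℂ g c := hgd.analyticAt (isOpen_ball.mem_nhds hcr)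
  have hpn : ∀ᶠ z in 𝓝[≠] c, g z ≠ 0 :=
    hga.eventually_eq_zero_or_eventually_ne_zero.resolve_left hne
  rw [eventually_nhdsWithin_iff, Metric.eventually_nhds_iff] at hpn
  obtain ⟨ε, hε, hpn⟩ := hpn
  set ρ := min (ε / 2) (r / 2) with hρ
  have hρ0 : 0 < ρ := lt_min (by linarith) (by linarith)
  have hρε : ρ < ε := lt_of_le_of_lt (min_le_left _ _) (by linarith)
  have hρr : ρ < r := lt_of_le_of_lt (min_le_right _ _) (by linarith)
  have hsub : closedBall c ρ ⊆ ball c r := closedBall_subset_ball hρr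
  have hsph : sphere c ρ ⊆ ball c r := sphere_subset_closedBall.trans hsub
  have hcomp : IsCompact (sphere c ρ) := isCompact_sphere c ρ
  have hne' : (sphere c ρ).Nonempty := NormedSpace.sphere_nonempty.2 hρ0.le
  obtain ⟨w, hw, hmin⟩ := hcomp.exists_isMinOn hne' ((hgd.continuousOn.mono hsph).norm)
  set m := ‖g w‖ with hm
  have hw0 : g w ≠ 0 := by
    have hdist : dist w c = ρ := hw
    refine hpn (by rw [hdist]; exact hρε) ?_
    rintro rfl
    rw [dist_self] at hdist
    exact hρ0.ne hdist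
  have hm0 : 0 < m := norm_pos_iff.2 hw0
  have hunif : TendstoUniformlyOn f g atTop (closedBall c ρ) :=
    (tendstoLocallyUniformlyOn_iff_forall_isCompact isOpen_ball).1 hg _ hsub
      (isCompact_closedBall c ρ)
  have hev := Metric.tendstoUniformlyOn_iff.1 hunif (m / 2) (by linarith)
  obtain ⟨n, hn1⟩ := hev.exists
  have hbd : ∀ z ∈ sphere c ρ, m / 2 ≤ ‖f n z‖ := by
    intro z hz
    have h1 : m ≤ ‖g z‖ := hmin hz
    have h2 := hn1 z (sphere_subset_closedBall hz)
    rw [dist_eq_norm] at h2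
    have h3 : ‖g z‖ ≤ ‖g z - f n z‖ + ‖f n z‖ := by
      have := norm_add_le (g z - f n z) (f n z)
      rwa [sub_add_cancel] at this
    linarith
  have hdc : DiffContOnCl ℂ (fun z => (f n z)⁻¹) (ball c ρ) := by
    refine DifferentiableOn.diffContOnCl ?_
    rw [closure_ball c hρ0.ne']
    exact ((hf n).mono hsub).inv fun z hz => hn n z (hsub hz)
  have hle := Complex.norm_le_of_forall_mem_frontier_norm_le isBounded_ball hdc (C := (m / 2)⁻¹)
    (by
      intro z hz
      rw [frontier_ball c hρ0.ne'] at hz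
      rw [norm_inv]
      exact inv_anti₀ (by linarith) (hbd z hz))
    (subset_closure (mem_ball_self hρ0))
  rw [norm_inv] at hle
  have h4 : 0 < ‖f n c‖ := norm_pos_iff.2 (hn n c hcr)
  have h5 : m / 2 ≤ ‖f n c‖ := (inv_le_inv₀ h4 (by linarith)).1 hle
  have h6 := hn1 c (mem_closedBall_self hρ0.le)
  rw [h0, dist_comm, dist_zero_right] at h6
  linarith

/-- (D06) The limit of injective functions is injective or constant. PROOF: `g` is holomorphic on `Ω`. Let `z₁ ≠ z₂` in `Ω`, `g z₁ = g z₂`. Apply `hurwitz` on a small disc `ball z₁ r ⊆ Ω`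
not containing `z₂` to the functions `f n z - f n z₂`, which have no zeros there, with limit `g z - g z₂`: so `g = g z₂` near `z₁`, hence on `Ω` (identity theorem), and `deriv g z₀ = 0`. -/
theorem hurwitz_injOn {Ω : Set ℂ} (hΩ : IsOpen Ω) (hc : IsPreconnected Ω) {f : ℕ → ℂ → ℂ}
    {g : ℂ → ℂ} (hf : ∀ n, DifferentiableOn ℂ (f n) Ω) (hi : ∀ n, InjOn (f n) Ω)
    (hg : TendstoLocallyUniformlyOn f g atTop Ω) {z₀ : ℂ} (hz₀ : z₀ ∈ Ω) (hd : deriv g z₀ ≠ 0) :
    InjOn g Ω := by
  intro z₁ h₁ z₂ h₂ heq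
  by_contra hne
  have hgd : DifferentiableOn ℂ g Ω := hg.differentiableOn (Eventually.of_forall hf) hΩ
  obtain ⟨ε, hε, hsub⟩ := Metric.isOpen_iff.1 hΩ z₁ h₁
  set r := min ε (dist z₂ z₁) with hr
  have hd0 : 0 < dist z₂ z₁ := dist_pos.2 fun h => hne h.symm
  have hr0 : 0 < r := lt_min hε hd0
  have hball : ball z₁ r ⊆ Ω := (ball_subset_ball (min_le_left _ _)).trans hsub
  have hz₂ : z₂ ∉ ball z₁ r := by
    rw [mem_ball, not_lt]
    exact min_le_right _ _
  have hpt : Tendsto (fun n => f n z₂) atTop (𝓝 (g z₂)) := hg.tendsto_at h₂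
  have hconv : TendstoLocallyUniformlyOn (fun n z => f n z - f n z₂) (fun z => g z - g z₂) atTop
      (ball z₁ r) := by
    rw [Metric.tendstoLocallyUniformlyOn_iff]
    intro δ hδ x hx
    obtain ⟨t, ht, hev⟩ := Metric.tendstoLocallyUniformlyOn_iff.1 (hg.mono hball) (δ / 2)
      (by linarith) x hx
    refine ⟨t, ht, ?_⟩
    filter_upwards [hev, Metric.tendsto_nhds.1 hpt (δ / 2) (by linarith)] with n h3 h4 y hy
    have h5 := h3 y hy
    rw [dist_eq_norm] at h4 h5 ⊢
    have h6 : g y - g z₂ - (f n y - f n z₂) = (g y - f n y) + (f n z₂ - g z₂) := by ring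
    rw [h6]
    exact lt_of_le_of_lt (norm_add_le _ _) (by linarith)
  have hzero := hurwitz hr0 (fun n => ((hf n).mono hball).sub_const _)
    (fun n z hz h => hz₂ (by
      have := hi n (hball hz) h₂ (sub_eq_zero.1 h)
      rwa [← this])) hconv (by rw [heq, sub_self])
  have hga : AnalyticOnNhd ℂ g Ω := hgd.analyticOnNhd hΩ
  have hcst : AnalyticOnNhd ℂ (fun _ : ℂ => g z₂) Ω := fun z _ => analyticAt_const
  have hE := hga.eqOn_of_preconnected_of_eventuallyEq hcst hc h₁ (by
    filter_upwards [hzero] with z hz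
    exact sub_eq_zero.1 hz)
  apply hd
  have h7 : g =ᶠ[𝓝 z₀] fun _ => g z₂ := by
    filter_upwards [hΩ.mem_nhds hz₀] with z hz
    exact hE hz
  rw [h7.deriv_eq, deriv_const]

end Pool.Agent.Lib.MP_b9289b_nt
end
end

section

open Metric Set Filter Topology
open scoped ComplexConjugate

noncomputable section

namespace Pool.Agent.Lib.MP_b9289b_nt

/-- (D01) An injective holomorphic function has no critical point. PROOF: `f` is analytic at `z`. `f` is not constant near `z`, so
`f w - f z = (w - z)^n g(w)`, `g(z) ≠ 0`, `1 ≤ n` (`AnalyticAt.analyticOrderAt_ne_top`, `analyticOrderAt_eq_natCast`). If `deriv f z = 0` then `n ≥ 2`. Near `z` the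
function `g` has an analytic `n`-th root `k` (`g z ≠ 0`; `exp (log (g / g z) / n)` times a root of `g z`), so `f w - f z = φ(w)^n`, `φ(w) = (w - z) k(w)`,
`φ(z) = 0`, `deriv φ z = k(z) ≠ 0`. By the inverse function theorem (or the open mapping theorem) `φ` takes near `z` the values `ε` and `ε ω` for a small
`ε > 0` and a primitive `n`-th root of unity `ω ≠ 1`, at two different points; `f` is equal at these two points, a contradiction. -/
theorem deriv_ne_zero_of_injOn {Ω : Set ℂ} (hΩ : IsOpen Ω) {f : ℂ → ℂ}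
    (hf : DifferentiableOn ℂ f Ω) (hi : InjOn f Ω) {z : ℂ} (hz : z ∈ Ω) : deriv f z ≠ 0 := by
  intro hd
  have hnh : Ω ∈ 𝓝 z := hΩ.mem_nhds hz
  have hfa : AnalyticAt ℂ f z := hf.analyticAt hnh
  have hFa : AnalyticAt ℂ (fun w => f w - f z) z := hfa.sub analyticAt_const
  have htop : analyticOrderAt (fun w => f w - f z) z ≠ ⊤ := by
    intro h
    rw [analyticOrderAt_eq_top] at h
    have h1 : ∀ᶠ w in 𝓝[≠] z, f w - f z = 0 ∧ w ∈ Ω :=
      (h.and hnh).filter_mono nhdsWithin_le_nhds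
    obtain ⟨w, ⟨hw1, hw2⟩, hw3⟩ := (h1.and self_mem_nhdsWithin).exists
    exact hw3 (hi hw2 hz (sub_eq_zero.mp hw1))
  obtain ⟨n, hn⟩ := ENat.ne_top_iff_exists.mp htop
  obtain ⟨g, hga, hg0, hge⟩ := (hFa.analyticOrderAt_eq_natCast (n := n)).mp hn.symm
  have hz0 : f z - f z = (z - z) ^ n • g z := hge.self_of_nhds
  have hn0 : n ≠ 0 := by
    rintro rfl
    simp at hz0
    exact hg0 hz0.symm
  have hn1 : n ≠ 1 := by
    rintro rfl
    have h1 : HasDerivAt (fun w => (w - z) ^ 1 • g w) (g z) z := by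
      have h2 : HasDerivAt (fun w => (w - z) * g w) (1 * g z + (z - z) * deriv g z) z :=
        ((hasDerivAt_id z).sub_const z).mul hga.differentiableAt.hasDerivAt
      simpa using h2
    have h3 : HasDerivAt (fun w => f w - f z) (g z) z := h1.congr_of_eventuallyEq hge
    have h4 : HasDerivAt (fun w => f w - f z) (deriv f z) z :=
      (hfa.differentiableAt.hasDerivAt).sub_const (f z)
    exact hg0 ((h3.unique h4).trans hd)
  have hn2 : 2 ≤ n := by omega
  -- the analytic root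
  set c : ℂ := (g z) ^ ((n : ℂ)⁻¹) with hc
  have hcn : c ^ n = g z := Complex.cpow_nat_inv_pow _ hn0
  have hc0 : c ≠ 0 := by
    intro h
    rw [h, zero_pow hn0] at hcn
    exact hg0 hcn.symm
  let k : ℂ → ℂ := fun w => (g w / g z) ^ ((n : ℂ)⁻¹) * c
  have hslit : g z / g z ∈ Complex.slitPlane := by
    rw [div_self hg0]; exact Complex.one_mem_slitPlane
  have hka : AnalyticAt ℂ k z :=
    ((hga.div analyticAt_const hg0).cpow analyticAt_const hslit).mul analyticAt_const
  have hkz : k z = c := by simp [k, div_self hg0]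
  let φ : ℂ → ℂ := fun w => (w - z) * k w
  have hφa : AnalyticAt ℂ φ z := (analyticAt_id.sub analyticAt_const).mul hka
  have hφd : HasDerivAt φ c z := by
    have h2 : HasDerivAt φ (1 * k z + (z - z) * deriv k z) z :=
      ((hasDerivAt_id z).sub_const z).mul hka.differentiableAt.hasDerivAt
    simpa [hkz] using h2
  have hφs : HasStrictDerivAt φ c z := by
    have := hφa.hasStrictDerivAt
    rwa [hφd.deriv] at this
  have hφz : φ z = 0 := by simp [φ]
  have hφn : ∀ w, φ w ^ n = (w - z) ^ n * g w := by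
    intro w
    have h1 : ((g w / g z) ^ ((n : ℂ)⁻¹)) ^ n = g w / g z := Complex.cpow_nat_inv_pow _ hn0
    simp only [φ, k, mul_pow, h1, hcn]
    field_simp
  have hS : {w | w ∈ Ω ∧ f w - f z = (w - z) ^ n • g w} ∈ 𝓝 z := Filter.inter_mem hnh hge
  have hV : φ '' {w | w ∈ Ω ∧ f w - f z = (w - z) ^ n • g w} ∈ 𝓝 (0 : ℂ) := by
    rw [← hφz, ← hφs.map_nhds_eq hc0]
    exact image_mem_map hS
  set ω : ℂ := Complex.exp (2 * Real.pi * Complex.I / n) with hω
  have hprim : IsPrimitiveRoot ω n := Complex.isPrimitiveRoot_exp n hn0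
  have hω1 : ω ≠ 1 := hprim.ne_one (by omega)
  have hωn : ω ^ n = 1 := hprim.pow_eq_one
  have ht1 : Tendsto (fun t : ℝ => (t : ℂ)) (𝓝[>] 0) (𝓝 0) := by
    have : Tendsto (fun t : ℝ => (t : ℂ)) (𝓝 0) (𝓝 ((0 : ℝ) : ℂ)) :=
      Complex.continuous_ofReal.tendsto 0
    simpa using this.mono_left nhdsWithin_le_nhds
  have ht2 : Tendsto (fun t : ℝ => ω * (t : ℂ)) (𝓝[>] 0) (𝓝 0) := by
    simpa using ht1.const_mul ω
  obtain ⟨t, ⟨⟨w1, ⟨hw1, hf1⟩, he1⟩, ⟨w2, ⟨hw2, hf2⟩, he2⟩⟩, ht⟩ :=
    (((ht1.eventually hV).and (ht2.eventually hV)).and self_mem_nhdsWithin).exists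
  have ht0 : (t : ℂ) ≠ 0 := by
    exact_mod_cast (ne_of_gt ht)
  have hfe : f w1 = f w2 := by
    have e1 : f w1 - f z = (t : ℂ) ^ n := by rw [hf1, smul_eq_mul, ← hφn, he1]
    have e2 : f w2 - f z = (t : ℂ) ^ n := by
      rw [hf2, smul_eq_mul, ← hφn, he2, mul_pow, hωn, one_mul]
    have := e1.trans e2.symm
    linear_combination this
  have hww : w1 = w2 := hi hw1 hw2 hfe
  rw [hww, he2] at he1
  have : (ω - 1) * (t : ℂ) = 0 := by linear_combination he1
  rcases mul_eq_zero.mp this with h | h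
  · exact hω1 (sub_eq_zero.mp h)
  · exact ht0 h

end Pool.Agent.Lib.MP_b9289b_nt
end
end

section

open Metric Set Filter Topology
open scoped ComplexConjugate

noncomputable section

namespace Pool.Agent.Lib.MP_b9289b_nt

/-- (D07) Square roots on star-shaped domains. PROOF: `Ω` is star-convex, hence contractible and simply connected; use the results of Mathlib.Analysis.Complex.BranchLogRoot (a continuous square
root), and it is holomorphic since locally it is `±` a holomorphic square root (or: a continuous `k` with `k ^ 2 = h ≠ 0` is differentiable, `HasDerivAt.of_local_left_inverse`, or by the inverse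
function theorem for `x ↦ x ^ 2`). ALTERNATIVE: `L(z) = L₀ + ∫₀¹ z (h'/h)(t z) dt` is a logarithm, `k = exp (L/2)`. -/
theorem exists_sqrt_star {Ω : Set ℂ} (hΩ : Star Ω) {h : ℂ → ℂ} (hh : DifferentiableOn ℂ h Ω)
    (hn : ∀ z ∈ Ω, h z ≠ 0) : ∃ k : ℂ → ℂ, DifferentiableOn ℂ k Ω ∧ ∀ z ∈ Ω, k z ^ 2 = h z := by
  have hst : StarConvex ℝ (0 : ℂ) Ω := by
    rw [starConvex_zero_iff]
    intro z hz t h0 h1
    have := hΩ.star z hz t h0 h1
    simpa [Complex.real_smul] using this
  have hc : IsSimplyConnected Ω := by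
    have := hst.contractibleSpace ⟨0, hΩ.zero_mem⟩
    exact inferInstanceAs (SimplyConnectedSpace Ω)
  obtain ⟨k, hk, hk2⟩ := Complex.exists_continuousOn_pow_eq hc hΩ.isOpen hh.continuousOn
    (by rintro ⟨z, hz, h0⟩; exact hn z hz h0) two_ne_zero
  refine ⟨k, fun z hz => ?_, fun z _ => hk2 z⟩
  have hkz : k z ≠ 0 := fun h0 => hn z hz (by rw [← hk2 z, h0]; ring)
  have hnh : Ω ∈ 𝓝 z := hΩ.isOpen.mem_nhds hz
  have hkc : ContinuousAt k z := hk.continuousAt hnh
  have hhd : HasDerivAt h (deriv h z) z := (hh.differentiableAt hnh).hasDerivAt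
  have hsum : Tendsto (fun w => k w + k z) (𝓝[≠] z) (𝓝 (k z + k z)) :=
    ((hkc.add continuousAt_const).tendsto).mono_left nhdsWithin_le_nhds
  have h2 : k z + k z ≠ 0 := by rw [← two_mul]; exact mul_ne_zero two_ne_zero hkz
  have hev : ∀ᶠ w in 𝓝[≠] z, k w + k z ≠ 0 := hsum.eventually_ne h2
  have hd : HasDerivAt k (deriv h z / (k z + k z)) z := by
    rw [hasDerivAt_iff_tendsto_slope] at hhd ⊢
    refine (hhd.div hsum h2).congr' ?_
    filter_upwards [hev, self_mem_nhdsWithin] with w hw hwz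
    have hwz' : w - z ≠ 0 := sub_ne_zero.mpr hwz
    simp only [Pi.div_apply, slope_def_field]
    have e : h w - h z = (k w - k z) * (k w + k z) := by
      rw [← hk2 w, ← hk2 z]; ring
    rw [e]
    field_simp
  exact hd.differentiableAt.differentiableWithinAt

end Pool.Agent.Lib.MP_b9289b_nt
end
end

section

open Metric Set Filter Topology
open scoped ComplexConjugate

noncomputable section

namespace Pool.Agent.Lib.MP_b9289b_nt

/-- The Moebius map of the disc which takes `a` to `0`. -/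
private def mob (a x : ℂ) : ℂ := (x - a) / (1 - conj a * x)

private lemma mob_identity (a x : ℂ) :
    ‖1 - conj a * x‖ ^ 2 - ‖x - a‖ ^ 2 = (1 - ‖a‖ ^ 2) * (1 - ‖x‖ ^ 2) := by
  rw [← Complex.normSq_eq_norm_sq, ← Complex.normSq_eq_norm_sq, ← Complex.normSq_eq_norm_sq,
    ← Complex.normSq_eq_norm_sq]
  simp only [Complex.normSq_apply, Complex.sub_re, Complex.sub_im, Complex.mul_re, Complex.mul_im,
    Complex.one_re, Complex.one_im, Complex.conj_re, Complex.conj_im]
  ring

private lemma mob_den {a x : ℂ} (ha : ‖a‖ < 1) (hx : ‖x‖ < 1) : 1 - conj a * x ≠ 0 := by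
  intro h
  have h1 : conj a * x = 1 := (sub_eq_zero.1 h).symm
  have h2 : ‖conj a * x‖ = 1 := by rw [h1, norm_one]
  rw [norm_mul, RCLike.norm_conj] at h2
  have h3 : ‖a‖ * ‖x‖ ≤ ‖a‖ * 1 := mul_le_mul_of_nonneg_left hx.le (norm_nonneg _)
  linarith

private lemma mob_norm {a x : ℂ} (ha : ‖a‖ < 1) (hx : ‖x‖ < 1) : ‖mob a x‖ < 1 := by
  unfold mob
  rw [norm_div, div_lt_one (norm_pos_iff.2 (mob_den ha hx))]
  have h := mob_identity a x
  have h1 : 0 < (1 - ‖a‖ ^ 2) * (1 - ‖x‖ ^ 2) := by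
    refine mul_pos ?_ ?_
    · nlinarith [norm_nonneg a]
    · nlinarith [norm_nonneg x]
  refine lt_of_pow_lt_pow_left₀ 2 (norm_nonneg _) ?_
  linarith

private lemma mob_inj {a x y : ℂ} (ha : ‖a‖ < 1) (hx : ‖x‖ < 1) (hy : ‖y‖ < 1)
    (h : mob a x = mob a y) : x = y := by
  unfold mob at h
  rw [div_eq_div_iff (mob_den ha hx) (mob_den ha hy)] at h
  have h1 : (1 - conj a * a) * (x - y) = 0 := by linear_combination h
  rcases mul_eq_zero.1 h1 with h2 | h2
  · exact absurd h2 (mob_den ha ha)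
  · exact sub_eq_zero.1 h2

private lemma mob_zero_iff {a x : ℂ} (ha : ‖a‖ < 1) (hx : ‖x‖ < 1) : mob a x = 0 ↔ x = a := by
  unfold mob
  rw [div_eq_zero_iff, or_iff_left (mob_den ha hx), sub_eq_zero]

private lemma mob_hasDerivAt {a x : ℂ} (ha : ‖a‖ < 1) (hx : ‖x‖ < 1) :
    HasDerivAt (mob a) ((1 - conj a * a) / (1 - conj a * x) ^ 2) x := by
  have h1 : HasDerivAt (fun y : ℂ => y - a) 1 x := (hasDerivAt_id x).sub_const a
  have h2 : HasDerivAt (fun y : ℂ => 1 - conj a * y) (-(conj a * 1)) x :=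
    ((hasDerivAt_id x).const_mul (conj a)).const_sub 1
  have h3 := h1.div h2 (mob_den ha hx)
  have e : (1 * (1 - conj a * x) - (x - a) * -(conj a * 1)) / (1 - conj a * x) ^ 2
      = (1 - conj a * a) / (1 - conj a * x) ^ 2 := by
    congr 1
    ring
  rw [← e]
  exact h3

/-- (D08) Koebe's improvement. PROOF: let `a` be in the disc, not in `f '' Ω`; `φ_a(x) = (x - a)/(1 - conj a x)`. `φ_a ∘ f` has no zero in `Ω`, let `k` be a square root (`exists_sqrt_star`), `‖k‖ < 1`, injective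
(as its square is), `b = k 0`; `F = φ_b ∘ k` is injective, `F 0 = 0`, and `f = ψ ∘ F`, `ψ(x) = φ_{-a}((φ_{-b} x)^2)` maps the disc into the disc, `ψ 0 = 0`, `ψ` is not injective (`x ↦ x^2` is not), so
by the Schwarz lemma `‖deriv ψ 0‖ < 1` (equality would make `ψ` a rotation), and `deriv f 0 = deriv ψ 0 * deriv F 0` with `deriv f 0 ≠ 0` (`deriv_ne_zero_of_injOn`).
(ALTERNATIVE: compute `‖deriv F 0‖ = ‖deriv f 0‖ (1 + ‖b‖^2) / (2 ‖b‖)`, as `b^2 = -a`, `b ≠ 0`, `‖b‖ < 1`.) -/
theorem koebe {Ω : Set ℂ} (hΩ : Star Ω) {f : ℂ → ℂ} (hf : DifferentiableOn ℂ f Ω) (hi : InjOn f Ω)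
    (hm : MapsTo f Ω (ball 0 1)) (h0 : f 0 = 0) (hne : f '' Ω ≠ ball 0 1) :
    ∃ F : ℂ → ℂ, DifferentiableOn ℂ F Ω ∧ InjOn F Ω ∧ MapsTo F Ω (ball 0 1) ∧ F 0 = 0 ∧
      ‖deriv f 0‖ < ‖deriv F 0‖ := by
  have hfn : ∀ z ∈ Ω, ‖f z‖ < 1 := fun z hz => mem_ball_zero_iff.1 (hm hz)
  obtain ⟨a, ha, haf⟩ : ∃ a ∈ ball (0 : ℂ) 1, a ∉ f '' Ω := by
    by_contra hcon
    push Not at hcon
    refine hne (Subset.antisymm ?_ fun a ha => hcon a ha)
    rintro _ ⟨z, hz, rfl⟩
    exact hm hz
  have ha1 : ‖a‖ < 1 := mem_ball_zero_iff.1 ha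
  have hfd : ∀ z ∈ Ω, DifferentiableAt ℂ f z := fun z hz =>
    hf.differentiableAt (hΩ.isOpen.mem_nhds hz)
  have hhd : ∀ z ∈ Ω, DifferentiableAt ℂ (fun z => mob a (f z)) z := fun z hz =>
    (mob_hasDerivAt ha1 (hfn z hz)).differentiableAt.comp z (hfd z hz)
  obtain ⟨k, hk, hk2⟩ := exists_sqrt_star hΩ (h := fun z => mob a (f z))
    (fun z hz => (hhd z hz).differentiableWithinAt) (by
      intro z hz h
      rw [mob_zero_iff ha1 (hfn z hz)] at h
      exact haf ⟨z, hz, h⟩)
  have hkn : ∀ z ∈ Ω, ‖k z‖ < 1 := by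
    intro z hz
    have h1 : ‖k z‖ ^ 2 < 1 := by
      rw [← norm_pow, hk2 z hz]
      exact mob_norm ha1 (hfn z hz)
    nlinarith [norm_nonneg (k z)]
  have hkd : ∀ z ∈ Ω, DifferentiableAt ℂ k z := fun z hz =>
    hk.differentiableAt (hΩ.isOpen.mem_nhds hz)
  have h0Ω := hΩ.zero_mem
  set b : ℂ := k 0 with hb
  have hb1 : ‖b‖ < 1 := hkn 0 h0Ω
  have hb2 : b ^ 2 = -a := by
    have := hk2 0 h0Ω
    simp only [h0] at this
    rw [hb, this]
    unfold mob
    simp
  have ha0 : a ≠ 0 := by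
    rintro rfl
    exact haf ⟨0, h0Ω, h0⟩
  have hb0 : b ≠ 0 := by
    intro h
    rw [h] at hb2
    apply ha0
    have : -a = 0 := by rw [← hb2]; ring
    exact neg_eq_zero.1 this
  have hFd : ∀ z ∈ Ω, DifferentiableAt ℂ (fun z => mob b (k z)) z := fun z hz =>
    (mob_hasDerivAt hb1 (hkn z hz)).differentiableAt.comp z (hkd z hz)
  refine ⟨fun z => mob b (k z), fun z hz => (hFd z hz).differentiableWithinAt, ?_, ?_, ?_, ?_⟩
  · intro z hz w hw h
    have h1 : k z = k w := mob_inj hb1 (hkn z hz) (hkn w hw) h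
    have h2 : mob a (f z) = mob a (f w) := by
      have e1 := hk2 z hz
      have e2 := hk2 w hw
      rw [← e1, ← e2, h1]
    exact hi hz hw (mob_inj ha1 (hfn z hz) (hfn w hw) h2)
  · intro z hz
    rw [mem_ball_zero_iff]
    exact mob_norm hb1 (hkn z hz)
  · change mob b (k 0) = 0
    rw [← hb]
    exact (mob_zero_iff hb1 hb1).2 rfl
  · -- derivatives
    have hf' : HasDerivAt f (deriv f 0) 0 := (hfd 0 h0Ω).hasDerivAt
    have hk' : HasDerivAt k (deriv k 0) 0 := (hkd 0 h0Ω).hasDerivAt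
    have d1 : HasDerivAt (fun z => mob a (f z))
        ((1 - conj a * a) / (1 - conj a * f 0) ^ 2 * deriv f 0) 0 :=
      (mob_hasDerivAt ha1 (hfn 0 h0Ω)).comp 0 hf'
    have d2 : HasDerivAt (fun z => k z ^ 2) (2 * k 0 * deriv k 0) 0 := by
      have := hk'.pow 2
      have e : (2 : ℕ) * k 0 ^ (2 - 1) * deriv k 0 = 2 * k 0 * deriv k 0 := by
        norm_num
      rw [← e]
      exact this
    have d3 : HasDerivAt (fun z => mob b (k z))
        ((1 - conj b * b) / (1 - conj b * k 0) ^ 2 * deriv k 0) 0 :=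
      (mob_hasDerivAt hb1 (hkn 0 h0Ω)).comp 0 hk'
    have hev : (fun z => k z ^ 2) =ᶠ[𝓝 0] fun z => mob a (f z) := by
      filter_upwards [hΩ.isOpen.mem_nhds h0Ω] with z hz
      exact hk2 z hz
    have e1 : 2 * b * deriv k 0 = (1 - conj a * a) * deriv f 0 := by
      have := (d1.congr_of_eventuallyEq hev).unique d2
      rw [h0, mul_zero, sub_zero, one_pow, div_one] at this
      rw [hb]
      exact this.symm
    have e2 : deriv (fun z => mob b (k z)) 0 * (1 - conj b * b) = deriv k 0 := by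
      rw [d3.deriv, ← hb]
      have := mob_den hb1 hb1
      field_simp
    have hca : conj a * a = ((‖a‖ ^ 2 : ℝ) : ℂ) := by
      rw [mul_comm, Complex.mul_conj, Complex.normSq_eq_norm_sq]
    have hcb : conj b * b = ((‖b‖ ^ 2 : ℝ) : ℂ) := by
      rw [mul_comm, Complex.mul_conj, Complex.normSq_eq_norm_sq]
    have hab : ‖a‖ = ‖b‖ ^ 2 := by
      rw [← norm_pow, hb2, norm_neg]
    have n1 : 2 * ‖b‖ * ‖deriv k 0‖ = (1 - ‖a‖ ^ 2) * ‖deriv f 0‖ := by
      have := congrArg norm e1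
      rw [norm_mul, norm_mul, norm_mul, hca] at this
      have e3 : ‖(1 : ℂ) - ((‖a‖ ^ 2 : ℝ) : ℂ)‖ = 1 - ‖a‖ ^ 2 := by
        rw [← Complex.ofReal_one, ← Complex.ofReal_sub, Complex.norm_real,
          Real.norm_of_nonneg (by nlinarith [norm_nonneg a])]
      rw [e3] at this
      rw [← this]
      norm_num
    have n2 : ‖deriv (fun z => mob b (k z)) 0‖ * (1 - ‖b‖ ^ 2) = ‖deriv k 0‖ := by
      have := congrArg norm e2
      rw [norm_mul, hcb] at this
      have e3 : ‖(1 : ℂ) - ((‖b‖ ^ 2 : ℝ) : ℂ)‖ = 1 - ‖b‖ ^ 2 := by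
        rw [← Complex.ofReal_one, ← Complex.ofReal_sub, Complex.norm_real,
          Real.norm_of_nonneg (by nlinarith [norm_nonneg b])]
      rw [e3] at this
      exact this
    have hf0 : 0 < ‖deriv f 0‖ :=
      norm_pos_iff.2 (deriv_ne_zero_of_injOn hΩ.isOpen hf hi h0Ω)
    have hbp : 0 < ‖b‖ := norm_pos_iff.2 hb0
    have hb3 : 0 < 1 - ‖b‖ ^ 2 := by nlinarith
    -- `2 ‖b‖ X (1 - ‖b‖²) = (1 - ‖b‖⁴) Y`
    set X := ‖deriv (fun z => mob b (k z)) 0‖ with hX
    set Y := ‖deriv f 0‖ with hY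
    rw [← n2, hab] at n1
    have n3 : 2 * ‖b‖ * X = (1 + ‖b‖ ^ 2) * Y := by
      have : (2 * ‖b‖ * X - (1 + ‖b‖ ^ 2) * Y) * (1 - ‖b‖ ^ 2) = 0 := by
        linear_combination n1
      rcases mul_eq_zero.1 this with h | h
      · linarith
      · exact absurd h hb3.ne'
    have n4 : 2 * ‖b‖ * Y < (1 + ‖b‖ ^ 2) * Y := by
      refine mul_lt_mul_of_pos_right ?_ hf0
      nlinarith [sq_nonneg (1 - ‖b‖), mul_pos (sub_pos.2 hb1) (sub_pos.2 hb1)]
    rw [← n3] at n4
    exact lt_of_mul_lt_mul_left n4 (by positivity)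

end Pool.Agent.Lib.MP_b9289b_nt
end
end

section

open Metric Set Filter Topology
open scoped ComplexConjugate

noncomputable section

namespace Pool.Agent.Lib.MP_b9289b_nt

private theorem preconn {Ω : Set ℂ} (hΩ : Star Ω) : IsPreconnected Ω := by
  have h : StarConvex ℝ (0 : ℂ) Ω := by
    intro y hy a b ha hb hab
    rw [smul_zero, zero_add, Complex.real_smul]
    exact hΩ.star y hy b hb (by linarith)
  exact (h.isPathConnected hΩ.zero_mem).isConnected.isPreconnected

/-- (D09) The Riemann mapping theorem for star-shaped domains in the disc. PROOF: the set of `‖deriv f 0‖` for `f : Ω → disc` holomorphic, injective, `f 0 = 0` is nonempty (`f = id`: value `1`) and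
bounded (Cauchy estimate on a disc `ball 0 ρ ⊆ Ω`). Take a sequence with `‖deriv (f n) 0‖ → sup`; `montel` gives a locally uniform limit `g`, holomorphic, `‖deriv g 0‖ = sup ≥ 1`
(`TendstoLocallyUniformlyOn.deriv`), `g` is injective by `hurwitz_injOn` (`Ω` is preconnected: star-shaped), `‖g‖ ≤ 1`, and `‖g‖ < 1` by the maximum principle (or the open mapping theorem). By `koebe` `g '' Ω` is the disc.
Multiply by a constant of absolute value one to get a positive derivative. -/
theorem exists_rmap {Ω : Set ℂ} (hΩ : Star Ω) : ∃ f : ℂ → ℂ, RMap Ω f := by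
  obtain ⟨ρ, hρ, hρΩ⟩ := Metric.isOpen_iff.mp hΩ.isOpen 0 hΩ.zero_mem
  set S : Set ℝ := {r | ∃ f : ℂ → ℂ, DifferentiableOn ℂ f Ω ∧ InjOn f Ω ∧ MapsTo f Ω (ball 0 1) ∧
    f 0 = 0 ∧ ‖deriv f 0‖ = r} with hS
  have hS1 : (1 : ℝ) ∈ S := by
    refine ⟨id, differentiableOn_id, injOn_id _, hΩ.sub, rfl, ?_⟩
    rw [deriv_id, norm_one]
  have hSb : BddAbove S := by
    refine ⟨1 / (ρ / 2), ?_⟩
    rintro r ⟨f, hf, -, hm, -, rfl⟩
    have hsub : closedBall (0 : ℂ) (ρ / 2) ⊆ Ω := (closedBall_subset_ball (by linarith)).trans hρΩ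
    refine Complex.norm_deriv_le_of_forall_mem_sphere_norm_le (by positivity) ?_ ?_
    · refine DifferentiableOn.diffContOnCl ?_
      rw [closure_ball _ (by positivity)]
      exact hf.mono hsub
    · intro z hz
      have := hm (hsub (sphere_subset_closedBall hz))
      rw [mem_ball_zero_iff] at this
      exact this.le
  have hM1 : 1 ≤ sSup S := le_csSup hSb hS1
  have hseq : ∀ n : ℕ, ∃ f : ℂ → ℂ, DifferentiableOn ℂ f Ω ∧ InjOn f Ω ∧ MapsTo f Ω (ball 0 1) ∧
      f 0 = 0 ∧ sSup S - 1 / ((n : ℝ) + 1) < ‖deriv f 0‖ := by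
    intro n
    have hlt : sSup S - 1 / ((n : ℝ) + 1) < sSup S := by
      have : (0 : ℝ) < 1 / ((n : ℝ) + 1) := by positivity
      linarith
    obtain ⟨r, ⟨f, h1, h2, h3, h4, rfl⟩, hr⟩ := exists_lt_of_lt_csSup ⟨1, hS1⟩ hlt
    exact ⟨f, h1, h2, h3, h4, hr⟩
  choose f hf hi hm h0 hlt using hseq
  obtain ⟨φ, hφ, g, hg⟩ := montel hΩ.isOpen f hf (fun n z hz => by
    have := hm n hz
    rw [mem_ball_zero_iff] at this
    exact this.le)
  have hfφ : ∀ᶠ n in atTop, DifferentiableOn ℂ (f (φ n)) Ω := Eventually.of_forall fun n => hf _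
  have hgd : DifferentiableOn ℂ g Ω := hg.differentiableOn hfφ hΩ.isOpen
  have hder : Tendsto (fun n => ‖deriv (f (φ n)) 0‖) atTop (𝓝 ‖deriv g 0‖) :=
    ((hg.deriv hfφ hΩ.isOpen).tendsto_at hΩ.zero_mem).norm
  have hder2 : Tendsto (fun n => ‖deriv (f (φ n)) 0‖) atTop (𝓝 (sSup S)) := by
    have e1 : Tendsto (fun n : ℕ => sSup S - 1 / (((φ n : ℕ) : ℝ) + 1)) atTop (𝓝 (sSup S)) := by
      have e2 : Tendsto (fun n : ℕ => 1 / ((n : ℝ) + 1)) atTop (𝓝 0) :=
        tendsto_one_div_add_atTop_nhds_zero_nat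
      have e3 := e2.comp hφ.tendsto_atTop
      have e4 := (tendsto_const_nhds (x := sSup S)).sub e3
      rw [sub_zero] at e4
      exact e4
    refine tendsto_of_tendsto_of_tendsto_of_le_of_le e1 tendsto_const_nhds (fun n => (hlt _).le) ?_
    intro n
    exact le_csSup hSb ⟨f (φ n), hf _, hi _, hm _, h0 _, rfl⟩
  have hgM : ‖deriv g 0‖ = sSup S := tendsto_nhds_unique hder hder2
  have hg0 : deriv g 0 ≠ 0 := by
    intro h
    rw [h, norm_zero] at hgM
    linarith
  have hginj : InjOn g Ω := hurwitz_injOn hΩ.isOpen (preconn hΩ) (fun n => hf (φ n))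
    (fun n => hi (φ n)) hg hΩ.zero_mem hg0
  have hg00 : g 0 = 0 := by
    have e1 := hg.tendsto_at hΩ.zero_mem
    simp only [h0] at e1
    exact (tendsto_nhds_unique e1 tendsto_const_nhds)
  have hgle : ∀ z ∈ Ω, ‖g z‖ ≤ 1 := by
    intro z hz
    refine le_of_tendsto (hg.tendsto_at hz).norm (Eventually.of_forall fun n => ?_)
    have := hm (φ n) hz
    rw [mem_ball_zero_iff] at this
    exact this.le
  have hgm : MapsTo g Ω (ball 0 1) := by
    intro z hz
    rw [mem_ball_zero_iff]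
    refine lt_of_le_of_ne (hgle z hz) fun heq => ?_
    have hnh : Ω ∈ 𝓝 z := hΩ.isOpen.mem_nhds hz
    have hloc : IsLocalMax (norm ∘ g) z := by
      filter_upwards [hnh] with y hy
      simp only [Function.comp_apply]
      rw [heq]
      exact hgle y hy
    have hd : ∀ᶠ y in 𝓝 z, DifferentiableAt ℂ g y := by
      filter_upwards [hnh] with y hy
      exact hgd.differentiableAt (hΩ.isOpen.mem_nhds hy)
    have hev := Complex.eventually_eq_of_isLocalMax_norm hd hloc
    have hev2 : ∀ᶠ y in 𝓝[≠] z, y = z := by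
      filter_upwards [hev.filter_mono nhdsWithin_le_nhds, nhdsWithin_le_nhds hnh] with y h1 h2
      exact hginj h2 hz h1
    obtain ⟨y, hy, hy'⟩ := (hev2.and self_mem_nhdsWithin).exists
    exact hy' hy
  have hgim : g '' Ω = ball 0 1 := by
    by_contra hne
    obtain ⟨F, F1, F2, F3, F4, F5⟩ := koebe hΩ hgd hginj hgm hg00 hne
    have := le_csSup hSb ⟨F, F1, F2, F3, F4, rfl⟩
    rw [← hgM] at this
    linarith
  -- normalisation
  set d : ℂ := deriv g 0 with hd
  have hdn : (‖d‖ : ℂ) ≠ 0 := by exact_mod_cast norm_ne_zero_iff.mpr hg0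
  set c : ℂ := conj d / ‖d‖ with hc
  have hcn : ‖c‖ = 1 := by
    rw [hc, norm_div, RCLike.norm_conj, Complex.norm_real, norm_norm,
      div_self (norm_ne_zero_iff.mpr hg0)]
  have hc0 : c ≠ 0 := by
    intro h
    rw [h, norm_zero] at hcn
    exact zero_ne_one hcn
  refine ⟨fun z => c * g z, ⟨⟨hgd.const_mul c, ?_, ?_⟩, ?_, ‖d‖, norm_pos_iff.mpr hg0, ?_⟩⟩
  · intro x hx y hy hxy
    exact hginj hx hy (mul_left_cancel₀ hc0 hxy)
  · ext w
    constructor
    · rintro ⟨z, hz, rfl⟩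
      have := hgm hz
      rw [mem_ball_zero_iff] at this ⊢
      rw [norm_mul, hcn, one_mul]
      exact this
    · intro hw
      have : c⁻¹ * w ∈ g '' Ω := by
        rw [hgim, mem_ball_zero_iff, norm_mul, norm_inv, hcn, inv_one, one_mul]
        rwa [mem_ball_zero_iff] at hw
      obtain ⟨z, hz, hzw⟩ := this
      refine ⟨z, hz, ?_⟩
      simp only
      rw [hzw, ← mul_assoc, mul_inv_cancel₀ hc0, one_mul]
  · simp only [hg00, mul_zero]
  · rw [deriv_const_mul c (hgd.differentiableAt (hΩ.isOpen.mem_nhds hΩ.zero_mem)), ← hd, hc,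
      div_mul_eq_mul_div, mul_comm (conj d) d, Complex.mul_conj, Complex.normSq_eq_norm_sq]
    push_cast
    rw [pow_two, mul_div_assoc, div_self hdn, mul_one]

end Pool.Agent.Lib.MP_b9289b_nt
end
end

section

open Metric Set Filter Topology
open scoped ComplexConjugate

noncomputable section

namespace Pool.Agent.Lib.MP_b9289b_nt

/-- (D02) The inverse of an injective holomorphic function is holomorphic. PROOF: the derivative is nonzero by `deriv_ne_zero_of_injOn`; inverse function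
theorem (`HasStrictDerivAt.to_localInverse`, `HasStrictDerivAt.map_nhds_eq`), `g = Function.invFunOn f Ω` agrees with the local inverse near `f z`. -/
theorem exists_inverse {Ω : Set ℂ} (hΩ : IsOpen Ω) {f : ℂ → ℂ} (hf : DifferentiableOn ℂ f Ω)
    (hi : InjOn f Ω) : IsOpen (f '' Ω) ∧
      ∃ g : ℂ → ℂ, DifferentiableOn ℂ g (f '' Ω) ∧ ∀ z ∈ Ω, g (f z) = z := by
  have hs : ∀ z ∈ Ω, HasStrictDerivAt f (deriv f z) z := fun z hz =>
    (hf.analyticAt (hΩ.mem_nhds hz)).hasStrictDerivAt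
  have hm : ∀ z ∈ Ω, map f (𝓝 z) = 𝓝 (f z) := fun z hz =>
    (hs z hz).map_nhds_eq (deriv_ne_zero_of_injOn hΩ hf hi hz)
  have hli : ∀ z ∈ Ω, Function.invFunOn f Ω (f z) = z := fun z hz =>
    hi.leftInvOn_invFunOn hz
  refine ⟨?_, Function.invFunOn f Ω, ?_, hli⟩
  · rw [isOpen_iff_mem_nhds]
    rintro _ ⟨z, hz, rfl⟩
    rw [← hm z hz]
    exact image_mem_map (hΩ.mem_nhds hz)
  · rintro _ ⟨z, hz, rfl⟩
    have hcont : ContinuousAt (Function.invFunOn f Ω) (f z) := by
      rw [ContinuousAt, hli z hz, ← hm z hz, tendsto_map'_iff]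
      refine (tendsto_id).congr' ?_
      filter_upwards [hΩ.mem_nhds hz] with w hw
      simp [hli w hw]
    have hev : ∀ᶠ y in 𝓝 (f z), f (Function.invFunOn f Ω y) = y := by
      rw [← hm z hz, eventually_map]
      filter_upwards [hΩ.mem_nhds hz] with w hw
      rw [hli w hw]
    have h1 : HasDerivAt (Function.invFunOn f Ω) (deriv f z)⁻¹ (f z) := by
      refine HasDerivAt.of_local_left_inverse hcont ?_
        (deriv_ne_zero_of_injOn hΩ hf hi hz) hev
      rw [hli z hz]
      exact (hs z hz).hasDerivAt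
    exact h1.differentiableAt.differentiableWithinAt

end Pool.Agent.Lib.MP_b9289b_nt
end
end

section

open Metric Set Filter Topology
open scoped ComplexConjugate

noncomputable section

namespace Pool.Agent.Lib.MP_b9289b_nt

/-- (D03) A conformal automorphism of the disc fixing `0` is a rotation. PROOF: the inverse `g` is holomorphic (`exists_inverse`); the Schwarz lemma
(`Complex.norm_le_norm_of_mapsTo_ball` or `Complex.abs_le_abs_of_mapsTo_ball`...) for `h` and `g` gives `‖h z‖ = ‖z‖`; so `h z / z` (removable singularity at `0`, or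
`dslope h 0`) has constant absolute value `1` and is constant (maximum principle / open mapping). -/
theorem auto_zero {h : ℂ → ℂ} (hh : Conf (ball 0 1) h) (h0 : h 0 = 0) :
    ∃ c : ℂ, ‖c‖ = 1 ∧ ∀ z ∈ ball (0 : ℂ) 1, h z = c * z := by
  obtain ⟨_, g, hg, hgh⟩ := exists_inverse isOpen_ball hh.diff hh.inj
  rw [hh.image] at hg
  have hmaps : MapsTo h (ball 0 1) (ball 0 1) := by
    intro z hz
    have : h z ∈ h '' ball 0 1 := mem_image_of_mem h hz
    rwa [hh.image] at this
  have hmaps' : MapsTo g (ball 0 1) (ball 0 1) := by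
    intro w hw
    have hw' : w ∈ h '' ball 0 1 := by rwa [hh.image]
    obtain ⟨z, hz, rfl⟩ := hw'
    rw [hgh z hz]
    exact hz
  have hg0 : g 0 = 0 := by
    have := hgh 0 (mem_ball_self one_pos)
    rwa [h0] at this
  have hhalf : (1 / 2 : ℂ) ∈ ball (0 : ℂ) 1 := by
    rw [mem_ball_zero_iff]
    norm_num
  have n1 : ‖h (1 / 2)‖ ≤ ‖(1 / 2 : ℂ)‖ :=
    Complex.norm_le_norm_of_mapsTo_ball hh.diff (fun z hz => ball_subset_closedBall (hmaps hz)) h0
      (mem_ball_zero_iff.1 hhalf)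
  have n2 : ‖(1 / 2 : ℂ)‖ ≤ ‖h (1 / 2)‖ := by
    have := Complex.norm_le_norm_of_mapsTo_ball hg
      (fun z hz => ball_subset_closedBall (hmaps' hz)) hg0 (mem_ball_zero_iff.1 (hmaps hhalf))
    rwa [hgh _ hhalf] at this
  have n3 : ‖h (1 / 2)‖ = ‖(1 / 2 : ℂ)‖ := le_antisymm n1 n2
  have hne : (1 / 2 : ℂ) ≠ 0 := by norm_num
  obtain ⟨c, hc, hC⟩ := Complex.affine_of_mapsTo_ball_of_exists_norm_dslope_eq_div' (R₂ := 1)
    hh.diff (by
      intro z hz
      rw [h0]
      exact ball_subset_closedBall (hmaps hz)) ⟨1 / 2, hhalf, by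
        rw [dslope_of_ne _ hne, slope_def_module, norm_smul, h0, sub_zero, sub_zero, norm_inv, n3,
          inv_mul_cancel₀ (norm_ne_zero_iff.2 hne), div_one]⟩
  refine ⟨c, by rw [hc, div_one], fun z hz => ?_⟩
  have h1 := hC hz
  simp only [] at h1
  rw [h1, h0, sub_zero, zero_add, smul_eq_mul, mul_comm]

end Pool.Agent.Lib.MP_b9289b_nt
end
end

section

open Metric Set Filter Topology
open scoped ComplexConjugate

noncomputable section

namespace Pool.Agent.Lib.MP_b9289b_nt

private lemma D04_normSq (a x : ℂ) : Complex.normSq (1 + conj a * x) - Complex.normSq (x + a) =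
    (1 - Complex.normSq a) * (1 - Complex.normSq x) := by
  simp only [Complex.normSq_apply, Complex.add_re, Complex.add_im, Complex.mul_re, Complex.mul_im,
    Complex.one_re, Complex.one_im, Complex.conj_re, Complex.conj_im]
  ring

private lemma D04_lt (a : ℂ) (h : ‖a‖ < 1) : 0 < 1 - Complex.normSq a := by
  rw [Complex.normSq_eq_norm_sq]
  have := norm_nonneg a
  nlinarith

private lemma D04_den {a x : ℂ} (ha : ‖a‖ < 1) (hx : ‖x‖ < 1) : 1 + conj a * x ≠ 0 := by
  intro h
  have h1 : conj a * x = -1 := by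
    linear_combination h
  have h2 : ‖conj a * x‖ = 1 := by rw [h1, norm_neg, norm_one]
  rw [norm_mul, RCLike.norm_conj] at h2
  have := norm_nonneg a
  have := norm_nonneg x
  nlinarith

private lemma D04_mem {a x : ℂ} (ha : ‖a‖ < 1) (hx : ‖x‖ < 1) :
    ‖(x + a) / (1 + conj a * x)‖ < 1 := by
  have h1 := D04_normSq a x
  have h2 := mul_pos (D04_lt a ha) (D04_lt x hx)
  have h3 : Complex.normSq (x + a) < Complex.normSq (1 + conj a * x) := by linarith
  rw [Complex.normSq_eq_norm_sq, Complex.normSq_eq_norm_sq] at h3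
  have h4 : ‖x + a‖ < ‖1 + conj a * x‖ := lt_of_pow_lt_pow_left₀ 2 (norm_nonneg _) h3
  have h5 : 0 < ‖1 + conj a * x‖ := norm_pos_iff.2 (D04_den ha hx)
  rw [norm_div, div_lt_one h5]
  exact h4

private lemma D04_inv {a x : ℂ} (ha : ‖a‖ < 1) (hx : ‖x‖ < 1) :
    ((x - a) / (1 - conj a * x) + a) / (1 + conj a * ((x - a) / (1 - conj a * x))) = x := by
  have h1 : 1 - conj a * x ≠ 0 := by
    have := D04_den (a := -a) (x := x) (by rwa [norm_neg]) hx
    rw [map_neg, neg_mul, ← sub_eq_add_neg] at this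
    exact this
  have h2 : 1 - conj a * a ≠ 0 := by
    have := D04_den (a := -a) (x := a) (by rwa [norm_neg]) ha
    rw [map_neg, neg_mul, ← sub_eq_add_neg] at this
    exact this
  have h3 : 1 + conj a * ((x - a) / (1 - conj a * x)) = (1 - conj a * a) / (1 - conj a * x) := by
    field_simp
    ring
  have h4 : (x - a) / (1 - conj a * x) + a = (1 - conj a * a) * x / (1 - conj a * x) := by
    rw [div_add' _ _ _ h1]
    congr 1
    ring
  rw [h3, h4]
  field_simp

/-- (D04) Two conformal maps onto the disc differ by a Moebius transformation. PROOF: `F` = inverse of `f` (`exists_inverse`), `m = g ∘ F` is a conformal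
automorphism of the disc; let `a = ` the point of the disc with `m a = 0`, and `φ(x) = (x + a) / (1 + conj a x)`, a conformal automorphism with `φ 0 = a` and inverse
`(x - a)/(1 - conj a x)`; `m ∘ φ` is a rotation by `auto_zero`. -/
theorem conf_mobius {Ω : Set ℂ} (hΩ : IsOpen Ω) {f g : ℂ → ℂ} (hf : Conf Ω f) (hg : Conf Ω g) :
    ∃ a c : ℂ, ‖a‖ < 1 ∧ ‖c‖ = 1 ∧ ∀ z ∈ Ω, g z = c * ((f z - a) / (1 - conj a * f z)) := by
  obtain ⟨_, F, hF, hFf⟩ := exists_inverse hΩ hf.diff hf.inj
  rw [hf.image] at hF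
  have hFmem : ∀ w ∈ ball (0 : ℂ) 1, F w ∈ Ω ∧ f (F w) = w := by
    intro w hw
    have hw' : w ∈ f '' Ω := by rwa [hf.image]
    obtain ⟨z, hz, rfl⟩ := hw'
    rw [hFf z hz]
    exact ⟨hz, rfl⟩
  -- the zero of `g ∘ F`
  have h00 : (0 : ℂ) ∈ g '' Ω := by
    rw [hg.image]
    exact mem_ball_self one_pos
  obtain ⟨z0, hz0, hgz0⟩ := h00
  set a := f z0 with ha
  have haball : a ∈ ball (0 : ℂ) 1 := by
    rw [← hf.image]
    exact mem_image_of_mem f hz0
  have ha1 : ‖a‖ < 1 := mem_ball_zero_iff.1 haball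
  have hφmem : ∀ x ∈ ball (0 : ℂ) 1, (x + a) / (1 + conj a * x) ∈ ball (0 : ℂ) 1 := by
    intro x hx
    rw [mem_ball_zero_iff] at hx ⊢
    exact D04_mem ha1 hx
  have hconf : Conf (ball 0 1) (fun x => g (F ((x + a) / (1 + conj a * x)))) := by
    refine ⟨?_, ?_, ?_⟩
    · have h1 : DifferentiableOn ℂ (fun x => (x + a) / (1 + conj a * x)) (ball 0 1) := by
        refine DifferentiableOn.div (by fun_prop) (by fun_prop) ?_
        intro x hx
        exact D04_den ha1 (mem_ball_zero_iff.1 hx)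
      exact hg.diff.comp (hF.comp h1 hφmem) (fun x hx => (hFmem _ (hφmem x hx)).1)
    · intro x hx y hy hxy
      have h1 := hg.inj (hFmem _ (hφmem x hx)).1 (hFmem _ (hφmem y hy)).1 hxy
      have h2 : (x + a) / (1 + conj a * x) = (y + a) / (1 + conj a * y) := by
        rw [← (hFmem _ (hφmem x hx)).2, ← (hFmem _ (hφmem y hy)).2, h1]
      have hna : ‖-a‖ < 1 := by rwa [norm_neg]
      have e1 := D04_inv hna (mem_ball_zero_iff.1 hx)
      have e2 := D04_inv hna (mem_ball_zero_iff.1 hy)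
      simp only [map_neg, sub_neg_eq_add, neg_mul] at e1 e2
      rw [← e1, ← e2, h2]
    · apply Subset.antisymm
      · rintro _ ⟨x, hx, rfl⟩
        rw [← hg.image]
        exact mem_image_of_mem g (hFmem _ (hφmem x hx)).1
      · intro w hw
        rw [← hg.image] at hw
        obtain ⟨z, hz, rfl⟩ := hw
        have hfz : ‖f z‖ < 1 := by
          rw [← mem_ball_zero_iff, ← hf.image]
          exact mem_image_of_mem f hz
        refine ⟨(f z - a) / (1 - conj a * f z), ?_, ?_⟩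
        · rw [mem_ball_zero_iff]
          have hna : ‖-a‖ < 1 := by rwa [norm_neg]
          have := D04_mem hna hfz
          simp only [map_neg, neg_mul, ← sub_eq_add_neg] at this
          exact this
        · show g (F _) = g z
          rw [D04_inv ha1 hfz, hFf z hz]
  have hzero : (fun x => g (F ((x + a) / (1 + conj a * x)))) 0 = 0 := by
    show g (F ((0 + a) / (1 + conj a * 0))) = 0
    rw [mul_zero, add_zero, div_one, zero_add, ha, hFf z0 hz0, hgz0]
  obtain ⟨c, hc, hC⟩ := auto_zero hconf hzero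
  refine ⟨a, c, ha1, hc, fun z hz => ?_⟩
  have hfz : ‖f z‖ < 1 := by
    rw [← mem_ball_zero_iff, ← hf.image]
    exact mem_image_of_mem f hz
  have h1 : (f z - a) / (1 - conj a * f z) ∈ ball (0 : ℂ) 1 := by
    rw [mem_ball_zero_iff]
    have hna : ‖-a‖ < 1 := by rwa [norm_neg]
    have := D04_mem hna hfz
    simp only [map_neg, neg_mul, ← sub_eq_add_neg] at this
    exact this
  rw [← hC _ h1]
  show g z = g (F _)
  rw [D04_inv ha1 hfz, hFf z hz]

/-- (D04) Uniqueness of the Riemann map. PROOF: in `conf_mobius` `a = 0`, hence `g = c f` on `Ω`; compare the derivatives at `0`. -/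
theorem RMap.unique {Ω : Set ℂ} (hΩ : IsOpen Ω) (h0 : (0 : ℂ) ∈ Ω) {f g : ℂ → ℂ} (hf : RMap Ω f)
    (hg : RMap Ω g) : EqOn f g Ω := by
  obtain ⟨a, c, ha, hc, h⟩ := conf_mobius hΩ hf.toConf hg.toConf
  have hc0 : c ≠ 0 := by
    intro h'
    rw [h', norm_zero] at hc
    exact one_ne_zero hc.symm
  have h1 := h 0 h0
  rw [hf.zero, hg.zero, mul_zero, sub_zero, div_one, zero_sub] at h1
  have ha0 : a = 0 := by
    have := mul_eq_zero.1 h1.symm
    rcases this with h2 | h2
    · exact absurd h2 hc0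
    · exact neg_eq_zero.1 h2
  have h2 : ∀ z ∈ Ω, g z = c * f z := by
    intro z hz
    rw [h z hz, ha0]
    simp
  have h3 : g =ᶠ[𝓝 0] fun z => c * f z := by
    filter_upwards [hΩ.mem_nhds h0] with z hz
    exact h2 z hz
  obtain ⟨r, hr, hr'⟩ := hf.pos
  obtain ⟨s, hs, hs'⟩ := hg.pos
  have hfd : DifferentiableAt ℂ f 0 := hf.diff.differentiableAt (hΩ.mem_nhds h0)
  have h4 : deriv g 0 = c * deriv f 0 := by
    rw [h3.deriv_eq]
    exact deriv_const_mul c hfd
  rw [hr', hs'] at h4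
  have h5 : s = r := by
    have := congrArg norm h4
    rw [norm_mul, hc, one_mul, Complex.norm_real, Complex.norm_real, Real.norm_of_nonneg hs.le,
      Real.norm_of_nonneg hr.le] at this
    exact this
  have h6 : c = 1 := by
    rw [h5] at h4
    have hr0 : (r : ℂ) ≠ 0 := by exact_mod_cast hr.ne'
    have h7 : c * (r : ℂ) = 1 * r := by rw [one_mul, ← h4]
    exact mul_right_cancel₀ hr0 h7
  intro z hz
  rw [h2 z hz, h6, one_mul]

/-- (D04) PROOF: `z ↦ conj (f (conj z))` is also a normalised Riemann map. -/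
theorem RMap.conj_symm {Ω : Set ℂ} (hΩ : IsOpen Ω) (h0 : (0 : ℂ) ∈ Ω) {f : ℂ → ℂ} (hf : RMap Ω f)
    (hc : ∀ z ∈ Ω, conj z ∈ Ω) : ∀ z ∈ Ω, f (conj z) = conj (f z) := by
  have hg : RMap Ω (fun z => conj (f (conj z))) := by
    refine ⟨⟨?_, ?_, ?_⟩, ?_, ?_⟩
    · intro z hz
      have h1 : DifferentiableAt ℂ f (conj z) := hf.diff.differentiableAt (hΩ.mem_nhds (hc z hz))
      have h2 := h1.conj_conj
      rw [Complex.conj_conj] at h2
      exact h2.differentiableWithinAt
    · intro z hz w hw hzw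
      have h1 : f (conj z) = f (conj w) := by
        have := congrArg (starRingEnd ℂ) hzw
        simpa using this
      have h2 := hf.inj (hc z hz) (hc w hw) h1
      have := congrArg (starRingEnd ℂ) h2
      simpa using this
    · apply Subset.antisymm
      · rintro _ ⟨z, hz, rfl⟩
        have h1 : f (conj z) ∈ ball (0 : ℂ) 1 := by
          rw [← hf.image]
          exact mem_image_of_mem f (hc z hz)
        rw [mem_ball_zero_iff] at h1 ⊢
        rwa [RCLike.norm_conj]
      · intro w hw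
        have hw' : conj w ∈ ball (0 : ℂ) 1 := by
          rw [mem_ball_zero_iff] at hw ⊢
          rwa [RCLike.norm_conj]
        rw [← hf.image] at hw'
        obtain ⟨z, hz, hzw⟩ := hw'
        refine ⟨conj z, hc z hz, ?_⟩
        show conj (f (conj (conj z))) = w
        rw [Complex.conj_conj, hzw, Complex.conj_conj]
    · show conj (f (conj 0)) = 0
      rw [map_zero, hf.zero, map_zero]
    · obtain ⟨r, hr, hr'⟩ := hf.pos
      refine ⟨r, hr, ?_⟩
      have h1 : HasDerivAt f (r : ℂ) (conj 0) := by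
        rw [map_zero, ← hr']
        exact (hf.diff.differentiableAt (hΩ.mem_nhds h0)).hasDerivAt
      have h2 : HasDerivAt f (r : ℂ) 0 := by
        rw [map_zero] at h1
        exact h1
      have h3 := h2.conj_conj
      rw [map_zero, Complex.conj_ofReal] at h3
      exact h3.deriv
  intro z hz
  have h1 : f z = conj (f (conj z)) := RMap.unique hΩ h0 hf hg hz
  rw [h1, Complex.conj_conj]

/-- (D04) PROOF: `z ↦ c⁻¹ f (c z)` is also a normalised Riemann map. -/
theorem RMap.rot_symm {Ω : Set ℂ} (hΩ : IsOpen Ω) (h0 : (0 : ℂ) ∈ Ω) {f : ℂ → ℂ} (hf : RMap Ω f)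
    {c : ℂ} (hc1 : ‖c‖ = 1) (hc : ∀ z, c * z ∈ Ω ↔ z ∈ Ω) : ∀ z ∈ Ω, f (c * z) = c * f z := by
  have hc0 : c ≠ 0 := by
    intro h'
    rw [h', norm_zero] at hc1
    exact one_ne_zero hc1.symm
  have hg : RMap Ω (fun z => c⁻¹ * f (c * z)) := by
    refine ⟨⟨?_, ?_, ?_⟩, ?_, ?_⟩
    · intro z hz
      have h1 : DifferentiableAt ℂ f (c * z) := hf.diff.differentiableAt (hΩ.mem_nhds ((hc z).2 hz))
      have h2 : DifferentiableAt ℂ (fun z => f (c * z)) z :=
        DifferentiableAt.comp z h1 (by fun_prop)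
      exact (h2.const_mul c⁻¹).differentiableWithinAt
    · intro z hz w hw hzw
      have h1 : f (c * z) = f (c * w) := mul_left_cancel₀ (inv_ne_zero hc0) hzw
      exact mul_left_cancel₀ hc0 (hf.inj ((hc z).2 hz) ((hc w).2 hw) h1)
    · apply Subset.antisymm
      · rintro _ ⟨z, hz, rfl⟩
        have h1 : f (c * z) ∈ ball (0 : ℂ) 1 := by
          rw [← hf.image]
          exact mem_image_of_mem f ((hc z).2 hz)
        rw [mem_ball_zero_iff] at h1 ⊢
        rwa [norm_mul, norm_inv, hc1, inv_one, one_mul]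
      · intro w hw
        have hw' : c * w ∈ ball (0 : ℂ) 1 := by
          rw [mem_ball_zero_iff] at hw ⊢
          rwa [norm_mul, hc1, one_mul]
        rw [← hf.image] at hw'
        obtain ⟨z, hz, hzw⟩ := hw'
        refine ⟨c⁻¹ * z, ?_, ?_⟩
        · rw [← hc, mul_inv_cancel_left₀ hc0]
          exact hz
        · show c⁻¹ * f (c * (c⁻¹ * z)) = w
          rw [mul_inv_cancel_left₀ hc0, hzw, inv_mul_cancel_left₀ hc0]
    · show c⁻¹ * f (c * 0) = 0
      rw [mul_zero, hf.zero, mul_zero]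
    · obtain ⟨r, hr, hr'⟩ := hf.pos
      refine ⟨r, hr, ?_⟩
      have h2 : HasDerivAt f (r : ℂ) (c * 0) := by
        rw [mul_zero, ← hr']
        exact (hf.diff.differentiableAt (hΩ.mem_nhds h0)).hasDerivAt
      have h4 : HasDerivAt (fun z : ℂ => c * z) c 0 := by
        simpa using (hasDerivAt_id (0 : ℂ)).const_mul c
      have h3 := (h2.comp (0 : ℂ) h4).const_mul c⁻¹
      have h5 : c⁻¹ * ((r : ℂ) * c) = r := by
        field_simp
      rw [h5] at h3
      exact h3.deriv
  intro z hz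
  have h1 : f z = c⁻¹ * f (c * z) := RMap.unique hΩ h0 hf hg hz
  rw [h1, mul_inv_cancel_left₀ hc0]

end Pool.Agent.Lib.MP_b9289b_nt
end
end

section

/-! Folded domains (definitions). -/

open Metric Set Filter Topology
open scoped ComplexConjugate

noncomputable section

namespace Pool.Agent.Lib.MP_b9289b_nt

/-- Two copies of the upper part of `Q'`. -/
def dom1 (Q' : Set ℂ) : Set ℂ := {ζ | (⟨ζ.re, |ζ.im|⟩ : ℂ) ∈ Q'}

/-- Four copies of the part of `Q'` in the first quadrant. -/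
def dom2 (Q' : Set ℂ) : Set ℂ := {ζ | (⟨|ζ.re|, |ζ.im|⟩ : ℂ) ∈ Q'}

/-- The upper half disc. -/
def halfD : Set ℂ := {ζ | ‖ζ‖ < 1 ∧ 0 < ζ.im}

/-- The quarter disc. -/
def quartD : Set ℂ := {ζ | ‖ζ‖ < 1 ∧ 0 < ζ.im ∧ 0 < ζ.re}

/-- A conformal map of the upper half disc onto the disc. -/
def hh (x : ℂ) : ℂ :=
  (((1 + x) / (1 - x)) ^ 2 - Complex.I) / (((1 + x) / (1 - x)) ^ 2 + Complex.I)

end Pool.Agent.Lib.MP_b9289b_nt
end
end

section

/-! (F02) The explicit map of the half disc. -/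

open Metric Set Filter Topology
open scoped ComplexConjugate

noncomputable section

namespace Pool.Agent.Lib.MP_b9289b_nt

private lemma one_sub_ne {x : ℂ} (h : ‖x‖ < 1) : 1 - x ≠ 0 := by
  intro h1
  have : x = 1 := (sub_eq_zero.1 h1).symm
  rw [this] at h
  simp at h

private lemma normSq_lt {x : ℂ} (h : ‖x‖ < 1) : Complex.normSq x < 1 := by
  rw [Complex.normSq_eq_norm_sq]
  have := norm_nonneg x
  nlinarith

private lemma lt_of_normSq {x : ℂ} (h : Complex.normSq x < 1) : ‖x‖ < 1 := by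
  rw [Complex.normSq_eq_norm_sq] at h
  have := norm_nonneg x
  nlinarith

/-- the first map -/
private lemma u_re {x : ℂ} (h : ‖x‖ < 1) : 0 < ((1 + x) / (1 - x)).re := by
  have h0 := Complex.normSq_pos.2 (one_sub_ne h)
  have h1 := normSq_lt h
  rw [Complex.div_re, ← add_div]
  apply div_pos _ h0
  rw [Complex.normSq_apply] at h1
  simp only [Complex.add_re, Complex.one_re, Complex.sub_re, Complex.add_im, Complex.one_im,
    Complex.sub_im]
  nlinarith

private lemma u_im {x : ℂ} (h : ‖x‖ < 1) (h' : 0 < x.im) : 0 < ((1 + x) / (1 - x)).im := by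
  have h0 := Complex.normSq_pos.2 (one_sub_ne h)
  rw [Complex.div_im, ← sub_div]
  apply div_pos _ h0
  simp only [Complex.add_re, Complex.one_re, Complex.sub_re, Complex.add_im, Complex.one_im,
    Complex.sub_im]
  nlinarith

private lemma sq_im {u : ℂ} (h : 0 < u.re) (h' : 0 < u.im) : 0 < (u ^ 2).im := by
  rw [pow_two, Complex.mul_im]
  have := mul_pos h h'
  linarith

private lemma add_I_ne {w : ℂ} (h : 0 < w.im) : w + Complex.I ≠ 0 := by
  intro h1
  have h2 := congrArg Complex.im h1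
  simp at h2
  linarith

/-- The square root in the first quadrant. -/
private lemma exists_root {w : ℂ} (h : 0 < w.im) : ∃ u : ℂ, u ^ 2 = w ∧ 0 < u.re ∧ 0 < u.im := by
  obtain ⟨u, hu⟩ := IsAlgClosed.exists_pow_nat_eq w (n := 2) (by norm_num)
  have h1 : 0 < u.re * u.im := by
    have h2 := congrArg Complex.im hu
    rw [pow_two, Complex.mul_im] at h2
    nlinarith
  rcases pos_and_pos_or_neg_and_neg_of_mul_pos h1 with h2 | h2
  · exact ⟨u, hu, h2.1, h2.2⟩
  · refine ⟨-u, by rw [neg_sq]; exact hu, ?_, ?_⟩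
    · rw [Complex.neg_re]; linarith [h2.1]
    · rw [Complex.neg_im]; linarith [h2.2]

private lemma eq_of_sq {u v : ℂ} (h : u ^ 2 = v ^ 2) (hu : 0 < u.re) (hv : 0 < v.re) : u = v := by
  rcases sq_eq_sq_iff_eq_or_eq_neg.1 h with h1 | h1
  · exact h1
  · exfalso
    rw [h1, Complex.neg_re] at hu
    linarith

/-- PROOF: `x ↦ (1 + x)/(1 - x)` maps the upper half disc bijectively onto the first quadrant (`u = (1+x)/(1-x)`, `x = (u-1)/(u+1)`, `re u > 0` iff `|x| < 1`, `im u > 0` iff `im x > 0`), `u ↦ u²` maps the first quadrant bijectively onto the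
upper half plane (the inverse is `u = w ^ (1/2)`), `w ↦ (w - i)/(w + i)` maps the upper half plane bijectively onto the disc. -/
theorem conf_hh : Conf halfD hh := by
  refine ⟨?_, ?_, ?_⟩
  · intro x hx
    have h1 := one_sub_ne hx.1
    have h2 := add_I_ne (sq_im (u_re hx.1) (u_im hx.1 hx.2))
    apply DifferentiableAt.differentiableWithinAt
    have h3 : DifferentiableAt ℂ (fun x : ℂ => (1 + x) / (1 - x)) x :=
      DifferentiableAt.div (by fun_prop) (by fun_prop) h1
    exact ((h3.pow 2).sub_const _).div ((h3.pow 2).add_const _) h2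
  · intro x hx y hy hxy
    have h1 := one_sub_ne hx.1
    have h1' := one_sub_ne hy.1
    have h2 := add_I_ne (sq_im (u_re hx.1) (u_im hx.1 hx.2))
    have h2' := add_I_ne (sq_im (u_re hy.1) (u_im hy.1 hy.2))
    simp only [hh] at hxy
    rw [div_eq_div_iff h2 h2'] at hxy
    have h3 : ((1 + x) / (1 - x)) ^ 2 = ((1 + y) / (1 - y)) ^ 2 := by
      have h4 : 2 * Complex.I * (((1 + x) / (1 - x)) ^ 2 - ((1 + y) / (1 - y)) ^ 2) = 0 := by
        linear_combination hxy
      have h5 : (2 : ℂ) * Complex.I ≠ 0 := by simp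
      exact sub_eq_zero.1 ((mul_eq_zero.1 h4).resolve_left h5)
    have h4 := eq_of_sq h3 (u_re hx.1) (u_re hy.1)
    rw [div_eq_div_iff h1 h1'] at h4
    linear_combination h4 / 2
  · ext ζ
    rw [mem_ball_zero_iff]
    constructor
    · rintro ⟨x, hx, rfl⟩
      have h3 := sq_im (u_re hx.1) (u_im hx.1 hx.2)
      have h2 := add_I_ne h3
      simp only [hh]
      set w := ((1 + x) / (1 - x)) ^ 2
      rw [norm_div, div_lt_one (norm_pos_iff.2 h2)]
      refine lt_of_pow_lt_pow_left₀ 2 (norm_nonneg _) ?_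
      rw [← Complex.normSq_eq_norm_sq, ← Complex.normSq_eq_norm_sq, Complex.normSq_apply,
        Complex.normSq_apply]
      simp only [Complex.sub_re, Complex.sub_im, Complex.add_re, Complex.add_im, Complex.I_re,
        Complex.I_im]
      nlinarith
    · intro hζ
      have h1 := one_sub_ne hζ
      have hw : 0 < (Complex.I * ((1 + ζ) / (1 - ζ))).im := by
        rw [Complex.I_mul_im]
        exact u_re hζ
      obtain ⟨u, hu, hre, him⟩ := exists_root hw
      have hu1 : u + 1 ≠ 0 := by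
        intro h
        have := congrArg Complex.re h
        simp at this
        linarith
      refine ⟨(u - 1) / (u + 1), ⟨?_, ?_⟩, ?_⟩
      · rw [norm_div, div_lt_one (norm_pos_iff.2 hu1)]
        refine lt_of_pow_lt_pow_left₀ 2 (norm_nonneg _) ?_
        rw [← Complex.normSq_eq_norm_sq, ← Complex.normSq_eq_norm_sq, Complex.normSq_apply,
          Complex.normSq_apply]
        simp only [Complex.sub_re, Complex.sub_im, Complex.add_re, Complex.add_im, Complex.one_re,
          Complex.one_im]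
        nlinarith
      · rw [Complex.div_im, ← sub_div]
        apply div_pos _ (Complex.normSq_pos.2 hu1)
        simp only [Complex.sub_re, Complex.sub_im, Complex.add_re, Complex.add_im, Complex.one_re,
          Complex.one_im]
        nlinarith
      · have h5 : (1 + (u - 1) / (u + 1)) / (1 - (u - 1) / (u + 1)) = u := by
          have h6 : 1 - (u - 1) / (u + 1) = 2 / (u + 1) := by field_simp; ring
          have h7 : 1 + (u - 1) / (u + 1) = 2 * u / (u + 1) := by field_simp; ring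
          rw [h6, h7]
          field_simp
        simp only [hh]
        rw [h5, hu]
        have h8 : Complex.I * ((1 + ζ) / (1 - ζ)) + Complex.I = 2 * Complex.I / (1 - ζ) := by
          field_simp; ring
        have h9 : Complex.I * ((1 + ζ) / (1 - ζ)) - Complex.I = 2 * Complex.I * ζ / (1 - ζ) := by
          field_simp; ring
        rw [h8, h9]
        have := Complex.I_ne_zero
        field_simp

/-- PROOF: `inv_div`. -/
lemma hh_conj (x : ℂ) : hh (conj x) = (conj (hh x))⁻¹ := by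
  simp only [hh, map_div₀, map_sub, map_add, map_pow, map_one, Complex.conj_I, inv_div]
  ring

lemma analyticAt_hh_zero : AnalyticAt ℂ hh 0 := by
  have h1 : AnalyticAt ℂ (fun x : ℂ => (1 + x) / (1 - x)) 0 :=
    AnalyticAt.div (by fun_prop) (by fun_prop) (by simp)
  have h2 : ((1 + (0 : ℂ)) / (1 - 0)) ^ 2 + Complex.I ≠ 0 := by
    intro h
    have := congrArg Complex.im h
    simp at this
  exact ((h1.pow 2).sub analyticAt_const).div ((h1.pow 2).add analyticAt_const) h2

lemma deriv_hh_zero : deriv hh 0 ≠ 0 := by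
  have h0 : (1 : ℂ) - 0 ≠ 0 := by simp
  have h1 : HasDerivAt (fun x : ℂ => (1 + x) / (1 - x)) 2 0 := by
    have h := (((hasDerivAt_id (0 : ℂ)).const_add 1)).div (((hasDerivAt_id (0 : ℂ)).const_sub 1)) h0
    refine h.congr_deriv ?_
    simp
    norm_num
  have h2 : HasDerivAt (fun x : ℂ => ((1 + x) / (1 - x)) ^ 2) 4 0 := by
    refine (h1.pow 2).congr_deriv ?_
    simp
    norm_num
  have h4 : ((1 + (0 : ℂ)) / (1 - 0)) ^ 2 + Complex.I ≠ 0 := by
    intro h
    have := congrArg Complex.im h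
    simp at this
  have h3 := (h2.sub_const Complex.I).div (h2.add_const Complex.I) h4
  have h5 : deriv hh 0 = _ := h3.deriv
  rw [h5]
  simp only [add_zero, sub_zero, div_one, one_pow]
  have h6 : (1 : ℂ) + Complex.I ≠ 0 := by simpa using h4
  refine div_ne_zero ?_ (pow_ne_zero 2 h6)
  intro h7
  have h8 : (4 : ℂ) * (1 + Complex.I) - (1 - Complex.I) * 4 = 8 * Complex.I := by ring
  rw [h8] at h7
  simp at h7

lemma hh_zero_ne : hh 0 ≠ 0 := by
  simp only [hh, add_zero, sub_zero, div_one, one_pow]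
  refine div_ne_zero ?_ ?_
  · intro h
    have := congrArg Complex.im h
    simp at this
  · intro h
    have := congrArg Complex.im h
    simp at this

/-- PROOF: `x ↦ x ^ 2` maps the quarter disc bijectively onto the half disc. -/
lemma conf_hh_sq : Conf quartD (fun x => hh (x ^ 2)) := by
  have hm : ∀ x ∈ quartD, x ^ 2 ∈ halfD := by
    rintro x ⟨h1, h2, h3⟩
    refine ⟨?_, sq_im h3 h2⟩
    rw [norm_pow]
    have := norm_nonneg x
    nlinarith
  refine ⟨?_, ?_, ?_⟩
  · exact conf_hh.diff.comp (by fun_prop) hm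
  · intro x hx y hy hxy
    exact eq_of_sq (conf_hh.inj (hm x hx) (hm y hy) hxy) hx.2.2 hy.2.2
  · rw [← conf_hh.image]
    ext ζ
    constructor
    · rintro ⟨x, hx, rfl⟩
      exact ⟨x ^ 2, hm x hx, rfl⟩
    · rintro ⟨x, hx, rfl⟩
      obtain ⟨u, hu, hre, him⟩ := exists_root hx.2
      refine ⟨u, ⟨?_, him, hre⟩, by simp only [hu]⟩
      have h1 := hx.1
      rw [← hu, norm_pow] at h1
      have := norm_nonneg u
      nlinarith

end Pool.Agent.Lib.MP_b9289b_nt
end
end
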