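import Pool.Agent.Lib.MP_b9289b_nt.Mg.G015
import Pool.Agent.Lib.MP_b9289b_nt.Mg.G001
import Pool.Agent.Lib.MP_b9289b_nt.Mg.G007

section

/-!
# M09: rotations
Let `γ • z = z`, `γ ≠ 1, -1`.  The derivative of `w ↦ γ • w` at `z` is `ζ = 1 / (denom γ z)^2`
(`UpperHalfPlane.deriv_smul`).
If `F ≠ 0` has order `n` at `z` and `F ∘ γ = c F` then `c = ζ^n` (compare the leading
coefficients: `F w = (w - z)^n * G w`, `G` analytic at `z` with `G z ≠ 0`, and
`(γ w - z) / (w - z) → ζ`).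
`(denom γ z)^2 = 1` implies `γ = ± 1` (`c z + d = ± 1` gives `c = 0`, `d = ±1`, and then
`γ z = z` gives `b = 0`).
So: if `ord z (F - cst c) = ± 1` for an invariant `F` then `ζ = 1`, contradiction; if the order is
`± 2` then `ζ^2 = 1`, so `ζ = -1`.
-/

open UpperHalfPlane Filter Topology MatrixGroups
open scoped ContDiff ComplexConjugate

noncomputable section

namespace Pool.Agent.Lib.MP_b9289b_nt

/-- `F ∘ γ = c F` at a fixed point of `γ`. -/
lemma rot_eq {γ : SL(2, ℝ)} {z : ℍ} (hz : γ • z = z) {F : Mer} {n : ℤ}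
    (hn : Mer.ord z F = (n : WithTop ℤ)) {c : ℂ} (h : Mer.actS γ F = Mer.cst c * F) :
    c = (1 / (denom (γ : GL (Fin 2) ℝ) z) ^ 2) ^ n := by
  obtain ⟨f, hf, rfl⟩ := Mer.exists_rep F
  rw [Mer.ord_mk, meromorphicOrderAt_eq_int_iff (hf z)] at hn
  obtain ⟨G, hG, hG0, hGe⟩ := hn
  rw [Mer.actS_mk, Mer.cst_eq, Mer.mk_mul, Mer.mk_eq_mk, eventually_codiscrete_iff] at h
  have hdet : 0 < (γ : GL (Fin 2) ℝ).val.det := by simp
  have hz' : (γ : GL (Fin 2) ℝ) • z = z := hz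
  have hd := (hasStrictDerivAt_smul hdet z).hasDerivAt
  have hdz : (((γ : GL (Fin 2) ℝ) • ofComplex (z : ℂ) : ℍ) : ℂ) = (z : ℂ) := by
    rw [ofComplex_apply, hz']
  rw [hasDerivAt_iff_tendsto_slope] at hd
  have hdet1 : ((γ : GL (Fin 2) ℝ).val.det : ℂ) = 1 := by simp
  rw [hdet1] at hd
  have hzeta : (1 / (denom (γ : GL (Fin 2) ℝ) z) ^ 2 : ℂ) ≠ 0 :=
    one_div_ne_zero (pow_ne_zero _ (denom_ne_zero _ _))
  -- the map `φ`
  have hphi : Tendsto (fun w : ℂ => (((γ : GL (Fin 2) ℝ) • ofComplex w : ℍ) : ℂ))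
      (𝓝[≠] (z : ℂ)) (𝓝[≠] (z : ℂ)) := by
    rw [← map_coe_nhdsNE, tendsto_map'_iff]
    have h1 := tendsto_smul_nhdsNE (γ : GL (Fin 2) ℝ) z
    rw [hz'] at h1
    have h2 : ((fun w : ℂ => (((γ : GL (Fin 2) ℝ) • ofComplex w : ℍ) : ℂ)) ∘ ((↑) : ℍ → ℂ)) =
        ((↑) : ℍ → ℂ) ∘ (fun w : ℍ => (γ : GL (Fin 2) ℝ) • w) := by
      funext w
      simp only [Function.comp, ofComplex_apply]
    rw [h2]
    exact tendsto_map.comp h1
  have hev : ∀ᶠ w in 𝓝[≠] (z : ℂ),
      (slope (fun w : ℂ => (((γ : GL (Fin 2) ℝ) • ofComplex w : ℍ) : ℂ)) (z : ℂ) w) ^ n *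
        G (((γ : GL (Fin 2) ℝ) • ofComplex w : ℍ) : ℂ) = c * G w := by
    filter_upwards [h z, hGe, hphi.eventually hGe, self_mem_nhdsWithin] with w h1 h2 h3 h4
    have hw : w - (z : ℂ) ≠ 0 := sub_ne_zero.2 h4
    have hwn : (w - (z : ℂ)) ^ n ≠ 0 := zpow_ne_zero _ hw
    have e1 : (↑ₕf) (((γ : GL (Fin 2) ℝ) • ofComplex w : ℍ) : ℂ) = f (γ • ofComplex w) := by
      simp only [Function.comp, ofComplex_apply]
      rfl
    rw [e1, h1] at h3
    have h2' : f (ofComplex w) = (w - (z : ℂ)) ^ n * G w := h2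
    rw [h2', smul_eq_mul] at h3
    rw [slope_def_field, hdz, div_zpow]
    field_simp
    linear_combination -h3
  have hl : Tendsto (fun w : ℂ =>
      (slope (fun w : ℂ => (((γ : GL (Fin 2) ℝ) • ofComplex w : ℍ) : ℂ)) (z : ℂ) w) ^ n *
        G (((γ : GL (Fin 2) ℝ) • ofComplex w : ℍ) : ℂ)) (𝓝[≠] (z : ℂ))
      (𝓝 ((1 / (denom (γ : GL (Fin 2) ℝ) z) ^ 2) ^ n * G z)) := by
    refine (hd.zpow₀ n (Or.inl hzeta)).mul ?_
    exact (hG.continuousAt.tendsto.mono_left nhdsWithin_le_nhds).comp hphi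
  have hr : Tendsto (fun w : ℂ => c * G w) (𝓝[≠] (z : ℂ)) (𝓝 (c * G z)) :=
    tendsto_const_nhds.mul (hG.continuousAt.tendsto.mono_left nhdsWithin_le_nhds)
  have := tendsto_nhds_unique (hl.congr' hev) hr
  exact (mul_right_cancel₀ hG0 this).symm

private lemma denom_eq' (γ : SL(2, ℝ)) (z : ℍ) :
    denom (γ : GL (Fin 2) ℝ) z = (γ 1 0 : ℂ) * z + (γ 1 1 : ℂ) := rfl

lemma eq_one_or_neg_one {γ : SL(2, ℝ)} {z : ℍ} (hz : γ • z = z)
    (h : (denom (γ : GL (Fin 2) ℝ) z) ^ 2 = 1) : γ = 1 ∨ γ = -1 := by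
  rw [denom_eq', sq_eq_one_iff] at h
  have hdet : γ 0 0 * γ 1 1 - γ 0 1 * γ 1 0 = 1 := by
    have := γ.det_coe
    rwa [Matrix.det_fin_two] at this
  have hc : γ 1 0 = 0 := by
    have h1 : ((γ 1 0 : ℂ) * z + (γ 1 1 : ℂ)).im = 0 := by
      rcases h with h | h <;> rw [h] <;> simp
    have h2 : γ 1 0 * z.im = 0 := by simpa using h1
    exact (mul_eq_zero.1 h2).resolve_right z.im_ne_zero
  have hd : γ 1 1 = 1 ∨ γ 1 1 = -1 := by
    rw [hc] at h
    rcases h with h | h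
    · left
      have h2 : ((γ 1 1 : ℝ) : ℂ) = 1 := by simpa using h
      exact_mod_cast h2
    · right
      have h2 : ((γ 1 1 : ℝ) : ℂ) = -1 := by simpa using h
      exact_mod_cast h2
  have hz2 : (((γ 0 0 : ℂ) * z + (γ 0 1 : ℂ)) / ((γ 1 0 : ℂ) * z + (γ 1 1 : ℂ))) = (z : ℂ) := by
    have h1 := coe_specialLinearGroup_apply γ z
    rw [hz] at h1
    simpa using h1.symm
  rw [hc] at hz2 hdet
  rcases hd with hd | hd
  · left
    rw [hd] at hz2 hdet
    have ha : γ 0 0 = 1 := by linarith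
    rw [ha] at hz2
    have hb : γ 0 1 = 0 := by
      have : ((γ 0 1 : ℝ) : ℂ) = 0 := by
        simpa using hz2
      exact_mod_cast this
    ext i j
    fin_cases i <;> fin_cases j <;> simp [ha, hb, hc, hd]
  · right
    rw [hd] at hz2 hdet
    have ha : γ 0 0 = -1 := by linarith
    rw [ha] at hz2
    have hb : γ 0 1 = 0 := by
      have : ((γ 0 1 : ℝ) : ℂ) = 0 := by
        have h3 : (((-1 : ℝ) : ℂ) * z + (γ 0 1 : ℂ)) / (((0 : ℝ) : ℂ) * z + ((-1 : ℝ) : ℂ)) =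
          z - γ 0 1 := by
          push_cast
          rw [zero_mul, zero_add, div_neg, div_one]
          ring
        rw [h3] at hz2
        linear_combination -hz2
      exact_mod_cast this
    ext i j
    fin_cases i <;> fin_cases j <;> simp [ha, hb, hc, hd]

/-- A nontrivial rotation by the angle `π` about `z`. -/
def IsRot (γ : SL(2, ℝ)) (z : ℍ) : Prop := γ • z = z ∧ (denom (γ : GL (Fin 2) ℝ) z) ^ 2 = -1

private lemma one_mul_cst (F : Mer) : Mer.cst 1 * F = F := by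
  rw [map_one, one_mul]

private lemma neg_one_mul_cst (F : Mer) : Mer.cst (-1) * F = -F := by
  rw [map_neg, map_one, neg_one_mul]

/-- invariance and simple order is impossible. -/
lemma trivial_of_ord_one {γ : SL(2, ℝ)} {z : ℍ} (hz : γ • z = z) {F : Mer}
    (hn : Mer.ord z F = 1 ∨ Mer.ord z F = -1) (h : Mer.actS γ F = F) : γ = 1 ∨ γ = -1 := by
  have h' : Mer.actS γ F = Mer.cst 1 * F := by rw [one_mul_cst, h]
  refine eq_one_or_neg_one hz ?_
  rcases hn with hn | hn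
  · have := rot_eq hz (n := 1) hn h'
    rw [zpow_one] at this
    field_simp at this
    exact this
  · have := rot_eq hz (n := -1) hn h'
    rw [zpow_neg_one, one_div, inv_inv] at this
    exact this.symm

/-- If `F ≠ 0` is invariant and has order `± 2` then `γ` is a rotation by `π`. -/
lemma isRot_of_ord_two {γ : SL(2, ℝ)} {z : ℍ} (hz : γ • z = z) (h1 : γ ≠ 1) (h2 : γ ≠ -1)
    {F : Mer} (hn : Mer.ord z F = 2 ∨ Mer.ord z F = -2) (h : Mer.actS γ F = F) : IsRot γ z := by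
  have h' : Mer.actS γ F = Mer.cst 1 * F := by rw [one_mul_cst, h]
  refine ⟨hz, ?_⟩
  have h4 : ((denom (γ : GL (Fin 2) ℝ) z) ^ 2) ^ 2 = 1 := by
    rcases hn with hn | hn
    · have := rot_eq hz (n := 2) hn h'
      rw [one_div, inv_zpow, eq_comm, inv_eq_one] at this
      exact_mod_cast this
    · have := rot_eq hz (n := -2) hn h'
      rw [one_div, inv_zpow, zpow_neg, inv_inv] at this
      exact_mod_cast this.symm
  rcases sq_eq_one_iff.1 h4 with h5 | h5
  · exact absurd (eq_one_or_neg_one hz h5) (by simp [h1, h2])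
  · exact h5

/-- If `F ≠ 0` is anti-invariant and has order `± 1` then `γ` is a rotation by `π`. -/
lemma isRot_of_ord_one {γ : SL(2, ℝ)} {z : ℍ} (hz : γ • z = z)
    {F : Mer} (hn : Mer.ord z F = 1 ∨ Mer.ord z F = -1) (h : Mer.actS γ F = -F) : IsRot γ z := by
  have h' : Mer.actS γ F = Mer.cst (-1) * F := by rw [neg_one_mul_cst, h]
  refine ⟨hz, ?_⟩
  rcases hn with hn | hn
  · have := rot_eq hz (n := 1) hn h'
    rw [zpow_one, one_div] at this
    rw [← inv_inj, ← this]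
    norm_num
  · have := rot_eq hz (n := -1) hn h'
    rw [zpow_neg_one, one_div, inv_inv] at this
    exact this.symm

private lemma IsRot.inv_eq {γ : SL(2, ℝ)} {z : ℍ} (hγ : IsRot γ z) :
    (1 / (denom (γ : GL (Fin 2) ℝ) z) ^ 2 : ℂ) = -1 := by
  rw [hγ.2]
  norm_num

/-- A rotation by `π` fixing `F ≠ 0` up to sign: the sign is `(-1)^ord`. -/
lemma IsRot.even {γ : SL(2, ℝ)} {z : ℍ} (hγ : IsRot γ z) {F : Mer} {n : ℤ}
    (hn : Mer.ord z F = (n : WithTop ℤ)) (h : Mer.actS γ F = F) : Even n := by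
  have h' : Mer.actS γ F = Mer.cst 1 * F := by rw [one_mul_cst, h]
  have := rot_eq hγ.1 hn h'
  rw [hγ.inv_eq] at this
  by_contra hne
  rw [(Int.not_even_iff_odd.1 hne).neg_one_zpow] at this
  norm_num at this

lemma IsRot.odd {γ : SL(2, ℝ)} {z : ℍ} (hγ : IsRot γ z) {F : Mer} {n : ℤ}
    (hn : Mer.ord z F = (n : WithTop ℤ)) (h : Mer.actS γ F = -F) : Odd n := by
  have h' : Mer.actS γ F = Mer.cst (-1) * F := by rw [neg_one_mul_cst, h]
  have := rot_eq hγ.1 hn h'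
  rw [hγ.inv_eq] at this
  by_contra hne
  rw [(Int.not_odd_iff_even.1 hne).neg_one_zpow] at this
  norm_num at this

/-- A rotation is not trivial. -/
lemma IsRot.ne {γ : SL(2, ℝ)} {z : ℍ} (hγ : IsRot γ z) : γ ≠ 1 ∧ γ ≠ -1 := by
  have h := hγ.2
  rw [denom_eq'] at h
  constructor
  · rintro rfl
    simp at h
    norm_num at h
  · rintro rfl
    simp at h
    norm_num at h

end Pool.Agent.Lib.MP_b9289b_nt
end
end

section

/-!
# The orbifold function `κ` and the function `S`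
-/

open UpperHalfPlane Filter Topology MatrixGroups
open scoped ContDiff ComplexConjugate

noncomputable section

namespace Pool.Agent.Lib.MP_b9289b_nt

/-- `s = (t-1)/(t+1)`. -/
def ss (t : ℝ) : ℝ := (t - 1) / (t + 1)

/-- `a = √(1+t)`. -/
def aa (t : ℝ) : ℝ := √(1 + t)

/-- `b = √(t²-1)`. -/
def bb (t : ℝ) : ℝ := √(t ^ 2 - 1)

lemma aa_sq {t : ℝ} (ht : 1 < t) : aa t ^ 2 = 1 + t := Real.sq_sqrt (by linarith)

lemma bb_sq {t : ℝ} (ht : 1 < t) : bb t ^ 2 = t ^ 2 - 1 := Real.sq_sqrt (by nlinarith)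

lemma aa_pos {t : ℝ} (ht : 1 < t) : 0 < aa t := Real.sqrt_pos.2 (by linarith)

lemma one_lt_aa {t : ℝ} (ht : 1 < t) : 1 < aa t := by
  have h := aa_sq ht
  have h0 := aa_pos ht
  nlinarith

lemma bb_pos {t : ℝ} (ht : 1 < t) : 0 < bb t := Real.sqrt_pos.2 (by nlinarith)

lemma ss_pos {t : ℝ} (ht : 1 < t) : 0 < ss t := div_pos (by linarith) (by linarith)

lemma ss_lt_one {t : ℝ} (ht : 1 < t) : ss t < 1 := by
  unfold ss
  rw [div_lt_one (by linarith)]
  linarith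

/-- The finite branch values of `κ`. -/
def specK (t : ℝ) : Set ℂ := {2, -2, 2 * (ss t : ℂ), -(2 * (ss t : ℂ))}

/-- `κ` is the universal orbifold covering `ℍ → ℙ¹` with the five points `∞, ±2, ±2s` of
order two, with its symmetries. -/
structure IsOrb (t : ℝ) (κ : Mer) : Prop where
  ht : 1 < t
  ram : ∀ z, Mer.ord z κ = -2 ∨ (∃ c ∈ specK t, Mer.ord z (κ - Mer.cst c) = 2) ∨
    (∃ c, c ∉ specK t ∧ Mer.ord z (κ - Mer.cst c) = 1)
  rot : ∀ z, (Mer.ord z κ = -2 ∨ ∃ c ∈ specK t, Mer.ord z (κ - Mer.cst c) = 2) →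
    ∃ γ : SL(2, ℝ), Mer.actS γ κ = κ ∧ γ • z = z ∧ γ ≠ 1 ∧ γ ≠ -1
  cocompact : Cocompact (fixer {κ})
  exists_r : ∃ r : SL(2, ℝ), Mer.actS r κ = -κ
  exists_c : ∃ g : GL (Fin 2) ℝ, g.det.val < 0 ∧ Mer.act g κ = κ

/-- The finite branch values of `S`. -/
def specS (t : ℝ) : Set ℂ :=
  {1, -1, (aa t : ℂ), -(aa t : ℂ), Complex.I * bb t, -(Complex.I * bb t)}

/-- `S` is the universal orbifold covering `ℍ → ℙ¹` with the six points `±1, ±a, ±ib` of order
two, with its symmetries; `D² = (S² + b²) / (S² - 1)`. -/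
structure IsS (t : ℝ) (S D : Mer) : Prop where
  ht : 1 < t
  ram : ∀ z, Mer.ord z S = -1 ∨ (∃ c ∈ specS t, Mer.ord z (S - Mer.cst c) = 2) ∨
    (∃ c, c ∉ specS t ∧ Mer.ord z (S - Mer.cst c) = 1)
  rot : ∀ z, ∀ c ∈ specS t, Mer.ord z (S - Mer.cst c) = 2 →
    ∃ γ : SL(2, ℝ), Mer.actS γ S = S ∧ IsRot γ z
  rot' : ∀ z, (Mer.ord z S = -1 ∨ Mer.ord z S = 1) →
    ∃ γ : SL(2, ℝ), Mer.actS γ S = -S ∧ IsRot γ z
  cocompact : Cocompact (fixer {S})
  exists_r : ∃ r : SL(2, ℝ), Mer.actS r S = D ∧ (Mer.actS r D = S ∨ Mer.actS r D = -S)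
  exists_c : ∃ g : GL (Fin 2) ℝ, g.det.val < 0 ∧ Mer.act g S = S
  eqD : D ^ 2 * (S ^ 2 - 1) = S ^ 2 + Mer.cst ((bb t : ℂ) ^ 2)

end Pool.Agent.Lib.MP_b9289b_nt
end
end

section

/-!
# G01: `κ` and `u = (1+t)(κ + 2s)/(κ - 2)`: algebra and orders

All identities follow by `field_simp`/`ring` in the field `Mer` from `s (t+1) = t - 1`
(`cst` is a ring homomorphism; `κ ≠ cst c`).  For the orders use `Mer.ord_div` etc. and the orders
of `κ - c` (`HasVal.ord_sub`: if `κ` has the value `c'` at `z` then `ord z (κ - c) = 0` for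
`c ≠ c'`).
-/

open UpperHalfPlane Filter Topology MatrixGroups
open scoped ContDiff ComplexConjugate

noncomputable section

namespace Pool.Agent.Lib.MP_b9289b_nt

open Mer

variable {t : ℝ} {κ : Mer}

private lemma ord_cst_cases (z : ℍ) (c : ℂ) : ord z (cst c) = 0 ∨ ord z (cst c) = ⊤ := by
  by_cases hc : c = 0
  · right
    rw [hc, map_zero, ord_zero]
  · left
    exact ord_cst z hc

lemma IsOrb.ne_cst (h : IsOrb t κ) (c : ℂ) : κ ≠ cst c := by
  rintro rfl
  rcases h.ram I with h1 | ⟨d, -, h1⟩ | ⟨d, -, h1⟩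
  · rcases ord_cst_cases I c with h2 | h2 <;> rw [h2] at h1
    · exact absurd h1 (by decide)
    · exact absurd h1 (by decide)
  · rw [← map_sub] at h1
    rcases ord_cst_cases I (c - d) with h2 | h2 <;> rw [h2] at h1
    · exact absurd h1 (by decide)
    · exact absurd h1 (by decide)
  · rw [← map_sub] at h1
    rcases ord_cst_cases I (c - d) with h2 | h2 <;> rw [h2] at h1
    · exact absurd h1 (by decide)
    · exact absurd h1 (by decide)

/-- `u = (1+t)(κ + 2s)/(κ - 2)`. -/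
def uu (t : ℝ) (κ : Mer) : Mer := cst (1 + t) * (κ + cst (2 * ss t)) / (κ - cst 2)

private lemma IsOrb.sub_two_ne (h : IsOrb t κ) : κ - cst 2 ≠ 0 := sub_ne_zero.2 (h.ne_cst 2)

private lemma ss_eq {t : ℝ} (ht : 1 < t) : (ss t : ℂ) * (t + 1) = t - 1 := by
  have h : ss t * (t + 1) = t - 1 := by
    unfold ss
    rw [div_mul_cancel₀]
    linarith
  exact_mod_cast h

private lemma cst_ss_eq {t : ℝ} (ht : 1 < t) :
    cst (ss t : ℂ) * (cst (t : ℂ) + 1) = cst (t : ℂ) - 1 := by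
  have h := congrArg cst (ss_eq ht)
  rw [map_mul, map_add, map_sub, map_one] at h
  exact h

lemma IsOrb.uu_sub_one (h : IsOrb t κ) :
    uu t κ - 1 = cst t * (κ + cst 2) / (κ - cst 2) := by
  have h0 := h.sub_two_ne
  have h1 := cst_ss_eq h.ht
  have h2 : cst 2 = (2 : Mer) := map_ofNat cst 2
  unfold uu
  rw [eq_div_iff h0, sub_mul, div_mul_cancel₀ _ h0, map_add, map_mul, map_one]
  rw [h2]
  linear_combination 2 * h1

lemma IsOrb.uu_sub_a (h : IsOrb t κ) :
    uu t κ - cst ((aa t : ℂ) ^ 2) = cst (2 * (1 + t) * (1 + ss t)) / (κ - cst 2) := by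
  have h0 := h.sub_two_ne
  have h2 : cst 2 = (2 : Mer) := map_ofNat cst 2
  have h3 : (aa t : ℂ) ^ 2 = 1 + t := by
    have := aa_sq h.ht
    exact_mod_cast this
  unfold uu
  rw [eq_div_iff h0, sub_mul, div_mul_cancel₀ _ h0, h3]
  simp only [map_add, map_mul, map_one]
  rw [h2]
  ring

lemma IsOrb.uu_add_b (h : IsOrb t κ) :
    uu t κ + cst ((bb t : ℂ) ^ 2) = cst (t * (1 + t)) * (κ - cst (2 * ss t)) / (κ - cst 2) := by
  have h0 := h.sub_two_ne
  have h1 := cst_ss_eq h.ht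
  have h2 : cst 2 = (2 : Mer) := map_ofNat cst 2
  have h3 : (bb t : ℂ) ^ 2 = t ^ 2 - 1 := by
    have := bb_sq h.ht
    exact_mod_cast this
  unfold uu
  rw [eq_div_iff h0, add_mul, div_mul_cancel₀ _ h0, h3]
  simp only [map_add, map_mul, map_one, map_sub, map_pow]
  rw [h2]
  linear_combination 2 * (1 + cst (t : ℂ)) * h1

private lemma wt_sub (a b : ℤ) : ((a : ℤ) : WithTop ℤ) - ((b : ℤ) : WithTop ℤ) =
    ((a - b : ℤ) : WithTop ℤ) := rfl

/-- The order of `κ - d` at a point where `κ` has the value `c`. -/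
private lemma ord_sub_other {z : ℍ} {c d : ℂ} (h : 0 < ord z (κ - cst c)) (hcd : c ≠ d) :
    ord z (κ - cst d) = 0 := HasVal.ord_sub (F := κ) h hcd

private lemma add_cst (κ : Mer) (c : ℂ) : κ + cst c = κ - cst (-c) := by
  rw [map_neg, sub_neg_eq_add]

private lemma two_pos : (0 : WithTop ℤ) < 2 := by decide

private lemma one_pos : (0 : WithTop ℤ) < 1 := by decide

/-- The six types of points. -/
lemma IsOrb.cases (h : IsOrb t κ) (z : ℍ) :
    (ord z κ = -2 ∧ ord z (uu t κ - cst ((aa t : ℂ) ^ 2)) = 2) ∨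
    (ord z (κ - cst 2) = 2 ∧ ord z (uu t κ) = -2) ∨
    (ord z (κ + cst 2) = 2 ∧ ord z (uu t κ - 1) = 2) ∨
    (ord z (κ - cst (2 * ss t)) = 2 ∧ ord z (uu t κ + cst ((bb t : ℂ) ^ 2)) = 2) ∨
    (ord z (κ + cst (2 * ss t)) = 2 ∧ ord z (uu t κ) = 2) ∨
    (∃ c, c ≠ 1 ∧ c ≠ (aa t : ℂ) ^ 2 ∧ c ≠ -(bb t : ℂ) ^ 2 ∧ c ≠ 0 ∧ ord z (uu t κ - cst c) = 1) := by
  have ht := h.ht
  have h0 := h.sub_two_ne
  have hs0 := ss_pos ht
  have hs1 := ss_lt_one ht
  have e1 : (1 + t : ℂ) ≠ 0 := by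
    have : (1 + t : ℝ) ≠ 0 := by linarith
    exact_mod_cast this
  have e2 : (t : ℂ) ≠ 0 := by
    have : (t : ℝ) ≠ 0 := by linarith
    exact_mod_cast this
  have e3 : (1 + ss t : ℂ) ≠ 0 := by
    have : (1 + ss t : ℝ) ≠ 0 := by linarith
    exact_mod_cast this
  have e4 : (2 : ℂ) ≠ 2 * (ss t : ℂ) := by
    have : (2 : ℝ) ≠ 2 * ss t := by linarith
    exact_mod_cast this
  have e5 : (2 : ℂ) ≠ -(2 * (ss t : ℂ)) := by
    have : (2 : ℝ) ≠ -(2 * ss t) := by linarith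
    exact_mod_cast this
  have e6 : (2 * (ss t : ℂ)) ≠ -(2 * (ss t : ℂ)) := by
    have : (2 * ss t : ℝ) ≠ -(2 * ss t) := by linarith
    exact_mod_cast this
  have e7 : (-2 : ℂ) ≠ 2 := by norm_num
  rcases h.ram z with h1 | ⟨c, hc, h1⟩ | ⟨c, hc, h1⟩
  · left
    refine ⟨h1, ?_⟩
    have h2 : ord z (κ - cst 2) = -2 := by
      rw [ord_sub_of_lt, h1]
      rw [h1, ord_cst z two_ne_zero]
      decide
    rw [h.uu_sub_a, ord_div, h2, ord_cst z (mul_ne_zero (mul_ne_zero two_ne_zero e1) e3)]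
    decide
  · simp only [specK, Set.mem_insert_iff, Set.mem_singleton_iff] at hc
    have hpos : 0 < ord z (κ - cst c) := by rw [h1]; exact two_pos
    rcases hc with rfl | rfl | rfl | rfl
    · right; left
      refine ⟨h1, ?_⟩
      have h2 : ord z (κ + cst (2 * ss t)) = 0 := by
        rw [add_cst]
        exact ord_sub_other hpos e5
      unfold uu
      rw [ord_div, ord_mul, h1, h2, ord_cst z e1]
      decide
    · right; right; left
      have h3 : ord z (κ + cst 2) = 2 := by rw [add_cst]; exact h1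
      refine ⟨h3, ?_⟩
      have h2 : ord z (κ - cst 2) = 0 := ord_sub_other hpos e7
      rw [h.uu_sub_one, ord_div, ord_mul, h3, h2, ord_cst z e2]
      decide
    · right; right; right; left
      refine ⟨h1, ?_⟩
      have h2 : ord z (κ - cst 2) = 0 := ord_sub_other hpos e4.symm
      rw [h.uu_add_b, ord_div, ord_mul, h1, h2, ord_cst z (mul_ne_zero e2 e1)]
      decide
    · right; right; right; right; left
      have h3 : ord z (κ + cst (2 * ss t)) = 2 := by rw [add_cst]; exact h1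
      refine ⟨h3, ?_⟩
      have h2 : ord z (κ - cst 2) = 0 := ord_sub_other hpos e5.symm
      unfold uu
      rw [ord_div, ord_mul, h3, h2, ord_cst z e1]
      decide
  · right; right; right; right; right
    simp only [specK, Set.mem_insert_iff, Set.mem_singleton_iff, not_or] at hc
    obtain ⟨c1, c2, c3, c4⟩ := hc
    have hpos : 0 < ord z (κ - cst c) := by rw [h1]; exact one_pos
    have hc2 : c - 2 ≠ 0 := sub_ne_zero.2 c1
    have h2 : ord z (κ - cst 2) = 0 := ord_sub_other hpos c1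
    have hss := ss_eq ht
    have ha : (aa t : ℂ) ^ 2 = 1 + t := by
      have := aa_sq ht
      exact_mod_cast this
    have hb : (bb t : ℂ) ^ 2 = t ^ 2 - 1 := by
      have := bb_sq ht
      exact_mod_cast this
    refine ⟨(1 + t) * (c + 2 * ss t) / (c - 2), ?_, ?_, ?_, ?_, ?_⟩
    · intro he
      rw [div_eq_iff hc2] at he
      have : (t : ℂ) * (c + 2) = 0 := by linear_combination he - 2 * hss
      rcases mul_eq_zero.1 this with h5 | h5
      · exact e2 h5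
      · exact c2 (eq_neg_of_add_eq_zero_left h5)
    · intro he
      rw [div_eq_iff hc2, ha] at he
      have : 2 * (1 + t : ℂ) * (1 + ss t) = 0 := by linear_combination he
      exact mul_ne_zero (mul_ne_zero two_ne_zero e1) e3 this
    · intro he
      rw [div_eq_iff hc2, hb] at he
      have : (t : ℂ) * (1 + t) * (c - 2 * ss t) = 0 := by
        linear_combination he - 2 * (1 + (t : ℂ)) * hss
      rcases mul_eq_zero.1 this with h5 | h5
      · exact mul_ne_zero e2 e1 h5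
      · exact c3 (sub_eq_zero.1 h5)
    · intro he
      rw [div_eq_iff hc2, zero_mul] at he
      rcases mul_eq_zero.1 he with h5 | h5
      · exact e1 h5
      · exact c4 (eq_neg_of_add_eq_zero_left h5)
    · have h5 : uu t κ - cst ((1 + t) * (c + 2 * ss t) / (c - 2)) =
          cst (-(2 * (1 + t) * (1 + ss t)) / (c - 2)) * (κ - cst c) / (κ - cst 2) := by
        have h6 : cst (c - 2) ≠ 0 := by
          rw [Ne, map_eq_zero]
          exact hc2
        have h7 : cst 2 = (2 : Mer) := map_ofNat cst 2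
        unfold uu
        rw [map_div₀, map_div₀, div_sub_div _ _ h0 h6, div_mul_eq_mul_div, div_div,
          div_eq_div_iff (mul_ne_zero h0 h6) (mul_ne_zero h6 h0)]
        simp only [map_add, map_mul, map_one, map_sub, map_neg, h7]
        ring
      rw [h5, ord_div, ord_mul, h1, h2, ord_cst]
      · decide
      · refine div_ne_zero (neg_ne_zero.2 (mul_ne_zero (mul_ne_zero two_ne_zero e1) e3)) hc2

lemma IsOrb.uu_ne_cst (h : IsOrb t κ) (c : ℂ) : uu t κ ≠ cst c := by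
  intro hc
  have ht := h.ht
  have h0 := h.sub_two_ne
  have hs0 := ss_pos ht
  have e1 : (1 + t : ℂ) ≠ 0 := by
    have : (1 + t : ℝ) ≠ 0 := by linarith
    exact_mod_cast this
  have e3 : (1 + ss t : ℂ) ≠ 0 := by
    have : (1 + ss t : ℝ) ≠ 0 := by linarith
    exact_mod_cast this
  have h1 := h.uu_sub_a
  rw [hc, ← map_sub, eq_div_iff h0] at h1
  have e4 : cst (2 * (1 + t) * (1 + ss t)) ≠ 0 := by
    rw [Ne, map_eq_zero]
    exact mul_ne_zero (mul_ne_zero two_ne_zero e1) e3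
  have e5 : cst (c - (aa t : ℂ) ^ 2) ≠ 0 := by
    intro h2
    rw [h2, zero_mul] at h1
    exact e4 h1.symm
  refine h.ne_cst (2 + 2 * (1 + t) * (1 + ss t) / (c - (aa t : ℂ) ^ 2)) ?_
  rw [map_add, map_div₀, ← h1, mul_div_cancel_left₀ _ e5]
  ring

/-- `r` maps `u` to `D² = (u + b²)/(u - 1)`. -/
lemma IsOrb.actS_r_uu (h : IsOrb t κ) {r : SL(2, ℝ)} (hr : actS r κ = -κ) :
    actS r (uu t κ) * (uu t κ - 1) = uu t κ + cst ((bb t : ℂ) ^ 2) := by
  have h0 := h.sub_two_ne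
  have h2 : κ + cst 2 ≠ 0 := by
    intro h3
    refine h.ne_cst (-2) ?_
    rw [map_neg]
    exact eq_neg_of_add_eq_zero_left h3
  have h3 : -κ - cst 2 ≠ 0 := by
    intro h4
    apply h2
    linear_combination -h4
  rw [h.uu_sub_one, h.uu_add_b]
  have h5 : actS r (uu t κ) = cst (1 + t) * (-κ + cst (2 * ss t)) / (-κ - cst 2) := by
    unfold uu
    rw [map_div₀, map_mul, map_add (actS r) κ, map_sub (actS r) κ, hr, actS_cst, actS_cst,
      actS_cst]
  rw [h5, div_mul_div_comm, div_eq_div_iff (mul_ne_zero h3 h0) h0]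
  simp only [map_mul]
  ring

/-- Elements fixing `κ` fix `u`. -/
lemma act_uu {g : GL (Fin 2) ℝ} (hg : act g κ = κ) : act g (uu t κ) = uu t κ := by
  have h1 : σ g (1 + t : ℂ) = 1 + t := by
    have := σ_ofReal g (1 + t)
    push_cast at this
    exact this
  have h2 : σ g (2 * ss t : ℂ) = 2 * ss t := by
    have := σ_ofReal g (2 * ss t)
    push_cast at this
    exact this
  have h3 : σ g (2 : ℂ) = 2 := by
    have := σ_ofReal g 2
    push_cast at this
    exact this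
  unfold uu
  rw [map_div₀, map_mul, map_add (act g) κ, map_sub (act g) κ, hg, act_cst, act_cst, act_cst,
    h1, h2, h3]

end Pool.Agent.Lib.MP_b9289b_nt
end
end

section

/-!
# M06: square roots
If all orders of `F ≠ 0` are even then `F` is a square in `Mer`.

Proof.  Let `G = der F / F` (the logarithmic derivative): it has at most simple poles, with residue
`ord z F`.  One way: choose for every `z` a meromorphic square root near `z` (`F = (w-z)^(2n) u(w)`
near `z`, `u` analytic and nonzero, take `(w-z)^n * sqrt u`), and glue: the zeros and poles of `F`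
form a closed discrete (hence countable) set `P` ...
A simpler way: `W := der F / F`.  Let `m = (1/2) ord`.  Weierstrass products are NOT needed:
consider the connected open set `U = {w : F analytic and nonzero at w}` and ... the standard
monodromy argument is painful; instead use the following trick.

Let `R > 0` and let `B` be the hyperbolic ball (a Euclidean disc) of radius `R` about `i`.  Its
closure contains only finitely many zeros and poles `z_1 .. z_k` of `F`.  Put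
`q(w) = ∏ (w - z_j)^(ord_{z_j} F / 2)` and `F = q^2 u` with `u` holomorphic without zeros on the
convex set `B`, so `u = exp(2 v)` with `v` holomorphic on `B` (`exists_continuousOn_eqOn_exp_comp`
or a primitive of `u'/u` on the disc `B`), thus `F = (q exp v)^2` on `B`.  Normalise the root `H_R`
on `B_R` by the choice of its sign near `i` (multiply by `±1`), so that `H_R = H_{R'}` on `B_R` for
`R < R'` (two square roots of the same nonzero function on a preconnected open set differ by a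
constant sign), and glue: `H z := H_n z` for the least `n` with `z ∈ B_n`.
-/

open UpperHalfPlane Filter Topology MatrixGroups
open scoped ContDiff ComplexConjugate

noncomputable section

namespace Pool.Agent.Lib.MP_b9289b_nt

/-- A holomorphic function without zeros on a disc is a square. -/
private lemma M06_sqrt_ball {g : ℂ → ℂ} {c : ℂ} {r : ℝ}
    (hg : ∀ z ∈ Metric.ball c r, AnalyticAt ℂ g z) (hg0 : ∀ z ∈ Metric.ball c r, g z ≠ 0) :
    ∃ s : ℂ → ℂ, (∀ z ∈ Metric.ball c r, AnalyticAt ℂ s z) ∧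
      ∀ z ∈ Metric.ball c r, s z ^ 2 = g z := by
  have hd : ∀ z ∈ Metric.ball c r, HasDerivAt g (deriv g z) z := fun z hz =>
    (hg z hz).differentiableAt.hasDerivAt
  have h1 : DifferentiableOn ℂ (fun z => deriv g z / g z) (Metric.ball c r) := by
    intro z hz
    exact ((hg z hz).deriv.differentiableAt.div (hg z hz).differentiableAt
      (hg0 z hz)).differentiableWithinAt
  obtain ⟨v, hv⟩ := h1.isExactOn_ball
  -- `g exp (-v)` is constant
  have h2 : ∀ z ∈ Metric.ball c r, HasDerivAt (fun z => g z * Complex.exp (-v z)) 0 z := by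
    intro z hz
    have h3 := (hd z hz).mul (hv z hz).neg.cexp
    have h0 := hg0 z hz
    have h3' : deriv g z * Complex.exp (-v z) +
        g z * (Complex.exp (-v z) * -(deriv g z / g z)) = 0 := by
      field_simp
      ring
    rw [← h3']
    exact h3
  have h4 : DifferentiableOn ℂ (fun z => g z * Complex.exp (-v z)) (Metric.ball c r) :=
    fun z hz => (h2 z hz).differentiableAt.differentiableWithinAt
  obtain ⟨a, ha⟩ := Metric.isOpen_ball.exists_is_const_of_fderiv_eq_zero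
    (convex_ball c r).isPreconnected h4 (fun z hz => by
      rw [Pi.zero_apply]
      have := (h2 z hz).hasFDerivAt.fderiv
      rw [this]
      ext
      simp)
  obtain ⟨b, hb⟩ := IsAlgClosed.exists_pow_nat_eq a (n := 2) (by norm_num)
  refine ⟨fun z => b * Complex.exp (v z / 2), fun z hz => ?_, fun z hz => ?_⟩
  · have hva : AnalyticAt ℂ v z := by
      rw [Complex.analyticAt_iff_eventually_differentiableAt]
      filter_upwards [Metric.isOpen_ball.mem_nhds hz] with w hw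
      exact (hv w hw).differentiableAt
    fun_prop
  · have h5 : g z * Complex.exp (-v z) = a := ha z hz
    rw [mul_pow, hb, ← h5, ← Complex.exp_nat_mul, mul_assoc, ← Complex.exp_add]
    have : -v z + ((2 : ℕ) : ℂ) * (v z / 2) = 0 := by push_cast; ring
    rw [this, Complex.exp_zero, mul_one]

/-- The discs which exhaust the half plane. -/
private def M06_B (n : ℕ) : Set ℂ := ((↑) : ℍ → ℂ) '' Metric.ball (I : ℍ) (n + 1)

private lemma M06_B_ball (n : ℕ) : ∃ (c : ℂ) (r : ℝ), M06_B n = Metric.ball c r :=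
  ⟨_, _, image_coe_ball _ _⟩

private lemma M06_B_open (n : ℕ) : IsOpen (M06_B n) := by
  obtain ⟨c, r, h⟩ := M06_B_ball n
  rw [h]
  exact Metric.isOpen_ball

private lemma M06_B_preconn (n : ℕ) : IsPreconnected (M06_B n) := by
  obtain ⟨c, r, h⟩ := M06_B_ball n
  rw [h]
  exact (convex_ball c r).isPreconnected

private lemma M06_B_I (n : ℕ) : (I : ℂ) ∈ M06_B n := ⟨I, by simp; positivity, rfl⟩

private lemma M06_B_mono {n m : ℕ} (h : n ≤ m) : M06_B n ⊆ M06_B m := by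
  apply Set.image_mono
  apply Metric.ball_subset_ball
  have : (n : ℝ) ≤ m := by exact_mod_cast h
  linarith

private lemma M06_B_pos {n : ℕ} {z : ℂ} (h : z ∈ M06_B n) : 0 < z.im := by
  obtain ⟨w, -, rfl⟩ := h
  exact w.im_pos

private lemma M06_B_exists (z : ℍ) : ∃ n, (z : ℂ) ∈ M06_B n := by
  obtain ⟨n, hn⟩ := exists_nat_gt (dist z I)
  exact ⟨n, z, by rw [Metric.mem_ball]; linarith, rfl⟩

/-- The square root on a disc. -/
private lemma M06_local (f : ℂ → ℂ) (hf : ∀ z : ℂ, 0 < z.im → MeromorphicAt f z)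
    (hord : ∀ z : ℂ, 0 < z.im → ∃ n : ℤ, meromorphicOrderAt f z = ((2 * n : ℤ) : WithTop ℤ))
    (n : ℕ) : ∃ H : ℂ → ℂ, (∀ z ∈ M06_B n, MeromorphicAt H z) ∧
      ∀ z ∈ M06_B n, ∀ᶠ w in 𝓝[≠] z, H w ^ 2 = f w := by
  set K : Set ℂ := ((↑) : ℍ → ℂ) '' Metric.closedBall (I : ℍ) (n + 1) with hK
  have hKc : IsCompact K := by
    rw [hK, image_coe_closedBall]
    exact isCompact_closedBall _ _
  have hKpos : ∀ z ∈ K, 0 < z.im := by
    rintro _ ⟨w, -, rfl⟩
    exact w.im_pos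
  have hBK : M06_B n ⊆ K := Set.image_mono Metric.ball_subset_closedBall
  have hKm : MeromorphicOn f K := fun z hz => hf z (hKpos z hz)
  have hfin : (MeromorphicOn.divisor f K).support.Finite :=
    (MeromorphicOn.divisor f K).finiteSupport hKc
  obtain ⟨g, hg, hg0, hfg⟩ := hKm.extract_zeros_poles (fun u => by
    obtain ⟨m, hm⟩ := hord u (hKpos u u.2)
    rw [hm]
    exact WithTop.coe_ne_top) hfin
  obtain ⟨c, r, hB⟩ := M06_B_ball n
  obtain ⟨s, hs, hs2⟩ := M06_sqrt_ball (g := g) (c := c) (r := r)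
    (fun z hz => hg z (hBK (hB ▸ hz))) (fun z hz => hg0 ⟨z, hBK (hB ▸ hz)⟩)
  -- the rational factor
  set D := MeromorphicOn.divisor f K with hD
  have heven : ∀ u, ∃ e : ℤ, D u = 2 * e := by
    intro u
    by_cases hu : u ∈ K
    · obtain ⟨m, hm⟩ := hord u (hKpos u hu)
      refine ⟨m, ?_⟩
      rw [hD, MeromorphicOn.divisor_apply hKm hu, hm]
      simp
    · exact ⟨0, by rw [hD, MeromorphicOn.divisor_def, if_neg (by tauto), mul_zero]⟩
  choose e he using heven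
  set q : ℂ → ℂ := fun w => ∏ u ∈ hfin.toFinset, (w - u) ^ e u with hq
  have hprod : ∀ w, (∏ᶠ u, (fun w : ℂ => w - u) ^ D u) w = q w ^ 2 := by
    intro w
    rw [finprod_eq_prod_of_mulSupport_subset (s := hfin.toFinset)]
    · rw [hq, Finset.prod_apply]
      simp only
      rw [← Finset.prod_pow]
      refine Finset.prod_congr rfl fun u _ => ?_
      rw [Pi.pow_apply, he u, ← zpow_natCast, ← zpow_mul, mul_comm (e u)]
      rfl
    · intro u hu
      rw [Set.Finite.coe_toFinset, Function.mem_support]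
      intro h0
      apply hu
      simp only
      rw [h0, zpow_zero]
  have hqm : ∀ z, MeromorphicAt q z := by
    intro z
    rw [hq]
    exact MeromorphicAt.fun_prod (fun u => by fun_prop)
  refine ⟨fun w => q w * s w, fun z hz => (hqm z).mul (hs z (hB ▸ hz)).meromorphicAt, ?_⟩
  intro z hz
  have hzK := hBK hz
  rw [EventuallyEq, Filter.Eventually, mem_codiscreteWithin] at hfg
  have h1 := hfg z hzK
  rw [disjoint_principal_right] at h1
  filter_upwards [h1, mem_nhdsWithin_of_mem_nhds ((M06_B_open n).mem_nhds hz)] with w hw hwB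
  have h2 : f w = (∏ᶠ u, (fun w : ℂ => w - u) ^ D u) w * g w := by
    by_contra hcon
    exact hw ⟨hBK hwB, hcon⟩
  rw [h2, hprod, mul_pow, hs2 w (hB ▸ hwB)]

/-- Two roots agree or are opposite. -/
private lemma M06_sign {n : ℕ} {f H G : ℂ → ℂ} (hH : ∀ z ∈ M06_B n, MeromorphicAt H z)
    (hG : ∀ z ∈ M06_B n, MeromorphicAt G z) (hHf : ∀ᶠ w in 𝓝[≠] (I : ℂ), H w ^ 2 = f w)
    (hGf : ∀ᶠ w in 𝓝[≠] (I : ℂ), G w ^ 2 = f w) :
    (∀ᶠ w in 𝓝[≠] (I : ℂ), H w = G w) ∨ (∀ᶠ w in 𝓝[≠] (I : ℂ), -H w = G w) := by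
  have h1 := (hH _ (M06_B_I n)).sub (hG _ (M06_B_I n))
  rcases h1.eventually_eq_zero_or_eventually_ne_zero with h | h
  · left
    filter_upwards [h] with w hw
    exact sub_eq_zero.1 hw
  · right
    filter_upwards [h, hHf, hGf] with w hw h2 h3
    have h4 : (H w - G w) * (H w + G w) = 0 := by
      have : H w ^ 2 = G w ^ 2 := by rw [h2, h3]
      linear_combination this
    have h5 := (mul_eq_zero.1 h4).resolve_left hw
    linear_combination -h5

namespace Mer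

theorem exists_sqrt {F : Mer} (hF : F ≠ 0) (h : ∀ z, ∃ n : ℤ, ord z F = ((2 * n : ℤ) : WithTop ℤ)) :
    ∃ H : Mer, H ^ 2 = F := by
  obtain ⟨f, hf, rfl⟩ := exists_rep F
  have hf' : ∀ z : ℂ, 0 < z.im → MeromorphicAt (↑ₕf) z := fun z hz => hf ⟨z, hz⟩
  have hord : ∀ z : ℂ, 0 < z.im → ∃ n : ℤ,
      meromorphicOrderAt (↑ₕf) z = ((2 * n : ℤ) : WithTop ℤ) := by
    intro z hz
    obtain ⟨n, hn⟩ := h ⟨z, hz⟩
    rw [ord_mk] at hn
    exact ⟨n, hn⟩
  choose H0 hH0 hH0f using M06_local (↑ₕf) hf' hord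
  -- choose the signs
  have hsgn : ∀ n, ∃ G : ℂ → ℂ, (∀ z ∈ M06_B n, MeromorphicAt G z) ∧
      (∀ z ∈ M06_B n, ∀ᶠ w in 𝓝[≠] z, G w ^ 2 = (↑ₕf) w) ∧
      ∀ᶠ w in 𝓝[≠] (I : ℂ), G w = H0 0 w := by
    intro n
    rcases M06_sign (n := 0) (f := ↑ₕf) (H := H0 n) (G := H0 0)
      (fun z hz => hH0 n z (M06_B_mono (Nat.zero_le n) hz)) (hH0 0)
      (hH0f n _ (M06_B_I n)) (hH0f 0 _ (M06_B_I 0)) with h1 | h1
    · exact ⟨H0 n, hH0 n, hH0f n, h1⟩
    · refine ⟨fun w => -H0 n w, fun z hz => (hH0 n z hz).neg, fun z hz => ?_, h1⟩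
      filter_upwards [hH0f n z hz] with w hw
      rw [neg_sq, hw]
  choose G hG hGf hG0 using hsgn
  -- normal forms
  set N : ℕ → ℂ → ℂ := fun n => toMeromorphicNFOn (G n) (M06_B n) with hN
  have hNG : ∀ n, ∀ z ∈ M06_B n, N n =ᶠ[𝓝[≠] z] G n := fun n z hz =>
    MeromorphicOn.toMeromorphicNFOn_eq_self_on_nhdsNE (hG n) hz
  have hNF : ∀ n, MeromorphicNFOn (N n) (M06_B n) := fun n => meromorphicNFOn_toMeromorphicNFOn _ _
  have hagree : ∀ n m, n ≤ m → ∀ z ∈ M06_B n, N n z = N m z := by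
    intro n m hnm z hz
    have hsub := M06_B_mono hnm
    have hmer : MeromorphicOn (fun w => N n w - N m w) (M06_B n) := fun w hw =>
      ((hNF n).meromorphicOn w hw).sub ((hNF m).meromorphicOn w (hsub hw))
    have hI : meromorphicOrderAt (fun w => N n w - N m w) (I : ℂ) = ⊤ := by
      rw [meromorphicOrderAt_eq_top_iff]
      filter_upwards [hNG n _ (M06_B_I n), hNG m _ (M06_B_I m), hG0 n, hG0 m] with w h1 h2 h3 h4
      rw [h1, h2, h3, h4, sub_self]
    have hz' : meromorphicOrderAt (fun w => N n w - N m w) z = ⊤ := by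
      by_contra hcon
      exact hmer.meromorphicOrderAt_ne_top_of_isPreconnected (M06_B_preconn n) hz (M06_B_I n)
        hcon hI
    rw [meromorphicOrderAt_eq_top_iff] at hz'
    have h5 : N n =ᶠ[𝓝[≠] z] N m := by
      filter_upwards [hz'] with w hw
      exact sub_eq_zero.1 hw
    exact (((hNF n hz).eventuallyEq_nhdsNE_iff_eventuallyEq_nhds (hNF m (hsub hz))).1 h5).eq_of_nhds
  -- the global root
  classical
  set R : ℍ → ℂ := fun z => N (Nat.find (M06_B_exists z)) z with hR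
  have hRN : ∀ (n : ℕ) (z : ℍ), (z : ℂ) ∈ M06_B n → R z = N n z := fun n z hz =>
    hagree _ _ (Nat.find_min' (M06_B_exists z) hz) _ (Nat.find_spec (M06_B_exists z))
  have hRN' : ∀ (n : ℕ) (z : ℂ), z ∈ M06_B n → (↑ₕR) =ᶠ[𝓝 z] N n := by
    intro n z hz
    filter_upwards [(M06_B_open n).mem_nhds hz] with w hw
    have hw' := M06_B_pos hw
    have h6 := hRN n ⟨w, hw'⟩ hw
    simp only [Function.comp]
    rw [ofComplex_apply_of_im_pos hw']
    exact h6
  have hRm : IsMero R := by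
    intro z
    obtain ⟨n, hn⟩ := M06_B_exists z
    exact ((hNF n).meromorphicOn _ hn).congr
      ((hRN' n _ hn).symm.filter_mono nhdsWithin_le_nhds)
  refine ⟨mk R hRm, ?_⟩
  rw [sq, mk_mul, mk_eq_mk, eventually_codiscrete_iff]
  intro z
  obtain ⟨n, hn⟩ := M06_B_exists z
  filter_upwards [(hRN' n _ hn).filter_mono nhdsWithin_le_nhds, hNG n _ hn, hGf n _ hn] with
    w h1 h2 h3
  have h4 : R (ofComplex w) = N n w := h1
  have h5 : (↑ₕf) w = f (ofComplex w) := rfl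
  rw [h4, h2, ← sq, h3, h5]

end Mer

end Pool.Agent.Lib.MP_b9289b_nt
end
end

section

/-!
# G02: the function `S` with `S² = u`

`exists_S`: all orders of `u` are even by `IsOrb.cases` (in the last case `ord z u = 0` by
`HasVal.ord_eq_zero` as `c ≠ 0`; in the others use `HasVal`), so `exists_sqrt` applies.
`S_ram`: e.g. at a point with `ord (u - a²) = 2`: `(S - a)(S + a) = u - a²`; `S` has order `0`,
hence a value `v` with `v² = a²`, so `v = ± a`; then `ord (S - v) = 2` since `ord (S + v) = 0`.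
In the last case `S` has the value `v`, `v² = c`, `v ≠ 0`, `ord (S - v) = 1`.
-/

open UpperHalfPlane Filter Topology MatrixGroups
open scoped ContDiff ComplexConjugate

noncomputable section

namespace Pool.Agent.Lib.MP_b9289b_nt

open Mer

variable {t : ℝ} {κ : Mer}

private theorem aa_ne (ht : 1 < t) : (aa t : ℂ) ≠ 0 := by
  exact_mod_cast (aa_pos ht).ne'

private theorem bb_ne (ht : 1 < t) : (bb t : ℂ) ≠ 0 := by
  exact_mod_cast (bb_pos ht).ne'

private theorem two_pos' : (0 : WithTop ℤ) < 2 := by exact_mod_cast (by norm_num : (0 : ℤ) < 2)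

private theorem one_pos' : (0 : WithTop ℤ) < 1 := by exact_mod_cast (by norm_num : (0 : ℤ) < 1)

private theorem uu_ne_zero (h : IsOrb t κ) : uu t κ ≠ 0 := by
  have h1 := h.uu_ne_cst 0
  rwa [map_zero] at h1

lemma IsOrb.exists_S (h : IsOrb t κ) : ∃ S : Mer, S ^ 2 = uu t κ := by
  have ha := aa_ne h.ht
  have hb := bb_ne h.ht
  have h0 : ∀ (z : ℍ) (c : ℂ), c ≠ 0 → HasVal z (uu t κ) c →
      ∃ n : ℤ, ord z (uu t κ) = ((2 * n : ℤ) : WithTop ℤ) := by
    intro z c hc hv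
    refine ⟨0, ?_⟩
    rw [hv.ord_eq_zero hc]
    rfl
  refine exists_sqrt (uu_ne_zero h) fun z => ?_
  rcases h.cases z with ⟨-, h1⟩ | ⟨-, h1⟩ | ⟨-, h1⟩ | ⟨-, h1⟩ | ⟨-, h1⟩ | ⟨c, -, -, -, hc, h1⟩
  · refine h0 z ((aa t : ℂ) ^ 2) (pow_ne_zero _ ha) ?_
    change 0 < ord z _
    rw [h1]
    exact two_pos'
  · exact ⟨-1, by rw [h1]; rfl⟩
  · refine h0 z 1 one_ne_zero ?_
    change 0 < ord z _
    rw [map_one, h1]
    exact two_pos'
  · refine h0 z (-(bb t : ℂ) ^ 2) (neg_ne_zero.2 (pow_ne_zero _ hb)) ?_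
    change 0 < ord z _
    rw [map_neg, sub_neg_eq_add, h1]
    exact two_pos'
  · exact ⟨1, by rw [h1]; rfl⟩
  · refine h0 z c hc ?_
    change 0 < ord z _
    rw [h1]
    exact one_pos'

variable {S : Mer}

private theorem ord_sqrt (h : IsOrb t κ) (hS : S ^ 2 = uu t κ) (z : ℍ) :
    ∃ n : ℤ, ord z S = (n : WithTop ℤ) ∧ ord z (uu t κ) = ((2 * n : ℤ) : WithTop ℤ) := by
  have hS0 : S ≠ 0 := by
    rintro rfl
    apply uu_ne_zero h
    rw [← hS]
    exact zero_pow two_ne_zero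
  obtain ⟨n, hn⟩ := exists_ord (z := z) hS0
  refine ⟨n, hn, ?_⟩
  rw [← hS, ord_pow, hn]
  rfl

/-- The order of `S` at a point where `S²` has the value `v²`, `v ≠ 0`. -/
private theorem ord_sub_sqrt (h : IsOrb t κ) (hS : S ^ 2 = uu t κ) (z : ℍ) (v : ℂ) (hv : v ≠ 0)
    (m : WithTop ℤ) (hm : 0 < m) (hu : ord z (uu t κ - cst (v ^ 2)) = m) :
    ord z (S - cst v) = m ∨ ord z (S - cst (-v)) = m := by
  have hval : HasVal z (uu t κ) (v ^ 2) := by
    change 0 < ord z _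
    rw [hu]
    exact hm
  have h0 := hval.ord_eq_zero (pow_ne_zero _ hv)
  obtain ⟨n, hn, hn'⟩ := ord_sqrt h hS z
  have hn0 : n = 0 := by
    rw [h0] at hn'
    have h1 : (0 : ℤ) = 2 * n := by exact_mod_cast hn'
    omega
  rw [hn0] at hn
  obtain ⟨w, hw⟩ := exists_val (z := z) (F := S) (by rw [hn]; rfl)
  have hw2 : w ^ 2 = v ^ 2 := by
    have h1 := hw.pow 2
    rw [hS] at h1
    exact h1.unique hval
  have hfac : uu t κ - cst (v ^ 2) = (S - cst v) * (S - cst (-v)) := by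
    rw [← hS, map_pow, map_neg]
    ring
  rw [hfac, ord_mul] at hu
  have hvv : v ≠ -v := fun h1 => hv (self_eq_neg.1 h1)
  rcases sq_eq_sq_iff_eq_or_eq_neg.1 hw2 with rfl | rfl
  · left
    rw [hw.ord_sub hvv, add_zero] at hu
    exact hu
  · right
    rw [hw.ord_sub hvv.symm, zero_add] at hu
    exact hu

private theorem sq_of_mem {x : ℂ} (hx : x ∈ specS t) :
    x ^ 2 = 1 ∨ x ^ 2 = (aa t : ℂ) ^ 2 ∨ x ^ 2 = -(bb t : ℂ) ^ 2 := by
  have hI : (Complex.I * bb t) ^ 2 = -(bb t : ℂ) ^ 2 := by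
    rw [mul_pow, Complex.I_sq]
    ring
  rcases hx with rfl | rfl | rfl | rfl | rfl | rfl
  · left; norm_num
  · left; norm_num
  · right; left; rfl
  · right; left; ring
  · right; right; exact hI
  · right; right
    rw [neg_sq]
    exact hI

private theorem ne_zero_of_mem (ht : 1 < t) {x : ℂ} (hx : x ∈ specS t) : x ≠ 0 := by
  rintro rfl
  rcases sq_of_mem hx with h | h | h
  · norm_num at h
  · exact pow_ne_zero 2 (aa_ne ht) (by rw [← h]; norm_num)
  · exact pow_ne_zero 2 (bb_ne ht) (by rw [← neg_eq_zero, ← h]; norm_num)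

lemma IsOrb.S_ram (h : IsOrb t κ) (hS : S ^ 2 = uu t κ) (z : ℍ) :
    ord z S = -1 ∨ (∃ c ∈ specS t, ord z (S - cst c) = 2) ∨
    (∃ c, c ∉ specS t ∧ ord z (S - cst c) = 1) := by
  have ha := aa_ne h.ht
  have hb := bb_ne h.ht
  rcases h.cases z with ⟨-, h1⟩ | ⟨-, h1⟩ | ⟨-, h1⟩ | ⟨-, h1⟩ | ⟨-, h1⟩ |
    ⟨c, hc1, hca, hcb, hc, h1⟩
  · right; left
    rcases ord_sub_sqrt h hS z (aa t) ha 2 two_pos' h1 with h2 | h2
    · exact ⟨_, by simp [specS], h2⟩
    · exact ⟨_, by simp [specS], h2⟩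
  · left
    obtain ⟨n, hn, hn'⟩ := ord_sqrt h hS z
    rw [h1] at hn'
    have h2 : (-2 : ℤ) = 2 * n :=
      WithTop.coe_injective (show ((-2 : ℤ) : WithTop ℤ) = ((2 * n : ℤ) : WithTop ℤ) from hn')
    have h3 : n = -1 := by omega
    rw [hn, h3]
    rfl
  · right; left
    have h1' : ord z (uu t κ - cst (1 ^ 2)) = 2 := by rw [one_pow, map_one, h1]
    rcases ord_sub_sqrt h hS z 1 one_ne_zero 2 two_pos' h1' with h2 | h2
    · exact ⟨_, by simp [specS], h2⟩
    · exact ⟨_, by simp [specS], h2⟩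
  · right; left
    have h1' : ord z (uu t κ - cst ((Complex.I * bb t) ^ 2)) = 2 := by
      rw [mul_pow, Complex.I_sq, neg_one_mul, map_neg, sub_neg_eq_add, h1]
    rcases ord_sub_sqrt h hS z (Complex.I * bb t) (mul_ne_zero Complex.I_ne_zero hb) 2 two_pos'
      h1' with h2 | h2
    · exact ⟨_, by simp [specS], h2⟩
    · exact ⟨_, by simp [specS], h2⟩
  · right; right
    refine ⟨0, fun h2 => ne_zero_of_mem h.ht h2 rfl, ?_⟩
    obtain ⟨n, hn, hn'⟩ := ord_sqrt h hS z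
    rw [h1] at hn'
    have h2 : (2 : ℤ) = 2 * n :=
      WithTop.coe_injective (show ((2 : ℤ) : WithTop ℤ) = ((2 * n : ℤ) : WithTop ℤ) from hn')
    have h3 : n = 1 := by omega
    rw [map_zero, sub_zero, hn, h3]
    rfl
  · right; right
    obtain ⟨v, hv⟩ : ∃ v : ℂ, v ^ 2 = c := ⟨c ^ ((1 : ℂ) / 2), by
      rw [← Complex.cpow_nat_mul]
      norm_num⟩
    have hv0 : v ≠ 0 := by
      rintro rfl
      exact hc (by rw [← hv]; norm_num)
    have hns : ∀ x : ℂ, x ^ 2 = c → x ∉ specS t := by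
      intro x hx hx'
      rcases sq_of_mem hx' with h2 | h2 | h2
      · exact hc1 (hx.symm.trans h2)
      · exact hca (hx.symm.trans h2)
      · exact hcb (hx.symm.trans h2)
    rw [← hv] at h1
    rcases ord_sub_sqrt h hS z v hv0 1 one_pos' h1 with h2 | h2
    · exact ⟨v, hns v hv, h2⟩
    · exact ⟨-v, hns (-v) (by rw [neg_sq, hv]), h2⟩

lemma IsOrb.S_ne_cst (h : IsOrb t κ) (hS : S ^ 2 = uu t κ) (c : ℂ) : S ≠ cst c := by
  rintro rfl
  apply h.uu_ne_cst (c ^ 2)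
  rw [← hS, map_pow]

/-- Elements fixing `κ` map `S` to `± S`. -/
lemma IsOrb.actS_S (h : IsOrb t κ) (hS : S ^ 2 = uu t κ) {g : GL (Fin 2) ℝ} (hg : act g κ = κ) :
    act g S = S ∨ act g S = -S := by
  rw [← sq_eq_sq_iff_eq_or_eq_neg, ← map_pow, hS, act_uu hg]

/-- Special points of `κ`. -/
private theorem special_or (h : IsOrb t κ) (z : ℍ) :
    (Mer.ord z κ = -2 ∨ ∃ c ∈ specK t, Mer.ord z (κ - Mer.cst c) = 2) ∨
    (∃ c, c ≠ 1 ∧ c ≠ (aa t : ℂ) ^ 2 ∧ c ≠ -(bb t : ℂ) ^ 2 ∧ c ≠ 0 ∧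
      ord z (uu t κ - cst c) = 1) := by
  rcases h.cases z with ⟨h1, -⟩ | ⟨h1, -⟩ | ⟨h1, -⟩ | ⟨h1, -⟩ | ⟨h1, -⟩ | h1
  · exact Or.inl (Or.inl h1)
  · exact Or.inl (Or.inr ⟨2, by simp [specK], h1⟩)
  · exact Or.inl (Or.inr ⟨-2, by simp [specK], by rw [map_neg, sub_neg_eq_add, h1]⟩)
  · exact Or.inl (Or.inr ⟨2 * ss t, by simp [specK], h1⟩)
  · exact Or.inl (Or.inr ⟨-(2 * ss t), by simp [specK], by rw [map_neg, sub_neg_eq_add, h1]⟩)
  · exact Or.inr h1

/-- `rot`: take `γ` from `IsOrb.rot` (`c ≠ 0`, so `κ` is special at `z` by `IsOrb.cases`);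
`actS γ S = S` since `S` has the value `c ≠ 0` at `z` (`HasVal.actS`, `HasVal.unique`);
`IsRot` by `isRot_of_ord_two`. -/
lemma IsOrb.S_rot (h : IsOrb t κ) (hS : S ^ 2 = uu t κ) (z : ℍ) (c : ℂ) (hc : c ∈ specS t)
    (hz : ord z (S - cst c) = 2) : ∃ γ : SL(2, ℝ), actS γ κ = κ ∧ actS γ S = S ∧ IsRot γ z := by
  have hc0 := ne_zero_of_mem h.ht hc
  have hval : HasVal z S c := by
    change 0 < ord z _
    rw [hz]
    exact two_pos'
  have hspec : Mer.ord z κ = -2 ∨ ∃ c ∈ specK t, Mer.ord z (κ - Mer.cst c) = 2 := by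
    rcases special_or h z with h1 | ⟨c', h1, h2, h3, -, h5⟩
    · exact h1
    · exfalso
      have hval' : HasVal z (uu t κ) c' := by
        change 0 < ord z _
        rw [h5]
        exact one_pos'
      have hval2 := hval.pow 2
      rw [hS] at hval2
      have h6 := hval'.unique hval2
      rcases sq_of_mem hc with h7 | h7 | h7
      · exact h1 (h6.trans h7)
      · exact h2 (h6.trans h7)
      · exact h3 (h6.trans h7)
  obtain ⟨γ, hγ, hγz, hγ1, hγ2⟩ := h.rot z hspec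
  have hS' : actS γ S = S := by
    rcases h.actS_S hS (g := (γ : GL (Fin 2) ℝ)) hγ with h1 | h1
    · exact h1
    · exfalso
      have h2 : HasVal z (actS γ S) c := by
        apply HasVal.actS
        rw [hγz]
        exact hval
      rw [actS_def, h1] at h2
      have h3 := h2.unique hval.neg
      exact hc0 (self_eq_neg.1 h3)
  refine ⟨γ, hγ, hS', isRot_of_ord_two hγz hγ1 hγ2 (F := S - cst c) (Or.inl hz) ?_⟩
  rw [map_sub, actS_cst, hS']

/-- `rot'`: `ord z S = ± 1` means `κ = 2` or `κ = -2s` at `z`; `γ` from `IsOrb.rot` is a rotation;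
it does not fix `S` by `IsRot.even`. -/
lemma IsOrb.S_rot' (h : IsOrb t κ) (hS : S ^ 2 = uu t κ) (z : ℍ)
    (hz : ord z S = -1 ∨ ord z S = 1) :
    ∃ γ : SL(2, ℝ), actS γ κ = κ ∧ actS γ S = -S ∧ IsRot γ z := by
  have hspec : Mer.ord z κ = -2 ∨ ∃ c ∈ specK t, Mer.ord z (κ - Mer.cst c) = 2 := by
    rcases special_or h z with h1 | ⟨c', -, -, -, h4, h5⟩
    · exact h1
    · exfalso
      have hval' : HasVal z (uu t κ) c' := by
        change 0 < ord z _
        rw [h5]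
        exact one_pos'
      have h0 := hval'.ord_eq_zero h4
      obtain ⟨n, hn, hn'⟩ := ord_sqrt h hS z
      rw [h0] at hn'
      have h1 : (0 : ℤ) = 2 * n := by exact_mod_cast hn'
      have h2 : n = 0 := by omega
      rw [hn, h2] at hz
      rcases hz with hz | hz
      · have h3 : (0 : ℤ) = -1 :=
          WithTop.coe_injective (show ((0 : ℤ) : WithTop ℤ) = ((-1 : ℤ) : WithTop ℤ) from hz)
        omega
      · have h3 : (0 : ℤ) = 1 := by exact_mod_cast hz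
        omega
  obtain ⟨γ, hγ, hγz, hγ1, hγ2⟩ := h.rot z hspec
  rcases h.actS_S hS (g := (γ : GL (Fin 2) ℝ)) hγ with h1 | h1
  · exfalso
    rcases trivial_of_ord_one hγz (F := S) hz.symm h1 with h2 | h2
    · exact hγ1 h2
    · exact hγ2 h2
  · exact ⟨γ, hγ, h1, isRot_of_ord_one hγz (F := S) hz.symm h1⟩

end Pool.Agent.Lib.MP_b9289b_nt
end
end

section

/-!
# G03: from `κ` to `S`

Take `S` from `exists_S`, `D := actS r S` with `r` from `IsOrb.exists_r`.  There is `ν` with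
`actS ν κ = κ`, `actS ν S = -S`: `S` or `κ`... `u` is nonconstant and invariant under
`fixer {κ}`, so it has a pole (`exists_pole`), there `ord S = -1`, use `S_rot'`.
Cocompactness of `fixer {S}`: `Cocompact.of_finite` with the set `{1, ν}`.
`exists_r`: `actS r D = actS (r * r) S` and `r * r` fixes `κ`.
`exists_c`: `g` from `IsOrb.exists_c`, or `g * ν`.
-/

open UpperHalfPlane Filter Topology MatrixGroups
open scoped ContDiff ComplexConjugate

noncomputable section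

namespace Pool.Agent.Lib.MP_b9289b_nt

open Mer

theorem IsOrb.exists_isS {t : ℝ} {κ : Mer} (h : IsOrb t κ) : ∃ S D : Mer, IsS t S D := by
  obtain ⟨S, hS⟩ := h.exists_S
  obtain ⟨r, hr⟩ := h.exists_r
  have huK : uu t κ ∈ Kf (fixer {κ}) := fun γ hγ => act_uu (hγ κ rfl)
  obtain ⟨z, hz⟩ := exists_pole h.cocompact huK h.uu_ne_cst
  have hz1 : ord z S = -1 := by
    have key : ∀ c, 0 < ord z (S - cst c) → False := by
      intro c hc
      have h1 : HasVal z S c := hc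
      have h2 := (h1.pow 2).ord_nonneg
      rw [hS] at h2
      exact absurd hz (not_lt.2 h2)
    rcases h.S_ram hS z with h1 | ⟨c, -, h1⟩ | ⟨c, -, h1⟩
    · exact h1
    · exact (key c (by rw [h1]; decide)).elim
    · exact (key c (by rw [h1]; decide)).elim
  obtain ⟨ν, hνκ, hνS, -⟩ := h.S_rot' hS z (Or.inl hz1)
  refine ⟨S, actS r S, ?_⟩
  refine
    { ht := h.ht
      ram := h.S_ram hS
      rot := ?_
      rot' := ?_
      cocompact := ?_
      exists_r := ?_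
      exists_c := ?_
      eqD := ?_ }
  · intro w c hc hw
    obtain ⟨γ, -, h1, h2⟩ := h.S_rot hS w c hc hw
    exact ⟨γ, h1, h2⟩
  · intro w hw
    obtain ⟨γ, -, h1, h2⟩ := h.S_rot' hS w hw
    exact ⟨γ, h1, h2⟩
  · refine h.cocompact.of_finite {1, ν} (Set.toFinite _) fun γ hγ => ?_
    have hγκ : actS γ κ = κ := hγ κ rfl
    rcases h.actS_S hS (g := (γ : GL (Fin 2) ℝ)) hγκ with h1 | h1
    · refine ⟨1, by simp, ?_⟩
      rw [one_mul]
      rintro F hF
      rw [Set.mem_singleton_iff.1 hF]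
      exact h1
    · refine ⟨ν, by simp, ?_⟩
      rintro F hF
      rw [Set.mem_singleton_iff.1 hF, actS_mul, hνS, map_neg, actS_def, h1, neg_neg]
  · refine ⟨r, rfl, ?_⟩
    rw [← actS_mul]
    refine h.actS_S hS (g := ((r * r : SL(2, ℝ)) : GL (Fin 2) ℝ)) ?_
    rw [← actS_def, actS_mul, hr, map_neg, hr, neg_neg]
  · obtain ⟨g, hg, hgκ⟩ := h.exists_c
    rcases h.actS_S hS hgκ with h1 | h1
    · exact ⟨g, hg, h1⟩
    · refine ⟨g * (ν : GL (Fin 2) ℝ), ?_, ?_⟩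
      · simpa using hg
      · rw [act_mul, h1, map_neg, ← actS_def, hνS, neg_neg]
  · rw [← map_pow, hS]
    exact h.actS_r_uu hr

end Pool.Agent.Lib.MP_b9289b_nt
end
end

section

/-!
# M10: differential forms
`jac γ` is the meromorphic function `(denom γ z)^2`, the inverse of the derivative of `γ`.
`der (F ∘ γ) = (F' ∘ γ) * γ'` (chain rule, `UpperHalfPlane.hasStrictDerivAt_smul`).
-/

open UpperHalfPlane Filter Topology MatrixGroups
open scoped ContDiff ComplexConjugate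

noncomputable section

namespace Pool.Agent.Lib.MP_b9289b_nt

private lemma ev_coe_ofComplex (z : ℍ) : ∀ᶠ w in 𝓝 (z : ℂ), ((ofComplex w : ℍ) : ℂ) = w := by
  filter_upwards [isOpen_upperHalfPlaneSet.mem_nhds z.im_pos] with w hw
  rw [ofComplex_apply_of_im_pos hw]

lemma isHol_denom_sq (γ : SL(2, ℝ)) : IsHol (fun z : ℍ => denom (γ : GL (Fin 2) ℝ) z ^ 2) := by
  intro z
  have h1 : DifferentiableAt ℂ (fun w : ℂ => denom (γ : GL (Fin 2) ℝ) w ^ 2) (z : ℂ) := by
    unfold denom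
    fun_prop
  refine h1.congr_of_eventuallyEq ?_
  filter_upwards [ev_coe_ofComplex z] with w hw
  simp only [Function.comp, hw]

/-- The automorphy factor `(c z + d)^2`. -/
def jac (γ : SL(2, ℝ)) : Mer := Mer.mk _ (isHol_denom_sq γ).isMero

private lemma hasVal_jac (γ : SL(2, ℝ)) (z : ℍ) :
    Mer.HasVal z (jac γ) (denom (γ : GL (Fin 2) ℝ) z ^ 2) :=
  Mer.hasVal_mk (isHol_denom_sq γ) z

private lemma ord_jac_aux (γ : SL(2, ℝ)) (z : ℍ) : Mer.ord z (jac γ) = 0 :=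
  (hasVal_jac γ z).ord_eq_zero (pow_ne_zero 2 (denom_ne_zero _ z))

lemma jac_ne_zero (γ : SL(2, ℝ)) : jac γ ≠ 0 := by
  intro h
  have h1 := ord_jac_aux γ I
  rw [h, Mer.ord_zero] at h1
  exact absurd h1 (by simp)

lemma ord_jac (γ : SL(2, ℝ)) (z : ℍ) : Mer.ord z (jac γ) = 0 := ord_jac_aux γ z

private lemma ev_analytic {f : ℍ → ℂ} (hf : IsMero f) :
    ∀ᶠ z in codiscrete ℍ, AnalyticAt ℂ (↑ₕf) ((z : ℍ) : ℂ) := by
  rw [eventually_codiscrete_iff]
  intro z
  have h3 : ∀ᶠ w in 𝓝[≠] (z : ℂ), ((ofComplex w : ℍ) : ℂ) = w :=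
    (ev_coe_ofComplex z).filter_mono nhdsWithin_le_nhds
  filter_upwards [(hf z).eventually_analyticAt, h3] with w hw hw3
  rw [hw3]
  exact hw

private lemma det_sl (γ : SL(2, ℝ)) : (γ : GL (Fin 2) ℝ).val.det = 1 := by simp

/-- Chain rule. -/
lemma actS_der (γ : SL(2, ℝ)) (F : Mer) :
    Mer.actS γ (Mer.der F) = jac γ * Mer.der (Mer.actS γ F) := by
  obtain ⟨f, hf, rfl⟩ := Mer.exists_rep F
  rw [Mer.der_mk, Mer.actS_mk, Mer.actS_mk, Mer.der_mk, jac, Mer.mk_mul, Mer.mk_eq_mk]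
  have h1 := (tendsto_smul_codiscrete (γ : GL (Fin 2) ℝ)).eventually (ev_analytic hf)
  filter_upwards [h1] with z hz
  have h2 := (hasStrictDerivAt_smul (g := (γ : GL (Fin 2) ℝ)) (by simp) z).hasDerivAt
  rw [det_sl] at h2
  have h3 : ((((γ : GL (Fin 2) ℝ) • ofComplex (z : ℂ) : ℍ)) : ℂ) =
      (((γ : GL (Fin 2) ℝ) • z : ℍ) : ℂ) := by simp
  have h4 := hz.differentiableAt.hasDerivAt
  rw [← h3] at h4
  have h5 := HasDerivAt.comp (z : ℂ) h4 h2
  have h6 : deriv (↑ₕ(fun z : ℍ => f (γ • z))) (z : ℂ) =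
      deriv (↑ₕf) ((((γ : GL (Fin 2) ℝ) • z : ℍ)) : ℂ) *
        (((1 : ℝ) : ℂ) / denom (γ : GL (Fin 2) ℝ) z ^ 2) := by
    rw [← h3, ← h5.deriv]
    apply Filter.EventuallyEq.deriv_eq
    refine Eventually.of_forall fun w => ?_
    simp only [Function.comp, ofComplex_apply]
    rfl
  rw [h6]
  have h7 : denom (γ : GL (Fin 2) ℝ) z ≠ 0 := denom_ne_zero _ z
  have h8 : (γ • z : ℍ) = (γ : GL (Fin 2) ℝ) • z := rfl
  rw [h8]
  field_simp
  simp

private lemma isHol_smul (γ : SL(2, ℝ)) {f : ℍ → ℂ} (hf : IsHol f) :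
    IsHol (fun z => f (γ • z)) := by
  intro z
  have h2 := (hasStrictDerivAt_smul (g := (γ : GL (Fin 2) ℝ)) (by simp) z).hasDerivAt
  have h3 : ((((γ : GL (Fin 2) ℝ) • ofComplex (z : ℂ) : ℍ)) : ℂ) =
      (((γ : GL (Fin 2) ℝ) • z : ℍ) : ℂ) := by simp
  have h4 := (hf ((γ : GL (Fin 2) ℝ) • z)).hasDerivAt
  rw [← h3] at h4
  have h5 := HasDerivAt.comp (z : ℂ) h4 h2
  refine h5.differentiableAt.congr_of_eventuallyEq (Eventually.of_forall fun w => ?_)
  simp only [Function.comp, ofComplex_apply]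
  rfl

private lemma isHol_mul {f g : ℍ → ℂ} (hf : IsHol f) (hg : IsHol g) :
    IsHol (fun z => f z * g z) := fun z => (hf z).mul (hg z)

/-- Elements of `Omega Γ` as elements of `Mer`. -/
lemma mem_Omega_iff (Γ : Subgroup SL(2, ℝ)) (f : ℍ → ℂ) : f ∈ Omega Γ ↔
    ∃ hf : IsHol f, ∀ γ ∈ Γ, Mer.actS γ (Mer.mk f hf.isMero) = jac γ * Mer.mk f hf.isMero := by
  constructor
  · rintro ⟨hf, h⟩
    refine ⟨hf, fun γ hγ => ?_⟩
    rw [Mer.actS_mk, jac, Mer.mk_mul, Mer.mk_eq_mk]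
    exact Eventually.of_forall fun z => h γ hγ z
  · rintro ⟨hf, h⟩
    refine ⟨hf, fun γ hγ z => ?_⟩
    have h1 := h γ hγ
    rw [Mer.actS_mk, jac, Mer.mk_mul] at h1
    have h2 := Mer.hol_ext (isHol_smul γ hf) (isHol_mul (isHol_denom_sq γ) hf) h1
    exact congrFun h2 z

/-- A function `W ∈ Mer` without poles, transforming like a differential, comes from `Omega Γ`. -/
lemma exists_mem_Omega {Γ : Subgroup SL(2, ℝ)} {W : Mer} (h0 : ∀ z, 0 ≤ Mer.ord z W)
    (h : ∀ γ ∈ Γ, Mer.actS γ W = jac γ * W) :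
    ∃ (f : ℍ → ℂ) (hf : IsHol f), f ∈ Omega Γ ∧ Mer.mk f hf.isMero = W := by
  obtain ⟨f, hf, rfl⟩ := Mer.exists_hol h0
  exact ⟨f, hf, (mem_Omega_iff Γ f).2 ⟨hf, h⟩, rfl⟩

/-- At a rotation by `π` with `W ∘ γ * γ' = W` the function `W` vanishes. -/
lemma IsRot_pos_of_form {γ : SL(2, ℝ)} {z : ℍ} (hz : γ • z = z)
    (hγ : (denom (γ : GL (Fin 2) ℝ) z) ^ 2 = -1) {W : Mer} (h0 : 0 ≤ Mer.ord z W)
    (h : Mer.actS γ W = jac γ * W) : 1 ≤ Mer.ord z W := by
  obtain ⟨c, hc⟩ := Mer.exists_val h0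
  have h1 : Mer.HasVal (γ • z) W c := by rw [hz]; exact hc
  have h2 : Mer.HasVal z (Mer.actS γ W) c := h1.actS
  have h3 := hasVal_jac γ z
  rw [hγ] at h3
  have h4 := h3.mul hc
  rw [← h] at h4
  have h5 : c = -1 * c := h2.unique h4
  have h6 : c = 0 := by linear_combination h5 / 2
  rw [h6, Mer.hasVal_zero_iff] at hc
  generalize Mer.ord z W = x at hc ⊢
  induction x using WithTop.recTopCoe with
  | top => exact le_top
  | coe n =>
    have h7 : (0 : ℤ) < n := by exact_mod_cast hc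
    exact_mod_cast h7

end Pool.Agent.Lib.MP_b9289b_nt
end
end

section

/-!
# M11: primitives and periods

A holomorphic function on the convex set `{im > 0}` has a primitive
(`Convex.exists_forall_hasDerivWithinAt`); `period_eq` is the fundamental theorem of calculus along
the segment `seg γ` (`intervalIntegral.integral_eq_sub_of_hasDerivAt` or the `ContinuousOn`
version).  `primitive_smul`: the derivative of `z ↦ F (γ z) - F z` is `f (γ z)/(denom γ z)² - f z = 0`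
(chain rule: `UpperHalfPlane.hasStrictDerivAt_smul`), so it is constant `= period f γ` (its value at `I`).
-/

open UpperHalfPlane Filter Topology MatrixGroups
open scoped ContDiff ComplexConjugate

noncomputable section

namespace Pool.Agent.Lib.MP_b9289b_nt

/-- `F` is a primitive of `f`. -/
def IsPrim (F f : ℍ → ℂ) : Prop := ∀ z : ℍ, HasDerivAt (↑ₕF) (f z) (z : ℂ)

private lemma convex_uhp : Convex ℝ {z : ℂ | 0 < z.im} := convex_halfSpace_im_gt 0

private lemma isOpen_uhp : IsOpen {z : ℂ | 0 < z.im} := isOpen_upperHalfPlaneSet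

private lemma lift_apply (f : ℍ → ℂ) (z : ℍ) : (↑ₕf) (z : ℂ) = f z := by
  simp [Function.comp]

lemma exists_prim {f : ℍ → ℂ} (hf : IsHol f) : ∃ F, IsPrim F f := by
  have h1 : DifferentiableOn ℂ (↑ₕf) {z : ℂ | 0 < z.im} :=
    fun z hz => (hf ⟨z, hz⟩).differentiableWithinAt
  obtain ⟨g, hg⟩ := convex_uhp.exists_forall_hasDerivWithinAt h1
  refine ⟨fun z => g z, fun z => ?_⟩
  have h2 := (hg z z.im_pos).hasDerivAt (isOpen_uhp.mem_nhds z.im_pos)
  rw [lift_apply] at h2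
  refine h2.congr_of_eventuallyEq ?_
  filter_upwards [isOpen_uhp.mem_nhds z.im_pos] with w hw
  simp only [Function.comp]
  rw [ofComplex_apply_of_im_pos hw]

lemma IsPrim.isHol {F f : ℍ → ℂ} (h : IsPrim F f) : IsHol F :=
  fun z => (h z).differentiableAt

lemma IsPrim.period_eq {F f : ℍ → ℂ} (h : IsPrim F f) (hf : IsHol f) (γ : SL(2, ℝ)) :
    period f γ = F (γ • I) - F I := by
  have h1 : ∀ t ∈ Set.uIcc (0 : ℝ) 1, HasDerivAt (fun t : ℝ => (↑ₕF) (seg γ t))
      ((↑ₕf) (seg γ t) * (((γ • I : ℍ) : ℂ) - Complex.I)) t := by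
    intro t ht
    rw [Set.uIcc_of_le zero_le_one] at ht
    have h2 := h ⟨seg γ t, seg_im_pos γ ht.1 ht.2⟩
    have h3 : HasDerivAt (seg γ) (((γ • I : ℍ) : ℂ) - Complex.I) t := by
      have h4 : HasDerivAt (fun t : ℝ => (t : ℂ)) 1 t := Complex.ofRealCLM.hasDerivAt
      have h5 := ((h4.const_sub 1).mul_const Complex.I).add
        (h4.mul_const ((γ • I : ℍ) : ℂ))
      have h9 : -1 * Complex.I + 1 * ((γ • I : ℍ) : ℂ) = ((γ • I : ℍ) : ℂ) - Complex.I := by
        ring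
      rw [h9] at h5
      exact h5
    have h6 : f ⟨seg γ t, seg_im_pos γ ht.1 ht.2⟩ = (↑ₕf) (seg γ t) :=
      (lift_apply f ⟨seg γ t, seg_im_pos γ ht.1 ht.2⟩).symm
    rw [h6] at h2
    exact HasDerivAt.comp t (h₂ := ↑ₕF) (h := seg γ) h2 h3
  unfold period
  rw [intervalIntegral.integral_eq_sub_of_hasDerivAt h1 (intervalIntegrable_period hf γ)]
  have h7 : seg γ 1 = ((γ • I : ℍ) : ℂ) := by simp [seg]
  have h8 : seg γ 0 = ((I : ℍ) : ℂ) := by simp [seg]
  rw [h7, h8, lift_apply, lift_apply]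

private lemma det_pos (g : SL(2, ℝ)) : 0 < (g : GL (Fin 2) ℝ).val.det := by simp

private lemma toGL_smul (g : SL(2, ℝ)) (z : ℍ) : (g : GL (Fin 2) ℝ) • z = g • z := rfl

private lemma hasDerivAt_comp_smul {F f : ℍ → ℂ} (h : IsPrim F f) (g : SL(2, ℝ)) (z : ℍ) :
    HasDerivAt (↑ₕ(fun z : ℍ => F (g • z)))
      (f (g • z) / denom (g : GL (Fin 2) ℝ) z ^ 2) (z : ℂ) := by
  have h1 := (hasStrictDerivAt_smul (det_pos g) z).hasDerivAt
  have h2 := h (g • z)
  have h3 : (fun z ↦ (((g : GL (Fin 2) ℝ) • ofComplex z : ℍ) : ℂ) : ℂ → ℂ) (z : ℂ) =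
      ((g • z : ℍ) : ℂ) := by
    simp [toGL_smul]
  rw [← h3] at h2
  have h4 := HasDerivAt.comp (z : ℂ) (h₂ := ↑ₕF)
    (h := (fun z ↦ (((g : GL (Fin 2) ℝ) • ofComplex z : ℍ) : ℂ) : ℂ → ℂ)) h2 h1
  have h5 : f (g • z) * (((g : GL (Fin 2) ℝ).val.det : ℂ) / denom (g : GL (Fin 2) ℝ) z ^ 2) =
      f (g • z) / denom (g : GL (Fin 2) ℝ) z ^ 2 := by
    simp [div_eq_mul_inv]
  rw [h5] at h4
  refine h4.congr_of_eventuallyEq (Eventually.of_forall fun w => ?_)
  simp [Function.comp, toGL_smul]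

lemma IsPrim.smul {F f : ℍ → ℂ} (h : IsPrim F f) {Γ : Subgroup SL(2, ℝ)} (hf : f ∈ Omega Γ)
    {γ : SL(2, ℝ)} (hγ : γ ∈ Γ) (z : ℍ) : F (γ • z) = F z + period f γ := by
  have h1 : ∀ w : ℍ, HasDerivAt ((↑ₕ(fun z : ℍ => F (γ • z))) - (↑ₕF)) 0 (w : ℂ) := by
    intro w
    have h2 := (hasDerivAt_comp_smul h γ w).sub (h w)
    have h3 : f (γ • w) / denom (γ : GL (Fin 2) ℝ) w ^ 2 - f w = 0 := by
      rw [hf.2 γ hγ w]
      have h4 := denom_ne_zero (γ : GL (Fin 2) ℝ) w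
      field_simp
      ring
    rw [h3] at h2
    exact h2
  have h2 : ((↑ₕ(fun z : ℍ => F (γ • z))) - (↑ₕF)) (z : ℂ) =
      ((↑ₕ(fun z : ℍ => F (γ • z))) - (↑ₕF)) ((I : ℍ) : ℂ) := by
    refine isOpen_uhp.is_const_of_deriv_eq_zero convex_uhp.isPreconnected
      (fun w hw => (h1 ⟨w, hw⟩).differentiableAt.differentiableWithinAt)
      (fun w hw => (h1 ⟨w, hw⟩).deriv) z.im_pos I.im_pos
  rw [Pi.sub_apply, Pi.sub_apply, lift_apply, lift_apply, lift_apply, lift_apply] at h2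
  rw [h.period_eq hf.1 γ]
  linear_combination h2

lemma period_mul {Γ : Subgroup SL(2, ℝ)} {f : ℍ → ℂ} (hf : f ∈ Omega Γ) {γ δ : SL(2, ℝ)}
    (hγ : γ ∈ Γ) (hδ : δ ∈ Γ) : period f (γ * δ) = period f γ + period f δ := by
  obtain ⟨F, hF⟩ := exists_prim (f := f) hf.1
  rw [hF.period_eq hf.1 (γ * δ), mul_smul, hF.smul hf hγ, hF.smul hf hδ]
  ring

lemma period_one (f : ℍ → ℂ) : period f 1 = 0 := by
  unfold period
  simp

lemma period_inv {Γ : Subgroup SL(2, ℝ)} {f : ℍ → ℂ} (hf : f ∈ Omega Γ) {γ : SL(2, ℝ)}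
    (hγ : γ ∈ Γ) : period f γ⁻¹ = -period f γ := by
  have h1 := period_mul hf hγ (Γ.inv_mem hγ)
  rw [mul_inv_cancel, period_one] at h1
  linear_combination -h1

lemma period_add {f g : ℍ → ℂ} (hf : IsHol f) (hg : IsHol g) (γ : SL(2, ℝ)) :
    period (f + g) γ = period f γ + period g γ := by
  unfold period
  rw [← intervalIntegral.integral_add (intervalIntegrable_period hf γ)
      (intervalIntegrable_period hg γ)]
  congr 1
  funext t
  simp [add_mul]

lemma period_smul (c : ℂ) (f : ℍ → ℂ) (γ : SL(2, ℝ)) :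
    period (c • f) γ = c * period f γ := by
  unfold period
  rw [← intervalIntegral.integral_const_mul]
  congr 1
  funext t
  simp [mul_assoc]

/-- `f ∘ g * g'`, the pull back of a differential. -/
def slash (f : ℍ → ℂ) (g : SL(2, ℝ)) : ℍ → ℂ :=
  fun z => f (g • z) / denom (g : GL (Fin 2) ℝ) z ^ 2

private lemma IsPrim.slash {F f : ℍ → ℂ} (h : IsPrim F f) (g : SL(2, ℝ)) :
    IsPrim (fun z => F (g • z)) (slash f g) :=
  fun z => hasDerivAt_comp_smul h g z

lemma IsHol.slash {f : ℍ → ℂ} (hf : IsHol f) (g : SL(2, ℝ)) : IsHol (slash f g) := by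
  intro z
  have h1 := hf (g • z)
  have h2 := (hasStrictDerivAt_smul (det_pos g) z).hasDerivAt.differentiableAt
  have h3 : (fun z ↦ (((g : GL (Fin 2) ℝ) • ofComplex z : ℍ) : ℂ) : ℂ → ℂ) (z : ℂ) =
      ((g • z : ℍ) : ℂ) := by
    simp [toGL_smul]
  rw [← h3] at h1
  have h4 := DifferentiableAt.comp (z : ℂ) (g := ↑ₕf)
    (f := (fun z ↦ (((g : GL (Fin 2) ℝ) • ofComplex z : ℍ) : ℂ) : ℂ → ℂ)) h1 h2
  have h5 : DifferentiableAt ℂ (fun w : ℂ => denom (g : GL (Fin 2) ℝ) w ^ 2) (z : ℂ) := by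
    unfold denom
    fun_prop
  have h6 := h4.div h5 (pow_ne_zero 2 (denom_ne_zero (g : GL (Fin 2) ℝ) z))
  refine h6.congr_of_eventuallyEq ?_
  filter_upwards [isOpen_uhp.mem_nhds z.im_pos] with w hw
  simp only [Function.comp, Pi.div_apply, Pool.Agent.Lib.MP_b9289b_nt.slash]
  rw [ofComplex_apply_of_im_pos hw]
  simp [toGL_smul]

lemma slash_mul (f : ℍ → ℂ) (g h : SL(2, ℝ)) : slash (slash f g) h = slash f (g * h) := by
  funext z
  unfold slash
  rw [mul_smul, map_mul, denom_cocycle_σ, σ, if_pos (by simp)]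
  rw [ContinuousAlgEquiv.refl_apply, toGL_smul, mul_pow, div_div]

/-- Transport of periods: if `g` normalises `Γ` at `γ`, then the period of `f | g` over `γ` is the
period of `f` over `g γ g⁻¹` (`F ∘ g` is a primitive of `slash f g`). -/
lemma period_slash {Γ : Subgroup SL(2, ℝ)} {f : ℍ → ℂ} (hf : f ∈ Omega Γ) {g γ : SL(2, ℝ)}
    (h : g * γ * g⁻¹ ∈ Γ) : period (slash f g) γ = period f (g * γ * g⁻¹) := by
  obtain ⟨F, hF⟩ := exists_prim (f := f) hf.1
  have h1 : IsHol f := hf.1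
  rw [(hF.slash g).period_eq (h1.slash g) γ]
  have h2 := hF.smul hf h (g • I)
  rw [← mul_smul, inv_mul_cancel_right, mul_smul] at h2
  linear_combination h2

/-- The periods of a nonzero form do not lie in a real line.  Otherwise `im (α F)` is
`Γ`-invariant, so the holomorphic function `exp (I α F)` has an invariant norm, which attains its
maximum by cocompactness; so it is constant by the maximum principle, hence `F` is constant. -/
theorem exists_period_im_ne {Γ : Subgroup SL(2, ℝ)} (hΓ : Cocompact Γ) {f : ℍ → ℂ}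
    (hf : f ∈ Omega Γ) (h0 : f ≠ 0) {α : ℂ} (hα : α ≠ 0) :
    ∃ γ ∈ Γ, (α * period f γ).im ≠ 0 := by
  by_contra hcon
  push Not at hcon
  obtain ⟨F, hF⟩ := exists_prim (f := f) hf.1
  obtain ⟨K, hK, hKΓ⟩ := hΓ
  have hFc : Continuous F := hF.isHol.continuous
  set N : ℍ → ℝ := fun z => (α * F z).im with hN
  have hNc : Continuous N := by fun_prop
  have hinv : ∀ γ ∈ Γ, ∀ z : ℍ, N (γ • z) = N z := by
    intro γ hγ z
    simp only [hN]
    rw [hF.smul hf hγ z, mul_add, Complex.add_im, hcon γ hγ, add_zero]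
  obtain ⟨γ₀, -, hγ₀⟩ := hKΓ I
  obtain ⟨z₀, -, hz₀⟩ := hK.exists_isMaxOn ⟨_, hγ₀⟩ hNc.continuousOn
  have hmax : ∀ z : ℍ, N z ≤ N z₀ := by
    intro z
    obtain ⟨γ, hγ, hz⟩ := hKΓ z
    rw [← hinv γ hγ z]
    exact hz₀ hz
  set E : ℂ → ℂ := fun w => Complex.exp (-(Complex.I * α) * (↑ₕF) w) with hE
  have hEd : ∀ z : ℍ, HasDerivAt E (Complex.exp (-(Complex.I * α) * F z) *
      (-(Complex.I * α) * f z)) (z : ℂ) := by
    intro z
    have h1 := ((hF z).const_mul (-(Complex.I * α))).cexp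
    rw [lift_apply] at h1
    exact h1
  have hEn : ∀ w : ℂ, 0 < w.im → ‖E w‖ = Real.exp (N (ofComplex w)) := by
    intro w hw
    simp only [hE, hN, Complex.norm_exp, Function.comp]
    congr 1
    simp [Complex.mul_re, Complex.mul_im]
  have hEmax : IsMaxOn (norm ∘ E) {z : ℂ | 0 < z.im} (z₀ : ℂ) := by
    intro w hw
    simp only [Function.comp, Set.mem_ofPred_eq]
    rw [hEn w hw, hEn _ z₀.im_pos, ofComplex_apply]
    exact Real.exp_le_exp.2 (hmax _)
  have hconst := Complex.eqOn_of_isPreconnected_of_isMaxOn_norm convex_uhp.isPreconnected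
    isOpen_uhp (fun w hw => (hEd ⟨w, hw⟩).differentiableAt.differentiableWithinAt)
    z₀.im_pos hEmax
  apply h0
  funext z
  have h2 : HasDerivAt E 0 (z : ℂ) := by
    have h3 : HasDerivAt (fun _ : ℂ => E z₀) 0 (z : ℂ) := hasDerivAt_const _ _
    refine h3.congr_of_eventuallyEq ?_
    filter_upwards [isOpen_uhp.mem_nhds z.im_pos] with w hw
    exact hconst hw
  have h3 := (hEd z).unique h2
  have h4 : -(Complex.I * α) * f z = 0 := by
    rcases mul_eq_zero.1 h3 with h | h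
    · exact absurd h (Complex.exp_ne_zero _)
    · exact h
  rcases mul_eq_zero.1 h4 with h | h
  · exfalso
    rw [neg_eq_zero, mul_eq_zero] at h
    rcases h with h | h
    · exact Complex.I_ne_zero h
    · exact hα h
  · exact h

end Pool.Agent.Lib.MP_b9289b_nt
end
end

section

/-!
# E15: differentials from maps to an elliptic curve

`x, y ∈ K(Γ)`, `y² = x (1-x)(1-l x)`, `x` not constant; `w = x'/y`.

`form_hol`: `w` has no poles: if `x` has value `c` at `z` with `P(c) ≠ 0`, then `ord y = 0`,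
`ord x' ≥ 0`; if `P(c) = 0` (`c = 0, 1, 1/l`, different numbers): `ord (x - c) = 2m`, `ord y = m`,
`ord x' = 2m - 1`, so `ord w = m - 1 ≥ 0` (the other factors have order `0`); at a pole of `x`:
`3 ord x = 2 ord y`, `ord x = -2m`, `ord y = -3m`, `ord x' = -2m - 1`, `ord w = m - 1 ≥ 0`.
`w` transforms correctly by `actS_der`; `exists_mem_Omega`.

`form_periods`: `x` has a zero `z₁` (`exists_eq_val`).  Let `F` be the primitive of `w` with
`F z₁ = 0`.  Near `z₁`, `x, y` are holomorphic with values `0, 0`; `x' = w y`,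
`y' = w P'(x)/2` (from `2 y y' = P'(x) x'`); the functions `Φ ∘ F`, `Φ' ∘ F` satisfy the same
equations with the same initial values, so `x = Φ ∘ F` near `z₁` by `ode_unique`.  `Φ ∘ F` is
meromorphic on `ℍ` (`F` holomorphic, `MeromorphicAt.comp_analyticAt`), so `x = Φ ∘ F` (outside a
discrete set) by the identity theorem.  For `γ ∈ Γ`, `F (γ z) = F z + p` (`IsPrim.smul`), so
`Φ (F z + p) = Φ (F z)` for all `z` outside a discrete set, and `F` is open
(not constant), so `Φ (u + p) = Φ u` on a nonempty open set, hence `p ∈ PerGrp Φ` by the identity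
theorem.
-/

open UpperHalfPlane Filter Topology MatrixGroups
open scoped ContDiff ComplexConjugate

noncomputable section

namespace Pool.Agent.Lib.MP_b9289b_nt

private lemma y_ne_zero {l : ℂ} {x y : Mer} (hc : ∀ c, x ≠ Mer.cst c)
    (h : y ^ 2 = x * (1 - x) * (1 - Mer.cst l * x)) : y ≠ 0 := by
  rintro rfl
  have h1 : x * (1 - x) * (1 - Mer.cst l * x) = 0 := by rw [← h]; simp
  rcases mul_eq_zero.1 h1 with h2 | h2
  · rcases mul_eq_zero.1 h2 with h3 | h3
    · exact hc 0 (by rw [h3, map_zero])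
    · exact hc 1 (by rw [map_one]; exact (sub_eq_zero.1 h3).symm)
  · have h3 : Mer.cst l * x = 1 := (sub_eq_zero.1 h2).symm
    by_cases hl : l = 0
    · rw [hl, map_zero, zero_mul] at h3
      exact zero_ne_one h3
    · apply hc l⁻¹
      rw [map_inv₀]
      exact eq_inv_of_mul_eq_one_right h3

private lemma ord_root {x y Q : Mer} {z : ℍ} {c q : ℂ} (hc : ∀ c, x ≠ Mer.cst c) (hy : y ≠ 0)
    (hx : Mer.HasVal z x c) (h : y ^ 2 = (x - Mer.cst c) * Q) (hQ : Mer.HasVal z Q q)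
    (hq : q ≠ 0) : 0 ≤ Mer.ord z (Mer.der x / y) := by
  have h1 : x - Mer.cst c ≠ 0 := fun h => hc c (sub_eq_zero.1 h)
  obtain ⟨n, hn⟩ := Mer.exists_ord (z := z) h1
  obtain ⟨b, hb⟩ := Mer.exists_ord (z := z) hy
  have hn0 : 0 < n := by
    have := hx
    unfold Mer.HasVal at this
    rw [hn] at this
    exact_mod_cast this
  have h2 := congrArg (Mer.ord z) h
  rw [Mer.ord_mul, pow_two, Mer.ord_mul, hn, hb, hQ.ord_eq_zero hq, add_zero] at h2
  have h3 : b + b = n := by exact_mod_cast h2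
  rw [Mer.ord_div, Mer.ord_der_sub_cst hn hn0.ne', hb]
  have h4 : (0 : ℤ) ≤ (n - 1) - b := by omega
  exact_mod_cast h4

private lemma ord_der_div_nonneg {l : ℂ} (hl0 : l ≠ 0) (hl1 : l ≠ 1) {x y : Mer}
    (hc : ∀ c, x ≠ Mer.cst c)
    (h : y ^ 2 = x * (1 - x) * (1 - Mer.cst l * x)) (z : ℍ) :
    0 ≤ Mer.ord z (Mer.der x / y) := by
  have hy := y_ne_zero hc h
  have hx0 : x ≠ 0 := fun h0 => hc 0 (by rw [h0, map_zero])
  have hone : ∀ z, Mer.HasVal z (1 : Mer) 1 := fun z => by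
    have := Mer.hasVal_cst (z := z) (c := 1)
    rwa [map_one] at this
  by_cases hneg : Mer.ord z x < 0
  · obtain ⟨a, ha⟩ := Mer.exists_ord (z := z) hx0
    obtain ⟨b, hb⟩ := Mer.exists_ord (z := z) hy
    rw [ha] at hneg
    have ha0 : a < 0 := by exact_mod_cast hneg
    have h1 : Mer.ord z (1 - x) = a := by
      rw [Mer.ord_sub_comm, Mer.ord_sub_of_lt, ha]
      rw [ha, Mer.ord_one]
      exact hneg
    have h2 : Mer.ord z (1 - Mer.cst l * x) = a := by
      rw [Mer.ord_sub_comm, Mer.ord_sub_of_lt, Mer.ord_cst_mul z x hl0, ha]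
      rw [Mer.ord_cst_mul z x hl0, ha, Mer.ord_one]
      exact hneg
    have h3 := congrArg (Mer.ord z) h
    rw [Mer.ord_mul, Mer.ord_mul, pow_two, Mer.ord_mul, h1, h2, ha, hb] at h3
    have h4 : b + b = a + a + a := by exact_mod_cast h3
    rw [Mer.ord_div, Mer.ord_der ha ha0.ne, hb]
    have h5 : (0 : ℤ) ≤ (a - 1) - b := by omega
    exact_mod_cast h5
  · obtain ⟨c, hxc⟩ := Mer.exists_val (not_lt.1 hneg)
    have hQ1 : Mer.HasVal z (1 - x) (1 - c) := (hone z).sub hxc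
    have hQ2 : Mer.HasVal z (1 - Mer.cst l * x) (1 - l * c) :=
      (hone z).sub (Mer.hasVal_cst.mul hxc)
    by_cases h0 : c = 0
    · subst h0
      refine ord_root (Q := (1 - x) * (1 - Mer.cst l * x)) hc hy hxc ?_ (hQ1.mul hQ2) (by simp)
      rw [h, map_zero]; ring
    by_cases h1 : c = 1
    · subst h1
      refine ord_root (Q := -(x * (1 - Mer.cst l * x))) hc hy hxc ?_ (hxc.mul hQ2).neg ?_
      · rw [h, map_one]; ring
      · rw [mul_one, one_mul, neg_ne_zero]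
        exact sub_ne_zero.2 (Ne.symm hl1)
    by_cases h2 : c = l⁻¹
    · subst h2
      refine ord_root (Q := -(Mer.cst l * (x * (1 - x)))) hc hy hxc ?_
        (Mer.hasVal_cst.mul (hxc.mul hQ1)).neg ?_
      · have : Mer.cst l * Mer.cst l⁻¹ = 1 := by rw [← map_mul, mul_inv_cancel₀ hl0, map_one]
        rw [h]
        linear_combination (-x * (1 - x)) * this
      · rw [neg_ne_zero]
        refine mul_ne_zero hl0 (mul_ne_zero (inv_ne_zero hl0) ?_)
        rw [sub_ne_zero]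
        intro h3
        exact h1 h3.symm
    · have hP : Mer.HasVal z (y ^ 2) (c * (1 - c) * (1 - l * c)) := by
        rw [h]; exact (hxc.mul hQ1).mul hQ2
      have hne : c * (1 - c) * (1 - l * c) ≠ 0 := by
        refine mul_ne_zero (mul_ne_zero h0 ?_) ?_
        · exact sub_ne_zero.2 (Ne.symm h1)
        · rw [sub_ne_zero]
          intro h3
          exact h2 (eq_inv_of_mul_eq_one_right h3.symm)
      have h4 := hP.ord_eq_zero hne
      obtain ⟨b, hb⟩ := Mer.exists_ord (z := z) hy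
      rw [pow_two, Mer.ord_mul, hb] at h4
      have h5 : b + b = 0 := by exact_mod_cast h4
      have h6 : b = 0 := by omega
      rw [Mer.ord_div, hb, h6]
      simpa using Mer.ord_der_nonneg hxc.ord_nonneg

theorem form_hol {l : ℂ} (hl0 : l ≠ 0) (hl1 : l ≠ 1) {Γ : Subgroup SL(2, ℝ)} {x y : Mer}
    (hx : x ∈ Kf Γ) (hy : y ∈ Kf Γ) (hc : ∀ c, x ≠ Mer.cst c)
    (h : y ^ 2 = x * (1 - x) * (1 - Mer.cst l * x)) :
    ∃ (w : ℍ → ℂ) (hw : IsHol w), w ∈ Omega Γ ∧ Mer.mk w hw.isMero = Mer.der x / y ∧ w ≠ 0 := by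
  have hy0 := y_ne_zero hc h
  obtain ⟨w, hw, hwΩ, hwe⟩ := exists_mem_Omega (Γ := Γ) (W := Mer.der x / y)
    (ord_der_div_nonneg hl0 hl1 hc h) (fun γ hγ => by
      rw [map_div₀, actS_der, mem_Kf'.1 hx γ hγ, mem_Kf'.1 hy γ hγ, mul_div_assoc])
  refine ⟨w, hw, hwΩ, hwe, ?_⟩
  rintro rfl
  have h1 : Mer.der x / y = 0 := by
    rw [← hwe, Mer.zero_eq]; rfl
  rcases div_eq_zero_iff.1 h1 with h2 | h2
  · obtain ⟨c, hc'⟩ := Mer.eq_cst_of_der_eq_zero h2
    exact hc c hc'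
  · exact hy0 h2

private lemma exists_local_rep {F : Mer} {z : ℍ} (h : 0 ≤ Mer.ord z F) :
    ∃ X : ℂ → ℂ, AnalyticAt ℂ X z ∧ ∀ᶠ v in 𝓝[≠] (z : ℂ), (↑ₕF.rep) v = X v := by
  have h1 : MeromorphicAt (↑ₕF.rep) (z : ℂ) := F.isMero_rep z
  refine ⟨toMeromorphicNFAt (↑ₕF.rep) z, ?_, h1.eq_nhdsNE_toMeromorphicNFAt⟩
  exact h1.meromorphicOrderAt_nonneg_iff_analyticAt_toMeromorphicNFAt.1 h

private lemma local_zero {F : Mer} {z : ℍ} (h : 0 < Mer.ord z F) {X : ℂ → ℂ}
    (hX : AnalyticAt ℂ X z) (hFX : ∀ᶠ v in 𝓝[≠] (z : ℂ), (↑ₕF.rep) v = X v) : X z = 0 := by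
  have h1 : 0 < meromorphicOrderAt X (z : ℂ) := by
    rw [← meromorphicOrderAt_congr hFX]
    exact h
  have h2 := tendsto_zero_of_meromorphicOrderAt_pos h1
  have h3 := (hX.continuousAt.tendsto).mono_left (nhdsWithin_le_nhds (s := {(z : ℂ)}ᶜ))
  exact tendsto_nhds_unique h3 h2

/-- Two analytic functions equal on a punctured neighbourhood are equal on a neighbourhood. -/
private lemma eventually_of_punctured {f g : ℂ → ℂ} {z : ℂ} (hf : AnalyticAt ℂ f z)
    (hg : AnalyticAt ℂ g z) (h : ∀ᶠ v in 𝓝[≠] z, f v = g v) : ∀ᶠ v in 𝓝 z, f v = g v :=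
  (hf.frequently_eq_iff_eventually_eq hg).1 h.frequently

private lemma deriv_congr_punctured {f g : ℂ → ℂ} {z : ℂ} (h : ∀ᶠ v in 𝓝[≠] z, f v = g v) :
    ∀ᶠ v in 𝓝[≠] z, deriv f v = deriv g v := by
  rw [eventually_nhdsWithin_iff] at h
  obtain ⟨U, hU, hUo, hzU⟩ := eventually_nhds_iff.1 h
  rw [eventually_nhdsWithin_iff]
  filter_upwards [hUo.mem_nhds hzU] with w hw hwz
  apply Filter.EventuallyEq.deriv_eq
  filter_upwards [hUo.mem_nhds hw, isOpen_ne.mem_nhds hwz] with v hv hvz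
  exact hU v hv hvz

private lemma hol_analyticAt {F : ℍ → ℂ} (hF : IsHol F) (z : ℍ) : AnalyticAt ℂ (↑ₕF) (z : ℂ) := by
  rw [Complex.analyticAt_iff_eventually_differentiableAt]
  filter_upwards [isOpen_upperHalfPlaneSet.mem_nhds z.im_pos] with w hw
  exact hF ⟨w, hw⟩

private lemma isMero_comp {Φ : ℂ → ℂ} (hΦ : ∀ u, MeromorphicAt Φ u) {F : ℍ → ℂ} (hF : IsHol F) :
    IsMero (fun z => Φ (F z)) := by
  intro z
  have h2 := hol_analyticAt hF z
  exact MeromorphicAt.comp_analyticAt (f := Φ) (g := (↑ₕF)) (hΦ _) h2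

private lemma ord_y_pos {l : ℂ} {x y : Mer} (h : y ^ 2 = x * (1 - x) * (1 - Mer.cst l * x))
    {z : ℍ} (hz : 0 < Mer.ord z x) : 0 < Mer.ord z y := by
  have hone : Mer.HasVal z (1 : Mer) 1 := by
    have := Mer.hasVal_cst (z := z) (c := 1)
    rwa [map_one] at this
  have hx := Mer.hasVal_zero_iff.2 hz
  have h1 : Mer.HasVal z (y ^ 2) (0 * (1 - 0) * (1 - l * 0)) := by
    rw [h]
    exact (hx.mul (hone.sub hx)).mul (hone.sub (Mer.hasVal_cst.mul hx))
  rw [zero_mul, zero_mul, Mer.hasVal_zero_iff, pow_two, Mer.ord_mul] at h1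
  by_contra h2
  rw [not_lt] at h2
  exact absurd h1 (not_lt.2 (add_nonpos h2 h2))

/-- A relation in `Mer` read near a point. -/
private lemma rel_near {f g : ℍ → ℂ} {hf : IsMero f} {hg : IsMero g} (h : Mer.mk f hf = Mer.mk g hg)
    (z : ℍ) : ∀ᶠ v in 𝓝[≠] (z : ℂ), (↑ₕf) v = (↑ₕg) v :=
  eventually_codiscrete_iff.1 (Mer.mk_eq_mk.1 h) z

private lemma local_rel1 {x y : Mer} (hy0 : y ≠ 0) {w : ℍ → ℂ} (hw : IsHol w)
    (hxy : Mer.mk w hw.isMero = Mer.der x / y) (z : ℍ) :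
    ∀ᶠ v in 𝓝[≠] (z : ℂ), deriv (↑ₕx.rep) v = (↑ₕw) v * (↑ₕy.rep) v := by
  have h1 : Mer.mk (fun z => w z * y.rep z) (hw.isMero.mul y.isMero_rep) =
      Mer.mk (fun z => deriv (↑ₕx.rep) (z : ℂ)) x.isMero_rep.deriv := by
    rw [← Mer.mk_mul hw.isMero y.isMero_rep, Mer.mk_rep, hxy, div_mul_cancel₀ _ hy0]
    rfl
  have h3 : ∀ᶠ w in 𝓝[≠] (z : ℂ), 0 < w.im :=
    mem_nhdsWithin_of_mem_nhds (isOpen_upperHalfPlaneSet.mem_nhds z.im_pos)
  filter_upwards [rel_near h1 z, h3] with v hv hv'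
  simp only [Function.comp] at hv ⊢
  rw [hv, ofComplex_apply_of_im_pos hv']

private lemma local_rel2 {l : ℂ} {x y : Mer} (h : y ^ 2 = x * (1 - x) * (1 - Mer.cst l * x))
    (z : ℍ) : ∀ᶠ v in 𝓝[≠] (z : ℂ), (↑ₕy.rep) v ^ 2 = PL l ((↑ₕx.rep) v) := by
  have h1 : Mer.mk (fun z => y.rep z * y.rep z) (y.isMero_rep.mul y.isMero_rep) =
      Mer.mk (fun z => x.rep z * (1 - x.rep z) * (1 - l * x.rep z))
        ((x.isMero_rep.mul ((IsMero.const 1).sub x.isMero_rep)).mul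
          ((IsMero.const 1).sub ((IsMero.const l).mul x.isMero_rep))) := by
    have h2 : Mer.mk (fun z => x.rep z * (1 - x.rep z) * (1 - l * x.rep z))
        ((x.isMero_rep.mul ((IsMero.const 1).sub x.isMero_rep)).mul
          ((IsMero.const 1).sub ((IsMero.const l).mul x.isMero_rep))) =
        Mer.mk x.rep x.isMero_rep * (1 - Mer.mk x.rep x.isMero_rep) *
          (1 - Mer.cst l * Mer.mk x.rep x.isMero_rep) := rfl
    rw [h2, ← Mer.mk_mul y.isMero_rep y.isMero_rep, Mer.mk_rep, Mer.mk_rep, ← h, pow_two]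
  filter_upwards [rel_near h1 z] with v hv
  simp only [Function.comp, PL] at hv ⊢
  rw [pow_two, hv]

private lemma local_eq {l : ℂ} {Φ : ℂ → ℂ} (hΦ : IsPhi l Φ) {x y : Mer} (hy0 : y ≠ 0)
    (h : y ^ 2 = x * (1 - x) * (1 - Mer.cst l * x)) {w F : ℍ → ℂ} (hw : IsHol w)
    (hF : IsPrim F w) (hxy : Mer.mk w hw.isMero = Mer.der x / y) {z₁ : ℍ}
    (hz₁ : 0 < Mer.ord z₁ x) (hFz : F z₁ = 0) :
    ∀ᶠ v in 𝓝[≠] (z₁ : ℂ), (↑ₕx.rep) v = Φ ((↑ₕF) v) := by
  have hyz := ord_y_pos h hz₁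
  obtain ⟨X, hX, hXe⟩ := exists_local_rep hz₁.le
  obtain ⟨Y, hY, hYe⟩ := exists_local_rep hyz.le
  have hX0 := local_zero hz₁ hX hXe
  have hY0 := local_zero hyz hY hYe
  have hwa := hol_analyticAt hw z₁
  have hFa := hol_analyticAt hF.isHol z₁
  have r1 : ∀ᶠ v in 𝓝 (z₁ : ℂ), deriv X v = (↑ₕw) v * Y v := by
    refine eventually_of_punctured hX.deriv (hwa.mul hY) ?_
    filter_upwards [local_rel1 hy0 hw hxy z₁, hYe, deriv_congr_punctured hXe] with v h1 h2 h3
    rw [← h3, h1, h2]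
  have hPX : AnalyticAt ℂ (fun v => PL l (X v)) (z₁ : ℂ) := by
    unfold PL
    fun_prop
  have hPX' : AnalyticAt ℂ (fun v => PL' l (X v)) (z₁ : ℂ) := by
    unfold PL'
    fun_prop
  have r2 : ∀ᶠ v in 𝓝 (z₁ : ℂ), Y v ^ 2 = PL l (X v) := by
    refine eventually_of_punctured (hY.pow 2) hPX ?_
    filter_upwards [local_rel2 h z₁, hYe, hXe] with v h1 h2 h3
    rw [← h2, ← h3, h1]
  have hYne : ∀ᶠ v in 𝓝[≠] (z₁ : ℂ), Y v ≠ 0 := by
    have h1 : Mer.ord z₁ y ≠ ⊤ := fun h => hy0 (Mer.ord_eq_top_iff.1 h)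
    have h2 := (meromorphicOrderAt_ne_top_iff_eventually_ne_zero (y.isMero_rep z₁)).1 h1
    filter_upwards [h2, hYe] with v h3 h4
    rw [← h4]
    exact h3
  have r3 : ∀ᶠ v in 𝓝 (z₁ : ℂ), deriv Y v = (↑ₕw) v * (PL' l (X v) / 2) := by
    refine eventually_of_punctured hY.deriv (hwa.mul (hPX'.div_const)) ?_
    have h1 : (fun v => Y v ^ 2) =ᶠ[𝓝 (z₁ : ℂ)] fun v => PL l (X v) := r2
    have h2 := h1.deriv
    filter_upwards [mem_nhdsWithin_of_mem_nhds h2, hYne,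
      mem_nhdsWithin_of_mem_nhds r1, mem_nhdsWithin_of_mem_nhds hX.eventually_analyticAt,
      mem_nhdsWithin_of_mem_nhds hY.eventually_analyticAt] with v g2 g3 g4 g5 g6
    have g7 : deriv (fun v => Y v ^ 2) v = 2 * Y v * deriv Y v := by
      rw [deriv_fun_pow g6.differentiableAt]
      simp
    have g8 : deriv (fun v => PL l (X v)) v = PL' l (X v) * deriv X v :=
      ((hasDerivAt_PL l (X v)).comp v g5.differentiableAt.hasDerivAt).deriv
    have g9 : deriv (fun v => Y v ^ 2) v = deriv (fun v => PL l (X v)) v := g2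
    rw [g7, g8, g4] at g9
    have g10 : Y v * (2 * deriv Y v - (↑ₕw) v * PL' l (X v)) = 0 := by linear_combination g9
    rcases mul_eq_zero.1 g10 with g11 | g11
    · exact absurd g11 g3
    · linear_combination g11 / 2
  have hF0 : (↑ₕF) (z₁ : ℂ) = 0 := by simp [hFz]
  have hΦF : ∀ᶠ v in 𝓝 (z₁ : ℂ), AnalyticAt ℂ Φ ((↑ₕF) v) := by
    have h1 : Tendsto (↑ₕF) (𝓝 (z₁ : ℂ)) (𝓝 0) := by
      rw [← hF0]; exact hFa.continuousAt
    exact h1.eventually hΦ.analytic_zero.eventually_analyticAt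
  have hFd : ∀ᶠ v in 𝓝 (z₁ : ℂ), HasDerivAt (↑ₕF) ((↑ₕw) v) v := by
    filter_upwards [isOpen_upperHalfPlaneSet.mem_nhds z₁.im_pos] with v hv
    have := hF ⟨v, hv⟩
    simpa [Function.comp, ofComplex_apply_of_im_pos hv] using this
  have r4 : ∀ᶠ v in 𝓝 (z₁ : ℂ), deriv (fun v => Φ ((↑ₕF) v)) v = (↑ₕw) v * deriv Φ ((↑ₕF) v) ∧
      deriv (fun v => deriv Φ ((↑ₕF) v)) v = (↑ₕw) v * (PL' l (Φ ((↑ₕF) v)) / 2) := by
    filter_upwards [hΦF, hFd] with v h1 h2
    constructor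
    · rw [mul_comm]
      exact (h1.differentiableAt.hasDerivAt.comp v h2).deriv
    · rw [← hΦ.ode2 _ h1, mul_comm]
      exact (h1.deriv.differentiableAt.hasDerivAt.comp v h2).deriv
  have hΦa : AnalyticAt ℂ Φ ((↑ₕF) (z₁ : ℂ)) := by rw [hF0]; exact hΦ.analytic_zero
  have hdΦ0 : deriv Φ 0 = 0 := by
    have := hΦ.ode 0 hΦ.analytic_zero
    rw [hΦ.map_zero] at this
    simpa [PL] using this
  have key := ode_unique (l := l) (w := (↑ₕw)) (X₁ := fun v => Φ ((↑ₕF) v))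
    (Y₁ := fun v => deriv Φ ((↑ₕF) v)) hwa hX hY (hΦa.comp hFa) (hΦa.deriv.comp hFa)
    (r1.and r3) r4 (by rw [hX0, hF0, hΦ.map_zero]) (by rw [hY0, hF0, hdΦ0])
  filter_upwards [mem_nhdsWithin_of_mem_nhds key, hXe] with v h1 h2
  rw [h2]
  exact h1.1

private lemma eq_comp {l : ℂ} {Φ : ℂ → ℂ} (hΦ : IsPhi l Φ) {x y : Mer} (hy0 : y ≠ 0)
    (h : y ^ 2 = x * (1 - x) * (1 - Mer.cst l * x)) {w F : ℍ → ℂ} (hw : IsHol w)
    (hF : IsPrim F w) (hxy : Mer.mk w hw.isMero = Mer.der x / y) {z₁ : ℍ}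
    (hz₁ : 0 < Mer.ord z₁ x) (hFz : F z₁ = 0) :
    Mer.mk (fun z => Φ (F z)) (isMero_comp (fun u => (hΦ.nf u).meromorphicAt) hF.isHol) = x := by
  have h1 := local_eq hΦ hy0 h hw hF hxy hz₁ hFz
  have hM : IsMero (fun z => Φ (F z)) := isMero_comp (fun u => (hΦ.nf u).meromorphicAt) hF.isHol
  rw [← Mer.mk_rep x, Mer.mk_eq_mk]
  have hD : IsMero (fun z => Φ (F z) - x.rep z) := hM.sub x.isMero_rep
  have h2 : ∀ᶠ z in codiscrete ℍ, Φ (F z) - x.rep z = 0 := by
    by_contra h3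
    have h4 := hD.eventually_ne_zero h3
    rw [eventually_codiscrete_iff] at h4
    obtain ⟨v, hv1, hv2⟩ := ((h4 z₁).and h1).exists
    apply hv1
    simp only [Function.comp] at hv2
    rw [hv2, sub_self]
  filter_upwards [h2] with z hz
  exact sub_eq_zero.1 hz

private lemma per_of_eventually {Φ : ℂ → ℂ} (hΦ : ∀ u, MeromorphicAt Φ u) {F : ℂ → ℂ} {z₀ p : ℂ}
    (hF : AnalyticAt ℂ F z₀) (hnc : ¬ ∀ᶠ z in 𝓝 z₀, F z = F z₀)
    (h : ∀ᶠ z in 𝓝[≠] z₀, Φ (F z + p) = Φ (F z)) : p ∈ PerGrp Φ := by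
  set H : ℂ → ℂ := fun u => Φ (u + p) - Φ u with hH
  have hHm : ∀ u, MeromorphicAt H u := fun u => by
    have h1 : AnalyticAt ℂ (fun v : ℂ => v + p) u := by fun_prop
    exact (MeromorphicAt.comp_analyticAt (f := Φ) (g := fun v : ℂ => v + p) (hΦ _) h1).sub (hΦ u)
  have h0 : meromorphicOrderAt H (F z₀) = ⊤ := by
    by_contra h1
    have h2 := (meromorphicOrderAt_ne_top_iff_eventually_ne_zero (hHm _)).1 h1
    have h3 : Tendsto F (𝓝[≠] z₀) (𝓝[≠] (F z₀)) := by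
      refine tendsto_nhdsWithin_of_tendsto_nhds_of_eventually_within _
        (hF.continuousAt.tendsto.mono_left nhdsWithin_le_nhds) ?_
      rcases hF.eventually_eq_or_eventually_ne (analyticAt_const (v := F z₀)) with h4 | h4
      · exact absurd h4 hnc
      · exact h4
    obtain ⟨v, hv1, hv2⟩ := ((h3.eventually h2).and h).exists
    apply hv1
    simp only [hH]
    rw [hv2, sub_self]
  have h1 : ∀ u, meromorphicOrderAt H u = ⊤ := by
    intro u
    by_contra h2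
    have h3 : MeromorphicOn H Set.univ := fun v _ => hHm v
    exact h3.meromorphicOrderAt_ne_top_of_isPreconnected isPreconnected_univ
      (Set.mem_univ u) (Set.mem_univ (F z₀)) h2 h0
  change ∀ᶠ u in codiscrete ℂ, Φ (u + p) = Φ u
  rw [eventually_codiscreteC]
  intro u
  filter_upwards [meromorphicOrderAt_eq_top_iff.1 (h1 u)] with v hv
  exact sub_eq_zero.1 hv

theorem form_periods {l : ℂ} {Φ : ℂ → ℂ} (hΦ : IsPhi l Φ) {Γ : Subgroup SL(2, ℝ)}
    (hΓ : Cocompact Γ) {x y : Mer} (hx : x ∈ Kf Γ) (hy : y ∈ Kf Γ) (hc : ∀ c, x ≠ Mer.cst c)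
    (h : y ^ 2 = x * (1 - x) * (1 - Mer.cst l * x)) {w : ℍ → ℂ} (hw : IsHol w)
    (hwΩ : w ∈ Omega Γ) (hxy : Mer.mk w hw.isMero = Mer.der x / y) :
    ∀ γ ∈ Γ, period w γ ∈ PerGrp Φ := by
  intro γ hγ
  have hy0 := y_ne_zero hc h
  obtain ⟨z₁, hz₁⟩ := exists_eq_val hΓ hx hc 0
  rw [map_zero, sub_zero] at hz₁
  obtain ⟨F₀, hF₀⟩ := exists_prim hw
  set F : ℍ → ℂ := fun z => F₀ z - F₀ z₁ with hFdef
  have hF : IsPrim F w := fun z => (hF₀ z).sub_const (F₀ z₁)
  have hFz : F z₁ = 0 := sub_self _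
  have key := eq_comp hΦ hy0 h hw hF hxy hz₁ hFz
  have hm : ∀ u, MeromorphicAt Φ u := fun u => (hΦ.nf u).meromorphicAt
  have h1 := mem_Kf'.1 hx γ hγ
  rw [← key, Mer.actS_mk, Mer.mk_eq_mk, eventually_codiscrete_iff] at h1
  refine per_of_eventually hm (hol_analyticAt hF.isHol z₁) ?_ ?_ (F := (↑ₕF)) (z₀ := (z₁ : ℂ))
  · intro h2
    have h3 : (↑ₕF) =ᶠ[𝓝 (z₁ : ℂ)] fun _ => (↑ₕF) (z₁ : ℂ) := h2
    have h4 := h3.deriv
    have h5 : Mer.mk w hw.isMero = 0 := by
      rw [← Mer.ord_eq_top_iff (z := z₁), Mer.ord_mk, meromorphicOrderAt_eq_top_iff]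
      have h6 : ∀ᶠ v in 𝓝[≠] (z₁ : ℂ), 0 < v.im :=
        mem_nhdsWithin_of_mem_nhds (isOpen_upperHalfPlaneSet.mem_nhds z₁.im_pos)
      filter_upwards [mem_nhdsWithin_of_mem_nhds h4, h6] with v g1 g2
      have g3 := (hF ⟨v, g2⟩).deriv
      have g4 : deriv (↑ₕF) v = 0 := by
        have : deriv (↑ₕF) v = deriv (fun _ => (↑ₕF) (z₁ : ℂ)) v := g1
        rw [this]; simp
      simp only [Function.comp]
      rw [ofComplex_apply_of_im_pos g2, ← g3]
      exact g4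
    rw [h5] at hxy
    rcases div_eq_zero_iff.1 hxy.symm with g1 | g1
    · obtain ⟨c, hc'⟩ := Mer.eq_cst_of_der_eq_zero g1
      exact hc c hc'
    · exact hy0 g1
  · filter_upwards [h1 z₁] with v hv
    simp only [Function.comp]
    rw [← hF.smul hwΩ hγ]
    exact hv

end Pool.Agent.Lib.MP_b9289b_nt
end
end

section

/-!
# J01: isogenies of Jacobians give surjective linear maps

A discrete subgroup of `SL(2,ℝ)` is countable (second countable space), so the period lattice is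
countable (closure of a countable set).
`of_isog`: if the induced map `V*/Λ → W*/Λ'` is surjective then `range F + Λ' = W*`, so the complex
vector space `W* / range F` is countable, hence zero (a nonzero complex vector space contains a
copy of the uncountable set `ℂ`).
`of_isog'`: for `F : W* → V*` as above with finite kernel of the induced map (represented by the
finite set `T`): `F` is surjective by the first part, and `ker F ⊆ T + Λ'` is countable, so `F` is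
bijective.  For `ℓ ∈ Λ` all multiples of `F⁻¹ ℓ` are in `T + Λ'`, so `n F⁻¹ ℓ ∈ Λ'` with
`n = (card T)!` by the pigeonhole principle; take `n • F⁻¹`.
-/

open UpperHalfPlane Filter Topology MatrixGroups
open scoped ContDiff ComplexConjugate

noncomputable section

namespace Pool.Agent.Lib.MP_b9289b_nt

/-- There is a surjective linear map `Omega(Γ)* → Omega(Γ')*` mapping periods to periods. -/
def Dom (Γ Γ' : Subgroup SL(2, ℝ)) : Prop :=
  ∃ F : OmegaDual Γ →ₗ[ℂ] OmegaDual Γ', Function.Surjective F ∧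
    ∀ ℓ ∈ PeriodLattice Γ, F ℓ ∈ PeriodLattice Γ'

lemma countable_of_surface {Γ : Subgroup SL(2, ℝ)} (h : IsSurfaceGroup Γ) : Countable Γ := by
  have hd : DiscreteTopology Γ := h.1
  have h1 : SecondCountableTopology (Matrix (Fin 2) (Fin 2) ℝ) :=
    inferInstanceAs (SecondCountableTopology (Fin 2 → Fin 2 → ℝ))
  have h2 : SecondCountableTopology SL(2, ℝ) :=
    TopologicalSpace.Subtype.secondCountableTopology _
  have h3 : SecondCountableTopology Γ := TopologicalSpace.Subtype.secondCountableTopology _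
  exact TopologicalSpace.separableSpace_iff_countable.1 inferInstance

private lemma countable_addClosure {A : Type*} [AddCommGroup A] {s : Set A} (hs : s.Countable) :
    (AddSubgroup.closure s : Set A).Countable := by
  have := hs.to_subtype
  have h1 : (AddSubgroup.closure s : Set A) ⊆
      Set.range (fun f : s →₀ ℤ => f.sum fun x n => n • (x : A)) := by
    intro x hx
    have h2 : AddSubgroup.closure s ≤
        (AddMonoidHom.range (Finsupp.liftAddHom (fun x : s =>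
          (zmultiplesHom A (x : A)) : s → (ℤ →+ A)))) := by
      rw [AddSubgroup.closure_le]
      intro y hy
      refine ⟨Finsupp.single ⟨y, hy⟩ 1, ?_⟩
      simp
    obtain ⟨f, hf⟩ := h2 hx
    refine ⟨f, ?_⟩
    rw [← hf]
    simp only [Finsupp.liftAddHom_apply]
    rfl
  exact (Set.countable_range _).mono h1

lemma countable_lattice {Γ : Subgroup SL(2, ℝ)} (h : IsSurfaceGroup Γ) :
    (PeriodLattice Γ : Set (OmegaDual Γ)).Countable := by
  have := countable_of_surface h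
  apply countable_addClosure
  have h1 : {ℓ : OmegaDual Γ | ∃ γ ∈ Γ, ℓ = periodFunctional Γ γ} ⊆
      Set.range (fun γ : Γ => periodFunctional Γ (γ : SL(2, ℝ))) := by
    rintro ℓ ⟨γ, hγ, rfl⟩
    exact ⟨⟨γ, hγ⟩, rfl⟩
  exact (Set.countable_range _).mono h1

private lemma zero_of_countable {A : Type*} [AddCommGroup A] [Module ℂ A] {S : Submodule ℂ A}
    (hS : (S : Set A).Countable) {x : A} (hx : x ∈ S) : x = 0 := by
  by_contra h0
  have h1 : Function.Injective (fun c : ℂ => c • x) := smul_left_injective ℂ h0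
  have h2 : (Set.univ : Set ℂ) ⊆ (fun c : ℂ => c • x) ⁻¹' (S : Set A) := by
    intro c _
    exact S.smul_mem c hx
  exact not_countable_complex ((hS.preimage_of_injOn h1.injOn).mono h2)

private lemma surj_of_cover {A B : Type*} [AddCommGroup A] [Module ℂ A] [AddCommGroup B]
    [Module ℂ B] (F : A →ₗ[ℂ] B) {L : Set B} (hL : L.Countable)
    (h : ∀ w : B, ∃ v : A, ∃ l ∈ L, w = F v + l) : Function.Surjective F := by
  have h1 : ∀ q : B ⧸ LinearMap.range F, q = 0 := by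
    intro q
    have h2 : ((⊤ : Submodule ℂ (B ⧸ LinearMap.range F)) : Set (B ⧸ LinearMap.range F)).Countable := by
      refine (hL.image (Submodule.mkQ (LinearMap.range F))).mono ?_
      intro q _
      obtain ⟨w, rfl⟩ := Submodule.mkQ_surjective _ q
      obtain ⟨v, l, hl, rfl⟩ := h w
      refine ⟨l, hl, ?_⟩
      rw [map_add]
      have h3 : Submodule.mkQ (LinearMap.range F) (F v) = 0 := by
        rw [Submodule.mkQ_apply, Submodule.Quotient.mk_eq_zero]
        exact ⟨v, rfl⟩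
      rw [h3, zero_add]
    exact zero_of_countable h2 Submodule.mem_top
  intro w
  have h2 := h1 (Submodule.mkQ (LinearMap.range F) w)
  rw [Submodule.mkQ_apply, Submodule.Quotient.mk_eq_zero] at h2
  exact h2

private lemma surj_of_isog {Γ Γ' : Subgroup SL(2, ℝ)} (hΓ' : IsSurfaceGroup Γ')
    (F : OmegaDual Γ →ₗ[ℂ] OmegaDual Γ') (hs : ∀ y, ∃ x, y - F x ∈ PeriodLattice Γ') :
    Function.Surjective F := by
  refine surj_of_cover F (countable_lattice hΓ') fun w => ?_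
  obtain ⟨v, hv⟩ := hs w
  exact ⟨v, _, hv, by abel⟩

theorem dom_of_isog {Γ Γ' : Subgroup SL(2, ℝ)} (hΓ' : IsSurfaceGroup Γ')
    (h : JacobianIsogenous Γ Γ') : Dom Γ Γ' := by
  obtain ⟨F, hF, hs, _⟩ := h
  exact ⟨F, surj_of_isog hΓ' F hs, fun ℓ hℓ => hF ℓ hℓ⟩

private lemma factorial_nsmul_mem {A : Type*} [AddCommGroup A] {L : AddSubgroup A} {T : Finset A}
    {v : A} (h : ∀ n : ℕ, ∃ y ∈ T, n • v - y ∈ L) : T.card.factorial • v ∈ L := by
  choose y hy hyL using h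
  have key : ∀ i j : Fin (T.card + 1), i < j → y i = y j → T.card.factorial • v ∈ L := by
    intro i j hij he
    have hij' : (i : ℕ) < j := hij
    have h1 : ((j : ℕ) - i) • v ∈ L := by
      have h2 := L.sub_mem (hyL j) (hyL i)
      rw [he, sub_sub_sub_cancel_right] at h2
      have h3 : (j : ℕ) • v = ((j : ℕ) - i) • v + (i : ℕ) • v := by
        rw [← add_nsmul, Nat.sub_add_cancel hij'.le]
      rw [h3, add_sub_cancel_right] at h2
      exact h2
    obtain ⟨m, hm⟩ := Nat.dvd_factorial (by omega : 0 < (j : ℕ) - i)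
      (by have := j.2; omega : (j : ℕ) - i ≤ T.card)
    rw [hm, mul_nsmul]
    exact L.nsmul_mem h1 m
  obtain ⟨i, j, hij, he⟩ := Fintype.exists_ne_map_eq_of_card_lt
    (fun i : Fin (T.card + 1) => (⟨y i, hy i⟩ : T)) (by simp)
  have he' : y i = y j := congrArg Subtype.val he
  rcases lt_or_gt_of_ne hij with h1 | h1
  · exact key i j h1 he'
  · exact key j i h1 he'.symm

theorem dom_of_isog' {Γ Γ' : Subgroup SL(2, ℝ)} (hΓ : IsSurfaceGroup Γ) (hΓ' : IsSurfaceGroup Γ')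
    (h : JacobianIsogenous Γ' Γ) : Dom Γ Γ' := by
  obtain ⟨F, hF, hs, T, hTf, hT⟩ := h
  have hsF := surj_of_isog hΓ F hs
  -- the kernel
  have hker : (LinearMap.ker F : Set (OmegaDual Γ')).Countable := by
    have h1 : (LinearMap.ker F : Set (OmegaDual Γ')) ⊆
        ⋃ y ∈ T, (fun l => y + l) '' (PeriodLattice Γ' : Set (OmegaDual Γ')) := by
      intro v hv
      have hv' : F v = 0 := hv
      obtain ⟨y, hy, hyL⟩ := hT v (by rw [hv']; exact AddSubgroup.zero_mem _)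
      rw [Set.mem_iUnion₂]
      exact ⟨y, hy, _, hyL, by simp⟩
    exact (hTf.countable.biUnion fun y _ => (countable_lattice hΓ').image _).mono h1
  have hinj : Function.Injective F := by
    rw [← LinearMap.ker_eq_bot, Submodule.eq_bot_iff]
    intro x hx
    exact zero_of_countable hker hx
  let e : OmegaDual Γ' ≃ₗ[ℂ] OmegaDual Γ := LinearEquiv.ofBijective F ⟨hinj, hsF⟩
  set N : ℕ := hTf.toFinset.card.factorial with hN
  have hn : (N : ℂ) ≠ 0 := by
    have : 0 < N := Nat.factorial_pos _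
    exact_mod_cast this.ne'
  refine ⟨(N : ℂ) • e.symm.toLinearMap, ?_, ?_⟩
  · intro w
    refine ⟨e ((N : ℂ)⁻¹ • w), ?_⟩
    rw [LinearMap.smul_apply]
    have h1 : e.symm.toLinearMap (e ((N : ℂ)⁻¹ • w)) = (N : ℂ)⁻¹ • w :=
      e.symm_apply_apply _
    rw [h1, smul_smul, mul_inv_cancel₀ hn, one_smul]
  · intro ℓ hℓ
    set v := e.symm ℓ with hv
    have hFv : F v = ℓ := e.apply_symm_apply ℓ
    have h6 : N • v ∈ PeriodLattice Γ' := by
      refine factorial_nsmul_mem (T := hTf.toFinset) fun n => ?_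
      obtain ⟨y, hy, hyL⟩ := hT (n • v) (by
        rw [map_nsmul, hFv]
        exact AddSubgroup.nsmul_mem _ hℓ n)
      exact ⟨y, hTf.mem_toFinset.2 hy, hyL⟩
    have h7 : ((N : ℂ) • e.symm.toLinearMap) ℓ = N • v := by
      rw [LinearMap.smul_apply]
      exact Nat.cast_smul_eq_nsmul ℂ _ _
    rw [h7]
    exact h6

end Pool.Agent.Lib.MP_b9289b_nt
end
end

section

/-!
# J02: the dual map on differentials

`F : V* → W*` surjective, `V = Omega Γ` finite dimensional, `W = Omega Γ'`.  For `w ∈ W` the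
functional `ℓ ↦ F ℓ w` on `V*` is the evaluation at a unique `Φ w ∈ V`
(`Module.evalEquiv`); `Φ` is linear, injective (if `Φ w = 0` then all functionals `F ℓ`, i.e. all
functionals, vanish at `w`), and `period (Φ w) γ = F (periodFunctional Γ γ) w`, where
`F (periodFunctional Γ γ)` is in the subgroup generated by the functionals
`periodFunctional Γ' γ'`; induction on `AddSubgroup.closure`.
-/

open UpperHalfPlane Filter Topology MatrixGroups
open scoped ContDiff ComplexConjugate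

noncomputable section

namespace Pool.Agent.Lib.MP_b9289b_nt

theorem Dom.exists_dual {Γ Γ' : Subgroup SL(2, ℝ)} (h : Dom Γ Γ')
    (hfin : FiniteDimensional ℂ (Omega Γ)) :
    ∃ Φ : Omega Γ' →ₗ[ℂ] Omega Γ, Function.Injective Φ ∧
      ∀ (w : Omega Γ') (L : AddSubgroup ℂ), (∀ γ ∈ Γ', period (w : ℍ → ℂ) γ ∈ L) →
        ∀ γ ∈ Γ, period (Φ w : ℍ → ℂ) γ ∈ L := by
  obtain ⟨F₀, hF₀, hL⟩ := h
  let F : Module.Dual ℂ (Omega Γ) →ₗ[ℂ] Module.Dual ℂ (Omega Γ') := F₀
  have hF : Function.Surjective F := hF₀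
  let D : Omega Γ' →ₗ[ℂ] Module.Dual ℂ (Module.Dual ℂ (Omega Γ)) :=
    F.dualMap.comp (Module.Dual.eval ℂ (Omega Γ'))
  let Φ : Omega Γ' →ₗ[ℂ] Omega Γ :=
    (Module.evalEquiv ℂ (Omega Γ)).symm.toLinearMap.comp D
  have key : ∀ (w : Omega Γ') (ℓ : Module.Dual ℂ (Omega Γ)), ℓ (Φ w) = F ℓ w := by
    intro w ℓ
    have h1 : Module.evalEquiv ℂ (Omega Γ) (Φ w) = D w :=
      (Module.evalEquiv ℂ (Omega Γ)).apply_symm_apply (D w)
    have h2 := congrArg (fun L : Module.Dual ℂ (Module.Dual ℂ (Omega Γ)) => L ℓ) h1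
    exact h2
  refine ⟨Φ, ?_, ?_⟩
  · rw [← LinearMap.ker_eq_bot, Submodule.eq_bot_iff]
    intro w hw
    have hw' : Φ w = 0 := hw
    have h1 : ∀ m : Module.Dual ℂ (Omega Γ'), m w = 0 := by
      intro m
      obtain ⟨ℓ, rfl⟩ := hF m
      rw [← key, hw', map_zero]
    exact (Module.forall_dual_apply_eq_zero_iff ℂ w).1 h1
  · intro w L hw γ hγ
    let ℓγ : Module.Dual ℂ (Omega Γ) := periodFunctional Γ γ
    have h1 : period (Φ w : ℍ → ℂ) γ = F ℓγ w := key w ℓγ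
    rw [h1]
    have h2 := hL (periodFunctional Γ γ) (AddSubgroup.subset_closure ⟨γ, hγ, rfl⟩)
    have h3 : ∀ m ∈ PeriodLattice Γ', (show Module.Dual ℂ (Omega Γ') from m) w ∈ L := by
      intro m hm
      unfold PeriodLattice at hm
      induction hm using AddSubgroup.closure_induction with
      | mem x hx =>
        obtain ⟨γ', hγ', rfl⟩ := hx
        exact hw γ' hγ'
      | zero => exact L.zero_mem
      | add x y _ _ hx hy => exact L.add_mem hx hy
      | neg x _ hx => exact L.neg_mem hx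
    exact h3 _ h2

end Pool.Agent.Lib.MP_b9289b_nt
end
end

section

/-!
# E13: the five lattices are pairwise not proportional for most `t`

`l0(t) = 2 (a - i b)/((a + 1)(1 - i b))`, `a = √(1+t)`, `b = √(t²-1)`:
`l0 = 2 (a + b² + i b (a - 1))/((a + 1) t²)` (`1 + b² = t²`), so `Re l0, Im l0 > 0`;
`‖l0‖ = 2 √(t + t²)/((a+1) t) → 0`, `Im l0/‖l0‖^(3/2) → 0` for `t → ∞` (`Im l0 ≤ 2 b/t² ≤ 2/t`,
`‖l0‖ ≥ 2/(a+1) ≥ 1/a`... ).

`not_rel_E`: by `TT_conj` a relation `T (m + n T') = p + q T'`, `T' = T(conj l0) = - conj T` says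
`m T + q conj T - n |T|² = p`; imaginary parts: `m = q` (`Im T > 0`); real parts:
`2 m Re T - n |T|² = p`; `t → ∞`: `n = 0` since `|T| → ∞`, then `2 m Re T = p` with `Re T → 0`, so
`p = 0`, and `Re T > 0` gives `m = 0`: contradiction to `m q - n p ≠ 0`.

`exists_countable`: by E11 and E12 the set of `t > 1` where one of the four pairs `(A,B)`, `(N,A)`,
`(N,B)`, `(E,E')` is proportional is countable.  The other pairs: `SameLat l0 x` with `x` real in
`(0,1)` gives `SameLat (conj l0) x` by `SameLat.conj`, so `SameLat l0 (conj l0)`.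
-/

open Filter Topology Metric
open scoped ComplexConjugate

noncomputable section

namespace Pool.Agent.Lib.MP_b9289b_nt

/-- The Legendre parameter of `E₀`. -/
def l0 (t : ℝ) : ℂ :=
  2 * ((aa t : ℂ) - Complex.I * bb t) / (((aa t : ℂ) + 1) * (1 - Complex.I * bb t))

private lemma l0_den_ne {t : ℝ} (ht : 1 < t) :
    (((aa t : ℂ) + 1) * (1 - Complex.I * bb t)) ≠ 0 := by
  have ha := aa_pos ht
  refine mul_ne_zero ?_ ?_
  · have : ((aa t : ℂ) + 1) = ((aa t + 1 : ℝ) : ℂ) := by push_cast; rfl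
    rw [this]
    exact_mod_cast (by linarith : aa t + 1 ≠ 0)
  · intro h
    have := congrArg Complex.re h
    simp at this

private lemma l0_eq {t : ℝ} (ht : 1 < t) :
    l0 t = ((2 * (aa t + bb t ^ 2) / ((aa t + 1) * t ^ 2) : ℝ) : ℂ) +
      ((2 * (bb t * (aa t - 1)) / ((aa t + 1) * t ^ 2) : ℝ) : ℂ) * Complex.I := by
  have ha := aa_pos ht
  have hb := bb_sq ht
  have ht0 : (t : ℂ) ≠ 0 := by exact_mod_cast (by linarith : t ≠ 0)
  have ha1 : ((aa t : ℂ) + 1) ≠ 0 := by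
    have : ((aa t : ℂ) + 1) = ((aa t + 1 : ℝ) : ℂ) := by push_cast; rfl
    rw [this]
    exact_mod_cast (by linarith : aa t + 1 ≠ 0)
  have hbC : (bb t : ℂ) ^ 2 = (t : ℂ) ^ 2 - 1 := by exact_mod_cast hb
  have hI := Complex.I_sq
  rw [l0, div_eq_iff (l0_den_ne ht)]
  push_cast
  field_simp
  have e : (t : ℂ) ^ 2 = 1 + (bb t : ℂ) ^ 2 := by rw [hbC]; ring
  rw [e]
  linear_combination ((aa t : ℂ) * (bb t : ℂ) ^ 2 - (bb t : ℂ) ^ 2) * hI

private lemma l0_re {t : ℝ} (ht : 1 < t) :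
    (l0 t).re = 2 * (aa t + bb t ^ 2) / ((aa t + 1) * t ^ 2) := by
  rw [l0_eq ht]
  simp only [Complex.add_re, Complex.ofReal_re, Complex.re_ofReal_mul, Complex.I_re, mul_zero,
    add_zero]

private lemma l0_im {t : ℝ} (ht : 1 < t) :
    (l0 t).im = 2 * (bb t * (aa t - 1)) / ((aa t + 1) * t ^ 2) := by
  rw [l0_eq ht]
  simp only [Complex.add_im, Complex.ofReal_im, Complex.im_ofReal_mul, Complex.I_im, mul_one,
    zero_add]

lemma l0_re_pos {t : ℝ} (ht : 1 < t) : 0 < (l0 t).re := by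
  rw [l0_re ht]
  have := aa_pos ht
  positivity

lemma l0_im_pos {t : ℝ} (ht : 1 < t) : 0 < (l0 t).im := by
  rw [l0_im ht]
  have h1 := aa_pos ht
  have h2 := bb_pos ht
  have h3 := one_lt_aa ht
  have h4 : 0 < aa t - 1 := by linarith
  positivity

lemma l0_analyticAt {t : ℝ} (ht : 1 < t) : AnalyticAt ℝ l0 t := by
  have h1 : AnalyticAt ℝ aa t := by
    have h : ContDiffAt ℝ (⊤ : WithTop ℕ∞) (fun t : ℝ => √(1 + t)) t :=
      ContDiffAt.sqrt (by fun_prop) (by linarith)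
    exact h.analyticAt
  have h2 : AnalyticAt ℝ bb t := by
    have h : ContDiffAt ℝ (⊤ : WithTop ℕ∞) (fun t : ℝ => √(t ^ 2 - 1)) t :=
      ContDiffAt.sqrt (by fun_prop) (by nlinarith)
    exact h.analyticAt
  have h1' : AnalyticAt ℝ (fun t => (aa t : ℂ)) t :=
    (Complex.ofRealCLM.analyticAt (aa t)).comp h1
  have h2' : AnalyticAt ℝ (fun t => (bb t : ℂ)) t :=
    (Complex.ofRealCLM.analyticAt (bb t)).comp h2
  have h3 : AnalyticAt ℝ (fun t => 2 * ((aa t : ℂ) - Complex.I * bb t)) t :=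
    analyticAt_const.mul (h1'.sub (analyticAt_const.mul h2'))
  have h4 : AnalyticAt ℝ (fun t => (((aa t : ℂ) + 1) * (1 - Complex.I * bb t))) t :=
    (h1'.add analyticAt_const).mul (analyticAt_const.sub (analyticAt_const.mul h2'))
  exact h3.div h4 (l0_den_ne ht)

private lemma l0_normSq {t : ℝ} (ht : 1 < t) :
    ‖l0 t‖ ^ 2 = 4 * (t + t ^ 2) / ((aa t + 1) ^ 2 * t ^ 2) := by
  have ha := aa_pos ht
  have ha2 := aa_sq ht
  have hb := bb_sq ht
  rw [← Complex.normSq_eq_norm_sq, Complex.normSq_apply, l0_re ht, l0_im ht]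
  have ha1 : aa t + 1 ≠ 0 := by linarith
  have ht0 : t ≠ 0 := by linarith
  field_simp
  have hb4 : bb t ^ 4 = (t ^ 2 - 1) ^ 2 := by rw [← hb]; ring
  have e : (aa t + bb t ^ 2) ^ 2 + (bb t * (aa t - 1)) ^ 2 =
      (aa t ^ 2 + bb t ^ 2) * (1 + bb t ^ 2) := by ring
  have e2 : (aa t ^ 2 + bb t ^ 2) * (1 + bb t ^ 2) = (t + t ^ 2) * t ^ 2 := by
    rw [ha2, hb]; ring
  nlinarith [e, e2]

private lemma aa_tendsto : Tendsto aa atTop atTop :=
  Real.tendsto_sqrt_atTop.comp (tendsto_atTop_add_const_left atTop 1 tendsto_id)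

private lemma l0_norm_le {t : ℝ} (ht : 1 < t) : ‖l0 t‖ ≤ 4 / aa t := by
  have ha := aa_pos ht
  have h := l0_normSq ht
  refine le_of_sq_le_sq ?_ (by positivity)
  rw [h, div_pow, div_le_div_iff₀ (by positivity) (by positivity)]
  have h1 : t ≤ t ^ 2 := by nlinarith
  have h2 : aa t ^ 2 ≤ (aa t + 1) ^ 2 := by nlinarith
  have h3 : 0 ≤ t ^ 2 := by positivity
  nlinarith [mul_le_mul h1 h2 (by positivity) h3, mul_nonneg h3 (sq_nonneg (aa t)),
    mul_le_mul_of_nonneg_left h2 h3]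

private lemma l0_norm_ge {t : ℝ} (ht : 1 < t) : 1 / aa t ≤ ‖l0 t‖ := by
  have ha := one_lt_aa ht
  have ha0 := aa_pos ht
  have h := l0_normSq ht
  refine le_of_sq_le_sq ?_ (norm_nonneg _)
  rw [h, div_pow, div_le_div_iff₀ (by positivity) (by positivity)]
  have h2 : (aa t + 1) ^ 2 ≤ 4 * aa t ^ 2 := by nlinarith
  have h3 : 0 ≤ t ^ 2 := by positivity
  nlinarith [mul_le_mul_of_nonneg_left h2 h3, mul_nonneg (by linarith : (0:ℝ) ≤ t) (sq_nonneg (aa t))]

lemma l0_tendsto : Tendsto l0 atTop (𝓝 0) := by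
  rw [tendsto_zero_iff_norm_tendsto_zero]
  refine squeeze_zero' (g := fun t => 4 / aa t) (Eventually.of_forall fun t => norm_nonneg _) ?_ ?_
  · filter_upwards [eventually_gt_atTop 1] with t ht
    exact l0_norm_le ht
  · exact tendsto_const_nhds.div_atTop aa_tendsto

private lemma l0_im_le {t : ℝ} (ht : 1 < t) : (l0 t).im ≤ 4 / aa t ^ 2 := by
  have ha := one_lt_aa ht
  have ha0 := aa_pos ht
  have ha2 := aa_sq ht
  have hb := bb_sq ht
  have hb0 := bb_pos ht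
  have hbt : bb t ≤ t := by nlinarith
  rw [l0_im ht, div_le_div_iff₀ (by positivity) (by positivity), ha2]
  have h1 : bb t * (aa t - 1) ≤ t * (aa t + 1) :=
    mul_le_mul hbt (by linarith) (by linarith) (by linarith)
  have h2 : 1 + t ≤ 2 * t := by linarith
  have h3 : bb t * (aa t - 1) * (1 + t) ≤ t * (aa t + 1) * (2 * t) :=
    mul_le_mul h1 h2 (by linarith) (by positivity)
  nlinarith [h3]

lemma l0_small : Tendsto (fun t => (l0 t).im / ‖l0 t‖ ^ (3 / 2 : ℝ)) atTop (𝓝 0) := by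
  have hlim : Tendsto (fun t => 4 * aa t ^ (-(1 / 2) : ℝ)) atTop (𝓝 0) := by
    have h := ((tendsto_rpow_neg_atTop (y := 1 / 2) (by norm_num)).comp aa_tendsto).const_mul 4
    simpa [Function.comp_def] using h
  refine squeeze_zero' ?_ ?_ hlim
  · filter_upwards [eventually_gt_atTop 1] with t ht
    have := l0_im_pos ht
    positivity
  · filter_upwards [eventually_gt_atTop 1] with t ht
    have ha0 := aa_pos ht
    have h1 := l0_im_le ht
    have h2 := l0_norm_ge ht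
    have h3 : (1 / aa t) ^ (3 / 2 : ℝ) ≤ ‖l0 t‖ ^ (3 / 2 : ℝ) :=
      Real.rpow_le_rpow (by positivity) h2 (by norm_num)
    have h4 : 0 < (1 / aa t) ^ (3 / 2 : ℝ) := by positivity
    calc (l0 t).im / ‖l0 t‖ ^ (3 / 2 : ℝ) ≤ (4 / aa t ^ 2) / (1 / aa t) ^ (3 / 2 : ℝ) :=
          div_le_div₀ (by positivity) h1 h4 h3
      _ = 4 * aa t ^ (-(1 / 2) : ℝ) := by
          rw [one_div, Real.inv_rpow ha0.le, div_inv_eq_mul, div_mul_eq_mul_div, mul_div_assoc]
          congr 1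
          rw [← Real.rpow_natCast, ← Real.rpow_sub ha0]
          norm_num

theorem not_rel_E (m n p q : ℚ) (h : m * q - n * p ≠ 0) :
    ¬ ∀ t : ℝ, 1 < t → TT (l0 t) * (m + n * TT (conj (l0 t))) = p + q * TT (conj (l0 t)) := by
  intro hall
  have hrel : ∀ t : ℝ, 1 < t → ((m : ℝ) - q) * (TT (l0 t)).im = 0 ∧
      ((m : ℝ) + q) * (TT (l0 t)).re - n * ‖TT (l0 t)‖ ^ 2 = p := by
    intro t ht
    have h1 := hall t ht
    rw [TT_conj (l0_im_pos ht)] at h1
    have hre := congrArg Complex.re h1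
    have him := congrArg Complex.im h1
    rw [← Complex.normSq_eq_norm_sq, Complex.normSq_apply]
    simp at hre him
    constructor
    · linarith
    · linarith
  have hre0 : Tendsto (fun t => (TT (l0 t)).re) atTop (𝓝 0) := by
    refine TT_re_tendsto l0_tendsto ?_ ?_ l0_small
    · filter_upwards [eventually_gt_atTop 1] with t ht using l0_re_pos ht
    · filter_upwards [eventually_gt_atTop 1] with t ht using l0_im_pos ht
  have hinf : Tendsto (fun t => ‖TT (l0 t)‖) atTop atTop := by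
    refine TT_norm_tendsto l0_tendsto ?_ ?_
    · filter_upwards [eventually_gt_atTop 1] with t ht using l0_re_pos ht
    · filter_upwards [eventually_gt_atTop 1] with t ht using l0_im_pos ht
  have hmq : (m : ℝ) - q = 0 := by
    have h1 := (hrel 2 (by norm_num)).1
    have h2 := TT_im_pos (l0_im_pos (t := 2) (by norm_num))
    rcases mul_eq_zero.1 h1 with h3 | h3
    · exact h3
    · exact absurd h3 h2.ne'
  have hn : (n : ℝ) = 0 := by
    by_contra hn
    have h1 : Tendsto (fun t => ‖TT (l0 t)‖ ^ 2) atTop atTop :=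
      (tendsto_pow_atTop (by norm_num)).comp hinf
    have h2 : Tendsto (fun t => (((m : ℝ) + q) * (TT (l0 t)).re - p) / n) atTop
        (𝓝 ((((m : ℝ) + q) * 0 - p) / n)) :=
      ((hre0.const_mul _).sub_const _).div_const _
    have h3 : Tendsto (fun t => ‖TT (l0 t)‖ ^ 2) atTop (𝓝 ((((m : ℝ) + q) * 0 - p) / n)) := by
      refine h2.congr' ?_
      filter_upwards [eventually_gt_atTop 1] with t ht
      have := (hrel t ht).2
      rw [div_eq_iff hn]
      linarith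
    exact not_tendsto_nhds_of_tendsto_atTop h1 _ h3
  have hp : (p : ℝ) = 0 := by
    have h2 : Tendsto (fun t => ((m : ℝ) + q) * (TT (l0 t)).re) atTop
        (𝓝 (((m : ℝ) + q) * 0)) := hre0.const_mul _
    have h3 : Tendsto (fun t => ((m : ℝ) + q) * (TT (l0 t)).re) atTop (𝓝 (p : ℝ)) := by
      refine tendsto_const_nhds.congr' ?_
      filter_upwards [eventually_gt_atTop 1] with t ht
      have := (hrel t ht).2
      rw [hn] at this
      linarith
    have := tendsto_nhds_unique h2 h3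
    linarith
  have hm : (m : ℝ) + q = 0 := by
    have h1 := (hrel 2 (by norm_num)).2
    rw [hn, hp, zero_mul, sub_zero] at h1
    have h2 := TT_re_pos (l0_im_pos (t := 2) (by norm_num))
    rcases mul_eq_zero.1 h1 with h3 | h3
    · exact h3
    · exact absurd h3 h2.ne'
  have hm0 : (m : ℝ) = 0 := by linarith
  have hm' : m = 0 := by exact_mod_cast hm0
  have hp' : p = 0 := by exact_mod_cast hp
  exact h (by rw [hm', hp']; ring)

/-- The five Legendre parameters: `N, A, B, E₀, conj E₀`. -/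
def lam (t : ℝ) : Fin 5 → ℂ :=
  ![((1 / t ^ 2 : ℝ) : ℂ), ((1 / (1 + t) : ℝ) : ℂ), ((1 / t : ℝ) : ℂ), l0 t, conj (l0 t)]

private lemma slit_real {x : ℝ} (h0 : 0 < x) (h1 : x < 1) :
    (x : ℂ) ∈ Complex.slitPlane ∧ 1 - (x : ℂ) ∈ Complex.slitPlane ∧ (x : ℂ) ≠ 0 ∧ (x : ℂ) ≠ 1 := by
  refine ⟨?_, ?_, ?_, ?_⟩
  · exact Complex.mem_slitPlane_iff.2 (Or.inl (by simpa using h0))
  · exact Complex.mem_slitPlane_iff.2 (Or.inl (by simpa using h1))
  · exact_mod_cast h0.ne'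
  · exact_mod_cast h1.ne

private lemma slit_im {z : ℂ} (h : z.im ≠ 0) :
    z ∈ Complex.slitPlane ∧ 1 - z ∈ Complex.slitPlane ∧ z ≠ 0 ∧ z ≠ 1 := by
  refine ⟨?_, ?_, ?_, ?_⟩
  · exact Complex.mem_slitPlane_iff.2 (Or.inr h)
  · exact Complex.mem_slitPlane_iff.2 (Or.inr (by simpa using h))
  · rintro rfl; exact h rfl
  · rintro rfl; exact h rfl

private lemma TT_real {x : ℝ} (h0 : 0 < x) (h1 : x < 1) :
    KK (x : ℂ) ≠ 0 ∧ (TT (x : ℂ)).im ≠ 0 := by
  constructor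
  · rw [KK_ofReal h1]
    exact_mod_cast (KR_pos h1).ne'
  · rw [TT_ofReal h0 h1]
    simpa using (hR_pos h0 h1).ne'

private lemma TT_cx {z : ℂ} (h : 0 < z.im) : KK z ≠ 0 ∧ (TT z).im ≠ 0 := by
  constructor
  · intro h0
    have := KK_im_pos h
    rw [h0] at this
    simp at this
  · exact (TT_im_pos h).ne'

private lemma TT_cx' {z : ℂ} (h : 0 < z.im) : KK (conj z) ≠ 0 ∧ (TT (conj z)).im ≠ 0 := by
  constructor
  · rw [KK_conj (slit_im h.ne').2.1]
    intro h0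
    exact (TT_cx h).1 ((map_eq_zero _).1 h0)
  · rw [TT_conj h]
    simpa using (TT_im_pos h).ne'

private lemma in0 {t : ℝ} (ht : 1 < t) : 0 < 1 / t ^ 2 ∧ 1 / t ^ 2 < 1 := by
  refine ⟨by positivity, ?_⟩
  rw [div_lt_one (by positivity)]
  nlinarith

private lemma in1 {t : ℝ} (ht : 1 < t) : 0 < 1 / (1 + t) ∧ 1 / (1 + t) < 1 := by
  refine ⟨by positivity, ?_⟩
  rw [div_lt_one (by positivity)]
  linarith

private lemma in2 {t : ℝ} (ht : 1 < t) : 0 < 1 / t ∧ 1 / t < 1 := by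
  refine ⟨by positivity, ?_⟩
  rw [div_lt_one (by positivity)]
  exact ht

private lemma an0 {t : ℝ} (ht : 1 < t) : AnalyticAt ℝ (fun t : ℝ => ((1 / t ^ 2 : ℝ) : ℂ)) t :=
  (Complex.ofRealCLM.analyticAt _).comp
    (analyticAt_const.div (analyticAt_id.pow 2) (by simp; linarith))

private lemma an1 {t : ℝ} (ht : 1 < t) : AnalyticAt ℝ (fun t : ℝ => ((1 / (1 + t) : ℝ) : ℂ)) t :=
  (Complex.ofRealCLM.analyticAt _).comp
    (analyticAt_const.div (analyticAt_const.add analyticAt_id) (by simp; linarith))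

private lemma an2 {t : ℝ} (ht : 1 < t) : AnalyticAt ℝ (fun t : ℝ => ((1 / t : ℝ) : ℂ)) t :=
  (Complex.ofRealCLM.analyticAt _).comp
    (analyticAt_const.div analyticAt_id (by simp; linarith))

private lemma an4 {t : ℝ} (ht : 1 < t) : AnalyticAt ℝ (fun t : ℝ => conj (l0 t)) t :=
  ((Complex.conjCLE : ℂ →L[ℝ] ℂ).analyticAt _).comp (l0_analyticAt ht)

private lemma same_conj {t : ℝ} (ht : 1 < t) {x : ℝ} (h0 : 0 < x) (h1 : x < 1)
    (h : SameLat (x : ℂ) (l0 t)) : SameLat (l0 t) (conj (l0 t)) := by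
  have hx := slit_real h0 h1
  have hl := slit_im (l0_im_pos ht).ne'
  have h2 := SameLat.conj hx.1 hx.2.1 hl.1 hl.2.1 h
  rw [Complex.conj_ofReal] at h2
  exact h.symm.trans h2

private lemma same_conj' {t : ℝ} (ht : 1 < t) {x : ℝ} (h0 : 0 < x) (h1 : x < 1)
    (h : SameLat (x : ℂ) (conj (l0 t))) : SameLat (l0 t) (conj (l0 t)) := by
  have hx := slit_real h0 h1
  have hl := slit_im (z := conj (l0 t)) (by simpa using (l0_im_pos ht).ne')
  have h2 := SameLat.conj hx.1 hx.2.1 hl.1 hl.2.1 h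
  rw [Complex.conj_ofReal, Complex.conj_conj] at h2
  exact h2.symm.trans h

theorem exists_countable : ∃ N : Set ℝ, N.Countable ∧ ∀ t : ℝ, 1 < t → t ∉ N →
    ∀ j k : Fin 5, j ≠ k → ¬ SameLat (lam t j) (lam t k) := by
  have c01 : {t : ℝ | 1 < t ∧ SameLat ((1 / t ^ 2 : ℝ) : ℂ) ((1 / (1 + t) : ℝ) : ℂ)}.Countable := by
    refine sameLat_countable (fun t ht => an0 ht) (fun t ht => an1 ht) (fun t ht => ?_)
      (fun t ht => ?_) not_rel_NA
    · have h1 := slit_real (in0 ht).1 (in0 ht).2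
      have h2 := TT_real (in0 ht).1 (in0 ht).2
      exact ⟨h1.2.1, h1.1, h2.1, h2.2⟩
    · have h1 := slit_real (in1 ht).1 (in1 ht).2
      have h2 := TT_real (in1 ht).1 (in1 ht).2
      exact ⟨h1.2.1, h1.1, h2.1⟩
  have c02 : {t : ℝ | 1 < t ∧ SameLat ((1 / t ^ 2 : ℝ) : ℂ) ((1 / t : ℝ) : ℂ)}.Countable := by
    refine sameLat_countable (fun t ht => an0 ht) (fun t ht => an2 ht) (fun t ht => ?_)
      (fun t ht => ?_) not_rel_NB
    · have h1 := slit_real (in0 ht).1 (in0 ht).2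
      have h2 := TT_real (in0 ht).1 (in0 ht).2
      exact ⟨h1.2.1, h1.1, h2.1, h2.2⟩
    · have h1 := slit_real (in2 ht).1 (in2 ht).2
      have h2 := TT_real (in2 ht).1 (in2 ht).2
      exact ⟨h1.2.1, h1.1, h2.1⟩
  have c12 : {t : ℝ | 1 < t ∧ SameLat ((1 / (1 + t) : ℝ) : ℂ) ((1 / t : ℝ) : ℂ)}.Countable := by
    refine sameLat_countable (fun t ht => an1 ht) (fun t ht => an2 ht) (fun t ht => ?_)
      (fun t ht => ?_) not_rel_AB
    · have h1 := slit_real (in1 ht).1 (in1 ht).2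
      have h2 := TT_real (in1 ht).1 (in1 ht).2
      exact ⟨h1.2.1, h1.1, h2.1, h2.2⟩
    · have h1 := slit_real (in2 ht).1 (in2 ht).2
      have h2 := TT_real (in2 ht).1 (in2 ht).2
      exact ⟨h1.2.1, h1.1, h2.1⟩
  have c34 : {t : ℝ | 1 < t ∧ SameLat (l0 t) (conj (l0 t))}.Countable := by
    refine sameLat_countable (fun t ht => l0_analyticAt ht) (fun t ht => an4 ht) (fun t ht => ?_)
      (fun t ht => ?_) not_rel_E
    · have h1 := slit_im (l0_im_pos ht).ne'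
      have h2 := TT_cx (l0_im_pos ht)
      exact ⟨h1.2.1, h1.1, h2.1, h2.2⟩
    · have h1 := slit_im (z := conj (l0 t)) (by simpa using (l0_im_pos ht).ne')
      have h2 := TT_cx' (l0_im_pos ht)
      exact ⟨h1.2.1, h1.1, h2.1⟩
  refine ⟨_, ((c01.union c02).union c12).union c34, ?_⟩
  intro t ht hN
  simp only [Set.mem_union, Set.mem_setOf_eq, not_or, not_and] at hN
  obtain ⟨⟨⟨n01, n02⟩, n12⟩, n34⟩ := hN
  have n01 := n01 ht
  have n02 := n02 ht
  have n12 := n12 ht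
  have n34 := n34 ht
  have i0 := in0 ht
  have i1 := in1 ht
  have i2 := in2 ht
  have key : ∀ j k : Fin 5, j < k → ¬ SameLat (lam t j) (lam t k) := by
    intro j k hjk hs
    fin_cases j <;> fin_cases k <;> first | exact absurd hjk (by decide) | skip
    · exact n01 hs
    · exact n02 hs
    · exact n34 (same_conj ht i0.1 i0.2 hs)
    · exact n34 (same_conj' ht i0.1 i0.2 hs)
    · exact n12 hs
    · exact n34 (same_conj ht i1.1 i1.2 hs)
    · exact n34 (same_conj' ht i1.1 i1.2 hs)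
    · exact n34 (same_conj ht i2.1 i2.2 hs)
    · exact n34 (same_conj' ht i2.1 i2.2 hs)
    · exact n34 hs
  intro j k hjk hs
  rcases lt_or_gt_of_ne hjk with h | h
  · exact key j k h hs
  · exact key k j h hs.symm

lemma lam_slit {t : ℝ} (ht : 1 < t) (j : Fin 5) :
    lam t j ∈ Complex.slitPlane ∧ 1 - lam t j ∈ Complex.slitPlane ∧ lam t j ≠ 0 ∧ lam t j ≠ 1 := by
  fin_cases j
  · exact slit_real (in0 ht).1 (in0 ht).2
  · exact slit_real (in1 ht).1 (in1 ht).2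
  · exact slit_real (in2 ht).1 (in2 ht).2
  · exact slit_im (l0_im_pos ht).ne'
  · exact slit_im (z := conj (l0 t)) (by simpa using (l0_im_pos ht).ne')

/-- `K(l)` and `i K(1-l)` are linearly independent over `ℝ`. -/
lemma lam_TT {t : ℝ} (ht : 1 < t) (j : Fin 5) : KK (lam t j) ≠ 0 ∧ (TT (lam t j)).im ≠ 0 := by
  fin_cases j
  · exact TT_real (in0 ht).1 (in0 ht).2
  · exact TT_real (in1 ht).1 (in1 ht).2
  · exact TT_real (in2 ht).1 (in2 ht).2
  · exact TT_cx (l0_im_pos ht)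
  · exact TT_cx' (l0_im_pos ht)

end Pool.Agent.Lib.MP_b9289b_nt
end
end

section

/-!
# The functions `S, D, h0, h2, dl` and the groups
-/

open UpperHalfPlane Filter Topology MatrixGroups
open scoped ContDiff ComplexConjugate

noncomputable section

namespace Pool.Agent.Lib.MP_b9289b_nt

open Mer

/-- The functions `S, D, h0, h2, dl` (`dl` is `δ`). -/
structure IsData (t : ℝ) (S D h0 h2 dl : Mer) : Prop extends IsS t S D where
  eq0 : h0 ^ 2 = (S - cst (aa t)) * (S + cst (Complex.I * bb t))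
  eq2 : h2 ^ 2 = (S + cst (aa t)) * (S - cst (Complex.I * bb t))
  eql : dl ^ 2 = S ^ 2 - cst ((aa t : ℂ) ^ 2)

/-- The group of `N`. -/
def GN (S D : Mer) : Subgroup SL(2, ℝ) := fixer {S, D}

/-- The group of `X`. -/
def GX (S D h0 h2 : Mer) : Subgroup SL(2, ℝ) := fixer {S, D, h0, h2}

/-- The group of `Y`. -/
def GY (S D h2 dl : Mer) : Subgroup SL(2, ℝ) := fixer {S, D, h2, dl}

/-- The element `γ` acts on `F` by a sign. -/
def Sgn (γ : SL(2, ℝ)) (F : Mer) : Prop := actS γ F = F ∨ actS γ F = -F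

end Pool.Agent.Lib.MP_b9289b_nt
end
end

section

/-!
# G04: existence of `h0, h2, dl`, and the orders of all functions

`±1, ±a, ±ib` are six different numbers.  By `IsS.ram` the order of `S - c`, `c` special, is `-1`
at the poles of `S`, `2` where `S = c` and `0` elsewhere (`HasVal.ord_sub`), so the products of two
such factors have only even orders, and `exists_sqrt` applies.
The orders of `D, h0, h2, dl` are half of the orders of their squares (`ord_pow`), with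
`D² = (S-ib)(S+ib)/((S-1)(S+1))`, `dl² = (S-a)(S+a)`.
-/

open UpperHalfPlane Filter Topology MatrixGroups
open scoped ContDiff ComplexConjugate

noncomputable section

namespace Pool.Agent.Lib.MP_b9289b_nt

open Mer

variable {t : ℝ} {S D h0 h2 dl : Mer}

private lemma G04_cst (z : ℍ) (c : ℂ) : ord z (cst c) = 0 ∨ ord z (cst c) = ⊤ := by
  by_cases hc : c = 0
  · right
    rw [hc, map_zero, ord_zero]
  · exact Or.inl (ord_cst z hc)

lemma IsS.S_ne_cst (h : IsS t S D) (c : ℂ) : S ≠ cst c := by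
  rintro rfl
  rcases h.ram I with h1 | ⟨c', -, h1⟩ | ⟨c', -, h1⟩
  · rcases G04_cst I c with h2 | h2
    · rw [h2] at h1
      exact absurd h1 (by decide)
    · rw [h2] at h1
      exact absurd h1.symm (WithTop.coe_ne_top (a := (-1 : ℤ)))
  · rw [← map_sub] at h1
    rcases G04_cst I (c - c') with h2 | h2
    · rw [h2] at h1
      exact absurd h1 (by decide)
    · rw [h2] at h1
      exact absurd h1.symm (WithTop.coe_ne_top (a := (2 : ℤ)))
  · rw [← map_sub] at h1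
    rcases G04_cst I (c - c') with h2 | h2
    · rw [h2] at h1
      exact absurd h1 (by decide)
    · rw [h2] at h1
      exact absurd h1.symm (WithTop.coe_ne_top (a := (1 : ℤ)))

/-- At a pole. -/
private lemma G04_pole {z : ℍ} (hz : ord z S = -1) (c : ℂ) :
    ord z (S - cst c) = ((-1 : ℤ) : WithTop ℤ) := by
  have h1 : ord z S < ord z (cst c) := by
    rw [hz]
    rcases G04_cst z c with h2 | h2
    · rw [h2]
      decide
    · rw [h2]
      exact WithTop.coe_lt_top (-1 : ℤ)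
  rw [ord_sub_of_lt h1, hz]
  rfl

/-- At a point where `S` has the value `c`. -/
private lemma G04_val {z : ℍ} {c d : ℂ} {n : ℤ} (hn : 0 < n)
    (hz : ord z (S - cst c) = (n : WithTop ℤ)) (hd : c ≠ d) :
    ord z (S - cst d) = ((0 : ℤ) : WithTop ℤ) := by
  have h1 : HasVal z S c := by
    unfold HasVal
    rw [hz]
    exact_mod_cast hn
  rw [h1.ord_sub hd]
  rfl

/-- The even orders. -/
private lemma G04_even (h : IsS t S D) (z : ℍ) {c d : ℂ} (hc : c ∈ specS t) (hd : d ∈ specS t) :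
    ∃ n : ℤ, ord z ((S - cst c) * (S - cst d)) = ((2 * n : ℤ) : WithTop ℤ) := by
  rw [ord_mul]
  rcases h.ram z with h1 | ⟨e, -, h1⟩ | ⟨e, he, h1⟩
  · refine ⟨-1, ?_⟩
    rw [G04_pole h1, G04_pole h1]
    rfl
  · have h3 : ∀ x : ℂ, ord z (S - cst x) = ((2 * 1 : ℤ) : WithTop ℤ) ∨
        ord z (S - cst x) = ((2 * 0 : ℤ) : WithTop ℤ) := by
      intro x
      by_cases hx : e = x
      · left
        rw [← hx, h1]
        rfl
      · right
        exact G04_val (n := 2) (by norm_num) h1 hx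
    rcases h3 c with h4 | h4 <;> rcases h3 d with h5 | h5 <;> rw [h4, h5, ← WithTop.coe_add] <;>
      exact ⟨_, by rw [← mul_add]⟩
  · refine ⟨0, ?_⟩
    rw [G04_val (n := 1) (by norm_num) h1 (fun e' => he (e' ▸ hc)),
      G04_val (n := 1) (by norm_num) h1 (fun e' => he (e' ▸ hd))]
    rfl

private lemma G04_sub_ne (h : IsS t S D) (c : ℂ) : S - cst c ≠ 0 := fun e =>
  h.S_ne_cst c (sub_eq_zero.1 e)

private lemma G04_sqrt (h : IsS t S D) {c d : ℂ} (hc : c ∈ specS t) (hd : d ∈ specS t) :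
    ∃ H : Mer, H ^ 2 = (S - cst c) * (S - cst d) :=
  exists_sqrt (mul_ne_zero (G04_sub_ne h c) (G04_sub_ne h d)) fun z => G04_even h z hc hd

private lemma G04_mem : (aa t : ℂ) ∈ specS t ∧ -(aa t : ℂ) ∈ specS t ∧
    Complex.I * bb t ∈ specS t ∧ -(Complex.I * bb t) ∈ specS t := by
  unfold specS
  refine ⟨?_, ?_, ?_, ?_⟩ <;> simp

theorem IsS.exists_data (h : IsS t S D) : ∃ h0 h2 dl : Mer, IsData t S D h0 h2 dl := by
  obtain ⟨m1, m2, m3, m4⟩ := G04_mem (t := t)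
  obtain ⟨h0, e0⟩ := G04_sqrt h m1 m4
  obtain ⟨h2, e2⟩ := G04_sqrt h m2 m3
  obtain ⟨dl, el⟩ := G04_sqrt h m1 m2
  refine ⟨h0, h2, dl, ⟨h, ?_, ?_, ?_⟩⟩
  · rw [e0, map_neg, sub_neg_eq_add]
  · rw [e2, map_neg, sub_neg_eq_add]
  · rw [el, map_neg, sub_neg_eq_add, map_pow]
    ring

private lemma G04_half {z : ℍ} {F : Mer} {n : ℤ} (h : ord z (F ^ 2) = ((2 * n : ℤ) : WithTop ℤ)) :
    ord z F = (n : WithTop ℤ) := by
  rw [ord_pow] at h
  cases hx : ord z F with
  | top =>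
    rw [hx] at h
    exfalso
    have h1 : ((2 : ℕ) : WithTop ℤ) * ⊤ = ⊤ := WithTop.mul_top (by decide)
    rw [h1] at h
    exact WithTop.top_ne_coe h
  | coe m =>
    rw [hx] at h
    have h1 : ((2 : ℕ) : WithTop ℤ) * (m : WithTop ℤ) = ((2 * m : ℤ) : WithTop ℤ) := rfl
    rw [h1, WithTop.coe_inj] at h
    rw [WithTop.coe_inj]
    omega

/-- The orders of `D, h0, h2, dl` in terms of the orders of the linear factors. -/
private lemma G04_ord (h : IsData t S D h0 h2 dl) {z : ℍ} {m1 m1' ma ma' mb mb' : ℤ}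
    (e1 : ord z (S - cst 1) = (m1 : WithTop ℤ)) (e1' : ord z (S - cst (-1)) = (m1' : WithTop ℤ))
    (ea : ord z (S - cst (aa t)) = (ma : WithTop ℤ))
    (ea' : ord z (S - cst (-(aa t : ℂ))) = (ma' : WithTop ℤ))
    (eb : ord z (S - cst (Complex.I * bb t)) = (mb : WithTop ℤ))
    (eb' : ord z (S - cst (-(Complex.I * bb t))) = (mb' : WithTop ℤ))
    (d d0 d2 dd : ℤ) (hd : 2 * d = mb + mb' - (m1 + m1')) (hd0 : 2 * d0 = ma + mb')
    (hd2 : 2 * d2 = ma' + mb) (hdd : 2 * dd = ma + ma') :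
    ord z D = (d : WithTop ℤ) ∧ ord z h0 = (d0 : WithTop ℤ) ∧ ord z h2 = (d2 : WithTop ℤ) ∧
      ord z dl = (dd : WithTop ℤ) := by
  have hS1 : S ^ 2 - 1 = (S - cst 1) * (S - cst (-1)) := by
    rw [map_neg, map_one]
    ring
  have hSb : S ^ 2 + cst ((bb t : ℂ) ^ 2) =
      (S - cst (Complex.I * bb t)) * (S - cst (-(Complex.I * bb t))) := by
    have h2 : (Complex.I * bb t : ℂ) * (Complex.I * bb t) = -((bb t : ℂ) ^ 2) := by
      linear_combination ((bb t : ℂ) ^ 2) * Complex.I_mul_I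
    have h3 : cst (Complex.I * bb t) * cst (Complex.I * bb t) = -cst ((bb t : ℂ) ^ 2) := by
      rw [← map_mul, h2, map_neg]
    rw [map_neg]
    linear_combination h3
  have hS1' : S ^ 2 - 1 ≠ 0 := by
    rw [hS1]
    exact mul_ne_zero (G04_sub_ne h.toIsS 1) (G04_sub_ne h.toIsS (-1))
  have hD : D ^ 2 = (S ^ 2 + cst ((bb t : ℂ) ^ 2)) / (S ^ 2 - 1) := by
    rw [eq_div_iff hS1', h.eqD]
  refine ⟨G04_half ?_, G04_half ?_, G04_half ?_, G04_half ?_⟩
  · rw [hD, hS1, hSb, ord_div, ord_mul, ord_mul, e1, e1', eb, eb', hd]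
    rfl
  · have h3 : S + cst (Complex.I * bb t) = S - cst (-(Complex.I * bb t)) := by
      rw [map_neg, sub_neg_eq_add]
    rw [h.eq0, ord_mul, h3, ea, eb', hd0]
    rfl
  · have h3 : S + cst (aa t) = S - cst (-(aa t : ℂ)) := by
      rw [map_neg, sub_neg_eq_add]
    rw [h.eq2, ord_mul, h3, ea', eb, hd2]
    rfl
  · have h3 : S ^ 2 - cst ((aa t : ℂ) ^ 2) = (S - cst (aa t)) * (S - cst (-(aa t : ℂ))) := by
      rw [map_pow, map_neg]
      ring
    rw [h.eql, h3, ord_mul, ea, ea', hdd]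
    rfl

/-- The six special values are different. -/
private lemma G04_ne (ht : 1 < t) : (1 : ℂ) ≠ -1 ∧ (1 : ℂ) ≠ aa t ∧ (1 : ℂ) ≠ -(aa t : ℂ) ∧
    (1 : ℂ) ≠ Complex.I * bb t ∧ (1 : ℂ) ≠ -(Complex.I * bb t) ∧
    (-1 : ℂ) ≠ aa t ∧ (-1 : ℂ) ≠ -(aa t : ℂ) ∧
    (-1 : ℂ) ≠ Complex.I * bb t ∧ (-1 : ℂ) ≠ -(Complex.I * bb t) ∧
    (aa t : ℂ) ≠ -(aa t : ℂ) ∧ (aa t : ℂ) ≠ Complex.I * bb t ∧
    (aa t : ℂ) ≠ -(Complex.I * bb t) ∧ -(aa t : ℂ) ≠ Complex.I * bb t ∧
    -(aa t : ℂ) ≠ -(Complex.I * bb t) ∧ (Complex.I * bb t : ℂ) ≠ -(Complex.I * bb t) := by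
  have ha := one_lt_aa ht
  have hb := bb_pos ht
  have hre : ∀ {x y : ℂ}, x.re ≠ y.re → x ≠ y := fun h e => h (congrArg Complex.re e)
  have him : ∀ {x y : ℂ}, x.im ≠ y.im → x ≠ y := fun h e => h (congrArg Complex.im e)
  refine ⟨hre ?_, hre ?_, hre ?_, hre ?_, hre ?_, hre ?_, hre ?_, hre ?_, hre ?_, hre ?_, hre ?_,
    hre ?_, hre ?_, hre ?_, him ?_⟩ <;> simp <;> linarith

/-- `S = ∞` -/
lemma IsData.ord_infty (h : IsData t S D h0 h2 dl) {z : ℍ} (hz : ord z S = -1) :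
    ord z D = 0 ∧ ord z h0 = -1 ∧ ord z h2 = -1 ∧ ord z dl = -1 :=
  G04_ord h (G04_pole hz _) (G04_pole hz _) (G04_pole hz _) (G04_pole hz _) (G04_pole hz _)
    (G04_pole hz _) 0 (-1) (-1) (-1) (by norm_num) (by norm_num) (by norm_num) (by norm_num)

/-- `S = 1` -/
lemma IsData.ord_one (h : IsData t S D h0 h2 dl) {z : ℍ} (hz : ord z (S - cst 1) = 2) :
    ord z D = -1 ∧ ord z h0 = 0 ∧ ord z h2 = 0 ∧ ord z dl = 0 := by
  obtain ⟨n1, n2, n3, n4, n5, n6, n7, n8, n9, n10, n11, n12, n13, n14, n15⟩ := G04_ne h.ht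
  have hv : ∀ {d : ℂ}, (1 : ℂ) ≠ d → ord z (S - cst d) = ((0 : ℤ) : WithTop ℤ) := fun hd =>
    G04_val (n := 2) (by norm_num) hz hd
  exact G04_ord h (m1 := 2) hz (hv n1) (hv n2) (hv n3) (hv n4) (hv n5)
    (-1) 0 0 0 (by norm_num) (by norm_num) (by norm_num) (by norm_num)

/-- `S = -1` -/
lemma IsData.ord_neg_one (h : IsData t S D h0 h2 dl) {z : ℍ} (hz : ord z (S - cst (-1)) = 2) :
    ord z D = -1 ∧ ord z h0 = 0 ∧ ord z h2 = 0 ∧ ord z dl = 0 := by
  obtain ⟨n1, n2, n3, n4, n5, n6, n7, n8, n9, n10, n11, n12, n13, n14, n15⟩ := G04_ne h.ht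
  have hv : ∀ {d : ℂ}, (-1 : ℂ) ≠ d → ord z (S - cst d) = ((0 : ℤ) : WithTop ℤ) := fun hd =>
    G04_val (n := 2) (by norm_num) hz hd
  exact G04_ord h (m1' := 2) (hv n1.symm) hz (hv n6) (hv n7) (hv n8) (hv n9)
    (-1) 0 0 0 (by norm_num) (by norm_num) (by norm_num) (by norm_num)

/-- `S = a` -/
lemma IsData.ord_a (h : IsData t S D h0 h2 dl) {z : ℍ} (hz : ord z (S - cst (aa t)) = 2) :
    ord z D = 0 ∧ ord z h0 = 1 ∧ ord z h2 = 0 ∧ ord z dl = 1 := by
  obtain ⟨n1, n2, n3, n4, n5, n6, n7, n8, n9, n10, n11, n12, n13, n14, n15⟩ := G04_ne h.ht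
  have hv : ∀ {d : ℂ}, (aa t : ℂ) ≠ d → ord z (S - cst d) = ((0 : ℤ) : WithTop ℤ) := fun hd =>
    G04_val (n := 2) (by norm_num) hz hd
  exact G04_ord h (ma := 2) (hv n2.symm) (hv n6.symm) hz (hv n10) (hv n11) (hv n12)
    0 1 0 1 (by norm_num) (by norm_num) (by norm_num) (by norm_num)

/-- `S = -a` -/
lemma IsData.ord_neg_a (h : IsData t S D h0 h2 dl) {z : ℍ}
    (hz : ord z (S - cst (-(aa t : ℂ))) = 2) :
    ord z D = 0 ∧ ord z h0 = 0 ∧ ord z h2 = 1 ∧ ord z dl = 1 := by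
  obtain ⟨n1, n2, n3, n4, n5, n6, n7, n8, n9, n10, n11, n12, n13, n14, n15⟩ := G04_ne h.ht
  have hv : ∀ {d : ℂ}, -(aa t : ℂ) ≠ d → ord z (S - cst d) = ((0 : ℤ) : WithTop ℤ) := fun hd =>
    G04_val (n := 2) (by norm_num) hz hd
  exact G04_ord h (ma' := 2) (hv n3.symm) (hv n7.symm) (hv n10.symm) hz (hv n13) (hv n14)
    0 0 1 1 (by norm_num) (by norm_num) (by norm_num) (by norm_num)

/-- `S = i b` -/
lemma IsData.ord_ib (h : IsData t S D h0 h2 dl) {z : ℍ}
    (hz : ord z (S - cst (Complex.I * bb t)) = 2) :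
    ord z D = 1 ∧ ord z h0 = 0 ∧ ord z h2 = 1 ∧ ord z dl = 0 := by
  obtain ⟨n1, n2, n3, n4, n5, n6, n7, n8, n9, n10, n11, n12, n13, n14, n15⟩ := G04_ne h.ht
  have hv : ∀ {d : ℂ}, (Complex.I * bb t : ℂ) ≠ d → ord z (S - cst d) = ((0 : ℤ) : WithTop ℤ) :=
    fun hd => G04_val (n := 2) (by norm_num) hz hd
  exact G04_ord h (mb := 2) (hv n4.symm) (hv n8.symm) (hv n11.symm) (hv n13.symm) hz (hv n15)
    1 0 1 0 (by norm_num) (by norm_num) (by norm_num) (by norm_num)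

/-- `S = -i b` -/
lemma IsData.ord_neg_ib (h : IsData t S D h0 h2 dl) {z : ℍ}
    (hz : ord z (S - cst (-(Complex.I * bb t))) = 2) :
    ord z D = 1 ∧ ord z h0 = 1 ∧ ord z h2 = 0 ∧ ord z dl = 0 := by
  obtain ⟨n1, n2, n3, n4, n5, n6, n7, n8, n9, n10, n11, n12, n13, n14, n15⟩ := G04_ne h.ht
  have hv : ∀ {d : ℂ}, (-(Complex.I * bb t) : ℂ) ≠ d →
      ord z (S - cst d) = ((0 : ℤ) : WithTop ℤ) :=
    fun hd => G04_val (n := 2) (by norm_num) hz hd
  exact G04_ord h (mb' := 2) (hv n5.symm) (hv n9.symm) (hv n12.symm) (hv n14.symm) (hv n15.symm) hz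
    1 1 0 0 (by norm_num) (by norm_num) (by norm_num) (by norm_num)

/-- regular points -/
lemma IsData.ord_reg (h : IsData t S D h0 h2 dl) {z : ℍ} {c : ℂ} (hc : c ∉ specS t)
    (hz : ord z (S - cst c) = 1) :
    ord z D = 0 ∧ ord z h0 = 0 ∧ ord z h2 = 0 ∧ ord z dl = 0 := by
  have hv : ∀ {d : ℂ}, d ∈ specS t → ord z (S - cst d) = ((0 : ℤ) : WithTop ℤ) :=
    fun hd => G04_val (n := 1) (by norm_num) hz (fun e => hc (e ▸ hd))
  obtain ⟨m1, m2, m3, m4⟩ := G04_mem (t := t)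
  exact G04_ord h (hv (by simp [specS])) (hv (by simp [specS])) (hv m1) (hv m2) (hv m3) (hv m4)
    0 0 0 0 (by norm_num) (by norm_num) (by norm_num) (by norm_num)

end Pool.Agent.Lib.MP_b9289b_nt
end
end

section

/-!
# G06: rotations with given signs

The points exist by `exists_eq_val` for the group `fixer {S}` (`IsS.cocompact`) and the nonconstant
function `S`; there `ord (S - c) = 2` by `IsS.ram` (the other cases are excluded by
`HasVal.unique`, `HasVal.ord_nonneg`).  `IsS.rot` gives the rotation, and the signs are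
`(-1)^ord` by `IsRot.even`, `IsRot.odd` and `G04` (an element fixing `S` acts on `D, h0, h2, dl` by
signs because it fixes their squares).
-/

open UpperHalfPlane Filter Topology MatrixGroups
open scoped ContDiff ComplexConjugate

noncomputable section

namespace Pool.Agent.Lib.MP_b9289b_nt

open Mer

variable {t : ℝ} {S D h0 h2 dl : Mer}

private lemma sgn_of_sq {γ : SL(2, ℝ)} {F : Mer} (h : actS γ (F ^ 2) = F ^ 2) :
    actS γ F = F ∨ actS γ F = -F := by
  rw [map_pow] at h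
  exact sq_eq_sq_iff_eq_or_eq_neg.1 h

private lemma IsS.sq_sub_one_ne (h : IsS t S D) : S ^ 2 - 1 ≠ 0 := by
  have h1 : S ^ 2 - 1 = (S - cst 1) * (S - cst (-1)) := by
    rw [map_neg, map_one]
    ring
  rw [h1]
  exact mul_ne_zero (sub_ne_zero.2 (h.S_ne_cst 1)) (sub_ne_zero.2 (h.S_ne_cst (-1)))

private lemma IsS.sgn_D (h : IsS t S D) {γ : SL(2, ℝ)} (hγ : actS γ (S ^ 2) = S ^ 2) :
    actS γ D = D ∨ actS γ D = -D := by
  apply sgn_of_sq
  have h1 := congrArg (actS γ) h.eqD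
  rw [map_mul, map_sub, map_add (actS γ) (S ^ 2), map_one, actS_cst, hγ] at h1
  have h3 : actS γ (D ^ 2) * (S ^ 2 - 1) = D ^ 2 * (S ^ 2 - 1) := by rw [h1, h.eqD]
  exact mul_right_cancel₀ h.sq_sub_one_ne h3

private lemma IsData.sgn' (h : IsData t S D h0 h2 dl) {γ : SL(2, ℝ)} (hγ : actS γ S = S) :
    (actS γ D = D ∨ actS γ D = -D) ∧ (actS γ h0 = h0 ∨ actS γ h0 = -h0) ∧
    (actS γ h2 = h2 ∨ actS γ h2 = -h2) ∧ (actS γ dl = dl ∨ actS γ dl = -dl) := by
  refine ⟨h.toIsS.sgn_D (by rw [map_pow, hγ]), ?_, ?_, ?_⟩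
  · apply sgn_of_sq
    rw [h.eq0, map_mul, map_sub, map_add, actS_cst, actS_cst, hγ]
  · apply sgn_of_sq
    rw [h.eq2, map_mul, map_sub, map_add, actS_cst, actS_cst, hγ]
  · apply sgn_of_sq
    rw [h.eql, map_sub, map_pow, actS_cst, hγ]

private lemma even_case {γ : SL(2, ℝ)} {z : ℍ} (hγ : IsRot γ z) {F : Mer}
    (h0 : ord z F = 0) (h : actS γ F = F ∨ actS γ F = -F) : actS γ F = F := by
  rcases h with h | h
  · exact h
  · have h1 : Odd (0 : ℤ) := hγ.odd (F := F) (n := 0) (by rw [h0]; rfl) h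
    exact absurd h1 (by decide)

private lemma odd_case {γ : SL(2, ℝ)} {z : ℍ} (hγ : IsRot γ z) {F : Mer}
    (h0 : ord z F = 1 ∨ ord z F = -1) (h : actS γ F = F ∨ actS γ F = -F) : actS γ F = -F := by
  rcases h with h | h
  · rcases h0 with h0 | h0
    · have h1 : Even (1 : ℤ) := hγ.even (F := F) (n := 1) (by rw [h0]; rfl) h
      exact absurd h1 (by decide)
    · have h1 : Even (-1 : ℤ) := hγ.even (F := F) (n := -1) (by rw [h0]; rfl) h
      exact absurd h1 (by decide)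
  · exact h

lemma IsS.exists_point (h : IsS t S D) {c : ℂ} (hc : c ∈ specS t) :
    ∃ z, ord z (S - cst c) = 2 := by
  have hK : S ∈ Kf (fixer {S}) := fun γ hγ => hγ S rfl
  obtain ⟨z, hz⟩ := exists_eq_val h.cocompact hK h.S_ne_cst c
  have hz' : HasVal z S c := hz
  refine ⟨z, ?_⟩
  rcases h.ram z with h1 | ⟨d, -, h1⟩ | ⟨d, hd, h1⟩
  · have h2 := hz'.ord_nonneg
    rw [h1] at h2
    exact absurd h2 (by decide)
  · have h2 : HasVal z S d := by
      unfold HasVal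
      rw [h1]
      decide
    rw [hz'.unique h2]
    exact h1
  · have h2 : HasVal z S d := by
      unfold HasVal
      rw [h1]
      decide
    rw [hz'.unique h2] at hc
    exact absurd hc hd

lemma IsData.rot_one (h : IsData t S D h0 h2 dl) : ∃ γ : SL(2, ℝ),
    actS γ S = S ∧ actS γ D = -D ∧ actS γ h0 = h0 ∧ actS γ h2 = h2 ∧ actS γ dl = dl := by
  have hc : (1 : ℂ) ∈ specS t := by simp [specS]
  obtain ⟨z, hz⟩ := h.toIsS.exists_point hc
  obtain ⟨γ, hγS, hγ⟩ := h.rot z 1 hc hz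
  obtain ⟨s1, s2, s3, s4⟩ := h.sgn' hγS
  obtain ⟨o1, o2, o3, o4⟩ := h.ord_one hz
  exact ⟨γ, hγS, odd_case hγ (Or.inr o1) s1, even_case hγ o2 s2, even_case hγ o3 s3,
    even_case hγ o4 s4⟩

lemma IsData.rot_a (h : IsData t S D h0 h2 dl) : ∃ γ : SL(2, ℝ),
    actS γ S = S ∧ actS γ D = D ∧ actS γ h0 = -h0 ∧ actS γ h2 = h2 ∧ actS γ dl = -dl := by
  have hc : (aa t : ℂ) ∈ specS t := by simp [specS]
  obtain ⟨z, hz⟩ := h.toIsS.exists_point hc
  obtain ⟨γ, hγS, hγ⟩ := h.rot z _ hc hz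
  obtain ⟨s1, s2, s3, s4⟩ := h.sgn' hγS
  obtain ⟨o1, o2, o3, o4⟩ := h.ord_a hz
  exact ⟨γ, hγS, even_case hγ o1 s1, odd_case hγ (Or.inl o2) s2, even_case hγ o3 s3,
    odd_case hγ (Or.inl o4) s4⟩

lemma IsData.rot_neg_a (h : IsData t S D h0 h2 dl) : ∃ γ : SL(2, ℝ),
    actS γ S = S ∧ actS γ D = D ∧ actS γ h0 = h0 ∧ actS γ h2 = -h2 ∧ actS γ dl = -dl := by
  have hc : (-(aa t : ℂ)) ∈ specS t := by simp [specS]
  obtain ⟨z, hz⟩ := h.toIsS.exists_point hc
  obtain ⟨γ, hγS, hγ⟩ := h.rot z _ hc hz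
  obtain ⟨s1, s2, s3, s4⟩ := h.sgn' hγS
  obtain ⟨o1, o2, o3, o4⟩ := h.ord_neg_a hz
  exact ⟨γ, hγS, even_case hγ o1 s1, even_case hγ o2 s2, odd_case hγ (Or.inl o3) s3,
    odd_case hγ (Or.inl o4) s4⟩

/-- The element `ν`: `S ↦ -S` (from `IsS.rot'`, `S` has a pole by `exists_pole`). -/
lemma IsData.exists_nu (h : IsData t S D h0 h2 dl) : ∃ ν : SL(2, ℝ),
    actS ν S = -S ∧ (actS ν D = D ∨ actS ν D = -D) ∧ (actS ν dl = dl ∨ actS ν dl = -dl) := by
  have hK : S ∈ Kf (fixer {S}) := fun γ hγ => hγ S rfl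
  obtain ⟨z, hz⟩ := exists_pole h.cocompact hK h.toIsS.S_ne_cst
  have key : ∀ c, 0 < ord z (S - cst c) → False := by
    intro c hc
    have h1 : HasVal z S c := hc
    exact absurd hz (not_lt.2 h1.ord_nonneg)
  have hz1 : ord z S = -1 := by
    rcases h.ram z with h1 | ⟨d, -, h1⟩ | ⟨d, -, h1⟩
    · exact h1
    · exact (key d (by rw [h1]; decide)).elim
    · exact (key d (by rw [h1]; decide)).elim
  obtain ⟨ν, hν, -⟩ := h.rot' z (Or.inl hz1)
  have hν2 : actS ν (S ^ 2) = S ^ 2 := by rw [map_pow, hν, neg_sq]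
  refine ⟨ν, hν, h.toIsS.sgn_D hν2, ?_⟩
  apply sgn_of_sq
  rw [h.eql, map_sub, hν2, actS_cst]

end Pool.Agent.Lib.MP_b9289b_nt
end
end

section

/-!
# S03: eigenfunctions with a character

`Esp Γ F μ`: eigenfunctions `f` with `f ∘ γ = χ(γ) f` for `γ ∈ Γ`, where `χ(γ) = ±1` is the sign
with which `γ` acts on `F`.
-/

open UpperHalfPlane Filter Topology MatrixGroups
open scoped ContDiff ComplexConjugate

noncomputable section

namespace Pool.Agent.Lib.MP_b9289b_nt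

open Mer

/-- Eigenfunctions which transform under `Γ` as `F` does. -/
def Esp (Γ : Subgroup SL(2, ℝ)) (F : Mer) (μ : ℂ) : Submodule ℂ (ℍ → ℂ) where
  carrier := {f | IsEigen μ f ∧ ∀ γ ∈ Γ, (actS γ F = F → ∀ z : ℍ, f (γ • z) = f z) ∧
    (actS γ F = -F → ∀ z : ℍ, f (γ • z) = -f z)}
  add_mem' := by
    rintro f g ⟨hf, hf'⟩ ⟨hg, hg'⟩
    refine ⟨hf.add hg, fun γ hγ => ⟨fun h z => ?_, fun h z => ?_⟩⟩
    · simp [(hf' γ hγ).1 h z, (hg' γ hγ).1 h z]
    · simp [(hf' γ hγ).2 h z, (hg' γ hγ).2 h z, add_comm]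
  zero_mem' := by
    refine ⟨IsEigen.zero μ, fun γ hγ => ⟨fun h z => rfl, fun h z => by simp⟩⟩
  smul_mem' := by
    rintro c f ⟨hf, hf'⟩
    refine ⟨hf.const_mul c, fun γ hγ => ⟨fun h z => ?_, fun h z => ?_⟩⟩
    · simp [(hf' γ hγ).1 h z]
    · simp [(hf' γ hγ).2 h z]

private lemma S03_neg_ne {F : Mer} (hF : F ≠ 0) : -F ≠ F := by
  intro h
  have h1 : cst 2 * F = 0 := by
    have h2 : (cst 2 : Mer) = 1 + 1 := by
      rw [← map_one cst, ← map_add]
      norm_num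
    rw [h2]
    linear_combination -h
  rcases mul_eq_zero.1 h1 with h3 | h3
  · exact two_ne_zero ((map_eq_zero cst).1 h3)
  · exact hF h3

/-- The sign. -/
private def S03_s (F : Mer) (γ : SL(2, ℝ)) : ℤˣ := by
  classical
  exact if actS γ F = F then 1 else -1

private lemma S03_s_eq_one {F : Mer} {γ : SL(2, ℝ)} : S03_s F γ = 1 ↔ actS γ F = F := by
  classical
  unfold S03_s
  constructor
  · intro h
    by_contra h1
    rw [if_neg h1] at h
    exact absurd h (by decide)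
  · intro h
    rw [if_pos h]

private lemma S03_s_eq_neg {F : Mer} (hF : F ≠ 0) {γ : SL(2, ℝ)} (h : Sgn γ F) :
    S03_s F γ = -1 ↔ actS γ F = -F := by
  classical
  unfold S03_s
  constructor
  · intro h'
    by_cases h1 : actS γ F = F
    · rw [if_pos h1] at h'
      exact absurd h' (by decide)
    · exact h.resolve_left h1
  · intro h'
    rw [if_neg]
    rw [h']
    exact S03_neg_ne hF

private lemma S03_s_mul {F : Mer} (hF : F ≠ 0) {γ γ' : SL(2, ℝ)} (h : Sgn γ F) (h' : Sgn γ' F) :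
    S03_s F (γ * γ') = S03_s F γ * S03_s F γ' := by
  have hs : Sgn (γ * γ') F := by
    unfold Sgn
    rw [actS_mul]
    rcases h with h | h <;> rcases h' with h' | h' <;> rw [h]
    · exact Or.inl h'
    · exact Or.inr h'
    · exact Or.inr (by rw [map_neg, h'])
    · exact Or.inl (by rw [map_neg, h', neg_neg])
  rcases h with h | h <;> rcases h' with h' | h'
  · rw [S03_s_eq_one.2 h, S03_s_eq_one.2 h', one_mul, S03_s_eq_one, actS_mul, h, h']
  · rw [S03_s_eq_one.2 h, (S03_s_eq_neg hF (Or.inr h')).2 h', one_mul, S03_s_eq_neg hF hs, actS_mul,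
      h, h']
  · rw [S03_s_eq_one.2 h', (S03_s_eq_neg hF (Or.inr h)).2 h, mul_one, S03_s_eq_neg hF hs, actS_mul,
      h, map_neg, h']
  · rw [(S03_s_eq_neg hF (Or.inr h')).2 h', (S03_s_eq_neg hF (Or.inr h)).2 h, neg_mul_neg, one_mul,
      S03_s_eq_one, actS_mul, h, map_neg, h', neg_neg]

private lemma S03_s_one (F : Mer) : S03_s F 1 = 1 := S03_s_eq_one.2 (actS_one F)

/-- Membership in `Esp` in terms of the sign. -/
private lemma S03_mem {Γ : Subgroup SL(2, ℝ)} {F : Mer} (hF : F ≠ 0) (hsF : ∀ γ ∈ Γ, Sgn γ F)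
    {μ : ℂ} {f : ℍ → ℂ} : f ∈ Esp Γ F μ ↔ IsEigen μ f ∧ ∀ γ ∈ Γ, ∀ z : ℍ,
      f (γ • z) = (((S03_s F γ : ℤˣ) : ℤ) : ℂ) * f z := by
  constructor
  · rintro ⟨h1, h2⟩
    refine ⟨h1, fun γ hγ z => ?_⟩
    rcases hsF γ hγ with h | h
    · rw [S03_s_eq_one.2 h, (h2 γ hγ).1 h z]
      simp
    · rw [(S03_s_eq_neg hF (Or.inr h)).2 h, (h2 γ hγ).2 h z]
      simp
  · rintro ⟨h1, h2⟩
    refine ⟨h1, fun γ hγ => ⟨fun h z => ?_, fun h z => ?_⟩⟩
    · rw [h2 γ hγ z, S03_s_eq_one.2 h]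
      simp
    · rw [h2 γ hγ z, (S03_s_eq_neg hF (Or.inr h)).2 h]
      simp

private lemma S03_sum (φ : ℤˣ × ℤˣ → ℂ) :
    ∑ p, φ p = φ (1, 1) + φ (1, -1) + (φ (-1, 1) + φ (-1, -1)) := by
  rw [Fintype.sum_prod_type, UnitsInt.univ]
  rw [Finset.sum_pair (by decide), Finset.sum_pair (by decide), Finset.sum_pair (by decide)]

private lemma S03_eig {μ : ℂ} (φ : ℤˣ × ℤˣ → ℍ → ℂ) (h : ∀ p, IsEigen μ (φ p)) :
    IsEigen μ (fun z => ∑ p, φ p z) := by
  have h1 : (fun z => ∑ p, φ p z) = fun z =>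
      (φ (1, 1) z + φ (1, -1) z) + (φ (-1, 1) z + φ (-1, -1) z) := by
    funext z
    rw [S03_sum]
  rw [h1]
  exact ((h _).add (h _)).add ((h _).add (h _))

/-- Decomposition for a subgroup with quotient `(ℤ/2)²`.  `Γ'` is normal in `Γ`.
For `f ∈ Eigenspace Γ' μ` the components are
`f_{±±} = (f ± f ∘ γ₁ ± f ∘ γ₂ ± f ∘ (γ₁ γ₂)) / 4`; they are in the respective `Esp` because every
`γ ∈ Γ` is in `Γ'`, `Γ' γ₁`, `Γ' γ₂` or `Γ' γ₁ γ₂`; the inverse is the sum of the four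
components, all of which are `Γ'`-invariant.  (`F, G ≠ 0` makes the signs well defined,
`2 ≠ 0` in `Mer`.) -/
theorem decomp_four {Γ Γ' : Subgroup SL(2, ℝ)} {F G : Mer} (hF : F ≠ 0) (hG : G ≠ 0)
    (hsF : ∀ γ ∈ Γ, Sgn γ F) (hsG : ∀ γ ∈ Γ, Sgn γ G)
    (hΓ' : ∀ γ, γ ∈ Γ' ↔ γ ∈ Γ ∧ actS γ F = F ∧ actS γ G = G)
    (e1 : ∃ γ ∈ Γ, actS γ F = -F ∧ actS γ G = G) (e2 : ∃ γ ∈ Γ, actS γ F = F ∧ actS γ G = -G)
    (μ : ℂ) : Nonempty (Eigenspace Γ' μ ≃ₗ[ℂ]
      (Esp Γ 1 μ × Esp Γ F μ) × (Esp Γ G μ × Esp Γ (F * G) μ)) := by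
  classical
  have hs1 : ∀ γ ∈ Γ, Sgn γ 1 := fun γ _ => Or.inl (map_one _)
  have hFG : F * G ≠ 0 := mul_ne_zero hF hG
  have hsFG : ∀ γ ∈ Γ, Sgn γ (F * G) := by
    intro γ hγ
    unfold Sgn
    rw [map_mul]
    rcases hsF γ hγ with h | h <;> rcases hsG γ hγ with h' | h' <;> rw [h, h']
    · exact Or.inl rfl
    · exact Or.inr (by ring)
    · exact Or.inr (by ring)
    · exact Or.inl (by ring)
  have hsm : ∀ γ ∈ Γ, S03_s (F * G) γ = S03_s F γ * S03_s G γ := by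
    intro γ hγ
    rcases hsF γ hγ with h | h <;> rcases hsG γ hγ with h' | h'
    · rw [S03_s_eq_one.2 h, S03_s_eq_one.2 h', one_mul, S03_s_eq_one, map_mul, h, h']
    · rw [S03_s_eq_one.2 h, (S03_s_eq_neg hG (Or.inr h')).2 h', one_mul,
        S03_s_eq_neg hFG (hsFG γ hγ), map_mul, h, h']
      ring
    · rw [S03_s_eq_one.2 h', (S03_s_eq_neg hF (Or.inr h)).2 h, mul_one,
        S03_s_eq_neg hFG (hsFG γ hγ), map_mul, h, h']
      ring
    · rw [(S03_s_eq_neg hG (Or.inr h')).2 h', (S03_s_eq_neg hF (Or.inr h)).2 h, neg_mul_neg,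
        one_mul, S03_s_eq_one, map_mul, h, h']
      ring
  have hrep : ∀ p : ℤˣ × ℤˣ, ∃ g ∈ Γ, S03_s F g = p.1 ∧ S03_s G g = p.2 := by
    obtain ⟨γ₁, h1, h1F, h1G⟩ := e1
    obtain ⟨γ₂, h2, h2F, h2G⟩ := e2
    have a1 := (S03_s_eq_neg hF (Or.inr h1F)).2 h1F
    have a2 := S03_s_eq_one.2 h1G
    have a3 := S03_s_eq_one.2 h2F
    have a4 := (S03_s_eq_neg hG (Or.inr h2G)).2 h2G
    rintro ⟨p, q⟩
    rcases Int.units_eq_one_or p with rfl | rfl <;> rcases Int.units_eq_one_or q with rfl | rfl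
    · exact ⟨1, Γ.one_mem, S03_s_one F, S03_s_one G⟩
    · exact ⟨γ₂, h2, a3, a4⟩
    · exact ⟨γ₁, h1, a1, a2⟩
    · refine ⟨γ₁ * γ₂, Γ.mul_mem h1 h2, ?_, ?_⟩
      · rw [S03_s_mul hF (hsF _ h1) (hsF _ h2), a1, a3]
        rfl
      · rw [S03_s_mul hG (hsG _ h1) (hsG _ h2), a2, a4]
        rfl
  choose rep hrepΓ hrepF hrepG using hrep
  have key : ∀ f ∈ Eigenspace Γ' μ, ∀ g ∈ Γ, ∀ g' ∈ Γ, S03_s F g = S03_s F g' →
      S03_s G g = S03_s G g' → ∀ z : ℍ, f (g • z) = f (g' • z) := by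
    intro f hf g hg g' hg' hF' hG' z
    have hinv := Γ.inv_mem hg'
    have hq : ∀ {H : Mer}, H ≠ 0 → (∀ γ ∈ Γ, Sgn γ H) → S03_s H g = S03_s H g' →
        actS (g * g'⁻¹) H = H := by
      intro H hH hsH he
      rw [← S03_s_eq_one, S03_s_mul hH (hsH _ hg) (hsH _ hinv), he,
        ← S03_s_mul hH (hsH _ hg') (hsH _ hinv), mul_inv_cancel, S03_s_one]
    have h1 : g * g'⁻¹ ∈ Γ' := (hΓ' _).2 ⟨Γ.mul_mem hg hinv, hq hF hsF hF', hq hG hsG hG'⟩
    have h2 := hf.2 _ h1 (g' • z)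
    rw [smul_smul, inv_mul_cancel_right] at h2
    exact h2
  -- the components
  set cmp : (ℤˣ × ℤˣ → ℤˣ) → (ℍ → ℂ) → ℍ → ℂ := fun χ f z =>
    ∑ p, (1 / 4 * ((χ p : ℤ) : ℂ)) * f (rep p • z) with hcmp
  have hcmpE : ∀ χ f, IsEigen μ f → IsEigen μ (cmp χ f) := fun χ f hf =>
    S03_eig _ fun p => (hf.smul _).const_mul _
  have hcmpT : ∀ (χ : ℤˣ × ℤˣ → ℤˣ), (∀ p q, χ (p * q) = χ p * χ q) →
      ∀ f ∈ Eigenspace Γ' μ, ∀ γ ∈ Γ, ∀ z : ℍ,
      cmp χ f (γ • z) = ((χ (S03_s F γ, S03_s G γ) : ℤ) : ℂ) * cmp χ f z := by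
    intro χ hχ f hf γ hγ z
    set σ : ℤˣ × ℤˣ := (S03_s F γ, S03_s G γ) with hσ
    have hσσ : σ * σ = 1 := by
      ext <;> simp
    have h1 : ∀ p, f (rep p • γ • z) = f (rep (p * σ) • z) := by
      intro p
      rw [smul_smul]
      refine key f hf _ (Γ.mul_mem (hrepΓ p) hγ) _ (hrepΓ _) ?_ ?_ z
      · rw [S03_s_mul hF (hsF _ (hrepΓ p)) (hsF _ hγ), hrepF, hrepF]
        rfl
      · rw [S03_s_mul hG (hsG _ (hrepΓ p)) (hsG _ hγ), hrepG, hrepG]
        rfl
    rw [hcmp]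
    simp only [h1]
    rw [← Equiv.sum_comp (Equiv.mulRight σ), Finset.mul_sum]
    refine Finset.sum_congr rfl fun p _ => ?_
    rw [Equiv.coe_mulRight, mul_assoc p, hσσ, mul_one, hχ]
    push_cast
    ring
  -- membership
  have m1 : ∀ f ∈ Eigenspace Γ' μ, cmp (fun _ => 1) f ∈ Esp Γ 1 μ := by
    intro f hf
    rw [S03_mem one_ne_zero hs1]
    refine ⟨hcmpE _ _ hf.1, fun γ hγ z => ?_⟩
    rw [hcmpT _ (fun _ _ => rfl) f hf γ hγ z, S03_s_eq_one.2 (map_one (actS γ))]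
  have m2 : ∀ f ∈ Eigenspace Γ' μ, cmp (fun p => p.1) f ∈ Esp Γ F μ := by
    intro f hf
    rw [S03_mem hF hsF]
    exact ⟨hcmpE _ _ hf.1, fun γ hγ z => hcmpT _ (fun _ _ => rfl) f hf γ hγ z⟩
  have m3 : ∀ f ∈ Eigenspace Γ' μ, cmp (fun p => p.2) f ∈ Esp Γ G μ := by
    intro f hf
    rw [S03_mem hG hsG]
    exact ⟨hcmpE _ _ hf.1, fun γ hγ z => hcmpT _ (fun _ _ => rfl) f hf γ hγ z⟩
  have m4 : ∀ f ∈ Eigenspace Γ' μ, cmp (fun p => p.1 * p.2) f ∈ Esp Γ (F * G) μ := by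
    intro f hf
    rw [S03_mem hFG hsFG]
    refine ⟨hcmpE _ _ hf.1, fun γ hγ z => ?_⟩
    rw [hsm γ hγ]
    exact hcmpT _ (fun p q => mul_mul_mul_comm _ _ _ _) f hf γ hγ z
  have hsub : ∀ {H : Mer}, H ≠ 0 → (∀ γ ∈ Γ, Sgn γ H) → (∀ γ ∈ Γ', actS γ H = H) →
      ∀ f ∈ Esp Γ H μ, f ∈ Eigenspace Γ' μ := by
    intro H hH hsH hH' f hf
    exact ⟨hf.1, fun γ hγ z => (hf.2 γ ((hΓ' γ).1 hγ).1).1 (hH' γ hγ) z⟩
  have i1 := hsub one_ne_zero hs1 fun γ _ => map_one _
  have i2 := hsub hF hsF fun γ hγ => ((hΓ' γ).1 hγ).2.1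
  have i3 := hsub hG hsG fun γ hγ => ((hΓ' γ).1 hγ).2.2
  have i4 := hsub hFG hsFG fun γ hγ => by
    rw [map_mul, ((hΓ' γ).1 hγ).2.1, ((hΓ' γ).1 hγ).2.2]
  set Φ : ((Esp Γ 1 μ × Esp Γ F μ) × (Esp Γ G μ × Esp Γ (F * G) μ)) →ₗ[ℂ] Eigenspace Γ' μ :=
    { toFun := fun x => ⟨(x.1.1.1 + x.1.2.1) + (x.2.1.1 + x.2.2.1),
        add_mem (add_mem (i1 _ x.1.1.2) (i2 _ x.1.2.2)) (add_mem (i3 _ x.2.1.2) (i4 _ x.2.2.2))⟩
      map_add' := fun x y => Subtype.ext (by
        funext z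
        simp only [Prod.fst_add, Prod.snd_add, Submodule.coe_add, Pi.add_apply]
        ring)
      map_smul' := fun c x => Subtype.ext (by
        funext z
        simp only [Prod.smul_fst, Prod.smul_snd, Submodule.coe_smul, Pi.add_apply, Pi.smul_apply,
          smul_eq_mul, RingHom.id_apply]
        ring) } with hΦ
  have hinj : Function.Injective Φ := by
    rw [injective_iff_map_eq_zero]
    rintro ⟨⟨a, b⟩, ⟨c, d⟩⟩ h
    have h0 : ∀ z : ℍ, a.1 z + b.1 z + (c.1 z + d.1 z) = 0 := fun z => congrFun (congrArg Subtype.val h) z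
    have ta := ((S03_mem one_ne_zero hs1).1 a.2).2
    have tb := ((S03_mem hF hsF).1 b.2).2
    have tc := ((S03_mem hG hsG).1 c.2).2
    have td := ((S03_mem hFG hsFG).1 d.2).2
    have t1 : ∀ g : SL(2, ℝ), S03_s 1 g = 1 := fun g => S03_s_eq_one.2 (map_one _)
    have hall : ∀ (p : ℤˣ × ℤˣ) (z : ℍ), a.1 z + ((p.1 : ℤ) : ℂ) * b.1 z + (((p.2 : ℤ) : ℂ) * c.1 z +
        (((p.1 * p.2 : ℤˣ) : ℤ) : ℂ) * d.1 z) = 0 := by
      intro p z
      have h1 := h0 (rep p • z)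
      rw [ta _ (hrepΓ p), tb _ (hrepΓ p), tc _ (hrepΓ p), td _ (hrepΓ p), t1, hsm _ (hrepΓ p),
        hrepF, hrepG] at h1
      simpa using h1
    have hz : ∀ z : ℍ, a.1 z = 0 ∧ b.1 z = 0 ∧ c.1 z = 0 ∧ d.1 z = 0 := by
      intro z
      have h1 := hall (1, 1) z
      have h2 := hall (-1, 1) z
      have h3 := hall (1, -1) z
      have h4 := hall (-1, -1) z
      simp only [Units.val_one, Units.val_neg, Int.cast_one, Int.cast_neg, one_mul, mul_one,
        neg_mul, mul_neg, neg_neg] at h1 h2 h3 h4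
      refine ⟨?_, ?_, ?_, ?_⟩
      · linear_combination (h1 + h2 + h3 + h4) / 4
      · linear_combination (h1 - h2 + h3 - h4) / 4
      · linear_combination (h1 + h2 - h3 - h4) / 4
      · linear_combination (h1 - h2 - h3 + h4) / 4
    have ha : a = 0 := Subtype.ext (funext fun z => (hz z).1)
    have hb : b = 0 := Subtype.ext (funext fun z => (hz z).2.1)
    have hc : c = 0 := Subtype.ext (funext fun z => (hz z).2.2.1)
    have hd : d = 0 := Subtype.ext (funext fun z => (hz z).2.2.2)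
    rw [ha, hb, hc, hd]
    rfl
  have hsurj : Function.Surjective Φ := by
    rintro ⟨f, hf⟩
    refine ⟨((⟨_, m1 f hf⟩, ⟨_, m2 f hf⟩), (⟨_, m3 f hf⟩, ⟨_, m4 f hf⟩)), Subtype.ext ?_⟩
    funext z
    have h1 : f (rep (1, 1) • z) = f z := by
      have h2 := key f hf (rep (1, 1)) (hrepΓ _) 1 Γ.one_mem
        (by rw [hrepF, S03_s_one]) (by rw [hrepG, S03_s_one]) z
      rw [h2, one_smul]
    change (cmp (fun _ => 1) f z + cmp (fun p => p.1) f z) +
      (cmp (fun p => p.2) f z + cmp (fun p => p.1 * p.2) f z) = f z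
    rw [hcmp]
    simp only [S03_sum]
    simp only [Units.val_one, Units.val_neg, Int.cast_one, Int.cast_neg, mul_one, mul_neg,
      neg_mul, neg_neg, h1]
    ring
  exact ⟨(LinearEquiv.ofBijective Φ ⟨hinj, hsurj⟩).symm⟩

/-- Transport by an element `g ∈ GL(2,ℝ)` normalising `Γ`: `f ↦ f ∘ g`, with inverse
`f ↦ f ∘ g⁻¹`.  If `γ' g = g γ` then `act γ (act g F) = act g (act γ' F)`, and `act g F = H F'`
with `H` invariant, so `γ` acts on `F'` as `γ'` does on `F`. -/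
theorem transport {Γ : Subgroup SL(2, ℝ)} {F F' : Mer} (hF : F ≠ 0) (hF' : F' ≠ 0)
    (hsF : ∀ γ ∈ Γ, Sgn γ F) (hsF' : ∀ γ ∈ Γ, Sgn γ F') (g : GL (Fin 2) ℝ)
    (h1 : ∀ γ ∈ Γ, ∃ γ' ∈ Γ, (γ' : GL (Fin 2) ℝ) * g = g * (γ : GL (Fin 2) ℝ))
    (h2 : ∀ γ ∈ Γ, ∃ γ' ∈ Γ, (γ : GL (Fin 2) ℝ) * g = g * (γ' : GL (Fin 2) ℝ))
    (hH : ∃ H ∈ Kf Γ, H ≠ 0 ∧ act g F = H * F') (μ : ℂ) :
    Nonempty (Esp Γ F μ ≃ₗ[ℂ] Esp Γ F' μ) := by
  obtain ⟨H, hHΓ, hH0, hHF⟩ := hH
  have hinj : Function.Injective (act g) := (act g).injective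
  -- the action on the functions
  have hact1 : ∀ γ ∈ Γ, ∀ γ' : SL(2, ℝ), (γ' : GL (Fin 2) ℝ) * g = g * (γ : GL (Fin 2) ℝ) →
      act g (actS γ' F) = H * actS γ F' := by
    intro γ hγ γ' he
    rw [actS_def, ← act_mul, he, act_mul, hHF, map_mul]
    congr 1
    exact hHΓ γ hγ
  have f1 : ∀ f ∈ Esp Γ F μ, (fun z => f (g • z)) ∈ Esp Γ F' μ := by
    intro f hf
    refine ⟨hf.1.smul g, fun γ hγ => ?_⟩
    obtain ⟨γ', hγ', he⟩ := h1 γ hγ
    have h3 := hact1 γ hγ γ' he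
    have h4 : ∀ z : ℍ, g • (γ • z) = γ' • (g • z) := by
      intro z
      have h5 : (g * (γ : GL (Fin 2) ℝ)) • z = ((γ' : GL (Fin 2) ℝ) * g) • z := by rw [he]
      rw [mul_smul, mul_smul] at h5
      exact h5
    refine ⟨fun h z => ?_, fun h z => ?_⟩
    · beta_reduce
      rw [h4]
      refine (hf.2 γ' hγ').1 (hinj ?_) _
      rw [h3, h, hHF]
    · beta_reduce
      rw [h4]
      refine (hf.2 γ' hγ').2 (hinj ?_) _
      rw [h3, h, map_neg, hHF, mul_neg]
  have f2 : ∀ f ∈ Esp Γ F' μ, (fun z => f (g⁻¹ • z)) ∈ Esp Γ F μ := by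
    intro f hf
    refine ⟨hf.1.smul g⁻¹, fun γ hγ => ?_⟩
    obtain ⟨γ', hγ', he⟩ := h2 γ hγ
    have h3 := hact1 γ' hγ' γ he
    have h4 : ∀ z : ℍ, g⁻¹ • (γ • z) = γ' • (g⁻¹ • z) := by
      intro z
      have h6 : g⁻¹ * (γ : GL (Fin 2) ℝ) = (γ' : GL (Fin 2) ℝ) * g⁻¹ := by
        rw [inv_mul_eq_iff_eq_mul, ← mul_assoc, ← he, mul_inv_cancel_right]
      have h5 : (g⁻¹ * (γ : GL (Fin 2) ℝ)) • z = ((γ' : GL (Fin 2) ℝ) * g⁻¹) • z := by rw [h6]
      rw [mul_smul, mul_smul] at h5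
      exact h5
    refine ⟨fun h z => ?_, fun h z => ?_⟩
    · beta_reduce
      rw [h4]
      refine (hf.2 γ' hγ').1 (mul_left_cancel₀ hH0 ?_) _
      rw [← h3, h, hHF]
    · beta_reduce
      rw [h4]
      refine (hf.2 γ' hγ').2 (mul_left_cancel₀ hH0 ?_) _
      rw [← h3, h, map_neg, hHF, mul_neg]
  exact ⟨{ toFun := fun f => ⟨_, f1 f.1 f.2⟩
           map_add' := fun _ _ => rfl
           map_smul' := fun _ _ => rfl
           invFun := fun f => ⟨_, f2 f.1 f.2⟩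
           left_inv := fun f => Subtype.ext (by
             funext z
             change f.1 (g • g⁻¹ • z) = f.1 z
             rw [smul_inv_smul])
           right_inv := fun f => Subtype.ext (by
             funext z
             change f.1 (g⁻¹ • g • z) = f.1 z
             rw [inv_smul_smul]) }⟩

end Pool.Agent.Lib.MP_b9289b_nt
end
end
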