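import Pool.Agent.Lib.MP_b9289b_nt.Mg.G015
import Pool.Agent.Lib.MP_b9289b_nt.Mg.G003

section

/-!
# J03: `FunField Γ` and `Kf Γ`

`FunField Γ` is a subring of the ring of germs, `Kf Γ` a subfield of `Mer`, and an element of `Mer`
is a pair (germ, proof); `F ∈ Kf Γ` iff its germ is in `FunField Γ` (`actS_mk`, `mk_eq_mk`).
-/

open UpperHalfPlane Filter Topology MatrixGroups
open scoped ContDiff ComplexConjugate

noncomputable section

namespace Pool.Agent.Lib.MP_b9289b_nt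

lemma cst_mem_Kf (Γ : Subgroup SL(2, ℝ)) (c : ℂ) : Mer.cst c ∈ Kf Γ := by
  rw [mem_Kf']
  intro γ _
  exact Mer.actS_cst γ c

/-- the germ of a meromorphic function -/
private def J03_germ (F : Mer) : Germ (codiscrete ℍ) ℂ := Subtype.val (p := fun x => x ∈ MerRing) F

private lemma J03_germ_mk {f : ℍ → ℂ} (hf : IsMero f) :
    J03_germ (Mer.mk f hf) = (f : Germ (codiscrete ℍ) ℂ) := rfl

private lemma J03_germ_inj {F G : Mer} (h : J03_germ F = J03_germ G) : F = G :=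
  Subtype.ext h

private lemma J03_germ_mul (F G : Mer) : J03_germ (F * G) = J03_germ F * J03_germ G := rfl

private lemma J03_germ_add (F G : Mer) : J03_germ (F + G) = J03_germ F + J03_germ G := rfl

private lemma J03_mem {Γ : Subgroup SL(2, ℝ)} {F : Mer} : F ∈ Kf Γ ↔ J03_germ F ∈ FunField Γ := by
  constructor
  · intro h
    obtain ⟨f, hf, rfl⟩ := Mer.exists_rep F
    refine ⟨f, hf, fun γ hγ => ?_, rfl⟩
    have h1 := h γ hγ
    rw [← Mer.actS_def, Mer.actS_mk, Mer.mk_eq_mk] at h1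
    exact h1
  · rintro ⟨f, hf, h, hfF⟩
    have hF : F = Mer.mk f hf := J03_germ_inj (by rw [J03_germ_mk, hfF])
    subst hF
    rw [mem_Kf']
    intro γ hγ
    rw [Mer.actS_mk, Mer.mk_eq_mk]
    exact h γ hγ

private lemma J03_surj {Γ : Subgroup SL(2, ℝ)} (G : FunField Γ) : ∃ F : Mer, J03_germ F = G.1 := by
  obtain ⟨_, f, hf, h, rfl⟩ := G
  exact ⟨Mer.mk f hf, rfl⟩

/-- The function field as a subfield of `Mer`. -/
private def J03_e (Γ : Subgroup SL(2, ℝ)) : Kf Γ ≃+* FunField Γ :=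
  RingEquiv.ofBijective
    ({ toFun := fun F => ⟨J03_germ F.1, J03_mem.1 F.2⟩
       map_one' := rfl
       map_mul' := fun _ _ => rfl
       map_zero' := rfl
       map_add' := fun _ _ => rfl } : Kf Γ →+* FunField Γ)
    (by
      constructor
      · intro F G h
        have h1 : J03_germ F.1 = J03_germ G.1 :=
          congrArg (fun x : FunField Γ => (x : Germ (codiscrete ℍ) ℂ)) h
        exact Subtype.ext (J03_germ_inj h1)
      · intro G
        obtain ⟨F, hF⟩ := J03_surj G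
        refine ⟨⟨F, J03_mem.2 (by rw [hF]; exact G.2)⟩, Subtype.ext hF⟩)

private lemma J03_e_cst (Γ : Subgroup SL(2, ℝ)) (c : ℂ) :
    J03_e Γ ⟨Mer.cst c, cst_mem_Kf Γ c⟩ = FunField.const Γ c := rfl

theorem exists_equiv_Kf {σ : ℂ ≃+* ℂ} {Γ Γ' : Subgroup SL(2, ℝ)} (h : IsGaloisConj σ Γ Γ') :
    ∃ τ : Kf Γ ≃+* Kf Γ', ∀ c : ℂ, τ ⟨Mer.cst c, cst_mem_Kf Γ c⟩ =
      ⟨Mer.cst (σ c), cst_mem_Kf Γ' (σ c)⟩ := by
  obtain ⟨τ₀, hτ₀⟩ := h
  let τ : FunField Γ ≃+* FunField Γ' := τ₀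
  have hτ : ∀ c : ℂ, τ (FunField.const Γ c) = FunField.const Γ' (σ c) := hτ₀
  refine ⟨(J03_e Γ).trans (τ.trans (J03_e Γ').symm), fun c => ?_⟩
  rw [RingEquiv.trans_apply, RingEquiv.trans_apply, J03_e_cst, hτ c, ← J03_e_cst,
    RingEquiv.symm_apply_apply]

end Pool.Agent.Lib.MP_b9289b_nt
end
end

section

/-!
# J04: the ratio of the two differentials, for arbitrary constants

`x1 = (1-β)(T+1)/(2(T-β))`, `x2 = (1-β)(T-1)/(2(T+β))`, `l = 2(a-β)/((a+1)(1-β))`:
`x1' = -(1-β)(1+β) T'/(2(T-β)²)`, `x2' = (1-β)(1+β) T'/(2(T+β)²)`,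
`P_l(x1) = (1-β)(1+β)²(T-1)(T+1)(T-a)/(4(a+1)(T-β)³)`,
`P_l(x2) = (1-β)(1+β)²(T-1)(T+1)(T+a)/(4(a+1)(T+β)³)`.
`not_algebraic`: `T` is not constant, so it satisfies no nontrivial quadratic equation over `ℂ`
(factor it; `Mer` is a field).
-/

open UpperHalfPlane Filter Topology MatrixGroups
open scoped ContDiff ComplexConjugate

noncomputable section

namespace Pool.Agent.Lib.MP_b9289b_nt

open Mer

private lemma J04_cst_ne {c : ℂ} (hc : c ≠ 0) : (cst c : Mer) ≠ 0 := by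
  intro h
  exact hc (cst_injective (by rw [h, map_zero]))

private lemma J04_two_ne : (2 : Mer) ≠ 0 := by
  have h := J04_cst_ne (c := 2) two_ne_zero
  rwa [map_ofNat] at h

lemma not_algebraic {T : Mer} (hT : ∀ c, T ≠ cst c) {p q r : ℂ}
    (h : cst p * T ^ 2 + cst q * T + cst r = 0) : p = 0 ∧ q = 0 ∧ r = 0 := by
  by_cases hp : p = 0
  · subst hp
    by_cases hq : q = 0
    · subst hq
      refine ⟨rfl, rfl, ?_⟩
      have h1 : cst r = 0 := by
        rw [map_zero] at h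
        linear_combination h
      exact cst_injective (by rw [h1, map_zero])
    · exfalso
      have h2 := J04_cst_ne hq
      apply hT (-r / q)
      rw [map_div₀, map_neg, eq_div_iff h2]
      rw [map_zero] at h
      linear_combination h
  · exfalso
    obtain ⟨s, hs⟩ : ∃ s : ℂ, s ^ 2 = q ^ 2 - 4 * p * r :=
      IsAlgClosed.exists_pow_nat_eq _ (by norm_num)
    have hs' : (cst s) ^ 2 = cst q ^ 2 - 4 * cst p * cst r := by
      have h3 := congrArg cst hs
      simp only [map_pow, map_sub, map_mul, map_ofNat] at h3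
      exact h3
    have h2 := J04_cst_ne hp
    have h2' := J04_two_ne
    have h4 : (2 * cst p * T + cst q - cst s) * (2 * cst p * T + cst q + cst s) = 0 := by
      linear_combination 4 * cst p * h - hs'
    rcases mul_eq_zero.1 h4 with h5 | h5
    · apply hT ((s - q) / (2 * p))
      rw [map_div₀, map_sub, map_mul, map_ofNat, eq_div_iff (mul_ne_zero h2' h2)]
      linear_combination h5
    · apply hT ((-s - q) / (2 * p))
      rw [map_div₀, map_sub, map_mul, map_ofNat, map_neg, eq_div_iff (mul_ne_zero h2' h2)]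
      linear_combination h5

private lemma J04_sub_ne {T : Mer} (hT : ∀ c, T ≠ cst c) (c : ℂ) : T - cst c ≠ 0 :=
  sub_ne_zero.2 (hT c)

private lemma J04_add_ne {T : Mer} (hT : ∀ c, T ≠ cst c) (c : ℂ) : T + cst c ≠ 0 := by
  intro h
  apply hT (-c)
  rw [map_neg]
  exact eq_neg_of_add_eq_zero_left h

private lemma J04_der_ne {T : Mer} (hT : ∀ c, T ≠ cst c) : der T ≠ 0 := by
  intro h
  obtain ⟨c, hc⟩ := eq_cst_of_der_eq_zero h
  exact hT c hc

private lemma J04_x {T : Mer} (hT : ∀ c, T ≠ cst c) {a β l : ℂ} (h1 : 1 - β ≠ 0)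
    (h3 : a + 1 ≠ 0) (hl : l = 2 * (a - β) / ((a + 1) * (1 - β)))
    {x : Mer} (hx : x = cst (1 - β) * (T + 1) / (2 * (T - cst β))) :
    der x = -(cst (1 - β) * cst (1 + β) * der T) / (2 * (T - cst β) ^ 2) ∧
    x * (1 - x) * (1 - cst l * x) =
      cst (1 - β) * cst (1 + β) ^ 2 * (T - 1) * (T + 1) * (T - cst a) /
        (4 * cst (a + 1) * (T - cst β) ^ 3) := by
  have e2 := J04_two_ne
  have e4 : (4 : Mer) ≠ 0 := by
    have h := J04_cst_ne (c := (4 : ℂ)) (by norm_num)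
    rwa [map_ofNat] at h
  have eT := J04_sub_ne hT β
  have eb := J04_cst_ne h1
  have ea := J04_cst_ne h3
  constructor
  · rw [hx, der_div (mul_ne_zero e2 eT)]
    have d1 : der (cst (1 - β) * (T + 1)) = cst (1 - β) * der T := by
      rw [der_cst_mul, der_add]
      have h5 : der (1 : Mer) = 0 := by
        have h6 := der_cst (1 : ℂ)
        rwa [map_one] at h6
      rw [h5, add_zero]
    have d2 : der (2 * (T - cst β)) = 2 * der T := by
      have h6 := der_cst_mul (2 : ℂ) (T - cst β)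
      rw [map_ofNat] at h6
      rw [h6, der_sub, der_cst, sub_zero]
    rw [d1, d2, map_sub, map_add, map_one]
    rw [div_eq_div_iff (pow_ne_zero _ (mul_ne_zero e2 eT)) (mul_ne_zero e2 (pow_ne_zero _ eT))]
    ring
  · rw [hx, hl]
    rw [map_div₀, map_mul, map_mul, map_ofNat, map_sub (cst) a β]
    rw [map_sub] at eb
    rw [map_add] at ea
    rw [map_sub, map_add, map_add]
    rw [map_one] at *
    field_simp
    ring

private lemma J04_x2 {T : Mer} (hT : ∀ c, T ≠ cst c) {a β l : ℂ} (h1 : 1 - β ≠ 0)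
    (h3 : a + 1 ≠ 0) (hl : l = 2 * (a - β) / ((a + 1) * (1 - β)))
    {x : Mer} (hx : x = cst (1 - β) * (T - 1) / (2 * (T + cst β))) :
    der x = (cst (1 - β) * cst (1 + β) * der T) / (2 * (T + cst β) ^ 2) ∧
    x * (1 - x) * (1 - cst l * x) =
      cst (1 - β) * cst (1 + β) ^ 2 * (T - 1) * (T + 1) * (T + cst a) /
        (4 * cst (a + 1) * (T + cst β) ^ 3) := by
  have e2 := J04_two_ne
  have e4 : (4 : Mer) ≠ 0 := by
    have h := J04_cst_ne (c := (4 : ℂ)) (by norm_num)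
    rwa [map_ofNat] at h
  have eT := J04_add_ne hT β
  have eb := J04_cst_ne h1
  have ea := J04_cst_ne h3
  constructor
  · rw [hx, der_div (mul_ne_zero e2 eT)]
    have d1 : der (cst (1 - β) * (T - 1)) = cst (1 - β) * der T := by
      rw [der_cst_mul, der_sub]
      have h5 : der (1 : Mer) = 0 := by
        have h6 := der_cst (1 : ℂ)
        rwa [map_one] at h6
      rw [h5, sub_zero]
    have d2 : der (2 * (T + cst β)) = 2 * der T := by
      have h6 := der_cst_mul (2 : ℂ) (T + cst β)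
      rw [map_ofNat] at h6
      rw [h6, der_add, der_cst, add_zero]
    rw [d1, d2, map_sub, map_add, map_one]
    rw [div_eq_div_iff (pow_ne_zero _ (mul_ne_zero e2 eT)) (mul_ne_zero e2 (pow_ne_zero _ eT))]
    ring
  · rw [hx, hl]
    rw [map_div₀, map_mul, map_mul, map_ofNat, map_sub (cst) a β]
    rw [map_sub] at eb
    rw [map_add] at ea
    rw [map_sub, map_add, map_add]
    rw [map_one] at *
    field_simp
    ring

theorem ratio_gen {T z1 z2 : Mer} (hT : ∀ c, T ≠ cst c) {a β l : ℂ} (h1 : 1 - β ≠ 0)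
    (h2 : 1 + β ≠ 0) (h3 : a + 1 ≠ 0) (hl : l = 2 * (a - β) / ((a + 1) * (1 - β)))
    {x1 x2 : Mer} (hx1 : x1 = cst (1 - β) * (T + 1) / (2 * (T - cst β)))
    (hx2 : x2 = cst (1 - β) * (T - 1) / (2 * (T + cst β)))
    (hy1 : z1 ^ 2 = x1 * (1 - x1) * (1 - cst l * x1))
    (hy2 : z2 ^ 2 = x2 * (1 - x2) * (1 - cst l * x2)) :
    ((der x1 / z1) / (der x2 / z2)) ^ 2 =
      (T + cst a) * (T + cst β) / ((T - cst a) * (T - cst β)) := by
  obtain ⟨d1, p1⟩ := J04_x hT h1 h3 hl hx1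
  obtain ⟨d2, p2⟩ := J04_x2 hT h1 h3 hl hx2
  have e2 := J04_two_ne
  have e4 : (4 : Mer) ≠ 0 := by
    have h := J04_cst_ne (c := (4 : ℂ)) (by norm_num)
    rwa [map_ofNat] at h
  have eT1 := J04_sub_ne hT β
  have eT2 := J04_add_ne hT β
  have eT3 := J04_sub_ne hT a
  have eT4 := J04_add_ne hT a
  have eT5 : T - 1 ≠ 0 := by
    have h := J04_sub_ne hT 1
    rwa [map_one] at h
  have eT6 : T + 1 ≠ 0 := by
    have h := J04_add_ne hT 1
    rwa [map_one] at h
  have eb1 := J04_cst_ne h1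
  have eb2 := J04_cst_ne h2
  have ea := J04_cst_ne h3
  have ed := J04_der_ne hT
  rw [p1] at hy1
  rw [p2] at hy2
  have e5 : ((der x1 / z1) / (der x2 / z2)) ^ 2 = (der x1 ^ 2 / der x2 ^ 2) * (z2 ^ 2 / z1 ^ 2) := by
    rw [div_div_div_eq, div_pow, mul_pow, mul_pow]
    rw [mul_comm (z1 ^ 2)]
    rw [div_mul_div_comm]
  rw [e5, hy1, hy2, d1, d2]
  field_simp

theorem ratio_ne_cst {T z1 z2 : Mer} (hT : ∀ c, T ≠ cst c) {a β l : ℂ} (h1 : 1 - β ≠ 0)
    (h2 : 1 + β ≠ 0) (h3 : a + 1 ≠ 0) (h4 : a + β ≠ 0)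
    (hl : l = 2 * (a - β) / ((a + 1) * (1 - β)))
    {x1 x2 : Mer} (hx1 : x1 = cst (1 - β) * (T + 1) / (2 * (T - cst β)))
    (hx2 : x2 = cst (1 - β) * (T - 1) / (2 * (T + cst β)))
    (hy1 : z1 ^ 2 = x1 * (1 - x1) * (1 - cst l * x1))
    (hy2 : z2 ^ 2 = x2 * (1 - x2) * (1 - cst l * x2)) (c : ℂ) :
    (der x1 / z1) / (der x2 / z2) ≠ cst c := by
  intro h
  have h5 := ratio_gen hT h1 h2 h3 hl hx1 hx2 hy1 hy2
  rw [h, eq_div_iff (mul_ne_zero (J04_sub_ne hT a) (J04_sub_ne hT β))] at h5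
  have h6 : cst (1 - c ^ 2) * T ^ 2 + cst ((a + β) * (1 + c ^ 2)) * T +
      cst (a * β * (1 - c ^ 2)) = 0 := by
    simp only [map_sub, map_mul, map_add, map_pow, map_one]
    linear_combination -h5
  obtain ⟨h7, h8, _⟩ := not_algebraic hT h6
  rcases mul_eq_zero.1 h8 with h9 | h9
  · exact h4 h9
  · have h10 : (2 : ℂ) = 0 := by linear_combination h7 + h9
    exact two_ne_zero h10

end Pool.Agent.Lib.MP_b9289b_nt
end
end

section

/-!
# M08: discreteness
`T` contains a nonconstant function `F`, then the group `fixer T` is discrete.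

Proof.  It is enough to find a neighbourhood `V` of `1` in `SL(2,ℝ)` with `V ∩ fixer T ⊆ {1}`
(`discreteTopology_of_isOpen_singleton_one` / `Subgroup` is a topological group).  Choose `z₀ ∈ ℍ`
with `F` holomorphic at `z₀` and `deriv ≠ 0` (`der F ≠ 0` by `eq_cst_of_der_eq_zero`, so its order
and the order of `F` are `0` resp. `≥ 0` at most points), so a representative `f` is injective and
holomorphic on an open neighbourhood `W` of `z₀` (`HasStrictDerivAt.toOpenPartialHomeomorph`).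
For `γ` close to `1` and `z` in a smaller neighbourhood `W'` of `z₀`, `γ • z ∈ W`; if
`γ ∈ fixer T` then `f (γ • z) = f z` for `z ∈ W'` outside a discrete set, so `γ • z = z` for
infinitely many `z ∈ W'`, thus `γ = 1` or `γ = -1` (three fixed points; or two different fixed
points in `ℍ`: `γ z = z` means `c z^2 + (d - a) z - b = 0`); and `-1` is not in a small
neighbourhood of `1` (trace).
-/

open UpperHalfPlane Filter Topology MatrixGroups
open scoped ContDiff ComplexConjugate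

noncomputable section

namespace Pool.Agent.Lib.MP_b9289b_nt

private lemma fix_eq {γ : SL(2, ℝ)} {z : ℍ} (hz : γ • z = z) :
    γ 0 0 - γ 1 1 = 2 * γ 1 0 * z.re ∧ γ 0 1 = -(γ 1 0 * (z.re ^ 2 + z.im ^ 2)) := by
  have h1 := coe_specialLinearGroup_apply γ z
  rw [hz] at h1
  simp only [Algebra.algebraMap_self, RingHom.id_apply] at h1
  have hne : ((γ 1 0 : ℝ) : ℂ) * z + ((γ 1 1 : ℝ) : ℂ) ≠ 0 := by
    intro h0
    rw [h0, div_zero] at h1
    exact z.ne_zero h1
  rw [eq_div_iff hne] at h1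
  have hre := congrArg Complex.re h1
  have him := congrArg Complex.im h1
  simp only [Complex.mul_re, Complex.add_re, Complex.ofReal_re, Complex.add_im, Complex.mul_im,
    Complex.ofReal_im, zero_mul, sub_zero, add_zero, coe_re, coe_im] at hre him
  have hy := z.im_pos.ne'
  have h2 : γ 0 0 - γ 1 1 = 2 * γ 1 0 * z.re := by
    apply mul_left_cancel₀ hy
    linarith
  refine ⟨h2, ?_⟩
  have h3 : γ 0 0 = γ 1 1 + 2 * γ 1 0 * z.re := by linarith
  rw [h3] at hre
  linarith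

private lemma eq_one_of_two_fixed {γ : SL(2, ℝ)} {z w : ℍ} (hz : γ • z = z) (hw : γ • w = w)
    (hzw : z ≠ w) (hpos : 0 < γ 0 0) : γ = 1 := by
  obtain ⟨h1, h2⟩ := fix_eq hz
  obtain ⟨h3, h4⟩ := fix_eq hw
  have hc : γ 1 0 = 0 := by
    by_contra hc
    apply hzw
    have h5 : z.re = w.re := by
      apply mul_left_cancel₀ (mul_ne_zero two_ne_zero hc)
      linarith
    have h6 : z.im ^ 2 = w.im ^ 2 := by
      have : z.re ^ 2 + z.im ^ 2 = w.re ^ 2 + w.im ^ 2 := by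
        apply mul_left_cancel₀ hc
        linarith
      rw [h5] at this
      linarith
    have h7 : z.im = w.im := by
      rwa [sq_eq_sq₀ z.im_pos.le w.im_pos.le] at h6
    exact UpperHalfPlane.ext_re_im h5 h7
  rw [hc] at h1 h2
  have hd := γ.det_coe
  rw [Matrix.det_fin_two] at hd
  have ha : γ 0 0 = 1 := by
    rw [hc, h2] at hd
    have h8 : γ 1 1 = γ 0 0 := by linarith
    rw [h8] at hd
    nlinarith
  have hdd : γ 1 1 = 1 := by linarith
  ext i j
  fin_cases i <;> fin_cases j <;> simp [ha, hdd, hc, h2]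

theorem discrete_fixer {T : Set Mer} {F : Mer} (hF : F ∈ T) (hc : ∀ c, F ≠ Mer.cst c) :
    DiscreteTopology (fixer T) := by
  have hd : Mer.der F ≠ 0 := fun h => by
    obtain ⟨c, hc'⟩ := Mer.eq_cst_of_der_eq_zero h
    exact hc c hc'
  obtain ⟨f, hf, rfl⟩ := Mer.exists_rep F
  rw [Mer.der_mk, Mer.zero_eq, Ne, Mer.mk_eq_mk] at hd
  have h1 := hf.deriv.eventually_ne_zero hd
  have h2 : ∀ᶠ z : ℍ in codiscrete ℍ, AnalyticAt ℂ (↑ₕf) (z : ℂ) := by
    rw [Filter.Eventually, mem_codiscrete_iff]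
    intro z
    have := (hf z).eventually_analyticAt
    rw [eventually_nhdsNE_iff] at this
    exact this
  have h12 := h1.and h2
  rw [Filter.Eventually, mem_codiscrete_iff] at h12
  have : ∀ z : ℍ, (𝓝[≠] z).NeBot := fun z => by
    have : (Filter.map ((↑) : ℍ → ℂ) (𝓝[≠] z)).NeBot := by
      rw [map_coe_nhdsNE]; infer_instance
    exact Filter.map_neBot_iff _ |>.1 this
  obtain ⟨z₀, hz₀, hz₁⟩ := (h12 I).exists
  have h3 := hz₁.hasStrictDerivAt
  obtain ⟨g, hg⟩ : ∃ g : ℂ → ℂ, ∀ᶠ x in 𝓝 (z₀ : ℂ), g ((↑ₕf) x) = x :=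
    ⟨_, h3.eventually_left_inverse hz₀⟩
  have hg1 : ∀ᶠ z : ℍ in 𝓝 z₀, g (f z) = z := by
    have h4 := continuous_coe.continuousAt.eventually hg
    filter_upwards [h4] with z hz
    simpa using hz
  have hcont : Tendsto (fun p : SL(2, ℝ) × ℍ => p.1 • p.2) (𝓝 ((1 : SL(2, ℝ)), z₀)) (𝓝 z₀) := by
    have h5 := (continuous_smul (M := SL(2, ℝ)) (X := ℍ)).tendsto (1, z₀)
    simpa using h5
  have h6 : ∀ᶠ p : SL(2, ℝ) × ℍ in 𝓝 ((1 : SL(2, ℝ)), z₀), g (f (p.1 • p.2)) = (p.1 • p.2 : ℍ) ∧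
      g (f p.2) = p.2 :=
    (hcont.eventually hg1).and ((continuous_snd.tendsto ((1 : SL(2, ℝ)), z₀)).eventually hg1)
  have h7 := h6.curry_nhds
  have h8 : ∀ᶠ γ : SL(2, ℝ) in 𝓝 1, 0 < γ 0 0 := by
    have h9 : Continuous fun γ : SL(2, ℝ) => γ 0 0 :=
      (continuous_subtype_val).matrix_elem 0 0
    apply (h9.tendsto 1).eventually
    simp only [Matrix.SpecialLinearGroup.coe_one, Matrix.one_apply_eq]
    exact lt_mem_nhds one_pos
  apply discreteTopology_of_isOpen_singleton_one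
  rw [isOpen_singleton_iff_nhds_eq_pure]
  refine le_antisymm ?_ (pure_le_nhds _)
  rw [le_pure_iff, nhds_subtype_eq_comap]
  refine ⟨_, h7.and h8, ?_⟩
  rintro ⟨γ, hγ⟩ ⟨hγ1, hγ2⟩
  rw [Set.mem_singleton_iff, Subtype.ext_iff]
  change γ = 1
  have h10 : ∀ᶠ z in codiscrete ℍ, f (γ • z) = f z := by
    have := hγ _ hF
    rwa [Mer.actS_mk, Mer.mk_eq_mk] at this
  rw [Filter.Eventually, mem_codiscrete_iff] at h10
  have h11 : ∀ᶠ z in 𝓝[≠] z₀, γ • z = z := by
    filter_upwards [h10 z₀, nhdsWithin_le_nhds hγ1] with z hz1 hz2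
    ext1
    rw [← hz2.1, ← hz2.2]
    exact congrArg g hz1
  obtain ⟨w, hw, hw'⟩ := (h11.and self_mem_nhdsWithin).exists
  have h13 : ∀ᶠ z in 𝓝[≠] z₀, z ≠ w :=
    nhdsWithin_le_nhds (isOpen_ne.mem_nhds (Ne.symm hw'))
  obtain ⟨v, hv, hv'⟩ := (h11.and h13).exists
  exact eq_one_of_two_fixed hv hw hv' hγ2

end Pool.Agent.Lib.MP_b9289b_nt
end
end

section

/-!
# G05: `GX` and `GY` are surface groups

* `sgn`: an element fixing `S` fixes the squares of `D, h0, h2, dl`, so it acts on them by signs.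
* discrete: `discrete_fixer`.
* cocompact: `Cocompact.of_finite` from `fixer {S}`: for every vector `e` of signs choose
  `g e ∈ fixer {S}` acting on `(D, h0, h2, dl)` by `e`, if there is one (`t` = the range of `g`, a
  finite set); for `γ` with signs `e` the product `g e * γ` fixes everything.
* free: let `γ • z = z`, `γ ≠ ±1`.  `γ` fixes `S`; by `trivial_of_ord_one` the point `z` is special:
  `ord (S - c) = 2`, and `IsRot γ z` by `isRot_of_ord_two`.  By `IsRot.even` the orders at `z` of all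
  fixed functions are even; the tables of `G04` show that one of `D, h0, h2` (resp. `D, h2, dl`)
  has an odd order.
-/

open UpperHalfPlane Filter Topology MatrixGroups
open scoped ContDiff ComplexConjugate

noncomputable section

namespace Pool.Agent.Lib.MP_b9289b_nt

open Mer

variable {t : ℝ} {S D h0 h2 dl : Mer}

private lemma G05_sq {F G : Mer} (h : F ^ 2 = G ^ 2) : F = G ∨ F = -G := sq_eq_sq_iff_eq_or_eq_neg.1 h

private lemma G05_sub_ne (h : IsData t S D h0 h2 dl) (c : ℂ) : S - cst c ≠ 0 := fun e =>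
  h.toIsS.S_ne_cst c (sub_eq_zero.1 e)

private lemma G05_add_ne (h : IsData t S D h0 h2 dl) (c : ℂ) : S + cst c ≠ 0 := fun e => by
  apply h.toIsS.S_ne_cst (-c)
  rw [map_neg]
  exact eq_neg_of_add_eq_zero_left e

private lemma G05_S2 (h : IsData t S D h0 h2 dl) : S ^ 2 - 1 ≠ 0 := by
  have h1 : S ^ 2 - 1 = (S - cst 1) * (S + cst 1) := by
    rw [map_one]
    ring
  rw [h1]
  exact mul_ne_zero (G05_sub_ne h 1) (G05_add_ne h 1)

private lemma G05_D (h : IsData t S D h0 h2 dl) : S ^ 2 + cst ((bb t : ℂ) ^ 2) ≠ 0 := by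
  have h1 : S ^ 2 + cst ((bb t : ℂ) ^ 2) =
      (S - cst (Complex.I * bb t)) * (S + cst (Complex.I * bb t)) := by
    have h2 : (Complex.I * bb t : ℂ) * (Complex.I * bb t) = -((bb t : ℂ) ^ 2) := by
      linear_combination ((bb t : ℂ) ^ 2) * Complex.I_mul_I
    have h3 : cst (Complex.I * bb t) * cst (Complex.I * bb t) = -cst ((bb t : ℂ) ^ 2) := by
      rw [← map_mul, h2, map_neg]
    linear_combination h3
  rw [h1]
  exact mul_ne_zero (G05_sub_ne h _) (G05_add_ne h _)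

lemma IsData.sgn (h : IsData t S D h0 h2 dl) {γ : SL(2, ℝ)} (hγ : actS γ S = S) :
    Sgn γ D ∧ Sgn γ h0 ∧ Sgn γ h2 ∧ Sgn γ dl := by
  refine ⟨G05_sq ?_, G05_sq ?_, G05_sq ?_, G05_sq ?_⟩
  · have h1 := congrArg (actS γ) h.eqD
    rw [map_mul, map_sub, map_add, map_pow, map_pow, hγ, map_one, actS_cst, ← h.eqD] at h1
    exact mul_right_cancel₀ (G05_S2 h) h1
  · rw [← map_pow, h.eq0, map_mul, map_sub, map_add, hγ, actS_cst, actS_cst]
  · rw [← map_pow, h.eq2, map_mul, map_sub, map_add, hγ, actS_cst, actS_cst]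
  · rw [← map_pow, h.eql, map_sub, map_pow, hγ, actS_cst]

lemma IsData.ne_zero (h : IsData t S D h0 h2 dl) : D ≠ 0 ∧ h0 ≠ 0 ∧ h2 ≠ 0 ∧ dl ≠ 0 := by
  refine ⟨?_, ?_, ?_, ?_⟩
  · rintro rfl
    have h1 := h.eqD
    rw [zero_pow two_ne_zero, zero_mul] at h1
    exact G05_D h h1.symm
  · rintro rfl
    have h1 := h.eq0
    rw [zero_pow two_ne_zero] at h1
    exact mul_ne_zero (G05_sub_ne h _) (G05_add_ne h _) h1.symm
  · rintro rfl
    have h1 := h.eq2
    rw [zero_pow two_ne_zero] at h1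
    exact mul_ne_zero (G05_add_ne h _) (G05_sub_ne h _) h1.symm
  · rintro rfl
    have h1 := h.eql
    rw [zero_pow two_ne_zero] at h1
    have h2 : S ^ 2 - cst ((aa t : ℂ) ^ 2) = (S - cst (aa t)) * (S + cst (aa t)) := by
      rw [map_pow]
      ring
    rw [h2] at h1
    exact mul_ne_zero (G05_sub_ne h _) (G05_add_ne h _) h1.symm

/-- The signs. -/
private def G05_sg (D h0 h2 dl : Mer) (γ : SL(2, ℝ)) : Prop × Prop × Prop × Prop :=
  (actS γ D = D, actS γ h0 = h0, actS γ h2 = h2, actS γ dl = dl)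

private lemma G05_mul {F : Mer} {g γ : SL(2, ℝ)} (hg : Sgn g F) (hγ : Sgn γ F)
    (h : (actS g F = F) = (actS γ F = F)) : actS (g * γ) F = F := by
  rw [actS_mul]
  by_cases h1 : actS γ F = F
  · have h3 : actS g F = F := by
      rw [h]
      exact h1
    rw [h3, h1]
  · have h2 : ¬ actS g F = F := fun e => h1 (h ▸ e)
    rw [hg.resolve_left h2, map_neg, hγ.resolve_left h1, neg_neg]

/-- The group of elements fixing `S` and any of the functions `D, h0, h2, dl` is cocompact. -/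
lemma IsData.cocompact_all (h : IsData t S D h0 h2 dl) : Cocompact (fixer {S, D, h0, h2, dl}) := by
  classical
  set g : Prop × Prop × Prop × Prop → SL(2, ℝ) := fun e =>
    if h : ∃ γ ∈ fixer {S}, G05_sg D h0 h2 dl γ = e then h.choose else 1 with hg
  refine h.cocompact.of_finite (Set.range g) (Set.finite_range g) fun γ hγ => ?_
  refine ⟨g (G05_sg D h0 h2 dl γ), ⟨_, rfl⟩, ?_⟩
  have hex : ∃ γ' ∈ fixer {S}, G05_sg D h0 h2 dl γ' = G05_sg D h0 h2 dl γ := ⟨γ, hγ, rfl⟩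
  have h1 : g (G05_sg D h0 h2 dl γ) = hex.choose := by
    rw [hg]
    exact dif_pos hex
  obtain ⟨h2', h3⟩ := hex.choose_spec
  rw [← h1] at h2' h3
  set g0 := g (G05_sg D h0 h2 dl γ)
  have hgS : actS g0 S = S := h2' S rfl
  have hγS : actS γ S = S := hγ S rfl
  obtain ⟨a1, a2, a3, a4⟩ := h.sgn hgS
  obtain ⟨b1, b2, b3, b4⟩ := h.sgn hγS
  unfold G05_sg at h3
  rw [Prod.mk.injEq, Prod.mk.injEq, Prod.mk.injEq] at h3
  obtain ⟨c1, c2, c3, c4⟩ := h3
  rintro F (rfl | rfl | rfl | rfl | rfl)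
  · rw [actS_mul, hgS, hγS]
  · exact G05_mul a1 b1 c1
  · exact G05_mul a2 b2 c2
  · exact G05_mul a3 b3 c3
  · exact G05_mul a4 b4 c4

private lemma G05_mono {Γ Γ' : Subgroup SL(2, ℝ)} (h : Γ ≤ Γ') (hc : Cocompact Γ) :
    Cocompact Γ' := by
  obtain ⟨K, hK, h1⟩ := hc
  refine ⟨K, hK, fun z => ?_⟩
  obtain ⟨γ, hγ, hz⟩ := h1 z
  exact ⟨γ, h hγ, hz⟩

private lemma G05_even {γ : SL(2, ℝ)} {z : ℍ} (hγ : IsRot γ z) {F : Mer}
    (hn : ord z F = 1 ∨ ord z F = -1) (h : actS γ F = F) : False := by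
  rcases hn with hn | hn
  · have h1 := hγ.even (n := 1) hn h
    exact absurd h1 (by decide)
  · have h1 := hγ.even (n := -1) hn h
    exact absurd h1 (by decide)

private lemma G05_free (h : IsData t S D h0 h2 dl) {γ : SL(2, ℝ)} {z : ℍ} (hz : γ • z = z)
    (hS : actS γ S = S) (hD : actS γ D = D) (hh2 : actS γ h2 = h2)
    (hor : actS γ h0 = h0 ∨ actS γ dl = dl) : γ = 1 ∨ γ = -1 := by
  by_contra hcon
  rw [not_or] at hcon
  have hSc : ∀ c : ℂ, actS γ (S - cst c) = S - cst c := fun c => by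
    rw [map_sub, hS, actS_cst]
  rcases h.ram z with h1 | ⟨c, hc, h1⟩ | ⟨c, -, h1⟩
  · exact (trivial_of_ord_one hz (Or.inr h1) hS).elim hcon.1 hcon.2
  · have hr : IsRot γ z := isRot_of_ord_two hz hcon.1 hcon.2 (Or.inl h1) (hSc c)
    rcases hc with rfl | rfl | rfl | rfl | rfl | rfl
    · exact G05_even hr (Or.inr (h.ord_one h1).1) hD
    · exact G05_even hr (Or.inr (h.ord_neg_one h1).1) hD
    · obtain ⟨-, h3, -, h5⟩ := h.ord_a h1
      rcases hor with h6 | h6
      · exact G05_even hr (Or.inl h3) h6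
      · exact G05_even hr (Or.inl h5) h6
    · exact G05_even hr (Or.inl (h.ord_neg_a h1).2.2.1) hh2
    · exact G05_even hr (Or.inl (h.ord_ib h1).1) hD
    · exact G05_even hr (Or.inl (h.ord_neg_ib h1).1) hD
  · exact (trivial_of_ord_one hz (Or.inl h1) (hSc c)).elim hcon.1 hcon.2

theorem IsData.surfaceX (h : IsData t S D h0 h2 dl) : IsSurfaceGroup (GX S D h0 h2) := by
  refine ⟨discrete_fixer (F := S) (Or.inl rfl) h.toIsS.S_ne_cst, ?_, fun γ hγ z hz => ?_⟩
  · refine G05_mono ?_ h.cocompact_all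
    rintro γ hγ F (rfl | rfl | rfl | rfl)
    · exact hγ _ (Or.inl rfl)
    · exact hγ _ (Or.inr (Or.inl rfl))
    · exact hγ _ (Or.inr (Or.inr (Or.inl rfl)))
    · exact hγ _ (Or.inr (Or.inr (Or.inr (Or.inl rfl))))
  · exact G05_free h hz (hγ _ (Or.inl rfl)) (hγ _ (Or.inr (Or.inl rfl)))
      (hγ _ (Or.inr (Or.inr (Or.inr rfl)))) (Or.inl (hγ _ (Or.inr (Or.inr (Or.inl rfl)))))

theorem IsData.surfaceY (h : IsData t S D h0 h2 dl) : IsSurfaceGroup (GY S D h2 dl) := by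
  refine ⟨discrete_fixer (F := S) (Or.inl rfl) h.toIsS.S_ne_cst, ?_, fun γ hγ z hz => ?_⟩
  · refine G05_mono ?_ h.cocompact_all
    rintro γ hγ F (rfl | rfl | rfl | rfl)
    · exact hγ _ (Or.inl rfl)
    · exact hγ _ (Or.inr (Or.inl rfl))
    · exact hγ _ (Or.inr (Or.inr (Or.inr (Or.inl rfl))))
    · exact hγ _ (Or.inr (Or.inr (Or.inr (Or.inr rfl))))
  · exact G05_free h hz (hγ _ (Or.inl rfl)) (hγ _ (Or.inr (Or.inl rfl)))
      (hγ _ (Or.inr (Or.inr (Or.inl rfl)))) (Or.inr (hγ _ (Or.inr (Or.inr (Or.inr rfl)))))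

end Pool.Agent.Lib.MP_b9289b_nt
end
end
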