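import Pool.Agent.Lib.MP_b9289b_nt.Mg.G008

section

/-! (O01) Elementary geometry of the octagon. -/

open UpperHalfPlane Metric Set Filter Topology MatrixGroups
open scoped ComplexConjugate

noncomputable section

namespace Pool.Agent.Lib.MP_b9289b_nt

variable {A : ℝ}

private lemma o1_B (hA : OkA A) : A * (1 / A) = 1 ∧ A < 1 / A ∧ 1 / A < 2 * A ∧ 0 < 1 / A := by
  have h0 := hA.pos
  have h1 := hA.lt_one
  have h2 := hA.half
  refine ⟨by field_simp, ?_, ?_, by positivity⟩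
  · rw [lt_div_iff₀ h0]; nlinarith
  · rw [div_lt_iff₀ h0]; nlinarith

private lemma o1_mem {n : ℝ × ℝ × ℝ} : n ∈ walls A ↔ n = (1, 0, A) ∨ n = (-1, 0, A) ∨
    n = (0, 1, A) ∨ n = (0, -1, A) ∨ n = (1, 1, 1 / A) ∨ n = (1, -1, 1 / A) ∨
    n = (-1, 1, 1 / A) ∨ n = (-1, -1, 1 / A) := by
  simp only [walls, Finset.mem_insert, Finset.mem_singleton]

private lemma o1_w (ζ : ℂ) : 0 < 1 + Complex.normSq ζ := by
  have := Complex.normSq_nonneg ζ
  linarith

/-- PROOF: `1 - A² > 0` and `2 - 1/A² > 0`. -/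
lemma BB_walls_pos (hA : OkA A) {n : ℝ × ℝ × ℝ} (hn : n ∈ walls A) : 0 < BB n n := by
  have h0 := hA.pos
  have h1 := hA.lt_one
  obtain ⟨hB1, hB2, hB3, hB4⟩ := o1_B hA
  have h3 : A * A < 1 := by nlinarith
  have h4 : 1 / A * (1 / A) < 2 := by nlinarith
  rcases o1_mem.1 hn with h | h | h | h | h | h | h | h <;> subst h <;> simp only [BB] <;> linarith

lemma walls_pos (hA : OkA A) {n : ℝ × ℝ × ℝ} (hn : n ∈ walls A) : 0 < n.2.2 := by
  have h0 := hA.pos
  obtain ⟨hB1, hB2, hB3, hB4⟩ := o1_B hA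
  rcases o1_mem.1 hn with h | h | h | h | h | h | h | h <;> subst h <;> first | exact h0 | exact hB4

/-- Two different walls meeting at a point of the closed octagon are orthogonal. PROOF: for the pairs which are not orthogonal one of the other inequalities `lin m ζ ≤ 0` is violated
(`w = 1 + |ζ|² > 0`, `p = 2 re ζ`, `q = 2 im ζ`): `p = A w, -p = A w` no; `p = A w, q = A w` gives `p + q = 2 A w > w/A`; `p = A w, -p + q = w/A` gives `q > A w`; `p + q = w/A = p - q` gives `p = w/A > A w`; and so on. -/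
lemma BB_walls_orth (hA : OkA A) {ζ : ℂ} (hζ : ζ ∈ octC A) {n m : ℝ × ℝ × ℝ} (hn : n ∈ walls A)
    (hm : m ∈ walls A) (hne : n ≠ m) (h1 : lin n ζ = 0) (h2 : lin m ζ = 0) : BB n m = 0 := by
  have h0 := hA.pos
  obtain ⟨hB1, hB2, hB3, hB4⟩ := o1_B hA
  have hw := o1_w ζ
  have e1 := hζ.2 (1, 0, A) (o1_mem.2 (by simp))
  have e2 := hζ.2 (-1, 0, A) (o1_mem.2 (by simp))
  have e3 := hζ.2 (0, 1, A) (o1_mem.2 (by simp))
  have e4 := hζ.2 (0, -1, A) (o1_mem.2 (by simp))
  have e5 := hζ.2 (1, 1, 1 / A) (o1_mem.2 (by simp))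
  have e6 := hζ.2 (1, -1, 1 / A) (o1_mem.2 (by simp))
  have e7 := hζ.2 (-1, 1, 1 / A) (o1_mem.2 (by simp))
  have e8 := hζ.2 (-1, -1, 1 / A) (o1_mem.2 (by simp))
  have f1 : 0 < A * (1 + Complex.normSq ζ) := mul_pos h0 hw
  have f2 : A * (1 + Complex.normSq ζ) < 1 / A * (1 + Complex.normSq ζ) :=
    mul_lt_mul_of_pos_right hB2 hw
  have f3 : 1 / A * (1 + Complex.normSq ζ) < 2 * (A * (1 + Complex.normSq ζ)) := by
    have := mul_lt_mul_of_pos_right hB3 hw
    linarith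
  simp only [lin] at e1 e2 e3 e4 e5 e6 e7 e8
  rcases o1_mem.1 hn with h | h | h | h | h | h | h | h <;>
  rcases o1_mem.1 hm with h' | h' | h' | h' | h' | h' | h' | h' <;> subst h <;> subst h' <;>
  first
  | exact absurd rfl hne
  | (simp only [BB]; linarith)
  | (exfalso; simp only [lin] at h1 h2; linarith)

private lemma o1_lin_smul (n : ℝ × ℝ × ℝ) (t : ℝ) (ζ : ℂ) :
    lin n ((t : ℂ) * ζ) = t * lin n ζ - n.2.2 * ((1 - t) * (1 - t * Complex.normSq ζ)) := by
  simp only [lin, Complex.normSq_apply, Complex.re_ofReal_mul, Complex.im_ofReal_mul]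
  ring

private lemma o1_normSq {ζ : ℂ} (h : ‖ζ‖ < 1) : Complex.normSq ζ < 1 := by
  rw [Complex.normSq_eq_norm_sq]
  have := norm_nonneg ζ
  nlinarith

private lemma o1_continuous_lin (n : ℝ × ℝ × ℝ) : Continuous (lin n) := by
  unfold lin
  exact (((continuous_const.mul Complex.continuous_re).add
    (continuous_const.mul Complex.continuous_im)).sub
    (continuous_const.mul (continuous_const.add Complex.continuous_normSq)))

/-- PROOF: for `0 ≤ t ≤ 1` and `n₀ > 0`: `lin n (t ζ) ≤ t lin n ζ - n₀ (1 - t) (1 - t |ζ|²)`. -/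
lemma star_octD (hA : OkA A) : Star (octD A) := by
  refine ⟨?_, ?_, ?_, ?_⟩
  · have h : octD A = {ζ : ℂ | ‖ζ‖ < 1} ∩ ⋂ n ∈ walls A, {ζ | lin n ζ < 0} := by
      ext ζ
      simp [octD]
    rw [h]
    refine (isOpen_lt continuous_norm continuous_const).inter ?_
    exact isOpen_biInter_finset fun n _ => isOpen_lt (o1_continuous_lin n) continuous_const
  · refine ⟨by simp, fun n hn => ?_⟩
    have := walls_pos hA hn
    simp only [lin, Complex.zero_re, Complex.zero_im, map_zero]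
    linarith
  · intro ζ h
    simpa using h.1
  · intro ζ h t h0 h1
    refine ⟨?_, fun n hn => ?_⟩
    · rw [norm_mul, Complex.norm_real, Real.norm_of_nonneg h0]
      have := norm_nonneg ζ
      nlinarith [h.1]
    · rw [o1_lin_smul]
      have h2 := h.2 n hn
      have h3 := walls_pos hA hn
      have h4 := o1_normSq h.1
      have h5 := Complex.normSq_nonneg ζ
      have h6 : 0 < 1 - t * Complex.normSq ζ := by nlinarith
      rcases h0.eq_or_lt with h7 | h7
      · subst h7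
        simp
        exact h3
      · have h8 : t * lin n ζ < 0 := mul_neg_of_pos_of_neg h7 h2
        have h9 : 0 ≤ n.2.2 * ((1 - t) * (1 - t * Complex.normSq ζ)) :=
          mul_nonneg h3.le (mul_nonneg (by linarith) h6.le)
        linarith

/-- PROOF: the same formula. -/
lemma smul_mem_octD (hA : OkA A) {ζ : ℂ} (hζ : ζ ∈ octC A) {t : ℝ} (h0 : 0 ≤ t) (h1 : t < 1) :
    (t : ℂ) * ζ ∈ octD A := by
  refine ⟨?_, fun n hn => ?_⟩
  · rw [norm_mul, Complex.norm_real, Real.norm_of_nonneg h0]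
    have := norm_nonneg ζ
    nlinarith [hζ.1]
  · rw [o1_lin_smul]
    have h2 := hζ.2 n hn
    have h3 := walls_pos hA hn
    have h4 := o1_normSq hζ.1
    have h5 := Complex.normSq_nonneg ζ
    have h6 : 0 < 1 - t * Complex.normSq ζ := by nlinarith
    have h8 : t * lin n ζ ≤ 0 := mul_nonpos_of_nonneg_of_nonpos h0 h2
    have h9 : 0 < n.2.2 * ((1 - t) * (1 - t * Complex.normSq ζ)) :=
      mul_pos h3 (mul_pos (by linarith) h6)
    linarith

lemma octD_subset (A : ℝ) : octD A ⊆ octC A := fun _ h => ⟨h.1, fun n hn => (h.2 n hn).le⟩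

private lemma o1_forall {P : ℝ × ℝ × ℝ → Prop} : (∀ n ∈ walls A, P n) ↔
    P (1, 0, A) ∧ P (-1, 0, A) ∧ P (0, 1, A) ∧ P (0, -1, A) ∧ P (1, 1, 1 / A) ∧ P (1, -1, 1 / A) ∧
    P (-1, 1, 1 / A) ∧ P (-1, -1, 1 / A) := by
  constructor
  · intro h
    refine ⟨h _ ?_, h _ ?_, h _ ?_, h _ ?_, h _ ?_, h _ ?_, h _ ?_, h _ ?_⟩ <;>
      exact o1_mem.2 (by simp)
  · rintro ⟨h1, h2, h3, h4, h5, h6, h7, h8⟩ n hn
    rcases o1_mem.1 hn with h | h | h | h | h | h | h | h <;> subst h <;> assumption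

/-- PROOF: `ζ ↦ i ζ` permutes the walls. -/
lemma I_mul_mem_octD {ζ : ℂ} : Complex.I * ζ ∈ octD A ↔ ζ ∈ octD A := by
  simp only [octD, mem_ofPred_eq, norm_mul, Complex.norm_I, one_mul, o1_forall, lin,
    Complex.I_mul_re, Complex.I_mul_im, map_mul, Complex.normSq_I]
  constructor
  · rintro ⟨h0, h1, h2, h3, h4, h5, h6, h7, h8⟩
    refine ⟨h0, ?_, ?_, ?_, ?_, ?_, ?_, ?_, ?_⟩ <;> linarith
  · rintro ⟨h0, h1, h2, h3, h4, h5, h6, h7, h8⟩
    refine ⟨h0, ?_, ?_, ?_, ?_, ?_, ?_, ?_, ?_⟩ <;> linarith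

lemma conj_mem_octD {ζ : ℂ} : conj ζ ∈ octD A ↔ ζ ∈ octD A := by
  simp only [octD, mem_ofPred_eq, Complex.norm_conj, o1_forall, lin, Complex.conj_re,
    Complex.conj_im, Complex.normSq_conj]
  constructor
  · rintro ⟨h0, h1, h2, h3, h4, h5, h6, h7, h8⟩
    refine ⟨h0, ?_, ?_, ?_, ?_, ?_, ?_, ?_, ?_⟩ <;> linarith
  · rintro ⟨h0, h1, h2, h3, h4, h5, h6, h7, h8⟩
    refine ⟨h0, ?_, ?_, ?_, ?_, ?_, ?_, ?_, ?_⟩ <;> linarith

lemma I_mul_mem_octC {ζ : ℂ} : Complex.I * ζ ∈ octC A ↔ ζ ∈ octC A := by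
  simp only [octC, mem_ofPred_eq, norm_mul, Complex.norm_I, one_mul, o1_forall, lin,
    Complex.I_mul_re, Complex.I_mul_im, map_mul, Complex.normSq_I]
  constructor
  · rintro ⟨h0, h1, h2, h3, h4, h5, h6, h7, h8⟩
    refine ⟨h0, ?_, ?_, ?_, ?_, ?_, ?_, ?_, ?_⟩ <;> linarith
  · rintro ⟨h0, h1, h2, h3, h4, h5, h6, h7, h8⟩
    refine ⟨h0, ?_, ?_, ?_, ?_, ?_, ?_, ?_, ?_⟩ <;> linarith

lemma conj_mem_octC {ζ : ℂ} : conj ζ ∈ octC A ↔ ζ ∈ octC A := by
  simp only [octC, mem_ofPred_eq, Complex.norm_conj, o1_forall, lin, Complex.conj_re,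
    Complex.conj_im, Complex.normSq_conj]
  constructor
  · rintro ⟨h0, h1, h2, h3, h4, h5, h6, h7, h8⟩
    refine ⟨h0, ?_, ?_, ?_, ?_, ?_, ?_, ?_, ?_⟩ <;> linarith
  · rintro ⟨h0, h1, h2, h3, h4, h5, h6, h7, h8⟩
    refine ⟨h0, ?_, ?_, ?_, ?_, ?_, ?_, ?_, ?_⟩ <;> linarith

end Pool.Agent.Lib.MP_b9289b_nt
end
end

section

/-! (W01) Moving half planes by `SL(2,ℝ)`. -/

open UpperHalfPlane Metric Set Filter Topology MatrixGroups
open scoped ComplexConjugate

noncomputable section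

namespace Pool.Agent.Lib.MP_b9289b_nt

/-- `M` is the action of `g` on the half planes. -/
structure Pull (g : SL(2, ℝ)) (M : ℝ × ℝ × ℝ → ℝ × ℝ × ℝ) : Prop where
  bb : ∀ n m, BB (M n) (M m) = BB n m
  lin : ∀ n ζ, ‖ζ‖ < 1 → ∃ c : ℝ, 0 < c ∧
    Pool.Agent.Lib.MP_b9289b_nt.lin n (dm (g : GL (Fin 2) ℝ) ζ) = c * Pool.Agent.Lib.MP_b9289b_nt.lin (M n) ζ

/-- The quadratic form of a half plane in the upper half plane. -/
private def qf (n : ℝ × ℝ × ℝ) (z : ℂ) : ℝ :=
  (n.1 - n.2.2) * Complex.normSq z - 2 * n.2.1 * z.re - (n.1 + n.2.2)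

private lemma lin_div (n : ℝ × ℝ × ℝ) (u v : ℂ) (hv : v ≠ 0) :
    lin n (u / v) = (2 * n.1 * (u * conj v).re + 2 * n.2.1 * (u * conj v).im -
      n.2.2 * (Complex.normSq v + Complex.normSq u)) / Complex.normSq v := by
  have h : Complex.normSq v ≠ 0 := by simpa using hv
  unfold lin
  rw [Complex.normSq_div, Complex.div_re, Complex.div_im]
  simp only [Complex.mul_re, Complex.mul_im, Complex.conj_re, Complex.conj_im]
  field_simp
  ring

private lemma add_I_ne (z : ℍ) : (z : ℂ) + Complex.I ≠ 0 := by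
  intro h
  have h1 := congrArg Complex.im h
  simp at h1
  have := z.im_pos
  linarith

private lemma lin_cay (n : ℝ × ℝ × ℝ) (z : ℍ) :
    lin n (cay z) = 2 / Complex.normSq ((z : ℂ) + Complex.I) * qf n z := by
  have h0 := add_I_ne z
  have h : Complex.normSq ((z : ℂ) + Complex.I) ≠ 0 := by simpa using h0
  unfold cay
  rw [lin_div n _ _ h0, div_mul_eq_mul_div]
  congr 1
  unfold qf
  simp only [Complex.normSq_apply, Complex.mul_re, Complex.mul_im, Complex.conj_re,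
    Complex.conj_im, Complex.add_re, Complex.add_im, Complex.sub_re, Complex.sub_im,
    Complex.I_re, Complex.I_im]
  ring

private def pl (a b c d : ℝ) (n : ℝ × ℝ × ℝ) : ℝ × ℝ × ℝ :=
  let α := n.1 - n.2.2
  let β := -2 * n.2.1
  let γ := -(n.1 + n.2.2)
  let α' := α * a ^ 2 + β * (a * c) + γ * c ^ 2
  let β' := 2 * α * a * b + β * (a * d + b * c) + 2 * γ * c * d
  let γ' := α * b ^ 2 + β * (b * d) + γ * d ^ 2
  ((α' - γ') / 2, -β' / 2, -(α' + γ') / 2)

private lemma BB_pl {a b c d : ℝ} (h : a * d - b * c = 1) (n m : ℝ × ℝ × ℝ) :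
    BB (pl a b c d n) (pl a b c d m) = BB n m := by
  simp only [BB, pl]
  linear_combination ((a * d - b * c + 1) * (n.1 * m.1 + n.2.1 * m.2.1 - n.2.2 * m.2.2)) * h

private lemma qf_div {a b c d : ℝ} (n : ℝ × ℝ × ℝ) (z : ℂ)
    (hv : (c : ℂ) * z + d ≠ 0) :
    qf n ((a * z + b) / (c * z + d)) =
      1 / Complex.normSq ((c : ℂ) * z + d) * qf (pl a b c d n) z := by
  have h : Complex.normSq ((c : ℂ) * z + d) ≠ 0 := by simpa using hv
  have h1 : ((a * z + b) / (c * z + d) : ℂ).re =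
      (((a : ℂ) * z + b) * conj ((c : ℂ) * z + d)).re / Complex.normSq ((c : ℂ) * z + d) := by
    rw [Complex.div_re]
    simp only [Complex.mul_re, Complex.conj_re, Complex.conj_im]
    field_simp
    ring
  rw [one_div_mul_eq_div, eq_div_iff h]
  have key : ∀ (p q r s t N : ℝ), N ≠ 0 →
      (p * (q / N) - r * (s / N) - t) * N = p * q - r * s - t * N := by
    intro p q r s t N hN
    field_simp
  simp only [qf]
  rw [Complex.normSq_div, h1, key _ _ _ _ _ _ h]
  simp only [pl, Complex.normSq_apply, Complex.mul_re, Complex.mul_im, Complex.conj_re,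
    Complex.conj_im, Complex.add_re, Complex.add_im,
    Complex.ofReal_re, Complex.ofReal_im]
  ring

/-- PROOF: for `z = x + i y` in the upper half plane `lin n (cay z) = 2 / |z + i|² * (α |z|² + β x + γ)` with `α = n₁ - n₀`, `β = -2 n₂`, `γ = -(n₁ + n₀)`, and `BB n m = β β' / 4 - (α γ' + α' γ) / 2`.
For `g = (a b; c d)`: `|g z|² = |a z + b|² / |c z + d|²`, `re (g z) = re ((a z + b) conj (c z + d)) / |c z + d|²`; so `lin n (cay (g z))` is a positive multiple of `lin n' (cay z)` with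
`α' = α a² + β a c + γ c²`, `β' = 2 α a b + β (a d + b c) + 2 γ c d`, `γ' = α b² + β b d + γ d²` (`a d - b c = 1`). Take `M n = ((α' - γ')/2, -β'/2, -(α' + γ')/2)`; invariance of `BB` by `ring` (with `a d - b c = 1`). -/
theorem exists_pull (g : SL(2, ℝ)) : ∃ M, Pull g M := by
  have hdet : g 0 0 * g 1 1 - g 0 1 * g 1 0 = 1 := by
    have := g.det_coe
    rwa [Matrix.det_fin_two] at this
  refine ⟨pl (g 0 0) (g 0 1) (g 1 0) (g 1 1), fun n m => BB_pl hdet n m, fun n ζ hζ => ?_⟩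
  have hd : ((g 1 0 : ℝ) : ℂ) * (toH ζ : ℂ) + (g 1 1 : ℝ) ≠ 0 := by
    have := denom_ne_zero (g : GL (Fin 2) ℝ) (toH ζ)
    simpa [denom] using this
  have hg : ((g • toH ζ : ℍ) : ℂ) = ((g 0 0 : ℝ) * (toH ζ : ℂ) + (g 0 1 : ℝ)) /
      ((g 1 0 : ℝ) * (toH ζ : ℂ) + (g 1 1 : ℝ)) := by
    rw [coe_specialLinearGroup_apply]
    rfl
  have h1 := lin_cay n (g • toH ζ)
  rw [hg, qf_div n _ hd] at h1
  have h2 := lin_cay (pl (g 0 0) (g 0 1) (g 1 0) (g 1 1) n) (toH ζ)
  rw [cay_toH hζ] at h2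
  have p1 : 0 < Complex.normSq ((toH ζ : ℂ) + Complex.I) := Complex.normSq_pos.2 (add_I_ne _)
  have p2 := Complex.normSq_pos.2 hd
  have p3 := Complex.normSq_pos.2 (add_I_ne (g • toH ζ))
  rw [hg] at p3
  refine ⟨Complex.normSq ((toH ζ : ℂ) + Complex.I) / (Complex.normSq
    (((g 0 0 : ℝ) * (toH ζ : ℂ) + (g 0 1 : ℝ)) / ((g 1 0 : ℝ) * (toH ζ : ℂ) + (g 1 1 : ℝ)) +
      Complex.I) * Complex.normSq (((g 1 0 : ℝ) : ℂ) * (toH ζ : ℂ) + (g 1 1 : ℝ))),
    div_pos p1 (mul_pos p3 p2), ?_⟩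
  have h3 : dm (g : GL (Fin 2) ℝ) ζ = cay (g • toH ζ) := rfl
  rw [h3, h1, h2]
  field_simp

/-- PROOF: `dm (g * h) ζ = dm g (dm h ζ)` (`dm_mul`). -/
theorem Pull.comp {g h : SL(2, ℝ)} {M N : ℝ × ℝ × ℝ → ℝ × ℝ × ℝ} (hM : Pull g M) (hN : Pull h N) :
    Pull (g * h) (fun n => N (M n)) := by
  refine ⟨fun n m => by rw [hN.bb, hM.bb], fun n ζ hζ => ?_⟩
  obtain ⟨c, hc, h1⟩ := hM.lin n (dm (h : GL (Fin 2) ℝ) ζ) (norm_dm_lt _ _)
  obtain ⟨c', hc', h2⟩ := hN.lin (M n) ζ hζ
  refine ⟨c * c', mul_pos hc hc', ?_⟩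
  rw [map_mul, dm_mul, h1, h2, mul_assoc]

/-- PROOF: `dm (rotM φ) ζ = exp (i φ) ζ` (`cay_rotM`), `re (e^{iφ} ζ) = re ζ cos φ - im ζ sin φ`, `im (e^{iφ} ζ) = re ζ sin φ + im ζ cos φ`. -/
theorem pull_rotM (φ : ℝ) : Pull (rotM φ) (fun n =>
    (n.1 * Real.cos φ + n.2.1 * Real.sin φ, -n.1 * Real.sin φ + n.2.1 * Real.cos φ, n.2.2)) := by
  refine ⟨fun n m => ?_, fun n ζ hζ => ⟨1, one_pos, ?_⟩⟩
  · simp only [BB]
    linear_combination (n.1 * m.1 + n.2.1 * m.2.1) * Real.sin_sq_add_cos_sq φ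
  · have h1 : dm (rotM φ : GL (Fin 2) ℝ) ζ = Complex.exp (φ * Complex.I) * ζ := by
      have h3 : dm (rotM φ : GL (Fin 2) ℝ) ζ = cay (rotM φ • toH ζ) := rfl
      rw [h3, cay_rotM, cay_toH hζ]
    rw [h1, one_mul]
    have h2 : Complex.normSq (Complex.exp (φ * Complex.I) * ζ) = Complex.normSq ζ := by
      rw [Complex.normSq_eq_norm_sq, norm_mul, Complex.norm_exp_ofReal_mul_I, one_mul,
        Complex.normSq_eq_norm_sq]
    simp only [lin]
    rw [h2]
    simp only [Complex.mul_re, Complex.mul_im, Complex.exp_ofReal_mul_I_re,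
      Complex.exp_ofReal_mul_I_im]
    ring

/-- Normal form of a wall through `y`. PROOF: `g₀ = y.toSL2R` (`toSL2R_smul_I`), `M₀` by `exists_pull`; `lin n (dm g₀ 0) = lin n (cay y) = 0`, so `(M₀ n).2.2 = 0`; `M₀ n = (a, b, 0)`, `a² + b² = BB n n > 0`; compose with `rotM φ`, where `a = r sin (-φ)...`
precisely choose `φ` with `a cos φ + b sin φ = 0` and `-a sin φ + b cos φ = -√(a² + b²)` (polar coordinates of `(a, b)`: e.g. `φ = arg (a + i b) + π/2`). -/
theorem exists_normal (y : ℍ) {n : ℝ × ℝ × ℝ} (hn : 0 < BB n n) (hy : lin n (cay y) = 0) :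
    ∃ (g : SL(2, ℝ)) (M : ℝ × ℝ × ℝ → ℝ × ℝ × ℝ), Pull g M ∧ g • (I : ℍ) = y ∧ (M n).1 = 0 ∧
      (M n).2.1 < 0 ∧ (M n).2.2 = 0 := by
  obtain ⟨M, hM⟩ := exists_pull y.toSL2R
  have h0 : (M n).2.2 = 0 := by
    obtain ⟨c, hc, h1⟩ := hM.lin n 0 (by simp)
    have h2 : dm (y.toSL2R : GL (Fin 2) ℝ) 0 = cay y := by
      have h3 : dm (y.toSL2R : GL (Fin 2) ℝ) 0 = cay (y.toSL2R • toH 0) := rfl
      rw [h3, toH_zero, toSL2R_smul_I]
    rw [h2, hy] at h1
    have h3 := (mul_eq_zero.1 h1.symm).resolve_left hc.ne'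
    simpa [lin] using h3
  have h1 : 0 < (M n).1 ^ 2 + (M n).2.1 ^ 2 := by
    have := hM.bb n n
    simp only [BB, h0] at this hn
    nlinarith
  set w : ℂ := ⟨(M n).1, (M n).2.1⟩ with hw
  have hw0 : w ≠ 0 := by
    intro h
    have h2 := congrArg Complex.re h
    have h3 := congrArg Complex.im h
    simp only [hw, Complex.zero_re, Complex.zero_im] at h2 h3
    rw [h2, h3] at h1
    simp at h1
  have hr : 0 < ‖w‖ := norm_pos_iff.2 hw0
  have e1 : (M n).1 = ‖w‖ * Real.cos (Complex.arg w) := by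
    rw [Complex.norm_mul_cos_arg]
  have e2 : (M n).2.1 = ‖w‖ * Real.sin (Complex.arg w) := by
    rw [Complex.norm_mul_sin_arg]
  refine ⟨y.toSL2R * rotM (Complex.arg w + Real.pi / 2), _, hM.comp (pull_rotM _), ?_, ?_, ?_, ?_⟩
  · rw [mul_smul, rotM_smul_I, toSL2R_smul_I]
  · simp only
    rw [Real.cos_add_pi_div_two, Real.sin_add_pi_div_two, e1, e2]
    ring
  · simp only
    rw [Real.cos_add_pi_div_two, Real.sin_add_pi_div_two]
    have : -(M n).1 * Real.cos (Complex.arg w) + (M n).2.1 * -Real.sin (Complex.arg w) = -‖w‖ := by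
      rw [e1, e2]
      linear_combination -‖w‖ * Real.sin_sq_add_cos_sq (Complex.arg w)
    rw [this]
    linarith
  · exact h0

end Pool.Agent.Lib.MP_b9289b_nt
end
end

section

/-! (T04a) Values on the rays. -/

open Metric Set Filter Topology
open scoped ComplexConjugate

noncomputable section

namespace Pool.Agent.Lib.MP_b9289b_nt

private lemma t04a_mem {A : ℝ} (hA : OkA A) {z : ℂ} (hz : z ∈ KOctC A) {t : ℝ}
    (ht : t ∈ Ioc (0 : ℝ) 1) : (t : ℂ) * z ∈ KOctC A := by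
  rcases ht.2.lt_or_eq with h | h
  · exact KOct_subset_KOctC A (mul_mem_KOct hA hz ht.1.le h)
  · rw [h, Complex.ofReal_one, one_mul]
    exact hz

private lemma t04a_ray {A : ℝ} (hA : OkA A) {f : ℂ → ℂ} (hf : TExt A f) {z : ℂ}
    (hz : z ∈ KOctC A) (c : ℂ) (hn : ∀ t ∈ Ioc (0 : ℝ) 1, (c * f (t * z)).re ≠ 0)
    (hc : 0 < (c * z).re) : 0 < (c * f z).re := by
  obtain ⟨ρ, hρ, hlim⟩ := hf.tendsto_ray hA z
  have hcont : ContinuousOn (fun t : ℝ => (c * f (t * z)).re) (Ioc 0 1) := by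
    have h1 : ContinuousOn (fun t : ℝ => f (t * z)) (Ioc 0 1) := by
      refine hf.cont.comp ?_ (fun t ht => t04a_mem hA hz ht)
      exact (Complex.continuous_ofReal.mul continuous_const).continuousOn
    exact Complex.continuous_re.comp_continuousOn (continuousOn_const.mul h1)
  have hl : Tendsto (fun t : ℝ => (c * f (t * z)).re / t) (𝓝[>] 0) (𝓝 (ρ * (c * z).re)) := by
    have h2 := (Complex.continuous_re.tendsto _).comp (hlim.const_mul c)
    have e1 : (c * (ρ * z)).re = ρ * (c * z).re := by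
      have : c * (ρ * z) = ρ * (c * z) := by ring
      rw [this, Complex.re_ofReal_mul]
    rw [e1] at h2
    refine h2.congr fun t => ?_
    show (c * (f (t * z) / t)).re = (c * f (t * z)).re / t
    rw [← mul_div_assoc, Complex.div_ofReal_re]
  have h3 := pos_of_ray hcont hn (mul_pos hρ hc) hl
  simpa using h3

/-- On the positive real axis. PROOF: `f (r) = conj (f r)` by `TExt.conj_symm`; apply `pos_of_ray` to `t ↦ (f (t r)).re` (`f (t r) ≠ 0 = f 0` by injectivity, and it is real). -/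
lemma TExt.real_pos {A : ℝ} (hA : OkA A) {f : ℂ → ℂ} (hf : TExt A f) {r : ℝ} (hr : 0 < r)
    (hz : (r : ℂ) ∈ KOctC A) : ∃ ρ : ℝ, 0 < ρ ∧ f r = ρ := by
  have hreal : ∀ s : ℝ, (s : ℂ) ∈ KOctC A → f s = ((f s).re : ℂ) := by
    intro s hs
    have h1 := hf.conj_symm hA hs
    rw [Complex.conj_ofReal] at h1
    exact (Complex.conj_eq_iff_re.1 h1.symm).symm
  have h0 : (0 : ℂ) ∈ KOctC A := KOct_subset_KOctC A (zero_mem_KOct hA)
  refine ⟨(f r).re, ?_, hreal r hz⟩
  have h2 := t04a_ray hA hf hz 1 ?_ ?_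
  · simpa using h2
  · intro t ht h
    have hm := t04a_mem hA hz ht
    have e : (t : ℂ) * (r : ℂ) = ((t * r : ℝ) : ℂ) := by push_cast; ring
    rw [one_mul] at h
    have h3 := hreal (t * r) (by rw [← e]; exact hm)
    rw [← e, h, Complex.ofReal_zero] at h3
    have h4 := hf.inj hm h0 (by rw [h3, hf.rmap.zero])
    rw [e, Complex.ofReal_eq_zero] at h4
    exact (mul_pos ht.1 hr).ne' h4
  · simpa using hr

/-- On the diagonal. PROOF: for `z = r e8`, `I * conj z = z`, so `f z = I * conj (f z)` (`TExt.conj_symm`, `TExt.I_symm`), hence `conj e8 * f z` is real; then as before with `t ↦ (conj e8 * f (t z)).re`. -/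
lemma TExt.diag_pos {A : ℝ} (hA : OkA A) {f : ℂ → ℂ} (hf : TExt A f) {r : ℝ} (hr : 0 < r)
    (hz : (r : ℂ) * e8 ∈ KOctC A) : ∃ ρ : ℝ, 0 < ρ ∧ f (r * e8) = ρ * e8 := by
  have he : e8 * conj e8 = 1 := by
    rw [Complex.mul_conj, Complex.normSq_eq_norm_sq, norm_e8]
    norm_num
  have he0 : e8 ≠ 0 := by
    intro h
    rw [h, zero_mul] at he
    exact zero_ne_one he
  have hreal : ∀ s : ℝ, (s : ℂ) * e8 ∈ KOctC A →
      conj e8 * f (s * e8) = ((conj e8 * f (s * e8)).re : ℂ) := by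
    intro s hs
    have h1 := hf.conj_symm hA hs
    have hs' : conj ((s : ℂ) * e8) ∈ KOctC A := conj_mem_KOctC.2 hs
    have h2 := hf.I_symm hA hs'
    have e : Complex.I * conj ((s : ℂ) * e8) = s * e8 := by
      rw [map_mul, Complex.conj_ofReal]
      calc Complex.I * ((s : ℂ) * conj e8) = s * (Complex.I * conj e8) := by ring
        _ = s * e8 := by rw [I_mul_conj_e8]
    rw [e, h1] at h2
    symm
    rw [← Complex.conj_eq_iff_re, map_mul, Complex.conj_conj]
    -- e8 * conj (f z) = conj e8 * f z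
    rw [h2]
    have h3 : conj e8 * (Complex.I * conj (f (s * e8))) =
        (Complex.I * conj e8) * conj (f (s * e8)) := by ring
    rw [h3, I_mul_conj_e8]
    congr 1
    rw [← h2]
  have h0 : (0 : ℂ) ∈ KOctC A := KOct_subset_KOctC A (zero_mem_KOct hA)
  refine ⟨(conj e8 * f (r * e8)).re, ?_, ?_⟩
  · refine t04a_ray hA hf hz (conj e8) ?_ ?_
    · intro t ht h
      have hm := t04a_mem hA hz ht
      have e : (t : ℂ) * ((r : ℂ) * e8) = ((t * r : ℝ) : ℂ) * e8 := by push_cast; ring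
      have h3 := hreal (t * r) (by rw [← e]; exact hm)
      rw [← e, h, Complex.ofReal_zero] at h3
      have h5 : f ((t : ℂ) * ((r : ℂ) * e8)) = 0 := by
        have hce : conj e8 ≠ 0 := by
          intro h; rw [h, mul_zero] at he; exact zero_ne_one he
        exact (mul_eq_zero.1 h3).resolve_left hce
      have h4 := hf.inj hm h0 (by rw [h5, hf.rmap.zero])
      rw [e] at h4
      rcases mul_eq_zero.1 h4 with h6 | h6
      · rw [Complex.ofReal_eq_zero] at h6
        exact (mul_pos ht.1 hr).ne' h6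
      · exact he0 h6
    · have h6 : conj e8 * (r * e8) = (r : ℂ) := by
        calc conj e8 * (r * e8) = r * (e8 * conj e8) := by ring
          _ = r := by rw [he, mul_one]
      rw [h6]
      simpa using hr
  · rw [← hreal r hz]
    calc f (r * e8) = (e8 * conj e8) * f (r * e8) := by rw [he, one_mul]
      _ = conj e8 * f (r * e8) * e8 := by ring

end Pool.Agent.Lib.MP_b9289b_nt
end
end

section

/-! (T04b) Values in the sector. -/

open Metric Set Filter Topology
open scoped ComplexConjugate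

noncomputable section

namespace Pool.Agent.Lib.MP_b9289b_nt

private lemma t04b_mem {A : ℝ} (hA : OkA A) {z : ℂ} (hz : z ∈ KOctC A) {t : ℝ}
    (ht : t ∈ Ioc (0 : ℝ) 1) : (t : ℂ) * z ∈ KOctC A := by
  rcases ht.2.lt_or_eq with h | h
  · exact KOct_subset_KOctC A (mul_mem_KOct hA hz ht.1.le h)
  · rw [h, Complex.ofReal_one, one_mul]
    exact hz

private lemma t04b_ray {A : ℝ} (hA : OkA A) {f : ℂ → ℂ} (hf : TExt A f) {z : ℂ}
    (hz : z ∈ KOctC A) (c : ℂ) (hn : ∀ t ∈ Ioc (0 : ℝ) 1, (c * f (t * z)).re ≠ 0)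
    (hc : 0 < (c * z).re) : 0 < (c * f z).re := by
  obtain ⟨ρ, hρ, hlim⟩ := hf.tendsto_ray hA z
  have hcont : ContinuousOn (fun t : ℝ => (c * f (t * z)).re) (Ioc 0 1) := by
    have h1 : ContinuousOn (fun t : ℝ => f (t * z)) (Ioc 0 1) := by
      refine hf.cont.comp ?_ (fun t ht => t04b_mem hA hz ht)
      exact (Complex.continuous_ofReal.mul continuous_const).continuousOn
    exact Complex.continuous_re.comp_continuousOn (continuousOn_const.mul h1)
  have hl : Tendsto (fun t : ℝ => (c * f (t * z)).re / t) (𝓝[>] 0) (𝓝 (ρ * (c * z).re)) := by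
    have h2 := (Complex.continuous_re.tendsto _).comp (hlim.const_mul c)
    have e1 : (c * (ρ * z)).re = ρ * (c * z).re := by
      have : c * (ρ * z) = ρ * (c * z) := by ring
      rw [this, Complex.re_ofReal_mul]
    rw [e1] at h2
    refine h2.congr fun t => ?_
    show (c * (f (t * z) / t)).re = (c * f (t * z)).re / t
    rw [← mul_div_assoc, Complex.div_ofReal_re]
  have h3 := pos_of_ray hcont hn (mul_pos hρ hc) hl
  simpa using h3

/-- In the sector. PROOF: for `0 < t ≤ 1`: `(f (t z)).im ≠ 0`, otherwise `f (conj (t z)) = conj (f (t z)) = f (t z)` and `conj (t z) = t z` by injectivity; `(f (t z)).im ≠ (f (t z)).re`, otherwise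
`I * conj (f (t z)) = f (t z)` and `I * conj (t z) = t z`, so `(t z).im = (t z).re`. Apply `pos_of_ray` to `t ↦ (f (t z)).im` and `t ↦ (f (t z)).re - (f (t z)).im` with `TExt.tendsto_ray`. -/
lemma TExt.sector {A : ℝ} (hA : OkA A) {f : ℂ → ℂ} (hf : TExt A f) {z : ℂ} (hz : z ∈ KOctC A)
    (h1 : 0 < z.im) (h2 : z.im < z.re) : 0 < (f z).im ∧ (f z).im < (f z).re := by
  have e1 : ∀ w : ℂ, (-Complex.I * w).re = w.im := by
    intro w
    simp
  have e2 : ∀ w : ℂ, ((1 + Complex.I) * w).re = w.re - w.im := by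
    intro w
    simp
  constructor
  · rw [← e1]
    refine t04b_ray hA hf hz _ ?_ ?_
    · intro t ht h
      rw [e1] at h
      have hm := t04b_mem hA hz ht
      have h3 : conj (f (t * z)) = f (t * z) := Complex.conj_eq_iff_im.2 h
      rw [← hf.conj_symm hA hm] at h3
      have h4 := hf.inj (conj_mem_KOctC.2 hm) hm h3
      have h5 := Complex.conj_eq_iff_im.1 h4
      rw [Complex.im_ofReal_mul] at h5
      exact (mul_pos ht.1 h1).ne' h5
    · rw [e1]
      exact h1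
  · have h6 : 0 < ((1 + Complex.I) * f z).re := by
      refine t04b_ray hA hf hz _ ?_ ?_
      · intro t ht h
        rw [e2] at h
        have hm := t04b_mem hA hz ht
        have h3 : Complex.I * conj (f (t * z)) = f (t * z) := by
          apply Complex.ext
          · simp
            linarith
          · simp
            linarith
        rw [← hf.conj_symm hA hm, ← hf.I_symm hA (conj_mem_KOctC.2 hm)] at h3
        have h4 := hf.inj (I_mul_mem_KOctC.2 (conj_mem_KOctC.2 hm)) hm h3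
        have h5 := congrArg Complex.re h4
        have h7 : (Complex.I * conj ((t : ℂ) * z)).re = t * z.im := by
          simp
        have h8 : ((t : ℂ) * z).re = t * z.re := by simp
        rw [h7, h8] at h5
        have h9 : t * (z.re - z.im) = 0 := by rw [mul_sub, h5, sub_self]
        exact (mul_pos ht.1 (sub_pos.2 h2)).ne' h9
      · rw [e2]
        linarith
    rw [e2] at h6
    linarith

/-- PROOF: cases `z.im = 0`, `z.im = z.re`, sector. `arg` of a complex number in the closed sector. -/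
lemma TExt.arg_mem {A : ℝ} (hA : OkA A) {f : ℂ → ℂ} (hf : TExt A f) {z : ℂ} (hz : z ∈ KOctC A)
    (h0 : z ≠ 0) (h1 : 0 ≤ z.im) (h2 : z.im ≤ z.re) :
    0 ≤ Complex.arg (f z) ∧ Complex.arg (f z) ≤ Real.pi / 4 := by
  have hre : 0 < z.re := by
    rcases lt_or_eq_of_le (h1.trans h2) with h | h
    · exact h
    · exfalso
      apply h0
      apply Complex.ext
      · exact h.symm
      · rw [← h] at h2
        exact le_antisymm h2 h1
  have hs2 : (0 : ℝ) < √ 2 := Real.sqrt_pos.2 (by norm_num)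
  have hss : √ 2 * √ 2 = (2 : ℝ) := Real.mul_self_sqrt (by norm_num)
  have hcos : e8.re = √ 2 / 2 := by
    rw [e8, Complex.exp_ofReal_mul_I_re, Real.cos_pi_div_four]
  have hsin : e8.im = √ 2 / 2 := by
    rw [e8, Complex.exp_ofReal_mul_I_im, Real.sin_pi_div_four]
  -- the value is in the closed sector
  have key : 0 ≤ (f z).im ∧ (f z).im ≤ (f z).re := by
    rcases lt_or_eq_of_le h1 with h3 | h3
    · rcases lt_or_eq_of_le h2 with h4 | h4
      · obtain ⟨h5, h6⟩ := hf.sector hA hz h3 h4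
        exact ⟨h5.le, h6.le⟩
      · have hzz : z = ((z.re * √ 2 : ℝ) : ℂ) * e8 := by
          apply Complex.ext
          · rw [Complex.re_ofReal_mul, hcos]
            nlinarith
          · rw [Complex.im_ofReal_mul, hsin, h4]
            nlinarith
        obtain ⟨ρ, hρ, h5⟩ := hf.diag_pos hA (mul_pos hre hs2) (by rw [← hzz]; exact hz)
        rw [← hzz] at h5
        rw [h5, Complex.re_ofReal_mul, Complex.im_ofReal_mul, hcos, hsin]
        exact ⟨by positivity, le_refl _⟩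
    · have hzz : z = ((z.re : ℝ) : ℂ) := by
        apply Complex.ext
        · simp
        · rw [← h3]
          simp
      obtain ⟨ρ, hρ, h5⟩ := hf.real_pos hA hre (by rw [← hzz]; exact hz)
      rw [← hzz] at h5
      rw [h5]
      simp [hρ.le]
  obtain ⟨k1, k2⟩ := key
  refine ⟨Complex.arg_nonneg_iff.2 k1, ?_⟩
  rw [Complex.arg_of_re_nonneg (k1.trans k2)]
  have h7 : (f z).im / ‖f z‖ ≤ Real.sin (Real.pi / 4) := by
    rw [Real.sin_pi_div_four]
    apply div_le_of_le_mul₀ (norm_nonneg _) (by positivity)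
    have h8 : ‖f z‖ ^ 2 = (f z).re ^ 2 + (f z).im ^ 2 := by
      rw [Complex.sq_norm, Complex.normSq_apply]
      ring
    apply le_of_sq_le_sq _ (by positivity)
    have h9 : (√ 2 / 2 * ‖f z‖) ^ 2 = ((f z).re ^ 2 + (f z).im ^ 2) / 2 := by
      rw [mul_pow, h8, div_pow, Real.sq_sqrt (by norm_num)]
      ring
    rw [h9]
    nlinarith
  have h10 := Real.arcsin_le_arcsin h7
  rw [Real.arcsin_sin (by linarith [Real.pi_pos]) (by linarith [Real.pi_pos])] at h10
  exact h10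

end Pool.Agent.Lib.MP_b9289b_nt
end
end
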