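import Pool.Agent.Lib.MP_b9289b_nt.Mg.G003
import Pool.Agent.Lib.MP_b9289b_nt.Mg.G004
import Pool.Agent.Lib.MP_b9289b_nt.Mg.G009

section

/-!
# G07: the isometries `c` and `r` on the functions

`c` (`det < 0`, `act c S = S`; coefficients are conjugated):
`(act c h0)^2 = (S - a)(S - ib)` and `(h2 * dl / (S + a))^2 = (S + a)(S - ib)(S - a)(S + a)/(S+a)^2`.
`r` (`actS r S = D`): with `u = S²`, `D² = (u + b²)/(u - 1)`, `b² = t² - 1`, `a² = 1 + t`:
`D² - a² = t (a² - u)/(u - 1)`, `D² + b² = t² u/(u - 1)`, and `(h0 h2)² = (u - a²)(u + b²)`, so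
`(actS r (h0 * h2))² = (D² - a²)(D² + b²) = - t³ (u - a²) u/(u - 1)²`
`= (i t √t S/(u - 1) * dl)²`.
-/

open UpperHalfPlane Filter Topology MatrixGroups
open scoped ContDiff ComplexConjugate

noncomputable section

namespace Pool.Agent.Lib.MP_b9289b_nt

open Mer

variable {t : ℝ} {S D h0 h2 dl : Mer}

private lemma add_cst_ne (h : IsData t S D h0 h2 dl) (c : ℂ) : S + cst c ≠ 0 := by
  intro h1
  refine h.toIsS.S_ne_cst (-c) ?_
  rw [map_neg]
  exact eq_neg_of_add_eq_zero_left h1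

private lemma sq_sub_one_ne (h : IsData t S D h0 h2 dl) : S ^ 2 - 1 ≠ 0 := by
  have h1 := add_cst_ne h 1
  have h2 := add_cst_ne h (-1)
  have h3 : S ^ 2 - 1 = (S + cst 1) * (S + cst (-1)) := by
    rw [map_neg, map_one]; ring
  rw [h3]
  exact mul_ne_zero h1 h2

private lemma sigma_neg {g : GL (Fin 2) ℝ} (hg : g.det.val < 0) (c : ℂ) : σ g c = conj c := by
  rw [σ, if_neg (not_lt.2 hg.le)]
  rfl

/-- `c` and `h0`. -/
lemma IsData.act_c (h : IsData t S D h0 h2 dl) {g : GL (Fin 2) ℝ} (hg : g.det.val < 0)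
    (hS : act g S = S) : (act g D = D ∨ act g D = -D) ∧
      ∃ H ∈ Kf (GN S D), H ≠ 0 ∧ act g h0 = H * (h2 * dl) := by
  constructor
  · have h1 := congrArg (act g) h.eqD
    rw [map_mul, map_add, map_sub, map_pow, map_pow, map_one, hS, act_cst, sigma_neg hg, map_pow,
      Complex.conj_ofReal, ← h.eqD] at h1
    exact sq_eq_sq_iff_eq_or_eq_neg.1 (mul_right_cancel₀ (sq_sub_one_ne h) h1)
  · have h1 := congrArg (act g) h.eq0
    rw [map_pow, map_mul, map_sub, map_add, hS, act_cst, act_cst, sigma_neg hg, sigma_neg hg,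
      map_mul, Complex.conj_ofReal, Complex.conj_ofReal, Complex.conj_I] at h1
    have hne := add_cst_ne h (aa t)
    have h3 : (act g h0 * (S + cst (aa t))) ^ 2 = (h2 * dl) ^ 2 := by
      rw [mul_pow, mul_pow, h1, h.eq2, h.eql, map_pow, neg_mul, map_neg]
      ring
    have hK : (S + cst (aa t))⁻¹ ∈ Kf (GN S D) := by
      refine mem_Kf'.2 fun γ hγ => ?_
      have hγS : actS γ S = S := hγ S (by simp)
      rw [map_inv₀, map_add, hγS, actS_cst]
    rcases sq_eq_sq_iff_eq_or_eq_neg.1 h3 with h4 | h4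
    · refine ⟨(S + cst (aa t))⁻¹, hK, inv_ne_zero hne, ?_⟩
      rw [← h4, mul_comm (act g h0), inv_mul_cancel_left₀ hne]
    · refine ⟨-(S + cst (aa t))⁻¹, (Kf (GN S D)).neg_mem hK, neg_ne_zero.2 (inv_ne_zero hne), ?_⟩
      rw [neg_mul, ← mul_neg, ← h4, mul_comm (act g h0), inv_mul_cancel_left₀ hne]

/-- `r` and `h0 * h2`. -/
lemma IsData.act_r (h : IsData t S D h0 h2 dl) {r : SL(2, ℝ)} (hr : actS r S = D) :
    ∃ H ∈ Kf (GN S D), H ≠ 0 ∧ actS r (h0 * h2) = H * dl := by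
  have ht := h.ht
  have hu := sq_sub_one_ne h
  have e1 : (h0 * h2) ^ 2 = (S ^ 2 - cst ((aa t : ℂ) ^ 2)) * (S ^ 2 + cst ((bb t : ℂ) ^ 2)) := by
    have hI : cst ((Complex.I * bb t) ^ 2) = -cst ((bb t : ℂ) ^ 2) := by
      rw [mul_pow, Complex.I_sq, neg_one_mul, map_neg]
    rw [mul_pow, h.eq0, h.eq2]
    calc (S - cst (aa t)) * (S + cst (Complex.I * bb t)) *
          ((S + cst (aa t)) * (S - cst (Complex.I * bb t)))
        = (S ^ 2 - cst (aa t) ^ 2) * (S ^ 2 - cst (Complex.I * bb t) ^ 2) := by ring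
      _ = _ := by rw [← map_pow, ← map_pow, hI, sub_neg_eq_add]
  have e2 := congrArg (actS r) e1
  rw [map_pow, map_mul (actS r) (S ^ 2 - _), map_sub, map_add, map_pow, hr, actS_cst,
    actS_cst] at e2
  have ha : (aa t : ℂ) ^ 2 = 1 + t := by
    rw [← Complex.ofReal_pow, aa_sq ht]; push_cast; ring
  have hb : (bb t : ℂ) ^ 2 = t ^ 2 - 1 := by
    rw [← Complex.ofReal_pow, bb_sq ht]; push_cast; ring
  have ht0 : (0 : ℝ) ≤ t := by linarith
  have hst : ((√t : ℝ) : ℂ) ^ 2 = t := by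
    rw [← Complex.ofReal_pow, Real.sq_sqrt ht0]
  have eD := h.eqD
  have el := h.eql
  rw [hb] at eD e2
  rw [ha] at el e2
  simp only [map_add, map_sub, map_pow, map_one] at eD el e2
  have e3 : (actS r (h0 * h2) * (S ^ 2 - 1)) ^ 2
      = (cst (Complex.I * (t * √t)) * S * dl) ^ 2 := by
    have hc : cst (Complex.I * (t * √t)) ^ 2 = -cst (t : ℂ) ^ 3 := by
      rw [← map_pow, ← map_pow, ← map_neg]
      congr 1
      rw [mul_pow, mul_pow, Complex.I_sq, hst]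
      ring
    have k1 : (D ^ 2 - (1 + cst (t : ℂ))) * (S ^ 2 - 1) = -cst (t : ℂ) * dl ^ 2 := by
      rw [el]
      linear_combination eD
    have k2 : (D ^ 2 + (cst (t : ℂ) ^ 2 - 1)) * (S ^ 2 - 1) = cst (t : ℂ) ^ 2 * S ^ 2 := by
      linear_combination eD
    calc (actS r (h0 * h2) * (S ^ 2 - 1)) ^ 2
        = ((D ^ 2 - (1 + cst (t : ℂ))) * (S ^ 2 - 1)) *
          ((D ^ 2 + (cst (t : ℂ) ^ 2 - 1)) * (S ^ 2 - 1)) := by
          rw [mul_pow, e2]; ring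
      _ = cst (Complex.I * (t * √t)) ^ 2 * S ^ 2 * dl ^ 2 := by
          rw [k1, k2, hc]; ring
      _ = _ := by ring
  have hS0 : S ≠ 0 := by
    have := h.toIsS.S_ne_cst 0
    rwa [map_zero] at this
  have hc0 : cst (Complex.I * (t * √t)) ≠ 0 := by
    rw [Ne, map_eq_zero]
    have h1 : (t : ℂ) ≠ 0 := by
      rw [Ne, Complex.ofReal_eq_zero]; linarith
    have h2 : ((√t : ℝ) : ℂ) ≠ 0 := by
      rw [Ne, Complex.ofReal_eq_zero]
      exact (Real.sqrt_pos.2 (by linarith)).ne'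
    exact mul_ne_zero Complex.I_ne_zero (mul_ne_zero h1 h2)
  have hK : cst (Complex.I * (t * √t)) * S * (S ^ 2 - 1)⁻¹ ∈ Kf (GN S D) := by
    refine mem_Kf'.2 fun γ hγ => ?_
    have hγS : actS γ S = S := hγ S (by simp)
    rw [map_mul, map_mul, map_inv₀, map_sub, map_pow, hγS, actS_cst, map_one]
  have hK0 : cst (Complex.I * (t * √t)) * S * (S ^ 2 - 1)⁻¹ ≠ 0 :=
    mul_ne_zero (mul_ne_zero hc0 hS0) (inv_ne_zero hu)
  rcases sq_eq_sq_iff_eq_or_eq_neg.1 e3 with h4 | h4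
  · refine ⟨_, hK, hK0, ?_⟩
    apply mul_right_cancel₀ hu
    rw [h4]
    field_simp
  · refine ⟨_, (Kf (GN S D)).neg_mem hK, neg_ne_zero.2 hK0, ?_⟩
    apply mul_right_cancel₀ hu
    rw [h4]
    field_simp

end Pool.Agent.Lib.MP_b9289b_nt
end
end

section

/-!
# S04: `GX` and `GY` are isospectral

`GN = fixer {S, D}`; `GX = ker χ0 ∩ ker χ2`, `GY = ker χ2 ∩ ker χd`, so by `decomp_four`
`E(GX) = E(1) + E(h0) + E(h2) + E(h0 h2)` and `E(GY) = E(1) + E(h2) + E(dl) + E(h2 dl)`;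
`transport` by `c` : `E(h0) = E(h2 dl)`, by `r` : `E(h0 h2) = E(dl)`.
`c` exists by `IsS.exists_c`, `r` by `IsS.exists_r` (for `r` use `act (r : GL) = actS r`).
The elements needed for `decomp_four`: `IsData.rot_a`, `IsData.rot_neg_a` and their product.
`norm_GN`: `γ' = g γ g⁻¹` has determinant one.
-/

open UpperHalfPlane Filter Topology MatrixGroups
open scoped ContDiff ComplexConjugate

noncomputable section

namespace Pool.Agent.Lib.MP_b9289b_nt

open Mer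

variable {t : ℝ} {S D h0 h2 dl : Mer}

private lemma mem_GN {γ : SL(2, ℝ)} : γ ∈ GN S D ↔ actS γ S = S ∧ actS γ D = D := by
  unfold GN
  rw [mem_fixer]
  simp

private lemma S_mem_Kf : S ∈ Kf (GN S D) := fun _ hγ => (mem_GN.1 hγ).1

private lemma D_mem_Kf : D ∈ Kf (GN S D) := fun _ hγ => (mem_GN.1 hγ).2

/-- The conjugate of an element of `SL(2,ℝ)`. -/
private lemma exists_conj (g : GL (Fin 2) ℝ) (γ : SL(2, ℝ)) :
    ∃ γ' : SL(2, ℝ), (γ' : GL (Fin 2) ℝ) = g * (γ : GL (Fin 2) ℝ) * g⁻¹ := by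
  have hdet : (g * (γ : GL (Fin 2) ℝ) * g⁻¹ : GL (Fin 2) ℝ).val.det = 1 := by
    have h1 : (g * (γ : GL (Fin 2) ℝ) * g⁻¹ : GL (Fin 2) ℝ).det = 1 := by
      rw [map_mul, map_mul, map_inv]
      have h2 : (γ : GL (Fin 2) ℝ).det = 1 := by
        ext
        simp
      rw [h2, mul_one, mul_inv_cancel]
    exact congrArg (fun u : ℝˣ => (u : ℝ)) h1
  refine ⟨⟨(g * (γ : GL (Fin 2) ℝ) * g⁻¹ : GL (Fin 2) ℝ).val, hdet⟩, ?_⟩
  ext i j
  rfl

private lemma conj_mem {g : GL (Fin 2) ℝ} (hS : act g S ∈ Kf (GN S D))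
    (hD : act g D ∈ Kf (GN S D)) {γ : SL(2, ℝ)} (hγ : γ ∈ GN S D) :
    ∃ γ' ∈ GN S D, (γ' : GL (Fin 2) ℝ) = g * (γ : GL (Fin 2) ℝ) * g⁻¹ := by
  obtain ⟨γ', h'⟩ := exists_conj g γ
  refine ⟨γ', ?_, h'⟩
  have key : ∀ F : Mer, act g F ∈ Kf (GN S D) → actS γ' F = F := by
    intro F hF
    rw [actS_def, h', act_mul, act_mul, hF γ hγ, act_inv_act]
  exact mem_GN.2 ⟨key S hS, key D hD⟩

/-- An element which maps `S, D` to `± S, ± D` or to `± D, ± S` normalises `GN`. -/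
lemma norm_GN {g : GL (Fin 2) ℝ}
    (h : (act g S = S ∧ (act g D = D ∨ act g D = -D)) ∨
      (act g S = D ∧ (act g D = S ∨ act g D = -S))) :
    (∀ γ ∈ GN S D, ∃ γ' ∈ GN S D, (γ' : GL (Fin 2) ℝ) * g = g * (γ : GL (Fin 2) ℝ)) ∧
    (∀ γ ∈ GN S D, ∃ γ' ∈ GN S D, (γ : GL (Fin 2) ℝ) * g = g * (γ' : GL (Fin 2) ℝ)) := by
  have hS : S ∈ Kf (GN S D) := S_mem_Kf
  have hD : D ∈ Kf (GN S D) := D_mem_Kf
  have a1 : act g S ∈ Kf (GN S D) ∧ act g D ∈ Kf (GN S D) := by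
    rcases h with ⟨h1, h2 | h2⟩ | ⟨h1, h2 | h2⟩
    · rw [h1, h2]; exact ⟨hS, hD⟩
    · rw [h1, h2]; exact ⟨hS, neg_mem hD⟩
    · rw [h1, h2]; exact ⟨hD, hS⟩
    · rw [h1, h2]; exact ⟨hD, neg_mem hS⟩
  have inv : ∀ F G : Mer, act g F = G → act g⁻¹ G = F := fun F G hFG => by
    rw [← hFG, act_inv_act]
  have inv' : ∀ F G : Mer, act g F = -G → act g⁻¹ G = -F := fun F G hFG => by
    have h3 : G = act g (-F) := by rw [map_neg, hFG, neg_neg]
    rw [h3, act_inv_act]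
  have a2 : act g⁻¹ S ∈ Kf (GN S D) ∧ act g⁻¹ D ∈ Kf (GN S D) := by
    rcases h with ⟨h1, h2 | h2⟩ | ⟨h1, h2 | h2⟩
    · rw [inv _ _ h1, inv _ _ h2]; exact ⟨hS, hD⟩
    · rw [inv _ _ h1, inv' _ _ h2]; exact ⟨hS, neg_mem hD⟩
    · rw [inv _ _ h1, inv _ _ h2]; exact ⟨hD, hS⟩
    · rw [inv _ _ h1, inv' _ _ h2]; exact ⟨neg_mem hD, hS⟩
  constructor
  · intro γ hγ
    obtain ⟨γ', h1, h2⟩ := conj_mem a1.1 a1.2 hγ
    exact ⟨γ', h1, by rw [h2, inv_mul_cancel_right]⟩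
  · intro γ hγ
    obtain ⟨γ', h1, h2⟩ := conj_mem a2.1 a2.2 hγ
    refine ⟨γ', h1, ?_⟩
    rw [h2, inv_inv, mul_assoc, mul_inv_cancel_left]

private lemma Sgn.mul {γ : SL(2, ℝ)} {F G : Mer} (hF : Sgn γ F) (hG : Sgn γ G) :
    Sgn γ (F * G) := by
  unfold Sgn at *
  rw [map_mul]
  rcases hF with hF | hF <;> rcases hG with hG | hG <;> rw [hF, hG]
  · left; rfl
  · right; ring
  · right; ring
  · left; ring

theorem IsData.isospectral (h : IsData t S D h0 h2 dl) :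
    Isospectral (GX S D h0 h2) (GY S D h2 dl) := by
  intro μ
  obtain ⟨hD0, h00, h20, hl0⟩ := h.ne_zero
  have sg : ∀ γ ∈ GN S D, Sgn γ D ∧ Sgn γ h0 ∧ Sgn γ h2 ∧ Sgn γ dl :=
    fun γ hγ => h.sgn (mem_GN.1 hγ).1
  obtain ⟨γ₁, a1, a2, a3, a4, a5⟩ := h.rot_a
  obtain ⟨γ₂, b1, b2, b3, b4, b5⟩ := h.rot_neg_a
  -- the decompositions
  obtain ⟨eX⟩ := decomp_four (Γ := GN S D) (Γ' := GX S D h0 h2) (F := h0) (G := h2) h00 h20
    (fun γ hγ => (sg γ hγ).2.1) (fun γ hγ => (sg γ hγ).2.2.1)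
    (fun γ => by
      rw [mem_GN]
      unfold GX
      rw [mem_fixer]
      simp [and_assoc])
    ⟨γ₁, mem_GN.2 ⟨a1, a2⟩, a3, a4⟩ ⟨γ₂, mem_GN.2 ⟨b1, b2⟩, b3, b4⟩ μ
  obtain ⟨eY⟩ := decomp_four (Γ := GN S D) (Γ' := GY S D h2 dl) (F := h2) (G := dl) h20 hl0
    (fun γ hγ => (sg γ hγ).2.2.1) (fun γ hγ => (sg γ hγ).2.2.2)
    (fun γ => by
      rw [mem_GN]
      unfold GY
      rw [mem_fixer]
      simp [and_assoc])
    ⟨γ₁ * γ₂, mem_GN.2 ⟨by rw [actS_mul, a1, b1], by rw [actS_mul, a2, b2]⟩,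
      by rw [actS_mul, a4, b4], by rw [actS_mul, a5, map_neg, b5, neg_neg]⟩
    ⟨γ₁, mem_GN.2 ⟨a1, a2⟩, a4, a5⟩ μ
  -- the transports
  obtain ⟨g, hg, hgS⟩ := h.exists_c
  obtain ⟨hgD, hgH⟩ := h.act_c hg hgS
  obtain ⟨n1, n2⟩ := norm_GN (S := S) (D := D) (Or.inl ⟨hgS, hgD⟩)
  obtain ⟨ec⟩ := transport (Γ := GN S D) (F := h0) (F' := h2 * dl) h00 (mul_ne_zero h20 hl0)
    (fun γ hγ => (sg γ hγ).2.1) (fun γ hγ => (sg γ hγ).2.2.1.mul (sg γ hγ).2.2.2) g n1 n2 hgH μ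
  obtain ⟨r, hrS, hrD⟩ := h.exists_r
  obtain ⟨m1, m2⟩ := norm_GN (g := (r : GL (Fin 2) ℝ)) (S := S) (D := D) (Or.inr ⟨hrS, hrD⟩)
  obtain ⟨er⟩ := transport (Γ := GN S D) (F := h0 * h2) (F' := dl) (mul_ne_zero h00 h20) hl0
    (fun γ hγ => (sg γ hγ).2.1.mul (sg γ hγ).2.2.1) (fun γ hγ => (sg γ hγ).2.2.2)
    (r : GL (Fin 2) ℝ) m1 m2 (h.act_r hrS) μ
  rw [eX.rank_eq, eY.rank_eq]
  simp only [rank_prod']
  rw [ec.rank_eq, er.rank_eq]
  rw [add_assoc, add_assoc]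
  congr 1
  rw [add_comm (Module.rank ℂ (Esp (GN S D) (h2 * dl) μ)), add_assoc]

end Pool.Agent.Lib.MP_b9289b_nt
end
end

section

/-! (T05a) The path along the frontier. -/

open Metric Set Filter Topology
open scoped ComplexConjugate

noncomputable section

namespace Pool.Agent.Lib.MP_b9289b_nt

private lemma t05a_half {A : ℝ} (hA : OkA A) : 1 / (2 * A) < A := by
  have := hA.pos
  rw [div_lt_iff₀ (by positivity)]
  nlinarith [hA.half]

private lemma t05a_two {A : ℝ} (hA : OkA A) : 1 / A = 1 / (2 * A) + 1 / (2 * A) := by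
  have := hA.pos
  field_simp
  norm_num

private lemma t05a_inv {A : ℝ} (hA : OkA A) : A < 1 / A := by
  have := hA.pos
  rw [lt_div_iff₀ this]
  nlinarith [hA.lt_one]

private lemma t05a_min {A : ℝ} (hA : OkA A) {s : ℝ} (h0 : 0 ≤ s) (h1 : s ≤ 1 / (2 * A)) :
    0 < min A (1 / A - s) ∧ min A (1 / A - s) ^ 2 + s ^ 2 < 1 := by
  have hp := hA.pos
  have hh := t05a_half hA
  have ht := t05a_two hA
  have hq : 0 < 1 / (2 * A) := by positivity
  have ha : 0 < min A (1 / A - s) := lt_min hp (by linarith)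
  refine ⟨ha, ?_⟩
  apply sq_add_sq_lt_one hA
  · rw [abs_of_pos ha]
    exact min_le_left _ _
  · rw [abs_of_nonneg h0]
    linarith
  · rw [abs_of_pos ha, abs_of_nonneg h0]
    have := min_le_right A (1 / A - s)
    linarith

/-- PROOF: `kx (bp A s) = min A (1/A - s)`, `ky (bp A s) = s` (`sq_add_sq_lt_one`, `kx_kinv`, `ky_kinv`). -/
lemma bp_mem {A : ℝ} (hA : OkA A) {s : ℝ} (h0 : 0 ≤ s) (h1 : s ≤ 1 / (2 * A)) :
    kx (bp A s) = min A (1 / A - s) ∧ ky (bp A s) = s ∧ bp A s ∈ KOctC A ∧ bp A s ∉ KOct A ∧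
      0 ≤ (bp A s).im ∧ (bp A s).im ≤ (bp A s).re ∧ bp A s ≠ 0 := by
  have hp := hA.pos
  have hh := t05a_half hA
  have ht := t05a_two hA
  obtain ⟨ha, hlt⟩ := t05a_min hA h0 h1
  have hkx : kx (bp A s) = min A (1 / A - s) := kx_kinv hlt
  have hky : ky (bp A s) = s := ky_kinv hlt
  have hl := min_le_left A (1 / A - s)
  have hr := min_le_right A (1 / A - s)
  refine ⟨hkx, hky, ?_, ?_, ?_, ?_, ?_⟩
  · refine ⟨norm_kinv_lt hlt, ?_, ?_, ?_⟩
    · rw [hkx, abs_of_pos ha]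
      exact hl
    · rw [hky, abs_of_nonneg h0]
      linarith
    · rw [hkx, hky, abs_of_pos ha, abs_of_nonneg h0]
      linarith
  · rintro ⟨-, h2, -, h4⟩
    rw [hkx, abs_of_pos ha] at h2
    rw [hkx, hky, abs_of_pos ha, abs_of_nonneg h0] at h4
    rcases min_choice A (1 / A - s) with h5 | h5
    · rw [h5] at h2
      exact lt_irrefl _ h2
    · rw [h5] at h4
      linarith
  · rw [← ky_nonneg_iff, hky]
    exact h0
  · rw [← ky_le_kx_iff, hkx, hky]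
    exact le_min (by linarith) (by linarith)
  · intro h
    rw [h, kx_zero] at hkx
    exact ha.ne hkx

lemma continuous_bp (A : ℝ) : Continuous (bp A) := by
  have h : Continuous (fun s : ℝ => ((min A (1 / A - s), s) : ℝ × ℝ)) :=
    (continuous_const.min (continuous_const.sub continuous_id)).prodMk continuous_id
  exact continuous_kinv.comp h

private lemma t05a_sqrt (a b : ℝ) : 0 < 1 + √ (1 - a ^ 2 - b ^ 2) :=
  add_pos_of_pos_of_nonneg one_pos (Real.sqrt_nonneg _)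

/-- PROOF: `bp A 0 = kinv A 0` is real positive, `TExt.real_pos` and `TExt.bd`. -/
lemma TExt.bp_zero {A : ℝ} (hA : OkA A) {f : ℂ → ℂ} (hf : TExt A f) : f (bp A 0) = 1 := by
  have hp := hA.pos
  have hh : (0 : ℝ) ≤ 1 / (2 * A) := by positivity
  obtain ⟨-, -, hm, hn, -⟩ := bp_mem hA le_rfl hh
  have ha := (t05a_min hA le_rfl hh).1
  set a := min A (1 / A - 0) with ha'
  have hs := t05a_sqrt a 0
  have e : bp A 0 = ((a / (1 + √ (1 - a ^ 2 - 0 ^ 2)) : ℝ) : ℂ) := by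
    unfold bp kinv
    rw [← ha']
    push_cast
    simp
  have hr : 0 < a / (1 + √ (1 - a ^ 2 - 0 ^ 2)) := div_pos ha hs
  obtain ⟨ρ, hρ, h⟩ := hf.real_pos hA hr (by rw [← e]; exact hm)
  rw [← e] at h
  have h1 := hf.bd _ hm hn
  rw [h, Complex.norm_real, Real.norm_eq_abs, abs_of_pos hρ] at h1
  rw [h, h1, Complex.ofReal_one]

/-- PROOF: `bp A (1/(2A)) = kinv (1/(2A)) (1/(2A)) = r e8`, `TExt.diag_pos` and `TExt.bd`. -/
lemma TExt.bp_diag {A : ℝ} (hA : OkA A) {f : ℂ → ℂ} (hf : TExt A f) :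
    f (bp A (1 / (2 * A))) = e8 := by
  have hp := hA.pos
  have hh : (0 : ℝ) < 1 / (2 * A) := by positivity
  obtain ⟨-, -, hm, hn, -⟩ := bp_mem hA hh.le le_rfl
  have hmin : min A (1 / A - 1 / (2 * A)) = 1 / (2 * A) := by
    have h1 := t05a_half hA
    have h2 := t05a_two hA
    have h3 : 1 / A - 1 / (2 * A) = 1 / (2 * A) := by linarith
    rw [h3]
    exact min_eq_right h1.le
  set b := 1 / (2 * A) with hb
  have hs := t05a_sqrt b b
  have hs2 : (0 : ℝ) < √ 2 := Real.sqrt_pos.2 (by norm_num)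
  have hss : √ 2 * √ 2 = (2 : ℝ) := Real.mul_self_sqrt (by norm_num)
  have hcos : e8.re = √ 2 / 2 := by
    rw [e8, Complex.exp_ofReal_mul_I_re, Real.cos_pi_div_four]
  have hsin : e8.im = √ 2 / 2 := by
    rw [e8, Complex.exp_ofReal_mul_I_im, Real.sin_pi_div_four]
  have e8' : (b : ℂ) + (b : ℂ) * Complex.I = ((b * √ 2 : ℝ) : ℂ) * e8 := by
    apply Complex.ext
    · rw [Complex.re_ofReal_mul, hcos]
      simp
      nlinarith
    · rw [Complex.im_ofReal_mul, hsin]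
      simp
      nlinarith
  have e : bp A b = ((b * √ 2 / (1 + √ (1 - b ^ 2 - b ^ 2)) : ℝ) : ℂ) * e8 := by
    unfold bp kinv
    rw [hmin, e8']
    rw [Complex.ofReal_div]
    ring
  have hr : 0 < b * √ 2 / (1 + √ (1 - b ^ 2 - b ^ 2)) := div_pos (mul_pos hh hs2) hs
  obtain ⟨ρ, hρ, h⟩ := hf.diag_pos hA hr (by rw [← e]; exact hm)
  rw [← e] at h
  have h1 := hf.bd _ hm hn
  rw [h, norm_mul, norm_e8, mul_one, Complex.norm_real, Real.norm_eq_abs, abs_of_pos hρ] at h1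
  rw [h, h1, Complex.ofReal_one, one_mul]

/-- Parameters of the corner: `0 < 1/A - A < 1/(2A)`. -/
lemma OkA.corner_lt {A : ℝ} (hA : OkA A) : 0 < 1 / A - A ∧ 1 / A - A < 1 / (2 * A) := by
  have h1 := t05a_half hA
  have h2 := t05a_two hA
  have h3 := t05a_inv hA
  constructor
  · linarith
  · linarith

end Pool.Agent.Lib.MP_b9289b_nt
end
end

section

/-! (T05b) The path along the frontier: monotonicity. -/

open Metric Set Filter Topology
open scoped ComplexConjugate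

noncomputable section

namespace Pool.Agent.Lib.MP_b9289b_nt

/-- PROOF: `s ↦ arg (f (bp A s))` is continuous on `[0, 1/(2A)]` (the values `f (bp A s)` have absolute value one and `arg ∈ [0, π/4]`, so they are in the slit plane), injective (`‖f‖ = 1` and the injectivity of `f` on `KOctC A`, of
`bp` by `ky`), with value `0` at `0` and `π/4` at `1/(2A)`: strictly monotone (`ContinuousOn.strictMonoOn_of_injOn_Icc`). -/
lemma TExt.strictMonoOn {A : ℝ} (hA : OkA A) {f : ℂ → ℂ} (hf : TExt A f) :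
    StrictMonoOn (fun s => Complex.arg (f (bp A s))) (Icc 0 (1 / (2 * A))) := by
  have hA0 := hA.pos
  have hpos : (0 : ℝ) ≤ 1 / (2 * A) := by positivity
  have hm : ∀ s ∈ Icc (0 : ℝ) (1 / (2 * A)), bp A s ∈ KOctC A ∧ ‖f (bp A s)‖ = 1 ∧
      0 ≤ Complex.arg (f (bp A s)) ∧ Complex.arg (f (bp A s)) ≤ Real.pi / 4 ∧
      ky (bp A s) = s := by
    intro s hs
    obtain ⟨-, h2, h3, h4, h5, h6, h7⟩ := bp_mem hA hs.1 hs.2
    have h8 := hf.arg_mem hA h3 h7 h5 h6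
    exact ⟨h3, hf.bd _ h3 h4, h8.1, h8.2, h2⟩
  have hpi := Real.pi_pos
  apply ContinuousOn.strictMonoOn_of_injOn_Icc hpos
  · show Complex.arg (f (bp A 0)) ≤ Complex.arg (f (bp A (1 / (2 * A))))
    rw [hf.bp_zero hA, Complex.arg_one]
    exact (hm _ (right_mem_Icc.2 hpos)).2.2.1
  · have h1 : ContinuousOn (fun s => f (bp A s)) (Icc 0 (1 / (2 * A))) :=
      hf.cont.comp (continuous_bp A).continuousOn (fun s hs => (hm s hs).1)
    intro s hs
    obtain ⟨-, h2, h3, h4, -⟩ := hm s hs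
    have h5 : f (bp A s) ∈ Complex.slitPlane := by
      rw [Complex.mem_slitPlane_iff_arg]
      refine ⟨by linarith [hpi], ?_⟩
      intro h6
      rw [h6, norm_zero] at h2
      exact zero_ne_one h2
    exact ContinuousAt.comp_continuousWithinAt (f := fun s => f (bp A s)) (g := Complex.arg)
      (Complex.continuousAt_arg h5) (h1 s hs)
  · intro s hs s' hs' he
    obtain ⟨a1, a2, -, -, a5⟩ := hm s hs
    obtain ⟨b1, b2, -, -, b5⟩ := hm s' hs'
    have he' : Complex.arg (f (bp A s)) = Complex.arg (f (bp A s')) := he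
    have h1 : f (bp A s) = f (bp A s') := by
      apply Complex.ext_norm_arg _ he'
      rw [a2, b2]
    have h2 := hf.inj a1 b1 h1
    rw [← a5, ← b5, h2]

/-- PROOF: `tcorner A = bp A (1/A - A)`; `TExt.strictMonoOn`, `TExt.bp_zero`, `TExt.bp_diag`, `OkA.corner_lt`. -/
lemma TExt.theta_mem {A : ℝ} (hA : OkA A) {f : ℂ → ℂ} (hf : TExt A f) :
    0 < theta A f ∧ theta A f < Real.pi / 4 := by
  have hc := hA.corner_lt
  have h0 : (0 : ℝ) ∈ Icc (0 : ℝ) (1 / (2 * A)) := ⟨le_rfl, by linarith⟩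
  have h1 : (1 / A - A) ∈ Icc (0 : ℝ) (1 / (2 * A)) := ⟨hc.1.le, hc.2.le⟩
  have h2 : (1 / (2 * A)) ∈ Icc (0 : ℝ) (1 / (2 * A)) := ⟨by linarith, le_rfl⟩
  have hm := hf.strictMonoOn hA
  have e0 : bp A (1 / A - A) = tcorner A := by
    unfold bp tcorner
    rw [show 1 / A - (1 / A - A) = A by ring, min_self]
  have h3 := hm h0 h1 hc.1
  have h4 := hm h1 h2 hc.2
  simp only [e0, hf.bp_zero hA, hf.bp_diag hA, Complex.arg_one] at h3 h4
  have h5 : Complex.arg e8 = Real.pi / 4 := by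
    unfold e8
    rw [Complex.arg_exp_mul_I, toIocMod_eq_self]
    constructor <;> nlinarith [Real.pi_pos]
  rw [h5] at h4
  exact ⟨h3, h4⟩

lemma TExt.f_corner {A : ℝ} (hA : OkA A) {f : ℂ → ℂ} (hf : TExt A f) :
    f (tcorner A) = Complex.exp (theta A f * Complex.I) := by
  have hc := hA.corner_lt
  have h1 : (1 / A - A) ∈ Icc (0 : ℝ) (1 / (2 * A)) := ⟨hc.1.le, hc.2.le⟩
  have e0 : bp A (1 / A - A) = tcorner A := by
    unfold bp tcorner
    rw [show 1 / A - (1 / A - A) = A by ring, min_self]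
  obtain ⟨-, -, h3, h4, -⟩ := bp_mem hA h1.1 h1.2
  rw [e0] at h3 h4
  have h5 := hf.bd _ h3 h4
  have h6 := Complex.norm_mul_exp_arg_mul_I (f (tcorner A))
  rw [h5, Complex.ofReal_one, one_mul] at h6
  exact h6.symm

/-- A point of the frontier in the closed sector is `bp A (ky z)`. PROOF: `kinv_kx_ky`; if `max = A` then `kx z = A` (as `0 ≤ ky z ≤ kx z`) and `A ≤ 1/A - ky z`; if the sum is `1/A` then `kx z = 1/A - ky z ≤ A`. -/
lemma eq_bp {A : ℝ} (hA : OkA A) {z : ℂ} (hz : z ∈ KOctC A) (hn : z ∉ KOct A) (h1 : 0 ≤ z.im)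
    (h2 : z.im ≤ z.re) : z = bp A (ky z) ∧ 0 ≤ ky z ∧ ky z ≤ 1 / (2 * A) := by
  have hA0 := hA.pos
  have hy : 0 ≤ ky z := ky_nonneg_iff.2 h1
  have hyx : ky z ≤ kx z := ky_le_kx_iff.2 h2
  have hx : 0 ≤ kx z := hy.trans hyx
  obtain ⟨hn1, hzx, hzy, hzs⟩ := hz
  rw [abs_of_nonneg hx] at hzx hzs
  rw [abs_of_nonneg hy] at hzy hzs
  have hcase := (not_mem_KOct_iff (A := A) (z := z)
    ⟨hn1, by rwa [abs_of_nonneg hx], by rwa [abs_of_nonneg hy],
      by rwa [abs_of_nonneg hx, abs_of_nonneg hy]⟩).1 hn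
  rw [abs_of_nonneg hx, abs_of_nonneg hy, max_eq_left hyx] at hcase
  have hky : ky z ≤ 1 / (2 * A) := by
    have : 1 / (2 * A) = (1 / A) / 2 := by field_simp
    rw [this]; linarith
  refine ⟨?_, hy, hky⟩
  have hkx : kx z = min A (1 / A - ky z) := by
    rcases hcase with h | h
    · rw [h, min_eq_left (by linarith)]
    · rw [min_eq_right (by linarith)]; linarith
  unfold bp
  rw [← hkx, kinv_kx_ky hn1]

end Pool.Agent.Lib.MP_b9289b_nt
end
end

section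

/-! (T06b) Reduction to the sector. -/

open Metric Set Filter Topology
open scoped ComplexConjugate

noncomputable section

namespace Pool.Agent.Lib.MP_b9289b_nt

/-- `z'` is equivalent to `z`. -/
private def RR (A : ℝ) (f : ℂ → ℂ) (z z' : ℂ) : Prop :=
  z' ∈ KOctC A ∧ (z' ∈ KOct A ↔ z ∈ KOct A) ∧
      max |kx z'| |ky z'| = max |kx z| |ky z| ∧ |kx z'| + |ky z'| = |kx z| + |ky z| ∧
      (f z' ^ 4 = f z ^ 4 ∨ f z' ^ 4 = conj (f z ^ 4))

private lemma RR.refl {A : ℝ} {f : ℂ → ℂ} {z : ℂ} (hz : z ∈ KOctC A) : RR A f z z :=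
  ⟨hz, Iff.rfl, rfl, rfl, Or.inl rfl⟩

private lemma RR.conj' {A : ℝ} (hA : OkA A) {f : ℂ → ℂ} (hf : TExt A f) {z z' : ℂ}
    (h : RR A f z z') : RR A f z (conj z') := by
  obtain ⟨h1, h2, h3, h4, h5⟩ := h
  refine ⟨conj_mem_KOctC.2 h1, conj_mem_KOct.trans h2, ?_, ?_, ?_⟩
  · rw [kx_conj, ky_conj, abs_neg, h3]
  · rw [kx_conj, ky_conj, abs_neg, h4]
  · rw [TExt.conj_symm hA hf h1, ← map_pow]
    rcases h5 with h5 | h5
    · right
      rw [h5]
    · left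
      rw [h5, Complex.conj_conj]

private lemma RR.I' {A : ℝ} (hA : OkA A) {f : ℂ → ℂ} (hf : TExt A f) {z z' : ℂ}
    (h : RR A f z z') : RR A f z (Complex.I * z') := by
  obtain ⟨h1, h2, h3, h4, h5⟩ := h
  refine ⟨I_mul_mem_KOctC.2 h1, I_mul_mem_KOct.trans h2, ?_, ?_, ?_⟩
  · rw [kx_I_mul, ky_I_mul, abs_neg, max_comm, h3]
  · rw [kx_I_mul, ky_I_mul, abs_neg, add_comm, h4]
  · rw [TExt.I_symm hA hf h1, mul_pow, Complex.I_pow_four, one_mul]
    exact h5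

/-- Reduction to the sector: every `z` has an image `z'` in the closed sector under the group generated by `conj` and `I *`. Here in the form needed: -/
lemma sector_reduction {A : ℝ} (hA : OkA A) {f : ℂ → ℂ} (hf : TExt A f) {z : ℂ}
    (hz : z ∈ KOctC A) : ∃ z' ∈ KOctC A, 0 ≤ z'.im ∧ z'.im ≤ z'.re ∧ (z' ∈ KOct A ↔ z ∈ KOct A) ∧
      max |kx z'| |ky z'| = max |kx z| |ky z| ∧ |kx z'| + |ky z'| = |kx z| + |ky z| ∧
      (f z' ^ 4 = f z ^ 4 ∨ f z' ^ 4 = conj (f z ^ 4)) := by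
  have key : ∃ z', RR A f z z' ∧ 0 ≤ z'.im ∧ z'.im ≤ z'.re := by
    have h0 : RR A f z z := RR.refl hz
    have h1 : ∃ z', RR A f z z' ∧ 0 ≤ z'.im ∧ 0 ≤ z'.re := by
      rcases le_total 0 z.im with him | him <;> rcases le_total 0 z.re with hre | hre
      · exact ⟨z, h0, him, hre⟩
      · refine ⟨_, ((h0.conj' hA hf).I' hA hf).I' hA hf, ?_, ?_⟩
        · simp
          exact him
        · simp
          exact hre
      · refine ⟨_, h0.conj' hA hf, ?_, ?_⟩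
        · rw [Complex.conj_im]
          linarith
        · rw [Complex.conj_re]
          exact hre
      · refine ⟨_, (h0.I' hA hf).I' hA hf, ?_, ?_⟩
        · simp
          exact him
        · simp
          exact hre
    obtain ⟨z', h2, h3, h4⟩ := h1
    rcases le_total z'.im z'.re with h5 | h5
    · exact ⟨z', h2, h3, h5⟩
    · refine ⟨_, (h2.conj' hA hf).I' hA hf, ?_, ?_⟩
      · simp
        exact h4
      · simp
        exact h5
  obtain ⟨z', ⟨h1, h2, h3, h4, h5⟩, h6, h7⟩ := key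
  exact ⟨z', h1, h6, h7, h2, h3, h4, h5⟩

end Pool.Agent.Lib.MP_b9289b_nt
end
end
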