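import Pool.Agent.Lib.MP_b9289b_nt.Mg.G003
import Pool.Agent.Lib.MP_b9289b_nt.Mg.G004
import Pool.Agent.Lib.MP_b9289b_nt.Mg.G002

section

/-!
# O01: the five maps from `Y` to elliptic curves, the two maps from `X` (algebra)

All identities are algebraic consequences of `D² (S²-1) = S² + b²`, `h2² = (S+a)(S-ib)`,
`h0² = (S-a)(S+ib)`, `dl² = S²-a²`, `a² = 1+t`, `b² = t²-1`, `I² = -1` (`cst` is a ring
homomorphism); `S ≠ cst c`, so all denominators are nonzero.  With `u = S²`: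
* `N`: `x = 1-u`, `P(x) = (1-u) u (u+b²)/t²`.
* `A`: `x = (a²-u)/t`, `1-x = (u-1)/t`, `1 - x/(1+t) = (u+b²)/(t a²)`.
* `B`: `x = a²(u-1)/(u-a²)`, `1-x = -t u/(u-a²)`, `1-x/t = -(u+b²)/(t(u-a²))`.
* `E`: `x = (1-ib)(S-1)/(2(S+ib))`, `1-x = (1+ib)(S+1)/(2(S+ib))`,
  `1-l0 x = (1+ib)(S+a)/((a+1)(S+ib))`.
* `E'`: `x = (1+ib)(S+1)/(2(S+ib))`, `1-x = (1-ib)(S-1)/(2(S+ib))`,
  `1-conj l0 x = (1-ib)(S-a)/((a+1)(S+ib))`.
* on `X`: `x1 = (1-ib)(S+1)/(2(S-ib))` (`E` with `S` replaced by `-S`).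
-/

open UpperHalfPlane Filter Topology MatrixGroups
open scoped ContDiff ComplexConjugate

noncomputable section

namespace Pool.Agent.Lib.MP_b9289b_nt

open Mer

section algebra

variable {K : Type*} [Field K] {S D B A T e h d : K}

private lemma o1_0 (hT : T ≠ 0) (hB : B ^ 2 = 1 - T ^ 2) (hD : D ^ 2 * (S ^ 2 - 1) = S ^ 2 - B ^ 2)
    (he : e ^ 2 = -1 / T ^ 2) :
    (e * S * (D * (S ^ 2 - 1))) ^ 2 = (1 - S ^ 2) * (1 - (1 - S ^ 2)) * (1 - 1 / T ^ 2 * (1 - S ^ 2)) := by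
  have h1 : (e * S * (D * (S ^ 2 - 1))) ^ 2 = e ^ 2 * S ^ 2 * (D ^ 2 * (S ^ 2 - 1)) * (S ^ 2 - 1) := by ring
  rw [h1, hD, he, hB]
  field_simp
  ring

private lemma o1_1 (hT : T ≠ 0) (hA0 : A ≠ 0) (hA : A ^ 2 = 1 + T) (hB : B ^ 2 = 1 - T ^ 2)
    (hD : D ^ 2 * (S ^ 2 - 1) = S ^ 2 - B ^ 2) (hd : d ^ 2 = S ^ 2 - A ^ 2)
    (he : e ^ 2 = -1 / (T ^ 3 * A ^ 2)) :
    (e * d * (D * (S ^ 2 - 1))) ^ 2 = (A ^ 2 - S ^ 2) / T * (1 - (A ^ 2 - S ^ 2) / T) *
      (1 - 1 / (1 + T) * ((A ^ 2 - S ^ 2) / T)) := by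
  have h1 : (e * d * (D * (S ^ 2 - 1))) ^ 2 = e ^ 2 * d ^ 2 * (D ^ 2 * (S ^ 2 - 1)) * (S ^ 2 - 1) := by ring
  have hA1 : (1 + T) ≠ 0 := by rw [← hA]; exact pow_ne_zero 2 hA0
  rw [h1, hD, he, hd, hB, hA]
  field_simp
  ring

private lemma o1_2 (hT : T ≠ 0) (hA0 : A ≠ 0) (hA : A ^ 2 = 1 + T) (hB : B ^ 2 = 1 - T ^ 2)
    (hD : D ^ 2 * (S ^ 2 - 1) = S ^ 2 - B ^ 2) (hd : d ^ 2 = S ^ 2 - A ^ 2) (hd0 : d ≠ 0) :
    (A * S * (D * (S ^ 2 - 1)) / d ^ 3) ^ 2 = A ^ 2 * (S ^ 2 - 1) / (S ^ 2 - A ^ 2) *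
      (1 - A ^ 2 * (S ^ 2 - 1) / (S ^ 2 - A ^ 2)) * (1 - 1 / T * (A ^ 2 * (S ^ 2 - 1) / (S ^ 2 - A ^ 2))) := by
  have h1 : (A * S * (D * (S ^ 2 - 1)) / d ^ 3) ^ 2 =
      A ^ 2 * S ^ 2 * (D ^ 2 * (S ^ 2 - 1)) * (S ^ 2 - 1) / (d ^ 2) ^ 3 := by
    rw [div_pow]
    congr 1 <;> ring
  have hS : S ^ 2 - A ^ 2 ≠ 0 := by rw [← hd]; exact pow_ne_zero 2 hd0
  have hA1 : (1 + T) ≠ 0 := by rw [← hA]; exact pow_ne_zero 2 hA0
  rw [h1, hD, hd, hB]
  rw [hA] at hS ⊢
  field_simp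
  ring

private lemma o1_3 (h2K : (2 : K) ≠ 0) (hA1 : A + 1 ≠ 0) (hB1 : 1 - B ≠ 0) (hB : B ^ 2 = 1 - T ^ 2)
    (hD : D ^ 2 * (S ^ 2 - 1) = S ^ 2 - B ^ 2) (hh : h ^ 2 = (S + A) * (S - B))
    (hS1 : S - B ≠ 0) (hS2 : S + B ≠ 0) (he : e ^ 2 = T ^ 2 * (1 + B) / (4 * (A + 1))) :
    (e * (D * (S ^ 2 - 1)) * h / ((S - B) * (S + B) ^ 2)) ^ 2 = (1 - B) * (S - 1) / (2 * (S + B)) *
      (1 - (1 - B) * (S - 1) / (2 * (S + B))) *
      (1 - 2 * (A - B) / ((A + 1) * (1 - B)) * ((1 - B) * (S - 1) / (2 * (S + B)))) := by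
  have h1 : (e * (D * (S ^ 2 - 1)) * h / ((S - B) * (S + B) ^ 2)) ^ 2 =
      e ^ 2 * (D ^ 2 * (S ^ 2 - 1)) * (S ^ 2 - 1) * h ^ 2 / ((S - B) ^ 2 * (S + B) ^ 4) := by
    rw [div_pow]
    congr 1 <;> ring
  have hT : T ^ 2 = 1 - B ^ 2 := by rw [hB]; ring
  have h4K : (4 : K) ≠ 0 := by
    have : (4 : K) = 2 * 2 := by norm_num
    rw [this]
    exact mul_ne_zero h2K h2K
  rw [h1, hD, hh, he, hT]
  field_simp
  ring

private lemma o1_4 (h2K : (2 : K) ≠ 0) (hA1 : A + 1 ≠ 0) (hB1 : 1 + B ≠ 0) (hB : B ^ 2 = 1 - T ^ 2)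
    (hD : D ^ 2 * (S ^ 2 - 1) = S ^ 2 - B ^ 2) (hh : h ^ 2 = (S + A) * (S - B)) (hd : d ^ 2 = S ^ 2 - A ^ 2)
    (hS1 : S - B ≠ 0) (hS2 : S + B ≠ 0) (hS3 : S + A ≠ 0) (he : e ^ 2 = T ^ 2 * (1 - B) / (4 * (A + 1))) :
    (e * (D * (S ^ 2 - 1)) * (h * d) / ((S - B) * (S + A) * (S + B) ^ 2)) ^ 2 =
      (1 + B) * (S + 1) / (2 * (S + B)) *
      (1 - (1 + B) * (S + 1) / (2 * (S + B))) *
      (1 - 2 * (A + B) / ((A + 1) * (1 + B)) * ((1 + B) * (S + 1) / (2 * (S + B)))) := by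
  have h1 : (e * (D * (S ^ 2 - 1)) * (h * d) / ((S - B) * (S + A) * (S + B) ^ 2)) ^ 2 =
      e ^ 2 * (D ^ 2 * (S ^ 2 - 1)) * (S ^ 2 - 1) * (h ^ 2 * d ^ 2) /
        ((S - B) ^ 2 * (S + A) ^ 2 * (S + B) ^ 4) := by
    rw [div_pow]
    congr 1 <;> ring
  have hT : T ^ 2 = 1 - B ^ 2 := by rw [hB]; ring
  have h4K : (4 : K) ≠ 0 := by
    have : (4 : K) = 2 * 2 := by norm_num
    rw [this]
    exact mul_ne_zero h2K h2K
  rw [h1, hD, hh, hd, he, hT]
  field_simp
  ring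

end algebra


/-- a square root of `t² (1 + i b)/(4 (a+1))` -/
def cE (t : ℝ) : ℂ := (((t : ℂ) ^ 2 * (1 + Complex.I * bb t)) / (4 * ((aa t : ℂ) + 1))) ^ (1 / 2 : ℂ)

lemma cE_sq {t : ℝ} (_ht : 1 < t) :
    cE t ^ 2 = ((t : ℂ) ^ 2 * (1 + Complex.I * bb t)) / (4 * ((aa t : ℂ) + 1)) := by
  unfold cE
  rw [← Complex.cpow_nat_mul]
  norm_num

private lemma o1_aa_ne {t : ℝ} (ht : 1 < t) : (aa t : ℂ) ≠ 0 := by
  exact_mod_cast (aa_pos ht).ne'

private lemma o1_aa1_ne {t : ℝ} (ht : 1 < t) : (aa t : ℂ) + 1 ≠ 0 := by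
  have h := aa_pos ht
  intro h0
  have := congrArg Complex.re h0
  simp at this
  linarith

private lemma o1_b1 {t : ℝ} : 1 + Complex.I * bb t ≠ 0 := by
  intro h0
  have := congrArg Complex.re h0
  simp at this

private lemma o1_b2 {t : ℝ} : 1 - Complex.I * bb t ≠ 0 := by
  intro h0
  have := congrArg Complex.re h0
  simp at this

private lemma o1_t_ne {t : ℝ} (ht : 1 < t) : (t : ℂ) ≠ 0 := by
  have : t ≠ 0 := by linarith
  exact_mod_cast this

lemma cE_ne {t : ℝ} (ht : 1 < t) : cE t ≠ 0 := by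
  intro h0
  have h := cE_sq ht
  rw [h0] at h
  have h1 : ((t : ℂ) ^ 2 * (1 + Complex.I * bb t)) / (4 * ((aa t : ℂ) + 1)) ≠ 0 :=
    div_ne_zero (mul_ne_zero (pow_ne_zero 2 (o1_t_ne ht)) o1_b1) (mul_ne_zero (by norm_num) (o1_aa1_ne ht))
  apply h1
  rw [← h]
  norm_num

/-- the functions `x_j` on `Y` -/
def xs (t : ℝ) (S : Mer) : Fin 5 → Mer :=
  ![1 - S ^ 2,
    (cst ((aa t : ℂ) ^ 2) - S ^ 2) / cst t,
    cst ((aa t : ℂ) ^ 2) * (S ^ 2 - 1) / (S ^ 2 - cst ((aa t : ℂ) ^ 2)),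
    cst (1 - Complex.I * bb t) * (S - 1) / (2 * (S + cst (Complex.I * bb t))),
    cst (1 + Complex.I * bb t) * (S + 1) / (2 * (S + cst (Complex.I * bb t)))]

/-- the functions `y_j` on `Y` -/
def ys (t : ℝ) (S D h2 dl : Mer) : Fin 5 → Mer :=
  ![cst (Complex.I / t) * S * (D * (S ^ 2 - 1)),
    cst (Complex.I / (t * √t * aa t)) * dl * (D * (S ^ 2 - 1)),
    cst (aa t) * S * (D * (S ^ 2 - 1)) / dl ^ 3,
    cst (cE t) * (D * (S ^ 2 - 1)) * h2 /
      ((S - cst (Complex.I * bb t)) * (S + cst (Complex.I * bb t)) ^ 2),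
    cst (conj (cE t)) * (D * (S ^ 2 - 1)) * (h2 * dl) /
      ((S - cst (Complex.I * bb t)) * (S + cst (aa t)) * (S + cst (Complex.I * bb t)) ^ 2)]

variable {t : ℝ} {S D h0 h2 dl : Mer}

/-- a root of a nonzero polynomial of degree at most two with constant coefficients is constant -/
private lemma o1_quad (α β γ : ℂ) (h : ¬(α = 0 ∧ β = 0)) (he : cst α * S ^ 2 + cst β * S + cst γ = 0) :
    ∃ c, S = cst c := by
  by_cases hα : α = 0
  · have hβ : β ≠ 0 := fun h1 => h ⟨hα, h1⟩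
    refine ⟨-γ / β, ?_⟩
    have hβ' : cst β ≠ 0 := (map_ne_zero cst).mpr hβ
    rw [hα, map_zero, zero_mul, zero_add] at he
    rw [map_div₀, map_neg, eq_div_iff hβ']
    linear_combination he
  · obtain ⟨e, he2⟩ := IsAlgClosed.exists_pow_nat_eq (β ^ 2 - 4 * α * γ) (n := 2) (by norm_num)
    have hα' : cst α ≠ 0 := (map_ne_zero cst).mpr hα
    have h2 : (2 : Mer) ≠ 0 := by
      have : (2 : Mer) = cst 2 := (map_ofNat cst 2).symm
      rw [this]
      exact (map_ne_zero cst).mpr (by norm_num)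
    have h3 : (2 * cst α * S + cst β - cst e) * (2 * cst α * S + cst β + cst e) = 0 := by
      have h4 : cst e ^ 2 = cst β ^ 2 - 4 * cst α * cst γ := by
        rw [← map_pow, he2, map_sub, map_mul, map_mul, map_pow, map_ofNat]
      linear_combination (4 * cst α) * he - h4
    rcases mul_eq_zero.mp h3 with h5 | h5
    · refine ⟨(e - β) / (2 * α), ?_⟩
      rw [map_div₀, map_mul, map_sub, map_ofNat, eq_div_iff (mul_ne_zero h2 hα')]
      linear_combination h5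
    · refine ⟨(-e - β) / (2 * α), ?_⟩
      rw [map_div₀, map_mul, map_sub, map_neg, map_ofNat, eq_div_iff (mul_ne_zero h2 hα')]
      linear_combination h5

private lemma o1_two : (2 : Mer) ≠ 0 := by
  have : (2 : Mer) = cst 2 := (map_ofNat cst 2).symm
  rw [this]
  exact (map_ne_zero cst).mpr (by norm_num)

/-- the relations -/
private structure O1Rel (t : ℝ) (S D h0 h2 dl A B T : Mer) : Prop where
  eA : A = cst (aa t)
  eB : B = cst (Complex.I * bb t)
  eT : T = cst t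
  hT : T ≠ 0
  hA0 : A ≠ 0
  hA1 : A + 1 ≠ 0
  hB1 : 1 - B ≠ 0
  hB2 : 1 + B ≠ 0
  hA : A ^ 2 = 1 + T
  hB : B ^ 2 = 1 - T ^ 2
  hD : D ^ 2 * (S ^ 2 - 1) = S ^ 2 - B ^ 2
  hh0 : h0 ^ 2 = (S - A) * (S + B)
  hh2 : h2 ^ 2 = (S + A) * (S - B)
  hdl : dl ^ 2 = S ^ 2 - A ^ 2
  n1 : S - 1 ≠ 0
  n2 : S + 1 ≠ 0
  n3 : S - A ≠ 0
  n4 : S + A ≠ 0
  n5 : S - B ≠ 0
  n6 : S + B ≠ 0
  nD : D ≠ 0
  nh0 : h0 ≠ 0
  nh2 : h2 ≠ 0
  nd : dl ≠ 0
  nS : S ≠ 0
  nS' : der S ≠ 0

private lemma o1_rel (h : IsData t S D h0 h2 dl) :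
    O1Rel t S D h0 h2 dl (cst (aa t)) (cst (Complex.I * bb t)) (cst t) := by
  have ht := h.ht
  have hc : ∀ c, S - cst c ≠ 0 := fun c => sub_ne_zero.mpr (h.toIsS.S_ne_cst c)
  have hc' : ∀ c, S + cst c ≠ 0 := fun c => by
    have := hc (-c)
    rwa [map_neg, sub_neg_eq_add] at this
  have hbC : ((Complex.I : ℂ) * bb t) ^ 2 = 1 - (t : ℂ) ^ 2 := by
    rw [mul_pow, Complex.I_sq]
    have : ((bb t : ℝ) : ℂ) ^ 2 = (t : ℂ) ^ 2 - 1 := by exact_mod_cast bb_sq ht
    rw [this]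
    ring
  have hB : cst (Complex.I * bb t) ^ 2 = 1 - cst (t : ℂ) ^ 2 := by
    rw [← map_pow, hbC, map_sub, map_one, map_pow]
  have hA : cst (aa t : ℂ) ^ 2 = 1 + cst (t : ℂ) := by
    rw [← map_pow]
    have : ((aa t : ℝ) : ℂ) ^ 2 = 1 + (t : ℂ) := by exact_mod_cast aa_sq ht
    rw [this, map_add, map_one]
  have hD : D ^ 2 * (S ^ 2 - 1) = S ^ 2 - cst (Complex.I * bb t) ^ 2 := by
    rw [h.eqD, ← map_pow, hbC]
    have : ((bb t : ℝ) : ℂ) ^ 2 = (t : ℂ) ^ 2 - 1 := by exact_mod_cast bb_sq ht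
    rw [this]
    rw [map_sub, map_sub]
    ring
  have n5 := hc (Complex.I * bb t)
  have n6 := hc' (Complex.I * bb t)
  have n3 := hc (aa t : ℂ)
  have n4 := hc' (aa t : ℂ)
  have hdl : dl ^ 2 = S ^ 2 - cst (aa t : ℂ) ^ 2 := by rw [h.eql, map_pow]
  refine ⟨rfl, rfl, rfl, ?_, ?_, ?_, ?_, ?_, hA, hB, hD, h.eq0, h.eq2, hdl, ?_, ?_, n3, n4, n5, n6, ?_, ?_, ?_, ?_, ?_, ?_⟩
  · exact (map_ne_zero cst).mpr (o1_t_ne ht)
  · exact (map_ne_zero cst).mpr (o1_aa_ne ht)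
  · rw [← map_one cst, ← map_add]
    exact (map_ne_zero cst).mpr (o1_aa1_ne ht)
  · rw [← map_one cst, ← map_sub]
    exact (map_ne_zero cst).mpr o1_b2
  · rw [← map_one cst, ← map_add]
    exact (map_ne_zero cst).mpr o1_b1
  · have := hc 1
    rwa [map_one] at this
  · have := hc' 1
    rwa [map_one] at this
  · intro h1
    rw [h1] at hD
    have h2 : (S - cst (Complex.I * bb t)) * (S + cst (Complex.I * bb t)) = 0 := by
      linear_combination -hD
    rcases mul_eq_zero.mp h2 with h3 | h3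
    · exact n5 h3
    · exact n6 h3
  · intro h1
    have h2 := h.eq0
    rw [h1] at h2
    rcases mul_eq_zero.mp (by rw [← h2]; ring : (S - cst (aa t)) * (S + cst (Complex.I * bb t)) = 0) with h3 | h3
    · exact n3 h3
    · exact n6 h3
  · intro h1
    have h2 := h.eq2
    rw [h1] at h2
    rcases mul_eq_zero.mp (by rw [← h2]; ring : (S + cst (aa t)) * (S - cst (Complex.I * bb t)) = 0) with h3 | h3
    · exact n4 h3
    · exact n5 h3
  · intro h1
    rw [h1] at hdl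
    have h2 : (S - cst (aa t : ℂ)) * (S + cst (aa t : ℂ)) = 0 := by linear_combination -hdl
    rcases mul_eq_zero.mp h2 with h3 | h3
    · exact n3 h3
    · exact n4 h3
  · have := hc 0
    rwa [map_zero, sub_zero] at this
  · intro h1
    obtain ⟨c, hc1⟩ := eq_cst_of_der_eq_zero h1
    exact h.toIsS.S_ne_cst c hc1

private lemma o1_l0 {t : ℝ} {A B : Mer} (hA : A = cst (aa t)) (hB : B = cst (Complex.I * bb t)) :
    cst (l0 t) = 2 * (A - B) / ((A + 1) * (1 - B)) := by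
  rw [hA, hB]
  unfold l0
  rw [map_div₀, map_mul, map_mul cst ((aa t : ℂ) + 1), map_sub, map_add, map_sub cst 1, map_one, map_ofNat]

private lemma o1_l0' {t : ℝ} {A B : Mer} (hA : A = cst (aa t)) (hB : B = cst (Complex.I * bb t)) :
    cst (conj (l0 t)) = 2 * (A + B) / ((A + 1) * (1 + B)) := by
  have h1 : conj (l0 t) = 2 * ((aa t : ℂ) + Complex.I * bb t) / (((aa t : ℂ) + 1) * (1 + Complex.I * bb t)) := by
    unfold l0
    simp only [map_div₀, map_mul, map_sub, map_add, map_one, map_ofNat, Complex.conj_ofReal, Complex.conj_I]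
    ring
  rw [h1, hA, hB]
  rw [map_div₀, map_mul, map_mul cst ((aa t : ℂ) + 1), map_add, map_add, map_add cst 1, map_one, map_ofNat]

private lemma o1_cE {t : ℝ} (ht : 1 < t) {A B T : Mer} (hA : A = cst (aa t)) (hB : B = cst (Complex.I * bb t))
    (hT : T = cst t) : cst (cE t) ^ 2 = T ^ 2 * (1 + B) / (4 * (A + 1)) := by
  rw [hA, hB, hT, ← map_pow, cE_sq ht, map_div₀, map_mul, map_mul cst 4, map_add, map_add, map_one, map_ofNat,
    map_pow]

private lemma o1_cE' {t : ℝ} (ht : 1 < t) {A B T : Mer} (hA : A = cst (aa t)) (hB : B = cst (Complex.I * bb t))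
    (hT : T = cst t) : cst (conj (cE t)) ^ 2 = T ^ 2 * (1 - B) / (4 * (A + 1)) := by
  have h1 : conj (cE t) ^ 2 = ((t : ℂ) ^ 2 * (1 - Complex.I * bb t)) / (4 * ((aa t : ℂ) + 1)) := by
    rw [← map_pow, cE_sq ht]
    simp only [map_div₀, map_mul, map_pow, map_add, map_one, map_ofNat, Complex.conj_ofReal, Complex.conj_I]
    ring
  rw [hA, hB, hT, ← map_pow, h1, map_div₀, map_mul, map_mul cst 4, map_add, map_sub, map_one, map_ofNat,
    map_pow]

/-- a Moebius transform of S is not constant -/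
private lemma o1_moeb (h : IsData t S D h0 h2 dl) (a b c d : ℂ) (hdet : a * d - b * c ≠ 0)
    (e : ℂ) (he : cst a * S + cst b = cst e * (cst c * S + cst d)) : False := by
  have hq : cst 0 * S ^ 2 + cst (a - e * c) * S + cst (b - e * d) = 0 := by
    rw [map_zero, map_sub, map_sub, map_mul, map_mul]
    linear_combination he
  by_cases h1 : a - e * c = 0
  · have h3 : cst (b - e * d) = 0 := by
      rw [h1, map_zero, zero_mul, zero_mul, zero_add, zero_add] at hq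
      exact hq
    have h4 : b - e * d = 0 := (map_eq_zero cst).mp h3
    apply hdet
    linear_combination d * h1 - c * h4
  · obtain ⟨c', hc'⟩ := o1_quad 0 (a - e * c) (b - e * d) (fun h2 => h1 h2.2) hq
    exact h.toIsS.S_ne_cst c' hc'

private lemma o1_mem_cst (Γ : Subgroup SL(2, ℝ)) (c : ℂ) : cst c ∈ Kf Γ := fun γ _ => act_cst_sl γ c

private lemma o1_memY (S D h2 dl : Mer) :
    S ∈ Kf (GY S D h2 dl) ∧ D ∈ Kf (GY S D h2 dl) ∧ h2 ∈ Kf (GY S D h2 dl) ∧ dl ∈ Kf (GY S D h2 dl) := by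
  refine ⟨?_, ?_, ?_, ?_⟩ <;>
  · rw [mem_Kf']
    intro γ hγ
    exact hγ _ (by simp)

private lemma o1_memX (S D h0 h2 : Mer) :
    S ∈ Kf (GX S D h0 h2) ∧ D ∈ Kf (GX S D h0 h2) ∧ h0 ∈ Kf (GX S D h0 h2) ∧ h2 ∈ Kf (GX S D h0 h2) := by
  refine ⟨?_, ?_, ?_, ?_⟩ <;>
  · rw [mem_Kf']
    intro γ hγ
    exact hγ _ (by simp)

private lemma o1_sqA {t : ℝ} : cst ((aa t : ℂ) ^ 2) = cst (aa t : ℂ) ^ 2 := map_pow _ _ _

private lemma o1_mB {t : ℝ} : cst (1 - Complex.I * bb t) = 1 - cst (Complex.I * bb t) := by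
  rw [map_sub, map_one]

private lemma o1_pB {t : ℝ} : cst (1 + Complex.I * bb t) = 1 + cst (Complex.I * bb t) := by
  rw [map_add, map_one]

private lemma o1_sq_ne (h : IsData t S D h0 h2 dl) (a b : ℂ) (ha : a ≠ 0) : cst a * S ^ 2 + cst b ≠ 0 := by
  intro h1
  obtain ⟨c, hc⟩ := o1_quad (S := S) a 0 b (fun h2 => ha h2.1) (by rw [map_zero]; linear_combination h1)
  exact h.toIsS.S_ne_cst c hc

theorem IsData.xs_ys (h : IsData t S D h0 h2 dl) (j : Fin 5) :
    xs t S j ∈ Kf (GY S D h2 dl) ∧ ys t S D h2 dl j ∈ Kf (GY S D h2 dl) ∧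
    (∀ c, xs t S j ≠ cst c) ∧
    (ys t S D h2 dl j) ^ 2 = xs t S j * (1 - xs t S j) * (1 - cst (lam t j) * xs t S j) := by
  have R := o1_rel h
  have ht := h.ht
  obtain ⟨mS, mD, mh, md⟩ := o1_memY S D h2 dl
  have mc := o1_mem_cst (GY S D h2 dl)
  have m1 : (1 : Mer) ∈ Kf (GY S D h2 dl) := one_mem _
  have m2 : (2 : Mer) ∈ Kf (GY S D h2 dl) := ofNat_mem _ 2
  have htC := o1_t_ne ht
  have haC := o1_aa_ne ht
  fin_cases j
  · refine ⟨?_, ?_, ?_, ?_⟩
    · exact sub_mem m1 (pow_mem mS 2)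
    · exact mul_mem (mul_mem (mc _) mS) (mul_mem mD (sub_mem (pow_mem mS 2) m1))
    · intro c hc
      have hc' : 1 - S ^ 2 = cst c := hc
      apply o1_sq_ne h 1 (c - 1) one_ne_zero
      rw [map_one, map_sub, map_one, ← hc']
      ring
    · have h1 : cst (lam t 0) = 1 / (cst (t : ℂ)) ^ 2 := by
        have : lam t 0 = 1 / (t : ℂ) ^ 2 := by
          simp only [lam, Matrix.cons_val_zero]
          push_cast
          rfl
        rw [this, map_div₀, map_one, map_pow]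
      have he : cst (Complex.I / t) ^ 2 = -1 / (cst (t : ℂ)) ^ 2 := by
        rw [← map_pow, div_pow, Complex.I_sq, map_div₀, map_neg, map_one, map_pow]
      have := o1_0 (e := cst (Complex.I / t)) R.hT R.hB R.hD he
      rw [← h1] at this
      exact this
  · refine ⟨?_, ?_, ?_, ?_⟩
    · exact div_mem (sub_mem (mc _) (pow_mem mS 2)) (mc _)
    · exact mul_mem (mul_mem (mc _) md) (mul_mem mD (sub_mem (pow_mem mS 2) m1))
    · intro c hc
      have hc' : (cst ((aa t : ℂ) ^ 2) - S ^ 2) / cst t = cst c := hc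
      rw [div_eq_iff R.hT] at hc'
      apply o1_sq_ne h 1 (c * t - (aa t : ℂ) ^ 2) one_ne_zero
      rw [map_one, map_sub, map_mul, ← hc']
      ring
    · have h1 : cst (lam t 1) = 1 / (1 + cst (t : ℂ)) := by
        have : lam t 1 = 1 / (1 + (t : ℂ)) := by
          simp only [lam, Matrix.cons_val_one]
          push_cast
          rfl
        rw [this, map_div₀, map_add, map_one]
      have he : cst (Complex.I / (t * √t * aa t)) ^ 2 = -1 / ((cst (t : ℂ)) ^ 3 * (cst (aa t : ℂ)) ^ 2) := by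
        have h3 : ((√t : ℝ) : ℂ) ^ 2 = t := by
          have : (√t) ^ 2 = t := Real.sq_sqrt (by linarith)
          exact_mod_cast this
        have h4 : (Complex.I / ((t : ℂ) * (√t : ℝ) * aa t)) ^ 2 = -1 / ((t : ℂ) ^ 3 * (aa t : ℂ) ^ 2) := by
          rw [div_pow, Complex.I_sq, mul_pow, mul_pow, h3]
          ring
        rw [← map_pow, h4, map_div₀, map_neg, map_one, map_mul, map_pow, map_pow]
      have := o1_1 (e := cst (Complex.I / (t * √t * aa t))) R.hT R.hA0 R.hA R.hB R.hD R.hdl he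
      rw [← h1] at this
      have h5 : xs t S 1 = (cst (aa t : ℂ) ^ 2 - S ^ 2) / cst (t : ℂ) := by
        rw [← o1_sqA]
        rfl
      change _ = xs t S 1 * (1 - xs t S 1) * (1 - cst (lam t 1) * xs t S 1)
      rw [h5]
      exact this
  · refine ⟨?_, ?_, ?_, ?_⟩
    · exact div_mem (mul_mem (mc _) (sub_mem (pow_mem mS 2) m1)) (sub_mem (pow_mem mS 2) (mc _))
    · exact div_mem (mul_mem (mul_mem (mc _) mS) (mul_mem mD (sub_mem (pow_mem mS 2) m1))) (pow_mem md 3)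
    · intro c hc
      have hc' : cst ((aa t : ℂ) ^ 2) * (S ^ 2 - 1) / (S ^ 2 - cst ((aa t : ℂ) ^ 2)) = cst c := hc
      have hne : S ^ 2 - cst ((aa t : ℂ) ^ 2) ≠ 0 := by
        rw [← h.eql]
        exact pow_ne_zero 2 R.nd
      rw [div_eq_iff hne] at hc'
      by_cases hca : (aa t : ℂ) ^ 2 - c = 0
      · have h1 : c = (aa t : ℂ) ^ 2 := by linear_combination -hca
        rw [h1] at hc'
        have h3 : cst ((aa t : ℂ) ^ 2 * ((aa t : ℂ) ^ 2 - 1)) = 0 := by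
          rw [map_mul, map_sub, map_one]
          linear_combination hc'
        have h4 := (map_eq_zero cst).mp h3
        have h5 : (aa t : ℂ) ^ 2 = 1 + t := by exact_mod_cast aa_sq ht
        rw [h5] at h4
        rcases mul_eq_zero.mp h4 with h6 | h6
        · have : (aa t : ℂ) ^ 2 = 0 := by rw [h5, h6]
          exact haC (pow_eq_zero_iff (by norm_num) |>.mp this)
        · apply htC
          linear_combination h6
      · apply o1_sq_ne h ((aa t : ℂ) ^ 2 - c) (c * (aa t : ℂ) ^ 2 - (aa t : ℂ) ^ 2) hca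
        rw [map_sub, map_sub, map_mul]
        linear_combination hc'
    · have h1 : cst (lam t 2) = 1 / cst (t : ℂ) := by
        have : lam t 2 = 1 / (t : ℂ) := by
          simp only [lam, Matrix.cons_val_two]
          push_cast
          rfl
        rw [this, map_div₀, map_one]
      have := o1_2 R.hT R.hA0 R.hA R.hB R.hD R.hdl R.nd
      rw [← h1] at this
      have h5 : xs t S 2 = cst (aa t : ℂ) ^ 2 * (S ^ 2 - 1) / (S ^ 2 - cst (aa t : ℂ) ^ 2) := by
        rw [← o1_sqA]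
        rfl
      change _ = xs t S 2 * (1 - xs t S 2) * (1 - cst (lam t 2) * xs t S 2)
      rw [h5]
      exact this
  · refine ⟨?_, ?_, ?_, ?_⟩
    · exact div_mem (mul_mem (mc _) (sub_mem mS m1)) (mul_mem m2 (add_mem mS (mc _)))
    · exact div_mem (mul_mem (mul_mem (mc _) (mul_mem mD (sub_mem (pow_mem mS 2) m1))) mh)
        (mul_mem (sub_mem mS (mc _)) (pow_mem (add_mem mS (mc _)) 2))
    · intro c hc
      have hc' : cst (1 - Complex.I * bb t) * (S - 1) / (2 * (S + cst (Complex.I * bb t))) = cst c := hc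
      rw [div_eq_iff (mul_ne_zero o1_two R.n6)] at hc'
      refine o1_moeb h (1 - Complex.I * bb t) (-(1 - Complex.I * bb t)) 2 (2 * (Complex.I * bb t)) ?_ c ?_
      · have : (1 - Complex.I * (bb t : ℂ)) * (2 * (Complex.I * bb t)) - -(1 - Complex.I * bb t) * 2 =
            2 * ((1 - Complex.I * bb t) * (1 + Complex.I * bb t)) := by ring
        rw [this]
        exact mul_ne_zero (by norm_num) (mul_ne_zero o1_b2 o1_b1)
      · rw [map_neg, map_mul cst 2, map_ofNat]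
        linear_combination hc'
    · have h1 : cst (lam t 3) = 2 * (cst (aa t : ℂ) - cst (Complex.I * bb t)) /
          ((cst (aa t : ℂ) + 1) * (1 - cst (Complex.I * bb t))) := o1_l0 rfl rfl
      have := o1_3 o1_two R.hA1 R.hB1 R.hB R.hD R.hh2 R.n5 R.n6 (o1_cE ht rfl rfl rfl)
      rw [← h1] at this
      have h5 : xs t S 3 = (1 - cst (Complex.I * bb t)) * (S - 1) / (2 * (S + cst (Complex.I * bb t))) := by
        rw [← o1_mB]
        rfl
      change _ = xs t S 3 * (1 - xs t S 3) * (1 - cst (lam t 3) * xs t S 3)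
      rw [h5]
      exact this
  · refine ⟨?_, ?_, ?_, ?_⟩
    · exact div_mem (mul_mem (mc _) (add_mem mS m1)) (mul_mem m2 (add_mem mS (mc _)))
    · exact div_mem (mul_mem (mul_mem (mc _) (mul_mem mD (sub_mem (pow_mem mS 2) m1))) (mul_mem mh md))
        (mul_mem (mul_mem (sub_mem mS (mc _)) (add_mem mS (mc _))) (pow_mem (add_mem mS (mc _)) 2))
    · intro c hc
      have hc' : cst (1 + Complex.I * bb t) * (S + 1) / (2 * (S + cst (Complex.I * bb t))) = cst c := hc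
      rw [div_eq_iff (mul_ne_zero o1_two R.n6)] at hc'
      refine o1_moeb h (1 + Complex.I * bb t) (1 + Complex.I * bb t) 2 (2 * (Complex.I * bb t)) ?_ c ?_
      · have : (1 + Complex.I * (bb t : ℂ)) * (2 * (Complex.I * bb t)) - (1 + Complex.I * bb t) * 2 =
            -2 * ((1 - Complex.I * bb t) * (1 + Complex.I * bb t)) := by ring
        rw [this]
        exact mul_ne_zero (by norm_num) (mul_ne_zero o1_b2 o1_b1)
      · rw [map_mul cst 2, map_ofNat]
        linear_combination hc'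
    · have h1 : cst (lam t 4) = 2 * (cst (aa t : ℂ) + cst (Complex.I * bb t)) /
          ((cst (aa t : ℂ) + 1) * (1 + cst (Complex.I * bb t))) := o1_l0' rfl rfl
      have := o1_4 o1_two R.hA1 R.hB2 R.hB R.hD R.hh2 R.hdl R.n5 R.n6 R.n4 (o1_cE' ht rfl rfl rfl)
      rw [← h1] at this
      have h5 : xs t S 4 = (1 + cst (Complex.I * bb t)) * (S + 1) / (2 * (S + cst (Complex.I * bb t))) := by
        rw [← o1_pB]
        rfl
      change _ = xs t S 4 * (1 - xs t S 4) * (1 - cst (lam t 4) * xs t S 4)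
      rw [h5]
      exact this

private lemma o1_der_sq_sub (S C : Mer) (hC : der C = 0) : der (S ^ 2 - C) = 2 * S * der S := by
  rw [der_sub, der_sq, hC, sub_zero]

private lemma o1_der_one : der (1 : Mer) = 0 := by
  rw [← map_one cst, der_cst]

/-- The differentials `x_j'/y_j`, up to constants. -/
theorem IsData.der_xs (h : IsData t S D h0 h2 dl) : ∃ c : Fin 5 → ℂ, (∀ j, c j ≠ 0) ∧
    der (xs t S 0) / ys t S D h2 dl 0 = cst (c 0) * (der S / (D * (S ^ 2 - 1))) ∧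
    der (xs t S 1) / ys t S D h2 dl 1 = cst (c 1) * (S * der S / (D * (S ^ 2 - 1) * dl)) ∧
    der (xs t S 2) / ys t S D h2 dl 2 = cst (c 2) * (der S / (D * (S ^ 2 - 1) * dl)) ∧
    der (xs t S 3) / ys t S D h2 dl 3 =
      cst (c 3) * (der S / (D * (S ^ 2 - 1) * h2 / (S - cst (Complex.I * bb t)))) ∧
    der (xs t S 4) / ys t S D h2 dl 4 = cst (c 4) * (der S / (D * (S ^ 2 - 1) * (h2 * dl) /
      ((S - cst (Complex.I * bb t)) * (S + cst (aa t))))) := by
  have R := o1_rel h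
  have ht := h.ht
  have htC := o1_t_ne ht
  have haC := o1_aa_ne ht
  have hcE := cE_ne ht
  have hcE' : conj (cE t) ≠ 0 := by simpa using hcE
  have hIC : (Complex.I : ℂ) ≠ 0 := Complex.I_ne_zero
  have hsq : ((√t : ℝ) : ℂ) ≠ 0 := by
    have : √t ≠ 0 := (Real.sqrt_pos.mpr (by linarith)).ne'
    exact_mod_cast this
  have hS1 : S ^ 2 - 1 ≠ 0 := by
    have : S ^ 2 - 1 = (S - 1) * (S + 1) := by ring
    rw [this]
    exact mul_ne_zero R.n1 R.n2
  have hSA : S ^ 2 - cst ((aa t : ℂ) ^ 2) ≠ 0 := by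
    rw [← h.eql]
    exact pow_ne_zero 2 R.nd
  have nS := R.nS
  have nD := R.nD
  have nh := R.nh2
  have nd := R.nd
  have n4 := R.n4
  have n5 := R.n5
  have n6 := R.n6
  refine ⟨![-2 / (Complex.I / t), -2 / t / (Complex.I / (t * √t * aa t)), -2 * t * aa t, t ^ 2 / (2 * cE t),
    -(t : ℂ) ^ 2 / (2 * conj (cE t))], ?_, ?_, ?_, ?_, ?_, ?_⟩
  · intro j
    fin_cases j
    · exact div_ne_zero (by norm_num) (div_ne_zero hIC htC)
    · exact div_ne_zero (div_ne_zero (by norm_num) htC) (div_ne_zero hIC (mul_ne_zero (mul_ne_zero htC hsq) haC))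
    · exact mul_ne_zero (mul_ne_zero (by norm_num) htC) haC
    · exact div_ne_zero (pow_ne_zero 2 htC) (mul_ne_zero (by norm_num) hcE)
    · exact div_ne_zero (neg_ne_zero.mpr (pow_ne_zero 2 htC)) (mul_ne_zero (by norm_num) hcE')
  · change der (1 - S ^ 2) / (cst (Complex.I / t) * S * (D * (S ^ 2 - 1))) =
      cst (-2 / (Complex.I / t)) * (der S / (D * (S ^ 2 - 1)))
    have hc : cst (Complex.I / t) ≠ 0 := (map_ne_zero cst).mpr (div_ne_zero hIC htC)
    rw [der_sub, o1_der_one, der_sq, map_div₀ cst (-2 : ℂ), map_neg, map_ofNat]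
    field_simp
    ring
  · change der ((cst ((aa t : ℂ) ^ 2) - S ^ 2) / cst t) / (cst (Complex.I / (t * √t * aa t)) * dl * (D * (S ^ 2 - 1))) =
      cst (-2 / t / (Complex.I / (t * √t * aa t))) * (S * der S / (D * (S ^ 2 - 1) * dl))
    have hc : cst (Complex.I / (t * √t * aa t)) ≠ 0 :=
      (map_ne_zero cst).mpr (div_ne_zero hIC (mul_ne_zero (mul_ne_zero htC hsq) haC))
    have hT := R.hT
    rw [der_div hT, der_sub, der_cst, der_cst, der_sq, map_div₀ cst (-2 / t : ℂ), map_div₀ cst (-2 : ℂ), map_neg,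
      map_ofNat]
    field_simp
    ring
  · change der (cst ((aa t : ℂ) ^ 2) * (S ^ 2 - 1) / (S ^ 2 - cst ((aa t : ℂ) ^ 2))) /
      (cst (aa t) * S * (D * (S ^ 2 - 1)) / dl ^ 3) =
      cst (-2 * t * aa t) * (der S / (D * (S ^ 2 - 1) * dl))
    have hA0 := R.hA0
    have hA := R.hA
    have hdl := R.hdl
    rw [der_div hSA, der_cst_mul, o1_der_sq_sub S 1 o1_der_one, o1_der_sq_sub S _ (der_cst _), ← h.eql]
    have e1 : cst (-2 * t * aa t) = -2 * cst (t : ℂ) * cst (aa t : ℂ) := by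
      rw [map_mul, map_mul, map_neg, map_ofNat]
    have e2 : cst ((aa t : ℂ) ^ 2) = 1 + cst (t : ℂ) := by rw [o1_sqA, hA]
    have e3 : dl ^ 2 = S ^ 2 - (1 + cst (t : ℂ)) := by rw [hdl, hA]
    have e4 : cst ((aa t : ℂ) ^ 2) = cst (aa t : ℂ) ^ 2 := o1_sqA
    have key : cst ((aa t : ℂ) ^ 2) * (2 * S * der S) * dl ^ 2 - cst ((aa t : ℂ) ^ 2) * (S ^ 2 - 1) * (2 * S * der S) =
        cst (aa t : ℂ) ^ 2 * (-2 * cst (t : ℂ) * S * der S) := by
      rw [e4, e3]
      ring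
    rw [key, e1]
    field_simp
  · change der (cst (1 - Complex.I * bb t) * (S - 1) / (2 * (S + cst (Complex.I * bb t)))) /
      (cst (cE t) * (D * (S ^ 2 - 1)) * h2 / ((S - cst (Complex.I * bb t)) * (S + cst (Complex.I * bb t)) ^ 2)) =
      cst (t ^ 2 / (2 * cE t)) * (der S / (D * (S ^ 2 - 1) * h2 / (S - cst (Complex.I * bb t))))
    have hc : cst (cE t) ≠ 0 := (map_ne_zero cst).mpr hcE
    have hT2 : cst (t : ℂ) ^ 2 = 1 - cst (Complex.I * bb t) ^ 2 := by rw [R.hB]; ring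
    have h2M := o1_two
    have hd2 : der (2 * (S + cst (Complex.I * bb t))) = 2 * der S := by
      rw [← map_ofNat cst 2, der_cst_mul, der_add, der_cst, add_zero]
    rw [der_div (mul_ne_zero o1_two n6), der_cst_mul, der_sub, o1_der_one, hd2, o1_mB, map_div₀ cst ((t : ℂ) ^ 2),
      map_mul cst 2, map_pow, map_ofNat, hT2]
    field_simp
    ring
  · change der (cst (1 + Complex.I * bb t) * (S + 1) / (2 * (S + cst (Complex.I * bb t)))) /
      (cst (conj (cE t)) * (D * (S ^ 2 - 1)) * (h2 * dl) /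
        ((S - cst (Complex.I * bb t)) * (S + cst (aa t)) * (S + cst (Complex.I * bb t)) ^ 2)) =
      cst (-(t : ℂ) ^ 2 / (2 * conj (cE t))) * (der S / (D * (S ^ 2 - 1) * (h2 * dl) /
        ((S - cst (Complex.I * bb t)) * (S + cst (aa t)))))
    have hc : cst (conj (cE t)) ≠ 0 := (map_ne_zero cst).mpr hcE'
    have hT2 : cst (t : ℂ) ^ 2 = 1 - cst (Complex.I * bb t) ^ 2 := by rw [R.hB]; ring
    have h2M := o1_two
    have hd2 : der (2 * (S + cst (Complex.I * bb t))) = 2 * der S := by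
      rw [← map_ofNat cst 2, der_cst_mul, der_add, der_cst, add_zero]
    rw [der_div (mul_ne_zero o1_two n6), der_cst_mul, der_add, o1_der_one, hd2, o1_pB, map_div₀ cst (-(t : ℂ) ^ 2),
      map_mul cst 2, map_neg, map_pow, map_ofNat, hT2]
    field_simp
    ring

/-- the functions on `X` -/
def x1 (t : ℝ) (S : Mer) : Mer :=
  cst (1 - Complex.I * bb t) * (S + 1) / (2 * (S - cst (Complex.I * bb t)))

def y1 (t : ℝ) (S D h0 : Mer) : Mer :=
  cst (cE t) * (D * (S ^ 2 - 1)) * h0 /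
      ((S + cst (Complex.I * bb t)) * (S - cst (Complex.I * bb t)) ^ 2)

def x2 (t : ℝ) (S : Mer) : Mer :=
  cst (1 - Complex.I * bb t) * (S - 1) / (2 * (S + cst (Complex.I * bb t)))

def y2 (t : ℝ) (S D h2 : Mer) : Mer :=
  cst (cE t) * (D * (S ^ 2 - 1)) * h2 /
      ((S - cst (Complex.I * bb t)) * (S + cst (Complex.I * bb t)) ^ 2)

theorem IsData.x1_y1 (h : IsData t S D h0 h2 dl) :
    x1 t S ∈ Kf (GX S D h0 h2) ∧ y1 t S D h0 ∈ Kf (GX S D h0 h2) ∧ (∀ c, x1 t S ≠ cst c) ∧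
    y1 t S D h0 ^ 2 = x1 t S * (1 - x1 t S) * (1 - cst (l0 t) * x1 t S) := by
  have R := o1_rel h
  have ht := h.ht
  obtain ⟨mS, mD, mh0, mh⟩ := o1_memX S D h0 h2
  have mc := o1_mem_cst (GX S D h0 h2)
  have m1 : (1 : Mer) ∈ Kf (GX S D h0 h2) := one_mem _
  have m2 : (2 : Mer) ∈ Kf (GX S D h0 h2) := ofNat_mem _ 2
  refine ⟨?_, ?_, ?_, ?_⟩
  · exact div_mem (mul_mem (mc _) (add_mem mS m1)) (mul_mem m2 (sub_mem mS (mc _)))
  · exact div_mem (mul_mem (mul_mem (mc _) (mul_mem mD (sub_mem (pow_mem mS 2) m1))) mh0)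
      (mul_mem (add_mem mS (mc _)) (pow_mem (sub_mem mS (mc _)) 2))
  · intro c hc
    have hc' : cst (1 - Complex.I * bb t) * (S + 1) / (2 * (S - cst (Complex.I * bb t))) = cst c := hc
    rw [div_eq_iff (mul_ne_zero o1_two R.n5)] at hc'
    refine o1_moeb h (1 - Complex.I * bb t) (1 - Complex.I * bb t) 2 (-(2 * (Complex.I * bb t))) ?_ c ?_
    · have : (1 - Complex.I * (bb t : ℂ)) * (-(2 * (Complex.I * bb t))) - (1 - Complex.I * bb t) * 2 =
          -2 * ((1 - Complex.I * bb t) * (1 + Complex.I * bb t)) := by ring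
      rw [this]
      exact mul_ne_zero (by norm_num) (mul_ne_zero o1_b2 o1_b1)
    · rw [map_neg, map_mul cst 2, map_ofNat]
      linear_combination hc'
  · have h1 : cst (l0 t) = 2 * (cst (aa t : ℂ) - cst (Complex.I * bb t)) /
        ((cst (aa t : ℂ) + 1) * (1 - cst (Complex.I * bb t))) := o1_l0 rfl rfl
    have hD' : D ^ 2 * ((-S) ^ 2 - 1) = (-S) ^ 2 - cst (Complex.I * bb t) ^ 2 := by
      rw [neg_sq]
      exact R.hD
    have hh' : h0 ^ 2 = (-S + cst (aa t)) * (-S - cst (Complex.I * bb t)) := by rw [R.hh0]; ring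
    have n5' : -S - cst (Complex.I * bb t) ≠ 0 := by
      have : -S - cst (Complex.I * bb t) = -(S + cst (Complex.I * bb t)) := by ring
      rw [this]
      exact neg_ne_zero.mpr R.n6
    have n6' : -S + cst (Complex.I * bb t) ≠ 0 := by
      have : -S + cst (Complex.I * bb t) = -(S - cst (Complex.I * bb t)) := by ring
      rw [this]
      exact neg_ne_zero.mpr R.n5
    have := o1_3 o1_two R.hA1 R.hB1 R.hB hD' hh' n5' n6' (o1_cE ht rfl rfl rfl)
    rw [← h1] at this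
    have h5 : x1 t S = (1 - cst (Complex.I * bb t)) * (-S - 1) / (2 * (-S + cst (Complex.I * bb t))) := by
      rw [← o1_mB]
      unfold x1
      rw [div_eq_div_iff (mul_ne_zero o1_two R.n5) (mul_ne_zero o1_two n6')]
      ring
    have h6 : y1 t S D h0 = -(cst (cE t) * (D * ((-S) ^ 2 - 1)) * h0 /
      ((-S - cst (Complex.I * bb t)) * (-S + cst (Complex.I * bb t)) ^ 2)) := by
      unfold y1
      rw [← neg_div, div_eq_div_iff (mul_ne_zero R.n6 (pow_ne_zero 2 R.n5)) (mul_ne_zero n5' (pow_ne_zero 2 n6'))]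
      ring
    rw [h6, neg_sq, h5]
    exact this

theorem IsData.x2_y2 (h : IsData t S D h0 h2 dl) :
    x2 t S ∈ Kf (GX S D h0 h2) ∧ y2 t S D h2 ∈ Kf (GX S D h0 h2) ∧ (∀ c, x2 t S ≠ cst c) ∧
    y2 t S D h2 ^ 2 = x2 t S * (1 - x2 t S) * (1 - cst (l0 t) * x2 t S) := by
  have H := h.xs_ys 3
  obtain ⟨mS, mD, mh0, mh⟩ := o1_memX S D h0 h2
  have mc := o1_mem_cst (GX S D h0 h2)
  have m1 : (1 : Mer) ∈ Kf (GX S D h0 h2) := one_mem _
  have m2 : (2 : Mer) ∈ Kf (GX S D h0 h2) := ofNat_mem _ 2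
  refine ⟨?_, ?_, H.2.2.1, H.2.2.2⟩
  · exact div_mem (mul_mem (mc _) (sub_mem mS m1)) (mul_mem m2 (add_mem mS (mc _)))
  · exact div_mem (mul_mem (mul_mem (mc _) (mul_mem mD (sub_mem (pow_mem mS 2) m1))) mh)
      (mul_mem (sub_mem mS (mc _)) (pow_mem (add_mem mS (mc _)) 2))

/-- The ratio of the two differentials on `X` is not constant: its square is
`(S+a)(S+ib)/((S-a)(S-ib))`. -/
theorem IsData.ratio (h : IsData t S D h0 h2 dl) :
    ((der (x1 t S) / y1 t S D h0) / (der (x2 t S) / y2 t S D h2)) ^ 2 =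
      (S + cst (aa t)) * (S + cst (Complex.I * bb t)) /
        ((S - cst (aa t)) * (S - cst (Complex.I * bb t))) ∧
    ∀ c, (der (x1 t S) / y1 t S D h0) / (der (x2 t S) / y2 t S D h2) ≠ cst c := by
  have R := o1_rel h
  have ht := h.ht
  have n3 := R.n3
  have n5 := R.n5
  have n6 := R.n6
  have nh0 := R.nh0
  have nh2 := R.nh2
  have nD := R.nD
  have hS1 : S ^ 2 - 1 ≠ 0 := by
    have : S ^ 2 - 1 = (S - 1) * (S + 1) := by ring
    rw [this]
    exact mul_ne_zero R.n1 R.n2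
  have hc : cst (cE t) ≠ 0 := (map_ne_zero cst).mpr (cE_ne ht)
  have h2M := o1_two
  have nS' := R.nS'
  have hd1 : der (2 * (S - cst (Complex.I * bb t))) = 2 * der S := by
    rw [← map_ofNat cst 2, der_cst_mul, der_sub, der_cst, sub_zero]
  have hd2 : der (2 * (S + cst (Complex.I * bb t))) = 2 * der S := by
    rw [← map_ofNat cst 2, der_cst_mul, der_add, der_cst, add_zero]
  have e1 : der (x1 t S) = -(1 - cst (Complex.I * bb t)) * (1 + cst (Complex.I * bb t)) / 2 * der S /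
      (S - cst (Complex.I * bb t)) ^ 2 := by
    unfold x1
    rw [der_div (mul_ne_zero o1_two n5), der_cst_mul, der_add, o1_der_one, hd1, o1_mB]
    field_simp
    ring
  have e2 : der (x2 t S) = (1 - cst (Complex.I * bb t)) * (1 + cst (Complex.I * bb t)) / 2 * der S /
      (S + cst (Complex.I * bb t)) ^ 2 := by
    unfold x2
    rw [der_div (mul_ne_zero o1_two n6), der_cst_mul, der_sub, o1_der_one, hd2, o1_mB]
    field_simp
    ring
  have hB1 := R.hB1
  have hB2 := R.hB2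
  have key : (der (x1 t S) / y1 t S D h0) / (der (x2 t S) / y2 t S D h2) =
      -((S + cst (Complex.I * bb t)) * h2) / ((S - cst (Complex.I * bb t)) * h0) := by
    rw [e1, e2]
    unfold y1 y2
    field_simp
  have sq : ((der (x1 t S) / y1 t S D h0) / (der (x2 t S) / y2 t S D h2)) ^ 2 =
      (S + cst (aa t)) * (S + cst (Complex.I * bb t)) /
        ((S - cst (aa t)) * (S - cst (Complex.I * bb t))) := by
    rw [key, div_pow, neg_sq, mul_pow, mul_pow, R.hh2, R.hh0]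
    field_simp
  refine ⟨sq, fun c hcc => ?_⟩
  rw [hcc, eq_div_iff (mul_ne_zero n3 n5)] at sq
  have hq : cst (1 - c ^ 2) * S ^ 2 + cst ((1 + c ^ 2) * (aa t + Complex.I * bb t)) * S +
      cst ((1 - c ^ 2) * (aa t * (Complex.I * bb t))) = 0 := by
    simp only [map_mul cst ((1 : ℂ) + c ^ 2), map_mul cst ((1 : ℂ) - c ^ 2), map_mul cst (aa t : ℂ), map_sub, map_add,
      map_one, map_pow]
    linear_combination -sq
  have hab : (aa t : ℂ) + Complex.I * bb t ≠ 0 := by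
    intro h0
    have h1 := congrArg Complex.re h0
    simp at h1
    exact (aa_pos ht).ne' h1
  obtain ⟨c', hc'⟩ := o1_quad _ _ _ (by
    rintro ⟨h1, h2⟩
    rcases mul_eq_zero.mp h2 with h3 | h3
    · have : (2 : ℂ) = 0 := by linear_combination h1 + h3
      norm_num at this
    · exact hab h3) hq
  exact h.toIsS.S_ne_cst c' hc'

end Pool.Agent.Lib.MP_b9289b_nt
end
end

section

/-!
# J05: the differentials on the conjugate surface

`τ : Kf (GX) ≃+* Kf Γ'` with `τ (cst c) = cst (σ c)`.  Put `x_i' = τ (x_i)`, `y_i' = τ (y_i)`,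
`T = τ S`, `l' = σ (l0 t)`.  They satisfy `y_i'² = P_{l'}(x_i')`, are not constant (`τ` is injective and
maps the constants onto the constants), `x1' = (1-β)(T+1)/(2(T-β))` with `β = σ(i b)`, and
`l' = 2(a-β)/((a+1)(1-β))` with `a = σ(aa t)`.  `form_hol`, `form_periods` (with a `Φ` from
`exists_isPhi l'`, `L = PerGrp Φ`, discrete by `IsPhi.discrete`) give `w1', w2' ∈ Omega Γ'` with
periods in `L`; they are linearly independent by `ratio_ne_cst`.
-/

open UpperHalfPlane Filter Topology MatrixGroups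
open scoped ContDiff ComplexConjugate

noncomputable section

namespace Pool.Agent.Lib.MP_b9289b_nt

open Mer

variable {t : ℝ} {S D h0 h2 dl : Mer}

private lemma mk_comb {w1 w2 : ℍ → ℂ} (h1 : IsHol w1) (h2 : IsHol w2) (a b : ℂ)
    (h : a • w1 + b • w2 = 0) : cst a * mk w1 h1.isMero + cst b * mk w2 h2.isMero = 0 := by
  rw [cst_eq, cst_eq, mk_mul, mk_mul, mk_add, zero_eq, mk_eq_mk]
  refine Eventually.of_forall fun z => ?_
  have := congrFun h z
  simpa using this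

private lemma mem_fixer_Kf {T : Set Mer} {F : Mer} (hF : F ∈ T) : F ∈ Kf (fixer T) := by
  rw [mem_Kf']
  intro γ hγ
  exact hγ F hF

theorem IsData.conj_forms (h : IsData t S D h0 h2 dl) {σ : ℂ ≃+* ℂ} {Γ' : Subgroup SL(2, ℝ)}
    (hΓ' : IsSurfaceGroup Γ') (hconj : IsGaloisConj σ (GX S D h0 h2) Γ') :
    ∃ (L : AddSubgroup ℂ) (w1 w2 : Omega Γ'), DiscreteTopology L ∧
      LinearIndependent ℂ ![w1, w2] ∧ (∀ γ ∈ Γ', period (w1 : ℍ → ℂ) γ ∈ L) ∧
      (∀ γ ∈ Γ', period (w2 : ℍ → ℂ) γ ∈ L) := by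
  obtain ⟨τ, hτ⟩ := exists_equiv_Kf hconj
  obtain ⟨hx1, hy1, hc1, he1⟩ := h.x1_y1
  obtain ⟨hx2, hy2, hc2, he2⟩ := h.x2_y2
  have hS : S ∈ Kf (GX S D h0 h2) := mem_fixer_Kf (by simp)
  set e : Kf (GX S D h0 h2) →+* Mer := (Kf Γ').subtype.comp (τ : _ →+* _) with he
  have heval : ∀ x, e x = (τ x : Mer) := fun _ => rfl
  have hec : ∀ c, e ⟨cst c, cst_mem_Kf _ c⟩ = cst (σ c) := fun c => by
    rw [heval, hτ]
  have heinj : Function.Injective e := e.injective
  have hmem : ∀ x, e x ∈ Kf Γ' := fun x => (τ x).2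
  have hnc : ∀ (F : Mer) (hF : F ∈ Kf (GX S D h0 h2)), (∀ c, F ≠ cst c) →
      ∀ c, e ⟨F, hF⟩ ≠ cst c := by
    intro F hF hc c hcc
    have h1 : e ⟨F, hF⟩ = e ⟨cst (σ.symm c), cst_mem_Kf _ _⟩ := by
      rw [hec, hcc, RingEquiv.apply_symm_apply]
    have h2 := congrArg Subtype.val (heinj h1)
    exact hc _ h2
  have hb : (1 : ℂ) - Complex.I * bb t ≠ 0 := fun h0 => by
    have := congrArg Complex.re h0
    simp at this
  have hb' : (1 : ℂ) + Complex.I * bb t ≠ 0 := fun h0 => by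
    have := congrArg Complex.re h0
    simp at this
  have ha1 : (aa t : ℂ) + 1 ≠ 0 := fun h0 => by
    have h1 := congrArg Complex.re h0
    have h2 := aa_pos h.ht
    simp at h1
    linarith
  have hab : (aa t : ℂ) + Complex.I * bb t ≠ 0 := fun h0 => by
    have h1 := congrArg Complex.re h0
    have h2 := aa_pos h.ht
    simp at h1
    linarith
  set β : ℂ := σ (Complex.I * bb t) with hβ
  set a : ℂ := σ (aa t) with ha
  have h1β : 1 - β ≠ 0 := by
    have h1 : 1 - β = σ (1 - Complex.I * bb t) := by rw [map_sub, map_one]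
    rw [h1]
    exact (map_ne_zero σ).2 hb
  have h2β : 1 + β ≠ 0 := by
    have h1 : 1 + β = σ (1 + Complex.I * bb t) := by rw [map_add, map_one]
    rw [h1]
    exact (map_ne_zero σ).2 hb'
  have h3a : a + 1 ≠ 0 := by
    have h1 : a + 1 = σ (aa t + 1) := by rw [map_add, map_one]
    rw [h1]
    exact (map_ne_zero σ).2 ha1
  have h4a : a + β ≠ 0 := by
    have h1 : a + β = σ (aa t + Complex.I * bb t) := by rw [map_add]
    rw [h1]
    exact (map_ne_zero σ).2 hab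
  have hl : σ (l0 t) = 2 * (a - β) / ((a + 1) * (1 - β)) := by
    unfold l0
    rw [map_div₀, map_mul, map_mul, map_sub, map_add, map_sub, map_ofNat, map_one]
  have hlt := lam_slit h.ht 3
  have hlam : lam t 3 = l0 t := rfl
  rw [hlam] at hlt
  have hl0 : σ (l0 t) ≠ 0 := (map_ne_zero σ).2 hlt.2.2.1
  have hl1 : σ (l0 t) ≠ 1 := fun h0 => hlt.2.2.2 (σ.injective (by rw [h0, map_one]))
  set T : Mer := e ⟨S, hS⟩ with hT
  have hTc : ∀ c, T ≠ cst c := hnc S hS h.toIsS.S_ne_cst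
  set X1 : Mer := e ⟨x1 t S, hx1⟩ with hX1
  set X2 : Mer := e ⟨x2 t S, hx2⟩ with hX2
  set Y1 : Mer := e ⟨y1 t S D h0, hy1⟩ with hY1
  set Y2 : Mer := e ⟨y2 t S D h2, hy2⟩ with hY2
  have hX1e : X1 = cst (1 - β) * (T + 1) / (2 * (T - cst β)) := by
    have h1 : (⟨x1 t S, hx1⟩ : Kf (GX S D h0 h2)) =
        ⟨cst (1 - Complex.I * bb t), cst_mem_Kf _ _⟩ * (⟨S, hS⟩ + 1) /
          (2 * (⟨S, hS⟩ - ⟨cst (Complex.I * bb t), cst_mem_Kf _ _⟩)) := rfl
    rw [hX1, h1, map_div₀, map_mul, map_mul, map_sub e, map_add e, map_ofNat, map_one, hec, hec,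
      map_sub σ, map_one]
  have hX2e : X2 = cst (1 - β) * (T - 1) / (2 * (T + cst β)) := by
    have h1 : (⟨x2 t S, hx2⟩ : Kf (GX S D h0 h2)) =
        ⟨cst (1 - Complex.I * bb t), cst_mem_Kf _ _⟩ * (⟨S, hS⟩ - 1) /
          (2 * (⟨S, hS⟩ + ⟨cst (Complex.I * bb t), cst_mem_Kf _ _⟩)) := rfl
    rw [hX2, h1, map_div₀, map_mul, map_mul, map_sub e, map_add e, map_ofNat, map_one, hec, hec,
      map_sub σ, map_one]
  have hY1e : Y1 ^ 2 = X1 * (1 - X1) * (1 - cst (σ (l0 t)) * X1) := by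
    have h1 : (⟨y1 t S D h0, hy1⟩ : Kf (GX S D h0 h2)) ^ 2 =
        ⟨x1 t S, hx1⟩ * (1 - ⟨x1 t S, hx1⟩) *
          (1 - ⟨cst (l0 t), cst_mem_Kf _ _⟩ * ⟨x1 t S, hx1⟩) := Subtype.ext he1
    have h2 := congrArg e h1
    rw [map_pow, map_mul, map_mul, map_sub, map_sub, map_mul, map_one, hec] at h2
    exact h2
  have hY2e : Y2 ^ 2 = X2 * (1 - X2) * (1 - cst (σ (l0 t)) * X2) := by
    have h1 : (⟨y2 t S D h2, hy2⟩ : Kf (GX S D h0 h2)) ^ 2 =
        ⟨x2 t S, hx2⟩ * (1 - ⟨x2 t S, hx2⟩) *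
          (1 - ⟨cst (l0 t), cst_mem_Kf _ _⟩ * ⟨x2 t S, hx2⟩) := Subtype.ext he2
    have h2 := congrArg e h1
    rw [map_pow, map_mul, map_mul, map_sub, map_sub, map_mul, map_one, hec] at h2
    exact h2
  have hratio := ratio_ne_cst hTc h1β h2β h3a h4a hl hX1e hX2e hY1e hY2e
  obtain ⟨w1, hw1, hwo1, hwe1, -⟩ := form_hol hl0 hl1 (hmem _) (hmem _) (hnc _ hx1 hc1) hY1e
  obtain ⟨w2, hw2, hwo2, hwe2, -⟩ := form_hol hl0 hl1 (hmem _) (hmem _) (hnc _ hx2 hc2) hY2e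
  obtain ⟨Φ, hΦ⟩ := exists_isPhi (σ (l0 t))
  have hco : Cocompact Γ' := hΓ'.2.1
  refine ⟨PerGrp Φ, ⟨w1, hwo1⟩, ⟨w2, hwo2⟩, hΦ.discrete, ?_,
    form_periods hΦ hco (hmem _) (hmem _) (hnc _ hx1 hc1) hY1e hw1 hwo1 hwe1,
    form_periods hΦ hco (hmem _) (hmem _) (hnc _ hx2 hc2) hY2e hw2 hwo2 hwe2⟩
  rw [LinearIndependent.pair_iff]
  intro p q hpq
  have hpq' : p • w1 + q • w2 = 0 := congrArg Subtype.val hpq
  have h5 := mk_comb hw1 hw2 p q hpq'
  rw [hwe1, hwe2] at h5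
  have h6 := hratio 0
  rw [map_zero] at h6
  have h7 : der X2 / Y2 ≠ 0 := (div_ne_zero_iff.1 h6).2
  have h8 : p = 0 := by
    by_contra hp
    refine hratio (-q / p) ?_
    have hcp : cst p ≠ 0 := (map_ne_zero cst).2 hp
    rw [div_eq_iff h7, map_div₀, map_neg]
    field_simp
    linear_combination h5
  refine ⟨h8, ?_⟩
  rw [h8, map_zero, zero_mul, zero_add] at h5
  rcases mul_eq_zero.1 h5 with h9 | h9
  · by_contra hq
    exact (map_ne_zero cst).2 hq h9
  · exact absurd h9 h7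

end Pool.Agent.Lib.MP_b9289b_nt
end
end

section

/-!
# O02: decomposition of the differentials of `Y` under `G6 = fixer {S}`

`GY` is normal in `G6` (elements of `G6` act on `D, h2, dl` by signs, `IsData.sgn`), and the quotient is
`(ℤ/2)³`, by the signs on `D, h2, dl`.  There are elements with all sign vectors (products of
`rot_one`, `rot_a`, `rot_neg_a`).

`OmF F`: differentials which transform under `G6` as `F` does.
-/

open UpperHalfPlane Filter Topology MatrixGroups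
open scoped ContDiff ComplexConjugate

noncomputable section

namespace Pool.Agent.Lib.MP_b9289b_nt

open Mer

variable {t : ℝ} {S D h0 h2 dl : Mer}

/-- The sign `χ_e` of the sign vector `s`. -/
private def O2sg (e s : Fin 2 × Fin 2 × Fin 2) : ℤ :=
  (-1) ^ ((e.1 : ℕ) * (s.1 : ℕ) + (e.2.1 : ℕ) * (s.2.1 : ℕ) + (e.2.2 : ℕ) * (s.2.2 : ℕ))

private lemma O2sg_add : ∀ e s s' : Fin 2 × Fin 2 × Fin 2,
    O2sg e (s + s') = O2sg e s * O2sg e s' := by decide

private lemma O2sg_sum : ∀ s : Fin 2 × Fin 2 × Fin 2,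
    ∑ e : Fin 2 × Fin 2 × Fin 2, O2sg e s = if s = 0 then 8 else 0 := by decide

private lemma O2sg_sq : ∀ e s : Fin 2 × Fin 2 × Fin 2, O2sg e s * O2sg e s = 1 := by decide

private lemma O2sg_cases : ∀ e s : Fin 2 × Fin 2 × Fin 2, O2sg e s = 1 ∨ O2sg e s = -1 := by decide

private lemma O2add_self : ∀ s : Fin 2 × Fin 2 × Fin 2, s + s = 0 := by decide

/-- `g` fixes `S` and acts on `D, h2, dl` by the signs `s`. -/
private def O2SV (S D h2 dl : Mer) (g : SL(2, ℝ)) (s : Fin 2 × Fin 2 × Fin 2) : Prop :=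
  actS g S = S ∧ actS g D = (-1) ^ (s.1 : ℕ) * D ∧ actS g h2 = (-1) ^ (s.2.1 : ℕ) * h2 ∧
    actS g dl = (-1) ^ (s.2.2 : ℕ) * dl

private lemma O2pow (a b : Fin 2) :
    ((-1 : Mer)) ^ ((a + b : Fin 2) : ℕ) = (-1) ^ (a : ℕ) * (-1) ^ (b : ℕ) := by
  fin_cases a <;> fin_cases b <;> simp

private lemma O2mul {g g' : SL(2, ℝ)} {F : Mer} {a b : Fin 2}
    (h : actS g F = (-1) ^ (a : ℕ) * F) (h' : actS g' F = (-1) ^ (b : ℕ) * F) :
    actS (g * g') F = (-1) ^ ((a + b : Fin 2) : ℕ) * F := by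
  rw [actS_mul, h, map_mul, map_pow, map_neg, map_one, h', O2pow, mul_assoc]

private lemma O2inv {g : SL(2, ℝ)} {F : Mer} {n : ℕ}
    (h : actS g F = (-1) ^ n * F) : actS g⁻¹ F = (-1) ^ n * F := by
  have h1 := actS_mul g g⁻¹ F
  rw [mul_inv_cancel, actS_one, h, map_mul, map_pow, map_neg, map_one] at h1
  have h2 : ((-1 : Mer)) ^ n * (-1) ^ n = 1 := by
    rw [← mul_pow]
    simp
  calc actS g⁻¹ F = ((-1 : Mer) ^ n * (-1) ^ n) * actS g⁻¹ F := by rw [h2, one_mul]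
    _ = (-1) ^ n * ((-1) ^ n * actS g⁻¹ F) := by rw [mul_assoc]
    _ = (-1) ^ n * F := by rw [← h1]

private lemma O2SV.mul {g g' : SL(2, ℝ)} {s s' : Fin 2 × Fin 2 × Fin 2}
    (h : O2SV S D h2 dl g s) (h' : O2SV S D h2 dl g' s') :
    O2SV S D h2 dl (g * g') (s + s') := by
  obtain ⟨a1, a2, a3, a4⟩ := h
  obtain ⟨b1, b2, b3, b4⟩ := h'
  exact ⟨by rw [actS_mul, a1, b1], O2mul a2 b2, O2mul a3 b3, O2mul a4 b4⟩

private lemma O2SV.inv {g : SL(2, ℝ)} {s : Fin 2 × Fin 2 × Fin 2}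
    (h : O2SV S D h2 dl g s) : O2SV S D h2 dl g⁻¹ s := by
  obtain ⟨a1, a2, a3, a4⟩ := h
  refine ⟨?_, O2inv a2, O2inv a3, O2inv a4⟩
  have h1 : actS g S = (-1) ^ 0 * S := by rw [a1]; simp
  have h2 := O2inv h1
  rw [h2]
  simp

private lemma O2SV.mem {g : SL(2, ℝ)} (h : O2SV S D h2 dl g 0) : g ∈ GY S D h2 dl := by
  obtain ⟨a1, a2, a3, a4⟩ := h
  unfold GY
  rw [mem_fixer]
  intro F hF
  simp only [Set.mem_insert_iff, Set.mem_singleton_iff] at hF
  rcases hF with rfl | rfl | rfl | rfl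
  · exact a1
  · rw [a2]; simp
  · rw [a3]; simp
  · rw [a4]; simp

private lemma O2SV.of_mem {g : SL(2, ℝ)} (h : g ∈ GY S D h2 dl) : O2SV S D h2 dl g 0 := by
  unfold GY at h
  rw [mem_fixer] at h
  refine ⟨h S (by simp), ?_, ?_, ?_⟩
  · rw [h D (by simp)]; simp
  · rw [h h2 (by simp)]; simp
  · rw [h dl (by simp)]; simp

private lemma O2sgn {g : SL(2, ℝ)} {F : Mer} (h : Sgn g F) :
    ∃ a : Fin 2, actS g F = (-1) ^ (a : ℕ) * F := by
  rcases h with h | h
  · exact ⟨0, by rw [h]; simp⟩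
  · exact ⟨1, by rw [h]; simp⟩

private lemma O2exists (h : IsData t S D h0 h2 dl) {g : SL(2, ℝ)} (hg : actS g S = S) :
    ∃ s, O2SV S D h2 dl g s := by
  obtain ⟨d1, _, d2, d3⟩ := h.sgn hg
  obtain ⟨a, ha⟩ := O2sgn d1
  obtain ⟨b, hb⟩ := O2sgn d2
  obtain ⟨c, hc⟩ := O2sgn d3
  exact ⟨(a, b, c), hg, ha, hb, hc⟩

private lemma O2SV.pow {g : SL(2, ℝ)} {s : Fin 2 × Fin 2 × Fin 2}
    (h : O2SV S D h2 dl g s) (n : Fin 2) :
    ∃ g', O2SV S D h2 dl g' (if n = 0 then 0 else s) := by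
  split_ifs with hn
  · exact ⟨1, by rw [O2SV]; simp [actS_one]⟩
  · exact ⟨g, h⟩

private lemma O2comb : ∀ s : Fin 2 × Fin 2 × Fin 2,
    (if s.1 = 0 then (0 : Fin 2 × Fin 2 × Fin 2) else (1, 0, 0)) +
      (if s.2.1 = 0 then (0 : Fin 2 × Fin 2 × Fin 2) else (0, 1, 1) + (0, 0, 1)) +
      (if s.2.2 = 0 then (0 : Fin 2 × Fin 2 × Fin 2) else (0, 0, 1)) = s := by decide

private lemma O2surj (h : IsData t S D h0 h2 dl) (s : Fin 2 × Fin 2 × Fin 2) :
    ∃ g, O2SV S D h2 dl g s := by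
  obtain ⟨g1, a1, a2, _, a4, a5⟩ := h.rot_one
  obtain ⟨g2, b1, b2, _, b4, b5⟩ := h.rot_a
  obtain ⟨g3, c1, c2, _, c4, c5⟩ := h.rot_neg_a
  have v1 : O2SV S D h2 dl g1 (1, 0, 0) := ⟨a1, by rw [a2]; simp, by rw [a4]; simp, by rw [a5]; simp⟩
  have v2 : O2SV S D h2 dl g2 (0, 0, 1) := ⟨b1, by rw [b2]; simp, by rw [b4]; simp, by rw [b5]; simp⟩
  have v3 : O2SV S D h2 dl g3 (0, 1, 1) := ⟨c1, by rw [c2]; simp, by rw [c4]; simp, by rw [c5]; simp⟩
  have v4 := v3.mul v2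
  obtain ⟨k1, hk1⟩ := v1.pow s.1
  obtain ⟨k2, hk2⟩ := v4.pow s.2.1
  obtain ⟨k3, hk3⟩ := v2.pow s.2.2
  refine ⟨k1 * k2 * k3, ?_⟩
  have h1 := (hk1.mul hk2).mul hk3
  rw [O2comb] at h1
  exact h1

private lemma O2slash_id {Γ : Subgroup SL(2, ℝ)} {η : ℍ → ℂ} (hη : η ∈ Omega Γ) {γ : SL(2, ℝ)}
    (hγ : γ ∈ Γ) : slash η γ = η := by
  funext z
  unfold slash
  rw [hη.2 γ hγ z]
  rw [mul_div_assoc, mul_comm, div_mul_cancel₀]
  exact pow_ne_zero 2 (denom_ne_zero _ z)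

private lemma O2mem_of_slash {Γ : Subgroup SL(2, ℝ)} {η : ℍ → ℂ} (hη : IsHol η)
    (h : ∀ γ ∈ Γ, slash η γ = η) : η ∈ Omega Γ := by
  refine ⟨hη, fun γ hγ z => ?_⟩
  have h1 := congrFun (h γ hγ) z
  unfold slash at h1
  have h2 : denom (γ : GL (Fin 2) ℝ) z ^ 2 ≠ 0 := pow_ne_zero 2 (denom_ne_zero _ z)
  rw [div_eq_iff h2, mul_comm] at h1
  exact h1

lemma IsData.conj_mem_GY (h : IsData t S D h0 h2 dl) {g γ : SL(2, ℝ)} (hg : actS g S = S)
    (hγ : γ ∈ GY S D h2 dl) : g * γ * g⁻¹ ∈ GY S D h2 dl := by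
  obtain ⟨s, hs⟩ := O2exists h hg
  have h1 := (hs.mul (O2SV.of_mem hγ)).mul hs.inv
  rw [add_zero, O2add_self] at h1
  exact h1.mem

lemma IsData.slash_mem (h : IsData t S D h0 h2 dl) {g : SL(2, ℝ)} (hg : actS g S = S)
    {η : ℍ → ℂ} (hη : η ∈ Omega (GY S D h2 dl)) : slash η g ∈ Omega (GY S D h2 dl) := by
  refine O2mem_of_slash (IsHol.slash hη.1 g) fun γ hγ => ?_
  rw [slash_mul]
  have h1 : g * γ = (g * γ * g⁻¹) * g := by group
  rw [h1, ← slash_mul, O2slash_id hη (h.conj_mem_GY hg hγ)]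

/-- `η` is holomorphic and transforms under `G6 = fixer {S}` as `F`. -/
def OmF (S F : Mer) (η : ℍ → ℂ) : Prop :=
  IsHol η ∧ ∀ γ : SL(2, ℝ), actS γ S = S →
    (actS γ F = F → slash η γ = η) ∧ (actS γ F = -F → slash η γ = -η)

/-- The product `D^a h2^b dl^c`. -/
def Fprod (D h2 dl : Mer) (e : Fin 2 × Fin 2 × Fin 2) : Mer :=
  D ^ (e.1 : ℕ) * h2 ^ (e.2.1 : ℕ) * dl ^ (e.2.2 : ℕ)

private lemma O2slash_eq {η : ℍ → ℂ} (hη : η ∈ Omega (GY S D h2 dl)) {g g' : SL(2, ℝ)}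
    {s : Fin 2 × Fin 2 × Fin 2} (h : O2SV S D h2 dl g s) (h' : O2SV S D h2 dl g' s) :
    slash η g = slash η g' := by
  have h1 := h.mul h'.inv
  rw [O2add_self] at h1
  have h2 : g = (g * g'⁻¹) * g' := by group
  rw [h2, ← slash_mul, O2slash_id hη h1.mem]

private lemma O2actF {g : SL(2, ℝ)} {s : Fin 2 × Fin 2 × Fin 2} (h : O2SV S D h2 dl g s)
    (e : Fin 2 × Fin 2 × Fin 2) :
    actS g (Fprod D h2 dl e) = ((O2sg e s : ℤ) : Mer) * Fprod D h2 dl e := by
  obtain ⟨_, a2, a3, a4⟩ := h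
  unfold Fprod O2sg
  rw [map_mul, map_mul, map_pow, map_pow, map_pow, a2, a3, a4]
  push_cast
  rw [mul_pow, mul_pow, mul_pow, ← pow_mul, ← pow_mul, ← pow_mul, pow_add, pow_add,
    mul_comm (e.1 : ℕ), mul_comm (e.2.1 : ℕ), mul_comm (e.2.2 : ℕ)]
  ring

private lemma O2hol_sum {ι : Type} (u : Finset ι) (f : ι → ℍ → ℂ) (hf : ∀ i ∈ u, IsHol (f i)) :
    IsHol (∑ i ∈ u, f i) := by
  classical
  induction u using Finset.induction_on with
  | empty =>
    rw [Finset.sum_empty]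
    exact fun z => differentiableAt_const 0
  | insert a u ha ih =>
    rw [Finset.sum_insert ha]
    intro z
    exact (hf a (Finset.mem_insert_self _ _) z).add
      (ih (fun i hi => hf i (Finset.mem_insert_of_mem hi)) z)

private lemma O2hol_smul (c : ℂ) {f : ℍ → ℂ} (hf : IsHol f) : IsHol (c • f) :=
  fun z => (hf z).const_mul c

private lemma O2period_sum {ι : Type} (u : Finset ι) (f : ι → ℍ → ℂ) (hf : ∀ i ∈ u, IsHol (f i))
    (γ : SL(2, ℝ)) : period (∑ i ∈ u, f i) γ = ∑ i ∈ u, period (f i) γ := by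
  classical
  induction u using Finset.induction_on with
  | empty =>
    rw [Finset.sum_empty, Finset.sum_empty]
    have := period_smul 0 (0 : ℍ → ℂ) γ
    rw [zero_mul, zero_smul] at this
    exact this
  | insert a u ha ih =>
    rw [Finset.sum_insert ha, Finset.sum_insert ha,
      period_add (hf a (Finset.mem_insert_self _ _))
        (O2hol_sum u f fun i hi => hf i (Finset.mem_insert_of_mem hi)),
      ih fun i hi => hf i (Finset.mem_insert_of_mem hi)]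

private lemma O2slash_sum {ι : Type} (u : Finset ι) (f : ι → ℍ → ℂ) (g : SL(2, ℝ)) :
    slash (∑ i ∈ u, f i) g = ∑ i ∈ u, slash (f i) g := by
  funext z
  unfold slash
  rw [Finset.sum_apply, Finset.sum_apply, Finset.sum_div]

private lemma O2slash_smul (c : ℂ) (f : ℍ → ℂ) (g : SL(2, ℝ)) :
    slash (c • f) g = c • slash f g := by
  funext z
  unfold slash
  rw [Pi.smul_apply, Pi.smul_apply, smul_eq_mul, smul_eq_mul, mul_div_assoc]

/-- For `e = (a,b,c)` put `8 η_e = ∑_g χ_e(g) (η | g)`, the sum over representatives `g` of the 8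
cosets of `GY` in `G6` (`χ_e(g) = ±1` is the sign of `g` on `F_e`); `η = ∑ η_e` by orthogonality of
characters; the periods of `8 η_e` over `γ ∈ GY` are sums of `±` the periods of `η` over
`g γ g⁻¹ ∈ GY` (`period_slash`). -/
theorem IsData.decomp_forms (h : IsData t S D h0 h2 dl) {η : ℍ → ℂ}
    (hη : η ∈ Omega (GY S D h2 dl)) : ∃ θ : Fin 2 × Fin 2 × Fin 2 → (ℍ → ℂ),
      (∀ e, OmF S (Fprod D h2 dl e) (θ e)) ∧ η = ∑ e, θ e ∧
      ∀ L : AddSubgroup ℂ, (∀ γ ∈ GY S D h2 dl, period η γ ∈ L) →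
        ∀ e, ∀ γ ∈ GY S D h2 dl, 8 * period (θ e) γ ∈ L := by
  choose g hg using O2surj h
  have hterm : ∀ e s, IsHol (((O2sg e s : ℤ) : ℂ) • slash η (g s)) := fun e s =>
    O2hol_smul _ (IsHol.slash hη.1 _)
  have hθhol : ∀ e, IsHol ((8 : ℂ)⁻¹ • ∑ s, ((O2sg e s : ℤ) : ℂ) • slash η (g s)) := fun e =>
    O2hol_smul _ (O2hol_sum _ _ fun s _ => hterm e s)
  -- transformation
  have htr : ∀ e (γ : SL(2, ℝ)) s', O2SV S D h2 dl γ s' →
      slash ((8 : ℂ)⁻¹ • ∑ s, ((O2sg e s : ℤ) : ℂ) • slash η (g s)) γ =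
        ((O2sg e s' : ℤ) : ℂ) • ((8 : ℂ)⁻¹ • ∑ s, ((O2sg e s : ℤ) : ℂ) • slash η (g s)) := by
    intro e γ s' hγ
    rw [O2slash_smul, O2slash_sum, smul_comm ((O2sg e s' : ℤ) : ℂ) ((8 : ℂ)⁻¹)]
    congr 1
    rw [Finset.smul_sum]
    refine Fintype.sum_equiv (Equiv.addRight s') _ _ fun s => ?_
    rw [Equiv.coe_addRight, O2slash_smul, slash_mul, O2slash_eq hη ((hg s).mul hγ) (hg (s + s')),
      smul_smul]
    congr 1
    rw [O2sg_add]
    have h1 := O2sg_sq e s'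
    have h2 : O2sg e s = O2sg e s' * (O2sg e s * O2sg e s') := by
      calc O2sg e s = O2sg e s * (O2sg e s' * O2sg e s') := by rw [h1, mul_one]
        _ = _ := by ring
    exact_mod_cast h2
  refine ⟨fun e => (8 : ℂ)⁻¹ • ∑ s, ((O2sg e s : ℤ) : ℂ) • slash η (g s), ?_, ?_, ?_⟩
  · intro e
    refine ⟨hθhol e, fun γ hγ => ?_⟩
    obtain ⟨s', hs'⟩ := O2exists h hγ
    have k1 := O2actF hs' e
    have k2 := htr e γ s' hs'
    have hF0 : Fprod D h2 dl e ≠ 0 := by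
      obtain ⟨n1, _, n2, n3⟩ := h.ne_zero
      unfold Fprod
      exact mul_ne_zero (mul_ne_zero (pow_ne_zero _ n1) (pow_ne_zero _ n2)) (pow_ne_zero _ n3)
    have h20 : (2 : Mer) ≠ 0 := by
      have h3 : (2 : Mer) = cst 2 := by rw [map_ofNat]
      rw [h3]
      intro h4
      have h5 : (2 : ℂ) = 0 := cst_injective (by rw [h4, map_zero])
      exact two_ne_zero h5
    rcases O2sg_cases e s' with hc | hc
    · rw [hc] at k1 k2
      rw [Int.cast_one, one_mul] at k1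
      rw [Int.cast_one, one_smul] at k2
      refine ⟨fun _ => k2, fun h3 => ?_⟩
      exfalso
      rw [k1] at h3
      have h4 : (2 : Mer) * Fprod D h2 dl e = 0 := by
        rw [two_mul]
        nth_rewrite 2 [h3]
        ring
      exact mul_ne_zero h20 hF0 h4
    · rw [hc] at k1 k2
      rw [Int.cast_neg, Int.cast_one, neg_mul, one_mul] at k1
      rw [Int.cast_neg, Int.cast_one, _root_.neg_smul, one_smul] at k2
      refine ⟨fun h3 => ?_, fun _ => k2⟩
      exfalso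
      rw [k1] at h3
      have h4 : (2 : Mer) * Fprod D h2 dl e = 0 := by
        rw [two_mul]
        nth_rewrite 2 [← h3]
        ring
      exact mul_ne_zero h20 hF0 h4
  · have h1 : ∑ e, (8 : ℂ)⁻¹ • ∑ s, ((O2sg e s : ℤ) : ℂ) • slash η (g s) =
        (8 : ℂ)⁻¹ • ∑ s, (((∑ e, O2sg e s : ℤ)) : ℂ) • slash η (g s) := by
      rw [← Finset.smul_sum, Finset.sum_comm]
      congr 1
      refine Finset.sum_congr rfl fun s _ => ?_
      rw [Int.cast_sum, Finset.sum_smul]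
    rw [h1]
    have k2 : ∑ s, (((∑ e, O2sg e s : ℤ)) : ℂ) • slash η (g s) = (8 : ℂ) • η := by
      rw [Finset.sum_eq_single 0]
      · rw [O2sg_sum, if_pos rfl, O2slash_id hη (hg 0).mem]
        norm_num
      · intro s _ hs
        rw [O2sg_sum, if_neg hs, Int.cast_zero, zero_smul]
      · intro h'
        exact absurd (Finset.mem_univ _) h'
    rw [k2, smul_smul]
    norm_num
  · intro L hL e γ hγ
    show 8 * period ((8 : ℂ)⁻¹ • ∑ s, ((O2sg e s : ℤ) : ℂ) • slash η (g s)) γ ∈ L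
    rw [period_smul, ← mul_assoc, mul_inv_cancel₀ (by norm_num), one_mul,
      O2period_sum _ _ fun s _ => hterm e s]
    refine L.sum_mem fun s _ => ?_
    rw [period_smul, period_slash hη (h.conj_mem_GY (hg s).1 hγ)]
    have h1 := hL _ (h.conj_mem_GY (hg s).1 hγ)
    rcases O2sg_cases e s with hc | hc
    · rw [hc]
      simpa using h1
    · rw [hc]
      simpa using L.neg_mem h1

end Pool.Agent.Lib.MP_b9289b_nt
end
end

section

/-!
# O03: differentials transforming by a character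

Let `y ≠ 0` with: `ord y ∈ {0, 1}` where `S = c`, `c` special; `ord y = 0` at the regular points;
`ord y = -n` at the poles of `S`; and let `η` transform as `y` under `G6 = fixer {S}`.
`H = η y / S'` is `G6`-invariant (`actS_der`, `mem_Omega_iff`-like computation for `slash`).
Orders (`ord_der_sub_cst`: `ord S' = 1` where `ord (S - c) = 2`, `0` where `ord (S - c) = 1`, `-2` where
`ord S = -1`):
* `S = c` special, `ord y = 1`: `ord H ≥ 0 + 1 - 1`;
* `S = c` special, `ord y = 0`: the rotation `γ` (`IsS.rot`) fixes `y` (`IsRot.odd` excludes the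
  sign `-1`), so `η | γ = η` and `ord η ≥ 1` (`IsRot_pos_of_form`), `ord H ≥ 1 + 0 - 1`;
* regular: `ord H ≥ 0`;
* pole of `S`: `ord H ≥ -n + 2`.
So (`constant_of_invariant`, `IsS.cocompact`): `n ≤ 1`: `H` is constant and vanishes at a pole of `S`
(`exists_pole`), so `η = 0`; `n = 2`: `H` is constant.
`n = 3`: `H` has at most simple poles, at the poles of `S`.  Let `ν` be as in `IsS.rot'`
(`actS ν S = -S`); `ν² ∈ G6` and `ν` normalises `G6`, so `H₊ = (H + ν H)/2`, `H₋ = (H - ν H)/2` are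
`G6`-invariant and `ν H₊ = H₊`, `ν H₋ = -H₋`, for every such `ν`
(two of them differ by an element of `G6`).  At a pole `z` of `S` take the rotation `ν` about `z`:
`ord H₊` is even by `IsRot.even`, so `≥ 0`: `H₊` is constant.  `H₋/S` is invariant under `G6` and all
`ν`; at a pole of `S` its order is `≥ 0`; at a zero of `S` (`ord S = 1`) its order is `≥ -1` and even by
`IsRot.even`, so `≥ 0`; hence `H₋/S` is constant.  So `H = α + β S`.
-/

open UpperHalfPlane Filter Topology MatrixGroups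
open scoped ContDiff ComplexConjugate

noncomputable section

namespace Pool.Agent.Lib.MP_b9289b_nt

open Mer

variable {t : ℝ} {S D : Mer}

/-- The conditions on `y`. -/
structure YCond (t : ℝ) (S y : Mer) (n : ℤ) : Prop where
  sgn : ∀ γ : SL(2, ℝ), actS γ S = S → Sgn γ y
  spec : ∀ z, ∀ c ∈ specS t, ord z (S - cst c) = 2 → ord z y = 0 ∨ ord z y = 1
  reg : ∀ z, ∀ c, c ∉ specS t → ord z (S - cst c) = 1 → ord z y = 0
  pole : ∀ z, ord z S = -1 → ord z y = ((-n : ℤ) : WithTop ℤ)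

private lemma O3_eval (η : ℍ → ℂ) (γ : SL(2, ℝ)) (z : ℍ) :
    η (γ • z) = denom (γ : GL (Fin 2) ℝ) z ^ 2 * slash η γ z := by
  unfold slash
  rw [mul_div_cancel₀]
  exact pow_ne_zero 2 (denom_ne_zero _ z)

private lemma O3_act_pos {η : ℍ → ℂ} (hη : IsHol η) {γ : SL(2, ℝ)} (h : slash η γ = η) :
    actS γ (Mer.mk η hη.isMero) = jac γ * Mer.mk η hη.isMero := by
  rw [actS_mk]
  unfold jac
  rw [mk_mul, mk_eq_mk]
  refine Eventually.of_forall fun z => ?_
  rw [O3_eval η γ z, h]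

private lemma O3_act_neg {η : ℍ → ℂ} (hη : IsHol η) {γ : SL(2, ℝ)} (h : slash η γ = -η) :
    actS γ (Mer.mk η hη.isMero) = -(jac γ * Mer.mk η hη.isMero) := by
  rw [actS_mk]
  unfold jac
  rw [mk_mul, mk_neg, mk_eq_mk]
  refine Eventually.of_forall fun z => ?_
  rw [O3_eval η γ z, h, Pi.neg_apply, mul_neg]

lemma YCond.invariant {y : Mer} {n : ℤ} (hy : YCond t S y n) {η : ℍ → ℂ}
    (hη : OmF S y η) : ∀ γ : SL(2, ℝ), actS γ S = S →
      actS γ (Mer.mk η hη.1.isMero * y / der S) = Mer.mk η hη.1.isMero * y / der S := by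
  intro γ hγ
  have hder : actS γ (der S) = jac γ * der S := by rw [actS_der, hγ]
  rw [map_div₀, map_mul, hder]
  rcases hy.sgn γ hγ with h1 | h1
  · rw [h1, O3_act_pos hη.1 ((hη.2 γ hγ).1 h1), mul_assoc, mul_div_mul_left _ _ (jac_ne_zero γ)]
  · rw [h1, O3_act_neg hη.1 ((hη.2 γ hγ).2 h1), neg_mul_neg, mul_assoc,
      mul_div_mul_left _ _ (jac_ne_zero γ)]

/-- orders of the quotient -/
private lemma O3_ord {W y E : Mer} {z : ℍ} {a b c : ℤ} (hW : ((a : ℤ) : WithTop ℤ) ≤ ord z W)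
    (hy : ord z y = ((b : ℤ) : WithTop ℤ)) (hE : ord z E = ((c : ℤ) : WithTop ℤ)) :
    ((a + b - c : ℤ) : WithTop ℤ) ≤ ord z (W * y / E) := by
  by_cases hW0 : W = 0
  · rw [hW0, zero_mul, zero_div, ord_zero]
    exact le_top
  · obtain ⟨m, hm⟩ := exists_ord (z := z) hW0
    rw [ord_div, ord_mul, hm, hy, hE]
    rw [hm] at hW
    have h1 : a ≤ m := by exact_mod_cast hW
    have h2 : a + b - c ≤ m + b - c := by linarith
    have h3 : (((m : ℤ) : WithTop ℤ) + ((b : ℤ) : WithTop ℤ) - ((c : ℤ) : WithTop ℤ)) =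
        ((m + b - c : ℤ) : WithTop ℤ) := by
      rfl
    rw [h3]
    exact_mod_cast h2

lemma YCond.ord_nonneg (h : IsS t S D) {y : Mer} {n : ℤ} (hy : YCond t S y n) {η : ℍ → ℂ}
    (hη : OmF S y η) {z : ℍ} (hz : ord z S ≠ -1) :
    0 ≤ ord z (Mer.mk η hη.1.isMero * y / der S) := by
  have hW := ord_mk_nonneg hη.1 z
  have hW0 : ((0 : ℤ) : WithTop ℤ) ≤ ord z (Mer.mk η hη.1.isMero) := hW
  rcases h.ram z with h1 | ⟨c, hc, h1⟩ | ⟨c, hc, h1⟩
  · exact absurd h1 hz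
  · have hd : ord z (der S) = ((1 : ℤ) : WithTop ℤ) :=
      ord_der_sub_cst (n := 2) (c := c) h1 (by norm_num)
    rcases hy.spec z c hc h1 with h2 | h2
    · obtain ⟨γ, hγ, hrot⟩ := h.rot z c hc h1
      have h3 : actS γ y = y := by
        rcases hy.sgn γ hγ with h4 | h4
        · exact h4
        · exfalso
          have h5 := hrot.odd (n := 0) h2 h4
          rw [Int.odd_iff] at h5
          norm_num at h5
      have h6 := IsRot_pos_of_form hrot.1 hrot.2 hW (O3_act_pos hη.1 ((hη.2 γ hγ).1 h3))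
      have h7 : ((1 : ℤ) : WithTop ℤ) ≤ ord z (Mer.mk η hη.1.isMero) := h6
      have h8 := O3_ord (b := 0) h7 h2 hd
      exact h8
    · have h8 := O3_ord (b := 1) hW0 h2 hd
      exact h8
  · have hd : ord z (der S) = ((0 : ℤ) : WithTop ℤ) :=
      ord_der_sub_cst (n := 1) (c := c) h1 (by norm_num)
    have h2 := hy.reg z c hc h1
    have h8 := O3_ord (b := 0) hW0 h2 hd
    exact h8

private lemma O3_der_pole {z : ℍ} (hz : ord z S = -1) : ord z (der S) = ((-2 : ℤ) : WithTop ℤ) :=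
  ord_der (n := -1) hz (by norm_num)

lemma YCond.ord_pole (h : IsS t S D) {y : Mer} {n : ℤ} (hy : YCond t S y n) {η : ℍ → ℂ}
    (hη : OmF S y η) {z : ℍ} (hz : ord z S = -1) :
    ((2 - n : ℤ) : WithTop ℤ) ≤ ord z (Mer.mk η hη.1.isMero * y / der S) := by
  have hW : ((0 : ℤ) : WithTop ℤ) ≤ ord z (Mer.mk η hη.1.isMero) := ord_mk_nonneg hη.1 z
  have h1 := O3_ord hW (hy.pole z hz) (O3_der_pole hz)
  have h2 : (0 + -n - -2 : ℤ) = 2 - n := by ring
  rw [h2] at h1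
  exact h1

/-- `S` has a pole, of order one. -/
private lemma O3_exists_pole (h : IsS t S D) : ∃ z, ord z S = -1 := by
  obtain ⟨z, hz⟩ := exists_pole h.cocompact (F := S) (by
    rw [mem_Kf']
    intro γ hγ
    exact hγ S (Set.mem_singleton S)) h.S_ne_cst
  refine ⟨z, ?_⟩
  rcases h.ram z with h1 | ⟨c, _, h1⟩ | ⟨c, _, h1⟩
  · exact h1
  · exfalso
    have h2 : HasVal z S c := by
      unfold HasVal
      rw [h1]
      exact two_pos
    exact absurd h2.ord_nonneg (not_le_of_gt hz)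
  · exfalso
    have h2 : HasVal z S c := by
      unfold HasVal
      rw [h1]
      exact one_pos
    exact absurd h2.ord_nonneg (not_le_of_gt hz)

private lemma O3_ne (h : IsS t S D) {y : Mer} {n : ℤ} (hy : YCond t S y n) :
    y ≠ 0 ∧ der S ≠ 0 := by
  obtain ⟨z, hz⟩ := O3_exists_pole h
  constructor
  · intro h0
    have h1 := hy.pole z hz
    rw [h0, ord_zero] at h1
    exact WithTop.top_ne_coe h1
  · intro h0
    have h1 := O3_der_pole hz
    rw [h0, ord_zero] at h1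
    exact WithTop.top_ne_coe h1

/-- The quotient is constant if `n ≤ 2`. -/
private lemma O3_const (h : IsS t S D) {y : Mer} {n : ℤ} (hn : n ≤ 2) (hy : YCond t S y n)
    {η : ℍ → ℂ} (hη : OmF S y η) : ∃ c : ℂ, Mer.mk η hη.1.isMero * y / der S = cst c := by
  refine constant_of_invariant h.cocompact (fun z => ?_) (fun γ hγ => Or.inl ?_)
  · by_cases hz : ord z S = -1
    · refine le_trans ?_ (hy.ord_pole h hη hz)
      have h1 : (0 : ℤ) ≤ 2 - n := by linarith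
      exact_mod_cast h1
    · exact hy.ord_nonneg h hη hz
  · exact hy.invariant hη γ (hγ S (Set.mem_singleton S))

private lemma O3_solve {W y E X : Mer} (hy : y ≠ 0) (hE : E ≠ 0) (h : W * y / E = X) :
    W = X * (E / y) := by
  rw [← h]
  field_simp

theorem YCond.eq_zero (h : IsS t S D) {y : Mer} {n : ℤ} (hn : n ≤ 1) (hy : YCond t S y n)
    {η : ℍ → ℂ} (hη : OmF S y η) : η = 0 := by
  obtain ⟨c, hc⟩ := O3_const h (by linarith) hy hη
  obtain ⟨hy0, hd0⟩ := O3_ne h hy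
  obtain ⟨z, hz⟩ := O3_exists_pole h
  have h1 := hy.ord_pole h hη hz
  have hc0 : c = 0 := by
    by_contra hne
    rw [hc, ord_cst z hne] at h1
    have h2 : (2 - n : ℤ) ≤ 0 := by exact_mod_cast h1
    linarith
  have h3 := O3_solve hy0 hd0 hc
  rw [hc0, map_zero, zero_mul] at h3
  have hz' : IsHol (0 : ℍ → ℂ) := fun z => differentiableAt_const 0
  exact hol_ext hη.1 hz' h3

theorem YCond.eq_cst (h : IsS t S D) {y : Mer} (hy : YCond t S y 2)
    {η : ℍ → ℂ} (hη : OmF S y η) : ∃ c : ℂ, Mer.mk η hη.1.isMero = cst c * (der S / y) := by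
  obtain ⟨c, hc⟩ := O3_const h le_rfl hy hη
  obtain ⟨hy0, hd0⟩ := O3_ne h hy
  exact ⟨c, O3_solve hy0 hd0 hc⟩

private lemma O3_inv_neg {ν : SL(2, ℝ)} (hν : actS ν S = -S) : actS ν⁻¹ S = -S := by
  have h1 := actS_mul ν ν⁻¹ S
  rw [mul_inv_cancel, actS_one, hν, map_neg] at h1
  exact (neg_eq_iff_eq_neg.2 h1).symm

private lemma O3_two : (2 : Mer) ≠ 0 := by
  have h3 : (2 : Mer) = cst 2 := by rw [map_ofNat]
  rw [h3]
  intro h4
  have h5 : (2 : ℂ) = 0 := cst_injective (by rw [h4, map_zero])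
  exact two_ne_zero h5

private lemma O3_le_half {z : ℍ} {A B : Mer} {m : WithTop ℤ} (hA : m ≤ ord z A)
    (hB : m ≤ ord z B) : m ≤ ord z (cst (1 / 2) * (A + B)) := by
  rw [ord_cst_mul z (A + B) (by norm_num)]
  exact le_trans (le_min hA hB) le_ord_add

private lemma O3_ge_of_even {z : ℍ} {A : Mer} {γ : SL(2, ℝ)} (hγ : IsRot γ z)
    (h1 : actS γ A = A) (h2 : ((-1 : ℤ) : WithTop ℤ) ≤ ord z A) : 0 ≤ ord z A := by
  by_cases hA : A = 0
  · rw [hA, ord_zero]
    exact le_top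
  · obtain ⟨m, hm⟩ := exists_ord (z := z) hA
    rw [hm] at h2 ⊢
    have h3 : -1 ≤ m := by exact_mod_cast h2
    have h4 := hγ.even hm h1
    have h5 : 0 ≤ m := by
      obtain ⟨k, hk⟩ := h4
      omega
    exact_mod_cast h5

theorem YCond.eq_lin (h : IsS t S D) {y : Mer} (hy : YCond t S y 3)
    {η : ℍ → ℂ} (hη : OmF S y η) :
    ∃ α β : ℂ, Mer.mk η hη.1.isMero = cst α * (der S / y) + cst β * (S * der S / y) := by
  obtain ⟨hy0, hd0⟩ := O3_ne h hy
  obtain ⟨z0, hz0⟩ := O3_exists_pole h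
  obtain ⟨ν, hν, _⟩ := h.rot' z0 (Or.inl hz0)
  set H := Mer.mk η hη.1.isMero * y / der S with hH
  have hinv : ∀ γ : SL(2, ℝ), actS γ S = S → actS γ H = H := hy.invariant hη
  -- the image of `H` under any element mapping `S` to `-S`
  set K := actS ν H with hK
  have hKall : ∀ μ : SL(2, ℝ), actS μ S = -S → actS μ H = K := by
    intro μ hμ
    have h1 : actS (μ * ν⁻¹) S = S := by
      rw [actS_mul, hμ, map_neg, O3_inv_neg hν, neg_neg]
    have h2 : μ = (μ * ν⁻¹) * ν := by group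
    rw [h2, actS_mul, hinv _ h1]
  have hKK : ∀ μ : SL(2, ℝ), actS μ S = -S → actS μ K = H := by
    intro μ hμ
    have h1 : actS (ν * μ) S = S := by
      rw [actS_mul, hν, map_neg, hμ, neg_neg]
    rw [hK, ← actS_mul]
    exact hinv _ h1
  have hKinv : ∀ γ : SL(2, ℝ), actS γ S = S → actS γ K = K := by
    intro γ hγ
    have h1 : actS (ν * γ) S = -S := by
      rw [actS_mul, hν, map_neg, hγ]
    have h2 := hKall _ h1
    rw [actS_mul] at h2
    exact h2
  -- orders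
  have hSν : ∀ z, ord z S = -1 ↔ ord (ν • z) S = -1 := by
    intro z
    rw [← ord_actS, hν, ord_neg]
  have hHp : ∀ z, ord z S = -1 → ((-1 : ℤ) : WithTop ℤ) ≤ ord z H := by
    intro z hz
    have h1 := hy.ord_pole h hη hz
    have h2 : (2 - 3 : ℤ) = -1 := by norm_num
    rw [h2] at h1
    exact h1
  have hHn : ∀ z, ord z S ≠ -1 → 0 ≤ ord z H := fun z hz => hy.ord_nonneg h hη hz
  have hKp : ∀ z, ord z S = -1 → ((-1 : ℤ) : WithTop ℤ) ≤ ord z K := by
    intro z hz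
    rw [hK, ord_actS]
    exact hHp _ ((hSν z).1 hz)
  have hKn : ∀ z, ord z S ≠ -1 → 0 ≤ ord z K := by
    intro z hz
    rw [hK, ord_actS]
    exact hHn _ (fun h' => hz ((hSν z).2 h'))
  -- the even part
  set P := cst (1 / 2) * (H + K) with hP
  set M := cst (1 / 2) * (H + -K) with hM
  have hPμ : ∀ μ : SL(2, ℝ), actS μ S = -S → actS μ P = P := by
    intro μ hμ
    rw [hP, map_mul, map_add, actS_cst, hKall μ hμ, hKK μ hμ, add_comm]
  have hMμ : ∀ μ : SL(2, ℝ), actS μ S = -S → actS μ M = -M := by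
    intro μ hμ
    rw [hM, map_mul, map_add, map_neg, actS_cst, hKall μ hμ, hKK μ hμ]
    ring
  have hPinv : ∀ γ : SL(2, ℝ), actS γ S = S → actS γ P = P := by
    intro γ hγ
    rw [hP, map_mul, map_add, actS_cst, hinv γ hγ, hKinv γ hγ]
  have hMinv : ∀ γ : SL(2, ℝ), actS γ S = S → actS γ M = M := by
    intro γ hγ
    rw [hM, map_mul, map_add, map_neg, actS_cst, hinv γ hγ, hKinv γ hγ]
  have hPconst : ∃ α, P = cst α := by
    refine constant_of_invariant h.cocompact (fun z => ?_) (fun γ hγ => Or.inl ?_)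
    · by_cases hz : ord z S = -1
      · obtain ⟨μ, hμ, hrot⟩ := h.rot' z (Or.inl hz)
        exact O3_ge_of_even hrot (hPμ μ hμ) (O3_le_half (hHp z hz) (hKp z hz))
      · exact O3_le_half (hHn z hz) (hKn z hz)
    · exact hPinv γ (hγ S (Set.mem_singleton S))
  have hS0 : S ≠ 0 := by
    have := h.S_ne_cst 0
    rwa [map_zero] at this
  have hMconst : ∃ β, M / S = cst β := by
    refine constant_of_invariant h.cocompact (fun z => ?_) (fun γ hγ => Or.inl ?_)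
    · by_cases hM0 : M = 0
      · rw [hM0, zero_div, ord_zero]
        exact le_top
      obtain ⟨m, hm⟩ := exists_ord (z := z) hM0
      by_cases hz : ord z S = -1
      · have h1 : ((-1 : ℤ) : WithTop ℤ) ≤ ord z M :=
          O3_le_half (hHp z hz) (by rw [ord_neg]; exact hKp z hz)
        rw [hm] at h1
        have h2 : -1 ≤ m := by exact_mod_cast h1
        rw [ord_div, hm, hz]
        have h3 : (((m : ℤ) : WithTop ℤ) - (-1)) = ((m - (-1) : ℤ) : WithTop ℤ) := rfl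
        rw [h3]
        have h4 : (0 : ℤ) ≤ m - (-1) := by linarith
        exact_mod_cast h4
      · have h1 : (0 : WithTop ℤ) ≤ ord z M :=
          O3_le_half (hHn z hz) (by rw [ord_neg]; exact hKn z hz)
        rw [hm] at h1
        have h2 : 0 ≤ m := by exact_mod_cast h1
        -- the order of `S` is `0` or `1`
        have hcase : ord z S = ((0 : ℤ) : WithTop ℤ) ∨ ord z S = ((1 : ℤ) : WithTop ℤ) := by
          have key : ∀ c, HasVal z S c → c ≠ 0 → ord z S = ((0 : ℤ) : WithTop ℤ) :=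
            fun c hc hc0 => hc.ord_eq_zero hc0
          rcases h.ram z with h3 | ⟨c, hc, h3⟩ | ⟨c, hc, h3⟩
          · exact absurd h3 hz
          · left
            refine key c (by unfold HasVal; rw [h3]; exact two_pos) ?_
            have ha := (aa_pos h.ht).ne'
            have hb := (bb_pos h.ht).ne'
            simp only [specS, Set.mem_insert_iff, Set.mem_singleton_iff] at hc
            rcases hc with rfl | rfl | rfl | rfl | rfl | rfl
            · exact one_ne_zero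
            · exact neg_ne_zero.2 one_ne_zero
            · exact_mod_cast ha
            · exact neg_ne_zero.2 (by exact_mod_cast ha)
            · exact mul_ne_zero Complex.I_ne_zero (by exact_mod_cast hb)
            · exact neg_ne_zero.2 (mul_ne_zero Complex.I_ne_zero (by exact_mod_cast hb))
          · by_cases hc0 : c = 0
            · right
              rw [hc0, map_zero, sub_zero] at h3
              exact h3
            · left
              exact key c (by unfold HasVal; rw [h3]; exact one_pos) hc0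
        rcases hcase with h3 | h3
        · rw [ord_div, hm, h3]
          have h4 : (((m : ℤ) : WithTop ℤ) - ((0 : ℤ) : WithTop ℤ)) =
            ((m - 0 : ℤ) : WithTop ℤ) := rfl
          rw [h4, sub_zero]
          exact_mod_cast h2
        · obtain ⟨μ, hμ, hrot⟩ := h.rot' z (Or.inr h3)
          refine O3_ge_of_even hrot ?_ ?_
          · rw [map_div₀, hMμ μ hμ, hμ, neg_div_neg_eq]
          · rw [ord_div, hm, h3]
            have h4 : (((m : ℤ) : WithTop ℤ) - ((1 : ℤ) : WithTop ℤ)) =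
              ((m - 1 : ℤ) : WithTop ℤ) := rfl
            rw [h4]
            have h5 : -1 ≤ m - 1 := by linarith
            exact_mod_cast h5
    · have hγ' := hγ S (Set.mem_singleton S)
      rw [map_div₀, hMinv γ hγ', hγ']
  obtain ⟨α, hα⟩ := hPconst
  obtain ⟨β, hβ⟩ := hMconst
  have hM' : M = cst β * S := by
    rw [← hβ, div_mul_cancel₀ _ hS0]
  have hsum : H = cst α + cst β * S := by
    rw [← hα, ← hM', hP, hM]
    have h1 : (cst (1 / 2) : Mer) * 2 = 1 := by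
      have h2 : (2 : Mer) = cst 2 := by rw [map_ofNat]
      rw [h2, ← map_mul]
      norm_num
    calc H = (cst (1 / 2) * 2) * H := by rw [h1, one_mul]
      _ = _ := by ring
  refine ⟨α, β, ?_⟩
  rw [O3_solve hy0 hd0 hsum]
  ring

end Pool.Agent.Lib.MP_b9289b_nt
end
end

section

/-!
# O04: the space of differentials of `Y`

The eight functions `y_e` for `e = (a,b,c)` (`F_e = D^a h2^b dl^c`):
`1` (n=0), `dl` (n=1), `h2` (n=1), `h2 dl/(S+a)` (n=1), `D(S²-1)` (n=2),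
`D(S²-1) dl` (n=3), `D(S²-1) h2/(S-ib)` (n=2), `D(S²-1) h2 dl/((S-ib)(S+a))` (n=2): all orders from
the tables of `G04`.  Every element fixing `S` acts on `y_e` and `F_e` by the same sign.
So `θ e` (from `decomp_forms`) is zero in the first four cases, and by `IsData.der_xs` a multiple of
`w 0`, `w 3`, `w 4`, or a combination of `w 2`, `w 1` (for `D dl`).

Periods: for the three one dimensional cases: immediately from `decomp_forms` (`8 c_j per(w_j) ∈ L`).
For `θ = θ_{D dl} = α w 2 + β w 1`: let `G' = {γ fixing S and D dl} ⊇ GY`; `γ² ∈ GY` for `γ ∈ G'`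
(`γ` acts on `D, h2, dl` by signs), and `θ ∈ Omega G'`, so the period of `8 θ * 2` over any
`γ ∈ G'` is the period of `8 θ` over `γ²`, in `L`.
`ν` (`IsData.exists_nu`) normalises `G'`, so all periods of `16 (θ | ν)` over `G'` are in `L`
(`period_slash` for the group `G'`).  `w 1 | ν = ε w 1`, `w 2 | ν = - ε w 2` with `ε = ±1` (`S S'` is
mapped to itself, `S'` to `-S'`, `D(S²-1) dl` to `± D(S²-1) dl`), so
`16 (θ ± θ|ν) = 32 β w 1` resp. `32 α w 2`.
-/

open UpperHalfPlane Filter Topology MatrixGroups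
open scoped ContDiff ComplexConjugate

noncomputable section

namespace Pool.Agent.Lib.MP_b9289b_nt

open Mer

variable {t : ℝ} {S D h0 h2 dl : Mer}

/-- all the orders at `z` -/
private def Ord6 (t : ℝ) (S D h2 dl : Mer) (z : ℍ) (d m l q a b : WithTop ℤ) : Prop :=
  ord z D = d ∧ ord z h2 = m ∧ ord z dl = l ∧ ord z (S ^ 2 - 1) = q ∧
    ord z (S + cst (aa t)) = a ∧ ord z (S - cst (Complex.I * bb t)) = b

private lemma o04_sq (S : Mer) : S ^ 2 - 1 = (S - cst 1) * (S - cst (-1)) := by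
  rw [map_neg, map_one]
  ring

private lemma o04_add (S : Mer) (c : ℂ) : S + cst c = S - cst (-c) := by
  rw [map_neg, sub_neg_eq_add]

private lemma o04_val {z : ℍ} {c : ℂ} (h1 : HasVal z S c) {d : ℂ} (hd : c ≠ d) :
    ord z (S - cst d) = 0 := h1.ord_sub hd

private lemma o04_infty (h : IsData t S D h0 h2 dl) {z : ℍ} (hz : ord z S = -1) :
    Ord6 t S D h2 dl z 0 (-1) (-1) (-2) (-1) (-1) := by
  obtain ⟨h1, -, h3, h4⟩ := h.ord_infty hz
  have ha := one_lt_aa h.ht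
  have hb := bb_pos h.ht
  have h5 : ∀ d : ℂ, d ≠ 0 → ord z (S - cst d) = -1 := by
    intro d hd
    rw [ord_sub_of_lt, hz]
    rw [hz, Mer.ord_cst _ hd]
    decide
  refine ⟨h1, h3, h4, ?_, ?_, ?_⟩
  · rw [o04_sq, ord_mul, h5 1 one_ne_zero, h5 (-1) (by norm_num)]
    rfl
  · rw [o04_add]
    refine h5 _ (neg_ne_zero.2 ?_)
    exact_mod_cast (by linarith : aa t ≠ 0)
  · refine h5 _ (mul_ne_zero Complex.I_ne_zero ?_)
    exact_mod_cast hb.ne'

private lemma o04_spec (h : IsData t S D h0 h2 dl) {z : ℍ} {c : ℂ} (hc : c ∈ specS t)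
    (hz : ord z (S - cst c) = 2) :
    Ord6 t S D h2 dl z (-1) 0 0 2 0 0 ∨ Ord6 t S D h2 dl z 0 0 1 0 0 0 ∨
    Ord6 t S D h2 dl z 0 1 1 0 2 0 ∨ Ord6 t S D h2 dl z 1 1 0 0 0 2 ∨
    Ord6 t S D h2 dl z 1 0 0 0 0 0 := by
  have ha := one_lt_aa h.ht
  have hb := bb_pos h.ht
  have hv : HasVal z S c := by
    unfold HasVal
    rw [hz]
    decide
  simp only [specS, Set.mem_insert_iff, Set.mem_singleton_iff] at hc
  have e1 : (1 : ℂ) ≠ -1 := by norm_num
  have e2 : ∀ x : ℝ, 1 < |x| → (x : ℂ) ≠ 1 ∧ (x : ℂ) ≠ -1 := by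
    intro x hx
    constructor
    · intro h1
      have h2 : x = 1 := by exact_mod_cast h1
      rw [h2, abs_one] at hx
      exact lt_irrefl _ hx
    · intro h1
      have h2 : x = -1 := by exact_mod_cast h1
      rw [h2, abs_neg, abs_one] at hx
      exact lt_irrefl _ hx
  have e3 : ∀ x : ℝ, ∀ y : ℝ, y ≠ 0 → Complex.I * (y : ℂ) ≠ (x : ℂ) := by
    intro x y hy h1
    have h2 := congrArg Complex.im h1
    simp at h2
    exact hy h2
  have e5 : (aa t : ℂ) ≠ -(aa t : ℂ) := by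
    intro h1
    have h2 : aa t = -aa t := by exact_mod_cast h1
    linarith
  have e6 : Complex.I * (bb t : ℂ) ≠ -(Complex.I * (bb t : ℂ)) := by
    intro h1
    have h2 := congrArg Complex.im h1
    simp at h2
    linarith
  have e7 : -(Complex.I * (bb t : ℂ)) = Complex.I * ((-bb t : ℝ) : ℂ) := by
    push_cast
    ring
  have e8 : -(aa t : ℂ) = ((-aa t : ℝ) : ℂ) := by push_cast; rfl
  have e9 : (1 : ℂ) = ((1 : ℝ) : ℂ) := by norm_num
  have e10 : (-1 : ℂ) = ((-1 : ℝ) : ℂ) := by norm_num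
  have fa := e2 (aa t) (by rw [abs_of_pos (by linarith)]; exact ha)
  have fa' := e2 (-aa t) (by rw [abs_neg, abs_of_pos (by linarith)]; exact ha)
  rw [← e8] at fa'
  have gb : ∀ x : ℝ, Complex.I * (bb t : ℂ) ≠ (x : ℂ) := fun x => e3 x _ hb.ne'
  have gb' : ∀ x : ℝ, -(Complex.I * (bb t : ℂ)) ≠ (x : ℂ) := by
    intro x
    rw [e7]
    exact e3 x _ (by linarith)
  rcases hc with rfl | rfl | rfl | rfl | rfl | rfl
  · left
    obtain ⟨h1, -, h3, h4⟩ := h.ord_one hz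
    refine ⟨h1, h3, h4, ?_, ?_, ?_⟩
    · rw [o04_sq, ord_mul, hz, o04_val hv e1]
      rfl
    · rw [o04_add]
      exact o04_val hv fa'.1.symm
    · refine o04_val hv ?_
      have h5 := gb 1
      rw [← e9] at h5
      exact h5.symm
  · left
    obtain ⟨h1, -, h3, h4⟩ := h.ord_neg_one hz
    refine ⟨h1, h3, h4, ?_, ?_, ?_⟩
    · rw [o04_sq, ord_mul, hz, o04_val hv e1.symm]
      rfl
    · rw [o04_add]
      exact o04_val hv fa'.2.symm
    · refine o04_val hv ?_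
      have h5 := gb (-1)
      rw [← e10] at h5
      exact h5.symm
  · right; left
    obtain ⟨h1, -, h3, h4⟩ := h.ord_a hz
    refine ⟨h1, h3, h4, ?_, ?_, ?_⟩
    · rw [o04_sq, ord_mul, o04_val hv fa.1, o04_val hv fa.2]
      rfl
    · rw [o04_add]
      exact o04_val hv e5
    · exact o04_val hv (gb _).symm
  · right; right; left
    obtain ⟨h1, -, h3, h4⟩ := h.ord_neg_a hz
    refine ⟨h1, h3, h4, ?_, ?_, ?_⟩
    · rw [o04_sq, ord_mul, o04_val hv fa'.1, o04_val hv fa'.2]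
      rfl
    · rw [o04_add]
      exact hz
    · refine o04_val hv ?_
      have h5 := gb (-aa t)
      rw [← e8] at h5
      exact h5.symm
  · right; right; right; left
    obtain ⟨h1, -, h3, h4⟩ := h.ord_ib hz
    have h5 := gb 1
    have h6 := gb (-1)
    have h7 := gb (-aa t)
    rw [← e9] at h5
    rw [← e10] at h6
    rw [← e8] at h7
    refine ⟨h1, h3, h4, ?_, ?_, ?_⟩
    · rw [o04_sq, ord_mul, o04_val hv h5, o04_val hv h6]
      rfl
    · rw [o04_add]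
      exact o04_val hv h7
    · exact hz
  · right; right; right; right
    obtain ⟨h1, -, h3, h4⟩ := h.ord_neg_ib hz
    have h5 := gb' 1
    have h6 := gb' (-1)
    have h7 := gb' (-aa t)
    rw [← e9] at h5
    rw [← e10] at h6
    rw [← e8] at h7
    refine ⟨h1, h3, h4, ?_, ?_, ?_⟩
    · rw [o04_sq, ord_mul, o04_val hv h5, o04_val hv h6]
      rfl
    · rw [o04_add]
      exact o04_val hv h7
    · exact o04_val hv e6.symm

private lemma o04_reg (h : IsData t S D h0 h2 dl) {z : ℍ} {c : ℂ} (hc : c ∉ specS t)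
    (hz : ord z (S - cst c) = 1) : Ord6 t S D h2 dl z 0 0 0 0 0 0 := by
  have hv : HasVal z S c := by
    unfold HasVal
    rw [hz]
    decide
  simp only [specS, Set.mem_insert_iff, Set.mem_singleton_iff, not_or] at hc
  obtain ⟨c1, c2, c3, c4, c5, c6⟩ := hc
  obtain ⟨h1, -, h3, h4⟩ := h.ord_reg (c := c) (by
    simp only [specS, Set.mem_insert_iff, Set.mem_singleton_iff, not_or]
    exact ⟨c1, c2, c3, c4, c5, c6⟩) hz
  refine ⟨h1, h3, h4, ?_, ?_, ?_⟩
  · rw [o04_sq, ord_mul, o04_val hv c1, o04_val hv c2]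
    rfl
  · rw [o04_add]
    exact o04_val hv c4
  · exact o04_val hv c5

private lemma Sgn.mul' {γ : SL(2, ℝ)} {F G : Mer} (hF : Sgn γ F) (hG : Sgn γ G) :
    Sgn γ (F * G) := by
  unfold Sgn
  rw [map_mul]
  rcases hF with hF | hF <;> rcases hG with hG | hG <;> rw [hF, hG]
  · exact Or.inl rfl
  · exact Or.inr (by ring)
  · exact Or.inr (by ring)
  · exact Or.inl (by ring)

private lemma Sgn.div' {γ : SL(2, ℝ)} {F G : Mer} (hF : Sgn γ F) (hG : actS γ G = G) :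
    Sgn γ (F / G) := by
  unfold Sgn
  rw [map_div₀, hG]
  rcases hF with hF | hF <;> rw [hF]
  · exact Or.inl rfl
  · exact Or.inr (neg_div _ _)

private lemma o04_fix {γ : SL(2, ℝ)} (hγ : actS γ S = S) :
    actS γ (S ^ 2 - 1) = S ^ 2 - 1 ∧ (∀ c, actS γ (S + cst c) = S + cst c) ∧
      ∀ c, actS γ (S - cst c) = S - cst c := by
  refine ⟨?_, fun c => ?_, fun c => ?_⟩
  · rw [map_sub, map_pow, hγ, map_one]
  · rw [map_add, hγ, actS_cst]
  · rw [map_sub, hγ, actS_cst]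

/-- The conditions for the eight functions `y_e`. -/
theorem IsData.ycond (h : IsData t S D h0 h2 dl) :
    YCond t S 1 0 ∧ YCond t S dl 1 ∧ YCond t S h2 1 ∧ YCond t S (h2 * dl / (S + cst (aa t))) 1 ∧
    YCond t S (D * (S ^ 2 - 1)) 2 ∧ YCond t S (D * (S ^ 2 - 1) * dl) 3 ∧
    YCond t S (D * (S ^ 2 - 1) * h2 / (S - cst (Complex.I * bb t))) 2 ∧
    YCond t S (D * (S ^ 2 - 1) * (h2 * dl) / ((S - cst (Complex.I * bb t)) * (S + cst (aa t)))) 2 := by
  have key : ∀ (y : Mer) (n : ℤ) (f : WithTop ℤ → WithTop ℤ → WithTop ℤ → WithTop ℤ →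
      WithTop ℤ → WithTop ℤ → WithTop ℤ), (∀ γ : SL(2, ℝ), actS γ S = S → Sgn γ y) →
      (∀ z d m l q a b, Ord6 t S D h2 dl z d m l q a b → ord z y = f d m l q a b) →
      (f (-1) 0 0 2 0 0 = 0 ∨ f (-1) 0 0 2 0 0 = 1) →
      (f 0 0 1 0 0 0 = 0 ∨ f 0 0 1 0 0 0 = 1) → (f 0 1 1 0 2 0 = 0 ∨ f 0 1 1 0 2 0 = 1) →
      (f 1 1 0 0 0 2 = 0 ∨ f 1 1 0 0 0 2 = 1) → (f 1 0 0 0 0 0 = 0 ∨ f 1 0 0 0 0 0 = 1) →
      f 0 0 0 0 0 0 = 0 → f 0 (-1) (-1) (-2) (-1) (-1) = ((-n : ℤ) : WithTop ℤ) →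
      YCond t S y n := by
    intro y n f hs hf f1 f2 f3 f4 f5 f6 f7
    refine ⟨hs, ?_, ?_, ?_⟩
    · intro z c hc hz
      rcases o04_spec h hc hz with h1 | h1 | h1 | h1 | h1
      · rw [hf _ _ _ _ _ _ _ h1]; exact f1
      · rw [hf _ _ _ _ _ _ _ h1]; exact f2
      · rw [hf _ _ _ _ _ _ _ h1]; exact f3
      · rw [hf _ _ _ _ _ _ _ h1]; exact f4
      · rw [hf _ _ _ _ _ _ _ h1]; exact f5
    · intro z c hc hz
      rw [hf _ _ _ _ _ _ _ (o04_reg h hc hz)]
      exact f6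
    · intro z hz
      rw [hf _ _ _ _ _ _ _ (o04_infty h hz)]
      exact f7
  have hD : ∀ γ : SL(2, ℝ), actS γ S = S → Sgn γ D := fun γ hγ => (h.sgn hγ).1
  have h2' : ∀ γ : SL(2, ℝ), actS γ S = S → Sgn γ h2 := fun γ hγ => (h.sgn hγ).2.2.1
  have hl : ∀ γ : SL(2, ℝ), actS γ S = S → Sgn γ dl := fun γ hγ => (h.sgn hγ).2.2.2
  have hq : ∀ γ : SL(2, ℝ), actS γ S = S → Sgn γ (S ^ 2 - 1) :=
    fun γ hγ => Or.inl (o04_fix hγ).1
  refine ⟨?_, ?_, ?_, ?_, ?_, ?_, ?_, ?_⟩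
  · refine key _ _ (fun _ _ _ _ _ _ => 0) (fun γ _ => Or.inl (map_one _))
      (fun z d m l q a b _ => Mer.ord_one z) ?_ ?_ ?_ ?_ ?_ ?_ ?_ <;> decide
  · refine key _ _ (fun _ _ l _ _ _ => l) hl
      (fun z d m l q a b h1 => h1.2.2.1) ?_ ?_ ?_ ?_ ?_ ?_ ?_ <;> decide
  · refine key _ _ (fun _ m _ _ _ _ => m) h2'
      (fun z d m l q a b h1 => h1.2.1) ?_ ?_ ?_ ?_ ?_ ?_ ?_ <;> decide
  · refine key _ _ (fun _ m l _ a _ => m + l - a)
      (fun γ hγ => ((h2' γ hγ).mul' (hl γ hγ)).div' ((o04_fix hγ).2.1 _))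
      (fun z d m l q a b h1 => ?_) ?_ ?_ ?_ ?_ ?_ ?_ ?_
    · rw [ord_div, ord_mul, h1.2.1, h1.2.2.1, h1.2.2.2.2.1]
    all_goals decide
  · refine key _ _ (fun d _ _ q _ _ => d + q)
      (fun γ hγ => (hD γ hγ).mul' (hq γ hγ))
      (fun z d m l q a b h1 => ?_) ?_ ?_ ?_ ?_ ?_ ?_ ?_
    · rw [ord_mul, h1.1, h1.2.2.2.1]
    all_goals decide
  · refine key _ _ (fun d _ l q _ _ => d + q + l)
      (fun γ hγ => ((hD γ hγ).mul' (hq γ hγ)).mul' (hl γ hγ))
      (fun z d m l q a b h1 => ?_) ?_ ?_ ?_ ?_ ?_ ?_ ?_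
    · rw [ord_mul, ord_mul, h1.1, h1.2.2.2.1, h1.2.2.1]
    all_goals decide
  · refine key _ _ (fun d m _ q _ b => d + q + m - b)
      (fun γ hγ => (((hD γ hγ).mul' (hq γ hγ)).mul' (h2' γ hγ)).div' ((o04_fix hγ).2.2 _))
      (fun z d m l q a b h1 => ?_) ?_ ?_ ?_ ?_ ?_ ?_ ?_
    · rw [ord_div, ord_mul, ord_mul, h1.1, h1.2.2.2.1, h1.2.1, h1.2.2.2.2.2]
    all_goals decide
  · refine key _ _ (fun d m l q a b => d + q + (m + l) - (b + a))
      (fun γ hγ => (((hD γ hγ).mul' (hq γ hγ)).mul' ((h2' γ hγ).mul' (hl γ hγ))).div' (by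
        rw [map_mul, (o04_fix hγ).2.2, (o04_fix hγ).2.1]))
      (fun z d m l q a b h1 => ?_) ?_ ?_ ?_ ?_ ?_ ?_ ?_
    · rw [ord_div, ord_mul, ord_mul, ord_mul, ord_mul, h1.1, h1.2.2.2.1, h1.2.1, h1.2.2.1,
        h1.2.2.2.2.1, h1.2.2.2.2.2]
    all_goals decide

/-- The differentials `w_j`. -/
def IsW (t : ℝ) (S D h2 dl : Mer) (w : Fin 5 → (ℍ → ℂ)) : Prop :=
  ∀ j, ∃ hw : IsHol (w j), w j ∈ Omega (GY S D h2 dl) ∧
    mk (w j) hw.isMero = der (xs t S j) / ys t S D h2 dl j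

private lemma o04_OmF {F R : Mer} {θ : ℍ → ℂ} (hθ : OmF S F θ) (hR : R ≠ 0)
    (hRf : ∀ γ : SL(2, ℝ), actS γ S = S → actS γ R = R) : OmF S (F * R) θ := by
  refine ⟨hθ.1, fun γ hγ => ⟨fun h1 => ?_, fun h1 => ?_⟩⟩
  · refine (hθ.2 γ hγ).1 ?_
    rw [map_mul, hRf γ hγ] at h1
    exact mul_right_cancel₀ hR h1
  · refine (hθ.2 γ hγ).2 ?_
    rw [map_mul, hRf γ hγ, ← neg_mul] at h1
    exact mul_right_cancel₀ hR h1

private lemma o04_hol_smul {f : ℍ → ℂ} (hf : IsHol f) (c : ℂ) : IsHol (c • f) :=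
  fun z => (differentiableAt_const c).mul (hf z)

private lemma o04_hol_add {f g : ℍ → ℂ} (hf : IsHol f) (hg : IsHol g) : IsHol (f + g) :=
  fun z => (hf z).add (hg z)

private lemma o04_mk_smul {f : ℍ → ℂ} (hf : IsHol f) (c : ℂ) :
    mk (c • f) (o04_hol_smul hf c).isMero = cst c * mk f hf.isMero := by
  rw [cst_eq, mk_mul, mk_eq_mk]
  exact Eventually.of_forall fun z => rfl

private lemma o04_mk_add {f g : ℍ → ℂ} (hf : IsHol f) (hg : IsHol g) :
    mk (f + g) (o04_hol_add hf hg).isMero = mk f hf.isMero + mk g hg.isMero := by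
  rw [mk_add, mk_eq_mk]
  exact Eventually.of_forall fun z => rfl

private lemma o04_cst_div {a b : ℂ} (hb : b ≠ 0) (X : Mer) :
    cst a * X = cst (a / b) * (cst b * X) := by
  rw [← mul_assoc, ← map_mul, div_mul_cancel₀ _ hb]

private lemma o04_ne (h : IsData t S D h0 h2 dl) : (S ^ 2 - 1 ≠ 0) ∧ (∀ c, S + cst c ≠ 0) ∧
    ∀ c, S - cst c ≠ 0 := by
  have h1 : ∀ c, S - cst c ≠ 0 := fun c hc => h.toIsS.S_ne_cst c (sub_eq_zero.1 hc)
  refine ⟨?_, fun c => ?_, h1⟩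
  · rw [o04_sq]
    exact mul_ne_zero (h1 _) (h1 _)
  · rw [o04_add]
    exact h1 _

/-- Every `η_e` is a combination of the `w_j`. -/
theorem IsData.theta_eq (h : IsData t S D h0 h2 dl) {w : Fin 5 → (ℍ → ℂ)}
    (hw : IsW t S D h2 dl w) {θ : ℍ → ℂ} :
    (OmF S (Fprod D h2 dl (0, 0, 0)) θ → θ = 0) ∧ (OmF S (Fprod D h2 dl (0, 0, 1)) θ → θ = 0) ∧
    (OmF S (Fprod D h2 dl (0, 1, 0)) θ → θ = 0) ∧ (OmF S (Fprod D h2 dl (0, 1, 1)) θ → θ = 0) ∧
    (OmF S (Fprod D h2 dl (1, 0, 0)) θ → ∃ c : ℂ, θ = c • w 0) ∧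
    (OmF S (Fprod D h2 dl (1, 0, 1)) θ → ∃ c c' : ℂ, θ = c • w 1 + c' • w 2) ∧
    (OmF S (Fprod D h2 dl (1, 1, 0)) θ → ∃ c : ℂ, θ = c • w 3) ∧
    (OmF S (Fprod D h2 dl (1, 1, 1)) θ → ∃ c : ℂ, θ = c • w 4) := by
  obtain ⟨y1, y2, y3, y4, y5, y6, y7, y8⟩ := h.ycond
  obtain ⟨hq, ha, hb⟩ := o04_ne h
  obtain ⟨cc, hcc, d0, d1, d2, d3, d4⟩ := h.der_xs
  have F1 : Fprod D h2 dl (0, 0, 0) = 1 := by simp [Fprod]
  have F2 : Fprod D h2 dl (0, 0, 1) = dl := by simp [Fprod]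
  have F3 : Fprod D h2 dl (0, 1, 0) = h2 := by simp [Fprod]
  have F4 : Fprod D h2 dl (0, 1, 1) = h2 * dl := by simp [Fprod]
  have F5 : Fprod D h2 dl (1, 0, 0) = D := by simp [Fprod]
  have F6 : Fprod D h2 dl (1, 0, 1) = D * dl := by simp [Fprod]
  have F7 : Fprod D h2 dl (1, 1, 0) = D * h2 := by simp [Fprod]
  have F8 : Fprod D h2 dl (1, 1, 1) = D * h2 * dl := by simp [Fprod]
  rw [F1, F2, F3, F4, F5, F6, F7, F8]
  have hext : ∀ (j : Fin 5) (a b : ℂ) (X : Mer) (hθ : IsHol θ), b ≠ 0 →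
      Mer.mk θ hθ.isMero = cst a * X → der (xs t S j) / ys t S D h2 dl j = cst b * X →
      θ = (a / b) • w j := by
    intro j a b X hθ hb0 h1 h3
    obtain ⟨hwj, -, hmk⟩ := hw j
    refine hol_ext hθ (o04_hol_smul hwj _) ?_
    rw [h1, o04_mk_smul hwj, hmk, h3]
    exact o04_cst_div hb0 X
  refine ⟨?_, ?_, ?_, ?_, ?_, ?_, ?_, ?_⟩
  · exact fun hθ => y1.eq_zero h.toIsS (by norm_num) hθ
  · exact fun hθ => y2.eq_zero h.toIsS (by norm_num) hθ
  · exact fun hθ => y3.eq_zero h.toIsS (by norm_num) hθ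
  · intro hθ
    refine y4.eq_zero h.toIsS (by norm_num) ?_
    rw [div_eq_mul_inv]
    refine o04_OmF hθ (inv_ne_zero (ha _)) fun γ hγ => ?_
    rw [map_inv₀, (o04_fix hγ).2.1]
  · intro hθ
    obtain ⟨c, hc⟩ := y5.eq_cst h.toIsS (o04_OmF hθ hq fun γ hγ => (o04_fix hγ).1)
    exact ⟨_, hext 0 c (cc 0) _ hθ.1 (hcc 0) hc d0⟩
  · intro hθ
    have h6 : D * dl * (S ^ 2 - 1) = D * (S ^ 2 - 1) * dl := by ring
    have hθ' := o04_OmF hθ hq fun γ hγ => (o04_fix hγ).1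
    rw [h6] at hθ'
    obtain ⟨α, β, hc⟩ := y6.eq_lin h.toIsS hθ'
    obtain ⟨hw1, -, hmk1⟩ := hw 1
    obtain ⟨hw2, -, hmk2⟩ := hw 2
    refine ⟨β / cc 1, α / cc 2, ?_⟩
    refine hol_ext hθ.1 (o04_hol_add (o04_hol_smul hw1 _) (o04_hol_smul hw2 _)) ?_
    rw [hc, o04_mk_add (o04_hol_smul hw1 _) (o04_hol_smul hw2 _), o04_mk_smul hw1,
      o04_mk_smul hw2, hmk1, hmk2, d1, d2, ← o04_cst_div (hcc 1), ← o04_cst_div (hcc 2), add_comm]
  · intro hθ
    have h6 : D * h2 * ((S ^ 2 - 1) / (S - cst (Complex.I * bb t))) =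
        D * (S ^ 2 - 1) * h2 / (S - cst (Complex.I * bb t)) := by
      ring
    have hθ' := o04_OmF hθ (div_ne_zero hq (hb (Complex.I * bb t))) fun γ hγ => by
      rw [map_div₀, (o04_fix hγ).1, (o04_fix hγ).2.2]
    rw [h6] at hθ'
    obtain ⟨c, hc⟩ := y7.eq_cst h.toIsS hθ'
    exact ⟨_, hext 3 c (cc 3) _ hθ.1 (hcc 3) hc d3⟩
  · intro hθ
    have h6 : D * h2 * dl * ((S ^ 2 - 1) / ((S - cst (Complex.I * bb t)) * (S + cst (aa t)))) =
        D * (S ^ 2 - 1) * (h2 * dl) / ((S - cst (Complex.I * bb t)) * (S + cst (aa t))) := by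
      ring
    have hθ' := o04_OmF hθ (div_ne_zero hq (mul_ne_zero (hb (Complex.I * bb t)) (ha (aa t))))
      fun γ hγ => by
        rw [map_div₀, (o04_fix hγ).1, map_mul, (o04_fix hγ).2.2, (o04_fix hγ).2.1]
    rw [h6] at hθ'
    obtain ⟨c, hc⟩ := y8.eq_cst h.toIsS hθ'
    exact ⟨_, hext 4 c (cc 4) _ hθ.1 (hcc 4) hc d4⟩

private lemma o04_mk_slash {f : ℍ → ℂ} (hf : IsHol f) (g : SL(2, ℝ)) :
    mk (slash f g) (hf.slash g).isMero = actS g (mk f hf.isMero) / jac g := by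
  unfold jac
  rw [actS_mk, mk_div, mk_eq_mk]
  exact Eventually.of_forall fun z => rfl

private lemma o04_slash_add (f g : ℍ → ℂ) (γ : SL(2, ℝ)) :
    slash (f + g) γ = slash f γ + slash g γ := by
  funext z
  simp only [slash, Pi.add_apply]
  exact add_div _ _ _

private lemma o04_slash_smul (c : ℂ) (f : ℍ → ℂ) (γ : SL(2, ℝ)) :
    slash (c • f) γ = c • slash f γ := by
  funext z
  simp only [slash, Pi.smul_apply, smul_eq_mul]
  exact mul_div_assoc _ _ _

/-- Separation of `w 1` and `w 2`. -/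
theorem IsData.separate (h : IsData t S D h0 h2 dl) {w : Fin 5 → (ℍ → ℂ)}
    (hw : IsW t S D h2 dl w) {θ : ℍ → ℂ} (hθ : OmF S (Fprod D h2 dl (1, 0, 1)) θ)
    {c c' : ℂ} (hc : θ = c • w 1 + c' • w 2) (L : AddSubgroup ℂ)
    (hL : ∀ γ ∈ GY S D h2 dl, 8 * period θ γ ∈ L) :
    ∀ γ ∈ GY S D h2 dl, 32 * c * period (w 1) γ ∈ L ∧ 32 * c' * period (w 2) γ ∈ L := by
  have F6 : Fprod D h2 dl (1, 0, 1) = D * dl := by simp [Fprod]
  rw [F6] at hθ
  obtain ⟨cc, hcc, -, d1, d2, -, -⟩ := h.der_xs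
  obtain ⟨hw1, -, hmk1⟩ := hw 1
  obtain ⟨hw2, -, hmk2⟩ := hw 2
  rw [d1] at hmk1
  rw [d2] at hmk2
  have hθO : θ ∈ Omega (fixer {S, D * dl}) := by
    refine ⟨hθ.1, fun γ hγ z => ?_⟩
    have h1 := (hθ.2 γ (hγ S (by simp))).1 (hγ (D * dl) (by simp))
    have h3 := congrFun h1 z
    simp only [slash] at h3
    have h4 : denom (γ : GL (Fin 2) ℝ) z ^ 2 ≠ 0 := pow_ne_zero _ (denom_ne_zero _ _)
    rw [div_eq_iff h4] at h3
    rw [h3, mul_comm]
  have hsub : ∀ γ ∈ GY S D h2 dl, γ ∈ fixer {S, D * dl} := by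
    intro γ hγ F hF
    simp only [Set.mem_insert_iff, Set.mem_singleton_iff] at hF
    rcases hF with rfl | rfl
    · exact hγ _ (by simp)
    · rw [map_mul, hγ D (by simp), hγ dl (by simp)]
  have hsq : ∀ γ ∈ fixer {S, D * dl}, γ * γ ∈ GY S D h2 dl := by
    intro γ hγ F hF
    have hγS : actS γ S = S := hγ S (by simp)
    obtain ⟨s1, -, s2, s3⟩ := h.sgn hγS
    have hs : ∀ F : Mer, Sgn γ F → actS (γ * γ) F = F := by
      intro F hF
      rw [actS_mul]
      rcases hF with hF | hF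
      · rw [hF, hF]
      · rw [hF, map_neg, hF, neg_neg]
    simp only [Set.mem_insert_iff, Set.mem_singleton_iff] at hF
    rcases hF with rfl | rfl | rfl | rfl
    · exact hs _ (Or.inl hγS)
    · exact hs _ s1
    · exact hs _ s2
    · exact hs _ s3
  have h16 : ∀ γ ∈ fixer {S, D * dl}, 16 * period θ γ ∈ L := by
    intro γ hγ
    have h1 := hL _ (hsq γ hγ)
    rw [period_mul hθO hγ hγ] at h1
    have h3 : 16 * period θ γ = 8 * (period θ γ + period θ γ) := by ring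
    rw [h3]
    exact h1
  obtain ⟨ν, hνS, hνD, hνl⟩ := h.exists_nu
  obtain ⟨ε, hε, hνF⟩ : ∃ ε : ℂ, (ε = 1 ∨ ε = -1) ∧
      actS ν (D * (S ^ 2 - 1) * dl) = cst ε * (D * (S ^ 2 - 1) * dl) := by
    have hq : actS ν (S ^ 2 - 1) = S ^ 2 - 1 := by
      rw [map_sub, map_pow, hνS, map_one, neg_sq]
    rcases hνD with h1 | h1 <;> rcases hνl with h3 | h3
    · exact ⟨1, Or.inl rfl, by rw [map_mul, map_mul, h1, h3, hq, map_one]; ring⟩
    · exact ⟨-1, Or.inr rfl, by rw [map_mul, map_mul, h1, h3, hq, map_neg, map_one]; ring⟩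
    · exact ⟨-1, Or.inr rfl, by rw [map_mul, map_mul, h1, h3, hq, map_neg, map_one]; ring⟩
    · exact ⟨1, Or.inl rfl, by rw [map_mul, map_mul, h1, h3, hq, map_one]; ring⟩
  have hεε : ε * ε = 1 := by rcases hε with rfl | rfl <;> norm_num
  have hε0 : ε ≠ 0 := by rcases hε with rfl | rfl <;> norm_num
  have hcε : cst ε * cst ε = 1 := by rw [← map_mul, hεε, map_one]
  have hcε0 : cst ε ≠ 0 := by
    intro h1
    rw [h1, zero_mul] at hcε
    exact zero_ne_one hcε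
  have hnorm : ∀ γ ∈ fixer {S, D * dl}, ν * γ * ν⁻¹ ∈ fixer {S, D * dl} := by
    intro γ hγ F hF
    have hsgn : ∀ F : Mer, actS γ F = F → (actS ν F = F ∨ actS ν F = -F) →
        actS (ν * γ * ν⁻¹) F = F := by
      intro F h1 h3
      have h4 : actS ν⁻¹ (actS ν F) = F := by
        rw [← actS_mul, mul_inv_cancel, actS_one]
      rw [actS_mul, actS_mul]
      rcases h3 with h3 | h3
      · rw [h3, h1]
        rw [h3] at h4
        exact h4
      · rw [h3, map_neg, h1]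
        rw [h3] at h4
        exact h4
    simp only [Set.mem_insert_iff, Set.mem_singleton_iff] at hF
    rcases hF with rfl | rfl
    · exact hsgn _ (hγ _ (by simp)) (Or.inr hνS)
    · refine hsgn _ (hγ _ (by simp)) ?_
      rw [map_mul]
      rcases hνD with h1 | h1 <;> rcases hνl with h3 | h3 <;> rw [h1, h3]
      · exact Or.inl rfl
      · exact Or.inr (by ring)
      · exact Or.inr (by ring)
      · exact Or.inl (by ring)
  have hder : actS ν (der S) = -(jac ν * der S) := by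
    rw [actS_der, hνS, der_neg]
    ring
  have hj := jac_ne_zero ν
  have hs2 : slash (w 2) ν = -(ε • w 2) := by
    have hh : IsHol (-(ε • w 2)) := fun z => ((o04_hol_smul hw2 ε) z).neg
    refine hol_ext (hw2.slash ν) hh ?_
    have h1 : Mer.mk (-(ε • w 2)) hh.isMero =
        -Mer.mk (ε • w 2) (o04_hol_smul hw2 ε).isMero := by
      rw [mk_neg, mk_eq_mk]
      exact Eventually.of_forall fun z => rfl
    rw [h1, o04_mk_smul hw2, o04_mk_slash hw2, hmk2, map_mul, actS_cst, map_div₀, hνF, hder]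
    have h5 : (cst ε * (D * (S ^ 2 - 1) * dl))⁻¹ = cst ε * (D * (S ^ 2 - 1) * dl)⁻¹ := by
      rw [mul_inv]
      congr 1
      exact inv_eq_of_mul_eq_one_left hcε
    rw [div_eq_mul_inv (-(jac ν * der S)), h5]
    field_simp
  have hs1 : slash (w 1) ν = ε • w 1 := by
    refine hol_ext (hw1.slash ν) (o04_hol_smul hw1 ε) ?_
    rw [o04_mk_smul hw1, o04_mk_slash hw1, hmk1, map_mul, actS_cst, map_div₀, hνF, map_mul, hder,
      hνS]
    have h5 : (cst ε * (D * (S ^ 2 - 1) * dl))⁻¹ = cst ε * (D * (S ^ 2 - 1) * dl)⁻¹ := by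
      rw [mul_inv]
      congr 1
      exact inv_eq_of_mul_eq_one_left hcε
    rw [div_eq_mul_inv (-S * -(jac ν * der S)), h5]
    field_simp
  have hsθ : slash θ ν = (ε * c) • w 1 + (-(ε * c')) • w 2 := by
    rw [hc, o04_slash_add, o04_slash_smul, o04_slash_smul, hs1, hs2]
    funext z
    simp only [Pi.add_apply, Pi.smul_apply, Pi.neg_apply, smul_eq_mul]
    ring
  intro γ hγ
  have p1 : period θ γ = c * period (w 1) γ + c' * period (w 2) γ := by
    rw [hc, period_add (o04_hol_smul hw1 _) (o04_hol_smul hw2 _), period_smul, period_smul]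
  have p2 : period (slash θ ν) γ = (ε * c) * period (w 1) γ + (-(ε * c')) * period (w 2) γ := by
    rw [hsθ, period_add (o04_hol_smul hw1 _) (o04_hol_smul hw2 _), period_smul, period_smul]
  have p3 : 16 * period (slash θ ν) γ ∈ L := by
    rw [period_slash hθO (hnorm γ (hsub γ hγ))]
    exact h16 _ (hnorm γ (hsub γ hγ))
  have p4 := h16 γ (hsub γ hγ)
  rw [p2] at p3
  rw [p1] at p4
  rcases hε with rfl | rfl
  · constructor
    · have h1 := L.add_mem p4 p3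
      have h3 : 32 * c * period (w 1) γ =
          16 * (c * period (w 1) γ + c' * period (w 2) γ) +
          16 * (1 * c * period (w 1) γ + -(1 * c') * period (w 2) γ) := by ring
      rw [h3]
      exact h1
    · have h1 := L.sub_mem p4 p3
      have h3 : 32 * c' * period (w 2) γ =
          16 * (c * period (w 1) γ + c' * period (w 2) γ) -
          16 * (1 * c * period (w 1) γ + -(1 * c') * period (w 2) γ) := by ring
      rw [h3]
      exact h1
  · constructor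
    · have h1 := L.sub_mem p4 p3
      have h3 : 32 * c * period (w 1) γ =
          16 * (c * period (w 1) γ + c' * period (w 2) γ) -
          16 * (-1 * c * period (w 1) γ + -(-1 * c') * period (w 2) γ) := by ring
      rw [h3]
      exact h1
    · have h1 := L.add_mem p4 p3
      have h3 : 32 * c' * period (w 2) γ =
          16 * (c * period (w 1) γ + c' * period (w 2) γ) +
          16 * (-1 * c * period (w 1) γ + -(-1 * c') * period (w 2) γ) := by ring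
      rw [h3]
      exact h1

theorem IsData.O_main (h : IsData t S D h0 h2 dl) {w : Fin 5 → (ℍ → ℂ)}
    (hw : IsW t S D h2 dl w) {η : ℍ → ℂ} (hη : η ∈ Omega (GY S D h2 dl)) :
    ∃ c : Fin 5 → ℂ, η = ∑ j, c j • w j ∧
      ∀ L : AddSubgroup ℂ, (∀ γ ∈ GY S D h2 dl, period η γ ∈ L) →
        ∀ j, ∀ γ ∈ GY S D h2 dl, 32 * c j * period (w j) γ ∈ L := by
  obtain ⟨θ, hθ, hsum, hper⟩ := h.decomp_forms hη
  have z1 := (h.theta_eq hw (θ := θ (0, 0, 0))).1 (hθ _)
  have z2 := (h.theta_eq hw (θ := θ (0, 0, 1))).2.1 (hθ _)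
  have z3 := (h.theta_eq hw (θ := θ (0, 1, 0))).2.2.1 (hθ _)
  have z4 := (h.theta_eq hw (θ := θ (0, 1, 1))).2.2.2.1 (hθ _)
  obtain ⟨c0, z5⟩ := (h.theta_eq hw (θ := θ (1, 0, 0))).2.2.2.2.1 (hθ _)
  obtain ⟨c1, c2, z6⟩ := (h.theta_eq hw (θ := θ (1, 0, 1))).2.2.2.2.2.1 (hθ _)
  obtain ⟨c3, z7⟩ := (h.theta_eq hw (θ := θ (1, 1, 0))).2.2.2.2.2.2.1 (hθ _)
  obtain ⟨c4, z8⟩ := (h.theta_eq hw (θ := θ (1, 1, 1))).2.2.2.2.2.2.2 (hθ _)
  refine ⟨![c0, c1, c2, c3, c4], ?_, ?_⟩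
  · rw [hsum, Fintype.sum_prod_type]
    simp only [Fintype.sum_prod_type, Fin.sum_univ_two]
    rw [z1, z2, z3, z4, z5, z6, z7, z8, Fin.sum_univ_five]
    simp only [Matrix.cons_val]
    abel
  · intro L hL j γ hγ
    have hone : ∀ (e : Fin 2 × Fin 2 × Fin 2) (c : ℂ) (j : Fin 5), θ e = c • w j →
        32 * c * period (w j) γ ∈ L := by
      intro e c j he
      have h1 := hper L hL e γ hγ
      rw [he, period_smul] at h1
      have h3 := L.nsmul_mem h1 4
      have h4 : 32 * c * period (w j) γ = 4 • (8 * (c * period (w j) γ)) := by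
        rw [nsmul_eq_mul]
        push_cast
        ring
      rw [h4]
      exact h3
    have hsep := h.separate hw (hθ (1, 0, 1)) z6 L (hper L hL _) γ hγ
    fin_cases j
    · exact hone _ _ _ z5
    · exact hsep.1
    · exact hsep.2
    · exact hone _ _ _ z7
    · exact hone _ _ _ z8

end Pool.Agent.Lib.MP_b9289b_nt
end
end
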