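import Pool.Agent.Lib.MP_b9289b_nt.Mg.G015
import Pool.Agent.Lib.MP_b9289b_nt.Mg.G007

section

/-!
# The Cayley transform (definitions)
-/

open UpperHalfPlane Metric Set Filter Topology MatrixGroups
open scoped ComplexConjugate

noncomputable section

namespace Pool.Agent.Lib.MP_b9289b_nt

/-- The Cayley transform from the upper half plane to the unit disc. -/
def cay (z : ℍ) : ℂ := ((z : ℂ) - Complex.I) / ((z : ℂ) + Complex.I)

/-- The inverse of the Cayley transform (on the unit disc). -/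
def toH (ζ : ℂ) : ℍ := ofComplex (Complex.I * (1 + ζ) / (1 - ζ))

/-- The action of `g` on the unit disc. -/
def dm (g : GL (Fin 2) ℝ) (ζ : ℂ) : ℂ := cay (g • toH ζ)

/-- The rotation by the angle `φ` about `i`. -/
def rotM (φ : ℝ) : SL(2, ℝ) :=
  ⟨!![Real.cos (φ / 2), Real.sin (φ / 2); -Real.sin (φ / 2), Real.cos (φ / 2)], by
    rw [Matrix.det_fin_two_of]
    have := Real.sin_sq_add_cos_sq (φ / 2)
    nlinarith⟩

/-- `tac g x` is `x` or `1 / conj x`, depending on the sign of `det g`. -/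
def tac (g : GL (Fin 2) ℝ) (x : ℂ) : ℂ := if 0 < g.val.det then x else (conj x)⁻¹

/-- The germ of `h` at `w` is a reflected copy of the Riemann map `f ∘ cay` of `Q`. -/
def PP (Q : Set ℍ) (f : ℂ → ℂ) (h : ℍ → ℂ) (w : ℍ) : Prop :=
  MeromorphicNFAt (↑ₕh) (w : ℂ) ∧ ∃ g : GL (Fin 2) ℝ, g • w ∈ closure Q ∧
    ∀ᶠ v in 𝓝 w, g • v ∈ Q → h v = tac g (f (cay (g • v)))

/-- The transformation `F ↦ F ∘ g` or `F ↦ 1 / conj (F ∘ g)` of meromorphic functions. -/
def tact (g : GL (Fin 2) ℝ) (F : Mer) : Mer := if 0 < g.val.det then Mer.act g F else (Mer.act g F)⁻¹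

end Pool.Agent.Lib.MP_b9289b_nt
end
end

section

/-! (C01) elementary facts on the Cayley transform; all by direct computation. -/

open UpperHalfPlane Metric Set Filter Topology MatrixGroups
open scoped ComplexConjugate

noncomputable section

namespace Pool.Agent.Lib.MP_b9289b_nt

private lemma add_I_ne (z : ℍ) : (z : ℂ) + Complex.I ≠ 0 := by
  intro h
  have h1 := congrArg Complex.im h
  rw [Complex.add_im, Complex.I_im, Complex.zero_im, coe_im] at h1
  have := z.im_pos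
  linarith

private lemma one_sub_ne {ζ : ℂ} (h : ‖ζ‖ < 1) : (1 : ℂ) - ζ ≠ 0 := by
  intro h1
  have h2 : ζ = 1 := (sub_eq_zero.1 h1).symm
  rw [h2, norm_one] at h
  exact lt_irrefl _ h

lemma norm_cay_lt (z : ℍ) : ‖cay z‖ < 1 := by
  unfold cay
  rw [norm_div, div_lt_one (norm_pos_iff.2 (add_I_ne z))]
  refine lt_of_pow_lt_pow_left₀ 2 (norm_nonneg _) ?_
  rw [Complex.sq_norm, Complex.sq_norm, Complex.normSq_apply, Complex.normSq_apply,
    Complex.sub_re, Complex.sub_im, Complex.add_re, Complex.add_im, Complex.I_re, Complex.I_im,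
    coe_im, coe_re]
  have := z.im_pos
  nlinarith

private lemma toH_im {ζ : ℂ} (h : ‖ζ‖ < 1) : 0 < (Complex.I * (1 + ζ) / (1 - ζ)).im := by
  have h1 := one_sub_ne h
  have h2 : 0 < Complex.normSq (1 - ζ) := Complex.normSq_pos.2 h1
  have h4 : Complex.normSq ζ < 1 := by
    rw [← Complex.sq_norm]
    have := norm_nonneg ζ
    nlinarith
  rw [Complex.div_im, ← sub_div]
  refine div_pos ?_ h2
  rw [Complex.normSq_apply] at h4
  simp
  nlinarith

lemma coe_toH {ζ : ℂ} (h : ‖ζ‖ < 1) :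
    ((toH ζ : ℍ) : ℂ) = Complex.I * (1 + ζ) / (1 - ζ) := by
  unfold toH
  rw [ofComplex_apply_of_im_pos (toH_im h)]

lemma cay_toH {ζ : ℂ} (h : ‖ζ‖ < 1) : cay (toH ζ) = ζ := by
  have h1 := one_sub_ne h
  unfold cay
  rw [coe_toH h]
  have h2 : Complex.I * (1 + ζ) / (1 - ζ) - Complex.I = 2 * Complex.I * ζ / (1 - ζ) := by
    field_simp
    ring
  have h3 : Complex.I * (1 + ζ) / (1 - ζ) + Complex.I = 2 * Complex.I / (1 - ζ) := by
    field_simp
    ring
  have h4 : (2 * Complex.I : ℂ) ≠ 0 := mul_ne_zero two_ne_zero Complex.I_ne_zero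
  rw [h2, h3]
  field_simp

lemma toH_cay (z : ℍ) : toH (cay z) = z := by
  apply UpperHalfPlane.ext
  rw [coe_toH (norm_cay_lt z)]
  have h1 := add_I_ne z
  unfold cay
  have h2 : 1 + ((z : ℂ) - Complex.I) / ((z : ℂ) + Complex.I) = 2 * z / ((z : ℂ) + Complex.I) := by
    field_simp
    ring
  have h3 : 1 - ((z : ℂ) - Complex.I) / ((z : ℂ) + Complex.I) =
      2 * Complex.I / ((z : ℂ) + Complex.I) := by
    field_simp
    ring
  have h4 : (2 * Complex.I : ℂ) ≠ 0 := mul_ne_zero two_ne_zero Complex.I_ne_zero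
  rw [h2, h3]
  field_simp

lemma cay_injective : Function.Injective cay := by
  intro z w h
  rw [← toH_cay z, h, toH_cay]

lemma cay_I : cay I = 0 := by
  unfold cay
  rw [coe_I, sub_self, zero_div]

lemma toH_zero : toH 0 = I := by
  rw [← cay_I, toH_cay]

lemma continuous_cay : Continuous cay := by
  unfold cay
  exact (continuous_coe.sub continuous_const).div (continuous_coe.add continuous_const) add_I_ne

lemma continuousOn_toH : ContinuousOn toH (ball 0 1) := by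
  rw [isOpenEmbedding_coe.isInducing.continuousOn_iff]
  have h1 : ContinuousOn (fun ζ : ℂ => Complex.I * (1 + ζ) / (1 - ζ)) (ball 0 1) := by
    refine ContinuousOn.div (by fun_prop) (by fun_prop) fun ζ hζ => ?_
    exact one_sub_ne (by simpa using hζ)
  refine h1.congr fun ζ hζ => ?_
  exact coe_toH (by simpa using hζ)

lemma isOpenMap_cay : IsOpenMap cay := by
  intro U hU
  have h1 : cay '' U = ball 0 1 ∩ toH ⁻¹' U := by
    ext ζ
    constructor
    · rintro ⟨z, hz, rfl⟩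
      refine ⟨by simpa using norm_cay_lt z, ?_⟩
      rw [mem_preimage, toH_cay]
      exact hz
    · rintro ⟨h1, h2⟩
      exact ⟨toH ζ, h2, cay_toH (by simpa using h1)⟩
  rw [h1]
  exact continuousOn_toH.isOpen_inter_preimage isOpen_ball hU

private lemma den_ne (c s : ℝ) (h : s ^ 2 + c ^ 2 = 1) (z : ℍ) : -(s : ℂ) * z + (c : ℂ) ≠ 0 := by
  intro h0
  have him := congrArg Complex.im h0
  have hre := congrArg Complex.re h0
  simp at him hre
  rcases him with h2 | h2
  · rw [h2] at hre h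
    simp at hre
    rw [hre] at h
    norm_num at h
  · exact z.im_pos.ne' h2

/-- Rotations: `(c z + s - i(-s z + c)) = (c + i s)(z - i)`, `(c z + s + i(-s z + c)) = (c - i s)(z + i)`. -/
lemma cay_rotM (φ : ℝ) (z : ℍ) : cay (rotM φ • z) = Complex.exp (φ * Complex.I) * cay z := by
  have h1 := add_I_ne z
  have h0 := add_I_ne (rotM φ • z)
  have hc : ((rotM φ • z : ℍ) : ℂ) = ((Real.cos (φ / 2) : ℂ) * z + (Real.sin (φ / 2) : ℂ)) /
      (-(Real.sin (φ / 2) : ℂ) * z + (Real.cos (φ / 2) : ℂ)) := by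
    rw [coe_specialLinearGroup_apply]
    simp [rotM]
  have hd := den_ne (Real.cos (φ / 2)) (Real.sin (φ / 2)) (Real.sin_sq_add_cos_sq (φ / 2)) z
  have hexp : Complex.exp (φ * Complex.I) *
      ((Real.cos (φ / 2) : ℂ) - Real.sin (φ / 2) * Complex.I) =
      (Real.cos (φ / 2) : ℂ) + Real.sin (φ / 2) * Complex.I := by
    have e1 : (φ * Complex.I : ℂ) = ((φ / 2 : ℝ) : ℂ) * Complex.I + ((φ / 2 : ℝ) : ℂ) * Complex.I := by
      push_cast
      ring
    rw [e1, Complex.exp_add, Complex.exp_mul_I, ← Complex.ofReal_cos, ← Complex.ofReal_sin]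
    have h3 : (Real.sin (φ / 2) : ℂ) ^ 2 + (Real.cos (φ / 2) : ℂ) ^ 2 = 1 := by
      exact_mod_cast congrArg (fun x : ℝ => (x : ℂ)) (Real.sin_sq_add_cos_sq (φ / 2))
    have h4 : Complex.I ^ 2 = -1 := Complex.I_sq
    linear_combination ((Real.cos (φ / 2) : ℂ) + Real.sin (φ / 2) * Complex.I) * h3 -
      ((Real.cos (φ / 2) : ℂ) + Real.sin (φ / 2) * Complex.I) * (Real.sin (φ / 2) : ℂ) ^ 2 * h4
  unfold cay at *
  rw [hc] at h0 ⊢
  generalize (Real.cos (φ / 2) : ℂ) = c at *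
  generalize (Real.sin (φ / 2) : ℂ) = s at *
  generalize (z : ℂ) = w at *
  generalize Complex.exp (φ * Complex.I) = e at *
  have h5 : (c * w + s) / (-s * w + c) - Complex.I =
      (c + s * Complex.I) * (w - Complex.I) / (-s * w + c) := by
    rw [eq_div_iff hd, sub_mul, div_mul_cancel₀ _ hd]
    linear_combination s * Complex.I_sq
  have h6 : (c * w + s) / (-s * w + c) + Complex.I =
      (c - s * Complex.I) * (w + Complex.I) / (-s * w + c) := by
    rw [eq_div_iff hd, add_mul, div_mul_cancel₀ _ hd]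
    linear_combination s * Complex.I_sq
  rw [h6] at h0
  rw [h5, h6]
  have h7 : c - s * Complex.I ≠ 0 := by
    intro h
    rw [h] at h0
    exact h0 (by rw [zero_mul, zero_div])
  rw [← hexp, div_div_div_cancel_right₀ hd]
  field_simp

lemma rotM_smul_I (φ : ℝ) : rotM φ • (I : ℍ) = I := by
  apply cay_injective
  rw [cay_rotM, cay_I, mul_zero]

lemma cay_J (z : ℍ) : cay (J • z) = conj (cay z) := by
  unfold cay
  rw [coe_J_smul, map_div₀, map_sub, map_add, Complex.conj_I]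
  rw [← neg_div_neg_eq]
  congr 1 <;> ring

end Pool.Agent.Lib.MP_b9289b_nt
end
end

section

/-!
# The octagons (definitions)

`k = 2 ζ / (1 + |ζ|²)` is the Klein coordinate; the octagon is `|k₁| < A`, `|k₂| < A`, `|k₁| + |k₂| < 1 / A`.
-/

open UpperHalfPlane Metric Set Filter Topology MatrixGroups
open scoped ComplexConjugate

noncomputable section

namespace Pool.Agent.Lib.MP_b9289b_nt

/-- `lin n ζ = (n₁ k₁ + n₂ k₂ - n₀) (1 + |ζ|²)`: the half plane `lin n < 0` of the hyperbolic plane. -/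
def lin (n : ℝ × ℝ × ℝ) (ζ : ℂ) : ℝ :=
  2 * n.1 * ζ.re + 2 * n.2.1 * ζ.im - n.2.2 * (1 + Complex.normSq ζ)

/-- The Minkowski product. -/
def BB (n m : ℝ × ℝ × ℝ) : ℝ := n.1 * m.1 + n.2.1 * m.2.1 - n.2.2 * m.2.2

/-- The eight walls of the octagon. -/
def walls (A : ℝ) : Finset (ℝ × ℝ × ℝ) :=
  {(1, 0, A), (-1, 0, A), (0, 1, A), (0, -1, A),
    (1, 1, 1 / A), (1, -1, 1 / A), (-1, 1, 1 / A), (-1, -1, 1 / A)}

/-- The open octagon in the disc. -/
def octD (A : ℝ) : Set ℂ := {ζ | ‖ζ‖ < 1 ∧ ∀ n ∈ walls A, lin n ζ < 0}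

/-- The closed octagon in the disc. -/
def octC (A : ℝ) : Set ℂ := {ζ | ‖ζ‖ < 1 ∧ ∀ n ∈ walls A, lin n ζ ≤ 0}

/-- The open octagon in the upper half plane. -/
def oct (A : ℝ) : Set ℍ := {z | cay z ∈ octD A}

/-- The range of the parameter. -/
structure OkA (A : ℝ) : Prop where
  pos : 0 < A
  lt_one : A < 1
  half : 1 < 2 * A ^ 2

/-- The corner with Klein coordinate `(A, 1/A - A)`. -/
def corner (A : ℝ) : ℂ :=
  ((⟨A, 1 / A - A⟩ : ℂ)) / ((1 + √(1 - A ^ 2 - (1 / A - A) ^ 2) : ℝ) : ℂ)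

/-- `ζ` is a corner: two different walls meet at `ζ`. -/
def IsCorner (A : ℝ) (ζ : ℂ) : Prop :=
  ζ ∈ octC A ∧ ∃ n ∈ walls A, ∃ m ∈ walls A, n ≠ m ∧ lin n ζ = 0 ∧ lin m ζ = 0

/-- The continuous extension `F` of the Riemann map `f` of the octagon to the closed octagon. -/
structure Ext (A : ℝ) (f F : ℂ → ℂ) : Prop where
  rmap : RMap (octD A) f
  eq : ∀ ζ ∈ octD A, F ζ = f ζ
  cont : ContinuousOn F (octC A)
  inj : InjOn F (octC A)
  norm_one : ∀ ζ ∈ octC A, ζ ∉ octD A → ‖F ζ‖ = 1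
  rot : ∀ ζ ∈ octC A, F (Complex.I * ζ) = Complex.I * F ζ
  refl : ∀ ζ ∈ octC A, F (conj ζ) = conj (F ζ)

end Pool.Agent.Lib.MP_b9289b_nt
end
end

section

/-! (C03) The action on the disc, and analyticity in the coordinate of the disc. -/

open UpperHalfPlane Metric Set Filter Topology MatrixGroups
open scoped ComplexConjugate

noncomputable section

namespace Pool.Agent.Lib.MP_b9289b_nt

lemma norm_dm_lt (g : GL (Fin 2) ℝ) (ζ : ℂ) : ‖dm g ζ‖ < 1 := norm_cay_lt _

lemma toH_dm (g : GL (Fin 2) ℝ) (ζ : ℂ) : toH (dm g ζ) = g • toH ζ := toH_cay _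

lemma dm_cay (g : GL (Fin 2) ℝ) (z : ℍ) : dm g (cay z) = cay (g • z) := by
  unfold dm
  rw [toH_cay]

lemma dm_one {ζ : ℂ} (h : ‖ζ‖ < 1) : dm 1 ζ = ζ := by
  unfold dm
  rw [one_smul, cay_toH h]

lemma dm_mul (g h : GL (Fin 2) ℝ) (ζ : ℂ) : dm (g * h) ζ = dm g (dm h ζ) := by
  unfold dm
  rw [toH_cay, mul_smul]

lemma dm_inv_dm (g : GL (Fin 2) ℝ) {ζ : ℂ} (h : ‖ζ‖ < 1) : dm g⁻¹ (dm g ζ) = ζ := by
  rw [← dm_mul, inv_mul_cancel, dm_one h]

private lemma one_sub_ne' {ζ : ℂ} (h : ‖ζ‖ < 1) : (1 : ℂ) - ζ ≠ 0 := by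
  intro h1
  have h2 : ζ = 1 := (sub_eq_zero.1 h1).symm
  rw [h2, norm_one] at h
  exact lt_irrefl _ h

private lemma add_I_ne' (z : ℍ) : (z : ℂ) + Complex.I ≠ 0 := by
  intro h
  have h1 := congrArg Complex.im h
  rw [Complex.add_im, Complex.I_im, Complex.zero_im, coe_im] at h1
  have := z.im_pos
  linarith

/-- the coordinate of the half plane as a function on the disc -/
private def TT (ζ : ℂ) : ℂ := Complex.I * (1 + ζ) / (1 - ζ)

private lemma TT_eq {ζ : ℂ} (h : ‖ζ‖ < 1) : TT ζ = ((toH ζ : ℍ) : ℂ) := (coe_toH h).symm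

private lemma TT_diff {ζ : ℂ} (h : ‖ζ‖ < 1) : DifferentiableAt ℂ TT ζ := by
  unfold TT
  exact DifferentiableAt.div (by fun_prop) (by fun_prop) (one_sub_ne' h)

private lemma ball_nhds {ζ : ℂ} (h : ‖ζ‖ < 1) : ∀ᶠ x in 𝓝 ζ, ‖x‖ < 1 :=
  (continuous_norm.tendsto ζ).eventually (gt_mem_nhds h)

private lemma TT_analytic {ζ : ℂ} (h : ‖ζ‖ < 1) : AnalyticAt ℂ TT ζ := by
  rw [Complex.analyticAt_iff_eventually_differentiableAt]
  filter_upwards [ball_nhds h] with x hx
  exact TT_diff hx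

private lemma smul_toH_diff {g : GL (Fin 2) ℝ} (hg : 0 < g.val.det) {ζ : ℂ} (h : ‖ζ‖ < 1) :
    DifferentiableAt ℂ (fun x => ((g • toH x : ℍ) : ℂ)) ζ := by
  have hd : denom g (TT ζ) ≠ 0 := by
    rw [TT_eq h]
    exact denom_ne_zero g (toH ζ)
  have h1 : DifferentiableAt ℂ (fun x => num g (TT x) / denom g (TT x)) ζ := by
    have := TT_diff h
    refine DifferentiableAt.div ?_ ?_ hd
    · unfold num
      fun_prop
    · unfold denom
      fun_prop
  refine h1.congr_of_eventuallyEq ?_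
  filter_upwards [ball_nhds h] with x hx
  rw [coe_smul_of_det_pos hg, TT_eq hx]

/-- PROOF: `dm g ζ` is a fractional linear function of `ζ` (`UpperHalfPlane.coe_smul`, `num`, `denom`), or compose `analyticAt_smul` (Mathlib) with the formulas of `cay`, `toH`. -/
lemma dm_differentiableOn {g : GL (Fin 2) ℝ} (hg : 0 < g.val.det) :
    DifferentiableOn ℂ (dm g) (ball 0 1) := by
  intro ζ hζ
  have hζ' : ‖ζ‖ < 1 := by simpa using hζ
  have h1 := smul_toH_diff hg hζ'
  refine DifferentiableAt.differentiableWithinAt ?_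
  unfold dm cay
  exact DifferentiableAt.div (h1.sub_const _) (h1.add_const _) (add_I_ne' _)

private lemma det_mul_J {g : GL (Fin 2) ℝ} (hg : g.val.det < 0) : 0 < (g * J).val.det := by
  rw [Units.val_mul, Matrix.det_mul]
  simpa using hg

private lemma det_J_mul {g : GL (Fin 2) ℝ} (hg : g.val.det < 0) : 0 < (J * g).val.det := by
  rw [Units.val_mul, Matrix.det_mul]
  simpa using hg

private lemma toH_conj {ζ : ℂ} (h : ‖ζ‖ < 1) : toH (conj ζ) = J • toH ζ := by
  have h1 := cay_J (toH ζ)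
  rw [cay_toH h] at h1
  rw [← h1, toH_cay]

/-- PROOF: `g = (g J) J`, `dm J ζ = conj ζ`, and the lemma before. -/
lemma dm_conj_differentiableOn {g : GL (Fin 2) ℝ} (hg : g.val.det < 0) :
    DifferentiableOn ℂ (fun ζ => dm g (conj ζ)) (ball 0 1) := by
  refine (dm_differentiableOn (det_mul_J hg)).congr fun ζ hζ => ?_
  unfold dm
  rw [toH_conj (by simpa using hζ), mul_smul]

lemma continuousOn_dm (g : GL (Fin 2) ℝ) : ContinuousOn (dm g) (ball 0 1) := by
  rcases lt_or_gt_of_ne g.det_ne_zero with hg | hg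
  · have h1 := (dm_conj_differentiableOn (g := g) hg).continuousOn
    have h2 : ContinuousOn (fun ζ => dm g (conj (conj ζ))) (ball 0 1) := by
      refine ContinuousOn.comp (g := fun ζ => dm g (conj ζ)) (f := fun ζ => conj ζ) h1
        Complex.continuous_conj.continuousOn ?_
      intro ζ hζ
      have : ‖ζ‖ < 1 := by simpa using hζ
      simpa using this
    simpa using h2
  · exact (dm_differentiableOn (g := g) hg).continuousOn

private lemma cayC_analytic (z : ℍ) :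
    AnalyticAt ℂ (fun w : ℂ => (w - Complex.I) / (w + Complex.I)) (z : ℂ) :=
  AnalyticAt.div (by fun_prop) (by fun_prop) (add_I_ne' z)

private lemma im_nhds (z : ℍ) : ∀ᶠ w in 𝓝 (z : ℂ), 0 < w.im :=
  isOpen_upperHalfPlaneSet.mem_nhds z.im_pos

lemma analyticAt_comp_cay {H : ℂ → ℂ} {z : ℍ} (h : AnalyticAt ℂ H (cay z)) :
    AnalyticAt ℂ (↑ₕ(fun w => H (cay w))) (z : ℂ) := by
  have h1 : AnalyticAt ℂ (fun w : ℂ => H ((w - Complex.I) / (w + Complex.I))) (z : ℂ) :=
    AnalyticAt.comp (f := fun w : ℂ => (w - Complex.I) / (w + Complex.I)) (g := H) h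
      (cayC_analytic z)
  refine h1.congr ?_
  filter_upwards [im_nhds z] with w hw
  simp only [Function.comp]
  rw [ofComplex_apply_of_im_pos hw]
  rfl

lemma analyticAt_comp_toH {h : ℍ → ℂ} {ζ : ℂ} (hζ : ‖ζ‖ < 1)
    (hh : AnalyticAt ℂ (↑ₕh) ((toH ζ : ℍ) : ℂ)) : AnalyticAt ℂ (fun x => h (toH x)) ζ := by
  rw [← TT_eq hζ] at hh
  have h1 : AnalyticAt ℂ (fun x => (↑ₕh) (TT x)) ζ := hh.comp (TT_analytic hζ)
  refine h1.congr ?_
  filter_upwards [ball_nhds hζ] with x hx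
  rw [TT_eq hx]
  simp

private lemma kk_analytic (g : SL(2, ℝ)) (z : ℍ) :
    AnalyticAt ℂ (fun w : ℂ => cay (g • ofComplex w)) (z : ℂ) := by
  have hg : 0 < (g : GL (Fin 2) ℝ).val.det := by simp
  have h2 := analyticAt_smul hg z
  have h3 : (fun z ↦ (((g : GL (Fin 2) ℝ) • ofComplex z : ℍ) : ℂ) : ℂ → ℂ) (z : ℂ) =
      (((g : GL (Fin 2) ℝ) • z : ℍ) : ℂ) := by simp
  have h1 := cayC_analytic ((g : GL (Fin 2) ℝ) • z)
  rw [← h3] at h1
  exact (AnalyticAt.comp (g := fun w : ℂ => (w - Complex.I) / (w + Complex.I))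
    (f := fun z : ℂ => (((g : GL (Fin 2) ℝ) • ofComplex z : ℍ) : ℂ)) h1 h2).congr
    (Eventually.of_forall fun w => rfl)

private lemma kk_deriv (g : SL(2, ℝ)) (z : ℍ) :
    deriv (fun w : ℂ => cay (g • ofComplex w)) (z : ℂ) ≠ 0 := by
  have hk := (kk_analytic g z).differentiableAt
  have hn : ‖(fun w : ℂ => cay (g • ofComplex w)) (z : ℂ)‖ < 1 := norm_cay_lt _
  have hg : 0 < (g⁻¹ : GL (Fin 2) ℝ).val.det := by
    simp
  have hR := smul_toH_diff hg hn
  have hc := hR.hasDerivAt.comp (z : ℂ) hk.hasDerivAt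
  have hid : (fun x => (((g⁻¹ : GL (Fin 2) ℝ) • toH x : ℍ) : ℂ)) ∘
      (fun w : ℂ => cay (g • ofComplex w)) =ᶠ[𝓝 (z : ℂ)] id := by
    filter_upwards [im_nhds z] with w hw
    simp only [Function.comp, id]
    rw [toH_cay]
    have : (g⁻¹ : GL (Fin 2) ℝ) • (g • ofComplex w) = ofComplex w := inv_smul_smul (g : GL (Fin 2) ℝ) _
    rw [this, ofComplex_apply_of_im_pos hw]
  have h1 := (hc.congr_of_eventuallyEq hid.symm).unique (hasDerivAt_id (z : ℂ))
  intro h0
  rw [h0, mul_zero] at h1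
  exact zero_ne_one h1

/-- The order does not change in the coordinate of the disc moved by `g ∈ SL(2,ℝ)`. PROOF: `meromorphicOrderAt_comp_of_deriv_ne_zero` (Mathlib); `w ↦ cay (g⁻¹ • w)` has nonzero derivative. -/
lemma meromorphicOrderAt_comp_cay {H : ℂ → ℂ} (g : SL(2, ℝ)) {z : ℍ}
    (h : MeromorphicAt H (cay (g⁻¹ • z))) :
    meromorphicOrderAt (↑ₕ(fun w => H (cay (g⁻¹ • w)))) (z : ℂ) =
      meromorphicOrderAt H (cay (g⁻¹ • z)) := by
  have h1 := meromorphicOrderAt_comp_of_deriv_ne_zero (f := H) (kk_analytic g⁻¹ z) (kk_deriv g⁻¹ z)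
  rw [ofComplex_apply] at h1
  exact h1

private lemma analyticAt_smul_pos {h : ℍ → ℂ} {g : GL (Fin 2) ℝ} (hg : 0 < g.val.det) {z : ℍ}
    (hh : AnalyticAt ℂ (↑ₕh) ((g • z : ℍ) : ℂ)) :
    AnalyticAt ℂ (↑ₕ(fun w => h (g • w))) (z : ℂ) := by
  have h2 := analyticAt_smul hg z
  have h3 : (fun z ↦ ((g • ofComplex z : ℍ) : ℂ) : ℂ → ℂ) (z : ℂ) = ((g • z : ℍ) : ℂ) := by simp
  rw [← h3] at hh
  exact (AnalyticAt.comp (g := ↑ₕh) (f := fun z : ℂ => ((g • ofComplex z : ℍ) : ℂ)) hh h2).congr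
    (Eventually.of_forall fun w => by simp)

private lemma analyticAt_smul_J {h : ℍ → ℂ} {z : ℍ}
    (hh : AnalyticAt ℂ (↑ₕh) ((J • z : ℍ) : ℂ)) :
    AnalyticAt ℂ (↑ₕ(fun w => conj (h (J • w)))) (z : ℂ) := by
  rw [coe_J_smul] at hh
  have h2 : AnalyticAt ℂ (fun w : ℂ => (↑ₕh) (-w)) (conj (z : ℂ)) :=
    AnalyticAt.comp (f := fun w : ℂ => -w) (g := ↑ₕh) hh (by fun_prop)
  refine (analyticAt_conj_conj h2).congr ?_
  filter_upwards [im_nhds z] with w hw
  simp only [Function.comp]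
  congr 2
  have : -(conj w) = ((J • (⟨w, hw⟩ : ℍ) : ℍ) : ℂ) := by rw [coe_J_smul]
  rw [this, ofComplex_apply, ofComplex_apply_of_im_pos hw]

/-- PROOF: as `IsMero.smul` in MerDefs.lean: `analyticAt_smul` for positive determinant; `J` and `analyticAt_conj_conj` for negative determinant. -/
lemma analyticAt_gl {h : ℍ → ℂ} (g : GL (Fin 2) ℝ) {z : ℍ}
    (hh : AnalyticAt ℂ (↑ₕh) ((g • z : ℍ) : ℂ)) :
    AnalyticAt ℂ (↑ₕ(fun w => σ g (h (g • w)))) (z : ℂ) := by
  have hJ : ∀ w : ℍ, J • ((J * g) • w) = g • w := by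
    intro w
    rw [← mul_smul, ← mul_assoc, ← sq, J_sq, one_mul]
  rcases lt_or_gt_of_ne g.det_ne_zero with hg | hg
  · have h1 := det_J_mul (g := g) hg
    rw [← hJ z] at hh
    have h2 := analyticAt_smul_pos h1 (analyticAt_smul_J hh)
    have h3 : ¬ (0 < g.det.val) := by simpa using hg.le
    refine h2.congr (Eventually.of_forall fun w => ?_)
    simp only [Function.comp, σ, if_neg h3]
    rw [hJ]
    rfl
  · have h3 : (0 < g.det.val) := by simpa using hg
    refine (analyticAt_smul_pos hg hh).congr (Eventually.of_forall fun w => ?_)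
    simp only [Function.comp, σ, if_pos h3]
    rfl

end Pool.Agent.Lib.MP_b9289b_nt
end
end

section

/-! (C02) distances. -/

open UpperHalfPlane Metric Set Filter Topology MatrixGroups
open scoped ComplexConjugate

noncomputable section

namespace Pool.Agent.Lib.MP_b9289b_nt

private lemma dist_eq_of_cosh {a b z w : ℍ} (h : Real.cosh (dist a b) = Real.cosh (dist z w)) :
    dist a b = dist z w := by
  have h1 := Real.cosh_le_cosh.1 h.le
  have h2 := Real.cosh_le_cosh.1 h.ge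
  rw [abs_of_nonneg dist_nonneg, abs_of_nonneg dist_nonneg] at h1 h2
  exact le_antisymm h1 h2

private lemma dist_smul_pos {g : GL (Fin 2) ℝ} (hg : 0 < g.det.val) (z w : ℍ) :
    dist (g • z) (g • w) = dist z w := by
  apply dist_eq_of_cosh
  have hz := denom_ne_zero g z
  have hw := denom_ne_zero g w
  have hd : ((g • z : ℍ) : ℂ) - ((g • w : ℍ) : ℂ) =
      (g.det.val : ℂ) * ((z : ℂ) - w) / (denom g z * denom g w) := by
    rw [coe_smul_of_det_pos hg, coe_smul_of_det_pos hg, div_sub_div _ _ hz hw]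
    congr 1
    have : (g.det.val : ℂ) = (g 0 0 : ℂ) * g 1 1 - g 0 1 * g 1 0 := by
      rw [Matrix.GeneralLinearGroup.val_det_apply, Matrix.det_fin_two]
      push_cast
      rfl
    rw [this]
    unfold num denom
    ring
  have hn : dist ((g • z : ℍ) : ℂ) ((g • w : ℍ) : ℂ) ^ 2 =
      g.det.val ^ 2 * dist (z : ℂ) w ^ 2 /
        (Complex.normSq (denom g z) * Complex.normSq (denom g w)) := by
    rw [Complex.dist_eq, Complex.dist_eq, hd, norm_div, norm_mul, norm_mul, div_pow, mul_pow,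
      mul_pow, Complex.sq_norm (denom g z), Complex.sq_norm (denom g w), Complex.norm_real,
      Real.norm_eq_abs, sq_abs]
  rw [cosh_dist, cosh_dist, hn, im_smul_eq_div_normSq, im_smul_eq_div_normSq,
    abs_of_pos hg]
  have h1 : Complex.normSq (denom g z) ≠ 0 := (Complex.normSq_pos.2 hz).ne'
  have h2 : Complex.normSq (denom g w) ≠ 0 := (Complex.normSq_pos.2 hw).ne'
  have h3 := z.im_ne_zero
  have h4 := w.im_ne_zero
  have h5 := hg.ne'
  congr 1
  field_simp

private lemma dist_smul_J (z w : ℍ) : dist (J • z) (J • w) = dist z w := by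
  apply dist_eq_of_cosh
  have h1 : ∀ z : ℍ, (J • z : ℍ).im = z.im := by
    intro z
    rw [← coe_im, coe_J_smul]
    simp
  have h2 : dist ((J • z : ℍ) : ℂ) ((J • w : ℍ) : ℂ) = dist (z : ℂ) w := by
    rw [coe_J_smul, coe_J_smul, dist_neg_neg, Complex.dist_conj_conj]
  rw [cosh_dist, cosh_dist, h1, h1, h2]

/-- `GL(2,ℝ)` acts by isometries. PROOF: `UpperHalfPlane.dist_eq` (or `cosh_dist`), for positive determinant scale `g` to an element of `SL(2,ℝ)` (the instance `IsIsometricSMul SL(2, ℝ) ℍ`), for negative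
determinant use `J` (`coe_J_smul`; `J` is an isometry) and `J * g`; or directly with `cosh_dist` and `im_smul_eq_div_normSq`. -/
lemma dist_smul_gl (g : GL (Fin 2) ℝ) (z w : ℍ) : dist (g • z) (g • w) = dist z w := by
  rcases lt_or_gt_of_ne g.det_ne_zero with hg | hg
  · have h1 : 0 < (J * g).det.val := by
      rw [map_mul, Units.val_mul]
      have : (Matrix.GeneralLinearGroup.det J : ℝˣ).val = -1 := by
        rw [Matrix.GeneralLinearGroup.val_det_apply, val_J, Matrix.det_fin_two_of]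
        norm_num
      rw [this]
      have h2 : g.det.val < 0 := hg
      linarith
    have h2 := dist_smul_pos h1 z w
    rw [mul_smul, mul_smul, dist_smul_J] at h2
    exact h2
  · exact dist_smul_pos hg z w

/-- PROOF: `UpperHalfPlane.tanh_half_dist`. -/
lemma tanh_half_dist_I (z : ℍ) : Real.tanh (dist z I / 2) = ‖cay z‖ := by
  rw [tanh_half_dist, coe_I, Complex.conj_I, Complex.dist_eq, Complex.dist_eq, sub_neg_eq_add]
  unfold cay
  rw [norm_div]

/-- Points on the geodesic from `i` to `v`. PROOF: if `dist v I < ε` take `w = I`. Otherwise choose `s` with `dist v I - ε < s < min r (dist v I)`, `0 ≤ s`, and `w = toH (x * cay v)` with `x ∈ (0,1)` such that `x ‖cay v‖ = tanh (s/2)`.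
Then `dist w I = s` (`tanh_half_dist_I`, `tanh` is injective), and `tanh (dist v w / 2) = ‖(v - w)/(v - conj w)‖ = (1 - x) ρ / (1 - x ρ²)`, `ρ = ‖cay v‖`, is `tanh ((dist v I - s)/2)` by the subtraction formula of `tanh`. -/
lemma exists_between_dist (v : ℍ) {r ε : ℝ} (hr : 0 < r) (hε : 0 < ε) (h : dist v I < r + ε) :
    ∃ w : ℍ, dist w I < r ∧ dist v w < ε := by
  by_cases hv : dist v I < ε
  · exact ⟨I, by rw [dist_self]; exact hr, hv⟩
  rw [not_lt] at hv
  obtain ⟨s, hs1, hs2⟩ : ∃ s, dist v I - ε < s ∧ s < min r (dist v I) :=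
    exists_between (lt_min (by linarith) (by linarith))
  have hsr : s < r := lt_of_lt_of_le hs2 (min_le_left _ _)
  have hsD : s < dist v I := lt_of_lt_of_le hs2 (min_le_right _ _)
  have hs0 : 0 ≤ s := by linarith
  obtain ⟨φ, hφ⟩ : ∃ φ : ℝ, cay (rotM φ • v) = (‖cay v‖ : ℂ) := by
    refine ⟨-(cay v).arg, ?_⟩
    rw [cay_rotM]
    have e1 : (‖cay v‖ : ℂ) * Complex.exp ((cay v).arg * Complex.I) = cay v :=
      Complex.norm_mul_exp_arg_mul_I (cay v)
    have e2 : Complex.exp (((-(cay v).arg : ℝ) : ℂ) * Complex.I) *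
        Complex.exp ((cay v).arg * Complex.I) = 1 := by
      rw [← Complex.exp_add]
      push_cast
      rw [neg_mul, neg_add_cancel, Complex.exp_zero]
    calc Complex.exp (((-(cay v).arg : ℝ) : ℂ) * Complex.I) * cay v
        = Complex.exp (((-(cay v).arg : ℝ) : ℂ) * Complex.I) *
          ((‖cay v‖ : ℂ) * Complex.exp ((cay v).arg * Complex.I)) := by rw [e1]
      _ = (‖cay v‖ : ℂ) * (Complex.exp (((-(cay v).arg : ℝ) : ℂ) * Complex.I) *
          Complex.exp ((cay v).arg * Complex.I)) := by ring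
      _ = (‖cay v‖ : ℂ) := by rw [e2, mul_one]
  have hρ1 : ‖cay v‖ < 1 := norm_cay_lt v
  have hρ0 : 0 ≤ ‖cay v‖ := norm_nonneg _
  have hu : ((rotM φ • v : ℍ) : ℂ) =
      (((1 + ‖cay v‖) / (1 - ‖cay v‖) : ℝ) : ℂ) * Complex.I := by
    rw [← toH_cay (rotM φ • v), hφ, coe_toH (by rw [Complex.norm_real, norm_norm]; exact hρ1)]
    push_cast
    ring
  have hure : (rotM φ • v : ℍ).re = 0 := by
    rw [← coe_re, hu, Complex.re_ofReal_mul, Complex.I_re, mul_zero]
  have huim : (rotM φ • v : ℍ).im = (1 + ‖cay v‖) / (1 - ‖cay v‖) := by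
    rw [← coe_im, hu, Complex.im_ofReal_mul, Complex.I_im, mul_one]
  have huim1 : 1 ≤ (rotM φ • v : ℍ).im := by
    rw [huim, le_div_iff₀ (by linarith)]
    linarith
  have hD : dist v I = Real.log (rotM φ • v : ℍ).im := by
    have h1 : dist v I = dist (rotM φ • v) I := by
      conv_rhs => rw [← rotM_smul_I φ]
      rw [dist_smul]
    rw [h1, dist_of_re_eq (by rw [hure, I_re]), I_im, Real.log_one, Real.dist_eq, sub_zero,
      abs_of_nonneg (Real.log_nonneg huim1)]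
  let w' : ℍ := ⟨⟨0, Real.exp s⟩, Real.exp_pos s⟩
  have hw're : w'.re = 0 := rfl
  have hw'im : w'.im = Real.exp s := rfl
  refine ⟨(rotM φ)⁻¹ • w', ?_, ?_⟩
  · have h1 : dist ((rotM φ)⁻¹ • w') I = dist w' I := by
      rw [← dist_smul (rotM φ), smul_inv_smul, rotM_smul_I]
    rw [h1, dist_of_re_eq (by rw [hw're, I_re]), I_im, Real.log_one, Real.dist_eq, sub_zero, hw'im,
      Real.log_exp, abs_of_nonneg hs0]
    exact hsr
  · have h1 : dist v ((rotM φ)⁻¹ • w') = dist (rotM φ • v) w' := by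
      rw [← dist_smul (rotM φ), smul_inv_smul]
    rw [h1, dist_of_re_eq (by rw [hw're, hure]), ← hD, hw'im, Real.log_exp, Real.dist_eq,
      abs_of_nonneg (by linarith)]
    linarith

end Pool.Agent.Lib.MP_b9289b_nt
end
end

section

/-! (N01) Identity theorem for functions in normal form; intersections of balls. -/

open UpperHalfPlane Metric Set Filter Topology MatrixGroups
open scoped ComplexConjugate

noncomputable section

namespace Pool.Agent.Lib.MP_b9289b_nt

private theorem n01_aux {w : ℍ} {h h' : ℍ → ℂ} (hh : MeromorphicNFAt (↑ₕh) (w : ℂ))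
    (hh' : MeromorphicNFAt (↑ₕh') (w : ℂ)) (he : ∃ᶠ v in 𝓝[≠] w, h v = h' v) : h =ᶠ[𝓝 w] h' := by
  have h1 : ∃ᶠ z in 𝓝[≠] (w : ℂ), (↑ₕh) z = (↑ₕh') z := by
    rw [← map_coe_nhdsNE, frequently_map]
    refine he.mono fun v hv => ?_
    simpa using hv
  have h2 : (↑ₕh) =ᶠ[𝓝[≠] (w : ℂ)] (↑ₕh') :=
    (MeromorphicAt.frequently_eq_iff_eventuallyEq hh.meromorphicAt hh'.meromorphicAt).1 h1
  have h3 : (↑ₕh) =ᶠ[𝓝 (w : ℂ)] (↑ₕh') := (hh.eventuallyEq_nhdsNE_iff_eventuallyEq_nhds hh').1 h2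
  have h4 : Tendsto (fun v : ℍ => (v : ℂ)) (𝓝 w) (𝓝 (w : ℂ)) := continuous_coe.tendsto w
  filter_upwards [h4.eventually h3] with v hv
  simpa using hv

private theorem n01_neBot (w : ℍ) : (𝓝[≠] w).NeBot := by
  rw [← Filter.map_neBot_iff (fun v : ℍ => (v : ℂ)), map_coe_nhdsNE]
  infer_instance

/-- PROOF: the set of the `v ∈ U` with `h =ᶠ[𝓝 v] h'` is open; it is relatively closed in `U`: if `v` is a limit of such points then the two meromorphic germs at `v` agree frequently in the punctured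
neighbourhood, so eventually (`MeromorphicAt.frequently_eq_iff_eventuallyEq`), and by the normal form in a full neighbourhood (`MeromorphicNFAt.eventuallyEq_nhdsNE_iff_eventuallyEq_nhds`). -/
theorem nf_identity {U : Set ℍ} (hUo : IsOpen U) (hU : IsPreconnected U) {h h' : ℍ → ℂ}
    (hh : ∀ w ∈ U, MeromorphicNFAt (↑ₕh) (w : ℂ)) (hh' : ∀ w ∈ U, MeromorphicNFAt (↑ₕh') (w : ℂ))
    {u : ℍ} (hu : u ∈ U) (he : h =ᶠ[𝓝 u] h') : ∀ v ∈ U, h =ᶠ[𝓝 v] h' := by
  have hSo : IsOpen {v : ℍ | h =ᶠ[𝓝 v] h'} := isOpen_setOf_eventually_nhds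
  have hsub : U ⊆ {v : ℍ | h =ᶠ[𝓝 v] h'} := by
    refine hU.subset_of_closure_inter_subset hSo ⟨u, hu, he⟩ ?_
    rintro v ⟨hv, hvU⟩
    by_cases hvS : v ∈ {v : ℍ | h =ᶠ[𝓝 v] h'}
    · exact hvS
    · refine n01_aux (hh v hvU) (hh' v hvU) ?_
      have h1 : ∃ᶠ w in 𝓝 v, w ∈ {v : ℍ | h =ᶠ[𝓝 v] h'} := mem_closure_iff_frequently.1 hv
      rw [frequently_nhdsWithin_iff]
      refine h1.mono fun w hw => ⟨hw.self_of_nhds, ?_⟩
      rintro rfl
      exact hvS hw
  exact fun v hv => hsub hv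

/-- The same for one germ: two germs in normal form which agree on a set accumulating at the point. PROOF: as before, with `∃ᶠ v in 𝓝 w` on an open set `V` whose closure contains `w` (then also `w` is a limit of
points of `V \ {w}`). -/
theorem nf_eventuallyEq {w : ℍ} {h h' : ℍ → ℂ} (hh : MeromorphicNFAt (↑ₕh) (w : ℂ))
    (hh' : MeromorphicNFAt (↑ₕh') (w : ℂ)) {V : Set ℍ} (hV : IsOpen V) (hw : w ∈ closure V)
    (he : ∀ᶠ v in 𝓝 w, v ∈ V → h v = h' v) : h =ᶠ[𝓝 w] h' := by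
  refine n01_aux hh hh' ?_
  have h1 : ∃ᶠ v in 𝓝[≠] w, v ∈ V := by
    by_cases hwV : w ∈ V
    · haveI := n01_neBot w
      have : ∀ᶠ v in 𝓝[≠] w, v ∈ V := mem_nhdsWithin_of_mem_nhds (hV.mem_nhds hwV)
      exact this.frequently
    · rw [frequently_nhdsWithin_iff]
      refine (mem_closure_iff_frequently.1 hw).mono fun v hv => ⟨hv, ?_⟩
      rintro rfl
      exact hwV hv
  have h2 : ∀ᶠ v in 𝓝[≠] w, v ∈ V → h v = h' v := he.filter_mono nhdsWithin_le_nhds
  exact (h1.and_eventually h2).mono fun v hv => hv.2 hv.1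

/-- PROOF: the images of the balls in `ℂ` are Euclidean balls (`UpperHalfPlane.image_coe_ball`), their intersection is convex, hence preconnected; transport with the open embedding `ℍ → ℂ`
(`Topology.IsInducing.isPreconnected_image` or similar). -/
theorem isPreconnected_ball_inter_ball (a b : ℍ) (r s : ℝ) :
    IsPreconnected (ball a r ∩ ball b s) := by
  rw [← isOpenEmbedding_coe.isInducing.isPreconnected_image,
    Set.image_inter isOpenEmbedding_coe.injective, image_coe_ball, image_coe_ball]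
  exact ((convex_ball _ _).inter (convex_ball _ _)).isPreconnected

end Pool.Agent.Lib.MP_b9289b_nt
end
end

section

/-! (N02) One step of the continuation. -/

open UpperHalfPlane Metric Set Filter Topology MatrixGroups
open scoped ComplexConjugate

noncomputable section

namespace Pool.Agent.Lib.MP_b9289b_nt

/-- A property of germs with continuation radius `δ`. -/
structure Cont (P : (ℍ → ℂ) → ℍ → Prop) (δ : ℝ) : Prop where
  pos : 0 < δ
  loc : ∀ h h' w, h =ᶠ[𝓝 w] h' → P h w → P h' w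
  nf : ∀ h w, P h w → MeromorphicNFAt (↑ₕh) (w : ℂ)
  ext : ∀ h w, P h w → ∃ h', h' =ᶠ[𝓝 w] h ∧ ∀ w', dist w' w < δ → P h' w'

/-- PROOF: for `w` with `dist w I < r` choose `h_w` by `ext`. CLAIM: if `dist w I < r`, `dist w' I < r`, `dist v w < δ/4`, `dist v w' < δ/4` then `h_w = h_w'` near `v`. Proof: on `ball w δ ∩ ball I r` (preconnected, contains `w`, and
contains `w'`) the functions `h_w` and `h` agree near `w`, hence near every point (`nf_identity`), in particular near `w'`, where `h` agrees with `h_w'`. So `h_w = h_w'` near `w'`, hence near every point of `ball w' (δ/2) ⊆ ball w δ ∩ ball w' δ`, which contains `v`.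
Define `h' v = h v` if `dist v I < r`, and otherwise `h' v = h_w v` for some `w` with `dist w I < r`, `dist v w < δ/4` (exists if `dist v I < r + δ/4` by `exists_between_dist`). By the claim (and as `h_w = h` near every point of `ball w δ ∩ ball I r`) `h' = h_w` on
`ball w (δ/4)` for every such `w`, so `P h' v` by `loc`. -/
theorem Cont.step {P : (ℍ → ℂ) → ℍ → Prop} {δ : ℝ} (hP : Cont P δ) {r : ℝ} (hr : 0 < r) {h : ℍ → ℂ}
    (hh : ∀ w, dist w I < r → P h w) : ∃ h' : ℍ → ℂ, (∀ w, dist w I < r → h' w = h w) ∧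
      ∀ w, dist w I < r + δ / 4 → P h' w := by
  classical
  have hδ := hP.pos
  have hex : ∀ w, ∃ k : ℍ → ℂ, dist w I < r → (k =ᶠ[𝓝 w] h ∧ ∀ w', dist w' w < δ → P k w') := by
    intro w
    by_cases hw : dist w I < r
    · obtain ⟨k, hk⟩ := hP.ext h w (hh w hw)
      exact ⟨k, fun _ => hk⟩
    · exact ⟨h, fun h1 => absurd h1 hw⟩
  choose H hH using hex
  have c1 : ∀ w, dist w I < r → ∀ v, dist v w < δ → dist v I < r → H w =ᶠ[𝓝 v] h := by
    intro w hw v hv hvI
    refine nf_identity (U := ball w δ ∩ ball I r) (isOpen_ball.inter isOpen_ball)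
      (isPreconnected_ball_inter_ball w I δ r) ?_ ?_ (u := w) ⟨mem_ball_self hδ, hw⟩ (hH w hw).1 v ⟨hv, hvI⟩
    · intro x hx
      exact hP.nf _ _ ((hH w hw).2 x hx.1)
    · intro x hx
      exact hP.nf _ _ (hh x hx.2)
  have c2 : ∀ w w', dist w I < r → dist w' I < r → ∀ v, dist v w < δ / 4 → dist v w' < δ / 4 →
      H w =ᶠ[𝓝 v] H w' := by
    intro w w' hw hw' v hv hv'
    have hd : dist w' w < δ := by
      have := dist_triangle w' v w
      rw [dist_comm w' v] at this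
      linarith
    have h1 : H w =ᶠ[𝓝 w'] H w' := (c1 w hw w' hd hw').trans (hH w' hw').1.symm
    refine nf_identity (U := ball w δ ∩ ball w' δ) (isOpen_ball.inter isOpen_ball)
      (isPreconnected_ball_inter_ball w w' δ δ) ?_ ?_ (u := w') ⟨hd, mem_ball_self hδ⟩ h1 v
      ⟨by rw [mem_ball]; linarith, by rw [mem_ball]; linarith⟩
    · intro x hx
      exact hP.nf _ _ ((hH w hw).2 x hx.1)
    · intro x hx
      exact hP.nf _ _ ((hH w' hw').2 x hx.2)
  obtain ⟨h', hh'1, hh'2⟩ : ∃ h' : ℍ → ℂ, (∀ v, dist v I < r → h' v = h v) ∧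
      ∀ v, ¬ dist v I < r → ∀ hv : ∃ w, dist w I < r ∧ dist v w < δ / 4, h' v = H hv.choose v := by
    refine ⟨fun v => if dist v I < r then h v else
      if hv : ∃ w, dist w I < r ∧ dist v w < δ / 4 then H hv.choose v else 0, fun v hv => ?_, fun v hv hv' => ?_⟩
    · exact if_pos hv
    · simp only [if_neg hv, dif_pos hv']
  have c3 : ∀ w, dist w I < r → ∀ v, dist v w < δ / 4 → h' v = H w v := by
    intro w hw v hv
    by_cases hvI : dist v I < r
    · rw [hh'1 v hvI]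
      exact (c1 w hw v (by linarith) hvI).self_of_nhds.symm
    · have hex : ∃ w, dist w I < r ∧ dist v w < δ / 4 := ⟨w, hw, hv⟩
      rw [hh'2 v hvI hex]
      exact (c2 _ w hex.choose_spec.1 hw v hex.choose_spec.2 hv).self_of_nhds
  refine ⟨h', hh'1, fun v hv => ?_⟩
  obtain ⟨w, hw, hvw⟩ := exists_between_dist v hr (by linarith : 0 < δ / 4) hv
  refine hP.loc (H w) h' v ?_ ((hH w hw).2 v (by linarith))
  have hmem : ball w (δ / 4) ∈ 𝓝 v := isOpen_ball.mem_nhds hvw
  filter_upwards [hmem] with x hx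
  exact (c3 w hw x hx).symm

end Pool.Agent.Lib.MP_b9289b_nt
end
end

section

/-! (N03) The continuation lemma. -/

open UpperHalfPlane Metric Set Filter Topology MatrixGroups
open scoped ComplexConjugate

noncomputable section

namespace Pool.Agent.Lib.MP_b9289b_nt

/-- The continuation lemma. PROOF: start with `ext` at `I` (radius `r₀ = δ`), iterate `Cont.step`: `h_n` with `P h_n w` for `dist w I < δ + n δ/4` and `h_{n+1} = h_n` on the ball of radius `δ + n δ/4`. Put `h w = h_n w` for the least (or any) `n` with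
`dist w I < δ + n δ/4`; near every point `h = h_n` for a suitable `n`. -/
theorem Cont.exists_global {P : (ℍ → ℂ) → ℍ → Prop} {δ : ℝ} (hP : Cont P δ) {h₀ : ℍ → ℂ}
    (h0 : P h₀ I) : ∃ h : ℍ → ℂ, h =ᶠ[𝓝 I] h₀ ∧ ∀ w, P h w := by
  classical
  have hδ := hP.pos
  obtain ⟨h1, h1e, h1P⟩ := hP.ext h₀ I h0
  let r : ℕ → ℝ := fun n => δ + n * (δ / 4)
  have hr : ∀ n, 0 < r n := fun n => by
    have : (0 : ℝ) ≤ n * (δ / 4) := by positivity
    show 0 < δ + n * (δ / 4)
    linarith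
  have hrs : ∀ n, r (n + 1) = r n + δ / 4 := fun n => by
    show δ + ((n + 1 : ℕ) : ℝ) * (δ / 4) = δ + n * (δ / 4) + δ / 4
    push_cast
    ring
  have hmono : ∀ n m, n ≤ m → r n ≤ r m := by
    intro n m hnm
    have : (n : ℝ) ≤ m := by exact_mod_cast hnm
    show δ + n * (δ / 4) ≤ δ + m * (δ / 4)
    have h2 : 0 < δ / 4 := by positivity
    nlinarith
  have step : ∀ (n : ℕ) (h : {h : ℍ → ℂ // ∀ w, dist w I < r n → P h w}),
      ∃ h' : {h : ℍ → ℂ // ∀ w, dist w I < r (n + 1) → P h w},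
        ∀ w, dist w I < r n → h'.1 w = h.1 w := by
    intro n h
    obtain ⟨h', h2, h3⟩ := hP.step (hr n) h.2
    exact ⟨⟨h', fun w hw => h3 w (by rw [hrs] at hw; exact hw)⟩, h2⟩
  choose f hf using step
  have hr0 : r 0 = δ := by
    show δ + ((0 : ℕ) : ℝ) * (δ / 4) = δ
    simp
  let H : ∀ n, {h : ℍ → ℂ // ∀ w, dist w I < r n → P h w} := fun n =>
    Nat.rec (motive := fun n => {h : ℍ → ℂ // ∀ w, dist w I < r n → P h w})
      ⟨h1, fun w hw => h1P w (by rw [hr0] at hw; exact hw)⟩ (fun n h => f n h) n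
  have hH : ∀ n w, dist w I < r n → (H (n + 1)).1 w = (H n).1 w := fun n w hw => hf n (H n) w hw
  have hH' : ∀ n m, n ≤ m → ∀ w, dist w I < r n → (H m).1 w = (H n).1 w := by
    intro n m hnm
    induction m, hnm using Nat.le_induction with
    | base => intro w _; rfl
    | succ m hm ih =>
      intro w hw
      rw [hH m w (lt_of_lt_of_le hw (hmono n m hm)), ih w hw]
  have hex : ∀ w : ℍ, ∃ n : ℕ, dist w I < r n := by
    intro w
    obtain ⟨n, hn⟩ := exists_nat_gt (dist w I / (δ / 4))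
    refine ⟨n, ?_⟩
    have h2 : 0 < δ / 4 := by positivity
    rw [div_lt_iff₀ h2] at hn
    show dist w I < δ + n * (δ / 4)
    linarith
  let h : ℍ → ℂ := fun w => (H (Nat.find (hex w))).1 w
  have hh : ∀ n w, dist w I < r n → h w = (H n).1 w := by
    intro n w hw
    exact (hH' _ _ (Nat.find_min' (hex w) hw) w (Nat.find_spec (hex w))).symm
  have hev : ∀ n w, dist w I < r n → h =ᶠ[𝓝 w] (H n).1 := by
    intro n w hw
    have h2 : ∀ᶠ v in 𝓝 w, dist v I < r n :=
      (isOpen_lt (continuous_id.dist continuous_const) continuous_const).mem_nhds hw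
    filter_upwards [h2] with v hv
    exact hh n v hv
  refine ⟨h, ?_, ?_⟩
  · have h2 := hev 0 I (by rw [dist_self]; exact hr 0)
    exact h2.trans h1e
  · intro w
    obtain ⟨n, hn⟩ := hex w
    exact hP.loc _ _ w (hev n w hn).symm ((H n).2 w hn)

end Pool.Agent.Lib.MP_b9289b_nt
end
end

section

/-!
# The octagons in the Klein coordinate (definitions)
-/

open Metric Set Filter Topology
open scoped ComplexConjugate

noncomputable section

namespace Pool.Agent.Lib.MP_b9289b_nt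

/-- First Klein coordinate of a point of the disc. -/
def kx (z : ℂ) : ℝ := 2 * z.re / (1 + Complex.normSq z)

/-- Second Klein coordinate. -/
def ky (z : ℂ) : ℝ := 2 * z.im / (1 + Complex.normSq z)

/-- The point of the disc with Klein coordinates `a, b` (`a² + b² < 1`). -/
def kinv (a b : ℝ) : ℂ := ((a : ℂ) + (b : ℂ) * Complex.I) / ((1 + √(1 - a ^ 2 - b ^ 2) : ℝ) : ℂ)

/-- The open octagon, in the coordinate of the disc. -/
def KOct (A : ℝ) : Set ℂ := {z | ‖z‖ < 1 ∧ |kx z| < A ∧ |ky z| < A ∧ |kx z| + |ky z| < 1 / A}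

/-- The closed octagon. -/
def KOctC (A : ℝ) : Set ℂ := {z | ‖z‖ < 1 ∧ |kx z| ≤ A ∧ |ky z| ≤ A ∧ |kx z| + |ky z| ≤ 1 / A}

/-- `f` is the Riemann map of the octagon, extended to the closed octagon. -/
structure TExt (A : ℝ) (f : ℂ → ℂ) : Prop where
  rmap : RMap (KOct A) f
  cont : ContinuousOn f (KOctC A)
  inj : InjOn f (KOctC A)
  bd : ∀ z ∈ KOctC A, z ∉ KOct A → ‖f z‖ = 1

/-- The corner of the octagon in the sector `0 < arg z < π/4`. -/
def tcorner (A : ℝ) : ℂ := kinv A (1 / A - A)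

/-- The angle of the image of the corner. -/
def theta (A : ℝ) (f : ℂ → ℂ) : ℝ := Complex.arg (f (tcorner A))

/-- The eighth root of unity `exp (i π / 4)`. -/
def e8 : ℂ := Complex.exp ((Real.pi / 4 : ℝ) * Complex.I)

/-- The part of the frontier in the sector, as a path: `0 ≤ s ≤ 1 / (2 A)` is the second Klein coordinate. -/
def bp (A s : ℝ) : ℂ := kinv (min A (1 / A - s)) s

/-- The Moebius map of the disc onto the upper half plane with `e^{iα} ↦ 0`, `e^{-iα} ↦ ∞`, `0 ↦ e^{iα}`. -/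
def WW (α : ℝ) (η : ℂ) : ℂ :=
  (Complex.exp ((α : ℂ) * Complex.I) - η) / (1 - η * Complex.exp ((α : ℂ) * Complex.I))

end Pool.Agent.Lib.MP_b9289b_nt
end
end

section

/-! (T06a) The Moebius map. -/

open Metric Set Filter Topology
open scoped ComplexConjugate

noncomputable section

namespace Pool.Agent.Lib.MP_b9289b_nt

/-- PROOF: `η = e^{iβ}`, `WW α η = sin ((β - α)/2) / sin ((α + β)/2)`. -/
lemma WW_exp {α β : ℝ} (hα : 0 < α) (hβ : 0 ≤ β) (h : α + β < 2 * Real.pi) :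
    WW α (Complex.exp (β * Complex.I)) =
      ((Real.sin ((β - α) / 2) / Real.sin ((α + β) / 2) : ℝ) : ℂ) := by
  have hs : 0 < Real.sin ((α + β) / 2) :=
    Real.sin_pos_of_pos_of_lt_pi (by linarith) (by linarith)
  have hs' : Complex.sin (((α : ℂ) + β) / 2) ≠ 0 := by
    have : Complex.sin (((α : ℂ) + β) / 2) = ((Real.sin ((α + β) / 2) : ℝ) : ℂ) := by
      push_cast
      rfl
    rw [this]
    exact_mod_cast hs.ne'
  have hE1 : Complex.exp (α / 2 * Complex.I) ≠ 0 := Complex.exp_ne_zero _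
  have hE2 : Complex.exp (β / 2 * Complex.I) ≠ 0 := Complex.exp_ne_zero _
  have e1 : Complex.exp (α * Complex.I) = Complex.exp (α / 2 * Complex.I) ^ 2 := by
    rw [← Complex.exp_nat_mul]
    congr 1
    push_cast
    ring
  have e2 : Complex.exp (β * Complex.I) = Complex.exp (β / 2 * Complex.I) ^ 2 := by
    rw [← Complex.exp_nat_mul]
    congr 1
    push_cast
    ring
  have e3 : Complex.exp (((α : ℂ) + β) / 2 * Complex.I) =
      Complex.exp (α / 2 * Complex.I) * Complex.exp (β / 2 * Complex.I) := by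
    rw [← Complex.exp_add]
    congr 1
    ring
  have e4 : Complex.exp (-(((α : ℂ) + β) / 2) * Complex.I) =
      (Complex.exp (α / 2 * Complex.I))⁻¹ * (Complex.exp (β / 2 * Complex.I))⁻¹ := by
    rw [← Complex.exp_neg, ← Complex.exp_neg, ← Complex.exp_add]
    congr 1
    ring
  have e5 : Complex.exp (((β : ℂ) - α) / 2 * Complex.I) =
      (Complex.exp (α / 2 * Complex.I))⁻¹ * Complex.exp (β / 2 * Complex.I) := by
    rw [← Complex.exp_neg, ← Complex.exp_add]
    congr 1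
    ring
  have e6 : Complex.exp (-(((β : ℂ) - α) / 2) * Complex.I) =
      Complex.exp (α / 2 * Complex.I) * (Complex.exp (β / 2 * Complex.I))⁻¹ := by
    rw [← Complex.exp_neg, ← Complex.exp_add]
    congr 1
    ring
  have key : (Complex.exp (α * Complex.I) - Complex.exp (β * Complex.I)) *
      Complex.sin (((α : ℂ) + β) / 2) =
      Complex.sin (((β : ℂ) - α) / 2) *
        (1 - Complex.exp (β * Complex.I) * Complex.exp (α * Complex.I)) := by
    rw [Complex.sin, Complex.sin, e1, e2, e3, e4, e5, e6]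
    clear e1 e2 e3 e4 e5 e6 hs'
    generalize Complex.exp (α / 2 * Complex.I) = X at hE1 ⊢
    generalize Complex.exp (β / 2 * Complex.I) = Y at hE2 ⊢
    field_simp
  have hden : 1 - Complex.exp (β * Complex.I) * Complex.exp (α * Complex.I) ≠ 0 := by
    have : 1 - Complex.exp (β * Complex.I) * Complex.exp (α * Complex.I) =
        -2 * Complex.I * Complex.exp (α / 2 * Complex.I) * Complex.exp (β / 2 * Complex.I) *
          Complex.sin (((α : ℂ) + β) / 2) := by
      rw [Complex.sin, e1, e2, e3, e4]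
      clear key e1 e2 e3 e4 e5 e6 hs'
      have hI : Complex.I ^ 2 = -1 := Complex.I_sq
      generalize Complex.exp (α / 2 * Complex.I) = X at hE1 ⊢
      generalize Complex.exp (β / 2 * Complex.I) = Y at hE2 ⊢
      field_simp
      linear_combination (1 - X ^ 2 * Y ^ 2) * hI
    rw [this]
    exact mul_ne_zero (mul_ne_zero (mul_ne_zero (mul_ne_zero (by norm_num) Complex.I_ne_zero)
      hE1) hE2) hs'
  unfold WW
  push_cast
  rw [div_eq_div_iff hden hs']
  exact key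

/-- PROOF: multiply numerator and denominator by `η`, `η * conj η = 1`. -/
lemma WW_conj {α : ℝ} {η : ℂ} (h : ‖η‖ = 1) : WW α (conj η) = (WW α η)⁻¹ := by
  have hη : η ≠ 0 := by
    intro h0
    rw [h0, norm_zero] at h
    exact zero_ne_one h
  have h1 : conj η = η⁻¹ := by
    refine eq_inv_of_mul_eq_one_right ?_
    rw [Complex.mul_conj, Complex.normSq_eq_norm_sq, h]
    simp
  unfold WW
  rw [h1, inv_div]
  have h2 : Complex.exp ((α : ℂ) * Complex.I) - η⁻¹ =
      η⁻¹ * (η * Complex.exp ((α : ℂ) * Complex.I) - 1) := by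
    field_simp
  have h3 : 1 - η⁻¹ * Complex.exp ((α : ℂ) * Complex.I) =
      η⁻¹ * (η - Complex.exp ((α : ℂ) * Complex.I)) := by
    field_simp
  rw [h2, h3, mul_div_mul_left _ _ (inv_ne_zero hη), ← neg_div_neg_eq, neg_sub, neg_sub]

/-- `Im ((e^{iα} - η) conj (1 - η e^{iα})) = sin α (1 - |η|²)`. The value is in the closed upper half plane and is neither `0` nor a pole except at `η = e^{±iα}`. -/
lemma WW_im_nonneg {α : ℝ} (h0 : 0 < α) (h1 : α < Real.pi) {η : ℂ} (h : ‖η‖ ≤ 1) :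
    0 ≤ (WW α η).im := by
  have hs : 0 < Real.sin α := Real.sin_pos_of_pos_of_lt_pi h0 h1
  have hn : η.re * η.re + η.im * η.im ≤ 1 := by
    rw [← Complex.normSq_apply, Complex.normSq_eq_norm_sq]
    nlinarith [norm_nonneg η]
  unfold WW
  rw [Complex.div_im, ← sub_div]
  refine div_nonneg ?_ (Complex.normSq_nonneg _)
  simp only [Complex.sub_re, Complex.sub_im, Complex.mul_re, Complex.mul_im, Complex.one_re,
    Complex.one_im, Complex.exp_ofReal_mul_I_re, Complex.exp_ofReal_mul_I_im]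
  have hsc := Real.sin_sq_add_cos_sq α
  have : (Real.sin α - η.im) * (1 - (η.re * Real.cos α - η.im * Real.sin α)) -
      (Real.cos α - η.re) * (0 - (η.re * Real.sin α + η.im * Real.cos α)) =
      Real.sin α * (1 - (η.re * η.re + η.im * η.im)) := by
    linear_combination η.im * hsc
  rw [this]
  exact mul_nonneg hs.le (by linarith)

private lemma WW_den_ne_zero_aux {α : ℝ} {η : ℂ} (h2 : η ≠ Complex.exp (-(α * Complex.I))) :
    1 - η * Complex.exp (α * Complex.I) ≠ 0 := by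
  intro h
  apply h2
  rw [Complex.exp_neg]
  exact eq_inv_of_mul_eq_one_left (sub_eq_zero.1 h).symm

lemma WW_ne_zero {α : ℝ} {η : ℂ} (h1 : η ≠ Complex.exp (α * Complex.I))
    (h2 : η ≠ Complex.exp (-(α * Complex.I))) : WW α η ≠ 0 := by
  unfold WW
  exact div_ne_zero (sub_ne_zero.2 (Ne.symm h1)) (WW_den_ne_zero_aux h2)

lemma WW_den_ne_zero {α : ℝ} {η : ℂ} (h2 : η ≠ Complex.exp (-(α * Complex.I))) :
    1 - η * Complex.exp (α * Complex.I) ≠ 0 :=
  WW_den_ne_zero_aux h2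

lemma WW_zero (α : ℝ) : WW α 0 = Complex.exp (α * Complex.I) := by
  simp [WW]

end Pool.Agent.Lib.MP_b9289b_nt
end
end

section

/-! (T01a) Klein coordinates: elementary facts. -/

open Metric Set Filter Topology
open scoped ComplexConjugate

noncomputable section

namespace Pool.Agent.Lib.MP_b9289b_nt

private lemma one_add_normSq_pos (z : ℂ) : 0 < 1 + Complex.normSq z := by
  have := Complex.normSq_nonneg z
  linarith

lemma continuous_kx : Continuous kx := by
  unfold kx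
  exact (continuous_const.mul Complex.continuous_re).div
    (continuous_const.add Complex.continuous_normSq) (fun z => (one_add_normSq_pos z).ne')

lemma continuous_ky : Continuous ky := by
  unfold ky
  exact (continuous_const.mul Complex.continuous_im).div
    (continuous_const.add Complex.continuous_normSq) (fun z => (one_add_normSq_pos z).ne')

lemma kx_zero : kx 0 = 0 := by
  simp [kx]

lemma ky_zero : ky 0 = 0 := by
  simp [ky]

lemma kx_conj (z : ℂ) : kx (conj z) = kx z := by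
  unfold kx
  rw [Complex.normSq_conj, Complex.conj_re]

lemma ky_conj (z : ℂ) : ky (conj z) = -ky z := by
  unfold ky
  rw [Complex.normSq_conj, Complex.conj_im]
  ring

lemma kx_I_mul (z : ℂ) : kx (Complex.I * z) = -ky z := by
  unfold kx ky
  rw [Complex.normSq_mul, Complex.normSq_I, one_mul, Complex.mul_re, Complex.I_re, Complex.I_im]
  ring

lemma ky_I_mul (z : ℂ) : ky (Complex.I * z) = kx z := by
  unfold kx ky
  rw [Complex.normSq_mul, Complex.normSq_I, one_mul, Complex.mul_im, Complex.I_re, Complex.I_im]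
  ring

private lemma kk_sum (z : ℂ) :
    kx z ^ 2 + ky z ^ 2 = 1 - ((1 - Complex.normSq z) / (1 + Complex.normSq z)) ^ 2 := by
  have h := (one_add_normSq_pos z).ne'
  have hn : Complex.normSq z = z.re * z.re + z.im * z.im := Complex.normSq_apply z
  unfold kx ky
  field_simp
  rw [hn]
  ring

/-- PROOF: `kx z ^ 2 + ky z ^ 2 = 4 n / (1 + n) ^ 2` with `n = normSq z`, and `(1 + n) ^ 2 - 4 n = (1 - n) ^ 2`. -/
lemma kx_sq_add_ky_sq_lt {z : ℂ} (h : ‖z‖ < 1) : kx z ^ 2 + ky z ^ 2 < 1 := by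
  rw [kk_sum]
  have hn : Complex.normSq z < 1 := by
    rw [Complex.normSq_eq_norm_sq]
    nlinarith [norm_nonneg z]
  have : 0 < (1 - Complex.normSq z) / (1 + Complex.normSq z) :=
    div_pos (by linarith) (one_add_normSq_pos z)
  have := pow_pos this 2
  linarith

lemma kx_sq_add_ky_sq_eq {z : ℂ} (h : ‖z‖ = 1) : kx z ^ 2 + ky z ^ 2 = 1 := by
  rw [kk_sum, Complex.normSq_eq_norm_sq, h]
  norm_num

private lemma kinv_re (a b : ℝ) : (kinv a b).re = a / (1 + √(1 - a ^ 2 - b ^ 2)) := by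
  unfold kinv
  rw [Complex.div_ofReal_re]
  simp

private lemma kinv_im (a b : ℝ) : (kinv a b).im = b / (1 + √(1 - a ^ 2 - b ^ 2)) := by
  unfold kinv
  rw [Complex.div_ofReal_im]
  simp

private lemma one_add_sqrt_pos (x : ℝ) : 0 < 1 + √x := by
  have := Real.sqrt_nonneg x
  linarith

private lemma kinv_normSq {a b : ℝ} (h : a ^ 2 + b ^ 2 < 1) :
    Complex.normSq (kinv a b) =
      (1 - √(1 - a ^ 2 - b ^ 2)) / (1 + √(1 - a ^ 2 - b ^ 2)) := by
  have hr := (one_add_sqrt_pos (1 - a ^ 2 - b ^ 2)).ne'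
  have hs : √(1 - a ^ 2 - b ^ 2) ^ 2 = 1 - a ^ 2 - b ^ 2 := Real.sq_sqrt (by linarith)
  rw [Complex.normSq_apply, kinv_re, kinv_im]
  field_simp
  linear_combination hs

private lemma one_add_kinv_normSq {a b : ℝ} (h : a ^ 2 + b ^ 2 < 1) :
    1 + Complex.normSq (kinv a b) = 2 / (1 + √(1 - a ^ 2 - b ^ 2)) := by
  rw [kinv_normSq h]
  have hr := (one_add_sqrt_pos (1 - a ^ 2 - b ^ 2)).ne'
  field_simp
  ring

/-- PROOF: `n = normSq (kinv a b) = (a² + b²) / (1 + r)²`, `r = √(1 - a² - b²)`, so `n = (1 - r) / (1 + r)`, `1 + n = 2 / (1 + r)`. -/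
lemma kx_kinv {a b : ℝ} (h : a ^ 2 + b ^ 2 < 1) : kx (kinv a b) = a := by
  have hr := (one_add_sqrt_pos (1 - a ^ 2 - b ^ 2)).ne'
  unfold kx
  rw [one_add_kinv_normSq h, kinv_re]
  field_simp

lemma ky_kinv {a b : ℝ} (h : a ^ 2 + b ^ 2 < 1) : ky (kinv a b) = b := by
  have hr := (one_add_sqrt_pos (1 - a ^ 2 - b ^ 2)).ne'
  unfold ky
  rw [one_add_kinv_normSq h, kinv_im]
  field_simp

lemma norm_kinv_lt {a b : ℝ} (h : a ^ 2 + b ^ 2 < 1) : ‖kinv a b‖ < 1 := by
  have hr := one_add_sqrt_pos (1 - a ^ 2 - b ^ 2)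
  have hs : 0 < √(1 - a ^ 2 - b ^ 2) := Real.sqrt_pos.2 (by linarith)
  have h1 : Complex.normSq (kinv a b) < 1 := by
    rw [kinv_normSq h, div_lt_one hr]
    linarith
  rw [Complex.normSq_eq_norm_sq] at h1
  nlinarith [norm_nonneg (kinv a b)]

/-- PROOF: `√(1 - kx² - ky²) = (1 - n) / (1 + n)`. -/
lemma kinv_kx_ky {z : ℂ} (h : ‖z‖ < 1) : kinv (kx z) (ky z) = z := by
  have hn : Complex.normSq z < 1 := by
    rw [Complex.normSq_eq_norm_sq]
    nlinarith [norm_nonneg z]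
  have hp := one_add_normSq_pos z
  have hs : √(1 - kx z ^ 2 - ky z ^ 2) = (1 - Complex.normSq z) / (1 + Complex.normSq z) := by
    have e : 1 - kx z ^ 2 - ky z ^ 2 = ((1 - Complex.normSq z) / (1 + Complex.normSq z)) ^ 2 := by
      linarith [kk_sum z]
    rw [e]
    exact Real.sqrt_sq (div_nonneg (by linarith) hp.le)
  have h2 : 1 + √(1 - kx z ^ 2 - ky z ^ 2) = 2 / (1 + Complex.normSq z) := by
    rw [hs]
    field_simp
    ring
  apply Complex.ext
  · rw [kinv_re, h2, kx]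
    field_simp
  · rw [kinv_im, h2, ky]
    field_simp

lemma continuous_kinv : Continuous (fun p : ℝ × ℝ => kinv p.1 p.2) := by
  unfold kinv
  refine Continuous.div ?_ ?_ ?_
  · exact (Complex.continuous_ofReal.comp continuous_fst).add
      ((Complex.continuous_ofReal.comp continuous_snd).mul continuous_const)
  · refine Complex.continuous_ofReal.comp ?_
    refine continuous_const.add (Real.continuous_sqrt.comp ?_)
    exact (continuous_const.sub (continuous_fst.pow 2)).sub (continuous_snd.pow 2)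
  · intro p
    exact_mod_cast (one_add_sqrt_pos _).ne'

end Pool.Agent.Lib.MP_b9289b_nt
end
end

section

/-! (T01b) Klein coordinates: monotonicity and signs. -/

open Metric Set Filter Topology
open scoped ComplexConjugate

noncomputable section

namespace Pool.Agent.Lib.MP_b9289b_nt

private lemma T01b_n (z : ℂ) (t : ℝ) :
    Complex.normSq ((t : ℂ) * z) = t ^ 2 * Complex.normSq z := by
  rw [Complex.normSq_mul, Complex.normSq_ofReal, sq]

private lemma T01b_n1 {z : ℂ} (h : ‖z‖ < 1) : Complex.normSq z < 1 := by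
  rw [Complex.normSq_eq_norm_sq]
  nlinarith [norm_nonneg z]

private lemma T01b_le {c n t : ℝ} (hn : 0 ≤ n) (hn1 : n < 1) (h0 : 0 ≤ t) (h1 : t ≤ 1) :
    |2 * (t * c) / (1 + t ^ 2 * n)| ≤ |2 * c / (1 + n)| := by
  have hp : 0 < 1 + n := by linarith
  have hp2 : 0 < 1 + t ^ 2 * n := by positivity
  have h3 : t * (1 + n) ≤ 1 + t ^ 2 * n := by nlinarith [mul_nonneg (sub_nonneg.2 h1) (by nlinarith : (0:ℝ) ≤ 1 - t * n)]
  rw [abs_div, abs_div, abs_of_pos hp, abs_of_pos hp2, div_le_div_iff₀ hp2 hp, abs_mul, abs_mul,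
    abs_mul, abs_of_nonneg h0, abs_two]
  nlinarith [mul_le_mul_of_nonneg_left h3 (abs_nonneg c)]

private lemma T01b_lt {c n t : ℝ} (hn : 0 ≤ n) (hn1 : n < 1) (h0 : 0 ≤ t) (h1 : t < 1)
    (hc : c ≠ 0) : |2 * (t * c) / (1 + t ^ 2 * n)| < |2 * c / (1 + n)| := by
  have hp : 0 < 1 + n := by linarith
  have hp2 : 0 < 1 + t ^ 2 * n := by positivity
  have h3 : t * (1 + n) < 1 + t ^ 2 * n := by
    nlinarith [mul_pos (sub_pos.2 h1) (by nlinarith : (0:ℝ) < 1 - t * n)]
  rw [abs_div, abs_div, abs_of_pos hp, abs_of_pos hp2, div_lt_div_iff₀ hp2 hp, abs_mul, abs_mul,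
    abs_mul, abs_of_nonneg h0, abs_two]
  nlinarith [mul_lt_mul_of_pos_left h3 (abs_pos.2 hc)]

private lemma T01b_p (z : ℂ) : 0 < 1 + Complex.normSq z := by
  have := Complex.normSq_nonneg z
  linarith

private lemma T01b_ne {c n : ℝ} (h : 2 * c / (1 + n) ≠ 0) : c ≠ 0 := by
  rintro rfl
  simp at h

/-- PROOF: `kx (t z) = 2 t x / (1 + t² n)` and `t (1 + n) ≤ 1 + t² n` as `(1 - t)(1 - t n) ≥ 0`. -/
lemma abs_kx_mul_le {z : ℂ} (h : ‖z‖ < 1) {t : ℝ} (h0 : 0 ≤ t) (h1 : t ≤ 1) :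
    |kx (t * z)| ≤ |kx z| := by
  unfold kx
  rw [T01b_n, Complex.re_ofReal_mul]
  exact T01b_le (Complex.normSq_nonneg z) (T01b_n1 h) h0 h1

lemma abs_ky_mul_le {z : ℂ} (h : ‖z‖ < 1) {t : ℝ} (h0 : 0 ≤ t) (h1 : t ≤ 1) :
    |ky (t * z)| ≤ |ky z| := by
  unfold ky
  rw [T01b_n, Complex.im_ofReal_mul]
  exact T01b_le (Complex.normSq_nonneg z) (T01b_n1 h) h0 h1

lemma abs_kx_mul_lt {z : ℂ} (h : ‖z‖ < 1) {t : ℝ} (h0 : 0 ≤ t) (h1 : t < 1) (hz : kx z ≠ 0) :
    |kx (t * z)| < |kx z| := by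
  unfold kx at hz ⊢
  rw [T01b_n, Complex.re_ofReal_mul]
  exact T01b_lt (Complex.normSq_nonneg z) (T01b_n1 h) h0 h1 (T01b_ne hz)

lemma abs_ky_mul_lt {z : ℂ} (h : ‖z‖ < 1) {t : ℝ} (h0 : 0 ≤ t) (h1 : t < 1) (hz : ky z ≠ 0) :
    |ky (t * z)| < |ky z| := by
  unfold ky at hz ⊢
  rw [T01b_n, Complex.im_ofReal_mul]
  exact T01b_lt (Complex.normSq_nonneg z) (T01b_n1 h) h0 h1 (T01b_ne hz)

/-- signs of the coordinates -/
lemma kx_nonneg_iff {z : ℂ} : 0 ≤ kx z ↔ 0 ≤ z.re := by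
  unfold kx
  rw [le_div_iff₀ (T01b_p z), zero_mul]
  constructor <;> intro h <;> linarith

lemma ky_nonneg_iff {z : ℂ} : 0 ≤ ky z ↔ 0 ≤ z.im := by
  unfold ky
  rw [le_div_iff₀ (T01b_p z), zero_mul]
  constructor <;> intro h <;> linarith

lemma ky_pos_iff {z : ℂ} : 0 < ky z ↔ 0 < z.im := by
  unfold ky
  rw [lt_div_iff₀ (T01b_p z), zero_mul]
  constructor <;> intro h <;> linarith

lemma ky_le_kx_iff {z : ℂ} : ky z ≤ kx z ↔ z.im ≤ z.re := by
  unfold ky kx
  rw [div_le_div_iff_of_pos_right (T01b_p z)]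
  constructor <;> intro h <;> linarith

lemma ky_lt_kx_iff {z : ℂ} : ky z < kx z ↔ z.im < z.re := by
  unfold ky kx
  rw [div_lt_div_iff_of_pos_right (T01b_p z)]
  constructor <;> intro h <;> linarith

end Pool.Agent.Lib.MP_b9289b_nt
end
end

section

/-! (T02a) The octagon: topology. -/

open Metric Set Filter Topology
open scoped ComplexConjugate

noncomputable section

namespace Pool.Agent.Lib.MP_b9289b_nt

lemma isOpen_KOct (A : ℝ) : IsOpen (KOct A) := by
  have h1 : IsOpen {z : ℂ | ‖z‖ < 1} := isOpen_lt continuous_norm continuous_const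
  have h2 : IsOpen {z : ℂ | |kx z| < A} := isOpen_lt continuous_kx.abs continuous_const
  have h3 : IsOpen {z : ℂ | |ky z| < A} := isOpen_lt continuous_ky.abs continuous_const
  have h4 : IsOpen {z : ℂ | |kx z| + |ky z| < 1 / A} :=
    isOpen_lt (continuous_kx.abs.add continuous_ky.abs) continuous_const
  exact h1.inter (h2.inter (h3.inter h4))

lemma KOct_subset_KOctC (A : ℝ) : KOct A ⊆ KOctC A := by
  rintro z ⟨h1, h2, h3, h4⟩
  exact ⟨h1, h2.le, h3.le, h4.le⟩

lemma zero_mem_KOct {A : ℝ} (hA : OkA A) : (0 : ℂ) ∈ KOct A := by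
  refine ⟨?_, ?_, ?_, ?_⟩
  · rw [norm_zero]
    exact one_pos
  · rw [kx_zero, abs_zero]
    exact hA.pos
  · rw [ky_zero, abs_zero]
    exact hA.pos
  · rw [kx_zero, ky_zero, abs_zero, add_zero]
    exact one_div_pos.2 hA.pos

/-- PROOF: `abs_kx_mul_le`, `abs_ky_mul_le`, `zero_mem_KOct`. -/
lemma star_KOct {A : ℝ} (hA : OkA A) : Star (KOct A) := by
  refine ⟨isOpen_KOct A, zero_mem_KOct hA, ?_, ?_⟩
  · rintro z ⟨h1, -⟩
    rwa [mem_ball_zero_iff]
  · rintro z ⟨h1, h2, h3, h4⟩ t h0 ht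
    have hx := abs_kx_mul_le h1 h0 ht
    have hy := abs_ky_mul_le h1 h0 ht
    refine ⟨?_, lt_of_le_of_lt hx h2, lt_of_le_of_lt hy h3, lt_of_le_of_lt (add_le_add hx hy) h4⟩
    rw [norm_mul, Complex.norm_real, Real.norm_of_nonneg h0]
    exact lt_of_le_of_lt (mul_le_of_le_one_left (norm_nonneg _) ht) h1

/-- The corners are inside the disc. PROOF: let `s = |a| + |b|`. If `s ≤ A` then `a² + b² ≤ s² ≤ A² < 1`. Otherwise `(A - |a|)(A - |b|) ≥ 0` gives `a² + b² = s² - 2|a||b| ≤ s² - 2 A s + 2 A²`,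
increasing in `s ≥ A`, so `≤ 1/A² - 2 + 2 A² < 1`, as `2 A⁴ - 3 A² + 1 = (2 A² - 1)(A² - 1) < 0`. -/
lemma sq_add_sq_lt_one {A a b : ℝ} (hA : OkA A) (h1 : |a| ≤ A) (h2 : |b| ≤ A)
    (h3 : |a| + |b| ≤ 1 / A) : a ^ 2 + b ^ 2 < 1 := by
  have hx0 := abs_nonneg a
  have hy0 := abs_nonneg b
  rw [← sq_abs a, ← sq_abs b]
  generalize |a| = x at *
  generalize |b| = y at *
  have hA0 := hA.pos
  have hA1 := hA.lt_one
  have hA2 := hA.half
  have hc : A * (1 / A) = 1 := mul_one_div_cancel hA0.ne'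
  generalize 1 / A = c at *
  have hA3 : A ^ 2 < 1 := by nlinarith
  rcases le_or_gt (x + y) A with hs | hs
  · nlinarith [mul_nonneg hx0 hy0]
  · have h4 : (x + y - A) ^ 2 ≤ (c - A) ^ 2 := by
      apply pow_le_pow_left₀ (by linarith) (by linarith)
    have h5 : x ^ 2 + y ^ 2 ≤ (x + y - A) ^ 2 + A ^ 2 := by
      nlinarith [mul_nonneg (sub_nonneg.2 h1) (sub_nonneg.2 h2)]
    have h6 : 0 < (2 * A ^ 2 - 1) * (1 - A ^ 2) := mul_pos (by linarith) (by linarith)
    have hc0 : c ≠ 0 := by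
      rintro rfl
      rw [mul_zero] at hc
      exact zero_ne_one hc
    have h7 : 0 < c ^ 2 * ((2 * A ^ 2 - 1) * (1 - A ^ 2)) := mul_pos (by positivity) h6
    have h8 : c ^ 2 * ((2 * A ^ 2 - 1) * (1 - A ^ 2)) =
        3 * (A * c) ^ 2 - 2 * A ^ 2 * (A * c) ^ 2 - c ^ 2 := by ring
    rw [h8, hc] at h7
    have h9 : (c - A) ^ 2 = c ^ 2 - 2 * (A * c) + A ^ 2 := by ring
    rw [hc] at h9
    nlinarith

/-- PROOF: `KOctC A = {‖z‖ ≤ 1, …}` by `sq_add_sq_lt_one` and `kx_sq_add_ky_sq_eq`; closed and bounded. -/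
lemma isCompact_KOctC {A : ℝ} (hA : OkA A) : IsCompact (KOctC A) := by
  have h0 : KOctC A = closedBall (0 : ℂ) 1 ∩
      ({z : ℂ | |kx z| ≤ A} ∩ ({z : ℂ | |ky z| ≤ A} ∩ {z : ℂ | |kx z| + |ky z| ≤ 1 / A})) := by
    ext z
    constructor
    · rintro ⟨h1, h2, h3, h4⟩
      exact ⟨mem_closedBall_zero_iff.2 h1.le, h2, h3, h4⟩
    · rintro ⟨h1, h2, h3, h4⟩
      refine ⟨?_, h2, h3, h4⟩
      rcases (mem_closedBall_zero_iff.1 h1).lt_or_eq with h5 | h5
      · exact h5
      · exfalso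
        have h6 := kx_sq_add_ky_sq_eq h5
        have h7 := sq_add_sq_lt_one hA h2 h3 h4
        exact absurd h6 h7.ne
  rw [h0]
  refine (isCompact_closedBall 0 1).inter_right ?_
  have h2 : IsClosed {z : ℂ | |kx z| ≤ A} := isClosed_le continuous_kx.abs continuous_const
  have h3 : IsClosed {z : ℂ | |ky z| ≤ A} := isClosed_le continuous_ky.abs continuous_const
  have h4 : IsClosed {z : ℂ | |kx z| + |ky z| ≤ 1 / A} :=
    isClosed_le (continuous_kx.abs.add continuous_ky.abs) continuous_const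
  exact h2.inter (h3.inter h4)

/-- PROOF: `abs_kx_mul_lt` etc. (if `kx z = 0` then `kx (t z) = 0 < A`). -/
lemma mul_mem_KOct {A : ℝ} (hA : OkA A) {z : ℂ} (hz : z ∈ KOctC A) {t : ℝ} (h0 : 0 ≤ t) (h1 : t < 1) :
    (t : ℂ) * z ∈ KOct A := by
  have ht : t < 1 := h1
  clear h1
  obtain ⟨h1, h2, h3, h4⟩ := hz
  have hx := abs_kx_mul_le h1 h0 ht.le
  have hy := abs_ky_mul_le h1 h0 ht.le
  have hx' : |kx ((t : ℂ) * z)| < A := by
    by_cases hk : kx z = 0
    · rw [hk, abs_zero] at hx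
      exact lt_of_le_of_lt hx hA.pos
    · exact lt_of_lt_of_le (abs_kx_mul_lt h1 h0 ht hk) h2
  have hy' : |ky ((t : ℂ) * z)| < A := by
    by_cases hk : ky z = 0
    · rw [hk, abs_zero] at hy
      exact lt_of_le_of_lt hy hA.pos
    · exact lt_of_lt_of_le (abs_ky_mul_lt h1 h0 ht hk) h3
  refine ⟨?_, hx', hy', ?_⟩
  · rw [norm_mul, Complex.norm_real, Real.norm_of_nonneg h0]
    exact lt_of_le_of_lt (mul_le_of_le_one_left (norm_nonneg _) ht.le) h1
  · by_cases hk : kx z = 0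
    · by_cases hk' : ky z = 0
      · rw [hk, abs_zero] at hx
        rw [hk', abs_zero] at hy
        have h5 : (0 : ℝ) < 1 / A := one_div_pos.2 hA.pos
        linarith
      · have := abs_ky_mul_lt h1 h0 ht hk'
        linarith
    · have := abs_kx_mul_lt h1 h0 ht hk
      linarith

/-- PROOF: `closure ⊆` as `KOctC` is closed (compact); `z = lim t z`, `t → 1`. -/
lemma closure_KOct {A : ℝ} (hA : OkA A) : closure (KOct A) = KOctC A := by
  apply Subset.antisymm
  · exact closure_minimal (KOct_subset_KOctC A) (isCompact_KOctC hA).isClosed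
  · intro z hz
    have h1 : Tendsto (fun t : ℝ => (t : ℂ) * z) (𝓝[<] (1 : ℝ)) (𝓝 z) := by
      have h2 : Continuous (fun t : ℝ => (t : ℂ) * z) :=
        Complex.continuous_ofReal.mul continuous_const
      have h3 : Tendsto (fun t : ℝ => (t : ℂ) * z) (𝓝 1) (𝓝 (((1 : ℝ) : ℂ) * z)) :=
        h2.tendsto 1
      rw [Complex.ofReal_one, one_mul] at h3
      exact h3.mono_left nhdsWithin_le_nhds
    refine mem_closure_of_tendsto h1 ?_
    have h4 : ∀ᶠ t : ℝ in 𝓝[<] (1 : ℝ), 0 ≤ t :=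
      nhdsWithin_le_nhds (Ici_mem_nhds one_pos)
    filter_upwards [h4, self_mem_nhdsWithin] with t ht0 ht1
    exact mul_mem_KOct hA hz ht0 ht1

/-- PROOF: `kinv` with the coordinates of `z`; a point of `KOctC A` outside `KOct A` has `|kx| = A` or `|ky| = A` or `|kx| + |ky| = 1/A`. -/
lemma not_mem_KOct_iff {A : ℝ} {z : ℂ} (hz : z ∈ KOctC A) :
    z ∉ KOct A ↔ max |kx z| |ky z| = A ∨ |kx z| + |ky z| = 1 / A := by
  obtain ⟨h1, h2, h3, h4⟩ := hz
  constructor
  · intro h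
    by_contra hc
    push Not at hc
    obtain ⟨c1, c2⟩ := hc
    apply h
    have h5 : max |kx z| |ky z| < A := lt_of_le_of_ne (max_le h2 h3) c1
    exact ⟨h1, (max_lt_iff.1 h5).1, (max_lt_iff.1 h5).2, lt_of_le_of_ne h4 c2⟩
  · rintro (h | h) ⟨-, g2, g3, g4⟩
    · exact absurd h (max_lt g2 g3).ne
    · exact absurd h g4.ne

lemma conj_mem_KOct {A : ℝ} {z : ℂ} : conj z ∈ KOct A ↔ z ∈ KOct A := by
  change (‖conj z‖ < 1 ∧ |kx (conj z)| < A ∧ |ky (conj z)| < A ∧
    |kx (conj z)| + |ky (conj z)| < 1 / A) ↔ (‖z‖ < 1 ∧ |kx z| < A ∧ |ky z| < A ∧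
    |kx z| + |ky z| < 1 / A)
  rw [kx_conj, ky_conj, abs_neg, RCLike.norm_conj]

lemma I_mul_mem_KOct {A : ℝ} {z : ℂ} : Complex.I * z ∈ KOct A ↔ z ∈ KOct A := by
  change (‖Complex.I * z‖ < 1 ∧ |kx (Complex.I * z)| < A ∧ |ky (Complex.I * z)| < A ∧
    |kx (Complex.I * z)| + |ky (Complex.I * z)| < 1 / A) ↔ (‖z‖ < 1 ∧ |kx z| < A ∧ |ky z| < A ∧
    |kx z| + |ky z| < 1 / A)
  rw [kx_I_mul, ky_I_mul, abs_neg, norm_mul, Complex.norm_I, one_mul, add_comm |ky z|]
  tauto

lemma conj_mem_KOctC {A : ℝ} {z : ℂ} : conj z ∈ KOctC A ↔ z ∈ KOctC A := by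
  change (‖conj z‖ < 1 ∧ |kx (conj z)| ≤ A ∧ |ky (conj z)| ≤ A ∧
    |kx (conj z)| + |ky (conj z)| ≤ 1 / A) ↔ (‖z‖ < 1 ∧ |kx z| ≤ A ∧ |ky z| ≤ A ∧
    |kx z| + |ky z| ≤ 1 / A)
  rw [kx_conj, ky_conj, abs_neg, RCLike.norm_conj]

lemma I_mul_mem_KOctC {A : ℝ} {z : ℂ} : Complex.I * z ∈ KOctC A ↔ z ∈ KOctC A := by
  change (‖Complex.I * z‖ < 1 ∧ |kx (Complex.I * z)| ≤ A ∧ |ky (Complex.I * z)| ≤ A ∧
    |kx (Complex.I * z)| + |ky (Complex.I * z)| ≤ 1 / A) ↔ (‖z‖ < 1 ∧ |kx z| ≤ A ∧ |ky z| ≤ A ∧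
    |kx z| + |ky z| ≤ 1 / A)
  rw [kx_I_mul, ky_I_mul, abs_neg, norm_mul, Complex.norm_I, one_mul, add_comm |ky z|]
  tauto

end Pool.Agent.Lib.MP_b9289b_nt
end
end

section

/-! (T03a) Symmetries of the extended Riemann map; rays. -/

open Metric Set Filter Topology
open scoped ComplexConjugate

noncomputable section

namespace Pool.Agent.Lib.MP_b9289b_nt

lemma e8_sq : e8 ^ 2 = Complex.I := by
  rw [e8, ← Complex.exp_nat_mul]
  have : ((2 : ℕ) : ℂ) * (((Real.pi / 4 : ℝ) : ℂ) * Complex.I) = (Real.pi : ℂ) / 2 * Complex.I := by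
    push_cast; ring
  rw [this, Complex.exp_mul_I, Complex.cos_pi_div_two, Complex.sin_pi_div_two]
  ring

lemma norm_e8 : ‖e8‖ = 1 := by
  rw [e8]
  exact Complex.norm_exp_ofReal_mul_I _

lemma I_mul_conj_e8 : Complex.I * conj e8 = e8 := by
  have h1 : e8 * conj e8 = 1 := by
    rw [Complex.mul_conj, Complex.normSq_eq_norm_sq, norm_e8]
    norm_num
  calc Complex.I * conj e8 = e8 * (e8 * conj e8) := by rw [← e8_sq]; ring
    _ = e8 := by rw [h1, mul_one]

/-- PROOF: two continuous functions on `KOctC A = closure (KOct A)` which agree on `KOct A` (`RMap.conj_symm`, `conj_mem_KOct`): use `mul_mem_KOct`, `t → 1`. -/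
lemma TExt.conj_symm {A : ℝ} (hA : OkA A) {f : ℂ → ℂ} (hf : TExt A f) {z : ℂ} (hz : z ∈ KOctC A) :
    f (conj z) = conj (f z) := by
  have h1 : EqOn (fun z => f (conj z)) (fun z => conj (f z)) (KOct A) := fun w hw =>
    hf.rmap.conj_symm (isOpen_KOct A) (zero_mem_KOct hA) (fun v hv => conj_mem_KOct.mpr hv) w hw
  have hc1 : ContinuousOn (fun z => f (conj z)) (KOctC A) :=
    hf.cont.comp Complex.continuous_conj.continuousOn (fun v hv => conj_mem_KOctC.mpr hv)
  have hc2 : ContinuousOn (fun z => conj (f z)) (KOctC A) :=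
    Complex.continuous_conj.comp_continuousOn hf.cont
  exact h1.of_subset_closure hc1 hc2 (KOct_subset_KOctC A) (closure_KOct hA).ge hz

/-- PROOF: the same with `RMap.rot_symm`. -/
lemma TExt.I_symm {A : ℝ} (hA : OkA A) {f : ℂ → ℂ} (hf : TExt A f) {z : ℂ} (hz : z ∈ KOctC A) :
    f (Complex.I * z) = Complex.I * f z := by
  have h1 : EqOn (fun z => f (Complex.I * z)) (fun z => Complex.I * f z) (KOct A) := fun w hw =>
    hf.rmap.rot_symm (isOpen_KOct A) (zero_mem_KOct hA) Complex.norm_I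
      (fun v => I_mul_mem_KOct) w hw
  have hc1 : ContinuousOn (fun z => f (Complex.I * z)) (KOctC A) :=
    hf.cont.comp (continuous_const.mul continuous_id).continuousOn
      (fun v hv => I_mul_mem_KOctC.mpr hv)
  have hc2 : ContinuousOn (fun z => Complex.I * f z) (KOctC A) :=
    continuousOn_const.mul hf.cont
  exact h1.of_subset_closure hc1 hc2 (KOct_subset_KOctC A) (closure_KOct hA).ge hz

lemma TExt.norm_le {A : ℝ} (hA : OkA A) {f : ℂ → ℂ} (hf : TExt A f) {z : ℂ} (hz : z ∈ KOctC A) :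
    ‖f z‖ ≤ 1 := by
  by_cases h : z ∈ KOct A
  · have h1 : f z ∈ f '' KOct A := ⟨z, h, rfl⟩
    rw [hf.rmap.image, mem_ball_zero_iff] at h1
    exact h1.le
  · exact (hf.bd z hz h).le

/-- `f z / z → f'(0) > 0` along a ray. PROOF: `f` is differentiable at `0`, `f 0 = 0`. -/
lemma TExt.tendsto_ray {A : ℝ} (hA : OkA A) {f : ℂ → ℂ} (hf : TExt A f) (z : ℂ) :
    ∃ r : ℝ, 0 < r ∧ Tendsto (fun t : ℝ => f (t * z) / t) (𝓝[>] 0) (𝓝 (r * z)) := by
  obtain ⟨r, hr, hr1⟩ := hf.rmap.pos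
  refine ⟨r, hr, ?_⟩
  have h1 : HasDerivAt f (r : ℂ) 0 := by
    rw [← hr1]
    exact (hf.rmap.diff.differentiableAt
      ((isOpen_KOct A).mem_nhds (zero_mem_KOct hA))).hasDerivAt
  have h2 : HasDerivAt (fun w : ℂ => f (w * z)) (r * z) ((0 : ℝ) : ℂ) := by
    have h3 : HasDerivAt (fun w : ℂ => w * z) z ((0 : ℝ) : ℂ) := by
      simpa using (hasDerivAt_id (((0 : ℝ) : ℂ))).mul_const z
    refine HasDerivAt.comp (h₂ := f) (h₂' := (r : ℂ)) _ ?_ h3
    simpa using h1
  have h4 := (h2.comp_ofReal).tendsto_slope_zero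
  have h5 : Tendsto (fun t : ℝ => t⁻¹ • (f (((0 + t : ℝ) : ℂ) * z) - f (((0 : ℝ) : ℂ) * z)))
      (𝓝[>] 0) (𝓝 (r * z)) :=
    h4.mono_left (nhdsWithin_mono _ (fun x hx => ne_of_gt hx))
  refine h5.congr (fun t => ?_)
  rw [zero_add, Complex.ofReal_zero, zero_mul, hf.rmap.zero, sub_zero, Complex.real_smul,
    Complex.ofReal_inv, div_eq_inv_mul]

/-- A continuous real function on `(0, 1]` without zeros, with `h t / t → c > 0` for `t → 0`, is positive at `1`. PROOF: positive for small `t`, then the intermediate value theorem. -/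
lemma pos_of_ray {h : ℝ → ℝ} (hc : ContinuousOn h (Ioc 0 1)) (hn : ∀ t ∈ Ioc (0 : ℝ) 1, h t ≠ 0)
    {c : ℝ} (hc0 : 0 < c) (hl : Tendsto (fun t => h t / t) (𝓝[>] 0) (𝓝 c)) : 0 < h 1 := by
  have h1 : ∀ᶠ t in 𝓝[>] (0 : ℝ), 0 < h t / t := hl.eventually (lt_mem_nhds hc0)
  have h2 : ∀ᶠ t in 𝓝[>] (0 : ℝ), t ∈ Ioc (0 : ℝ) 1 := by
    filter_upwards [Ioo_mem_nhdsGT (zero_lt_one' ℝ)] with t ht
    exact ⟨ht.1, ht.2.le⟩
  obtain ⟨t, ht1, ht2⟩ := (h1.and h2).exists
  have ht3 : 0 < h t := by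
    have := mul_pos ht1 ht2.1
    rwa [div_mul_cancel₀ _ ht2.1.ne'] at this
  by_contra hneg
  rw [not_lt] at hneg
  have hsub : Icc t 1 ⊆ Ioc (0 : ℝ) 1 := fun x hx => ⟨lt_of_lt_of_le ht2.1 hx.1, hx.2⟩
  obtain ⟨x, hx, hx0⟩ := intermediate_value_Icc' ht2.2 (hc.mono hsub) ⟨hneg, ht3.le⟩
  exact hn x (hsub hx) hx0

end Pool.Agent.Lib.MP_b9289b_nt
end
end
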