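import Pool.Agent.Lib.MP_b9289b_nt.Mg.G007
import Pool.Agent.Lib.MP_b9289b_nt.Mg.G008

section

/-! (F01) Riemann maps of folded domains. -/

open Metric Set Filter Topology
open scoped ComplexConjugate

noncomputable section

namespace Pool.Agent.Lib.MP_b9289b_nt

variable {Q' : Set ℂ} {F : ℂ → ℂ}

private lemma star_pull (h : Star Q') {φ : ℂ → ℂ} (hφ : Continuous φ) (h0 : φ 0 = 0)
    (hn : ∀ ζ, ‖φ ζ‖ = ‖ζ‖) (ht : ∀ (t : ℝ) (ζ : ℂ), 0 ≤ t → φ (t * ζ) = t * φ ζ) :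
    Star {ζ | φ ζ ∈ Q'} := by
  refine ⟨h.isOpen.preimage hφ, ?_, ?_, ?_⟩
  · change φ 0 ∈ Q'
    rw [h0]; exact h.zero_mem
  · intro ζ hζ
    have := h.sub hζ
    rw [mem_ball_zero_iff, hn] at this
    rwa [mem_ball_zero_iff]
  · intro ζ hζ t h0 h1
    change φ (t * ζ) ∈ Q'
    rw [ht t ζ h0]
    exact h.star _ hζ t h0 h1

private lemma norm_mk_abs (a b : ℝ) (ζ : ℂ) (ha : a ^ 2 = ζ.re ^ 2) (hb : b ^ 2 = ζ.im ^ 2) :
    ‖(⟨a, b⟩ : ℂ)‖ = ‖ζ‖ := by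
  rw [Complex.norm_def, Complex.norm_def, Complex.normSq_apply, Complex.normSq_apply]
  congr 1
  simp only
  nlinarith

private lemma cont_mk {f g : ℂ → ℝ} (hf : Continuous f) (hg : Continuous g) :
    Continuous (fun ζ => (⟨f ζ, g ζ⟩ : ℂ)) := by
  have h : (fun ζ => (⟨f ζ, g ζ⟩ : ℂ)) = fun ζ => (f ζ : ℂ) + (g ζ : ℂ) * Complex.I := by
    funext ζ
    apply Complex.ext <;> simp
  rw [h]
  exact (Complex.continuous_ofReal.comp hf).add
    ((Complex.continuous_ofReal.comp hg).mul continuous_const)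

lemma star_dom1 (h : Star Q') : Star (dom1 Q') := by
  refine star_pull h (φ := fun ζ => ⟨ζ.re, |ζ.im|⟩)
    (cont_mk Complex.continuous_re Complex.continuous_im.abs) ?_ ?_ ?_
  · apply Complex.ext <;> simp
  · intro ζ
    exact norm_mk_abs _ _ _ rfl (sq_abs _)
  · intro t ζ ht
    apply Complex.ext <;> simp [abs_mul, abs_of_nonneg ht]

lemma star_dom2 (h : Star Q') : Star (dom2 Q') := by
  refine star_pull h (φ := fun ζ => ⟨|ζ.re|, |ζ.im|⟩)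
    (cont_mk Complex.continuous_re.abs Complex.continuous_im.abs) ?_ ?_ ?_
  · apply Complex.ext <;> simp
  · intro ζ
    exact norm_mk_abs _ _ _ (sq_abs _) (sq_abs _)
  · intro t ζ ht
    apply Complex.ext <;> simp [abs_mul, abs_of_nonneg ht]

private lemma conj_mem1 {ζ : ℂ} (hζ : ζ ∈ dom1 Q') : conj ζ ∈ dom1 Q' := by
  have h : (⟨ζ.re, |ζ.im|⟩ : ℂ) ∈ Q' := hζ
  change (⟨(conj ζ).re, |(conj ζ).im|⟩ : ℂ) ∈ Q'
  rw [Complex.conj_re, Complex.conj_im, abs_neg]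
  exact h

private lemma conj_mem2 {ζ : ℂ} (hζ : ζ ∈ dom2 Q') : conj ζ ∈ dom2 Q' := by
  have h : (⟨|ζ.re|, |ζ.im|⟩ : ℂ) ∈ Q' := hζ
  change (⟨|(conj ζ).re|, |(conj ζ).im|⟩ : ℂ) ∈ Q'
  rw [Complex.conj_re, Complex.conj_im, abs_neg]
  exact h

private lemma neg_mem2 {ζ : ℂ} : -ζ ∈ dom2 Q' ↔ ζ ∈ dom2 Q' := by
  change (⟨|(-ζ).re|, |(-ζ).im|⟩ : ℂ) ∈ Q' ↔ (⟨|ζ.re|, |ζ.im|⟩ : ℂ) ∈ Q'
  rw [Complex.neg_re, Complex.neg_im, abs_neg, abs_neg]

/-- PROOF: `RMap.conj_symm`. -/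
lemma conj_dom1 (h : Star Q') (hF : RMap (dom1 Q') F) {ζ : ℂ} (hζ : ζ ∈ dom1 Q') :
    F (conj ζ) = conj (F ζ) :=
  hF.conj_symm (star_dom1 h).isOpen (star_dom1 h).zero_mem (fun _ hz => conj_mem1 hz) ζ hζ

lemma conj_dom2 (h : Star Q') (hF : RMap (dom2 Q') F) {ζ : ℂ} (hζ : ζ ∈ dom2 Q') :
    F (conj ζ) = conj (F ζ) :=
  hF.conj_symm (star_dom2 h).isOpen (star_dom2 h).zero_mem (fun _ hz => conj_mem2 hz) ζ hζ

/-- PROOF: `RMap.rot_symm` with `c = -1`. -/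
lemma neg_dom2 (h : Star Q') (hF : RMap (dom2 Q') F) {ζ : ℂ} (hζ : ζ ∈ dom2 Q') :
    F (-ζ) = -F ζ := by
  have := hF.rot_symm (star_dom2 h).isOpen (star_dom2 h).zero_mem (c := -1) (by simp)
    (fun z => by rw [neg_one_mul]; exact neg_mem2) ζ hζ
  rwa [neg_one_mul, neg_one_mul] at this

/-- Positivity is preserved as long as the functional does not vanish. -/
private lemma pos_of_ne {Ω : Set ℂ} (h : Star Ω) (hF : RMap Ω F) (L : ℂ →L[ℝ] ℝ)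
    (hne : ∀ ζ ∈ Ω, 0 < L ζ → L (F ζ) ≠ 0) {ζ : ℂ} (hζ : ζ ∈ Ω) (hL : 0 < L ζ) :
    0 < L (F ζ) := by
  by_contra hcon
  have hneg : L (F ζ) < 0 := lt_of_le_of_ne (not_lt.1 hcon) (hne ζ hζ hL)
  obtain ⟨r, hr, hd⟩ := hF.pos
  have hmul : ∀ t : ℝ, L ((t : ℂ) * ζ) = t * L ζ := by
    intro t
    have : (t : ℂ) * ζ = t • ζ := by rw [Complex.real_smul]
    rw [this, map_smul, smul_eq_mul]
  set φ : ℝ → ℝ := fun t => L (F ((t : ℂ) * ζ)) with hφ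
  have hφ0 : φ 0 = 0 := by simp [hφ, hF.zero]
  have hF0 : HasDerivAt F (r : ℂ) 0 := by
    rw [← hd]
    exact ((hF.diff.differentiableAt (h.isOpen.mem_nhds h.zero_mem))).hasDerivAt
  have hd1 : HasDerivAt (fun t : ℝ => F ((t : ℂ) * ζ)) (r * ζ) 0 := by
    have h1 : HasDerivAt (fun t : ℝ => (t : ℂ) * ζ) (1 * ζ) 0 :=
      (Complex.ofRealCLM.hasDerivAt (x := (0 : ℝ))).mul_const ζ
    have h2 : HasDerivAt F (r : ℂ) (((0 : ℝ) : ℂ) * ζ) := by simpa using hF0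
    have h3 := HasDerivAt.scomp (𝕜 := ℝ) (0 : ℝ) h2 h1
    refine h3.congr_deriv ?_
    rw [one_mul, smul_eq_mul]; ring
  have hd2 : HasDerivAt φ (r * L ζ) 0 := by
    have h1 := (L.hasFDerivAt (x := F (((0 : ℝ) : ℂ) * ζ))).comp_hasDerivAt (0 : ℝ) hd1
    refine h1.congr_deriv ?_
    exact hmul r
  have hpos : 0 < r * L ζ := mul_pos hr hL
  obtain ⟨t₀, ht₀, h1, h2⟩ : ∃ t₀ : ℝ, 0 < t₀ ∧ t₀ < 1 ∧ 0 < φ t₀ := by
    have h3 := hd2.tendsto_slope_zero_right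
    have h4 : ∀ᶠ t in 𝓝[>] (0 : ℝ), 0 < t⁻¹ • (φ (0 + t) - φ 0) :=
      h3.eventually (lt_mem_nhds hpos)
    have h5 : ∀ᶠ t in 𝓝[>] (0 : ℝ), t ∈ Ioo (0 : ℝ) 1 := Ioo_mem_nhdsGT one_pos
    obtain ⟨t, ht1, ht2⟩ := (h4.and h5).exists
    refine ⟨t, ht2.1, ht2.2, ?_⟩
    rw [zero_add, hφ0, sub_zero, smul_eq_mul] at ht1
    exact (pos_iff_pos_of_mul_pos ht1).1 (inv_pos.2 ht2.1)
  have hcont : ContinuousOn φ (Icc t₀ 1) := by
    have h3 : ContinuousOn (fun t : ℝ => F ((t : ℂ) * ζ)) (Icc t₀ 1) := by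
      refine hF.diff.continuousOn.comp (by fun_prop) ?_
      intro t ht
      exact h.star ζ hζ t (ht₀.le.trans ht.1) ht.2
    exact L.continuous.comp_continuousOn h3
  have hφ1 : φ 1 < 0 := by simpa [hφ] using hneg
  obtain ⟨t, ht, ht0⟩ := intermediate_value_Icc' h1.le hcont ⟨hφ1.le, h2.le⟩
  have htp : 0 < t := ht₀.trans_le ht.1
  refine hne ((t : ℂ) * ζ) (h.star ζ hζ t htp.le ht.2) ?_ ht0
  rw [hmul]
  exact mul_pos htp hL

private lemma im_pos_of {Ω : Set ℂ} (h : Star Ω) (hF : RMap Ω F)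
    (hc : ∀ ζ ∈ Ω, conj ζ ∈ Ω) (hcF : ∀ ζ ∈ Ω, F (conj ζ) = conj (F ζ)) {ζ : ℂ} (hζ : ζ ∈ Ω)
    (hi : 0 < ζ.im) : 0 < (F ζ).im := by
  refine pos_of_ne h hF Complex.imCLM ?_ hζ hi
  intro z hz hz0 h0
  have h1 : (F z).im = 0 := h0
  have h2 : F (conj z) = F z := by
    rw [hcF z hz, Complex.conj_eq_iff_im]
    exact h1
  have h3 := hF.inj (hc z hz) hz h2
  rw [Complex.conj_eq_iff_im] at h3
  have h4 : 0 < z.im := hz0
  rw [h3] at h4
  exact lt_irrefl _ h4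

private lemma im_pos_iff {Ω : Set ℂ} (h : Star Ω) (hF : RMap Ω F)
    (hc : ∀ ζ ∈ Ω, conj ζ ∈ Ω) (hcF : ∀ ζ ∈ Ω, F (conj ζ) = conj (F ζ)) {ζ : ℂ} (hζ : ζ ∈ Ω) :
    0 < (F ζ).im ↔ 0 < ζ.im := by
  constructor
  · intro h1
    rcases lt_trichotomy ζ.im 0 with h2 | h2 | h2
    · exfalso
      have h3 : 0 < (conj ζ).im := by rw [Complex.conj_im]; linarith
      have h4 := im_pos_of h hF hc hcF (hc ζ hζ) h3
      rw [hcF ζ hζ, Complex.conj_im] at h4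
      linarith
    · exfalso
      have h3 := hcF ζ hζ
      rw [Complex.conj_eq_iff_im.2 h2] at h3
      have h4 := Complex.conj_eq_iff_im.1 h3.symm
      rw [h4] at h1
      exact lt_irrefl _ h1
    · exact h2
  · exact im_pos_of h hF hc hcF hζ

private lemma re_pos_of {Ω : Set ℂ} (h : Star Ω) (hF : RMap Ω F)
    (hc : ∀ ζ ∈ Ω, -conj ζ ∈ Ω) (hcF : ∀ ζ ∈ Ω, F (-conj ζ) = -conj (F ζ)) {ζ : ℂ} (hζ : ζ ∈ Ω)
    (hi : 0 < ζ.re) : 0 < (F ζ).re := by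
  refine pos_of_ne h hF Complex.reCLM ?_ hζ hi
  intro z hz hz0 h0
  have h1 : (F z).re = 0 := h0
  have h2 : F (-conj z) = F z := by
    rw [hcF z hz]
    apply Complex.ext <;> simp [h1]
  have h3 := hF.inj (hc z hz) hz h2
  have h5 := congrArg Complex.re h3
  have h4 : 0 < z.re := hz0
  simp at h5
  linarith

private lemma re_pos_iff {Ω : Set ℂ} (h : Star Ω) (hF : RMap Ω F)
    (hc : ∀ ζ ∈ Ω, -conj ζ ∈ Ω) (hcF : ∀ ζ ∈ Ω, F (-conj ζ) = -conj (F ζ)) {ζ : ℂ}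
    (hζ : ζ ∈ Ω) : 0 < (F ζ).re ↔ 0 < ζ.re := by
  constructor
  · intro h1
    rcases lt_trichotomy ζ.re 0 with h2 | h2 | h2
    · exfalso
      have h3 : 0 < (-conj ζ).re := by rw [Complex.neg_re, Complex.conj_re]; linarith
      have h4 := re_pos_of h hF hc hcF (hc ζ hζ) h3
      rw [hcF ζ hζ, Complex.neg_re, Complex.conj_re] at h4
      linarith
    · exfalso
      have h3 := hcF ζ hζ
      have h5 : -conj ζ = ζ := by apply Complex.ext <;> simp [h2]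
      rw [h5] at h3
      have h4 := congrArg Complex.re h3
      simp at h4
      linarith
    · exact h2
  · exact re_pos_of h hF hc hcF hζ

/-- PROOF: `F ζ` is real iff `F (conj ζ) = conj (F ζ) = F ζ` iff `conj ζ = ζ` (injectivity). So `im (F ζ)` has no zero on `dom1 Q' ∩ {0 < im}`, which is preconnected (every point `ζ` is joined by the segment `t ζ`, `0 < t ≤ 1`, to points near `0`; or: for fixed `ζ` the function
`t ↦ im (F (t ζ))` on `(0,1]` has no zero, and it is positive for small `t` as `F (t ζ) ~ t r ζ`, `r > 0`). So `F` maps the upper part into the upper half plane, by conjugation the lower part into the lower half plane; with `F '' dom1 = ball 0 1` this gives surjectivity. -/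
lemma image_dom1 (h : Star Q') (hF : RMap (dom1 Q') F) :
    F '' (dom1 Q' ∩ {ζ | 0 < ζ.im}) = halfD := by
  have key : ∀ ζ ∈ dom1 Q', (0 < (F ζ).im ↔ 0 < ζ.im) := fun ζ hζ =>
    im_pos_iff (star_dom1 h) hF (fun _ hz => conj_mem1 hz) (fun _ hz => conj_dom1 h hF hz) hζ
  ext w
  constructor
  · rintro ⟨ζ, ⟨hζ, hi⟩, rfl⟩
    have h1 : F ζ ∈ ball (0 : ℂ) 1 := by rw [← hF.image]; exact ⟨ζ, hζ, rfl⟩
    exact ⟨mem_ball_zero_iff.1 h1, (key ζ hζ).2 hi⟩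
  · rintro ⟨h1, h2⟩
    have h3 : w ∈ F '' dom1 Q' := by rw [hF.image]; exact mem_ball_zero_iff.2 h1
    obtain ⟨ζ, hζ, rfl⟩ := h3
    exact ⟨ζ, ⟨hζ, (key ζ hζ).1 h2⟩, rfl⟩

/-- PROOF: as before; also `F (-conj ζ) = -conj (F ζ)`, so `F ζ` is purely imaginary iff `ζ` is; the signs of the real and of the imaginary part of `F` are those of `ζ`. -/
lemma image_dom2 (h : Star Q') (hF : RMap (dom2 Q') F) :
    F '' (dom2 Q' ∩ {ζ | 0 < ζ.im ∧ 0 < ζ.re}) = quartD := by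
  have key : ∀ ζ ∈ dom2 Q', (0 < (F ζ).im ↔ 0 < ζ.im) := fun ζ hζ =>
    im_pos_iff (star_dom2 h) hF (fun _ hz => conj_mem2 hz) (fun _ hz => conj_dom2 h hF hz) hζ
  have key' : ∀ ζ ∈ dom2 Q', (0 < (F ζ).re ↔ 0 < ζ.re) := fun ζ hζ =>
    re_pos_iff (star_dom2 h) hF (fun _ hz => neg_mem2.2 (conj_mem2 hz))
      (fun z hz => by rw [neg_dom2 h hF (conj_mem2 hz), conj_dom2 h hF hz]) hζ
  ext w
  constructor
  · rintro ⟨ζ, ⟨hζ, hi, hr⟩, rfl⟩
    have h1 : F ζ ∈ ball (0 : ℂ) 1 := by rw [← hF.image]; exact ⟨ζ, hζ, rfl⟩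
    exact ⟨mem_ball_zero_iff.1 h1, (key ζ hζ).2 hi, (key' ζ hζ).2 hr⟩
  · rintro ⟨h1, h2, h3⟩
    have h4 : w ∈ F '' dom2 Q' := by rw [hF.image]; exact mem_ball_zero_iff.2 h1
    obtain ⟨ζ, hζ, rfl⟩ := h4
    exact ⟨ζ, ⟨hζ, (key ζ hζ).1 h2, (key' ζ hζ).1 h3⟩, rfl⟩

end Pool.Agent.Lib.MP_b9289b_nt
end
end

section

/-! (T08a) Comparison with the octagons defined by walls. -/

open Metric Set Filter Topology
open scoped ComplexConjugate

noncomputable section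

namespace Pool.Agent.Lib.MP_b9289b_nt

private lemma w_pos (z : ℂ) : 0 < 1 + Complex.normSq z := by
  have := Complex.normSq_nonneg z
  linarith

private lemma abs_kx (z : ℂ) : |kx z| = |2 * z.re| / (1 + Complex.normSq z) := by
  unfold kx
  rw [abs_div, abs_of_pos (w_pos z)]

private lemma abs_ky (z : ℂ) : |ky z| = |2 * z.im| / (1 + Complex.normSq z) := by
  unfold ky
  rw [abs_div, abs_of_pos (w_pos z)]

/-- PROOF: divide by `1 + |z|² > 0`; eight linear inequalities in `kx z`, `ky z`. -/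
lemma octD_eq_KOct (A : ℝ) : octD A = KOct A := by
  ext z
  have hw := w_pos z
  simp only [octD, KOct, mem_ofPred_eq, walls, Finset.mem_insert, Finset.mem_singleton,
    forall_eq_or_imp, forall_eq, lin, abs_kx, abs_ky]
  rw [div_lt_iff₀ hw, div_lt_iff₀ hw, ← add_div, div_lt_iff₀ hw, abs_lt, abs_lt]
  constructor
  · rintro ⟨h0, h1, h2, h3, h4, h5, h6, h7, h8⟩
    refine ⟨h0, ⟨by linarith, by linarith⟩, ⟨by linarith, by linarith⟩, ?_⟩
    rcases abs_cases (2 * z.re) with ⟨e1, -⟩ | ⟨e1, -⟩ <;>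
      rcases abs_cases (2 * z.im) with ⟨e2, -⟩ | ⟨e2, -⟩ <;> rw [e1, e2] <;> linarith
  · rintro ⟨h0, ⟨h1, h2⟩, ⟨h3, h4⟩, h5⟩
    have a1 := le_abs_self (2 * z.re)
    have a2 := neg_abs_le (2 * z.re)
    have a3 := le_abs_self (2 * z.im)
    have a4 := neg_abs_le (2 * z.im)
    refine ⟨h0, ?_, ?_, ?_, ?_, ?_, ?_, ?_, ?_⟩ <;> linarith

lemma octC_eq_KOctC (A : ℝ) : octC A = KOctC A := by
  ext z
  have hw := w_pos z
  simp only [octC, KOctC, mem_ofPred_eq, walls, Finset.mem_insert, Finset.mem_singleton,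
    forall_eq_or_imp, forall_eq, lin, abs_kx, abs_ky]
  rw [div_le_iff₀ hw, div_le_iff₀ hw, ← add_div, div_le_iff₀ hw, abs_le, abs_le]
  constructor
  · rintro ⟨h0, h1, h2, h3, h4, h5, h6, h7, h8⟩
    refine ⟨h0, ⟨by linarith, by linarith⟩, ⟨by linarith, by linarith⟩, ?_⟩
    rcases abs_cases (2 * z.re) with ⟨e1, -⟩ | ⟨e1, -⟩ <;>
      rcases abs_cases (2 * z.im) with ⟨e2, -⟩ | ⟨e2, -⟩ <;> rw [e1, e2] <;> linarith
  · rintro ⟨h0, ⟨h1, h2⟩, ⟨h3, h4⟩, h5⟩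
    have a1 := le_abs_self (2 * z.re)
    have a2 := neg_abs_le (2 * z.re)
    have a3 := le_abs_self (2 * z.im)
    have a4 := neg_abs_le (2 * z.im)
    refine ⟨h0, ?_, ?_, ?_, ?_, ?_, ?_, ?_, ?_⟩ <;> linarith

lemma corner_eq_tcorner (A : ℝ) : corner A = tcorner A := by
  unfold corner tcorner kinv
  rw [Complex.mk_eq_add_mul_I]

/-- PROOF: `F = f` on the open set `octD A ∋ 0`. -/
lemma Ext.toTExt {A : ℝ} (hA : OkA A) {f F : ℂ → ℂ} (h : Ext A f F) : TExt A F := by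
  have e1 := octD_eq_KOct A
  have e2 := octC_eq_KOctC A
  have hA1 : 0 < 1 / A := one_div_pos.2 hA.pos
  have h0 : (0 : ℂ) ∈ octD A := by
    rw [e1]
    refine ⟨by simp, ?_, ?_, ?_⟩
    · rw [kx_zero, abs_zero]; exact hA.pos
    · rw [ky_zero, abs_zero]; exact hA.pos
    · rw [kx_zero, ky_zero, abs_zero, add_zero]; exact hA1
  have hopen : IsOpen (octD A) := by
    rw [e1]
    have h1 : IsOpen {z : ℂ | ‖z‖ < 1} := isOpen_lt continuous_norm continuous_const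
    have h2 : IsOpen {z : ℂ | |kx z| < A} := isOpen_lt continuous_kx.abs continuous_const
    have h3 : IsOpen {z : ℂ | |ky z| < A} := isOpen_lt continuous_ky.abs continuous_const
    have h4 : IsOpen {z : ℂ | |kx z| + |ky z| < 1 / A} :=
      isOpen_lt (continuous_kx.abs.add continuous_ky.abs) continuous_const
    exact h1.inter (h2.inter (h3.inter h4))
  have heq : EqOn F f (octD A) := fun ζ hζ => h.eq ζ hζ
  refine ⟨⟨⟨?_, ?_, ?_⟩, ?_, ?_⟩, ?_, ?_, ?_⟩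
  · rw [← e1]
    exact h.rmap.diff.congr heq
  · rw [← e1]
    exact h.rmap.inj.congr heq.symm
  · rw [← e1, heq.image_eq]
    exact h.rmap.image
  · rw [heq h0]
    exact h.rmap.zero
  · obtain ⟨r, hr, hr'⟩ := h.rmap.pos
    refine ⟨r, hr, ?_⟩
    rw [← hr']
    exact (heq.eventuallyEq_of_mem (hopen.mem_nhds h0)).deriv_eq
  · rw [← e2]
    exact h.cont
  · rw [← e2]
    exact h.inj
  · intro z hz hz'
    rw [← e2] at hz
    rw [← e1] at hz'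
    exact h.norm_one z hz hz'

end Pool.Agent.Lib.MP_b9289b_nt
end
end
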