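import Pool.Agent.Lib.MP_b9289b_nt.Mg.G009
import Pool.Agent.Lib.MP_b9289b_nt.U.O02
import Pool.Agent.Lib.MP_b9289b_nt.Mg.G016
import Pool.Agent.Lib.MP_b9289b_nt.Mg.G007

section

/-! (W02) Charts at the frontier of the octagon. -/

open UpperHalfPlane Metric Set Filter Topology MatrixGroups
open scoped ComplexConjugate

noncomputable section

namespace Pool.Agent.Lib.MP_b9289b_nt

/-- A chart of `Q` at `y`: in the disc coordinate centred at `y`, `Q` is the part of the star-shaped domain `Q'` in the upper half plane (`m = 1`), resp. in the first quadrant (`m = 2`). -/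
structure Chart (Q : Set ℍ) (y : ℍ) (g : SL(2, ℝ)) (Q' : Set ℂ) (m : ℕ) : Prop where
  smul : g • (I : ℍ) = y
  star : Star Q'
  one : m = 1 → ∀ ζ, ‖ζ‖ < 1 → (g • toH ζ ∈ Q ↔ ζ ∈ Q' ∧ 0 < ζ.im)
  two : m = 2 → ∀ ζ, ‖ζ‖ < 1 → (g • toH ζ ∈ Q ↔ ζ ∈ Q' ∧ 0 < ζ.im ∧ 0 < ζ.re)

private lemma continuous_lin (n : ℝ × ℝ × ℝ) : Continuous (lin n) := by
  unfold lin
  have := Complex.continuous_normSq
  fun_prop

/-- PROOF: for `0 ≤ t ≤ 1` and `n₀ > 0`: `lin n (t ζ) ≤ t lin n ζ - n₀ (1 - t) (1 - t |ζ|²)`. -/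
theorem star_of_walls (T : Finset (ℝ × ℝ × ℝ)) (hT : ∀ n ∈ T, 0 < n.2.2) :
    Star {ζ | ‖ζ‖ < 1 ∧ ∀ n ∈ T, lin n ζ < 0} := by
  refine ⟨?_, ?_, ?_, ?_⟩
  · have h1 : IsOpen {ζ : ℂ | ‖ζ‖ < 1} := isOpen_lt continuous_norm continuous_const
    have h2 : IsOpen (⋂ n ∈ T, {ζ : ℂ | lin n ζ < 0}) :=
      isOpen_biInter_finset fun n _ => isOpen_lt (continuous_lin n) continuous_const
    convert h1.inter h2 using 1
    ext ζ
    simp
  · refine ⟨by simp, fun n hn => ?_⟩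
    have := hT n hn
    simp [lin, this]
  · intro ζ hζ
    simpa using hζ.1
  · rintro ζ ⟨h1, h2⟩ t ht0 ht1
    have hn : ‖(t : ℂ) * ζ‖ = t * ‖ζ‖ := by
      rw [norm_mul, Complex.norm_real, Real.norm_of_nonneg ht0]
    refine ⟨?_, fun n hn' => ?_⟩
    · rw [hn]
      have := norm_nonneg ζ
      nlinarith
    · have h3 := h2 n hn'
      have h4 := hT n hn'
      have h5 : Complex.normSq ζ < 1 := by
        rw [Complex.normSq_eq_norm_sq]
        have := norm_nonneg ζ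
        nlinarith
      have h5' : 0 ≤ Complex.normSq ζ := Complex.normSq_nonneg ζ
      have h6 : lin n ((t : ℂ) * ζ) = t * lin n ζ - n.2.2 * (1 - t) * (1 - t * Complex.normSq ζ) := by
        unfold lin
        rw [Complex.normSq_mul, Complex.normSq_ofReal]
        simp only [Complex.mul_re, Complex.mul_im, Complex.ofReal_re, Complex.ofReal_im]
        ring
      rw [h6]
      rcases ht1.lt_or_eq with h7 | h7
      · have h8 : 0 < n.2.2 * (1 - t) * (1 - t * Complex.normSq ζ) := by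
          refine mul_pos (mul_pos h4 (by linarith)) ?_
          nlinarith
        have h9 : t * lin n ζ ≤ 0 := mul_nonpos_of_nonneg_of_nonpos ht0 h3.le
        linarith
      · subst h7
        simpa using h3

private lemma mem_oct_iff {A : ℝ} {g : SL(2, ℝ)} {M : ℝ × ℝ × ℝ → ℝ × ℝ × ℝ} (hM : Pull g M)
    {ζ : ℂ} (hζ : ‖ζ‖ < 1) :
    g • toH ζ ∈ oct A ↔ ∀ n ∈ walls A, lin (M n) ζ < 0 := by
  have h1 : dm (g : GL (Fin 2) ℝ) ζ = cay (g • toH ζ) := rfl
  have h2 : g • toH ζ ∈ oct A ↔ ‖cay (g • toH ζ)‖ < 1 ∧ ∀ n ∈ walls A, lin n (cay (g • toH ζ)) < 0 :=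
    Iff.rfl
  rw [h2]
  constructor
  · rintro ⟨-, h3⟩ n hn
    obtain ⟨c, hc, h4⟩ := hM.lin n ζ hζ
    have h5 := h3 n hn
    rw [← h1, h4] at h5
    by_contra h6
    exact absurd h5 (not_lt.2 (mul_nonneg hc.le (not_lt.1 h6)))
  · intro h3
    refine ⟨norm_cay_lt _, fun n hn => ?_⟩
    obtain ⟨c, hc, h4⟩ := hM.lin n ζ hζ
    rw [← h1, h4]
    exact mul_neg_of_pos_of_neg hc (h3 n hn)

private lemma lin_at {g : SL(2, ℝ)} {M : ℝ × ℝ × ℝ → ℝ × ℝ × ℝ} (hM : Pull g M) {y : ℍ}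
    (hg : g • (I : ℍ) = y) (n : ℝ × ℝ × ℝ) :
    (lin n (cay y) = 0 → (M n).2.2 = 0) ∧ (lin n (cay y) < 0 → 0 < (M n).2.2) := by
  obtain ⟨c, hc, h1⟩ := hM.lin n 0 (by simp)
  have h2 : dm (g : GL (Fin 2) ℝ) 0 = cay y := by
    have h3 : dm (g : GL (Fin 2) ℝ) 0 = cay (g • toH 0) := rfl
    rw [h3, toH_zero, hg]
  have h4 : lin (M n) 0 = -(M n).2.2 := by simp [lin]
  rw [h2, h4] at h1
  constructor
  · intro h5
    rw [h5] at h1
    have h3 := (mul_eq_zero.1 h1.symm).resolve_left hc.ne'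
    linarith
  · intro h5
    rw [h1] at h5
    by_contra h6
    have : 0 ≤ c * -(M n).2.2 := mul_nonneg hc.le (by linarith)
    linarith

private lemma star_rest {A : ℝ} (E : Finset (ℝ × ℝ × ℝ)) {g : SL(2, ℝ)}
    {M : ℝ × ℝ × ℝ → ℝ × ℝ × ℝ} (hM : Pull g M) {y : ℍ} (hg : g • (I : ℍ) = y)
    (hE : ∀ n ∈ walls A, n ∉ E → lin n (cay y) < 0) :
    Star {ζ | ‖ζ‖ < 1 ∧ ∀ n ∈ (walls A \ E).image M, lin n ζ < 0} := by
  classical
  refine star_of_walls _ ?_
  intro n hn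
  rw [Finset.mem_image] at hn
  obtain ⟨m, hm, rfl⟩ := hn
  rw [Finset.mem_sdiff] at hm
  exact (lin_at hM hg m).2 (hE m hm.1 hm.2)

/-- The chart in case of two active walls in the right position. -/
private lemma chart_two {A : ℝ} {y : ℍ} {g : SL(2, ℝ)} {M : ℝ × ℝ × ℝ → ℝ × ℝ × ℝ}
    (hM : Pull g M) (hg : g • (I : ℍ) = y) {n m : ℝ × ℝ × ℝ} (hn : n ∈ walls A) (hm : m ∈ walls A)
    (hact : ∀ k ∈ walls A, k ≠ n → k ≠ m → lin k (cay y) < 0)
    (n1 : (M n).1 = 0) (n2 : (M n).2.1 < 0) (n3 : (M n).2.2 = 0)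
    (m1 : (M m).1 < 0) (m2 : (M m).2.1 = 0) (m3 : (M m).2.2 = 0) :
    ∃ Q', Chart (oct A) y g Q' 2 := by
  classical
  refine ⟨_, hg, star_rest (A := A) {n, m} hM hg ?_, by simp, ?_⟩
  · intro k hk hk'
    simp only [Finset.mem_insert, Finset.mem_singleton, not_or] at hk'
    exact hact k hk hk'.1 hk'.2
  · intro _ ζ hζ
    rw [mem_oct_iff hM hζ]
    have l1 : lin (M n) ζ = 2 * (M n).2.1 * ζ.im := by
      unfold lin
      rw [n1, n3]; ring
    have l2 : lin (M m) ζ = 2 * (M m).1 * ζ.re := by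
      unfold lin
      rw [m2, m3]; ring
    constructor
    · intro h
      refine ⟨⟨hζ, ?_⟩, ?_, ?_⟩
      · intro k hk
        rw [Finset.mem_image] at hk
        obtain ⟨j, hj, rfl⟩ := hk
        exact h j (Finset.mem_sdiff.1 hj).1
      · have := h n hn
        rw [l1] at this
        nlinarith
      · have := h m hm
        rw [l2] at this
        nlinarith
    · rintro ⟨⟨-, h1⟩, h2, h3⟩ k hk
      by_cases hkn : k = n
      · subst hkn
        rw [l1]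
        nlinarith
      by_cases hkm : k = m
      · subst hkm
        rw [l2]
        nlinarith
      · refine h1 _ (Finset.mem_image_of_mem M ?_)
        rw [Finset.mem_sdiff]
        exact ⟨hk, by simp [hkn, hkm]⟩

/-- The chart in case of one active wall. -/
private lemma chart_one {A : ℝ} {y : ℍ} {g : SL(2, ℝ)} {M : ℝ × ℝ × ℝ → ℝ × ℝ × ℝ}
    (hM : Pull g M) (hg : g • (I : ℍ) = y) {n : ℝ × ℝ × ℝ} (hn : n ∈ walls A)
    (hact : ∀ k ∈ walls A, k ≠ n → lin k (cay y) < 0)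
    (n1 : (M n).1 = 0) (n2 : (M n).2.1 < 0) (n3 : (M n).2.2 = 0) :
    ∃ Q', Chart (oct A) y g Q' 1 := by
  classical
  refine ⟨_, hg, star_rest (A := A) {n} hM hg ?_, ?_, by simp⟩
  · intro k hk hk'
    simp only [Finset.mem_singleton] at hk'
    exact hact k hk hk'
  · intro _ ζ hζ
    rw [mem_oct_iff hM hζ]
    have l1 : lin (M n) ζ = 2 * (M n).2.1 * ζ.im := by
      unfold lin
      rw [n1, n3]; ring
    constructor
    · intro h
      refine ⟨⟨hζ, ?_⟩, ?_⟩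
      · intro k hk
        rw [Finset.mem_image] at hk
        obtain ⟨j, hj, rfl⟩ := hk
        exact h j (Finset.mem_sdiff.1 hj).1
      · have := h n hn
        rw [l1] at this
        nlinarith
    · rintro ⟨⟨-, h1⟩, h2⟩ k hk
      by_cases hkn : k = n
      · subst hkn
        rw [l1]
        nlinarith
      · refine h1 _ (Finset.mem_image_of_mem M ?_)
        rw [Finset.mem_sdiff]
        exact ⟨hk, by simp [hkn]⟩

/-- PROOF: let `E` be the set of the walls `n` with `lin n (cay y) = 0` (active walls); `E` is nonempty, two different elements are orthogonal (`BB_walls_orth`). CASE 1: `E = {n}`, then `cay y` is not a corner. Take `g, M` by `exists_normal y`, and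
`Q' = {ζ | ‖ζ‖ < 1 ∧ ∀ m ∈ walls \ {n}, lin (M m) ζ < 0}`: since `lin m (cay y) < 0`, `cay y = dm g 0`, we have `lin (M m) 0 < 0`, i.e. `(M m).2.2 > 0` (`star_of_walls` for the image of the finite set). `lin (M n) ζ = 2 (M n).2.1 im ζ < 0` iff `0 < im ζ`.
CASE 2: `n ≠ m` in `E`, orthogonal: take `g, M` by `exists_normal y` for `n`; `M m` has `.2.2 = 0` (as `lin m (dm g 0) = 0`) and `BB (M n) (M m) = 0` gives `(M m).2.1 = 0`, so `lin (M m) ζ = 2 (M m).1 re ζ`, `(M m).1 ≠ 0`. If `(M m).1 < 0` this is the wall `0 < re ζ`, as wanted. Otherwise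
`(M m).1 > 0`: replace `g` by `g * rotM (π/2)`, `M` by its composition with the rotation `(a, b, c) ↦ (b, -a, c)` (`pull_rotM`): then `M n = (b, 0, 0)` with `b < 0` and `M m = (0, -a, 0)`, `-a < 0`: fine with exchanged roles. A third active wall `l` (different from `n`, `m`)
would have `M l = (x, y', 0)` orthogonal to both, so `M l = 0`, contradicting `BB (M l) (M l) = BB l l > 0` (`BB_walls_pos`). `Q'` is defined by the remaining walls. -/
theorem exists_chart {A : ℝ} (hA : OkA A) {y : ℍ} (hy : y ∈ closure (oct A)) (hy' : y ∉ oct A) :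
    ∃ (g : SL(2, ℝ)) (Q' : Set ℂ) (m : ℕ), Chart (oct A) y g Q' m ∧
      ((m = 1 ∧ ¬ IsCorner A (cay y)) ∨ (m = 2 ∧ IsCorner A (cay y))) := by
  rw [closure_oct hA] at hy
  have hyc : cay y ∈ octC A := hy
  have hyn : ¬ (‖cay y‖ < 1 ∧ ∀ n ∈ walls A, lin n (cay y) < 0) := hy'
  push Not at hyn
  obtain ⟨n, hn, hn0⟩ := hyn (norm_cay_lt y)
  have hn1 : lin n (cay y) = 0 := le_antisymm (hyc.2 n hn) hn0
  obtain ⟨g, M, hM, hg, n1, n2, n3⟩ := exists_normal y (BB_walls_pos hA hn) hn1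
  by_cases hE : ∃ m ∈ walls A, m ≠ n ∧ lin m (cay y) = 0
  · obtain ⟨m, hm, hmn, hm0⟩ := hE
    have hcor : IsCorner A (cay y) := ⟨hyc, n, hn, m, hm, hmn.symm, hn1, hm0⟩
    have m3 : (M m).2.2 = 0 := (lin_at hM hg m).1 hm0
    have h1 := BB_walls_orth hA hyc hn hm hmn.symm hn1 hm0
    rw [← hM.bb] at h1
    have m2 : (M m).2.1 = 0 := by
      unfold BB at h1
      rw [n1, n3] at h1
      have : (M n).2.1 * (M m).2.1 = 0 := by linarith
      exact (mul_eq_zero.1 this).resolve_left n2.ne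
    have m1 : (M m).1 ≠ 0 := by
      intro h2
      have h3 := BB_walls_pos hA hm
      rw [← hM.bb] at h3
      unfold BB at h3
      rw [h2, m2, m3] at h3
      simp at h3
    have hact : ∀ k ∈ walls A, k ≠ n → k ≠ m → lin k (cay y) < 0 := by
      intro k hk hkn hkm
      refine lt_of_le_of_ne (hyc.2 k hk) fun hk0 => ?_
      have k3 : (M k).2.2 = 0 := (lin_at hM hg k).1 hk0
      have h2 := BB_walls_orth hA hyc hn hk hkn.symm hn1 hk0
      have h3 := BB_walls_orth hA hyc hm hk hkm.symm hm0 hk0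
      rw [← hM.bb] at h2 h3
      unfold BB at h2 h3
      rw [n1, n3] at h2
      rw [m2, m3] at h3
      have k2 : (M k).2.1 = 0 := by
        have : (M n).2.1 * (M k).2.1 = 0 := by linarith
        exact (mul_eq_zero.1 this).resolve_left n2.ne
      have k1 : (M k).1 = 0 := by
        have : (M m).1 * (M k).1 = 0 := by linarith
        exact (mul_eq_zero.1 this).resolve_left m1
      have h4 := BB_walls_pos hA hk
      rw [← hM.bb] at h4
      unfold BB at h4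
      rw [k1, k2, k3] at h4
      simp at h4
    rcases lt_or_gt_of_ne m1 with hlt | hgt
    · obtain ⟨Q', hQ⟩ := chart_two hM hg hn hm hact n1 n2 n3 hlt m2 m3
      exact ⟨g, Q', 2, hQ, Or.inr ⟨rfl, hcor⟩⟩
    · have hM' := hM.comp (pull_rotM (Real.pi / 2))
      have hg' : (g * rotM (Real.pi / 2)) • (I : ℍ) = y := by
        rw [mul_smul, rotM_smul_I, hg]
      obtain ⟨Q', hQ⟩ := chart_two (n := m) (m := n) hM' hg' hm hn
        (fun k hk h1 h2 => hact k hk h2 h1)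
        (by simp only; rw [Real.cos_pi_div_two, Real.sin_pi_div_two, m2]; ring)
        (by simp only; rw [Real.cos_pi_div_two, Real.sin_pi_div_two, m2]; linarith)
        m3
        (by simp only; rw [Real.cos_pi_div_two, Real.sin_pi_div_two, n1]; linarith)
        (by simp only; rw [Real.cos_pi_div_two, Real.sin_pi_div_two, n1]; ring)
        n3
      exact ⟨_, Q', 2, hQ, Or.inr ⟨rfl, hcor⟩⟩
  · push Not at hE
    have hact : ∀ k ∈ walls A, k ≠ n → lin k (cay y) < 0 := fun k hk hkn =>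
      lt_of_le_of_ne (hyc.2 k hk) (hE k hk hkn)
    obtain ⟨Q', hQ⟩ := chart_one hM hg hn hact n1 n2 n3
    refine ⟨g, Q', 1, hQ, Or.inl ⟨rfl, ?_⟩⟩
    rintro ⟨-, a, ha, b, hb, hab, ha0, hb0⟩
    by_cases han : a = n
    · exact hE b hb (fun h => hab (han.trans h.symm)) hb0
    · exact hE a ha han ha0

end Pool.Agent.Lib.MP_b9289b_nt
end
end

section

/-! (F03) Local extension of the Riemann map at the frontier. -/

open UpperHalfPlane Metric Set Filter Topology MatrixGroups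
open scoped ComplexConjugate

noncomputable section

namespace Pool.Agent.Lib.MP_b9289b_nt

/-- `H` is the extension of the Riemann map `f` of `Q` in the chart `g`. -/
structure LocExt (Q : Set ℍ) (f : ℂ → ℂ) (g : SL(2, ℝ)) (Q' : Set ℂ) (m : ℕ) (ρ : ℝ)
    (H : ℂ → ℂ) : Prop where
  pos : 0 < ρ
  sub : ball 0 ρ ⊆ Q'
  diff : DifferentiableOn ℂ H (ball 0 ρ)
  ne : ∀ ζ ∈ ball (0 : ℂ) ρ, H ζ ≠ 0
  refl : ∀ ζ ∈ ball (0 : ℂ) ρ, H (conj ζ) = (conj (H ζ))⁻¹
  neg : m = 2 → ∀ ζ ∈ ball (0 : ℂ) ρ, H (-ζ) = H ζ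
  eq : ∀ ζ ∈ ball (0 : ℂ) ρ, g • toH ζ ∈ Q → H ζ = f (dm (g : GL (Fin 2) ℝ) ζ)
  order : analyticOrderAt (fun ζ => H ζ - H 0) 0 = m

private lemma conj_inv_of_norm_one {c : ℂ} (hc : ‖c‖ = 1) : (conj c)⁻¹ = c := by
  have h : conj c * c = 1 := by
    rw [Complex.conj_mul', hc]
    norm_num
  exact (eq_inv_of_mul_eq_one_right h).symm

/-- Moebius transformations of the disc and reflection. PROOF: `‖c‖ = 1`; `c (x - a)/(1 - conj a x)` at `1 / conj x`. For `x ≠ 0`. -/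
lemma moeb_reflect {a c x y : ℂ} (hc : ‖c‖ = 1) (hx : x ≠ 0) (hy : y = (conj x)⁻¹) :
    c * ((y - a) / (1 - conj a * y)) = (conj (c * ((x - a) / (1 - conj a * x))))⁻¹ := by
  have hcx : conj x ≠ 0 := by
    rw [Ne, map_eq_zero]
    exact hx
  have h1 : y - a = (1 - a * conj x) / conj x := by
    rw [hy]
    field_simp
  have h2 : 1 - conj a * y = (conj x - conj a) / conj x := by
    rw [hy]
    field_simp
  rw [h1, h2, div_div_div_cancel_right₀ hcx, map_mul, map_div₀, map_sub, map_sub, map_mul, map_one,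
    Complex.conj_conj, mul_inv, inv_div, conj_inv_of_norm_one hc]

private def KK (a c : ℂ) (x : ℂ) : ℂ := c * ((hh x - a) / (1 - conj a * hh x))

private lemma norm_hh_zero : ‖hh 0‖ = 1 := by
  have h := hh_conj 0
  rw [map_zero] at h
  have h2 : hh 0 * conj (hh 0) = 1 := by
    have h3 : conj (hh 0) ≠ 0 := by
      rw [Ne, map_eq_zero]
      exact hh_zero_ne
    nth_rw 1 [h]
    exact inv_mul_cancel₀ h3
  rw [Complex.mul_conj'] at h2
  have h4 : (‖hh 0‖ ^ 2 : ℝ) = 1 := by exact_mod_cast h2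
  have h5 := norm_nonneg (hh 0)
  nlinarith

private lemma den_ne {a : ℂ} (ha : ‖a‖ < 1) : 1 - conj a * hh 0 ≠ 0 := by
  intro h
  have h1 : conj a * hh 0 = 1 := (sub_eq_zero.mp h).symm
  have h2 : ‖conj a * hh 0‖ = ‖a‖ := by
    rw [norm_mul, norm_hh_zero, mul_one, RCLike.norm_conj]
  rw [h1, norm_one] at h2
  linarith

private lemma KK_zero_ne {a c : ℂ} (ha : ‖a‖ < 1) (hc : ‖c‖ = 1) : KK a c 0 ≠ 0 := by
  unfold KK
  have hc0 : c ≠ 0 := by
    intro h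
    rw [h, norm_zero] at hc
    exact zero_ne_one hc
  refine mul_ne_zero hc0 (div_ne_zero ?_ (den_ne ha))
  intro h
  have h1 : hh 0 = a := sub_eq_zero.mp h
  have h2 := norm_hh_zero
  rw [h1] at h2
  linarith

private lemma analyticAt_KK {a c : ℂ} (ha : ‖a‖ < 1) : AnalyticAt ℂ (KK a c) 0 := by
  unfold KK
  exact analyticAt_const.mul ((analyticAt_hh_zero.sub analyticAt_const).div
    (analyticAt_const.sub (analyticAt_const.mul analyticAt_hh_zero)) (den_ne ha))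

private lemma deriv_KK {a c : ℂ} (ha : ‖a‖ < 1) (hc : ‖c‖ = 1) : deriv (KK a c) 0 ≠ 0 := by
  have hd : HasDerivAt hh (deriv hh 0) 0 := analyticAt_hh_zero.differentiableAt.hasDerivAt
  have h1 : HasDerivAt (fun x => hh x - a) (deriv hh 0) 0 := hd.sub_const a
  have h2 : HasDerivAt (fun x => 1 - conj a * hh x) (-(conj a * deriv hh 0)) 0 :=
    (hd.const_mul (conj a)).const_sub 1
  have h3 := (h1.div h2 (den_ne ha)).const_mul c
  have h4 : HasDerivAt (KK a c) (c * ((deriv hh 0 * (1 - conj a * hh 0) -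
      (hh 0 - a) * -(conj a * deriv hh 0)) / (1 - conj a * hh 0) ^ 2)) 0 := h3
  rw [h4.deriv]
  have hc0 : c ≠ 0 := by
    intro h
    rw [h, norm_zero] at hc
    exact zero_ne_one hc
  refine mul_ne_zero hc0 (div_ne_zero ?_ (pow_ne_zero 2 (den_ne ha)))
  have h5 : deriv hh 0 * (1 - conj a * hh 0) - (hh 0 - a) * -(conj a * deriv hh 0) =
      deriv hh 0 * (1 - conj a * a) := by ring
  rw [h5]
  refine mul_ne_zero deriv_hh_zero ?_
  intro h
  have h6 : conj a * a = 1 := (sub_eq_zero.mp h).symm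
  rw [Complex.conj_mul'] at h6
  have h7 : (‖a‖ ^ 2 : ℝ) = 1 := by exact_mod_cast h6
  have h8 := norm_nonneg a
  nlinarith

private lemma order_KK {a c : ℂ} (ha : ‖a‖ < 1) (hc : ‖c‖ = 1) {G : ℂ → ℂ}
    (hG : AnalyticAt ℂ G 0) (hG0 : G 0 = 0) {m : ℕ} (hm : analyticOrderAt G 0 = m) :
    analyticOrderAt (fun ζ => KK a c (G ζ) - KK a c (G 0)) 0 = m := by
  have h1 : analyticOrderAt (fun x => KK a c x - KK a c 0) 0 = 1 :=
    AnalyticAt.analyticOrderAt_sub_eq_one_of_deriv_ne_zero (analyticAt_KK ha) (deriv_KK ha hc)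
  have h2 : AnalyticAt ℂ (fun x => KK a c x - KK a c 0) (G 0) := by
    rw [hG0]
    exact (analyticAt_KK ha).sub analyticAt_const
  have h3 := AnalyticAt.analyticOrderAt_comp h2 hG
  have h4 : (fun ζ => KK a c (G ζ) - KK a c (G 0)) = (fun x => KK a c x - KK a c 0) ∘ G := by
    funext ζ
    rw [hG0]
    rfl
  have h5 : (fun ζ => G ζ - G 0) = G := by
    funext ζ
    rw [hG0, sub_zero]
  rw [h4, h3, hG0, h1]
  have h6 : analyticOrderAt (fun x => G x - 0) 0 = m := by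
    rw [← hm]
    congr 1
    funext x
    rw [sub_zero]
  rw [h6, one_mul]

private lemma chart_conf {Q : Set ℍ} {f : ℂ → ℂ} (hf : Conf (cay '' Q) f) {g : SL(2, ℝ)}
    {V : Set ℂ} (hV : V ⊆ ball 0 1) (hQ : ∀ ζ, ‖ζ‖ < 1 → (g • toH ζ ∈ Q ↔ ζ ∈ V)) :
    Conf V (fun ζ => f (dm (g : GL (Fin 2) ℝ) ζ)) := by
  have hdet : 0 < (g : GL (Fin 2) ℝ).val.det := by
    have : (g : GL (Fin 2) ℝ).val.det = 1 := g.det_coe
    rw [this]
    exact one_pos
  have hVn : ∀ ζ ∈ V, ‖ζ‖ < 1 := fun ζ hζ => by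
    have := hV hζ
    rwa [mem_ball_zero_iff] at this
  have himg : dm (g : GL (Fin 2) ℝ) '' V = cay '' Q := by
    apply Subset.antisymm
    · rintro _ ⟨ζ, hζ, rfl⟩
      exact ⟨g • toH ζ, (hQ ζ (hVn ζ hζ)).2 hζ, rfl⟩
    · rintro _ ⟨z, hz, rfl⟩
      refine ⟨cay (g⁻¹ • z), ?_, ?_⟩
      · refine (hQ _ (norm_cay_lt _)).1 ?_
        rw [toH_cay, smul_inv_smul]
        exact hz
      · have : dm (g : GL (Fin 2) ℝ) (cay (g⁻¹ • z)) = cay (g • toH (cay (g⁻¹ • z))) := rfl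
        rw [this, toH_cay, smul_inv_smul]
  refine ⟨?_, ?_, ?_⟩
  · refine hf.diff.comp ((dm_differentiableOn hdet).mono hV) ?_
    intro ζ hζ
    rw [← himg]
    exact mem_image_of_mem _ hζ
  · intro ζ₁ h₁ ζ₂ h₂ h
    have hm₁ : dm (g : GL (Fin 2) ℝ) ζ₁ ∈ cay '' Q := by
      rw [← himg]
      exact mem_image_of_mem _ h₁
    have hm₂ : dm (g : GL (Fin 2) ℝ) ζ₂ ∈ cay '' Q := by
      rw [← himg]
      exact mem_image_of_mem _ h₂
    have h3 : dm (g : GL (Fin 2) ℝ) ζ₁ = dm (g : GL (Fin 2) ℝ) ζ₂ := hf.inj hm₁ hm₂ h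
    have h4 := congrArg (dm (g : GL (Fin 2) ℝ)⁻¹) h3
    rwa [dm_inv_dm _ (hVn ζ₁ h₁), dm_inv_dm _ (hVn ζ₂ h₂)] at h4
  · have : (fun ζ => f (dm (g : GL (Fin 2) ℝ) ζ)) '' V = f '' (dm (g : GL (Fin 2) ℝ) '' V) :=
      (image_image f _ V).symm
    rw [this, himg]
    exact hf.image

private lemma locExt_aux {Q : Set ℍ} {f : ℂ → ℂ} {g : SL(2, ℝ)} {Q' : Set ℂ} {m : ℕ} {a c : ℂ}
    (ha : ‖a‖ < 1) (hc : ‖c‖ = 1) {G : ℂ → ℂ} (hG : AnalyticAt ℂ G 0) (hG0 : G 0 = 0)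
    (hm : analyticOrderAt G 0 = m) {D : Set ℂ} (hD : IsOpen D) (h0 : (0 : ℂ) ∈ D)
    (hQ : IsOpen Q') (h0' : (0 : ℂ) ∈ Q') (hconj : ∀ ζ ∈ D, G (conj ζ) = conj (G ζ))
    (hneg : m = 2 → ∀ ζ ∈ D, G (-ζ) = G ζ)
    (heq : ∀ ζ ∈ D, g • toH ζ ∈ Q → f (dm (g : GL (Fin 2) ℝ) ζ) = KK a c (G ζ)) :
    ∃ (ρ : ℝ) (H : ℂ → ℂ), LocExt Q f g Q' m ρ H := by
  have hK : AnalyticAt ℂ (KK a c) (G 0) := by
    rw [hG0]
    exact analyticAt_KK ha
  have hHan : AnalyticAt ℂ (fun ζ => KK a c (G ζ)) 0 := hK.comp hG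
  have hHne : KK a c (G 0) ≠ 0 := by
    rw [hG0]
    exact KK_zero_ne ha hc
  have hhan : AnalyticAt ℂ (fun ζ => hh (G ζ)) 0 := by
    have : AnalyticAt ℂ hh (G 0) := by
      rw [hG0]
      exact analyticAt_hh_zero
    exact this.comp hG
  have hhne : hh (G 0) ≠ 0 := by
    rw [hG0]
    exact hh_zero_ne
  have e1 : ∀ᶠ ζ in 𝓝 (0 : ℂ), ζ ∈ Q' := hQ.mem_nhds h0'
  have e2 : ∀ᶠ ζ in 𝓝 (0 : ℂ), ζ ∈ D := hD.mem_nhds h0
  have e3 : ∀ᶠ ζ in 𝓝 (0 : ℂ), AnalyticAt ℂ (fun ζ => KK a c (G ζ)) ζ :=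
    hHan.eventually_analyticAt
  have e4 : ∀ᶠ ζ in 𝓝 (0 : ℂ), KK a c (G ζ) ≠ 0 :=
    hHan.continuousAt.eventually_ne hHne
  have e5 : ∀ᶠ ζ in 𝓝 (0 : ℂ), hh (G ζ) ≠ 0 :=
    hhan.continuousAt.eventually_ne hhne
  obtain ⟨ρ, hρ, hball⟩ := Metric.eventually_nhds_iff_ball.1
    (e1.and (e2.and (e3.and (e4.and e5))))
  refine ⟨ρ, fun ζ => KK a c (G ζ), hρ, fun ζ hζ => (hball ζ hζ).1, ?_, ?_, ?_, ?_, ?_, ?_⟩
  · exact fun ζ hζ => (hball ζ hζ).2.2.1.differentiableAt.differentiableWithinAt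
  · exact fun ζ hζ => (hball ζ hζ).2.2.2.1
  · intro ζ hζ
    rw [hconj ζ (hball ζ hζ).2.1]
    exact moeb_reflect hc (hball ζ hζ).2.2.2.2 (hh_conj (G ζ))
  · intro h2 ζ hζ
    rw [hneg h2 ζ (hball ζ hζ).2.1]
  · intro ζ hζ hQm
    exact (heq ζ (hball ζ hζ).2.1 hQm).symm
  · exact order_KK ha hc hG hG0 hm

/-- PROOF (m = 1): let `F` be the Riemann map of `dom1 Q'` (`exists_rmap`, `star_dom1`). On `V = dom1 Q' ∩ {0 < im} = Q' ∩ {0 < im}` (open) both `ζ ↦ f (dm g ζ)` and `hh ∘ F` are `Conf`: the first one since `dm g` (holomorphic, injective on the disc) maps `V` onto `cay '' Q` (`Chart.one`); the second one by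
`image_dom1` and `conf_hh`. By `conf_mobius` there are `a, c` with `f (dm g ζ) = c (x - a)/(1 - conj a x)`, `x = hh (F ζ)`, on `V`. Define `H ζ = c (hh (F ζ) - a)/(1 - conj a hh (F ζ))` for all `ζ`. Near `0`: `F` is analytic, `F 0 = 0`, `hh` is analytic at `0` with `‖hh 0‖ = 1` (by `hh_conj`), so `H` is
analytic near `0`, `‖H 0‖ = 1`, `deriv H 0 ≠ 0` (product of the nonzero derivatives of `F`, `hh` and the Moebius transformation), so the order is one. The reflection property: `conj_dom1`, `hh_conj`, `moeb_reflect`. Choose `ρ` small (so that `ball 0 ρ ⊆ Q'`, `H` is holomorphic and `H ≠ 0`, `hh (F ζ) ≠ 0`). -/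
theorem exists_locExt_one {Q : Set ℍ} {f : ℂ → ℂ} (hf : Conf (cay '' Q) f) {y : ℍ} {g : SL(2, ℝ)}
    {Q' : Set ℂ} (hc : Chart Q y g Q' 1) : ∃ (ρ : ℝ) (H : ℂ → ℂ), LocExt Q f g Q' 1 ρ H := by
  have hS1 : Star (dom1 Q') := star_dom1 hc.star
  obtain ⟨F, hF⟩ := exists_rmap hS1
  set V : Set ℂ := dom1 Q' ∩ {ζ | 0 < ζ.im} with hVdef
  have hVo : IsOpen V := hS1.isOpen.inter (isOpen_lt continuous_const Complex.continuous_im)
  have hVb : V ⊆ ball 0 1 := fun ζ hζ => hS1.sub hζ.1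
  have hVQ : ∀ ζ : ℂ, (ζ ∈ Q' ∧ 0 < ζ.im) ↔ ζ ∈ V := by
    intro ζ
    have key : 0 < ζ.im → ((⟨ζ.re, |ζ.im|⟩ : ℂ) = ζ) := by
      intro h
      apply Complex.ext
      · rfl
      · exact abs_of_pos h
    constructor
    · rintro ⟨h1, h2⟩
      refine ⟨?_, h2⟩
      change (⟨ζ.re, |ζ.im|⟩ : ℂ) ∈ Q'
      rw [key h2]
      exact h1
    · rintro ⟨h1, h2⟩
      refine ⟨?_, h2⟩
      have h3 : (⟨ζ.re, |ζ.im|⟩ : ℂ) ∈ Q' := h1
      rwa [key h2] at h3
  have hQV : ∀ ζ, ‖ζ‖ < 1 → (g • toH ζ ∈ Q ↔ ζ ∈ V) := fun ζ hζ =>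
    (hc.one rfl ζ hζ).trans (hVQ ζ)
  have hconf1 := chart_conf hf hVb hQV
  have hFV : F '' V = halfD := image_dom1 hc.star hF
  have hconf2 : Conf V (fun ζ => hh (F ζ)) := by
    refine ⟨?_, ?_, ?_⟩
    · refine conf_hh.diff.comp (hF.diff.mono (fun ζ hζ => hζ.1)) ?_
      intro ζ hζ
      rw [← hFV]
      exact mem_image_of_mem _ hζ
    · intro ζ₁ h₁ ζ₂ h₂ h
      have hm₁ : F ζ₁ ∈ halfD := by
        rw [← hFV]
        exact mem_image_of_mem _ h₁
      have hm₂ : F ζ₂ ∈ halfD := by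
        rw [← hFV]
        exact mem_image_of_mem _ h₂
      exact hF.inj h₁.1 h₂.1 (conf_hh.inj hm₁ hm₂ h)
    · have : (fun ζ => hh (F ζ)) '' V = hh '' (F '' V) := (image_image hh F V).symm
      rw [this, hFV]
      exact conf_hh.image
  obtain ⟨a, c, ha, hcc, hac⟩ := conf_mobius hVo hconf2 hconf1
  have h0 : (0 : ℂ) ∈ dom1 Q' := hS1.zero_mem
  have hFan : AnalyticAt ℂ F 0 := (hF.diff.analyticOnNhd hS1.isOpen) 0 h0
  have hFord : analyticOrderAt F 0 = (1 : ℕ) := by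
    obtain ⟨r, hr, hrd⟩ := hF.pos
    have hd : deriv F 0 ≠ 0 := by
      rw [hrd]
      exact_mod_cast hr.ne'
    have h1 := AnalyticAt.analyticOrderAt_sub_eq_one_of_deriv_ne_zero hFan hd
    have h2 : (fun x => F x - F 0) = F := by
      funext x
      rw [hF.zero, sub_zero]
    rw [h2] at h1
    rw [h1]
    rfl
  refine locExt_aux ha hcc hFan hF.zero hFord hS1.isOpen h0 hc.star.isOpen hc.star.zero_mem
    (fun ζ hζ => conj_dom1 hc.star hF hζ) (fun h => absurd h (by norm_num)) ?_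
  intro ζ hζ hQm
  have hn : ‖ζ‖ < 1 := by
    have := hS1.sub hζ
    rwa [mem_ball_zero_iff] at this
  exact hac ζ ((hQV ζ hn).1 hQm)

end Pool.Agent.Lib.MP_b9289b_nt
end
end
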