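import Pool.Agent.Lib.MP_b9289b_nt.Mg.G010
import Pool.Agent.Lib.MP_b9289b_nt.Mg.G008

section

/-! (F04) Local extension of the Riemann map at a corner. -/

open UpperHalfPlane Metric Set Filter Topology MatrixGroups
open scoped ComplexConjugate

noncomputable section

namespace Pool.Agent.Lib.MP_b9289b_nt

private def KK (a c : ℂ) (x : ℂ) : ℂ := c * ((hh x - a) / (1 - conj a * hh x))

private lemma norm_hh_zero : ‖hh 0‖ = 1 := by
  have h := hh_conj 0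
  rw [map_zero] at h
  have h2 : hh 0 * conj (hh 0) = 1 := by
    have h3 : conj (hh 0) ≠ 0 := by
      rw [Ne, map_eq_zero]
      exact hh_zero_ne
    nth_rw 1 [h]
    exact inv_mul_cancel₀ h3
  rw [Complex.mul_conj'] at h2
  have h4 : (‖hh 0‖ ^ 2 : ℝ) = 1 := by exact_mod_cast h2
  have h5 := norm_nonneg (hh 0)
  nlinarith

private lemma den_ne {a : ℂ} (ha : ‖a‖ < 1) : 1 - conj a * hh 0 ≠ 0 := by
  intro h
  have h1 : conj a * hh 0 = 1 := (sub_eq_zero.mp h).symm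
  have h2 : ‖conj a * hh 0‖ = ‖a‖ := by
    rw [norm_mul, norm_hh_zero, mul_one, RCLike.norm_conj]
  rw [h1, norm_one] at h2
  linarith

private lemma KK_zero_ne {a c : ℂ} (ha : ‖a‖ < 1) (hc : ‖c‖ = 1) : KK a c 0 ≠ 0 := by
  unfold KK
  have hc0 : c ≠ 0 := by
    intro h
    rw [h, norm_zero] at hc
    exact zero_ne_one hc
  refine mul_ne_zero hc0 (div_ne_zero ?_ (den_ne ha))
  intro h
  have h1 : hh 0 = a := sub_eq_zero.mp h
  have h2 := norm_hh_zero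
  rw [h1] at h2
  linarith

private lemma analyticAt_KK {a c : ℂ} (ha : ‖a‖ < 1) : AnalyticAt ℂ (KK a c) 0 := by
  unfold KK
  exact analyticAt_const.mul ((analyticAt_hh_zero.sub analyticAt_const).div
    (analyticAt_const.sub (analyticAt_const.mul analyticAt_hh_zero)) (den_ne ha))

private lemma deriv_KK {a c : ℂ} (ha : ‖a‖ < 1) (hc : ‖c‖ = 1) : deriv (KK a c) 0 ≠ 0 := by
  have hd : HasDerivAt hh (deriv hh 0) 0 := analyticAt_hh_zero.differentiableAt.hasDerivAt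
  have h1 : HasDerivAt (fun x => hh x - a) (deriv hh 0) 0 := hd.sub_const a
  have h2 : HasDerivAt (fun x => 1 - conj a * hh x) (-(conj a * deriv hh 0)) 0 :=
    (hd.const_mul (conj a)).const_sub 1
  have h3 := (h1.div h2 (den_ne ha)).const_mul c
  have h4 : HasDerivAt (KK a c) (c * ((deriv hh 0 * (1 - conj a * hh 0) -
      (hh 0 - a) * -(conj a * deriv hh 0)) / (1 - conj a * hh 0) ^ 2)) 0 := h3
  rw [h4.deriv]
  have hc0 : c ≠ 0 := by
    intro h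
    rw [h, norm_zero] at hc
    exact zero_ne_one hc
  refine mul_ne_zero hc0 (div_ne_zero ?_ (pow_ne_zero 2 (den_ne ha)))
  have h5 : deriv hh 0 * (1 - conj a * hh 0) - (hh 0 - a) * -(conj a * deriv hh 0) =
      deriv hh 0 * (1 - conj a * a) := by ring
  rw [h5]
  refine mul_ne_zero deriv_hh_zero ?_
  intro h
  have h6 : conj a * a = 1 := (sub_eq_zero.mp h).symm
  rw [Complex.conj_mul'] at h6
  have h7 : (‖a‖ ^ 2 : ℝ) = 1 := by exact_mod_cast h6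
  have h8 := norm_nonneg a
  nlinarith

private lemma order_KK {a c : ℂ} (ha : ‖a‖ < 1) (hc : ‖c‖ = 1) {G : ℂ → ℂ}
    (hG : AnalyticAt ℂ G 0) (hG0 : G 0 = 0) {m : ℕ} (hm : analyticOrderAt G 0 = m) :
    analyticOrderAt (fun ζ => KK a c (G ζ) - KK a c (G 0)) 0 = m := by
  have h1 : analyticOrderAt (fun x => KK a c x - KK a c 0) 0 = 1 :=
    AnalyticAt.analyticOrderAt_sub_eq_one_of_deriv_ne_zero (analyticAt_KK ha) (deriv_KK ha hc)
  have h2 : AnalyticAt ℂ (fun x => KK a c x - KK a c 0) (G 0) := by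
    rw [hG0]
    exact (analyticAt_KK ha).sub analyticAt_const
  have h3 := AnalyticAt.analyticOrderAt_comp h2 hG
  have h4 : (fun ζ => KK a c (G ζ) - KK a c (G 0)) = (fun x => KK a c x - KK a c 0) ∘ G := by
    funext ζ
    rw [hG0]
    rfl
  have h5 : (fun ζ => G ζ - G 0) = G := by
    funext ζ
    rw [hG0, sub_zero]
  rw [h4, h3, hG0, h1]
  have h6 : analyticOrderAt (fun x => G x - 0) 0 = m := by
    rw [← hm]
    congr 1
    funext x
    rw [sub_zero]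
  rw [h6, one_mul]

private lemma chart_conf {Q : Set ℍ} {f : ℂ → ℂ} (hf : Conf (cay '' Q) f) {g : SL(2, ℝ)}
    {V : Set ℂ} (hV : V ⊆ ball 0 1) (hQ : ∀ ζ, ‖ζ‖ < 1 → (g • toH ζ ∈ Q ↔ ζ ∈ V)) :
    Conf V (fun ζ => f (dm (g : GL (Fin 2) ℝ) ζ)) := by
  have hdet : 0 < (g : GL (Fin 2) ℝ).val.det := by
    have : (g : GL (Fin 2) ℝ).val.det = 1 := g.det_coe
    rw [this]
    exact one_pos
  have hVn : ∀ ζ ∈ V, ‖ζ‖ < 1 := fun ζ hζ => by
    have := hV hζ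
    rwa [mem_ball_zero_iff] at this
  have himg : dm (g : GL (Fin 2) ℝ) '' V = cay '' Q := by
    apply Subset.antisymm
    · rintro _ ⟨ζ, hζ, rfl⟩
      exact ⟨g • toH ζ, (hQ ζ (hVn ζ hζ)).2 hζ, rfl⟩
    · rintro _ ⟨z, hz, rfl⟩
      refine ⟨cay (g⁻¹ • z), ?_, ?_⟩
      · refine (hQ _ (norm_cay_lt _)).1 ?_
        rw [toH_cay, smul_inv_smul]
        exact hz
      · have : dm (g : GL (Fin 2) ℝ) (cay (g⁻¹ • z)) = cay (g • toH (cay (g⁻¹ • z))) := rfl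
        rw [this, toH_cay, smul_inv_smul]
  refine ⟨?_, ?_, ?_⟩
  · refine hf.diff.comp ((dm_differentiableOn hdet).mono hV) ?_
    intro ζ hζ
    rw [← himg]
    exact mem_image_of_mem _ hζ
  · intro ζ₁ h₁ ζ₂ h₂ h
    have hm₁ : dm (g : GL (Fin 2) ℝ) ζ₁ ∈ cay '' Q := by
      rw [← himg]
      exact mem_image_of_mem _ h₁
    have hm₂ : dm (g : GL (Fin 2) ℝ) ζ₂ ∈ cay '' Q := by
      rw [← himg]
      exact mem_image_of_mem _ h₂
    have h3 : dm (g : GL (Fin 2) ℝ) ζ₁ = dm (g : GL (Fin 2) ℝ) ζ₂ := hf.inj hm₁ hm₂ h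
    have h4 := congrArg (dm (g : GL (Fin 2) ℝ)⁻¹) h3
    rwa [dm_inv_dm _ (hVn ζ₁ h₁), dm_inv_dm _ (hVn ζ₂ h₂)] at h4
  · have : (fun ζ => f (dm (g : GL (Fin 2) ℝ) ζ)) '' V = f '' (dm (g : GL (Fin 2) ℝ) '' V) :=
      (image_image f _ V).symm
    rw [this, himg]
    exact hf.image

private lemma locExt_aux {Q : Set ℍ} {f : ℂ → ℂ} {g : SL(2, ℝ)} {Q' : Set ℂ} {m : ℕ} {a c : ℂ}
    (ha : ‖a‖ < 1) (hc : ‖c‖ = 1) {G : ℂ → ℂ} (hG : AnalyticAt ℂ G 0) (hG0 : G 0 = 0)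
    (hm : analyticOrderAt G 0 = m) {D : Set ℂ} (hD : IsOpen D) (h0 : (0 : ℂ) ∈ D)
    (hQ : IsOpen Q') (h0' : (0 : ℂ) ∈ Q') (hconj : ∀ ζ ∈ D, G (conj ζ) = conj (G ζ))
    (hneg : m = 2 → ∀ ζ ∈ D, G (-ζ) = G ζ)
    (heq : ∀ ζ ∈ D, g • toH ζ ∈ Q → f (dm (g : GL (Fin 2) ℝ) ζ) = KK a c (G ζ)) :
    ∃ (ρ : ℝ) (H : ℂ → ℂ), LocExt Q f g Q' m ρ H := by
  have hK : AnalyticAt ℂ (KK a c) (G 0) := by
    rw [hG0]
    exact analyticAt_KK ha
  have hHan : AnalyticAt ℂ (fun ζ => KK a c (G ζ)) 0 := hK.comp hG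
  have hHne : KK a c (G 0) ≠ 0 := by
    rw [hG0]
    exact KK_zero_ne ha hc
  have hhan : AnalyticAt ℂ (fun ζ => hh (G ζ)) 0 := by
    have : AnalyticAt ℂ hh (G 0) := by
      rw [hG0]
      exact analyticAt_hh_zero
    exact this.comp hG
  have hhne : hh (G 0) ≠ 0 := by
    rw [hG0]
    exact hh_zero_ne
  have e1 : ∀ᶠ ζ in 𝓝 (0 : ℂ), ζ ∈ Q' := hQ.mem_nhds h0'
  have e2 : ∀ᶠ ζ in 𝓝 (0 : ℂ), ζ ∈ D := hD.mem_nhds h0
  have e3 : ∀ᶠ ζ in 𝓝 (0 : ℂ), AnalyticAt ℂ (fun ζ => KK a c (G ζ)) ζ :=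
    hHan.eventually_analyticAt
  have e4 : ∀ᶠ ζ in 𝓝 (0 : ℂ), KK a c (G ζ) ≠ 0 :=
    hHan.continuousAt.eventually_ne hHne
  have e5 : ∀ᶠ ζ in 𝓝 (0 : ℂ), hh (G ζ) ≠ 0 :=
    hhan.continuousAt.eventually_ne hhne
  obtain ⟨ρ, hρ, hball⟩ := Metric.eventually_nhds_iff_ball.1
    (e1.and (e2.and (e3.and (e4.and e5))))
  refine ⟨ρ, fun ζ => KK a c (G ζ), hρ, fun ζ hζ => (hball ζ hζ).1, ?_, ?_, ?_, ?_, ?_, ?_⟩
  · exact fun ζ hζ => (hball ζ hζ).2.2.1.differentiableAt.differentiableWithinAt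
  · exact fun ζ hζ => (hball ζ hζ).2.2.2.1
  · intro ζ hζ
    rw [hconj ζ (hball ζ hζ).2.1]
    exact moeb_reflect hc (hball ζ hζ).2.2.2.2 (hh_conj (G ζ))
  · intro h2 ζ hζ
    rw [hneg h2 ζ (hball ζ hζ).2.1]
  · intro ζ hζ hQm
    exact (heq ζ (hball ζ hζ).2.1 hQm).symm
  · exact order_KK ha hc hG hG0 hm

/-- PROOF (m = 2): as `exists_locExt_one`: let `F` be the Riemann map of `dom2 Q'`. On `V = dom2 Q' ∩ {0 < im, 0 < re} = Q' ∩ {0 < im, 0 < re}` both `ζ ↦ f (dm g ζ)` and `ζ ↦ hh (F ζ ^ 2)` are `Conf` (`image_dom2`, `conf_hh_sq`), so `f (dm g ζ) = c (x - a)/(1 - conj a x)`, `x = hh (F ζ ^ 2)`, by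
`conf_mobius`. `H ζ = K (F ζ ^ 2)` with `K` analytic at `0`, `deriv K 0 ≠ 0`, so `H ζ - H 0` has order two. `H (-ζ) = H ζ` by `neg_dom2`, the reflection property by `conj_dom2`, `hh_conj`, `moeb_reflect`. -/
theorem exists_locExt_two {Q : Set ℍ} {f : ℂ → ℂ} (hf : Conf (cay '' Q) f) {y : ℍ} {g : SL(2, ℝ)}
    {Q' : Set ℂ} (hc : Chart Q y g Q' 2) : ∃ (ρ : ℝ) (H : ℂ → ℂ), LocExt Q f g Q' 2 ρ H := by
  have hS2 : Star (dom2 Q') := star_dom2 hc.star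
  obtain ⟨F, hF⟩ := exists_rmap hS2
  set V : Set ℂ := dom2 Q' ∩ {ζ | 0 < ζ.im ∧ 0 < ζ.re} with hVdef
  have hVo : IsOpen V := hS2.isOpen.inter
    ((isOpen_lt continuous_const Complex.continuous_im).inter
      (isOpen_lt continuous_const Complex.continuous_re))
  have hVb : V ⊆ ball 0 1 := fun ζ hζ => hS2.sub hζ.1
  have hVQ : ∀ ζ : ℂ, (ζ ∈ Q' ∧ 0 < ζ.im ∧ 0 < ζ.re) ↔ ζ ∈ V := by
    intro ζ
    have key : 0 < ζ.im → 0 < ζ.re → ((⟨|ζ.re|, |ζ.im|⟩ : ℂ) = ζ) := by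
      intro h h'
      apply Complex.ext
      · exact abs_of_pos h'
      · exact abs_of_pos h
    constructor
    · rintro ⟨h1, h2, h3⟩
      refine ⟨?_, h2, h3⟩
      change (⟨|ζ.re|, |ζ.im|⟩ : ℂ) ∈ Q'
      rw [key h2 h3]
      exact h1
    · rintro ⟨h1, h2, h3⟩
      refine ⟨?_, h2, h3⟩
      have h4 : (⟨|ζ.re|, |ζ.im|⟩ : ℂ) ∈ Q' := h1
      rwa [key h2 h3] at h4
  have hQV : ∀ ζ, ‖ζ‖ < 1 → (g • toH ζ ∈ Q ↔ ζ ∈ V) := fun ζ hζ =>
    (hc.two rfl ζ hζ).trans (hVQ ζ)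
  have hconf1 := chart_conf hf hVb hQV
  have hFV : F '' V = quartD := image_dom2 hc.star hF
  have hconf2 : Conf V (fun ζ => hh (F ζ ^ 2)) := by
    refine ⟨?_, ?_, ?_⟩
    · have h1 : DifferentiableOn ℂ ((fun x => hh (x ^ 2)) ∘ F) V := by
        refine conf_hh_sq.diff.comp (hF.diff.mono (fun ζ hζ => hζ.1)) ?_
        intro ζ hζ
        rw [← hFV]
        exact mem_image_of_mem _ hζ
      exact h1
    · intro ζ₁ h₁ ζ₂ h₂ h
      have hm₁ : F ζ₁ ∈ quartD := by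
        rw [← hFV]
        exact mem_image_of_mem _ h₁
      have hm₂ : F ζ₂ ∈ quartD := by
        rw [← hFV]
        exact mem_image_of_mem _ h₂
      exact hF.inj h₁.1 h₂.1 (conf_hh_sq.inj hm₁ hm₂ h)
    · have : (fun ζ => hh (F ζ ^ 2)) '' V = (fun x => hh (x ^ 2)) '' (F '' V) :=
        (image_image (fun x => hh (x ^ 2)) F V).symm
      rw [this, hFV]
      exact conf_hh_sq.image
  obtain ⟨a, c, ha, hcc, hac⟩ := conf_mobius hVo hconf2 hconf1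
  have h0 : (0 : ℂ) ∈ dom2 Q' := hS2.zero_mem
  have hFan : AnalyticAt ℂ F 0 := (hF.diff.analyticOnNhd hS2.isOpen) 0 h0
  have hFord : analyticOrderAt F 0 = (1 : ℕ) := by
    obtain ⟨r, hr, hrd⟩ := hF.pos
    have hd : deriv F 0 ≠ 0 := by
      rw [hrd]
      exact_mod_cast hr.ne'
    have h1 := AnalyticAt.analyticOrderAt_sub_eq_one_of_deriv_ne_zero hFan hd
    have h2 : (fun x => F x - F 0) = F := by
      funext x
      rw [hF.zero, sub_zero]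
    rw [h2] at h1
    rw [h1]
    rfl
  have hG : AnalyticAt ℂ (fun ζ => F ζ ^ 2) 0 := hFan.pow 2
  have hGord : analyticOrderAt (fun ζ => F ζ ^ 2) 0 = (2 : ℕ) := by
    have h1 := analyticOrderAt_pow hFan 2
    have h2 : (fun ζ => F ζ ^ 2) = F ^ 2 := rfl
    rw [h2, h1, hFord]
    rfl
  refine locExt_aux ha hcc hG (by rw [hF.zero, zero_pow two_ne_zero]) hGord hS2.isOpen h0
    hc.star.isOpen hc.star.zero_mem ?_ ?_ ?_
  · intro ζ hζ
    rw [conj_dom2 hc.star hF hζ, map_pow]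
  · intro _ ζ hζ
    rw [neg_dom2 hc.star hF hζ, neg_sq]
  · intro ζ hζ hQm
    have hn : ‖ζ‖ < 1 := by
      have := hS2.sub hζ
      rwa [mem_ball_zero_iff] at this
    exact hac ζ ((hQV ζ hn).1 hQm)

end Pool.Agent.Lib.MP_b9289b_nt
end
end

section

/-! (L01) The local functions have the property `PP`. -/

open UpperHalfPlane Metric Set Filter Topology MatrixGroups
open scoped ComplexConjugate

noncomputable section

namespace Pool.Agent.Lib.MP_b9289b_nt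

lemma tac_mul (g h : GL (Fin 2) ℝ) (x : ℂ) : tac (g * h) x = tac g (tac h x) := by
  have hd : (g * h).val.det = g.val.det * h.val.det := by
    rw [Units.val_mul, Matrix.det_mul]
  unfold tac
  rw [hd]
  rcases lt_or_gt_of_ne g.det_ne_zero with hg | hg <;>
    rcases lt_or_gt_of_ne h.det_ne_zero with hh | hh
  · rw [if_pos (mul_pos_of_neg_of_neg hg hh), if_neg hg.not_gt, if_neg hh.not_gt]
    simp
  · rw [if_neg (mul_neg_of_neg_of_pos hg hh).not_gt, if_neg hg.not_gt, if_pos hh]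
  · rw [if_neg (mul_neg_of_pos_of_neg hg hh).not_gt, if_pos hg, if_neg hh.not_gt]
  · rw [if_pos (mul_pos hg hh), if_pos hg, if_pos hh]

lemma tac_one (x : ℂ) : tac 1 x = x := by
  unfold tac
  rw [if_pos (by simp)]

/-- The reflection in the real axis of the chart `g`. -/
def sJ (g : SL(2, ℝ)) : GL (Fin 2) ℝ := (g : GL (Fin 2) ℝ) * J * (g : GL (Fin 2) ℝ)⁻¹

/-- The rotation by `π` about the centre of the chart `g`. -/
def sR (g : SL(2, ℝ)) : SL(2, ℝ) := g * rotM Real.pi * g⁻¹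

lemma det_sJ (g : SL(2, ℝ)) : (sJ g).val.det < 0 := by
  have h1 : (g : GL (Fin 2) ℝ).val.det = 1 := by simp
  have h2 : ((g : GL (Fin 2) ℝ)⁻¹).val.det = 1 := by
    have h3 : ((g : GL (Fin 2) ℝ) * (g : GL (Fin 2) ℝ)⁻¹).val.det = 1 := by
      rw [mul_inv_cancel]
      simp
    rw [Units.val_mul, Matrix.det_mul, h1, one_mul] at h3
    exact h3
  unfold sJ
  rw [Units.val_mul, Units.val_mul, Matrix.det_mul, Matrix.det_mul, h1, h2]
  simp

/-- PROOF: `cay_J`. -/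
lemma sJ_smul (g : SL(2, ℝ)) {ζ : ℂ} (h : ‖ζ‖ < 1) : sJ g • (g • toH ζ) = g • toH (conj ζ) := by
  have h1 : (J • toH ζ : ℍ) = toH (conj ζ) := by
    rw [← toH_cay (J • toH ζ), cay_J, cay_toH h]
  have h2 : g • toH ζ = (g : GL (Fin 2) ℝ) • toH ζ := rfl
  have h3 : g • toH (conj ζ) = (g : GL (Fin 2) ℝ) • toH (conj ζ) := rfl
  rw [h2, h3]
  unfold sJ
  rw [mul_smul, mul_smul, inv_smul_smul, h1]

/-- PROOF: `cay_rotM` with `φ = π`. -/
lemma sR_smul (g : SL(2, ℝ)) {ζ : ℂ} (h : ‖ζ‖ < 1) : sR g • (g • toH ζ) = g • toH (-ζ) := by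
  have h1 : (rotM Real.pi • toH ζ : ℍ) = toH (-ζ) := by
    rw [← toH_cay (rotM Real.pi • toH ζ), cay_rotM, cay_toH h, Complex.exp_pi_mul_I]
    ring_nf
  unfold sR
  rw [mul_smul, mul_smul, inv_smul_smul, h1]

/-- The local function in the upper half plane. -/
def hloc (g : SL(2, ℝ)) (H : ℂ → ℂ) (w : ℍ) : ℂ := H (cay (g⁻¹ • w))

variable {Q : Set ℍ} {f H : ℂ → ℂ} {y : ℍ} {g : SL(2, ℝ)} {Q' : Set ℂ} {m : ℕ} {ρ : ℝ}

lemma LocExt.rho_le_one (hc : Chart Q y g Q' m) (hL : LocExt Q f g Q' m ρ H) : ρ ≤ 1 := by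
  by_contra hlt
  push Not at hlt
  have h1 : (1 : ℂ) ∈ ball (0 : ℂ) ρ := by
    rw [mem_ball, dist_zero_right, norm_one]
    exact hlt
  have h2 := hc.star.sub (hL.sub h1)
  rw [mem_ball, dist_zero_right, norm_one] at h2
  exact lt_irrefl _ h2

/-- PROOF: `LocExt.refl` at `0`. -/
lemma LocExt.norm_zero (hL : LocExt Q f g Q' m ρ H) : ‖H 0‖ = 1 := by
  have h0 : (0 : ℂ) ∈ ball (0 : ℂ) ρ := mem_ball_self hL.pos
  have h1 := hL.refl 0 h0
  have h2 := hL.ne 0 h0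
  rw [map_zero] at h1
  have h3 : H 0 * conj (H 0) = 1 := by
    nth_rewrite 1 [h1]
    exact inv_mul_cancel₀ ((map_ne_zero _).2 h2)
  rw [Complex.mul_conj, Complex.normSq_eq_norm_sq] at h3
  have h4 : ‖H 0‖ ^ 2 = 1 := by exact_mod_cast h3
  have h5 := norm_nonneg (H 0)
  nlinarith

/-- PROOF: `analyticAt_comp_cay` and `analyticAt_gl` for `g⁻¹` (or directly). -/
lemma analyticAt_hloc (hL : LocExt Q f g Q' m ρ H) {w : ℍ} (hw : ‖cay (g⁻¹ • w)‖ < ρ) :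
    AnalyticAt ℂ (↑ₕ(hloc g H)) (w : ℂ) := by
  have h1 : cay (g⁻¹ • w) ∈ ball (0 : ℂ) ρ := by
    rw [mem_ball, dist_zero_right]
    exact hw
  have h2 : AnalyticAt ℂ H (cay (g⁻¹ • w)) := hL.diff.analyticAt (isOpen_ball.mem_nhds h1)
  have h3 := analyticAt_comp_cay h2
  have h4 := analyticAt_gl (h := fun v => H (cay v)) ((g⁻¹ : SL(2, ℝ)) : GL (Fin 2) ℝ) (z := w) h3
  have h5 : (fun v : ℍ => σ ((g⁻¹ : SL(2, ℝ)) : GL (Fin 2) ℝ)
      (H (cay (((g⁻¹ : SL(2, ℝ)) : GL (Fin 2) ℝ) • v)))) = hloc g H := by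
    funext v
    rw [σ, if_pos (by simp)]
    rfl
  rw [h5] at h4
  exact h4

private lemma smul_toH_cay (g : SL(2, ℝ)) (v : ℍ) : g • toH (cay (g⁻¹ • v)) = v := by
  rw [toH_cay, smul_inv_smul]

private lemma pp_aux (hL : LocExt Q f g Q' m ρ H) (hρ : ρ ≤ 1) (g' : GL (Fin 2) ℝ) (T : ℂ → ℂ)
    (hT : ∀ ζ, ‖T ζ‖ = ‖ζ‖) (hg' : ∀ ζ, ‖ζ‖ < 1 → g' • (g • toH ζ) = g • toH (T ζ))
    (hH : ∀ ζ ∈ ball (0 : ℂ) ρ, H ζ = tac g' (H (T ζ))) {w : ℍ} (hw : ‖cay (g⁻¹ • w)‖ < ρ)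
    (e : ℂ) (hcl : ∀ᶠ ε : ℝ in 𝓝[>] 0, g • toH (T (cay (g⁻¹ • w)) + ε * e) ∈ Q) :
    PP Q f (hloc g H) w := by
  refine ⟨(analyticAt_hloc hL hw).meromorphicNFAt, g', ?_, ?_⟩
  · have h1 : g' • w = g • toH (T (cay (g⁻¹ • w))) := by
      rw [← hg' _ (hw.trans_le hρ), smul_toH_cay]
    rw [h1]
    have h2 : Tendsto (fun ε : ℝ => g • toH (T (cay (g⁻¹ • w)) + ε * e)) (𝓝[>] 0)
        (𝓝 (g • toH (T (cay (g⁻¹ • w))))) := by
      have h3 : ContinuousAt toH (T (cay (g⁻¹ • w))) := by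
        refine continuousOn_toH.continuousAt (isOpen_ball.mem_nhds ?_)
        rw [mem_ball, dist_zero_right, hT]
        exact hw.trans_le hρ
      have h4 : Tendsto (fun ε : ℝ => T (cay (g⁻¹ • w)) + ε * e) (𝓝[>] 0)
          (𝓝 (T (cay (g⁻¹ • w)))) := by
        have h5 : Continuous (fun ε : ℝ => T (cay (g⁻¹ • w)) + ε * e) := by fun_prop
        have h6 := h5.tendsto 0
        simp only [Complex.ofReal_zero, zero_mul, add_zero] at h6
        exact h6.mono_left nhdsWithin_le_nhds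
      have h7 : Continuous (fun v : ℍ => g • v) := continuous_const_smul g
      exact (h7.tendsto _).comp (h3.tendsto.comp h4)
    exact mem_closure_of_tendsto h2 hcl
  · have h1 : Continuous (fun v : ℍ => ‖cay (g⁻¹ • v)‖) :=
      (continuous_cay.comp (continuous_const_smul g⁻¹)).norm
    filter_upwards [h1.continuousAt.eventually_lt continuousAt_const hw] with v hv hvQ
    have h2 : g' • v = g • toH (T (cay (g⁻¹ • v))) := by
      rw [← hg' _ (hv.trans_le hρ), smul_toH_cay]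
    rw [h2] at hvQ ⊢
    have h3 : T (cay (g⁻¹ • v)) ∈ ball (0 : ℂ) ρ := by
      rw [mem_ball, dist_zero_right, hT]
      exact hv
    have h4 := hL.eq _ h3 hvQ
    have h5 : cay (g⁻¹ • v) ∈ ball (0 : ℂ) ρ := by
      rw [mem_ball, dist_zero_right]
      exact hv
    unfold hloc
    rw [hH _ h5, h4]
    rfl

/-- PROOF: `w = g • toH ζ₀`, `‖ζ₀‖ < ρ`. If `0 ≤ im ζ₀` take the element `1`: `w ∈ closure Q` (`Chart.one`: points `ζ₀ + i ε` of `ball 0 ρ ⊆ Q'`), and `hloc v = H ζ = f (dm g ζ) = f (cay v)` for `v = g • toH ζ ∈ Q` near `w` (`LocExt.eq`). If `im ζ₀ < 0` take `sJ g`: `sJ g • w = g • toH (conj ζ₀) ∈ Q`,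
and for `v = g • toH ζ` near `w` with `sJ g • v ∈ Q`: `hloc v = H ζ = (conj (H (conj ζ)))⁻¹ = tac (sJ g) (f (cay (sJ g • v)))` by `LocExt.refl`, `LocExt.eq`, `det_sJ`. Normal form: `AnalyticAt.meromorphicNFAt`. -/
theorem pp_hloc_one (hc : Chart Q y g Q' 1) (hL : LocExt Q f g Q' 1 ρ H) {w : ℍ}
    (hw : ‖cay (g⁻¹ • w)‖ < ρ) : PP Q f (hloc g H) w := by
  have hρ := LocExt.rho_le_one hc hL
  have hev : ∀ ζ : ℂ, ‖ζ‖ < ρ → ∀ᶠ ε : ℝ in 𝓝[>] 0, ζ + ε * Complex.I ∈ ball (0 : ℂ) ρ := by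
    intro ζ hζ
    have h5 : Continuous (fun ε : ℝ => ζ + ε * Complex.I) := by fun_prop
    have h6 := h5.tendsto 0
    simp only [Complex.ofReal_zero, zero_mul, add_zero] at h6
    refine (h6.mono_left nhdsWithin_le_nhds).eventually (isOpen_ball.mem_nhds ?_)
    rw [mem_ball, dist_zero_right]
    exact hζ
  have hmem : ∀ ζ : ℂ, ζ ∈ ball (0 : ℂ) ρ → 0 < ζ.im → g • toH ζ ∈ Q := by
    intro ζ hζ him
    have h7 : ‖ζ‖ < 1 := by
      rw [mem_ball, dist_zero_right] at hζ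
      exact hζ.trans_le hρ
    exact (hc.one rfl ζ h7).2 ⟨hL.sub hζ, him⟩
  rcases le_or_gt 0 (cay (g⁻¹ • w)).im with him | him
  · refine pp_aux hL hρ 1 id (fun ζ => rfl) (fun ζ _ => one_smul _ _)
      (fun ζ _ => (tac_one _).symm) hw Complex.I ?_
    filter_upwards [hev _ hw, self_mem_nhdsWithin] with ε h1 h2
    have h3 : (0 : ℝ) < ε := h2
    refine hmem _ h1 ?_
    simp only [id, Complex.add_im, Complex.mul_im, Complex.ofReal_re, Complex.I_im, mul_one,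
      Complex.ofReal_im, Complex.I_re, mul_zero, add_zero]
    linarith
  · refine pp_aux hL hρ (sJ g) conj (fun ζ => Complex.norm_conj ζ) (fun ζ hζ => sJ_smul g hζ)
      (fun ζ hζ => ?_) hw Complex.I ?_
    · unfold tac
      rw [if_neg (det_sJ g).not_gt, hL.refl ζ hζ]
      simp
    · have hw' : ‖conj (cay (g⁻¹ • w))‖ < ρ := by rw [Complex.norm_conj]; exact hw
      filter_upwards [hev _ hw', self_mem_nhdsWithin] with ε h1 h2
      have h3 : (0 : ℝ) < ε := h2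
      refine hmem _ h1 ?_
      simp only [Complex.add_im, Complex.conj_im, Complex.mul_im, Complex.ofReal_re, Complex.I_im,
        mul_one, Complex.ofReal_im, Complex.I_re, mul_zero, add_zero]
      linarith

end Pool.Agent.Lib.MP_b9289b_nt
end
end
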