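import Pool.Agent.Lib.MP_b9289b_nt.Mg.G008
import Pool.Agent.Lib.MP_b9289b_nt.Mg.G006
import Pool.Agent.Lib.MP_b9289b_nt.Mg.G016

section

/-! (T06c) The sides are mapped to arcs. -/

open Metric Set Filter Topology
open scoped ComplexConjugate

noncomputable section

namespace Pool.Agent.Lib.MP_b9289b_nt

private lemma tcorner_eq_bp {A : ℝ} : tcorner A = bp A (1 / A - A) := by
  unfold tcorner bp
  congr 1
  rw [sub_sub_cancel, min_self]

/-- A frontier point of the sector. -/
private lemma front {A : ℝ} (hA : OkA A) {f : ℂ → ℂ} (hf : TExt A f) {z : ℂ} (hz : z ∈ KOctC A)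
    (hn : z ∉ KOct A) (h1 : 0 ≤ z.im) (h2 : z.im ≤ z.re) :
    ∃ τ : ℝ, f z ^ 4 = Complex.exp ((4 * τ : ℝ) * Complex.I) ∧ 0 ≤ τ ∧ τ ≤ Real.pi / 4 ∧
      (ky z < 1 / A - A → τ < theta A f) ∧ (1 / A - A < ky z → theta A f < τ) ∧
      0 ≤ ky z ∧ ky z ≤ kx z ∧ kx z = min A (1 / A - ky z) := by
  obtain ⟨e1, e2, e3⟩ := eq_bp hA hz hn h1 h2
  obtain ⟨e4, -, -, -, -, -, e5⟩ := bp_mem hA e2 e3
  rw [← e1] at e4 e5
  have hnorm := hf.bd z hz hn
  have harg := TExt.arg_mem hA hf hz e5 h1 h2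
  have hc := hA.corner_lt
  have hcm : 1 / A - A ∈ Icc (0 : ℝ) (1 / (2 * A)) := ⟨hc.1.le, hc.2.le⟩
  have hkm : ky z ∈ Icc (0 : ℝ) (1 / (2 * A)) := ⟨e2, e3⟩
  have hmono := TExt.strictMonoOn hA hf
  have hth : theta A f = Complex.arg (f (bp A (1 / A - A))) := by
    unfold theta
    rw [tcorner_eq_bp]
  have hfz : Complex.arg (f z) = Complex.arg (f (bp A (ky z))) := by rw [← e1]
  refine ⟨Complex.arg (f z), ?_, harg.1, harg.2, ?_, ?_, e2, ky_le_kx_iff.2 h2, e4⟩
  · have h3 := Complex.norm_mul_exp_arg_mul_I (f z)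
    rw [hnorm, Complex.ofReal_one, one_mul] at h3
    nth_rewrite 1 [← h3]
    rw [← Complex.exp_nat_mul]
    congr 1
    push_cast
    ring
  · intro h
    rw [hth, hfz]
    exact hmono hkm hcm h
  · intro h
    rw [hth, hfz]
    exact hmono hcm hkm h

private lemma norm_f4 (τ : ℝ) : ‖Complex.exp ((4 * τ : ℝ) * Complex.I)‖ = 1 :=
  Complex.norm_exp_ofReal_mul_I _

/-- From the representative to the point. -/
private lemma transfer {α τ : ℝ} {x y : ℂ} (h : x = Complex.exp ((4 * τ : ℝ) * Complex.I))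
    (hxy : x = y ∨ x = conj y) {r : ℝ} (hr : WW α x = r) :
    WW α y = r ∨ WW α y = ((r⁻¹ : ℝ) : ℂ) := by
  rcases hxy with rfl | hxy
  · left
    exact hr
  · right
    have h1 : y = conj x := by rw [hxy, Complex.conj_conj]
    rw [h1, WW_conj (by rw [h, norm_f4]), hr, Complex.ofReal_inv]

/-- The sides `max = A`. PROOF: `sector_reduction`, `eq_bp`: `f z' = e^{iτ}`, `τ = arg (f (bp A s))`, `s = ky z' < 1/A - A`, so `0 ≤ τ < theta` (`TExt.strictMonoOn`); `WW_exp` with `β = 4 τ < α = 4 theta`; `WW_conj`. -/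
lemma TExt.side_max {A : ℝ} (hA : OkA A) {f : ℂ → ℂ} (hf : TExt A f) {z : ℂ} (hz : z ∈ KOctC A)
    (h1 : max |kx z| |ky z| = A) (h2 : |kx z| + |ky z| < 1 / A) :
    ∃ r : ℝ, r < 0 ∧ WW (4 * theta A f) (f z ^ 4) = r := by
  obtain ⟨z', hz', him, hre, hK, hmax, hsum, hpow⟩ := sector_reduction hA hf hz
  have hn : z' ∉ KOct A := (not_mem_KOct_iff hz').2 (Or.inl (by rw [hmax, h1]))
  obtain ⟨τ, e1, e2, e3, e4, -, e6, e7, e8⟩ := front hA hf hz' hn him hre
  have hx0 : 0 ≤ kx z' := e6.trans e7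
  rw [← hmax, abs_of_nonneg hx0, abs_of_nonneg e6, max_eq_left e7] at h1
  rw [← hsum, abs_of_nonneg hx0, abs_of_nonneg e6, h1] at h2
  have h3 := e4 (by linarith)
  have hth := TExt.theta_mem hA hf
  have hpi := Real.pi_pos
  have h4 := WW_exp (α := 4 * theta A f) (β := 4 * τ) (by linarith) (by linarith) (by linarith)
  rw [← e1] at h4
  have h5 : Real.sin ((4 * τ - 4 * theta A f) / 2) < 0 :=
    Real.sin_neg_of_neg_of_neg_pi_lt (by linarith) (by linarith)
  have h6 : 0 < Real.sin ((4 * theta A f + 4 * τ) / 2) :=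
    Real.sin_pos_of_pos_of_lt_pi (by linarith) (by linarith)
  have h7 := div_neg_of_neg_of_pos h5 h6
  rcases transfer e1 hpow h4 with h8 | h8
  · exact ⟨_, h7, h8⟩
  · exact ⟨_, inv_lt_zero.2 h7, h8⟩

/-- The sides `sum = 1/A`. PROOF: the same with `s > 1/A - A`, `theta < τ ≤ π/4`. -/
lemma TExt.side_sum {A : ℝ} (hA : OkA A) {f : ℂ → ℂ} (hf : TExt A f) {z : ℂ} (hz : z ∈ KOctC A)
    (h1 : max |kx z| |ky z| < A) (h2 : |kx z| + |ky z| = 1 / A) :
    ∃ r : ℝ, 0 < r ∧ WW (4 * theta A f) (f z ^ 4) = r := by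
  obtain ⟨z', hz', him, hre, hK, hmax, hsum, hpow⟩ := sector_reduction hA hf hz
  have hn : z' ∉ KOct A := (not_mem_KOct_iff hz').2 (Or.inr (by rw [hsum, h2]))
  obtain ⟨τ, e1, e2, e3, -, e5, e6, e7, e8⟩ := front hA hf hz' hn him hre
  have hx0 : 0 ≤ kx z' := e6.trans e7
  rw [← hmax, abs_of_nonneg hx0, abs_of_nonneg e6, max_eq_left e7] at h1
  rw [← hsum, abs_of_nonneg hx0, abs_of_nonneg e6] at h2
  have h3 := e5 (by linarith)
  have hth := TExt.theta_mem hA hf
  have hpi := Real.pi_pos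
  have h4 := WW_exp (α := 4 * theta A f) (β := 4 * τ) (by linarith) (by linarith) (by linarith)
  rw [← e1] at h4
  have h5 : 0 < Real.sin ((4 * τ - 4 * theta A f) / 2) :=
    Real.sin_pos_of_pos_of_lt_pi (by linarith) (by linarith)
  have h6 : 0 < Real.sin ((4 * theta A f + 4 * τ) / 2) :=
    Real.sin_pos_of_pos_of_lt_pi (by linarith) (by linarith)
  have h7 := div_pos h5 h6
  rcases transfer e1 hpow h4 with h8 | h8
  · exact ⟨_, h7, h8⟩
  · exact ⟨_, inv_pos.2 h7, h8⟩

/-- `WW (4 theta) (f z ^ 4)` is regular except at the corners. PROOF: inside `‖f z ^ 4‖ < 1`; on the frontier `sector_reduction` and `TExt.strictMonoOn`: `f z' = e^{iτ}` with `τ ≠ theta`, `0 ≤ 4 τ ≤ π`. -/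
lemma TExt.regular {A : ℝ} (hA : OkA A) {f : ℂ → ℂ} (hf : TExt A f) {z : ℂ} (hz : z ∈ KOctC A)
    (h : ¬ (max |kx z| |ky z| = A ∧ |kx z| + |ky z| = 1 / A)) :
    f z ^ 4 ≠ Complex.exp ((4 * theta A f : ℝ) * Complex.I) ∧
      f z ^ 4 ≠ Complex.exp (-((4 * theta A f : ℝ) * Complex.I)) := by
  have hpi := Real.pi_pos
  have hth := TExt.theta_mem hA hf
  by_cases hK : z ∈ KOct A
  · have h1 : ‖f z‖ < 1 := by
      have h2 : f z ∈ f '' KOct A := mem_image_of_mem _ hK
      rw [hf.rmap.image, mem_ball, dist_zero_right] at h2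
      exact h2
    have h2 : ‖f z ^ 4‖ < 1 := by
      rw [norm_pow]
      exact pow_lt_one₀ (norm_nonneg _) h1 (by norm_num)
    have h3 : ‖Complex.exp (-((4 * theta A f : ℝ) * Complex.I))‖ = 1 := by
      have h4 : -(((4 * theta A f : ℝ) : ℂ) * Complex.I) =
          ((-(4 * theta A f) : ℝ) : ℂ) * Complex.I := by
        push_cast
        ring
      rw [h4]
      exact Complex.norm_exp_ofReal_mul_I _
    constructor
    · intro h4
      rw [h4, norm_f4] at h2
      exact lt_irrefl _ h2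
    · intro h4
      rw [h4, h3] at h2
      exact lt_irrefl _ h2
  · obtain ⟨z', hz', him, hre, hKK, hmax, hsum, hpow⟩ := sector_reduction hA hf hz
    have hn : z' ∉ KOct A := fun h1 => hK (hKK.1 h1)
    obtain ⟨τ, e1, e2, e3, e4, e5, e6, e7, e8⟩ := front hA hf hz' hn him hre
    have hx0 : 0 ≤ kx z' := e6.trans e7
    have hne : ky z' ≠ 1 / A - A := by
      intro h1
      apply h
      have h2 : kx z' = A := by rw [e8, h1, sub_sub_cancel, min_self]
      rw [← hmax, ← hsum, abs_of_nonneg hx0, abs_of_nonneg e6, max_eq_left e7, h2, h1]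
      exact ⟨rfl, by ring⟩
    have hτ : τ ≠ theta A f := by
      rcases lt_or_gt_of_ne hne with h1 | h1
      · exact (e4 h1).ne
      · exact (e5 h1).ne'
    have hexp : ∀ a b : ℝ, -(2 * Real.pi) < a - b → a - b < 2 * Real.pi → a ≠ b →
        Complex.exp ((a : ℂ) * Complex.I) ≠ Complex.exp ((b : ℂ) * Complex.I) := by
      intro a b h1 h2 h3 h4
      rw [Complex.exp_eq_exp_iff_exists_int] at h4
      obtain ⟨n, hn⟩ := h4
      have h5 := congrArg Complex.im hn
      simp at h5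
      have h6 : a - b = n * (2 * Real.pi) := by linarith
      have h7 : n = 0 := by
        have h8 : (n : ℝ) < 1 := by
          by_contra h9
          push Not at h9
          nlinarith
        have h9 : (-1 : ℝ) < n := by
          by_contra h9
          push Not at h9
          nlinarith
        have h10 : n < 1 := by exact_mod_cast h8
        have h11 : -1 < n := by exact_mod_cast h9
        omega
      rw [h7] at h6
      simp at h6
      exact h3 (by linarith)
    have hneg : ∀ a : ℝ, -((a : ℂ) * Complex.I) = ((-a : ℝ) : ℂ) * Complex.I := by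
      intro a
      push_cast
      ring
    have hy : f z ^ 4 = Complex.exp (((4 * τ : ℝ) : ℂ) * Complex.I) ∨
        f z ^ 4 = Complex.exp (((-(4 * τ) : ℝ) : ℂ) * Complex.I) := by
      rcases hpow with h1 | h1
      · left
        rw [← h1, e1]
      · right
        have h2 : f z ^ 4 = conj (f z' ^ 4) := by rw [h1, Complex.conj_conj]
        rw [h2, e1, ← Complex.exp_conj, map_mul, Complex.conj_ofReal, Complex.conj_I]
        congr 1
        push_cast
        ring
    rw [hneg]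
    have hτ' : 4 * τ ≠ 4 * theta A f := fun h1 => hτ (by linarith)
    rcases hy with h1 | h1 <;> rw [h1]
    · exact ⟨hexp _ _ (by linarith) (by linarith) hτ',
        hexp _ _ (by linarith) (by linarith) (by linarith)⟩
    · exact ⟨hexp _ _ (by linarith) (by linarith) (by linarith),
        hexp _ _ (by linarith) (by linarith) (fun h2 => hτ' (by linarith))⟩

end Pool.Agent.Lib.MP_b9289b_nt
end
end

section

/-! (T07a) The harmonic functions. -/

open Metric Set Filter Topology
open scoped ComplexConjugate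

noncomputable section

namespace Pool.Agent.Lib.MP_b9289b_nt

/-- The function `L = Log (-i W)`, `W = WW (4 theta) (f z ^ 4)`; `Im L + π/2` is `0` on the sides `sum = 1/A`, `π` on the sides `max = A`. -/
def LL (A : ℝ) (f : ℂ → ℂ) (z : ℂ) : ℂ :=
  Complex.log (-Complex.I * WW (4 * theta A f) (f z ^ 4))

private lemma T7_re (w : ℂ) : (-Complex.I * w).re = w.im := by simp

private lemma T7_im (w : ℂ) : (-Complex.I * w).im = -w.re := by simp

private lemma T7_alpha {A : ℝ} (hA : OkA A) {f : ℂ → ℂ} (hf : TExt A f) :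
    0 < 4 * theta A f ∧ 4 * theta A f < Real.pi := by
  have := hf.theta_mem hA
  constructor <;> linarith [this.1, this.2]

private lemma T7_norm {A : ℝ} (hA : OkA A) {f : ℂ → ℂ} (hf : TExt A f) {z : ℂ}
    (hz : z ∈ KOctC A) : ‖f z ^ 4‖ ≤ 1 := by
  rw [norm_pow]
  exact pow_le_one₀ (norm_nonneg _) (hf.norm_le hA hz)

private lemma T7_slit {A : ℝ} (hA : OkA A) {f : ℂ → ℂ} (hf : TExt A f) {z : ℂ}
    (hz : z ∈ KOctC A) (h : ¬ (max |kx z| |ky z| = A ∧ |kx z| + |ky z| = 1 / A)) :
    -Complex.I * WW (4 * theta A f) (f z ^ 4) ∈ Complex.slitPlane := by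
  have h1 := WW_im_nonneg (T7_alpha hA hf).1 (T7_alpha hA hf).2 (T7_norm hA hf hz)
  obtain ⟨h2, h3⟩ := hf.regular hA hz h
  have h4 := WW_ne_zero h2 h3
  rw [Complex.mem_slitPlane_iff, T7_re, T7_im]
  rcases h1.lt_or_eq with h5 | h5
  · left; exact h5
  · right
    intro h6
    exact h4 (Complex.ext (by simpa using h6) h5.symm)

private lemma T7_notcorner {A : ℝ} {z : ℂ} (hz : z ∈ KOct A) :
    ¬ (max |kx z| |ky z| = A ∧ |kx z| + |ky z| = 1 / A) := by
  rintro ⟨-, h⟩
  exact absurd h hz.2.2.2.ne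

/-- PROOF: `-i W` has nonnegative real part and is not zero, so it is in the slit plane; `WW` is continuous where the denominator does not vanish (`TExt.regular`, `WW_den_ne_zero`). -/
lemma continuousOn_LL {A : ℝ} (hA : OkA A) {f : ℂ → ℂ} (hf : TExt A f) :
    ContinuousOn (LL A f) {z ∈ KOctC A | ¬ (max |kx z| |ky z| = A ∧ |kx z| + |ky z| = 1 / A)} := by
  have hWc : ContinuousOn (fun z => -Complex.I * WW (4 * theta A f) (f z ^ 4))
      {z ∈ KOctC A | ¬ (max |kx z| |ky z| = A ∧ |kx z| + |ky z| = 1 / A)} := by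
    have hfc : ContinuousOn f
        {z ∈ KOctC A | ¬ (max |kx z| |ky z| = A ∧ |kx z| + |ky z| = 1 / A)} :=
      hf.cont.mono (fun z hz => hz.1)
    refine continuousOn_const.mul ?_
    unfold WW
    refine ContinuousOn.div (continuousOn_const.sub (hfc.pow 4))
      (continuousOn_const.sub ((hfc.pow 4).mul continuousOn_const)) ?_
    intro z hz
    exact WW_den_ne_zero (hf.regular hA hz.1 hz.2).2
  exact ContinuousOn.clog hWc (fun z hz => T7_slit hA hf hz.1 hz.2)

lemma differentiableOn_LL {A : ℝ} (hA : OkA A) {f : ℂ → ℂ} (hf : TExt A f) :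
    DifferentiableOn ℂ (LL A f) (KOct A) := by
  have hWc : DifferentiableOn ℂ (fun z => -Complex.I * WW (4 * theta A f) (f z ^ 4))
      (KOct A) := by
    have hfc : DifferentiableOn ℂ f (KOct A) := hf.rmap.diff
    refine (differentiableOn_const _).mul ?_
    unfold WW
    refine DifferentiableOn.div ((differentiableOn_const _).sub (hfc.pow 4))
      ((differentiableOn_const _).sub ((hfc.pow 4).mul (differentiableOn_const _))) ?_
    intro z hz
    exact WW_den_ne_zero (hf.regular hA (KOct_subset_KOctC A hz) (T7_notcorner hz)).2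
  exact DifferentiableOn.clog hWc
    (fun z hz => T7_slit hA hf (KOct_subset_KOctC A hz) (T7_notcorner hz))

/-- `Im L ∈ [-π/2, π/2]` everywhere. PROOF: `arg` of a number with nonnegative real part. -/
lemma LL_im_mem {A : ℝ} (hA : OkA A) {f : ℂ → ℂ} (hf : TExt A f) {z : ℂ} (hz : z ∈ KOctC A) :
    -(Real.pi / 2) ≤ (LL A f z).im ∧ (LL A f z).im ≤ Real.pi / 2 := by
  have h1 := WW_im_nonneg (T7_alpha hA hf).1 (T7_alpha hA hf).2 (T7_norm hA hf hz)
  have h2 : |(LL A f z).im| ≤ Real.pi / 2 := by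
    rw [LL, Complex.log_im, Complex.abs_arg_le_pi_div_two_iff, T7_re]
    exact h1
  exact abs_le.mp h2

/-- PROOF: `TExt.side_max`: `-i r` with `r < 0`. -/
lemma LL_max {A : ℝ} (hA : OkA A) {f : ℂ → ℂ} (hf : TExt A f) {z : ℂ} (hz : z ∈ KOctC A)
    (h1 : max |kx z| |ky z| = A) (h2 : |kx z| + |ky z| < 1 / A) :
    (LL A f z).im = Real.pi / 2 := by
  obtain ⟨r, hr, hr1⟩ := hf.side_max hA hz h1 h2
  rw [LL, hr1, Complex.log_im, Complex.arg_eq_pi_div_two_iff, T7_re, T7_im]
  exact ⟨Complex.ofReal_im r, by rw [Complex.ofReal_re]; linarith⟩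

/-- PROOF: `TExt.side_sum`. -/
lemma LL_sum {A : ℝ} (hA : OkA A) {f : ℂ → ℂ} (hf : TExt A f) {z : ℂ} (hz : z ∈ KOctC A)
    (h1 : max |kx z| |ky z| < A) (h2 : |kx z| + |ky z| = 1 / A) :
    (LL A f z).im = -(Real.pi / 2) := by
  obtain ⟨r, hr, hr1⟩ := hf.side_sum hA hz h1 h2
  rw [LL, hr1, Complex.log_im, Complex.arg_eq_neg_pi_div_two_iff, T7_re, T7_im]
  exact ⟨Complex.ofReal_im r, by rw [Complex.ofReal_re]; linarith⟩

/-- PROOF: `f 0 = 0`, `W = e^{iα}`, `-i W = e^{i(α - π/2)}`. -/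
lemma LL_zero {A : ℝ} (hA : OkA A) {f : ℂ → ℂ} (hf : TExt A f) :
    (LL A f 0).im = 4 * theta A f - Real.pi / 2 := by
  have h0 := T7_alpha hA hf
  have hpi := Real.pi_pos
  have h1 : -Complex.I * Complex.exp (((4 * theta A f : ℝ) : ℂ) * Complex.I) =
      Complex.exp (((4 * theta A f - Real.pi / 2 : ℝ) : ℂ) * Complex.I) := by
    have h2 : (((4 * theta A f - Real.pi / 2 : ℝ) : ℂ) * Complex.I) =
        ((4 * theta A f : ℝ) : ℂ) * Complex.I - (Real.pi : ℂ) / 2 * Complex.I := by
      push_cast; ring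
    rw [h2, Complex.exp_sub, Complex.exp_mul_I ((Real.pi : ℂ) / 2), Complex.cos_pi_div_two,
      Complex.sin_pi_div_two, zero_add, one_mul, Complex.div_I]
    ring
  rw [LL, hf.rmap.zero, zero_pow (by norm_num), WW_zero, h1, Complex.log_exp]
  · simp
  · simp only [Complex.mul_im, Complex.ofReal_re, Complex.I_im, mul_one, Complex.ofReal_im,
      Complex.I_re, mul_zero, add_zero]
    linarith
  · simp only [Complex.mul_im, Complex.ofReal_re, Complex.I_im, mul_one, Complex.ofReal_im,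
      Complex.I_re, mul_zero, add_zero]
    linarith

end Pool.Agent.Lib.MP_b9289b_nt
end
end

section

/-! (T07b) The angle theta is strictly decreasing. -/

open Metric Set Filter Topology
open scoped ComplexConjugate

noncomputable section

namespace Pool.Agent.Lib.MP_b9289b_nt

/-- `theta` is strictly decreasing. PROOF: `A < A'`, `Ω = KOct A ∩ KOct A'`; if `z ∈ closure Ω` then `z ∈ KOctC A ∩ KOctC A'`, `max ≤ A < A'`, `sum ≤ 1/A' < 1/A`, so `z` is not a corner of either octagon. `G z = exp (i (LL A f z - LL A' f' z))` is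
`DiffContOnCl` on `Ω`, `‖G z‖ = exp (-(Im LL A - Im LL A'))`. On the frontier of `Ω`: `max = A` or `sum = 1/A'` (otherwise `z ∈ Ω`). If `max = A` then `Im LL A = π/2 ≥ Im LL A'`; if `sum = 1/A'` then `Im LL A' = -π/2 ≤ Im LL A`. So `‖G‖ ≤ 1` on the frontier
and `‖G 0‖ ≤ 1` (`Complex.norm_le_of_forall_mem_frontier_norm_le`), i.e. `theta A' ≤ theta A` (`LL_zero`). If there is equality `‖G‖` has its maximum over `closure Ω` at `0 ∈ Ω`, and `Ω` is preconnected (star-shaped), so `‖G‖ = 1` on `closure Ω`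
(`Complex.norm_eqOn_closure_of_isPreconnected_of_isMaxOn`). But `z₀ = kinv A (1/A' - A)` is in `closure Ω` (`t z₀ ∈ Ω` for `0 ≤ t < 1`; `0 < 1/A' - A ≤ A`) and `‖G z₀‖ = exp (-π) < 1`. -/
theorem theta_lt {A A' : ℝ} (hA : OkA A) (hA' : OkA A') (h : A < A') {f f' : ℂ → ℂ}
    (hf : TExt A f) (hf' : TExt A' f') : theta A' f' < theta A f := by
  have hA0 := hA.pos
  have hA0' := hA'.pos
  have hinv : 1 / A' < 1 / A := one_div_lt_one_div_of_lt hA0 h
  have hpi := Real.pi_pos
  set Ω : Set ℂ := KOct A ∩ KOct A' with hΩ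
  have hΩo : IsOpen Ω := (isOpen_KOct A).inter (isOpen_KOct A')
  have h0Ω : (0 : ℂ) ∈ Ω := ⟨zero_mem_KOct hA, zero_mem_KOct hA'⟩
  have hmul : ∀ z ∈ KOctC A, z ∈ KOctC A' → ∀ t : ℝ, 0 ≤ t → t < 1 → (t : ℂ) * z ∈ Ω :=
    fun z hz hz' t h0 h1 => ⟨mul_mem_KOct hA hz h0 h1, mul_mem_KOct hA' hz' h0 h1⟩
  have hpre : IsPreconnected Ω := by
    refine isPreconnected_of_forall 0 fun y hy => ⟨segment ℝ 0 y, ?_, left_mem_segment ℝ _ _,
      right_mem_segment ℝ _ _, (convex_segment 0 y).isPreconnected⟩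
    rintro x ⟨a, b, ha, hb, hab, rfl⟩
    rw [smul_zero, zero_add, Complex.real_smul]
    rcases lt_or_eq_of_le (show b ≤ 1 by linarith) with h1 | h1
    · exact hmul y (KOct_subset_KOctC A hy.1) (KOct_subset_KOctC A' hy.2) b hb h1
    · rw [h1]; simpa using hy
  have hcl : ∀ z ∈ closure Ω, z ∈ KOctC A ∧ z ∈ KOctC A' := by
    intro z hz
    constructor
    · rw [← closure_KOct hA]; exact closure_mono inter_subset_left hz
    · rw [← closure_KOct hA']; exact closure_mono inter_subset_right hz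
  have hbd : Bornology.IsBounded Ω :=
    (isBounded_ball (x := (0 : ℂ)) (r := 1)).subset fun z hz => by
      simpa using hz.1.1
  have hmax : ∀ z ∈ closure Ω, max |kx z| |ky z| ≤ A ∧ |kx z| + |ky z| ≤ 1 / A' := by
    intro z hz
    obtain ⟨h1, h2⟩ := hcl z hz
    exact ⟨max_le h1.2.1 h1.2.2.1, h2.2.2.2⟩
  set G : ℂ → ℂ := fun z => Complex.exp (Complex.I * (LL A f z - LL A' f' z)) with hG
  have hGn : ∀ z, ‖G z‖ = Real.exp (-((LL A f z).im - (LL A' f' z).im)) := by
    intro z
    simp only [hG, Complex.norm_exp]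
    congr 1
    simp
  have hdc : DiffContOnCl ℂ G Ω := by
    constructor
    · refine (DifferentiableOn.const_mul (DifferentiableOn.sub ?_ ?_) Complex.I).cexp
      · exact (differentiableOn_LL hA hf).mono inter_subset_left
      · exact (differentiableOn_LL hA' hf').mono inter_subset_right
    · refine (ContinuousOn.mul continuousOn_const (ContinuousOn.sub ?_ ?_)).cexp
      · refine (continuousOn_LL hA hf).mono fun z hz => ⟨(hcl z hz).1, ?_⟩
        rintro ⟨-, h2⟩
        have := (hmax z hz).2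
        linarith
      · refine (continuousOn_LL hA' hf').mono fun z hz => ⟨(hcl z hz).2, ?_⟩
        rintro ⟨h2, -⟩
        have := (hmax z hz).1
        linarith
  have hfr : ∀ z ∈ frontier Ω, ‖G z‖ ≤ 1 := by
    intro z hz
    rw [hΩo.frontier_eq] at hz
    obtain ⟨hzc, hzn⟩ := hz
    obtain ⟨c1, c2⟩ := hcl z hzc
    obtain ⟨m1, m2⟩ := hmax z hzc
    rw [hGn, Real.exp_le_one_iff]
    have hcase : max |kx z| |ky z| = A ∨ |kx z| + |ky z| = 1 / A' := by
      by_contra hcon
      rw [not_or] at hcon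
      apply hzn
      constructor
      · by_contra hn
        rcases (not_mem_KOct_iff c1).1 hn with h1 | h1
        · exact hcon.1 h1
        · linarith
      · by_contra hn
        rcases (not_mem_KOct_iff c2).1 hn with h1 | h1
        · linarith
        · exact hcon.2 h1
    rcases hcase with h1 | h1
    · have e1 := LL_max hA hf c1 h1 (by linarith)
      have e2 := (LL_im_mem hA' hf' c2).2
      linarith
    · have e1 := LL_sum hA' hf' c2 (by linarith) h1
      have e2 := (LL_im_mem hA hf c1).1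
      linarith
  have hle : ∀ z ∈ closure Ω, ‖G z‖ ≤ 1 := fun z hz =>
    Complex.norm_le_of_forall_mem_frontier_norm_le hbd hdc hfr hz
  have h0 := hle 0 (subset_closure h0Ω)
  have hG0 : ‖G 0‖ = Real.exp (-(4 * theta A f - 4 * theta A' f')) := by
    rw [hGn, LL_zero hA hf, LL_zero hA' hf']
    congr 1
    ring
  rw [hG0, Real.exp_le_one_iff] at h0
  by_contra hcon
  rw [not_lt] at hcon
  have hG1 : ‖G 0‖ = 1 := by
    rw [hG0, show -(4 * theta A f - 4 * theta A' f') = 0 by linarith, Real.exp_zero]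
  have hmx : IsMaxOn (norm ∘ G) Ω 0 := by
    intro z hz
    show ‖G z‖ ≤ ‖G 0‖
    rw [hG1]
    exact hle z (subset_closure hz)
  have heq := Complex.norm_eqOn_closure_of_isPreconnected_of_isMaxOn hpre hΩo hdc h0Ω hmx
  -- the corner of the intersection
  have hb0 : 0 < 1 / A' - A := by
    have : A < 1 / A' := by
      rw [lt_div_iff₀ hA0']
      nlinarith [hA.lt_one, hA'.lt_one]
    linarith
  have hb1 : 1 / A' - A < A := by
    have h2 : 1 / A' < 1 / A := hinv
    have h3 : 1 / A < 2 * A := by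
      rw [div_lt_iff₀ hA0]
      nlinarith [hA.half]
    linarith
  have hsq : A ^ 2 + (1 / A' - A) ^ 2 < 1 := by
    apply sq_add_sq_lt_one hA
    · rw [abs_of_pos hA0]
    · rw [abs_of_pos hb0]; exact hb1.le
    · rw [abs_of_pos hA0, abs_of_pos hb0]; linarith
  set z₀ : ℂ := kinv A (1 / A' - A) with hz₀
  have hx : kx z₀ = A := kx_kinv hsq
  have hy : ky z₀ = 1 / A' - A := ky_kinv hsq
  have hmem : z₀ ∈ KOctC A := by
    refine ⟨norm_kinv_lt hsq, ?_, ?_, ?_⟩
    · rw [hx, abs_of_pos hA0]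
    · rw [hy, abs_of_pos hb0]; exact hb1.le
    · rw [hx, hy, abs_of_pos hA0, abs_of_pos hb0]; linarith
  have hmem' : z₀ ∈ KOctC A' := by
    refine ⟨norm_kinv_lt hsq, ?_, ?_, ?_⟩
    · rw [hx, abs_of_pos hA0]; exact h.le
    · rw [hy, abs_of_pos hb0]; linarith
    · rw [hx, hy, abs_of_pos hA0, abs_of_pos hb0]; linarith
  have hcz : z₀ ∈ closure Ω := by
    have ht : Tendsto (fun t : ℝ => (t : ℂ) * z₀) (𝓝[<] 1) (𝓝 z₀) := by
      have h1 : Tendsto (fun t : ℝ => (t : ℂ) * z₀) (𝓝 1) (𝓝 (((1 : ℝ) : ℂ) * z₀)) :=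
        ((Complex.continuous_ofReal.mul continuous_const).tendsto 1)
      rw [Complex.ofReal_one, one_mul] at h1
      exact h1.mono_left nhdsWithin_le_nhds
    refine mem_closure_of_tendsto ht ?_
    filter_upwards [Ico_mem_nhdsLT (show (0 : ℝ) < 1 by norm_num)] with t ht'
    exact hmul z₀ hmem hmem' t ht'.1 ht'.2
  have h1 : ‖G z₀‖ = 1 := by
    have := heq hcz
    simp only [Function.comp, Function.const] at this
    rw [this, hG1]
  have m : max |kx z₀| |ky z₀| = A := by
    rw [hx, hy, abs_of_pos hA0, abs_of_pos hb0, max_eq_left hb1.le]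
  have sm : |kx z₀| + |ky z₀| = 1 / A' := by
    rw [hx, hy, abs_of_pos hA0, abs_of_pos hb0]; ring
  have e1 := LL_max hA hf hmem m (by rw [sm]; exact hinv)
  have e2 := LL_sum hA' hf' hmem' (by rw [m]; exact h) sm
  rw [hGn, e1, e2] at h1
  have : Real.exp (-(Real.pi / 2 - -(Real.pi / 2))) < 1 := by
    rw [Real.exp_lt_one_iff]
    linarith
  linarith

end Pool.Agent.Lib.MP_b9289b_nt
end
end

section

/-! (T08b) The conclusions for the extended Riemann maps. -/

open Metric Set Filter Topology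
open scoped ComplexConjugate

noncomputable section

namespace Pool.Agent.Lib.MP_b9289b_nt

lemma Ext.s_eq {A : ℝ} (hA : OkA A) {f F : ℂ → ℂ} (h : Ext A f F) :
    |((F (corner A)) ^ 2).im| = Real.sin (2 * theta A F) := by
  have h1 := TExt.f_corner hA (h.toTExt hA)
  have h2 := TExt.theta_mem hA (h.toTExt hA)
  have hpi := Real.pi_pos
  have h3 : (F (corner A)) ^ 2 = Complex.exp (((2 * theta A F : ℝ) : ℂ) * Complex.I) := by
    rw [corner_eq_tcorner, h1, ← Complex.exp_nat_mul]
    congr 1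
    push_cast
    ring
  rw [h3, Complex.exp_ofReal_mul_I_im, abs_of_nonneg]
  exact Real.sin_nonneg_of_nonneg_of_le_pi (by linarith) (by linarith)

theorem Ext.s_pos {A : ℝ} (hA : OkA A) {f F : ℂ → ℂ} (h : Ext A f F) :
    0 < |((F (corner A)) ^ 2).im| := by
  rw [h.s_eq hA]
  have h2 := TExt.theta_mem hA (h.toTExt hA)
  have hpi := Real.pi_pos
  exact Real.sin_pos_of_pos_of_lt_pi (by linarith) (by linarith)

theorem Ext.s_lt {A : ℝ} (hA : OkA A) {f F : ℂ → ℂ} (h : Ext A f F) :
    |((F (corner A)) ^ 2).im| < 1 := by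
  rw [h.s_eq hA]
  have h2 := TExt.theta_mem hA (h.toTExt hA)
  have hpi := Real.pi_pos
  rw [← Real.sin_pi_div_two]
  exact Real.sin_lt_sin_of_lt_of_le_pi_div_two (by linarith) (by linarith) (by linarith)

theorem Ext.strictAnti {A A' : ℝ} (hA : OkA A) (hA' : OkA A') (h : A < A') {f F f' F' : ℂ → ℂ}
    (hE : Ext A f F) (hE' : Ext A' f' F') :
    |((F' (corner A')) ^ 2).im| < |((F (corner A)) ^ 2).im| := by
  rw [hE.s_eq hA, hE'.s_eq hA']
  have h1 := TExt.theta_mem hA (hE.toTExt hA)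
  have h2 := TExt.theta_mem hA' (hE'.toTExt hA')
  have h3 := theta_lt hA hA' h (hE.toTExt hA) (hE'.toTExt hA')
  have hpi := Real.pi_pos
  exact Real.sin_lt_sin_of_lt_of_le_pi_div_two (by linarith) (by linarith) (by linarith)

/-- Uncountably many parameters. -/
theorem not_countable_of_ext {T : Set ℝ}
    (h : ∀ A, OkA A → ∃ f F, Ext A f F ∧ ∀ t : ℝ, 1 < t →
      (t - 1) / (t + 1) = |((F (corner A)) ^ 2).im| → t ∈ T) : ¬ T.Countable := by
  intro hT
  have hd : ∀ A, ∃ f F, OkA A → Ext A f F ∧ ∀ t : ℝ, 1 < t →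
      (t - 1) / (t + 1) = |((F (corner A)) ^ 2).im| → t ∈ T := by
    intro A
    by_cases hA : OkA A
    · obtain ⟨f, F, h1⟩ := h A hA
      exact ⟨f, F, fun _ => h1⟩
    · exact ⟨0, 0, fun h1 => absurd h1 hA⟩
  choose f F hfF using hd
  set s : ℝ → ℝ := fun A => |((F A (corner A)) ^ 2).im| with hs
  have hinj : InjOn (fun A => (1 + s A) / (1 - s A)) {A | OkA A} := by
    intro A hA B hB hAB
    have hA1 := (hfF A hA).1.s_pos hA
    have hA2 := (hfF A hA).1.s_lt hA
    have hB1 := (hfF B hB).1.s_pos hB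
    have hB2 := (hfF B hB).1.s_lt hB
    have he : s A = s B := by
      simp only at hAB
      rw [div_eq_div_iff (by simp only [hs]; linarith) (by simp only [hs]; linarith)] at hAB
      linarith
    rcases lt_trichotomy A B with h1 | h1 | h1
    · have := Ext.strictAnti hA hB h1 (hfF A hA).1 (hfF B hB).1
      simp only [hs] at he
      linarith
    · exact h1
    · have := Ext.strictAnti hB hA h1 (hfF B hB).1 (hfF A hA).1
      simp only [hs] at he
      linarith
  have himg : (fun A => (1 + s A) / (1 - s A)) '' {A | OkA A} ⊆ T := by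
    rintro _ ⟨A, hA, rfl⟩
    have hA1 := (hfF A hA).1.s_pos hA
    have hA2 := (hfF A hA).1.s_lt hA
    refine (hfF A hA).2 _ ?_ ?_
    · rw [lt_div_iff₀ (by simp only [hs]; linarith)]
      simp only [hs]; linarith
    · have h0 : 1 - s A ≠ 0 := by simp only [hs]; linarith
      show ((1 + s A) / (1 - s A) - 1) / ((1 + s A) / (1 - s A) + 1) = s A
      field_simp
      ring
  have hc : {A | OkA A}.Countable := 
    Set.countable_of_injective_of_countable_image hinj (hT.mono himg)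
  have hsub : Ioo (3 / 4 : ℝ) 1 ⊆ {A | OkA A} := by
    intro A hA
    exact ⟨by linarith [hA.1], hA.2, by nlinarith [hA.1]⟩
  have : (Ioo (3 / 4 : ℝ) 1).Countable := hc.mono hsub
  rw [← Cardinal.le_aleph0_iff_set_countable, Cardinal.mk_Ioo_real (by norm_num)] at this
  exact absurd this (not_le.2 Cardinal.aleph0_lt_continuum)

end Pool.Agent.Lib.MP_b9289b_nt
end
end

section

/-! (T) The parameter `s = |im F(corner)²|`: see `T08b`. -/
end
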