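import Pool.Agent.Lib.MP_b9289b_nt.Mg.G011
import Pool.Agent.Lib.MP_b9289b_nt.Mg.G003
import Pool.Agent.Lib.MP_b9289b_nt.Mg.G014

section

/-! (L02) The local functions at a corner have the property `PP`. -/

open UpperHalfPlane Metric Set Filter Topology MatrixGroups
open scoped ComplexConjugate

noncomputable section

namespace Pool.Agent.Lib.MP_b9289b_nt

variable {Q : Set ℍ} {f H : ℂ → ℂ} {y : ℍ} {g : SL(2, ℝ)} {Q' : Set ℂ} {m : ℕ} {ρ : ℝ}

private lemma smul_toH_cay (g : SL(2, ℝ)) (v : ℍ) : g • toH (cay (g⁻¹ • v)) = v := by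
  rw [toH_cay, smul_inv_smul]

private lemma pp_aux (hL : LocExt Q f g Q' m ρ H) (hρ : ρ ≤ 1) (g' : GL (Fin 2) ℝ) (T : ℂ → ℂ)
    (hT : ∀ ζ, ‖T ζ‖ = ‖ζ‖) (hg' : ∀ ζ, ‖ζ‖ < 1 → g' • (g • toH ζ) = g • toH (T ζ))
    (hH : ∀ ζ ∈ ball (0 : ℂ) ρ, H ζ = tac g' (H (T ζ))) {w : ℍ} (hw : ‖cay (g⁻¹ • w)‖ < ρ)
    (e : ℂ) (hcl : ∀ᶠ ε : ℝ in 𝓝[>] 0, g • toH (T (cay (g⁻¹ • w)) + ε * e) ∈ Q) :
    PP Q f (hloc g H) w := by
  refine ⟨(analyticAt_hloc hL hw).meromorphicNFAt, g', ?_, ?_⟩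
  · have h1 : g' • w = g • toH (T (cay (g⁻¹ • w))) := by
      rw [← hg' _ (hw.trans_le hρ), smul_toH_cay]
    rw [h1]
    have h2 : Tendsto (fun ε : ℝ => g • toH (T (cay (g⁻¹ • w)) + ε * e)) (𝓝[>] 0)
        (𝓝 (g • toH (T (cay (g⁻¹ • w))))) := by
      have h3 : ContinuousAt toH (T (cay (g⁻¹ • w))) := by
        refine continuousOn_toH.continuousAt (isOpen_ball.mem_nhds ?_)
        rw [mem_ball, dist_zero_right, hT]
        exact hw.trans_le hρ
      have h4 : Tendsto (fun ε : ℝ => T (cay (g⁻¹ • w)) + ε * e) (𝓝[>] 0)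
          (𝓝 (T (cay (g⁻¹ • w)))) := by
        have h5 : Continuous (fun ε : ℝ => T (cay (g⁻¹ • w)) + ε * e) := by fun_prop
        have h6 := h5.tendsto 0
        simp only [Complex.ofReal_zero, zero_mul, add_zero] at h6
        exact h6.mono_left nhdsWithin_le_nhds
      have h7 : Continuous (fun v : ℍ => g • v) := continuous_const_smul g
      exact (h7.tendsto _).comp (h3.tendsto.comp h4)
    exact mem_closure_of_tendsto h2 hcl
  · have h1 : Continuous (fun v : ℍ => ‖cay (g⁻¹ • v)‖) :=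
      (continuous_cay.comp (continuous_const_smul g⁻¹)).norm
    filter_upwards [h1.continuousAt.eventually_lt continuousAt_const hw] with v hv hvQ
    have h2 : g' • v = g • toH (T (cay (g⁻¹ • v))) := by
      rw [← hg' _ (hv.trans_le hρ), smul_toH_cay]
    rw [h2] at hvQ ⊢
    have h3 : T (cay (g⁻¹ • v)) ∈ ball (0 : ℂ) ρ := by
      rw [mem_ball, dist_zero_right, hT]
      exact hv
    have h4 := hL.eq _ h3 hvQ
    have h5 : cay (g⁻¹ • v) ∈ ball (0 : ℂ) ρ := by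
      rw [mem_ball, dist_zero_right]
      exact hv
    unfold hloc
    rw [hH _ h5, h4]
    rfl

/-- PROOF: as `pp_hloc_one`, with the four elements `1` (`0 ≤ im ζ₀`, `0 ≤ re ζ₀`), `sJ g` (`im ζ₀ < 0`, `0 ≤ re ζ₀`), `sR g` (`im ζ₀ ≤ 0`, `re ζ₀ < 0`), `sR g * sJ g` (`0 < im ζ₀`, `re ζ₀ < 0`), which map `g • toH ζ` to `g • toH ζ`, `g • toH (conj ζ)`, `g • toH (-ζ)`, `g • toH (-conj ζ)`; `LocExt.refl`, `LocExt.neg`. In each case
the image of `w` is in `closure Q` (points `ζ₀' + ε (1 + i)` of `Q'` are in the open quadrant). -/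
theorem pp_hloc_two (hc : Chart Q y g Q' 2) (hL : LocExt Q f g Q' 2 ρ H) {w : ℍ}
    (hw : ‖cay (g⁻¹ • w)‖ < ρ) : PP Q f (hloc g H) w := by
  have hρ := LocExt.rho_le_one hc hL
  have hev : ∀ ζ : ℂ, ‖ζ‖ < ρ → ∀ᶠ ε : ℝ in 𝓝[>] 0,
      ζ + ε * (1 + Complex.I) ∈ ball (0 : ℂ) ρ := by
    intro ζ hζ
    have h5 : Continuous (fun ε : ℝ => ζ + ε * (1 + Complex.I)) := by fun_prop
    have h6 := h5.tendsto 0
    simp only [Complex.ofReal_zero, zero_mul, add_zero] at h6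
    refine (h6.mono_left nhdsWithin_le_nhds).eventually (isOpen_ball.mem_nhds ?_)
    rw [mem_ball, dist_zero_right]
    exact hζ
  have hmem : ∀ ζ : ℂ, ζ ∈ ball (0 : ℂ) ρ → 0 < ζ.im → 0 < ζ.re → g • toH ζ ∈ Q := by
    intro ζ hζ him hre
    have h7 : ‖ζ‖ < 1 := by
      rw [mem_ball, dist_zero_right] at hζ
      exact hζ.trans_le hρ
    exact (hc.two rfl ζ h7).2 ⟨hL.sub hζ, him, hre⟩
  have key : ∀ ζ : ℂ, ‖ζ‖ < ρ → 0 ≤ ζ.im → 0 ≤ ζ.re →
      ∀ᶠ ε : ℝ in 𝓝[>] 0, g • toH (ζ + ε * (1 + Complex.I)) ∈ Q := by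
    intro ζ hζ him hre
    filter_upwards [hev _ hζ, self_mem_nhdsWithin] with ε h1 h2
    have h3 : (0 : ℝ) < ε := h2
    refine hmem _ h1 ?_ ?_
    · have h8 : (ζ + ε * (1 + Complex.I)).im = ζ.im + ε := by simp
      rw [h8]
      linarith
    · have h8 : (ζ + ε * (1 + Complex.I)).re = ζ.re + ε := by simp
      rw [h8]
      linarith
  rcases le_or_gt 0 (cay (g⁻¹ • w)).re with hre | hre
  · rcases le_or_gt 0 (cay (g⁻¹ • w)).im with him | him
    · exact pp_aux hL hρ 1 id (fun ζ => rfl) (fun ζ _ => one_smul _ _)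
        (fun ζ _ => (tac_one _).symm) hw (1 + Complex.I) (key _ hw him hre)
    · refine pp_aux hL hρ (sJ g) conj (fun ζ => Complex.norm_conj ζ) (fun ζ hζ => sJ_smul g hζ)
        (fun ζ hζ => ?_) hw (1 + Complex.I) (key _ ?_ ?_ ?_)
      · unfold tac
        rw [if_neg (det_sJ g).not_gt, hL.refl ζ hζ]
        simp
      · rw [Complex.norm_conj]; exact hw
      · rw [Complex.conj_im]; linarith
      · rw [Complex.conj_re]; exact hre
  · rcases le_or_gt (cay (g⁻¹ • w)).im 0 with him | him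
    · refine pp_aux hL hρ (sR g : GL (Fin 2) ℝ) (fun ζ => -ζ) (fun ζ => norm_neg ζ)
        (fun ζ hζ => sR_smul g hζ) (fun ζ hζ => ?_) hw (1 + Complex.I) (key _ ?_ ?_ ?_)
      · unfold tac
        rw [if_pos (by simp), hL.neg rfl ζ hζ]
      · rw [norm_neg]; exact hw
      · rw [Complex.neg_im]; linarith
      · rw [Complex.neg_re]; linarith
    · refine pp_aux hL hρ ((sR g : GL (Fin 2) ℝ) * sJ g) (fun ζ => -conj ζ)
        (fun ζ => by rw [norm_neg, Complex.norm_conj]) (fun ζ hζ => ?_) (fun ζ hζ => ?_) hw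
        (1 + Complex.I) (key _ ?_ ?_ ?_)
      · rw [mul_smul, sJ_smul g hζ]
        exact sR_smul g (by rw [Complex.norm_conj]; exact hζ)
      · have hζ' : conj ζ ∈ ball (0 : ℂ) ρ := by
          rw [mem_ball, dist_zero_right, Complex.norm_conj]
          rwa [mem_ball, dist_zero_right] at hζ
        have h1 : ((sR g : GL (Fin 2) ℝ) * sJ g).val.det < 0 := by
          rw [Units.val_mul, Matrix.det_mul]
          have h2 : (sR g : GL (Fin 2) ℝ).val.det = 1 := by simp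
          rw [h2, one_mul]
          exact det_sJ g
        unfold tac
        rw [if_neg h1.not_gt, hL.neg rfl _ hζ', hL.refl ζ hζ]
        simp
      · rw [norm_neg, Complex.norm_conj]; exact hw
      · rw [Complex.neg_im, Complex.conj_im, neg_neg]; exact him.le
      · rw [Complex.neg_re, Complex.conj_re]; linarith

/-- Interior points. PROOF: take the element `1`; `analyticAt_comp_cay`. -/
theorem pp_interior (hQ : IsOpen Q) (hf : Conf (cay '' Q) f) {w : ℍ} (hw : w ∈ Q) :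
    AnalyticAt ℂ (↑ₕ(fun v => f (cay v))) (w : ℂ) ∧ PP Q f (fun v => f (cay v)) w := by
  have h1 : cay w ∈ cay '' Q := mem_image_of_mem _ hw
  have h2 : AnalyticAt ℂ f (cay w) := hf.diff.analyticAt ((isOpenMap_cay Q hQ).mem_nhds h1)
  have h3 := analyticAt_comp_cay h2
  refine ⟨h3, h3.meromorphicNFAt, 1, ?_, ?_⟩
  · rw [one_smul]
    exact subset_closure hw
  · refine Eventually.of_forall fun v _ => ?_
    rw [tac_one, one_smul]

end Pool.Agent.Lib.MP_b9289b_nt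
end
end

section

/-! (L03) The continuation property of `PP`. -/

open UpperHalfPlane Metric Set Filter Topology MatrixGroups
open scoped ComplexConjugate

noncomputable section

namespace Pool.Agent.Lib.MP_b9289b_nt

private lemma tac_comm (g h : GL (Fin 2) ℝ) (x : ℂ) : tac (g * h) x = tac (h * g) x := by
  have hd : (g * h).val.det = (h * g).val.det := by
    rw [Units.val_mul, Matrix.det_mul, Units.val_mul, Matrix.det_mul, mul_comm]
  unfold tac
  rw [hd]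

private lemma continuous_gl (g : GL (Fin 2) ℝ) : Continuous (fun v : ℍ => g • v) :=
  continuous_const_smul g

private lemma tendsto_ofC (w : ℍ) : Tendsto ofComplex (𝓝 (w : ℂ)) (𝓝 w) := by
  have h1 : ContinuousAt ofComplex (w : ℂ) :=
    (contMDiffAt_ofComplex (n := 1) w.im_pos).continuousAt
  have h2 := h1.tendsto
  rw [ofComplex_apply] at h2
  exact h2

private lemma nf_congr {h h' : ℍ → ℂ} {w : ℍ} (he : h =ᶠ[𝓝 w] h')
    (hh : MeromorphicNFAt (↑ₕh) (w : ℂ)) : MeromorphicNFAt (↑ₕh') (w : ℂ) := by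
  refine (meromorphicNFAt_congr ?_).1 hh
  exact (tendsto_ofC w).eventually he

/-- The local data at a point of the closure. -/
private def Loc (Q : Set ℍ) (f : ℂ → ℂ) (U : Set ℍ) : Prop :=
  ∃ H : ℍ → ℂ, (∀ v ∈ U, AnalyticAt ℂ (↑ₕH) (v : ℂ) ∧ PP Q f H v) ∧
    ∀ v ∈ U, v ∈ Q → H v = f (cay v)

private lemma loc_chart {Q : Set ℍ} {f H : ℂ → ℂ} {y : ℍ} {g : SL(2, ℝ)} {Q' : Set ℂ} {m : ℕ}
    {ρ : ℝ} (hc : Chart Q y g Q' m) (hL : LocExt Q f g Q' m ρ H)
    (hpp : ∀ w : ℍ, ‖cay (g⁻¹ • w)‖ < ρ → PP Q f (hloc g H) w) :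
    ∃ U : Set ℍ, IsOpen U ∧ y ∈ U ∧ Loc Q f U := by
  refine ⟨{v | ‖cay (g⁻¹ • v)‖ < ρ}, ?_, ?_, hloc g H, ?_, ?_⟩
  · exact isOpen_lt (continuous_cay.comp (continuous_const_smul g⁻¹)).norm continuous_const
  · change ‖cay (g⁻¹ • y)‖ < ρ
    rw [← hc.smul, inv_smul_smul, cay_I, norm_zero]
    exact hL.pos
  · intro v hv
    exact ⟨analyticAt_hloc hL hv, hpp v hv⟩
  · intro v hv hvQ
    have h1 : g • toH (cay (g⁻¹ • v)) = v := by rw [toH_cay, smul_inv_smul]
    have h2 : cay (g⁻¹ • v) ∈ ball (0 : ℂ) ρ := by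
      rw [mem_ball, dist_zero_right]
      exact hv
    have h3 := hL.eq _ h2 (by rw [h1]; exact hvQ)
    unfold hloc
    rw [h3]
    unfold dm
    have h4 : (g : GL (Fin 2) ℝ) • toH (cay (g⁻¹ • v)) = v := h1
    rw [h4]

private lemma exists_loc {A : ℝ} (hA : OkA A) {f : ℂ → ℂ} (hf : Conf (cay '' oct A) f)
    {y : ℍ} (hy : y ∈ closure (oct A)) : ∃ U : Set ℍ, IsOpen U ∧ y ∈ U ∧ Loc (oct A) f U := by
  by_cases hyQ : y ∈ oct A
  · refine ⟨oct A, isOpen_oct hA, hyQ, fun v => f (cay v), ?_, fun v _ _ => rfl⟩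
    intro v hv
    exact pp_interior (isOpen_oct hA) hf hv
  · obtain ⟨g, Q', m, hc, hm⟩ := exists_chart hA hy hyQ
    rcases hm with ⟨rfl, -⟩ | ⟨rfl, -⟩
    · obtain ⟨ρ, H, hL⟩ := exists_locExt_one hf hc
      exact loc_chart hc hL fun w hw => pp_hloc_one hc hL hw
    · obtain ⟨ρ, H, hL⟩ := exists_locExt_two hf hc
      exact loc_chart hc hL fun w hw => pp_hloc_two hc hL hw

/-- Transport of `PP`. PROOF: the normal form: for positive determinant `v ↦ h (g • v)` (`MeromorphicNFAt.comp_analyticAt` with `analyticAt_smul`), for negative determinant `h` is analytic at `g • w`, `v ↦ σ g (h (g • v))` is analytic (`analyticAt_gl`) and its inverse is in normal form (`MeromorphicNFAt.inv`).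
The element for `w` is `g₁ * g` if `g₁` is the element of `PP Q f h (g • w)`; `tac_mul` (`tac g`, `tac g₁` commute). -/
theorem pp_transport {Q : Set ℍ} {f : ℂ → ℂ} {h : ℍ → ℂ} (g : GL (Fin 2) ℝ) {w : ℍ}
    (ha : AnalyticAt ℂ (↑ₕh) ((g • w : ℍ) : ℂ)) (hP : PP Q f h (g • w)) :
    PP Q f (fun v => tac g (h (g • v))) w := by
  obtain ⟨-, g₁, hcl, hev⟩ := hP
  refine ⟨?_, g₁ * g, ?_, ?_⟩
  · have h1 := analyticAt_gl g ha
    rcases lt_or_gt_of_ne g.det_ne_zero with hg | hg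
    · have h2 := h1.meromorphicNFAt.inv
      have h3 : (↑ₕ(fun v => σ g (h (g • v))))⁻¹ = ↑ₕ(fun v => tac g (h (g • v))) := by
        funext z
        have h4 : ¬ (0 < g.det.val) := by
          have : g.det.val = g.val.det := rfl
          rw [this]
          exact hg.not_gt
        simp only [Pi.inv_apply, Function.comp_apply, σ, if_neg h4, tac, if_neg hg.not_gt]
        rfl
      rw [h3] at h2
      exact h2
    · have h3 : (fun v => σ g (h (g • v))) = fun v => tac g (h (g • v)) := by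
        funext z
        have h4 : (0 < g.det.val) := hg
        simp only [σ, if_pos h4, tac]
        rw [if_pos hg]
        rfl
      rw [h3] at h1
      exact h1.meromorphicNFAt
  · rw [mul_smul]
    exact hcl
  · have h1 := (continuous_gl g).continuousAt.tendsto.eventually hev
    filter_upwards [h1] with v hv hvQ
    rw [mul_smul] at hvQ
    rw [hv hvQ, ← tac_mul, tac_comm, mul_smul]

/-- PROOF: `loc`, `nf` are clear. `ext`: for every `y ∈ closure Q` there are `δ_y > 0` and a function `H_y` on `ℍ` which is analytic with `PP` on `ball y δ_y` and equal to `f ∘ cay` on `Q ∩ ball y δ_y`: for `y ∈ Q` `pp_interior`, otherwise `exists_chart`, `exists_locExt_one/two`,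
`pp_hloc_one/two`, `hloc` (`{w | ‖cay (g⁻¹ • w)‖ < ρ}` is an open neighbourhood of `y = g • I`). Lebesgue number (`lebesgue_number_lemma_of_metric`) for the compact set `closure Q`: `δ > 0` such that for all `y ∈ closure Q` there is `y'` with `ball y δ ⊆ ball y' δ_{y'}`.
Given `PP Q f h w` with the element `g`: take `y = g • w`, `h' v = tac g (H_{y'} (g • v))`; `dist_smul_gl`; `pp_transport` gives `PP Q f h' w'` for `dist w' w < δ`. `h' =ᶠ[𝓝 w] h` by `nf_eventuallyEq` for the open set `{v | g • v ∈ Q}` whose closure contains `w` (there both are `tac g (f (cay (g • v)))`). -/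
theorem exists_cont {A : ℝ} (hA : OkA A) {f : ℂ → ℂ} (hf : Conf (cay '' oct A) f) :
    ∃ δ : ℝ, Cont (PP (oct A) f) δ := by
  choose! U hUo hyU H hH1 hH2 using fun (y : ℍ) (hy : y ∈ closure (oct A)) => exists_loc hA hf hy
  obtain ⟨δ, hδ, hleb⟩ := lebesgue_number_lemma_of_metric (s := closure (oct A))
    (c := fun y : closure (oct A) => U y) (isCompact_closure_oct hA) (fun y => hUo y y.2)
    (fun y hy => mem_iUnion.2 ⟨⟨y, hy⟩, hyU y hy⟩)
  refine ⟨δ, hδ, ?_, fun h w hw => hw.1, ?_⟩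
  · rintro h h' w he ⟨hnf, g, hcl, hev⟩
    refine ⟨nf_congr he hnf, g, hcl, ?_⟩
    filter_upwards [hev, he] with v h1 h2 h3
    rw [← h2, h1 h3]
  · rintro h w ⟨hnf, g, hcl, hev⟩
    obtain ⟨⟨y', hy'⟩, hsub⟩ := hleb (g • w) hcl
    simp only at hsub
    have hPP : ∀ w', dist w' w < δ → PP (oct A) f (fun v => tac g (H y' (g • v))) w' := by
      intro w' hw'
      have h1 : g • w' ∈ U y' := by
        apply hsub
        rw [mem_ball, dist_smul_gl]
        exact hw'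
      obtain ⟨h2, h3⟩ := hH1 y' hy' _ h1
      exact pp_transport g h2 h3
    refine ⟨fun v => tac g (H y' (g • v)), ?_, hPP⟩
    have hV : IsOpen ((fun v : ℍ => g • v) ⁻¹' oct A) := (isOpen_oct hA).preimage (continuous_gl g)
    have hcl' : w ∈ closure ((fun v : ℍ => g • v) ⁻¹' oct A) := by
      have h1 := (Homeomorph.smul g : ℍ ≃ₜ ℍ).preimage_closure (oct A)
      have h2 : ((Homeomorph.smul g : ℍ ≃ₜ ℍ) : ℍ → ℍ) = fun v => g • v := rfl
      rw [h2] at h1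
      rw [← h1]
      exact hcl
    refine nf_eventuallyEq (hPP w (by rw [dist_self]; exact hδ)).1 hnf hV hcl' ?_
    have h1 : ∀ᶠ v in 𝓝 w, dist v w < δ := Metric.ball_mem_nhds w hδ
    filter_upwards [hev, h1] with v h2 h3 h4
    have h5 : g • v ∈ U y' := by
      apply hsub
      rw [mem_ball, dist_smul_gl]
      exact h3
    rw [h2 h4, hH2 y' hy' _ h5 h4]

/-- The function `ψ`. PROOF: `Cont.exists_global` for `h₀ = f ∘ cay` at `I ∈ Q`; `nf_identity` on the connected open set `Q = oct A` (`isPreconnected_oct`). -/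
theorem exists_psi {A : ℝ} (hA : OkA A) {f : ℂ → ℂ} (hf : Conf (cay '' oct A) f) :
    ∃ ψ : ℍ → ℂ, (∀ w, PP (oct A) f ψ w) ∧ ∀ z ∈ oct A, ψ z = f (cay z) := by
  obtain ⟨δ, hC⟩ := exists_cont hA hf
  have hI : (I : ℍ) ∈ oct A := by
    change cay I ∈ octD A
    rw [cay_I]
    exact (star_octD hA).zero_mem
  obtain ⟨ψ, h1, h2⟩ := hC.exists_global (pp_interior (isOpen_oct hA) hf hI).2
  refine ⟨ψ, h2, fun z hz => ?_⟩
  have h3 := nf_identity (isOpen_oct hA) (isPreconnected_oct hA) (h := ψ)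
    (h' := fun v => f (cay v)) (fun w _ => (h2 w).1)
    (fun w hw => (pp_interior (isOpen_oct hA) hf hw).2.1) hI h1 z hz
  exact h3.eq_of_nhds

end Pool.Agent.Lib.MP_b9289b_nt
end
end

section

/-! The function `ψ` (definitions and first facts). -/

open UpperHalfPlane Metric Set Filter Topology MatrixGroups
open scoped ComplexConjugate

noncomputable section

namespace Pool.Agent.Lib.MP_b9289b_nt

/-- `ψ` is the continuation of the Riemann map `f` of the octagon. -/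
structure IsPsi (A : ℝ) (f : ℂ → ℂ) (ψ : ℍ → ℂ) : Prop where
  ok : OkA A
  rmap : RMap (octD A) f
  pp : ∀ w, PP (oct A) f ψ w
  eq : ∀ z ∈ oct A, ψ z = f (cay z)

lemma cay_image_oct (A : ℝ) : cay '' oct A = octD A := by
  ext ζ
  constructor
  · rintro ⟨z, hz, rfl⟩; exact hz
  · intro hζ
    exact ⟨toH ζ, by rw [oct, Set.mem_setOf_eq, cay_toH hζ.1]; exact hζ, cay_toH hζ.1⟩

theorem exists_isPsi {A : ℝ} (hA : OkA A) : ∃ (f : ℂ → ℂ) (ψ : ℍ → ℂ), IsPsi A f ψ := by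
  obtain ⟨f, hf⟩ := exists_rmap (star_octD hA)
  obtain ⟨ψ, h1, h2⟩ := exists_psi (f := f) hA (by rw [cay_image_oct]; exact hf.toConf)
  exact ⟨f, ψ, hA, hf, h1, h2⟩

lemma IsPsi.isMero {A : ℝ} {f : ℂ → ℂ} {ψ : ℍ → ℂ} (h : IsPsi A f ψ) : IsMero ψ :=
  fun z => (h.pp z).1.meromorphicAt

/-- `ψ` as an element of `Mer`. -/
def IsPsi.mer {A : ℝ} {f : ℂ → ℂ} {ψ : ℍ → ℂ} (h : IsPsi A f ψ) : Mer := Mer.mk ψ h.isMero

/-- `κ = -i (Ψ² - Ψ⁻²)`. -/
def kap (Ψ : Mer) : Mer := Mer.cst (-Complex.I) * (Ψ ^ 2 - (Ψ ^ 2)⁻¹)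

/-- `-i (c² - c⁻²)`. -/
def kc (c : ℂ) : ℂ := -Complex.I * (c ^ 2 - (c ^ 2)⁻¹)

end Pool.Agent.Lib.MP_b9289b_nt
end
end

section

/-! (P01) Local form of `ψ` at the frontier; values; orders. -/

open UpperHalfPlane Metric Set Filter Topology MatrixGroups
open scoped ComplexConjugate

noncomputable section

namespace Pool.Agent.Lib.MP_b9289b_nt

variable {A : ℝ} {f : ℂ → ℂ} {ψ : ℍ → ℂ}

private lemma map_coe_nhds' (z : ℍ) : Filter.map ((↑) : ℍ → ℂ) (𝓝 z) = 𝓝 (z : ℂ) :=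
  isOpenEmbedding_coe.map_nhds_eq z

private lemma lift_eventuallyEq {h h' : ℍ → ℂ} {y : ℍ} (he : h =ᶠ[𝓝 y] h') :
    (↑ₕh) =ᶠ[𝓝 (y : ℂ)] (↑ₕh') := by
  rw [Filter.EventuallyEq, ← map_coe_nhds', eventually_map]
  filter_upwards [he] with v hv
  rw [comp_ofComplex, comp_ofComplex, hv]

private lemma inv_smul_eq_I {y : ℍ} {g : SL(2, ℝ)} (hg : g • (I : ℍ) = y) : g⁻¹ • y = I := by
  rw [← hg, inv_smul_smul]

private lemma cay_inv_smul {y : ℍ} {g : SL(2, ℝ)} (hg : g • (I : ℍ) = y) :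
    cay (g⁻¹ • y) = 0 := by
  rw [inv_smul_eq_I hg, cay_I]

private lemma continuous_cay_smul (g : SL(2, ℝ)) : Continuous (fun v : ℍ => cay (g⁻¹ • v)) :=
  continuous_cay.comp (continuous_const_smul g⁻¹)

private lemma eventuallyEq_hloc (h : IsPsi A f ψ) {y : ℍ} (hy : y ∈ closure (oct A))
    {g : SL(2, ℝ)} {Q' : Set ℂ} {m : ℕ} {ρ : ℝ} {H : ℂ → ℂ} (hC : Chart (oct A) y g Q' m)
    (hL : LocExt (oct A) f g Q' m ρ H) : ψ =ᶠ[𝓝 y] hloc g H := by
  have h0 : ‖cay (g⁻¹ • y)‖ < ρ := by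
    rw [cay_inv_smul hC.smul, norm_zero]
    exact hL.pos
  refine nf_eventuallyEq (h.pp y).1 (analyticAt_hloc hL h0).meromorphicNFAt (isOpen_oct h.ok) hy ?_
  have hc : ∀ᶠ v in 𝓝 y, ‖cay (g⁻¹ • v)‖ < ρ :=
    (continuous_cay_smul g).norm.continuousAt.eventually (gt_mem_nhds h0)
  filter_upwards [hc] with v hv hvQ
  have e1 : g • toH (cay (g⁻¹ • v)) = v := by rw [toH_cay, smul_inv_smul]
  have e2 := hL.eq (cay (g⁻¹ • v)) (mem_ball_zero_iff.2 hv) (by rw [e1]; exact hvQ)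
  have e3 : dm (g : GL (Fin 2) ℝ) (cay (g⁻¹ • v)) = cay (g • toH (cay (g⁻¹ • v))) := rfl
  rw [e3, e1] at e2
  rw [h.eq v hvQ]
  exact e2.symm

/-- PROOF: `exists_chart`, `exists_locExt_one/two`. Both `ψ` and `hloc g H` are in normal form at `y` (`h.pp y`, `analyticAt_hloc`) and they agree on `oct A` near `y` (`h.eq`, `LocExt.eq`), whose closure contains `y`: `nf_eventuallyEq`. -/
theorem IsPsi.exists_local (h : IsPsi A f ψ) {y : ℍ} (hy : y ∈ closure (oct A)) (hy' : y ∉ oct A) :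
    ∃ (g : SL(2, ℝ)) (Q' : Set ℂ) (m : ℕ) (ρ : ℝ) (H : ℂ → ℂ), Chart (oct A) y g Q' m ∧
      LocExt (oct A) f g Q' m ρ H ∧ ψ =ᶠ[𝓝 y] hloc g H ∧
      ((m = 1 ∧ ¬ IsCorner A (cay y)) ∨ (m = 2 ∧ IsCorner A (cay y))) := by
  obtain ⟨g, Q', m, hC, hm⟩ := exists_chart h.ok hy hy'
  have hf : Conf (cay '' oct A) f := by
    rw [cay_image_oct]
    exact h.rmap.toConf
  rcases hm with ⟨rfl, hnc⟩ | ⟨rfl, hcor⟩
  · obtain ⟨ρ, H, hL⟩ := exists_locExt_one hf hC
    exact ⟨g, Q', 1, ρ, H, hC, hL, eventuallyEq_hloc h hy hC hL, Or.inl ⟨rfl, hnc⟩⟩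
  · obtain ⟨ρ, H, hL⟩ := exists_locExt_two hf hC
    exact ⟨g, Q', 2, ρ, H, hC, hL, eventuallyEq_hloc h hy hC hL, Or.inr ⟨rfl, hcor⟩⟩

lemma IsPsi.norm_lt (h : IsPsi A f ψ) {y : ℍ} (hy : y ∈ oct A) : ‖ψ y‖ < 1 := by
  rw [h.eq y hy, ← mem_ball_zero_iff, ← h.rmap.image]
  exact mem_image_of_mem f hy

/-- PROOF: `ψ y = H 0`, `LocExt.norm_zero`. -/
lemma IsPsi.norm_eq (h : IsPsi A f ψ) {y : ℍ} (hy : y ∈ closure (oct A)) (hy' : y ∉ oct A) :
    ‖ψ y‖ = 1 := by
  obtain ⟨g, Q', m, ρ, H, hC, hL, he, -⟩ := h.exists_local hy hy'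
  rw [he.eq_of_nhds]
  unfold hloc
  rw [cay_inv_smul hC.smul]
  exact hL.norm_zero

lemma IsPsi.analyticAt (h : IsPsi A f ψ) {y : ℍ} (hy : y ∈ closure (oct A)) :
    AnalyticAt ℂ (↑ₕψ) (y : ℂ) := by
  by_cases hy' : y ∈ oct A
  · have hf : Conf (cay '' oct A) f := by
      rw [cay_image_oct]
      exact h.rmap.toConf
    refine (pp_interior (isOpen_oct h.ok) hf hy').1.congr (lift_eventuallyEq ?_)
    filter_upwards [(isOpen_oct h.ok).mem_nhds hy'] with v hv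
    exact (h.eq v hv).symm
  · obtain ⟨g, Q', m, ρ, H, hC, hL, he, -⟩ := h.exists_local hy hy'
    have h0 : ‖cay (g⁻¹ • y)‖ < ρ := by
      rw [cay_inv_smul hC.smul, norm_zero]
      exact hL.pos
    exact (analyticAt_hloc hL h0).congr (lift_eventuallyEq he.symm)

lemma IsPsi.continuousAt (h : IsPsi A f ψ) {y : ℍ} (hy : y ∈ closure (oct A)) :
    ContinuousAt ψ y := by
  have h1 : ContinuousAt (↑ₕψ) ((y : ℍ) : ℂ) := (h.analyticAt hy).continuousAt
  have h2 : ContinuousAt (fun v : ℍ => (↑ₕψ) (v : ℂ)) y :=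
    ContinuousAt.comp (f := fun v : ℍ => (v : ℂ)) h1 continuous_coe.continuousAt
  have h3 : (fun v : ℍ => (↑ₕψ) (v : ℂ)) = ψ := by
    funext v
    exact comp_ofComplex ψ v
  rwa [h3] at h2

/-- Corners are on the frontier. PROOF: `lin n (cay y) = 0` for some wall. -/
lemma not_mem_oct_of_isCorner {y : ℍ} (hc : IsCorner A (cay y)) : y ∉ oct A := by
  intro hy
  obtain ⟨-, n, hn, m, -, -, h1, -⟩ := hc
  have h2 := (show cay y ∈ octD A from hy).2 n hn
  rw [h1] at h2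
  exact lt_irrefl 0 h2

private lemma ord_of_loc (h : IsPsi A f ψ) {y : ℍ} {g : SL(2, ℝ)} {H : ℂ → ℂ}
    (hH : AnalyticAt ℂ H (cay (g⁻¹ • y))) (he : ψ =ᶠ[𝓝 y] (fun w => H (cay (g⁻¹ • w)))) {m : ℕ}
    (hm : analyticOrderAt (fun ζ => H ζ - H (cay (g⁻¹ • y))) (cay (g⁻¹ • y)) = m) :
    Mer.ord y (h.mer - Mer.cst (ψ y)) = (m : WithTop ℤ) := by
  have e1 : h.mer - Mer.cst (ψ y) = Mer.mk (fun z => ψ z - ψ y)
      (h.isMero.sub (IsMero.const (ψ y))) := rfl
  rw [e1, Mer.ord_mk]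
  have e2 : (↑ₕ(fun z => ψ z - ψ y)) =ᶠ[𝓝 (y : ℂ)]
      (↑ₕ(fun w => (fun ζ => H ζ - H (cay (g⁻¹ • y))) (cay (g⁻¹ • w)))) := by
    refine lift_eventuallyEq ?_
    filter_upwards [he] with v hv
    have e3 : ψ y = H (cay (g⁻¹ • y)) := he.eq_of_nhds
    change ψ v - ψ y = H (cay (g⁻¹ • v)) - H (cay (g⁻¹ • y))
    rw [hv, e3]
  rw [meromorphicOrderAt_congr (e2.filter_mono nhdsWithin_le_nhds)]
  have h3 : AnalyticAt ℂ (fun ζ => H ζ - H (cay (g⁻¹ • y))) (cay (g⁻¹ • y)) :=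
    hH.sub analyticAt_const
  rw [meromorphicOrderAt_comp_cay g h3.meromorphicAt, h3.meromorphicOrderAt_eq, hm]
  rfl

private lemma ord_of_locExt (h : IsPsi A f ψ) {y : ℍ} {g : SL(2, ℝ)} {Q' : Set ℂ} {m : ℕ} {ρ : ℝ}
    {H : ℂ → ℂ} (hC : Chart (oct A) y g Q' m) (hL : LocExt (oct A) f g Q' m ρ H)
    (he : ψ =ᶠ[𝓝 y] hloc g H) : Mer.ord y (h.mer - Mer.cst (ψ y)) = (m : WithTop ℤ) := by
  have h0 : cay (g⁻¹ • y) = 0 := cay_inv_smul hC.smul
  have hH : AnalyticAt ℂ H (cay (g⁻¹ • y)) := by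
    rw [h0]
    exact (hL.diff.analyticOnNhd isOpen_ball) 0 (mem_ball_self hL.pos)
  refine ord_of_loc h hH he ?_
  rw [h0]
  exact hL.order

/-- PROOF: inside: `f` is injective, `deriv_ne_zero_of_injOn`, and `meromorphicOrderAt_comp_cay` (with `g = 1`); at a side: `LocExt.order` with `m = 1`. (`Mer.ord_mk`, `AnalyticAt.meromorphicOrderAt_eq`, `meromorphicOrderAt_comp_cay`; `hloc g H w - H 0 = (H - H 0) (cay (g⁻¹ • w))`.) -/
theorem IsPsi.ord_one (h : IsPsi A f ψ) {y : ℍ} (hy : y ∈ closure (oct A))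
    (hc : ¬ IsCorner A (cay y)) : Mer.ord y (h.mer - Mer.cst (ψ y)) = 1 := by
  by_cases hy' : y ∈ oct A
  · have hS : IsOpen (octD A) := (star_octD h.ok).isOpen
    have hyD : cay y ∈ octD A := hy'
    have hfa : AnalyticAt ℂ f (cay y) := (h.rmap.diff.analyticOnNhd hS) _ hyD
    have hd : deriv f (cay y) ≠ 0 := deriv_ne_zero_of_injOn hS h.rmap.diff h.rmap.inj hyD
    have h1 := AnalyticAt.analyticOrderAt_sub_eq_one_of_deriv_ne_zero hfa hd
    have hone : (1 : SL(2, ℝ))⁻¹ • y = y := by rw [inv_one, one_smul]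
    have h2 : ψ =ᶠ[𝓝 y] (fun w => f (cay ((1 : SL(2, ℝ))⁻¹ • w))) := by
      filter_upwards [(isOpen_oct h.ok).mem_nhds hy'] with v hv
      rw [inv_one, one_smul]
      exact h.eq v hv
    refine ord_of_loc h (g := 1) (H := f) (m := 1) ?_ h2 ?_
    · rw [hone]
      exact hfa
    · rw [hone, h1]
      rfl
  · obtain ⟨g, Q', m, ρ, H, hC, hL, he, hm⟩ := h.exists_local hy hy'
    rcases hm with ⟨rfl, -⟩ | ⟨-, hcor⟩
    · exact ord_of_locExt h hC hL he
    · exact absurd hcor hc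

/-- PROOF: the same with `m = 2`. -/
theorem IsPsi.ord_two (h : IsPsi A f ψ) {y : ℍ} (hc : IsCorner A (cay y)) :
    Mer.ord y (h.mer - Mer.cst (ψ y)) = 2 := by
  have hy : y ∈ closure (oct A) := by
    rw [closure_oct h.ok]
    exact hc.1
  obtain ⟨g, Q', m, ρ, H, hC, hL, he, hm⟩ := h.exists_local hy (not_mem_oct_of_isCorner hc)
  rcases hm with ⟨-, hnc⟩ | ⟨rfl, -⟩
  · exact absurd hc hnc
  · exact ord_of_locExt h hC hL he

end Pool.Agent.Lib.MP_b9289b_nt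
end
end

section

/-! (P03) Symmetries and deck transformations of `Ψ` in `Mer`. -/

open UpperHalfPlane Metric Set Filter Topology MatrixGroups
open scoped ComplexConjugate

noncomputable section

namespace Pool.Agent.Lib.MP_b9289b_nt

variable {A : ℝ} {f : ℂ → ℂ} {ψ : ℍ → ℂ}

/-- Identity theorem. PROOF: the difference is zero near a point, so its order is `⊤` there (`Mer.ord_mk`), use `Mer.ord_eq_top_iff`; or `IsMero.eventually_ne_zero`. -/
theorem mk_eq_of_eqOn {u v : ℍ → ℂ} (hu : IsMero u) (hv : IsMero v) {V : Set ℍ} (hV : IsOpen V)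
    (hne : V.Nonempty) (he : ∀ z ∈ V, u z = v z) : Mer.mk u hu = Mer.mk v hv := by
  obtain ⟨z, hz⟩ := hne
  rw [← sub_eq_zero, Mer.mk_sub, ← Mer.ord_eq_top_iff (z := z), Mer.ord_mk,
    meromorphicOrderAt_eq_top_iff, eventually_nhdsNE_iff]
  filter_upwards [mem_nhdsWithin_of_mem_nhds (hV.mem_nhds hz)] with w hw
  simp [he w hw]

/-- `tact g` on representatives. -/
lemma tact_mk (g : GL (Fin 2) ℝ) {u : ℍ → ℂ} (hu : IsMero u) : ∃ hv : IsMero (fun z => tac g (u (g • z))),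
    tact g (Mer.mk u hu) = Mer.mk (fun z => tac g (u (g • z))) hv := by
  by_cases hg : 0 < g.val.det
  · have h3 : (0 < g.det.val) := by simpa using hg
    have e : (fun z => tac g (u (g • z))) = fun z => σ g (u (g • z)) := by
      funext z
      rw [tac, if_pos hg, σ, if_pos h3]
      rfl
    have hv : IsMero (fun z => tac g (u (g • z))) := by
      rw [e]
      exact hu.smul g
    refine ⟨hv, ?_⟩
    rw [tact, if_pos hg, Mer.act_mk, Mer.mk_eq_mk]
    exact Eventually.of_forall fun z => (congrFun e z).symm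
  · have h3 : ¬ (0 < g.det.val) := by simpa using hg
    have e : (fun z => tac g (u (g • z))) = fun z => (σ g (u (g • z)))⁻¹ := by
      funext z
      rw [tac, if_neg hg, σ, if_neg h3]
      rfl
    have hv : IsMero (fun z => tac g (u (g • z))) := by
      rw [e]
      exact (hu.smul g).inv
    refine ⟨hv, ?_⟩
    rw [tact, if_neg hg, Mer.act_mk, Mer.mk_inv, Mer.mk_eq_mk]
    exact Eventually.of_forall fun z => (congrFun e z).symm

/-- PROOF: let `g` be the element of `h.pp z`; the set `V` of the `v` near `z` with `g • v ∈ oct A` is open and nonempty, and `ψ v = tac g (f (cay (g • v))) = tac g (ψ (g • v))` on `V`. `tact_mk`, `mk_eq_of_eqOn`. -/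
theorem IsPsi.deck (h : IsPsi A f ψ) (z : ℍ) : ∃ g : GL (Fin 2) ℝ, g • z ∈ closure (oct A) ∧
    tact g h.mer = h.mer := by
  obtain ⟨_, g, hg, he⟩ := h.pp z
  refine ⟨g, hg, ?_⟩
  obtain ⟨U, hU, hUo, hzU⟩ := _root_.eventually_nhds_iff.1 he
  have hcont : Continuous fun v : ℍ => g • v := continuous_const_smul g
  obtain ⟨hv, e⟩ := tact_mk g h.isMero
  have hmer : h.mer = Mer.mk ψ h.isMero := rfl
  rw [hmer, e]
  refine mk_eq_of_eqOn _ _ (V := U ∩ (fun v => g • v) ⁻¹' (oct A))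
    (hUo.inter ((isOpen_oct h.ok).preimage hcont)) ?_ ?_
  · have h1 : z ∈ closure ((Homeomorph.smul g : ℍ ≃ₜ ℍ) ⁻¹' (oct A)) := by
      rw [← Homeomorph.preimage_closure]
      exact hg
    obtain ⟨v, hv1, hv2⟩ := mem_closure_iff.1 h1 U hUo hzU
    exact ⟨v, hv1, hv2⟩
  · rintro v ⟨hv1, hv2⟩
    rw [hU v hv1 hv2, h.eq _ hv2]

private lemma P03_I_mem (hA : OkA A) : (I : ℍ) ∈ oct A := by
  rw [oct, Set.mem_ofPred_eq, cay_I]
  exact (star_octD hA).zero_mem

private lemma P03_cay_rot (z : ℍ) : cay (rotM (Real.pi / 2) • z) = Complex.I * cay z := by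
  rw [cay_rotM]
  congr 1
  have : ((Real.pi / 2 : ℝ) : ℂ) * Complex.I = (Real.pi : ℂ) / 2 * Complex.I := by push_cast; ring
  rw [this, Complex.exp_pi_div_two_mul_I]

private lemma P03_rot_mem {z : ℍ} (hz : z ∈ oct A) : rotM (Real.pi / 2) • z ∈ oct A := by
  rw [oct, Set.mem_ofPred_eq, P03_cay_rot]
  exact I_mul_mem_octD.2 hz

private lemma P03_J_mem {z : ℍ} (hz : z ∈ oct A) : J • z ∈ oct A := by
  rw [oct, Set.mem_ofPred_eq, cay_J]
  exact conj_mem_octD.2 hz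

private lemma P03_rot_eq (h : IsPsi A f ψ) {z : ℍ} (hz : z ∈ oct A) :
    ψ (rotM (Real.pi / 2) • z) = Complex.I * ψ z := by
  rw [h.eq _ (P03_rot_mem hz), h.eq _ hz, P03_cay_rot]
  exact h.rmap.rot_symm (star_octD h.ok).isOpen (star_octD h.ok).zero_mem Complex.norm_I
    (fun _ => I_mul_mem_octD) _ hz

private lemma P03_J_eq (h : IsPsi A f ψ) {z : ℍ} (hz : z ∈ oct A) :
    ψ (J • z) = conj (ψ z) := by
  rw [h.eq _ (P03_J_mem hz), h.eq _ hz, cay_J]
  exact h.rmap.conj_symm (star_octD h.ok).isOpen (star_octD h.ok).zero_mem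
    (fun _ => conj_mem_octD.2) _ hz

/-- PROOF: `RMap.rot_symm` for `f` with `c = i` (`I_mul_mem_octD`), `cay_rotM`, `mk_eq_of_eqOn` on `oct A`. -/
theorem IsPsi.actS_rot (h : IsPsi A f ψ) :
    Mer.actS (rotM (Real.pi / 2)) h.mer = Mer.cst Complex.I * h.mer := by
  have hmer : h.mer = Mer.mk ψ h.isMero := rfl
  rw [hmer, Mer.actS_mk, Mer.cst_eq, Mer.mk_mul]
  exact mk_eq_of_eqOn _ _ (isOpen_oct h.ok) ⟨I, P03_I_mem h.ok⟩ fun z hz => P03_rot_eq h hz

/-- PROOF: `RMap.conj_symm`, `cay_J`. -/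
theorem IsPsi.act_J (h : IsPsi A f ψ) : Mer.act J h.mer = h.mer := by
  have hmer : h.mer = Mer.mk ψ h.isMero := rfl
  rw [hmer, Mer.act_mk]
  refine mk_eq_of_eqOn _ _ (isOpen_oct h.ok) ⟨I, P03_I_mem h.ok⟩ fun z hz => ?_
  have h3 : ¬ (0 < J.det.val) := by simp
  rw [P03_J_eq h hz, σ, if_neg h3]
  exact Complex.conj_conj _

/-- Values on the closed octagon. PROOF: on `oct A` by `RMap.rot_symm`; by continuity on the closure (`IsPsi.continuousAt`). -/
theorem IsPsi.rot (h : IsPsi A f ψ) {z : ℍ} (hz : z ∈ closure (oct A)) :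
    ψ (rotM (Real.pi / 2) • z) = Complex.I * ψ z := by
  have hz2 : rotM (Real.pi / 2) • z ∈ closure (oct A) := by
    rw [closure_oct h.ok] at hz ⊢
    rw [Set.mem_ofPred_eq, P03_cay_rot]
    exact I_mul_mem_octC.2 hz
  have hcont : ContinuousAt (fun v : ℍ => rotM (Real.pi / 2) • v) z :=
    (continuous_const_smul _).continuousAt
  have h1 : Tendsto (fun v : ℍ => ψ (rotM (Real.pi / 2) • v)) (𝓝 z)
      (𝓝 (ψ (rotM (Real.pi / 2) • z))) :=
    ContinuousAt.comp (f := fun v : ℍ => rotM (Real.pi / 2) • v) (g := ψ)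
      (h.continuousAt hz2) hcont
  have h2 : Tendsto (fun v : ℍ => Complex.I * ψ v) (𝓝 z) (𝓝 (Complex.I * ψ z)) :=
    (h.continuousAt hz).tendsto.const_mul _
  exact tendsto_nhds_unique_of_frequently_eq h1 h2
    ((mem_closure_iff_frequently.1 hz).mono fun v hv => P03_rot_eq h hv)

theorem IsPsi.refl (h : IsPsi A f ψ) {z : ℍ} (hz : z ∈ closure (oct A)) :
    ψ (J • z) = conj (ψ z) := by
  have hz2 : J • z ∈ closure (oct A) := by
    rw [closure_oct h.ok] at hz ⊢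
    rw [Set.mem_ofPred_eq, cay_J]
    exact conj_mem_octC.2 hz
  have hcont : ContinuousAt (fun v : ℍ => J • v) z :=
    (continuous_const_smul _).continuousAt
  have h1 : Tendsto (fun v : ℍ => ψ (J • v)) (𝓝 z) (𝓝 (ψ (J • z))) :=
    ContinuousAt.comp (f := fun v : ℍ => J • v) (g := ψ) (h.continuousAt hz2) hcont
  have h2 : Tendsto (fun v : ℍ => conj (ψ v)) (𝓝 z) (𝓝 (conj (ψ z))) :=
    (Complex.continuous_conj.tendsto _).comp (h.continuousAt hz).tendsto
  exact tendsto_nhds_unique_of_frequently_eq h1 h2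
    ((mem_closure_iff_frequently.1 hz).mono fun v hv => P03_J_eq h hv)

lemma rot_mem_closure_oct (hA : OkA A) {z : ℍ} (hz : z ∈ closure (oct A)) :
    rotM (Real.pi / 2) • z ∈ closure (oct A) := by
  rw [closure_oct hA] at hz ⊢
  rw [Set.mem_ofPred_eq, P03_cay_rot]
  exact I_mul_mem_octC.2 hz

lemma J_mem_closure_oct (hA : OkA A) {z : ℍ} (hz : z ∈ closure (oct A)) :
    J • z ∈ closure (oct A) := by
  rw [closure_oct hA] at hz ⊢
  rw [Set.mem_ofPred_eq, cay_J]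
  exact conj_mem_octC.2 hz

private lemma P03_near {y : ℍ} {g : SL(2, ℝ)} {Q' : Set ℂ} {m : ℕ} {ρ : ℝ} {H : ℂ → ℂ}
    (hc : Chart (oct A) y g Q' m) (hL : LocExt (oct A) f g Q' m ρ H) :
    ∀ᶠ v in 𝓝 y, ‖cay (g⁻¹ • v)‖ < ρ := by
  have h1 : Continuous fun v : ℍ => ‖cay (g⁻¹ • v)‖ :=
    (continuous_cay.comp (continuous_const_smul _)).norm
  have h2 : ‖cay (g⁻¹ • y)‖ < ρ := by
    rw [← hc.smul, inv_smul_smul, cay_I, norm_zero]
    exact hL.pos
  exact h1.continuousAt.eventually (gt_mem_nhds h2)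

private lemma P03_neg_one_smul (z : ℍ) : (-1 : SL(2, ℝ)) • z = z := by
  have h1 : (((-1 : SL(2, ℝ))) : GL (Fin 2) ℝ) = -1 := by
    ext i j
    simp
  have h2 : (-1 : SL(2, ℝ)) • z = (((-1 : SL(2, ℝ))) : GL (Fin 2) ℝ) • z := rfl
  rw [h2, h1, UpperHalfPlane.neg_smul, one_smul]

private lemma P03_coord (g : SL(2, ℝ)) (v : ℍ) : v = g • toH (cay (g⁻¹ • v)) := by
  rw [toH_cay, smul_inv_smul]

private lemma P03_hloc (g : SL(2, ℝ)) (H : ℂ → ℂ) {ζ : ℂ} (hζ : ‖ζ‖ < 1) :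
    hloc g H (g • toH ζ) = H ζ := by
  rw [hloc, inv_smul_smul, cay_toH hζ]

/-- The rotation at a corner. PROOF: `exists_local` with `m = 2`, `γ = sR g`: `hloc g H (γ • v) = H (-ζ) = H ζ` for `v = g • toH ζ` near `y` (`LocExt.neg`, `sR_smul`), so `Ψ ∘ γ = Ψ` near `y`, hence everywhere; `γ • y = y`, `γ ≠ ± 1` as `γ • (g • toH ζ) = g • toH (-ζ)`. -/
theorem IsPsi.corner_rot (h : IsPsi A f ψ) {y : ℍ} (hc : IsCorner A (cay y)) :
    ∃ γ : SL(2, ℝ), γ • y = y ∧ γ ≠ 1 ∧ γ ≠ -1 ∧ Mer.actS γ h.mer = h.mer := by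
  have hy : y ∈ closure (oct A) := by
    rw [closure_oct h.ok]
    exact hc.1
  obtain ⟨g, Q', m, ρ, H, hch, hL, hψ, hm⟩ := h.exists_local hy (not_mem_oct_of_isCorner hc)
  have hm2 : m = 2 := by
    rcases hm with ⟨_, h1⟩ | ⟨h1, _⟩
    · exact absurd hc h1
    · exact h1
  have hyg : y = g • toH 0 := by rw [toH_zero, hch.smul]
  have hγy : sR g • y = y := by
    rw [hyg, sR_smul g (by simp), neg_zero]
  have hne : sR g • (g • toH (1 / 2)) ≠ g • toH (1 / 2) := by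
    have hn : ‖(1 / 2 : ℂ)‖ < 1 := by norm_num
    rw [sR_smul g hn]
    intro h1
    have h2 := congrArg cay (MulAction.injective g h1)
    rw [cay_toH hn, cay_toH (by rw [norm_neg]; exact hn)] at h2
    norm_num at h2
  refine ⟨sR g, hγy, ?_, ?_, ?_⟩
  · intro h1
    rw [h1, one_smul] at hne
    exact hne rfl
  · intro h1
    apply hne
    rw [h1, P03_neg_one_smul]
  · have hcont : ContinuousAt (fun v : ℍ => sR g • v) y :=
      (continuous_const_smul _).continuousAt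
    have hcont2 : Tendsto (fun v : ℍ => sR g • v) (𝓝 y) (𝓝 y) := by
      have := hcont.tendsto
      rwa [hγy] at this
    have he : ∀ᶠ v in 𝓝 y, ψ (sR g • v) = ψ v := by
      filter_upwards [P03_near hch hL, hψ, hcont2.eventually hψ] with v h1 h2 h3
      have hn : ‖cay (g⁻¹ • v)‖ < 1 := norm_cay_lt _
      rw [h3, h2]
      rw [P03_coord g v, sR_smul g hn, P03_hloc g H (by rw [norm_neg]; exact hn),
        P03_hloc g H hn]
      exact hL.neg hm2 _ (by rwa [mem_ball_zero_iff])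
    obtain ⟨U, hU, hUo, hyU⟩ := _root_.eventually_nhds_iff.1 he
    have hmer : h.mer = Mer.mk ψ h.isMero := rfl
    rw [hmer, Mer.actS_mk]
    exact mk_eq_of_eqOn _ _ hUo ⟨y, hyU⟩ fun v hv => hU v hv

/-- The reflection at a side. PROOF: `s = sJ g`; `LocExt.refl`. -/
theorem IsPsi.side_refl (h : IsPsi A f ψ) {y : ℍ} (hy : y ∈ closure (oct A)) (hy' : y ∉ oct A) :
    ∃ s : GL (Fin 2) ℝ, s.val.det < 0 ∧ s • y = y ∧ tact s h.mer = h.mer := by
  obtain ⟨g, Q', m, ρ, H, hch, hL, hψ, hm⟩ := h.exists_local hy hy'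
  have hyg : y = g • toH 0 := by rw [toH_zero, hch.smul]
  have hsy : sJ g • y = y := by
    rw [hyg, sJ_smul g (by simp), map_zero]
  refine ⟨sJ g, det_sJ g, hsy, ?_⟩
  have hcont2 : Tendsto (fun v : ℍ => sJ g • v) (𝓝 y) (𝓝 y) := by
    have hcont : ContinuousAt (fun v : ℍ => sJ g • v) y :=
      (continuous_const_smul _).continuousAt
    have := hcont.tendsto
    rwa [hsy] at this
  have he : ∀ᶠ v in 𝓝 y, tac (sJ g) (ψ (sJ g • v)) = ψ v := by
    filter_upwards [P03_near hch hL, hψ, hcont2.eventually hψ] with v h1 h2 h3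
    have hn : ‖cay (g⁻¹ • v)‖ < 1 := norm_cay_lt _
    rw [h3, h2]
    rw [P03_coord g v, sJ_smul g hn, P03_hloc g H (by rw [Complex.norm_conj]; exact hn),
      P03_hloc g H hn, tac, if_neg (det_sJ g).not_gt, hL.refl _ (by rwa [mem_ball_zero_iff])]
    rw [map_inv₀, Complex.conj_conj, inv_inv]
  obtain ⟨U, hU, hUo, hyU⟩ := _root_.eventually_nhds_iff.1 he
  have hmer : h.mer = Mer.mk ψ h.isMero := rfl
  obtain ⟨hv, e⟩ := tact_mk (sJ g) h.isMero
  rw [hmer, e]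
  exact mk_eq_of_eqOn _ _ hUo ⟨y, hyU⟩ fun v hv => hU v hv

end Pool.Agent.Lib.MP_b9289b_nt
end
end

section

/-! (K02) The numbers `kc c = -i (c² - c⁻²)`. -/

open UpperHalfPlane Metric Set Filter Topology MatrixGroups
open scoped ComplexConjugate

noncomputable section

namespace Pool.Agent.Lib.MP_b9289b_nt

variable {c c₀ : ℂ}

/-- PROOF: `u = c²` satisfies `u² - i r u - 1 = 0`, i.e. `(u - i r/2)² = 1 - r²/4 ≥ 0`, so `u - i r/2` is real with square `1 - r²/4` and `|u|² = 1`. -/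
theorem kc_ne_of_norm_lt (hc : c ≠ 0) (h : ‖c‖ < 1) {r : ℝ} (hr : |r| ≤ 2) : kc c ≠ (r : ℂ) := by
  intro hk
  have hu : c ^ 2 ≠ 0 := pow_ne_zero 2 hc
  have hn : ‖c ^ 2‖ < 1 := by
    rw [norm_pow]
    exact pow_lt_one₀ (norm_nonneg _) h two_ne_zero
  unfold kc at hk
  generalize c ^ 2 = u at *
  have h1 : u * u - 1 = Complex.I * r * u := by
    have h2 : Complex.I * (r : ℂ) * u = (-(Complex.I * Complex.I)) * (u * u - u⁻¹ * u) := by
      rw [← hk]; ring
    rw [Complex.I_mul_I, inv_mul_cancel₀ hu, neg_neg, one_mul] at h2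
    exact h2.symm
  have hre := congrArg Complex.re h1
  have him := congrArg Complex.im h1
  simp only [Complex.sub_re, Complex.mul_re, Complex.one_re, Complex.I_re, Complex.ofReal_re,
    Complex.I_im, Complex.ofReal_im, Complex.mul_im, Complex.sub_im, Complex.one_im] at hre him
  have hlt : u.re * u.re + u.im * u.im < 1 := by
    have h3 : Complex.normSq u < 1 := by
      rw [Complex.normSq_eq_norm_sq]
      exact pow_lt_one₀ (norm_nonneg _) hn two_ne_zero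
    rwa [Complex.normSq_apply] at h3
  have him' : u.re * (2 * u.im - r) = 0 := by linarith
  have hr2 : r * r ≤ 4 := by
    have := abs_le.1 hr
    nlinarith [this.1, this.2]
  rcases mul_eq_zero.1 him' with h4 | h4
  · rw [h4] at hre hlt
    nlinarith [sq_nonneg (u.im - r / 2)]
  · have h5 : r = 2 * u.im := by linarith
    rw [h5] at hre
    nlinarith

/-- PROOF: `c⁻¹ = conj c`. -/
theorem kc_unit (h : ‖c‖ = 1) : kc c = ((2 * (c ^ 2).im : ℝ) : ℂ) := by
  have hn : ‖c ^ 2‖ = 1 := by rw [norm_pow, h, one_pow]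
  unfold kc
  rw [Complex.inv_eq_conj hn, Complex.sub_conj]
  have h1 : -Complex.I * (((2 * (c ^ 2).im : ℝ) : ℂ) * Complex.I) =
      (-(Complex.I * Complex.I)) * ((2 * (c ^ 2).im : ℝ) : ℂ) := by ring
  rw [h1, Complex.I_mul_I, neg_neg, one_mul]

/-- PROOF: `u = c²`, `u₀ = c₀²` have absolute value one, so `(re u)² = (re u₀)²` too and `u ∈ {u₀, -u₀, conj u₀, -conj u₀}`; take square roots (`c² = u₀` gives `c = ± c₀`, `c² = -u₀ = (i c₀)²` gives `c = ± i c₀`). -/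
theorem exists_I_pow (h : ‖c‖ = 1) (h0 : ‖c₀‖ = 1) (he : |(c ^ 2).im| = |(c₀ ^ 2).im|) :
    ∃ k : ℕ, c = Complex.I ^ k * c₀ ∨ c = Complex.I ^ k * conj c₀ := by
  have hn : ∀ z : ℂ, ‖z‖ = 1 → (z ^ 2).re * (z ^ 2).re + (z ^ 2).im * (z ^ 2).im = 1 := by
    intro z hz
    rw [← Complex.normSq_apply, Complex.normSq_eq_norm_sq, norm_pow, hz]
    norm_num
  have h1 := hn c h
  have h2 := hn c₀ h0
  have h3 : (c ^ 2).im = (c₀ ^ 2).im ∨ (c ^ 2).im = -(c₀ ^ 2).im := abs_eq_abs.1 he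
  have h4 : (c ^ 2).re = (c₀ ^ 2).re ∨ (c ^ 2).re = -(c₀ ^ 2).re := by
    apply mul_self_eq_mul_self_iff.1
    rcases h3 with h3 | h3 <;> rw [h3] at h1 <;> linarith
  have hI2 : Complex.I ^ 2 = -1 := Complex.I_sq
  have hI3 : Complex.I ^ 3 = -Complex.I := by rw [pow_succ, hI2]; ring
  have key : ∀ (a : ℂ), c ^ 2 = a ^ 2 → c = a ∨ c = Complex.I ^ 2 * a := by
    intro a ha
    rcases sq_eq_sq_iff_eq_or_eq_neg.1 ha with h5 | h5
    · exact Or.inl h5
    · right; rw [h5, hI2]; ring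
  have key' : ∀ (a : ℂ), c ^ 2 = -a ^ 2 → c = Complex.I ^ 1 * a ∨ c = Complex.I ^ 3 * a := by
    intro a ha
    have : c ^ 2 = (Complex.I * a) ^ 2 := by rw [mul_pow, hI2, ha]; ring
    rcases sq_eq_sq_iff_eq_or_eq_neg.1 this with h5 | h5
    · left; rw [h5, pow_one]
    · right; rw [h5, hI3]; ring
  have hcj : (conj c₀) ^ 2 = conj (c₀ ^ 2) := (map_pow _ _ _).symm
  rcases h3 with h3 | h3 <;> rcases h4 with h4 | h4
  · rcases key c₀ (Complex.ext h4 h3) with h5 | h5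
    · exact ⟨0, Or.inl (by rw [h5, pow_zero, one_mul])⟩
    · exact ⟨2, Or.inl h5⟩
  · have h6 : c ^ 2 = -(conj c₀) ^ 2 := by
      rw [hcj]
      apply Complex.ext
      · rw [h4, Complex.neg_re, Complex.conj_re]
      · rw [h3, Complex.neg_im, Complex.conj_im, neg_neg]
    rcases key' _ h6 with h5 | h5
    · exact ⟨1, Or.inr h5⟩
    · exact ⟨3, Or.inr h5⟩
  · have h6 : c ^ 2 = (conj c₀) ^ 2 := by
      rw [hcj]
      apply Complex.ext
      · rw [h4, Complex.conj_re]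
      · rw [h3, Complex.conj_im]
    rcases key _ h6 with h5 | h5
    · exact ⟨0, Or.inr (by rw [h5, pow_zero, one_mul])⟩
    · exact ⟨2, Or.inr h5⟩
  · have h6 : c ^ 2 = -c₀ ^ 2 := by
      apply Complex.ext
      · rw [h4, Complex.neg_re]
      · rw [h3, Complex.neg_im]
    rcases key' _ h6 with h5 | h5
    · exact ⟨1, Or.inl h5⟩
    · exact ⟨3, Or.inl h5⟩

/-- Conversely. -/
theorem abs_im_I_pow {k : ℕ} (h : c = Complex.I ^ k * c₀ ∨ c = Complex.I ^ k * conj c₀) :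
    |(c ^ 2).im| = |(c₀ ^ 2).im| := by
  have h1 : ∀ z : ℂ, ((Complex.I ^ k * z) ^ 2) = z ^ 2 ∨ ((Complex.I ^ k * z) ^ 2) = -z ^ 2 := by
    intro z
    have h2 : (Complex.I ^ k * z) ^ 2 = (-1) ^ k * z ^ 2 := by
      rw [mul_pow, ← pow_mul, mul_comm k 2, pow_mul, Complex.I_sq]
    rw [h2]
    rcases neg_one_pow_eq_or ℂ k with h3 | h3 <;> rw [h3]
    · left; ring
    · right; ring
  have h4 : ∀ z : ℂ, |((Complex.I ^ k * z) ^ 2).im| = |(z ^ 2).im| := by
    intro z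
    rcases h1 z with h2 | h2 <;> rw [h2]
    rw [Complex.neg_im, abs_neg]
  rcases h with h | h
  · rw [h, h4]
  · rw [h, h4, ← map_pow, Complex.conj_im, abs_neg]

/-- PROOF: `re (c²) = 0`. -/
theorem pow_four_eq_iff (h : ‖c‖ = 1) : c ^ 4 = -1 ↔ |(c ^ 2).im| = 1 := by
  have hn : (c ^ 2).re * (c ^ 2).re + (c ^ 2).im * (c ^ 2).im = 1 := by
    rw [← Complex.normSq_apply, Complex.normSq_eq_norm_sq, norm_pow, h]
    norm_num
  have h4 : c ^ 4 = c ^ 2 * c ^ 2 := by ring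
  rw [h4]
  generalize c ^ 2 = u at *
  constructor
  · intro h1
    have hre := congrArg Complex.re h1
    rw [Complex.mul_re, Complex.neg_re, Complex.one_re] at hre
    have h5 : u.im * u.im = 1 := by linarith
    have h6 : |u.im| * |u.im| = 1 := by rw [abs_mul_abs_self, h5]
    nlinarith [abs_nonneg u.im]
  · intro h1
    have h5 : u.im * u.im = 1 := by rw [← abs_mul_abs_self, h1, one_mul]
    have h6 : u.re = 0 := by
      have : u.re * u.re = 0 := by linarith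
      exact mul_self_eq_zero.1 this
    apply Complex.ext
    · rw [Complex.mul_re, Complex.neg_re, Complex.one_re, h6, h5]
      norm_num
    · rw [Complex.mul_im, Complex.neg_im, Complex.one_im, h6]
      ring

theorem sq_eq_of_pow_four (h : c ^ 4 = -1) : c ^ 2 = Complex.I ∨ c ^ 2 = -Complex.I := by
  apply sq_eq_sq_iff_eq_or_eq_neg.1
  rw [Complex.I_sq, ← h]
  ring

/-- `t = (1+s)/(1-s)`. -/
def tval (s : ℝ) : ℝ := (1 + s) / (1 - s)

lemma one_lt_tval {s : ℝ} (h0 : 0 < s) (h1 : s < 1) : 1 < tval s := by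
  unfold tval
  rw [one_lt_div (by linarith)]
  linarith

lemma tval_injOn : InjOn tval (Iio 1) := by
  intro s hs s' hs' he
  have h1 : (1 : ℝ) - s ≠ 0 := by
    have : s < 1 := hs
    linarith
  have h2 : (1 : ℝ) - s' ≠ 0 := by
    have : s' < 1 := hs'
    linarith
  unfold tval at he
  rw [div_eq_div_iff h1 h2] at he
  linarith

end Pool.Agent.Lib.MP_b9289b_nt
end
end

section

/-! (P02) Injectivity of `ψ` on the closed octagon. -/

open UpperHalfPlane Metric Set Filter Topology MatrixGroups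
open scoped ComplexConjugate

noncomputable section

namespace Pool.Agent.Lib.MP_b9289b_nt

variable {A : ℝ} {f : ℂ → ℂ} {ψ : ℍ → ℂ}

private lemma psi_eq_loc (h : IsPsi A f ψ) {g : SL(2, ℝ)} {Q' : Set ℂ} {m : ℕ} {ρ : ℝ} {H : ℂ → ℂ}
    (hL : LocExt (oct A) f g Q' m ρ H) {ζ : ℂ} (hζ : ζ ∈ ball (0 : ℂ) ρ)
    (hQ : g • toH ζ ∈ oct A) : ψ (g • toH ζ) = H ζ := by
  rw [h.eq _ hQ, hL.eq ζ hζ hQ]
  rfl

private lemma norm_lt_loc (h : IsPsi A f ψ) {g : SL(2, ℝ)} {Q' : Set ℂ} {m : ℕ} {ρ : ℝ}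
    {H : ℂ → ℂ} (hL : LocExt (oct A) f g Q' m ρ H) {ζ : ℂ} (hζ : ζ ∈ ball (0 : ℂ) ρ)
    (hQ : g • toH ζ ∈ oct A) : ‖H ζ‖ < 1 := by
  rw [← psi_eq_loc h hL hζ hQ]
  exact h.norm_lt hQ

private lemma norm_refl {g : SL(2, ℝ)} {Q' : Set ℂ} {m : ℕ} {ρ : ℝ}
    {H : ℂ → ℂ} (hL : LocExt (oct A) f g Q' m ρ H) {ζ : ℂ} (hζ : ζ ∈ ball (0 : ℂ) ρ) :
    ‖H (conj ζ)‖ = ‖H ζ‖⁻¹ := by
  rw [hL.refl ζ hζ, norm_inv, RCLike.norm_conj]

/-- points with `conj ζ = ζ` -/
private lemma norm_ge_of_inv {t : ℝ} (ht : 0 < t) (h : t⁻¹ = t) : 1 ≤ t := by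
  have h1 : t * t = 1 := by
    nth_rw 1 [← h]
    exact inv_mul_cancel₀ ht.ne'
  nlinarith

private lemma mem_ball_conj {ζ : ℂ} {ρ : ℝ} (h : ζ ∈ ball (0 : ℂ) ρ) : conj ζ ∈ ball (0 : ℂ) ρ := by
  rw [mem_ball_zero_iff] at h ⊢
  rwa [RCLike.norm_conj]

private lemma mem_ball_neg {ζ : ℂ} {ρ : ℝ} (h : ζ ∈ ball (0 : ℂ) ρ) : -ζ ∈ ball (0 : ℂ) ρ := by
  rw [mem_ball_zero_iff] at h ⊢
  rwa [norm_neg]

/-- PROOF: `ψ = hloc g H` near `y`. `H` is not constant near `0` (`LocExt.order`), so it is open: for every small `r ≤ ρ` the image of `ball 0 r` contains a neighbourhood of `H 0 = ψ y` (`AnalyticAt.eventually_constant_or_nhds_le_map_nhds`). Let `x = H ζ`, `‖ζ‖ < r`, `‖x‖ < 1`.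
m = 1: if `im ζ < 0` then `H ζ = (conj (H (conj ζ)))⁻¹` and `H (conj ζ) = f (..)` is in the disc (`g • toH (conj ζ) ∈ oct A` by `Chart.one`, as `ball 0 ρ ⊆ Q'`), so `‖x‖ > 1`; if `im ζ = 0` then `‖x‖ = 1` (`LocExt.refl`). So `im ζ > 0` and `z = g • toH ζ` is in `oct A`, `ψ z = f (cay z) = H ζ = x`, and `z` is near `y` if `r` is small.
m = 2: replacing `ζ` by `-ζ` we may assume `im ζ > 0`, or `im ζ = 0` (then `‖x‖ = 1`); if `re ζ = 0` then `conj ζ = -ζ`, so `‖x‖ = 1`; if `re ζ < 0 < im ζ` then `H ζ = (conj (H (-conj ζ)))⁻¹`, `-conj ζ` in the first quadrant, `‖x‖ > 1`. So `ζ` is in the first quadrant. -/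
theorem IsPsi.surj_near (h : IsPsi A f ψ) {y : ℍ} (hy : y ∈ closure (oct A)) (hy' : y ∉ oct A)
    {ε : ℝ} (hε : 0 < ε) : ∃ ε' : ℝ, 0 < ε' ∧ ∀ x : ℂ, ‖x‖ < 1 → ‖x - ψ y‖ < ε' →
      ∃ z ∈ oct A, dist z y < ε ∧ ψ z = x := by
  obtain ⟨g, Q', m, ρ, H, hC, hL, he, hm⟩ := h.exists_local hy hy'
  have hρ1 : ρ ≤ 1 := hL.rho_le_one hC
  have hψy : ψ y = H 0 := by
    rw [he.eq_of_nhds]
    unfold hloc
    have : g⁻¹ • y = I := by rw [← hC.smul, inv_smul_smul]
    rw [this, cay_I]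
  -- a small radius
  have hcont : ContinuousAt (fun ζ : ℂ => g • toH ζ) 0 := by
    have h1 : ContinuousAt toH (0 : ℂ) :=
      continuousOn_toH.continuousAt (ball_mem_nhds 0 one_pos)
    exact (continuous_const_smul g).continuousAt.comp h1
  have hc0 : g • toH 0 = y := by rw [toH_zero, hC.smul]
  have hev : ∀ᶠ ζ in 𝓝 (0 : ℂ), dist (g • toH ζ) y < ε := by
    have h1 := hcont.eventually (ball_mem_nhds (g • toH 0) hε)
    rw [hc0] at h1
    exact h1
  have hev2 : ∀ᶠ ζ in 𝓝 (0 : ℂ), ζ ∈ ball (0 : ℂ) ρ := ball_mem_nhds 0 hL.pos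
  obtain ⟨r, hr, hball⟩ := Metric.eventually_nhds_iff_ball.1 (hev.and hev2)
  -- `H` is open at `0`
  have hHa : AnalyticAt ℂ H 0 := (hL.diff.analyticOnNhd isOpen_ball) 0 (mem_ball_self hL.pos)
  have hopen : 𝓝 (H 0) ≤ Filter.map H (𝓝 0) := by
    rcases hHa.eventually_constant_or_nhds_le_map_nhds with h1 | h1
    · exfalso
      have h2 : analyticOrderAt (fun ζ => H ζ - H 0) 0 = ⊤ := by
        rw [analyticOrderAt_eq_top]
        filter_upwards [h1] with ζ hζ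
        rw [hζ, sub_self]
      rw [hL.order] at h2
      exact ENat.natCast_ne_top m h2
    · exact h1
  have himg : H '' ball (0 : ℂ) r ∈ 𝓝 (H 0) :=
    hopen (image_mem_map (ball_mem_nhds 0 hr))
  obtain ⟨ε', hε', hsub⟩ := Metric.mem_nhds_iff.1 himg
  refine ⟨ε', hε', fun x hx hxy => ?_⟩
  have hxm : x ∈ ball (H 0) ε' := by
    rw [mem_ball, dist_eq_norm, ← hψy]
    exact hxy
  obtain ⟨ζ, hζ, rfl⟩ := hsub hxm
  have hζρ : ζ ∈ ball (0 : ℂ) ρ := (hball ζ hζ).2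
  have hn : ∀ η ∈ ball (0 : ℂ) ρ, ‖η‖ < 1 := fun η hη => by
    rw [mem_ball_zero_iff] at hη
    exact lt_of_lt_of_le hη hρ1
  -- the final step
  have hfin : ∀ η ∈ ball (0 : ℂ) r, g • toH η ∈ oct A → H η = H ζ →
      ∃ z ∈ oct A, dist z y < ε ∧ ψ z = H ζ := by
    intro η hη hQ heq
    exact ⟨g • toH η, hQ, (hball η hη).1, by rw [psi_eq_loc h hL (hball η hη).2 hQ, heq]⟩
  -- points on the axes
  have haxis : ‖H (conj ζ)‖ ≠ ‖H ζ‖ := by
    intro h1
    rw [norm_refl hL hζρ] at h1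
    have h2 := norm_ge_of_inv (norm_pos_iff.2 (hL.ne ζ hζρ)) h1
    linarith
  have hrefl : ¬ ‖H (conj ζ)‖ < 1 := by
    intro h1
    rw [norm_refl hL hζρ] at h1
    have h2 : 0 < ‖H ζ‖ := norm_pos_iff.2 (hL.ne ζ hζρ)
    have h3 := (inv_lt_one₀ h2).1 h1
    linarith
  rcases hm with ⟨rfl, -⟩ | ⟨rfl, -⟩
  · have hone : ∀ η ∈ ball (0 : ℂ) ρ, 0 < η.im → g • toH η ∈ oct A := fun η hη him =>
      (hC.one rfl η (hn η hη)).2 ⟨hL.sub hη, him⟩
    rcases lt_trichotomy ζ.im 0 with h1 | h1 | h1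
    · exfalso
      refine hrefl (norm_lt_loc h hL (mem_ball_conj hζρ) (hone _ (mem_ball_conj hζρ) ?_))
      rw [Complex.conj_im]
      linarith
    · exfalso
      have h2 : conj ζ = ζ := Complex.conj_eq_iff_im.2 h1
      exact haxis (by rw [h2])
    · exact hfin ζ hζ (hone ζ hζρ h1) rfl
  · have htwo : ∀ η ∈ ball (0 : ℂ) ρ, 0 < η.im → 0 < η.re → g • toH η ∈ oct A :=
      fun η hη him hre => (hC.two rfl η (hn η hη)).2 ⟨hL.sub hη, him, hre⟩
    have hneg : ∀ η ∈ ball (0 : ℂ) ρ, H (-η) = H η := hL.neg rfl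
    rcases lt_trichotomy ζ.im 0 with h1 | h1 | h1
    · rcases lt_trichotomy ζ.re 0 with h2 | h2 | h2
      · refine hfin (-ζ) (mem_ball_neg hζ) (htwo _ (mem_ball_neg hζρ) ?_ ?_) (hneg ζ hζρ)
        · rw [Complex.neg_im]
          linarith
        · rw [Complex.neg_re]
          linarith
      · exfalso
        have h3 : conj ζ = -ζ := by
          apply Complex.ext
          · rw [Complex.conj_re, Complex.neg_re, h2, neg_zero]
          · rw [Complex.conj_im, Complex.neg_im]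
        exact haxis (by rw [h3, hneg ζ hζρ])
      · exfalso
        refine hrefl (norm_lt_loc h hL (mem_ball_conj hζρ) (htwo _ (mem_ball_conj hζρ) ?_ ?_))
        · rw [Complex.conj_im]
          linarith
        · rw [Complex.conj_re]
          exact h2
    · exfalso
      have h2 : conj ζ = ζ := Complex.conj_eq_iff_im.2 h1
      exact haxis (by rw [h2])
    · rcases lt_trichotomy ζ.re 0 with h2 | h2 | h2
      · exfalso
        refine hrefl ?_
        rw [← hneg _ (mem_ball_conj hζρ)]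
        refine norm_lt_loc h hL (mem_ball_neg (mem_ball_conj hζρ))
          (htwo _ (mem_ball_neg (mem_ball_conj hζρ)) ?_ ?_)
        · rw [Complex.neg_im, Complex.conj_im]
          linarith
        · rw [Complex.neg_re, Complex.conj_re]
          linarith
      · exfalso
        have h3 : conj ζ = -ζ := by
          apply Complex.ext
          · rw [Complex.conj_re, Complex.neg_re, h2, neg_zero]
          · rw [Complex.conj_im, Complex.neg_im]
        exact haxis (by rw [h3, hneg ζ hζρ])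
      · exact hfin ζ hζ (htwo ζ hζρ h1 h2) rfl

/-- PROOF: inside `ψ = f ∘ cay` is injective; `‖ψ‖ < 1` inside, `‖ψ‖ = 1` on the frontier. For two different frontier points `y₁, y₂` with the same value `c` take disjoint balls and (by `surj_near`) points `z₁ ≠ z₂` of `oct A` in these balls with the same value `x` (`‖x‖ < 1`, `x` near `c`, e.g. `x = (1 - η) c`); contradiction. -/
theorem IsPsi.injOn (h : IsPsi A f ψ) : InjOn ψ (closure (oct A)) := by
  have hin : ∀ z₁ ∈ oct A, ∀ z₂ ∈ oct A, ψ z₁ = ψ z₂ → z₁ = z₂ := by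
    intro z₁ h₁ z₂ h₂ he
    rw [h.eq z₁ h₁, h.eq z₂ h₂] at he
    exact cay_injective (h.rmap.inj h₁ h₂ he)
  intro y₁ hy₁ y₂ hy₂ he
  by_cases h₁ : y₁ ∈ oct A
  · by_cases h₂ : y₂ ∈ oct A
    · exact hin y₁ h₁ y₂ h₂ he
    · exfalso
      have e1 := h.norm_lt h₁
      have e2 := h.norm_eq hy₂ h₂
      rw [he, e2] at e1
      exact lt_irrefl 1 e1
  · by_cases h₂ : y₂ ∈ oct A
    · exfalso
      have e1 := h.norm_lt h₂
      have e2 := h.norm_eq hy₁ h₁
      rw [← he, e2] at e1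
      exact lt_irrefl 1 e1
    · by_contra hne
      have hd : 0 < dist y₁ y₂ := dist_pos.2 hne
      obtain ⟨a, ha, ha'⟩ := h.surj_near hy₁ h₁ (half_pos hd)
      obtain ⟨b, hb, hb'⟩ := h.surj_near hy₂ h₂ (half_pos hd)
      have hc : ‖ψ y₁‖ = 1 := h.norm_eq hy₁ h₁
      set η : ℝ := min (min a b) 1 / 2 with hη
      have hηpos : 0 < η := half_pos (lt_min (lt_min ha hb) one_pos)
      have hηa : η < a := by
        have : min (min a b) 1 ≤ a := (min_le_left _ _).trans (min_le_left _ _)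
        linarith
      have hηb : η < b := by
        have : min (min a b) 1 ≤ b := (min_le_left _ _).trans (min_le_right _ _)
        linarith
      have hη1 : η < 1 := by
        have : min (min a b) 1 ≤ 1 := min_le_right _ _
        linarith
      have hx1 : ‖((1 - η : ℝ) : ℂ) * ψ y₁‖ < 1 := by
        rw [norm_mul, hc, mul_one, Complex.norm_real, Real.norm_eq_abs, abs_of_pos (by linarith)]
        linarith
      have hx2 : ‖((1 - η : ℝ) : ℂ) * ψ y₁ - ψ y₁‖ = η := by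
        have e : ((1 - η : ℝ) : ℂ) * ψ y₁ - ψ y₁ = ((-η : ℝ) : ℂ) * ψ y₁ := by
          push_cast
          ring
        rw [e, norm_mul, hc, mul_one, Complex.norm_real, Real.norm_eq_abs, abs_neg,
          abs_of_pos hηpos]
      obtain ⟨z₁, hz₁, hd₁, e₁⟩ := ha' _ hx1 (by rw [hx2]; exact hηa)
      obtain ⟨z₂, hz₂, hd₂, e₂⟩ := hb' _ hx1 (by rw [← he, hx2]; exact hηb)
      have hz : z₁ = z₂ := hin z₁ hz₁ z₂ hz₂ (by rw [e₁, e₂])
      rw [← hz] at hd₂
      have htri := dist_triangle_left y₁ y₂ z₁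
      linarith

end Pool.Agent.Lib.MP_b9289b_nt
end
end

section

/-! (P04) The extension to the closed octagon in the disc. -/

open UpperHalfPlane Metric Set Filter Topology MatrixGroups
open scoped ComplexConjugate

noncomputable section

namespace Pool.Agent.Lib.MP_b9289b_nt

variable {A : ℝ} {f : ℂ → ℂ} {ψ : ℍ → ℂ}

private lemma p04_mem (h : IsPsi A f ψ) {ζ : ℂ} (hζ : ζ ∈ octC A) : toH ζ ∈ closure (oct A) := by
  rw [closure_oct h.ok, Set.mem_ofPred_eq, cay_toH hζ.1]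
  exact hζ

private lemma p04_rot {ζ : ℂ} (hζ : ‖ζ‖ < 1) :
    toH (Complex.I * ζ) = rotM (Real.pi / 2) • toH ζ := by
  apply cay_injective
  have h1 : ‖Complex.I * ζ‖ < 1 := by simpa using hζ
  rw [cay_toH h1, cay_rotM, cay_toH hζ]
  congr 1
  have : ((Real.pi / 2 : ℝ) : ℂ) * Complex.I = (Real.pi : ℂ) / 2 * Complex.I := by push_cast; ring
  rw [this, Complex.exp_pi_div_two_mul_I]

private lemma p04_conj {ζ : ℂ} (hζ : ‖ζ‖ < 1) : toH (conj ζ) = J • toH ζ := by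
  apply cay_injective
  have h1 : ‖conj ζ‖ < 1 := by simpa using hζ
  rw [cay_toH h1, cay_J, cay_toH hζ]

/-- PROOF: `closure_oct`, `continuousOn_toH`, `IsPsi.continuousAt`, `IsPsi.injOn`, `IsPsi.norm_eq`, `IsPsi.rot`, `IsPsi.refl` (`toH (i ζ) = rotM (π/2) • toH ζ` by `cay_rotM`, `cay_injective`; `toH (conj ζ) = J • toH ζ`). -/
theorem IsPsi.ext (h : IsPsi A f ψ) : Ext A f (fun ζ => ψ (toH ζ)) := by
  refine ⟨h.rmap, ?_, ?_, ?_, ?_, ?_, ?_⟩
  · intro ζ hζ
    have h1 : toH ζ ∈ oct A := by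
      show cay (toH ζ) ∈ octD A
      rw [cay_toH hζ.1]
      exact hζ
    show ψ (toH ζ) = f ζ
    rw [h.eq _ h1, cay_toH hζ.1]
  · intro ζ hζ
    have h1 : ContinuousWithinAt toH (octC A) ζ := by
      have h2 : ContinuousAt toH ζ :=
        continuousOn_toH.continuousAt (isOpen_ball.mem_nhds (by simpa using hζ.1))
      exact h2.continuousWithinAt
    exact (h.continuousAt (p04_mem h hζ)).comp_continuousWithinAt h1
  · intro ζ hζ ζ' hζ' he
    have h1 := h.injOn (p04_mem h hζ) (p04_mem h hζ') he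
    have h2 := congrArg cay h1
    rwa [cay_toH hζ.1, cay_toH hζ'.1] at h2
  · intro ζ hζ hζ'
    refine h.norm_eq (p04_mem h hζ) ?_
    intro h1
    have h2 : cay (toH ζ) ∈ octD A := h1
    rw [cay_toH hζ.1] at h2
    exact hζ' h2
  · intro ζ hζ
    show ψ (toH (Complex.I * ζ)) = Complex.I * ψ (toH ζ)
    rw [p04_rot hζ.1, h.rot (p04_mem h hζ)]
  · intro ζ hζ
    show ψ (toH (conj ζ)) = conj (ψ (toH ζ))
    rw [p04_conj hζ.1, h.refl (p04_mem h hζ)]

/-- The parameter. -/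
def sval (A : ℝ) (ψ : ℍ → ℂ) : ℝ := |((ψ (toH (corner A))) ^ 2).im|

lemma IsPsi.sval_pos (h : IsPsi A f ψ) : 0 < sval A ψ := h.ext.s_pos h.ok

lemma IsPsi.sval_lt (h : IsPsi A f ψ) : sval A ψ < 1 := h.ext.s_lt h.ok

private lemma p04_pow (h : IsPsi A f ψ) {ζ : ℂ} (hζ : ζ ∈ octC A) (k : ℕ) :
    Complex.I ^ k * ζ ∈ octC A ∧ ψ (toH (Complex.I ^ k * ζ)) = Complex.I ^ k * ψ (toH ζ) := by
  induction k with
  | zero => simpa using hζ
  | succ k ih =>
    obtain ⟨h1, h2⟩ := ih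
    have e : Complex.I ^ (k + 1) * ζ = Complex.I * (Complex.I ^ k * ζ) := by ring
    rw [e]
    refine ⟨I_mul_mem_octC.2 h1, ?_⟩
    have h3 : ψ (toH (Complex.I * (Complex.I ^ k * ζ))) =
        Complex.I * ψ (toH (Complex.I ^ k * ζ)) := h.ext.rot _ h1
    rw [h3, h2]
    ring

private lemma p04_corner {k : ℕ} {ζ : ℂ} (hc : IsCorner A ζ) :
    IsCorner A (Complex.I ^ k * ζ) := by
  induction k with
  | zero => simpa using hc
  | succ k ih =>
    have e : Complex.I ^ (k + 1) * ζ = Complex.I * (Complex.I ^ k * ζ) := by ring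
    rw [e]
    exact ih.I_mul

/-- The value of `ψ` at a corner. PROOF: `IsCorner.eq`, `IsPsi.rot`, `IsPsi.refl`. -/
theorem IsPsi.corner_val (h : IsPsi A f ψ) {y : ℍ} (hc : IsCorner A (cay y)) : ∃ k : ℕ,
    ψ y = Complex.I ^ k * ψ (toH (corner A)) ∨ ψ y = Complex.I ^ k * conj (ψ (toH (corner A))) := by
  have h0 := isCorner_corner h.ok
  obtain ⟨k, hk | hk⟩ := hc.eq h.ok
  · refine ⟨k, Or.inl ?_⟩
    rw [← (p04_pow h h0.1 k).2, ← hk, toH_cay]
  · refine ⟨k, Or.inr ?_⟩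
    have h1 : ψ (toH (conj (corner A))) = conj (ψ (toH (corner A))) := h.ext.refl _ h0.1
    rw [← h1, ← (p04_pow h h0.conj.1 k).2, ← hk, toH_cay]

/-- Conversely. PROOF: the point `y' = R^k • toH (corner A)` (resp. with `J`) is a corner with the same value; `IsPsi.injOn`. -/
theorem IsPsi.corner_of_val (h : IsPsi A f ψ) {y : ℍ} (hy : y ∈ closure (oct A)) {k : ℕ}
    (hv : ψ y = Complex.I ^ k * ψ (toH (corner A)) ∨
      ψ y = Complex.I ^ k * conj (ψ (toH (corner A)))) : IsCorner A (cay y) := by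
  have h0 := isCorner_corner h.ok
  have key : ∀ ζ : ℂ, IsCorner A ζ → ψ y = Complex.I ^ k * ψ (toH ζ) → IsCorner A (cay y) := by
    intro ζ hζ he
    obtain ⟨h1, h2⟩ := p04_pow h hζ.1 k
    rw [← h2] at he
    have h3 := h.injOn hy (p04_mem h h1) he
    rw [h3, cay_toH h1.1]
    exact p04_corner hζ
  rcases hv with hv | hv
  · exact key _ h0 hv
  · have h1 : ψ (toH (conj (corner A))) = conj (ψ (toH (corner A))) := h.ext.refl _ h0.1
    rw [← h1] at hv
    exact key _ h0.conj hv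

end Pool.Agent.Lib.MP_b9289b_nt
end
end
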