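import Pool.Agent.Lib.MP_b9289b_nt.Defs

section

/-!
# The field `Mer` of meromorphic functions on `ℍ`, with the action of `GL(2,ℝ)`
-/

open UpperHalfPlane Filter Topology MatrixGroups
open scoped ContDiff ComplexConjugate

noncomputable section

namespace Pool.Agent.Lib.MP_b9289b_nt

lemma mem_codiscrete_iff {S : Set ℍ} : S ∈ codiscrete ℍ ↔ ∀ z : ℍ, ∀ᶠ w in 𝓝[≠] z, w ∈ S := by
  rw [mem_codiscrete]
  refine forall_congr' fun z => ?_
  rw [disjoint_principal_right, compl_compl]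
  rfl

/-- Punctured neighbourhoods in `ℍ` and in `ℂ`. -/
lemma map_coe_nhdsNE (z : ℍ) : Filter.map ((↑) : ℍ → ℂ) (𝓝[≠] z) = 𝓝[≠] (z : ℂ) := by
  have h := isOpenEmbedding_coe.map_nhdsWithin_preimage_eq ({(z : ℂ)}ᶜ) z
  rw [← h]
  congr 2
  ext w
  simp

lemma eventually_nhdsNE_iff {z : ℍ} {p : ℂ → Prop} :
    (∀ᶠ w in 𝓝[≠] (z : ℂ), p w) ↔ ∀ᶠ w : ℍ in 𝓝[≠] z, p (w : ℂ) := by
  rw [← map_coe_nhdsNE, eventually_map]

lemma eventually_codiscrete_iff {p : ℍ → Prop} :
    (∀ᶠ z in codiscrete ℍ, p z) ↔ ∀ z : ℍ, ∀ᶠ w in 𝓝[≠] (z : ℂ), p (ofComplex w) := by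
  rw [Filter.Eventually, mem_codiscrete_iff]
  refine forall_congr' fun z => ?_
  rw [eventually_nhdsNE_iff]
  simp

/-- The action of `g` as a homeomorphism. -/
lemma tendsto_smul_nhdsNE (g : GL (Fin 2) ℝ) (z : ℍ) :
    Tendsto (fun w : ℍ => g • w) (𝓝[≠] z) (𝓝[≠] (g • z)) := by
  refine tendsto_nhdsWithin_of_tendsto_nhds_of_eventually_within _ ?_ ?_
  · exact ((continuous_const_smul g).tendsto z).mono_left nhdsWithin_le_nhds
  · filter_upwards [self_mem_nhdsWithin] with w hw h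
    exact hw (smul_left_cancel g h)

lemma tendsto_smul_codiscrete (g : GL (Fin 2) ℝ) :
    Tendsto (fun z : ℍ => g • z) (codiscrete ℍ) (codiscrete ℍ) := by
  intro S hS
  rw [mem_map, mem_codiscrete_iff]
  rw [mem_codiscrete_iff] at hS
  intro z
  exact (tendsto_smul_nhdsNE g z).eventually (hS (g • z))

lemma analyticAt_conj_conj {h : ℂ → ℂ} {x : ℂ} (hh : AnalyticAt ℂ h (conj x)) :
    AnalyticAt ℂ (fun z => conj (h (conj z))) x := by
  rw [Complex.analyticAt_iff_eventually_differentiableAt] at hh ⊢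
  have h1 : Tendsto (fun z : ℂ => conj z) (𝓝 x) (𝓝 (conj x)) :=
    Complex.continuous_conj.tendsto x
  filter_upwards [h1.eventually hh] with z hz
  have := hz.conj_conj
  simpa [Function.comp_def] using this

lemma meromorphicAt_conj_conj {h : ℂ → ℂ} {x : ℂ} (hh : MeromorphicAt h (conj x)) :
    MeromorphicAt (fun z => conj (h (conj z))) x := by
  obtain ⟨n, hn⟩ := hh
  refine ⟨n, ?_⟩
  refine (analyticAt_conj_conj hn).congr (Eventually.of_forall fun z => ?_)
  simp

lemma isConnected_uhp : IsConnected {z : ℂ | 0 < z.im} := by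
  have h := (isPreconnected_univ (α := ℍ)).image _ continuous_coe.continuousOn
  refine ⟨⟨Complex.I, by simp⟩, ?_⟩
  convert h using 1
  ext z
  constructor
  · intro hz; exact ⟨⟨z, hz⟩, trivial, rfl⟩
  · rintro ⟨w, -, rfl⟩; exact w.im_pos

namespace IsMero

variable {f g : ℍ → ℂ}

lemma const (c : ℂ) : IsMero (fun _ => c) := fun _ => MeromorphicAt.const c _

lemma add (hf : IsMero f) (hg : IsMero g) : IsMero (fun z => f z + g z) :=
  fun z => (hf z).add (hg z)

lemma mul (hf : IsMero f) (hg : IsMero g) : IsMero (fun z => f z * g z) :=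
  fun z => (hf z).mul (hg z)

lemma sub (hf : IsMero f) (hg : IsMero g) : IsMero (fun z => f z - g z) :=
  fun z => (hf z).sub (hg z)

lemma neg (hf : IsMero f) : IsMero (fun z => - f z) := fun z => (hf z).neg

lemma inv (hf : IsMero f) : IsMero (fun z => (f z)⁻¹) := fun z => (hf z).inv

lemma div (hf : IsMero f) (hg : IsMero g) : IsMero (fun z => f z / g z) :=
  fun z => (hf z).div (hg z)

lemma pow (hf : IsMero f) (n : ℕ) : IsMero (fun z => f z ^ n) := fun z => (hf z).pow n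

lemma zpow (hf : IsMero f) (n : ℤ) : IsMero (fun z => f z ^ n) := fun z => (hf z).zpow n

/-- composition with an element of positive determinant. -/
lemma smul_pos (hf : IsMero f) {g : GL (Fin 2) ℝ} (hg : 0 < g.val.det) :
    IsMero (fun z => f (g • z)) := by
  intro z
  have h1 := hf (g • z)
  have h2 := analyticAt_smul hg z
  have h3 : (fun z ↦ ((g • ofComplex z : ℍ) : ℂ) : ℂ → ℂ) (z : ℂ) = ((g • z : ℍ) : ℂ) := by simp
  rw [← h3] at h1
  refine (MeromorphicAt.comp_analyticAt (g := (fun z ↦ ((g • ofComplex z : ℍ) : ℂ) : ℂ → ℂ))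
    h1 h2).congr (Eventually.of_forall fun w => ?_)
  simp

lemma smul_J (hf : IsMero f) : IsMero (fun z => conj (f (J • z))) := by
  intro z
  have h1 := hf (J • z)
  rw [coe_J_smul] at h1
  have h2 : MeromorphicAt (fun w : ℂ => (↑ₕf) (-w)) (conj (z : ℂ)) := by
    exact MeromorphicAt.comp_analyticAt (f := fun w : ℂ => (↑ₕf) w) (g := fun w : ℂ => -w) h1
      (by fun_prop)
  refine (meromorphicAt_conj_conj h2).congr ?_
  have h3 : ∀ᶠ w in 𝓝[≠] (z : ℂ), 0 < w.im :=
    mem_nhdsWithin_of_mem_nhds (isOpen_upperHalfPlaneSet.mem_nhds z.im_pos)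
  filter_upwards [h3] with w hw
  simp only [Function.comp]
  congr 2
  have : -(conj w) = ((J • (⟨w, hw⟩ : ℍ) : ℍ) : ℂ) := by rw [coe_J_smul]
  rw [this, ofComplex_apply, ofComplex_apply_of_im_pos hw]

/-- composition with an element of `GL(2,ℝ)`; complex conjugation if the determinant is
negative. -/
lemma smul (hf : IsMero f) (g : GL (Fin 2) ℝ) : IsMero (fun z => σ g (f (g • z))) := by
  rcases lt_or_gt_of_ne g.det_ne_zero with hg | hg
  · have h1 : 0 < (J * g).val.det := by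
      rw [Units.val_mul, Matrix.det_mul]
      simpa using hg
    have h2 := smul_pos (smul_J hf) h1
    have h3 : ¬ (0 < g.det.val) := by simpa using hg.le
    refine fun z => (h2 z).congr (Eventually.of_forall fun w => ?_)
    simp only [Function.comp, σ, if_neg h3]
    rw [← mul_smul, ← mul_assoc, ← sq, J_sq, one_mul]
    rfl
  · have h3 : (0 < g.det.val) := by simpa using hg
    refine fun z => (smul_pos hf hg z).congr (Eventually.of_forall fun w => ?_)
    simp only [Function.comp, σ, if_pos h3]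
    rfl

/-- Identity theorem. -/
lemma order_ne_top (hf : IsMero f) {z₀ : ℍ} (h0 : ¬ ∀ᶠ w in 𝓝[≠] (z₀ : ℂ), (↑ₕf) w = 0)
    (z : ℍ) : meromorphicOrderAt (↑ₕf) (z : ℂ) ≠ ⊤ := by
  have h1 : MeromorphicOn (↑ₕf) {z : ℂ | 0 < z.im} := fun w hw => hf ⟨w, hw⟩
  refine h1.meromorphicOrderAt_ne_top_of_isPreconnected isConnected_uhp.isPreconnected
    (x := (z₀ : ℂ)) z₀.im_pos z.im_pos ?_
  rw [Ne, meromorphicOrderAt_eq_top_iff]
  exact h0

/-- Identity theorem. -/
lemma eventually_ne_zero' (hf : IsMero f) {z₀ : ℍ} (h0 : ¬ ∀ᶠ w in 𝓝[≠] (z₀ : ℂ), (↑ₕf) w = 0)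
    (z : ℍ) : ∀ᶠ w in 𝓝[≠] (z : ℂ), (↑ₕf) w ≠ 0 :=
  (meromorphicOrderAt_ne_top_iff_eventually_ne_zero (hf z)).1 (order_ne_top hf h0 z)

/-- Identity theorem: a meromorphic function which is not zero on a codiscrete set is nonzero
on a codiscrete set. -/
lemma eventually_ne_zero (hf : IsMero f)
    (h0 : ¬ ∀ᶠ z in codiscrete ℍ, f z = 0) : ∀ᶠ z in codiscrete ℍ, f z ≠ 0 := by
  rw [eventually_codiscrete_iff, not_forall] at h0
  obtain ⟨z₀, h0⟩ := h0
  rw [eventually_codiscrete_iff]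
  exact eventually_ne_zero' hf h0

/-- The derivative is meromorphic. -/
lemma deriv (hf : IsMero f) : IsMero (fun z => _root_.deriv (↑ₕf) (z : ℂ)) := by
  intro z
  refine (hf z).deriv.congr ?_
  have h3 : ∀ᶠ w in 𝓝[≠] (z : ℂ), 0 < w.im :=
    mem_nhdsWithin_of_mem_nhds (isOpen_upperHalfPlaneSet.mem_nhds z.im_pos)
  filter_upwards [h3] with w hw
  simp only [Function.comp]
  rw [ofComplex_apply_of_im_pos hw]

end IsMero

/-- The ring of meromorphic functions on `ℍ`; two functions are identified if they are equal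
outside a closed discrete set. -/
def MerRing : Subring (Germ (codiscrete ℍ) ℂ) where
  carrier := {F | ∃ f : ℍ → ℂ, IsMero f ∧ (f : Germ (codiscrete ℍ) ℂ) = F}
  mul_mem' := by
    rintro _ _ ⟨f, hf, rfl⟩ ⟨g, hg, rfl⟩
    exact ⟨f * g, hf.mul hg, rfl⟩
  one_mem' := ⟨1, IsMero.const 1, rfl⟩
  add_mem' := by
    rintro _ _ ⟨f, hf, rfl⟩ ⟨g, hg, rfl⟩
    exact ⟨f + g, hf.add hg, rfl⟩
  zero_mem' := ⟨0, IsMero.const 0, rfl⟩
  neg_mem' := by
    rintro _ ⟨f, hf, rfl⟩
    exact ⟨-f, hf.neg, rfl⟩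

/-- The field of meromorphic functions on `ℍ`. -/
def Mer : Type := ↥MerRing

namespace Mer

instance : CommRing Mer := inferInstanceAs (CommRing ↥MerRing)

/-- The element of `Mer` defined by a meromorphic function. -/
def mk (f : ℍ → ℂ) (hf : IsMero f) : Mer :=
  (⟨(f : Germ (codiscrete ℍ) ℂ), ⟨f, hf, rfl⟩⟩ : ↥MerRing)

variable {f g : ℍ → ℂ}

lemma mk_eq_mk {hf : IsMero f} {hg : IsMero g} :
    mk f hf = mk g hg ↔ ∀ᶠ z in codiscrete ℍ, f z = g z := by
  have h1 : mk f hf = mk g hg ↔ (f : Germ (codiscrete ℍ) ℂ) = (g : Germ (codiscrete ℍ) ℂ) :=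
    ⟨fun h => congrArg (fun x : ↥MerRing => x.1) h, fun h => Subtype.ext h⟩
  rw [h1, Germ.coe_eq]
  rfl

lemma exists_rep (F : Mer) : ∃ (f : ℍ → ℂ) (hf : IsMero f), mk f hf = F := by
  obtain ⟨_, f, hf, rfl⟩ := F
  exact ⟨f, hf, rfl⟩

/-- A representative. -/
def rep (F : Mer) : ℍ → ℂ := F.exists_rep.choose

lemma isMero_rep (F : Mer) : IsMero F.rep := F.exists_rep.choose_spec.choose

lemma mk_rep (F : Mer) : mk F.rep F.isMero_rep = F := F.exists_rep.choose_spec.choose_spec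

lemma rep_mk (hf : IsMero f) : ∀ᶠ z in codiscrete ℍ, (mk f hf).rep z = f z := by
  rw [← mk_eq_mk (hf := (mk f hf).isMero_rep) (hg := hf)]
  exact mk_rep _

lemma mk_add (hf : IsMero f) (hg : IsMero g) :
    mk f hf + mk g hg = mk (fun z => f z + g z) (hf.add hg) := rfl

lemma mk_mul (hf : IsMero f) (hg : IsMero g) :
    mk f hf * mk g hg = mk (fun z => f z * g z) (hf.mul hg) := rfl

lemma mk_sub (hf : IsMero f) (hg : IsMero g) :
    mk f hf - mk g hg = mk (fun z => f z - g z) (hf.sub hg) := rfl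

lemma mk_neg (hf : IsMero f) : - mk f hf = mk (fun z => - f z) hf.neg := rfl

/-- Constants. -/
def cst : ℂ →+* Mer where
  toFun c := mk (fun _ => c) (IsMero.const c)
  map_one' := rfl
  map_mul' _ _ := rfl
  map_zero' := rfl
  map_add' _ _ := rfl

lemma cst_eq (c : ℂ) : cst c = mk (fun _ => c) (IsMero.const c) := rfl

lemma zero_eq : (0 : Mer) = mk (fun _ => 0) (IsMero.const 0) := rfl

lemma one_eq : (1 : Mer) = mk (fun _ => 1) (IsMero.const 1) := rfl

/-- The inverse of a meromorphic function. -/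
def invFun (F : Mer) : Mer := mk (fun z => (F.rep z)⁻¹) F.isMero_rep.inv

lemma invFun_mk (hf : IsMero f) :
    invFun (mk f hf) = mk (fun z => (f z)⁻¹) hf.inv := by
  unfold invFun
  rw [mk_eq_mk]
  filter_upwards [rep_mk hf] with z hz
  rw [hz]

instance : Nontrivial Mer := by
  refine ⟨0, 1, fun h => ?_⟩
  rw [zero_eq, one_eq, mk_eq_mk, eventually_codiscrete_iff] at h
  have h2 := (h I).exists
  simp at h2

instance : Field Mer where
  inv := invFun
  mul_inv_cancel := by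
    intro F hF
    obtain ⟨f, hf, rfl⟩ := exists_rep F
    change mk f hf * invFun (mk f hf) = 1
    rw [zero_eq, Ne, mk_eq_mk] at hF
    rw [invFun_mk, mk_mul, one_eq, mk_eq_mk]
    filter_upwards [hf.eventually_ne_zero hF] with z hz
    exact mul_inv_cancel₀ hz
  inv_zero := by
    change invFun 0 = 0
    rw [zero_eq, invFun_mk, mk_eq_mk]
    simp
  nnqsmul := _
  nnqsmul_def := fun _ _ => rfl
  qsmul := _
  qsmul_def := fun _ _ => rfl

lemma mk_inv (hf : IsMero f) : (mk f hf)⁻¹ = mk (fun z => (f z)⁻¹) hf.inv := invFun_mk hf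

lemma mk_div (hf : IsMero f) (hg : IsMero g) :
    mk f hf / mk g hg = mk (fun z => f z / g z) (hf.div hg) := by
  rw [div_eq_mul_inv, mk_inv, mk_mul, mk_eq_mk]
  exact Eventually.of_forall fun z => (div_eq_mul_inv _ _).symm

/-- The order at a point. -/
def ord (z : ℍ) (F : Mer) : WithTop ℤ := meromorphicOrderAt (↑ₕF.rep) (z : ℂ)

lemma ord_mk (z : ℍ) (hf : IsMero f) : ord z (mk f hf) = meromorphicOrderAt (↑ₕf) (z : ℂ) := by
  have h := rep_mk hf
  rw [eventually_codiscrete_iff] at h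
  exact meromorphicOrderAt_congr (h z)

/-- Auxiliary: the action of `GL(2,ℝ)`. -/
def actFun (g : GL (Fin 2) ℝ) (F : Mer) : Mer :=
  mk (fun z => σ g (F.rep (g • z))) (F.isMero_rep.smul g)

lemma actFun_mk (g : GL (Fin 2) ℝ) {f : ℍ → ℂ} (hf : IsMero f) :
    actFun g (mk f hf) = mk (fun z => σ g (f (g • z))) (hf.smul g) := by
  unfold actFun
  rw [mk_eq_mk]
  filter_upwards [(tendsto_smul_codiscrete g).eventually (rep_mk hf)] with z hz
  rw [hz]

/-- The action of `GL(2,ℝ)` on meromorphic functions: `F ↦ F ∘ g` if `0 < det g`, and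
`F ↦ conj (F ∘ g)` if `det g < 0`. -/
def act (g : GL (Fin 2) ℝ) : Mer →+* Mer where
  toFun := actFun g
  map_one' := by
    rw [one_eq, actFun_mk, mk_eq_mk]
    simp
  map_mul' F G := by
    obtain ⟨f, hf, rfl⟩ := exists_rep F
    obtain ⟨g, hg, rfl⟩ := exists_rep G
    simp only [mk_mul, actFun_mk, map_mul]
  map_zero' := by
    rw [zero_eq, actFun_mk, mk_eq_mk]
    simp
  map_add' F G := by
    obtain ⟨f, hf, rfl⟩ := exists_rep F
    obtain ⟨g, hg, rfl⟩ := exists_rep G
    simp only [mk_add, actFun_mk, map_add]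

lemma act_mk (g : GL (Fin 2) ℝ) {f : ℍ → ℂ} (hf : IsMero f) :
    act g (mk f hf) = mk (fun z => σ g (f (g • z))) (hf.smul g) := actFun_mk g hf

/-- The derivative of a meromorphic function. -/
def der (F : Mer) : Mer := mk (fun z => deriv (↑ₕF.rep) (z : ℂ)) F.isMero_rep.deriv

lemma der_mk {f : ℍ → ℂ} (hf : IsMero f) :
    der (mk f hf) = mk (fun z => deriv (↑ₕf) (z : ℂ)) hf.deriv := by
  unfold der
  rw [mk_eq_mk, eventually_codiscrete_iff]
  intro z
  have h := rep_mk hf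
  rw [eventually_codiscrete_iff] at h
  have h1 := h z
  have h3 : ∀ᶠ w in 𝓝[≠] (z : ℂ), 0 < w.im :=
    mem_nhdsWithin_of_mem_nhds (isOpen_upperHalfPlaneSet.mem_nhds z.im_pos)
  have h2 : ∀ᶠ w in 𝓝[≠] (z : ℂ), ∀ᶠ v in 𝓝 w, (↑ₕ(mk f hf).rep) v = (↑ₕf) v := by
    rw [eventually_nhdsWithin_iff] at h1
    obtain ⟨U, hU, hUo, hzU⟩ := eventually_nhds_iff.1 h1
    rw [eventually_nhdsWithin_iff]
    filter_upwards [hUo.mem_nhds hzU] with w hw hwz
    filter_upwards [hUo.mem_nhds hw, isOpen_ne.mem_nhds hwz] with v hv hvz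
    exact hU v hv hvz
  filter_upwards [h2, h3] with w hw hw3
  rw [ofComplex_apply_of_im_pos hw3]
  exact Filter.EventuallyEq.deriv_eq hw

end Mer

/-- The `Γ`-invariant elements of `Mer`. -/
def Kf (Γ : Subgroup SL(2, ℝ)) : Subfield Mer where
  carrier := {F | ∀ γ ∈ Γ, Mer.act (γ : GL (Fin 2) ℝ) F = F}
  mul_mem' := fun ha hb γ hγ => by rw [map_mul, ha γ hγ, hb γ hγ]
  one_mem' := fun γ _ => map_one _
  add_mem' := fun ha hb γ hγ => by rw [map_add, ha γ hγ, hb γ hγ]
  zero_mem' := fun γ _ => map_zero _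
  neg_mem' := fun ha γ hγ => by rw [map_neg, ha γ hγ]
  inv_mem' := fun F ha γ hγ => by rw [map_inv₀, ha γ hγ]

lemma mem_Kf {Γ : Subgroup SL(2, ℝ)} {F : Mer} :
    F ∈ Kf Γ ↔ ∀ γ ∈ Γ, Mer.act (γ : GL (Fin 2) ℝ) F = F := Iff.rfl

end Pool.Agent.Lib.MP_b9289b_nt
end
end

section

/-!
# The action on `Mer`: first properties, stabilisers
-/

open UpperHalfPlane Filter Topology MatrixGroups
open scoped ContDiff ComplexConjugate

noncomputable section

namespace Pool.Agent.Lib.MP_b9289b_nt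

namespace Mer

lemma act_one (F : Mer) : act 1 F = F := by
  obtain ⟨f, hf, rfl⟩ := exists_rep F
  rw [act_mk, mk_eq_mk]
  refine Eventually.of_forall fun z => ?_
  rw [one_smul, σ, if_pos (by simp)]
  rfl

lemma act_mul (g h : GL (Fin 2) ℝ) (F : Mer) : act (g * h) F = act h (act g F) := by
  obtain ⟨f, hf, rfl⟩ := exists_rep F
  rw [act_mk, act_mk, act_mk, mk_eq_mk]
  refine Eventually.of_forall fun z => ?_
  rw [mul_smul, σ_mul, σ_mul_comm]

lemma act_cst (g : GL (Fin 2) ℝ) (c : ℂ) : act g (cst c) = cst (σ g c) := by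
  rw [cst_eq, act_mk]
  rfl

lemma act_cst_sl (g : SL(2, ℝ)) (c : ℂ) : act (g : GL (Fin 2) ℝ) (cst c) = cst c := by
  rw [act_cst, σ, if_pos (by simp)]
  rfl

lemma act_inv_act (g : GL (Fin 2) ℝ) (F : Mer) : act g⁻¹ (act g F) = F := by
  rw [← act_mul, mul_inv_cancel, act_one]

lemma act_act_inv (g : GL (Fin 2) ℝ) (F : Mer) : act g (act g⁻¹ F) = F := by
  rw [← act_mul, inv_mul_cancel, act_one]

/-- The action of `SL(2,ℝ)` on `Mer`. -/
def actS (g : SL(2, ℝ)) : Mer →+* Mer := act (g : GL (Fin 2) ℝ)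

lemma actS_def (g : SL(2, ℝ)) (F : Mer) : actS g F = act (g : GL (Fin 2) ℝ) F := rfl

lemma actS_one (F : Mer) : actS 1 F = F := by
  rw [actS_def, map_one, act_one]

lemma actS_mul (g h : SL(2, ℝ)) (F : Mer) : actS (g * h) F = actS h (actS g F) := by
  rw [actS_def, map_mul, act_mul]
  rfl

lemma actS_cst (g : SL(2, ℝ)) (c : ℂ) : actS g (cst c) = cst c := act_cst_sl g c

lemma actS_mk (g : SL(2, ℝ)) {f : ℍ → ℂ} (hf : IsMero f) :
    actS g (mk f hf) = mk (fun z => f (g • z)) (hf.smul_pos (by simp)) := by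
  rw [actS_def, act_mk, mk_eq_mk]
  refine Eventually.of_forall fun z => ?_
  rw [σ, if_pos (by simp)]
  rfl

end Mer

/-- The group of all `γ ∈ SL(2,ℝ)` fixing all functions in `T`. -/
def fixer (T : Set Mer) : Subgroup SL(2, ℝ) where
  carrier := {γ | ∀ F ∈ T, Mer.actS γ F = F}
  mul_mem' := fun ha hb F hF => by rw [Mer.actS_mul, ha F hF, hb F hF]
  one_mem' := fun F _ => Mer.actS_one F
  inv_mem' := fun {γ} ha F hF => by
    have h := Mer.actS_mul γ γ⁻¹ F
    rw [mul_inv_cancel, Mer.actS_one, ha F hF] at h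
    exact h.symm

lemma mem_fixer {T : Set Mer} {γ : SL(2, ℝ)} : γ ∈ fixer T ↔ ∀ F ∈ T, Mer.actS γ F = F := Iff.rfl

lemma mem_Kf' {Γ : Subgroup SL(2, ℝ)} {F : Mer} : F ∈ Kf Γ ↔ ∀ γ ∈ Γ, Mer.actS γ F = F := Iff.rfl

end Pool.Agent.Lib.MP_b9289b_nt
end
end

section

/-!
# M01: rules for the order of a meromorphic function
All of these follow from `ord_mk` and Mathlib's `meromorphicOrderAt_*` lemmas
(file `Mathlib/Analysis/Meromorphic/Order.lean`): take representatives with `Mer.exists_rep`.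
`ord_eq_top_iff` is the identity theorem `IsMero.eventually_ne_zero'` of `MerDefs.lean`.
-/

open UpperHalfPlane Filter Topology MatrixGroups
open scoped ContDiff ComplexConjugate

noncomputable section

namespace Pool.Agent.Lib.MP_b9289b_nt

namespace Mer

variable (z : ℍ) (F G : Mer)

lemma ord_mul : ord z (F * G) = ord z F + ord z G := by
  obtain ⟨f, hf, rfl⟩ := exists_rep F
  obtain ⟨g, hg, rfl⟩ := exists_rep G
  rw [mk_mul, ord_mk, ord_mk, ord_mk]
  exact meromorphicOrderAt_mul (hf z) (hg z)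

lemma ord_inv : ord z F⁻¹ = -ord z F := by
  obtain ⟨f, hf, rfl⟩ := exists_rep F
  rw [mk_inv, ord_mk, ord_mk]
  exact meromorphicOrderAt_inv

lemma ord_div : ord z (F / G) = ord z F - ord z G := by
  rw [div_eq_mul_inv, ord_mul, ord_inv, sub_eq_add_neg]

lemma ord_zero : ord z 0 = ⊤ := by
  rw [zero_eq, ord_mk, meromorphicOrderAt_eq_top_iff]
  exact Eventually.of_forall fun _ => rfl

lemma ord_cst {c : ℂ} (hc : c ≠ 0) : ord z (cst c) = 0 := by
  classical
  rw [cst_eq, ord_mk]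
  have h := meromorphicOrderAt_const (𝕜 := ℂ) (z : ℂ) c
  rw [if_neg hc] at h
  exact h

lemma ord_one : ord z 1 = 0 := by
  rw [← map_one cst]
  exact ord_cst z one_ne_zero

private lemma mk_pow' {f : ℍ → ℂ} (hf : IsMero f) (n : ℕ) :
    mk f hf ^ n = mk (fun z => f z ^ n) (hf.pow n) := by
  induction n with
  | zero =>
    rw [pow_zero, one_eq, mk_eq_mk]
    exact Eventually.of_forall fun z => (pow_zero _).symm
  | succ n ih =>
    rw [pow_succ, ih, mk_mul, mk_eq_mk]
    exact Eventually.of_forall fun z => (pow_succ _ _).symm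

lemma ord_pow (n : ℕ) : ord z (F ^ n) = (n : WithTop ℤ) * ord z F := by
  obtain ⟨f, hf, rfl⟩ := exists_rep F
  rw [mk_pow', ord_mk, ord_mk]
  exact meromorphicOrderAt_pow (hf z)

private lemma mk_zpow' {f : ℍ → ℂ} (hf : IsMero f) (n : ℤ) :
    mk f hf ^ n = mk (fun z => f z ^ n) (hf.zpow n) := by
  cases n with
  | ofNat n =>
    rw [Int.ofNat_eq_natCast, zpow_natCast, mk_pow', mk_eq_mk]
    exact Eventually.of_forall fun z => (zpow_natCast _ _).symm
  | negSucc n =>
    rw [zpow_negSucc, mk_pow', mk_inv, mk_eq_mk]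
    exact Eventually.of_forall fun z => (zpow_negSucc _ _).symm

lemma ord_zpow (n : ℤ) : ord z (F ^ n) = (n : WithTop ℤ) * ord z F := by
  obtain ⟨f, hf, rfl⟩ := exists_rep F
  rw [mk_zpow', ord_mk, ord_mk]
  exact meromorphicOrderAt_zpow (hf z)

lemma ord_neg : ord z (-F) = ord z F := by
  obtain ⟨f, hf, rfl⟩ := exists_rep F
  rw [mk_neg, ord_mk, ord_mk]
  exact (meromorphicOrderAt_neg (f := ↑ₕf)).symm

lemma ord_cst_mul {c : ℂ} (hc : c ≠ 0) : ord z (cst c * F) = ord z F := by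
  rw [ord_mul, ord_cst z hc, zero_add]

variable {z F G}

/-- Identity theorem: a function vanishing to infinite order at one point is zero. -/
lemma ord_eq_top_iff : ord z F = ⊤ ↔ F = 0 := by
  constructor
  · intro h
    obtain ⟨f, hf, rfl⟩ := exists_rep F
    rw [ord_mk, meromorphicOrderAt_eq_top_iff] at h
    rw [zero_eq, mk_eq_mk, eventually_codiscrete_iff]
    by_contra hne
    rw [not_forall] at hne
    obtain ⟨w, hw⟩ := hne
    have h1 := hf.eventually_ne_zero' hw z
    have h2 := (h.and h1).exists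
    obtain ⟨u, hu1, hu2⟩ := h2
    exact hu2 hu1
  · rintro rfl
    exact ord_zero z

lemma exists_ord (hF : F ≠ 0) : ∃ n : ℤ, ord z F = (n : WithTop ℤ) := by
  have h : ord z F ≠ ⊤ := fun h => hF (ord_eq_top_iff.1 h)
  obtain ⟨n, hn⟩ := WithTop.ne_top_iff_exists.1 h
  exact ⟨n, hn.symm⟩

lemma le_ord_add : min (ord z F) (ord z G) ≤ ord z (F + G) := by
  obtain ⟨f, hf, rfl⟩ := exists_rep F
  obtain ⟨g, hg, rfl⟩ := exists_rep G
  rw [mk_add, ord_mk, ord_mk, ord_mk]
  exact meromorphicOrderAt_add (hf z) (hg z)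

lemma ord_add_of_lt (h : ord z F < ord z G) : ord z (F + G) = ord z F := by
  obtain ⟨f, hf, rfl⟩ := exists_rep F
  obtain ⟨g, hg, rfl⟩ := exists_rep G
  rw [ord_mk, ord_mk] at h
  rw [mk_add, ord_mk, ord_mk]
  exact meromorphicOrderAt_add_eq_left_of_lt (hg z) h

lemma ord_sub_of_lt (h : ord z F < ord z G) : ord z (F - G) = ord z F := by
  rw [sub_eq_add_neg]
  exact ord_add_of_lt (by rwa [ord_neg])

lemma ord_sub_comm : ord z (F - G) = ord z (G - F) := by
  rw [← ord_neg, neg_sub]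

end Mer

end Pool.Agent.Lib.MP_b9289b_nt
end
end

section

/-!
# M02: values of meromorphic functions
`HasVal z F c` says that `F` is holomorphic at `z` with `F z = c`.
Proofs: from `M01` (e.g. `F * G - c * d = F * (G - d) + d * (F - c)`); `exists_val` from
`tendsto_nhds_of_meromorphicOrderAt_nonneg` or `MeromorphicAt.meromorphicOrderAt_nonneg_iff`
and `tendsto_zero_iff_meromorphicOrderAt_pos`.
-/

open UpperHalfPlane Filter Topology MatrixGroups
open scoped ContDiff ComplexConjugate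

noncomputable section

namespace Pool.Agent.Lib.MP_b9289b_nt

namespace Mer

lemma cst_injective : Function.Injective cst := cst.injective

/-- `F` is holomorphic at `z` with value `c`. -/
def HasVal (z : ℍ) (F : Mer) (c : ℂ) : Prop := 0 < ord z (F - cst c)

variable {z : ℍ} {F G : Mer} {c d : ℂ}

private lemma ord_cst_nonneg (z : ℍ) (c : ℂ) : 0 ≤ ord z (cst c) := by
  by_cases hc : c = 0
  · rw [hc, map_zero, ord_zero]; exact le_top
  · rw [ord_cst z hc]

lemma exists_val (h : 0 ≤ ord z F) : ∃ c, HasVal z F c := by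
  obtain ⟨f, hf, rfl⟩ := exists_rep F
  rw [ord_mk] at h
  obtain ⟨c, hc⟩ := tendsto_nhds_of_meromorphicOrderAt_nonneg (hf z) h
  refine ⟨c, ?_⟩
  unfold HasVal
  rw [cst_eq, mk_sub, ord_mk]
  refine (tendsto_zero_iff_meromorphicOrderAt_pos ((hf.sub (IsMero.const c)) z)).1 ?_
  have h1 := hc.sub_const c
  rw [sub_self] at h1
  exact h1

lemma HasVal.ord_nonneg (h : HasVal z F c) : 0 ≤ ord z F := by
  have h1 : F = (F - cst c) + cst c := by ring
  rw [h1]
  exact le_trans (le_min (le_of_lt h) (ord_cst_nonneg z c)) le_ord_add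

lemma HasVal.unique (h : HasVal z F c) (h' : HasVal z F d) : c = d := by
  by_contra hne
  have h1 : cst (d - c) = (F - cst c) - (F - cst d) := by rw [map_sub]; ring
  have h2 : 0 < ord z (cst (d - c)) := by
    rw [h1, sub_eq_add_neg]
    refine lt_of_lt_of_le (lt_min h ?_) le_ord_add
    rw [ord_neg]; exact h'
  rw [ord_cst z (sub_ne_zero.2 (Ne.symm hne))] at h2
  exact lt_irrefl _ h2

lemma hasVal_zero_iff : HasVal z F 0 ↔ 0 < ord z F := by
  unfold HasVal
  rw [map_zero, sub_zero]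

lemma HasVal.ord_eq_zero (h : HasVal z F c) (hc : c ≠ 0) : ord z F = 0 := by
  have h1 : F = cst c + (F - cst c) := by ring
  have h2 : ord z (cst c) < ord z (F - cst c) := by
    rw [ord_cst z hc]; exact h
  rw [h1, ord_add_of_lt h2, ord_cst z hc]

/-- the order of `F - d` at a point where the value of `F` is `c ≠ d`. -/
lemma HasVal.ord_sub (h : HasVal z F c) (hc : c ≠ d) : ord z (F - cst d) = 0 := by
  refine HasVal.ord_eq_zero (c := c - d) ?_ (sub_ne_zero.2 hc)
  unfold HasVal at h ⊢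
  have h1 : F - cst d - cst (c - d) = F - cst c := by rw [map_sub]; ring
  rw [h1]; exact h

lemma hasVal_cst : HasVal z (cst c) c := by
  unfold HasVal
  rw [sub_self, ord_zero]
  exact WithTop.coe_lt_top 0

lemma HasVal.add (h : HasVal z F c) (h' : HasVal z G d) : HasVal z (F + G) (c + d) := by
  unfold HasVal at h h' ⊢
  have h1 : F + G - cst (c + d) = (F - cst c) + (G - cst d) := by rw [map_add]; ring
  rw [h1]
  exact lt_of_lt_of_le (lt_min h h') le_ord_add

lemma HasVal.neg (h : HasVal z F c) : HasVal z (-F) (-c) := by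
  unfold HasVal at h ⊢
  have h1 : -F - cst (-c) = -(F - cst c) := by rw [map_neg]; ring
  rw [h1, ord_neg]; exact h

lemma HasVal.sub (h : HasVal z F c) (h' : HasVal z G d) : HasVal z (F - G) (c - d) := by
  rw [sub_eq_add_neg, sub_eq_add_neg]
  exact h.add h'.neg

private lemma mul_pos_of {F G : Mer} (h : 0 ≤ ord z F) (h' : 0 < ord z G) :
    0 < ord z (F * G) := by
  rw [ord_mul]
  exact lt_of_lt_of_le h' (by
    have h1 : 0 + ord z G ≤ ord z F + ord z G := by gcongr
    rwa [zero_add] at h1)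

lemma HasVal.mul (h : HasVal z F c) (h' : HasVal z G d) : HasVal z (F * G) (c * d) := by
  have hF := h.ord_nonneg
  unfold HasVal at h h' ⊢
  have h1 : F * G - cst (c * d) = F * (G - cst d) + cst d * (F - cst c) := by
    rw [map_mul]; ring
  rw [h1]
  exact lt_of_lt_of_le (lt_min (mul_pos_of hF h') (mul_pos_of (ord_cst_nonneg z d) h)) le_ord_add

lemma HasVal.inv (h : HasVal z F c) (hc : c ≠ 0) : HasVal z F⁻¹ c⁻¹ := by
  have hF := h.ord_eq_zero hc
  have hF0 : F ≠ 0 := by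
    rintro rfl
    rw [ord_zero] at hF
    exact absurd hF (WithTop.top_ne_coe (a := 0))
  have hc0 : cst c ≠ 0 := by
    intro h0
    exact hc (cst_injective (h0.trans (map_zero cst).symm))
  unfold HasVal at h ⊢
  have h1 : F⁻¹ - cst c⁻¹ = -(F⁻¹ * cst c⁻¹ * (F - cst c)) := by
    rw [map_inv₀]
    field_simp
    ring
  rw [h1, ord_neg]
  refine mul_pos_of ?_ h
  rw [ord_mul, ord_inv, hF, neg_zero, zero_add]
  exact ord_cst_nonneg z _

lemma HasVal.pow (h : HasVal z F c) (n : ℕ) : HasVal z (F ^ n) (c ^ n) := by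
  induction n with
  | zero =>
    rw [pow_zero, pow_zero, ← map_one cst]
    exact hasVal_cst
  | succ n ih =>
    rw [pow_succ, pow_succ]
    exact ih.mul h

end Mer

end Pool.Agent.Lib.MP_b9289b_nt
end
end

section

/-!
# M03: order and value under the action of `GL(2,ℝ)`
For `0 < det g` this is Mathlib's `UpperHalfPlane.meromorphicOrderAt_comp_smul`; for `det g < 0`
write `g = J * (J * g)` (`J_sq`), so that by `act_mul` it remains to treat `J`, i.e.
`meromorphicOrderAt (fun z => conj (h (-conj z))) z = meromorphicOrderAt h (-conj z)`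
(e.g. with `meromorphicOrderAt_eq_int_iff` and `analyticAt_conj_conj`, `meromorphicAt_conj_conj`
of `MerDefs.lean`).
-/

open UpperHalfPlane Filter Topology MatrixGroups
open scoped ContDiff ComplexConjugate

noncomputable section

namespace Pool.Agent.Lib.MP_b9289b_nt

private lemma tendsto_conj_nhdsNE (x : ℂ) :
    Tendsto (fun z : ℂ => conj z) (𝓝[≠] x) (𝓝[≠] (conj x)) := by
  refine tendsto_nhdsWithin_of_tendsto_nhds_of_eventually_within _ ?_ ?_
  · exact (Complex.continuous_conj.tendsto x).mono_left nhdsWithin_le_nhds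
  · filter_upwards [self_mem_nhdsWithin] with w hw h
    exact hw ((starRingEnd ℂ).injective h)

private lemma order_conj_conj {h : ℂ → ℂ} {x : ℂ} (hh : MeromorphicAt h (conj x)) :
    meromorphicOrderAt (fun z => conj (h (conj z))) x = meromorphicOrderAt h (conj x) := by
  rcases eq_or_ne (meromorphicOrderAt h (conj x)) ⊤ with h0 | h0
  · rw [h0, meromorphicOrderAt_eq_top_iff]
    rw [meromorphicOrderAt_eq_top_iff] at h0
    filter_upwards [(tendsto_conj_nhdsNE x).eventually h0] with w hw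
    rw [hw, map_zero]
  · obtain ⟨n, hn⟩ := WithTop.ne_top_iff_exists.1 h0
    rw [← hn, meromorphicOrderAt_eq_int_iff (meromorphicAt_conj_conj hh)]
    obtain ⟨g, hg, hg0, hgh⟩ := (meromorphicOrderAt_eq_int_iff hh).1 hn.symm
    refine ⟨fun z => conj (g (conj z)), analyticAt_conj_conj hg, ?_, ?_⟩
    · simpa using hg0
    · filter_upwards [(tendsto_conj_nhdsNE x).eventually hgh] with w hw
      rw [hw]
      simp

private lemma tendsto_neg_nhdsNE (x : ℂ) :
    Tendsto (fun z : ℂ => -z) (𝓝[≠] x) (𝓝[≠] (-x)) := by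
  refine tendsto_nhdsWithin_of_tendsto_nhds_of_eventually_within _ ?_ ?_
  · exact (continuous_neg.tendsto x).mono_left nhdsWithin_le_nhds
  · filter_upwards [self_mem_nhdsWithin] with w hw h
    exact hw (neg_injective h)

private lemma order_neg_comp {h : ℂ → ℂ} {x : ℂ} (_hh : MeromorphicAt h (-x)) :
    meromorphicOrderAt (fun z => h (-z)) x = meromorphicOrderAt h (-x) := by
  have h1 : (fun z => h (-z)) = h ∘ (fun z : ℂ => -z) := rfl
  have hd : HasDerivAt (fun z : ℂ => -z) (-1) x := (hasDerivAt_id x).neg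
  rw [h1, meromorphicOrderAt_comp_of_deriv_ne_zero]
  · fun_prop
  · rw [hd.deriv]
    norm_num

namespace Mer

private lemma ord_act_pos {g : GL (Fin 2) ℝ} (hg : 0 < g.val.det) (z : ℍ) (F : Mer) :
    ord z (act g F) = ord (g • z) F := by
  obtain ⟨f, hf, rfl⟩ := exists_rep F
  rw [act_mk, ord_mk, ord_mk]
  have h3 : (0 < g.det.val) := by simpa using hg
  have h4 : (σ g) = ContinuousAlgEquiv.refl ℝ ℂ := by
    simp only [σ, if_pos h3]
  have h5 : (↑ₕ(fun z => σ g (f (g • z)))) = fun w : ℂ => f (g • ofComplex w) := by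
    funext w
    simp only [Function.comp, h4]
    rfl
  rw [h5]
  exact meromorphicOrderAt_comp_smul hg

private lemma ord_act_J (z : ℍ) (F : Mer) : ord z (act J F) = ord (J • z) F := by
  obtain ⟨f, hf, rfl⟩ := exists_rep F
  rw [act_mk, ord_mk, ord_mk]
  have h1 := hf (J • z)
  rw [coe_J_smul] at h1
  have h2 : MeromorphicAt (fun w : ℂ => (↑ₕf) (-w)) (conj (z : ℂ)) := by
    exact MeromorphicAt.comp_analyticAt (f := fun w : ℂ => (↑ₕf) w) (g := fun w : ℂ => -w) h1
      (by fun_prop)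
  rw [coe_J_smul, ← order_neg_comp h1, ← order_conj_conj h2]
  apply meromorphicOrderAt_congr
  have h3 : ∀ᶠ w in 𝓝[≠] (z : ℂ), 0 < w.im :=
    mem_nhdsWithin_of_mem_nhds (isOpen_upperHalfPlaneSet.mem_nhds z.im_pos)
  filter_upwards [h3] with w hw
  simp only [Function.comp]
  have hJ : ∀ c : ℂ, σ J c = conj c := by
    intro c
    have h5 : ¬ (0 < (J : GL (Fin 2) ℝ).det.val) := by simp
    simp only [σ, if_neg h5]
    rfl
  rw [hJ]
  have : -(conj w) = ((J • (⟨w, hw⟩ : ℍ) : ℍ) : ℂ) := by rw [coe_J_smul]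
  rw [this, ofComplex_apply, ofComplex_apply_of_im_pos hw]

lemma ord_act (g : GL (Fin 2) ℝ) (z : ℍ) (F : Mer) : ord z (act g F) = ord (g • z) F := by
  rcases lt_or_gt_of_ne g.det_ne_zero with hg | hg
  · have h1 : 0 < (J * g).val.det := by
      rw [Units.val_mul, Matrix.det_mul]
      simpa using hg
    have h2 : g = J * (J * g) := by
      rw [← mul_assoc, ← sq, J_sq, one_mul]
    conv_lhs => rw [h2]
    rw [act_mul, ord_act_pos h1, ord_act_J, ← mul_smul, ← h2]
  · exact ord_act_pos hg z F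

lemma ord_actS (g : SL(2, ℝ)) (z : ℍ) (F : Mer) : ord z (actS g F) = ord (g • z) F := by
  rw [actS_def, ord_act]
  rfl

lemma HasVal.act {g : GL (Fin 2) ℝ} {z : ℍ} {F : Mer} {c : ℂ} (h : HasVal (g • z) F c) :
    HasVal z (act g F) (σ g c) := by
  unfold HasVal at h ⊢
  rw [← act_cst, ← map_sub, ord_act]
  exact h

lemma HasVal.actS {g : SL(2, ℝ)} {z : ℍ} {F : Mer} {c : ℂ} (h : HasVal (g • z) F c) :
    HasVal z (actS g F) c := by
  unfold HasVal at h ⊢
  rw [← actS_cst g c, ← map_sub, ord_actS]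
  exact h

end Mer

end Pool.Agent.Lib.MP_b9289b_nt
end
end

section

/-!
# M04: the derivation
From `der_mk` and the rules for `deriv` (meromorphic functions are analytic on a punctured
neighbourhood: `MeromorphicAt.eventually_analyticAt`).  `eq_cst_of_der_eq_zero`: `deriv f = 0` on a
punctured neighbourhood of `I`, hence `f` is constant (`= c`) on a small punctured ball (which is
preconnected, or use `meromorphicOrderAt_deriv_eq_sub_one` type lemmas), then apply
`ord_eq_top_iff` to `F - cst c`.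
`ord_der`: Mathlib has `meromorphicOrderAt_deriv_eq_sub_one` (or similar).
-/

open UpperHalfPlane Filter Topology MatrixGroups
open scoped ContDiff ComplexConjugate

noncomputable section

namespace Pool.Agent.Lib.MP_b9289b_nt

namespace Mer

variable {F G : Mer} {z : ℍ}

/-- helper: a meromorphic function is analytic outside a discrete set. -/
private lemma ev_analyticAt {f : ℍ → ℂ} (hf : IsMero f) :
    ∀ᶠ z : ℍ in codiscrete ℍ, AnalyticAt ℂ (↑ₕf) (z : ℂ) := by
  rw [eventually_codiscrete_iff]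
  intro z
  have h3 : ∀ᶠ w in 𝓝[≠] (z : ℂ), 0 < w.im :=
    mem_nhdsWithin_of_mem_nhds (isOpen_upperHalfPlaneSet.mem_nhds z.im_pos)
  filter_upwards [(hf z).eventually_analyticAt, h3] with w hw hw3
  rw [ofComplex_apply_of_im_pos hw3]
  exact hw

private lemma der_rep_ev (f : ℍ → ℂ) (z : ℍ) :
    (↑ₕ(fun w : ℍ => deriv (↑ₕf) (w : ℂ))) =ᶠ[𝓝[≠] (z : ℂ)] deriv (↑ₕf) := by
  have h3 : ∀ᶠ w in 𝓝[≠] (z : ℂ), 0 < w.im :=
    mem_nhdsWithin_of_mem_nhds (isOpen_upperHalfPlaneSet.mem_nhds z.im_pos)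
  filter_upwards [h3] with w hw
  simp only [Function.comp]
  rw [ofComplex_apply_of_im_pos hw]

private lemma comp_add' (f g : ℍ → ℂ) :
    (↑ₕ(fun z => f z + g z)) = fun w => (↑ₕf) w + (↑ₕg) w := rfl

private lemma comp_mul' (f g : ℍ → ℂ) :
    (↑ₕ(fun z => f z * g z)) = fun w => (↑ₕf) w * (↑ₕg) w := rfl

lemma der_add (F G : Mer) : der (F + G) = der F + der G := by
  obtain ⟨f, hf, rfl⟩ := exists_rep F
  obtain ⟨g, hg, rfl⟩ := exists_rep G
  rw [mk_add, der_mk, der_mk, der_mk, mk_add, mk_eq_mk]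
  filter_upwards [ev_analyticAt hf, ev_analyticAt hg] with z h1 h2
  rw [comp_add']
  exact deriv_fun_add h1.differentiableAt h2.differentiableAt

lemma der_cst (c : ℂ) : der (cst c) = 0 := by
  rw [cst_eq, der_mk, zero_eq, mk_eq_mk]
  refine Eventually.of_forall fun z => ?_
  have : (↑ₕ(fun _ : ℍ => c)) = fun _ : ℂ => c := rfl
  rw [this]
  exact deriv_const _ _

lemma der_mul (F G : Mer) : der (F * G) = der F * G + F * der G := by
  obtain ⟨f, hf, rfl⟩ := exists_rep F
  obtain ⟨g, hg, rfl⟩ := exists_rep G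
  rw [mk_mul, der_mk, der_mk, der_mk, mk_mul, mk_mul, mk_add, mk_eq_mk]
  filter_upwards [ev_analyticAt hf, ev_analyticAt hg] with z h1 h2
  rw [comp_mul', deriv_fun_mul h1.differentiableAt h2.differentiableAt]
  simp

lemma der_neg (F : Mer) : der (-F) = -der F := by
  have h1 := der_add (-F) F
  rw [neg_add_cancel] at h1
  have h2 : der (0 : Mer) = 0 := by
    have := der_cst 0
    rwa [map_zero] at this
  rw [h2] at h1
  exact eq_neg_of_add_eq_zero_left h1.symm

lemma der_sub (F G : Mer) : der (F - G) = der F - der G := by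
  rw [sub_eq_add_neg, der_add, der_neg, ← sub_eq_add_neg]

lemma der_cst_mul (c : ℂ) (F : Mer) : der (cst c * F) = cst c * der F := by
  rw [der_mul, der_cst, zero_mul, zero_add]

lemma der_sq (F : Mer) : der (F ^ 2) = 2 * F * der F := by
  rw [sq, der_mul]
  ring

lemma der_inv (hF : F ≠ 0) : der F⁻¹ = -der F / F ^ 2 := by
  have h1 := der_mul F F⁻¹
  have h2 : der (1 : Mer) = 0 := by
    have := der_cst 1
    rwa [map_one] at this
  rw [mul_inv_cancel₀ hF, h2] at h1
  have h3 : F * der F⁻¹ = -(der F * F⁻¹) := by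
    linear_combination -h1
  have h4 : der F⁻¹ = F⁻¹ * (F * der F⁻¹) := by
    rw [← mul_assoc, inv_mul_cancel₀ hF, one_mul]
  rw [h4, h3]
  field_simp

lemma der_div (hG : G ≠ 0) : der (F / G) = (der F * G - F * der G) / G ^ 2 := by
  rw [div_eq_mul_inv, der_mul, der_inv hG]
  field_simp
  ring

/-- If `F` has order `n ≠ 0` then the derivative has order `n - 1`. -/
lemma ord_der {n : ℤ} (h : ord z F = (n : WithTop ℤ)) (hn : n ≠ 0) :
    ord z (der F) = ((n - 1 : ℤ) : WithTop ℤ) := by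
  obtain ⟨f, hf, rfl⟩ := exists_rep F
  rw [ord_mk] at h
  rw [der_mk, ord_mk, meromorphicOrderAt_congr (der_rep_ev f z)]
  exact meromorphicOrderAt_deriv_eq_sub_one (Int.cast_ne_zero.2 hn) h

lemma ord_der_sub_cst {n : ℤ} {c : ℂ} (h : ord z (F - cst c) = (n : WithTop ℤ)) (hn : n ≠ 0) :
    ord z (der F) = ((n - 1 : ℤ) : WithTop ℤ) := by
  have h1 := ord_der h hn
  rwa [der_sub, der_cst, sub_zero] at h1

private lemma exists_val' (h : 0 ≤ ord z F) : ∃ c, 0 < ord z (F - cst c) := by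
  obtain ⟨f, hf, rfl⟩ := exists_rep F
  rw [ord_mk] at h
  obtain ⟨c, hc⟩ := tendsto_nhds_of_meromorphicOrderAt_nonneg (hf z) h
  refine ⟨c, ?_⟩
  rw [cst_eq, mk_sub, ord_mk]
  have h1 : MeromorphicAt (↑ₕ(fun w => f w - c)) (z : ℂ) := (hf.sub (IsMero.const c)) z
  rw [← tendsto_zero_iff_meromorphicOrderAt_pos h1]
  have h2 := hc.sub (tendsto_const_nhds (x := c))
  rw [sub_self] at h2
  exact h2

private lemma ord_der_nonneg' (h : 0 ≤ ord z F) : 0 ≤ ord z (der F) := by
  obtain ⟨c, hc⟩ := exists_val' h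
  rcases eq_or_ne (ord z (F - cst c)) ⊤ with h1 | h1
  · rw [ord_eq_top_iff, sub_eq_zero] at h1
    rw [h1, der_cst, ord_zero]
    exact le_top
  · lift ord z (F - cst c) to ℤ using h1 with n hn
    have hn0 : 0 < n := by exact_mod_cast hc
    rw [ord_der_sub_cst hn.symm hn0.ne']
    have : (0 : ℤ) ≤ n - 1 := by omega
    exact_mod_cast this

lemma eq_cst_of_der_eq_zero (h : der F = 0) : ∃ c, F = cst c := by
  by_cases h0 : 0 ≤ ord I F
  · obtain ⟨c, hc⟩ := exists_val' h0
    refine ⟨c, ?_⟩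
    rcases eq_or_ne (ord I (F - cst c)) ⊤ with h1 | h1
    · rw [ord_eq_top_iff, sub_eq_zero] at h1
      exact h1
    · exfalso
      lift ord I (F - cst c) to ℤ using h1 with n hn
      have hn0 : 0 < n := by exact_mod_cast hc
      have h2 := ord_der_sub_cst hn.symm hn0.ne'
      rw [h, ord_zero] at h2
      exact WithTop.coe_ne_top h2.symm
  · exfalso
    rcases eq_or_ne (ord I F) ⊤ with h1 | h1
    · exact h0 (h1 ▸ le_top)
    · lift ord I F to ℤ using h1 with n hn
      have hn0 : n ≠ 0 := by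
        rintro rfl
        exact h0 le_rfl
      have h2 := ord_der hn.symm hn0
      rw [h, ord_zero] at h2
      exact WithTop.coe_ne_top h2.symm

lemma ord_der_nonneg (h : 0 ≤ ord z F) : 0 ≤ ord z (der F) := ord_der_nonneg' h

end Mer

end Pool.Agent.Lib.MP_b9289b_nt
end
end

section

/-!
# M05: holomorphic functions
A function all of whose orders are nonnegative has a (unique) holomorphic representative: use the
normal form `toMeromorphicNFOn` (Mathlib `Analysis/Meromorphic/NormalForm.lean`) or define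
`f z := lim of the representative` (`exists_val`).
-/

open UpperHalfPlane Filter Topology MatrixGroups
open scoped ContDiff ComplexConjugate

noncomputable section

namespace Pool.Agent.Lib.MP_b9289b_nt

/-- `f : ℍ → ℂ` is holomorphic. -/
def IsHol (f : ℍ → ℂ) : Prop := ∀ z : ℍ, DifferentiableAt ℂ (↑ₕf) (z : ℂ)

private lemma M05_an {f : ℍ → ℂ} (hf : IsHol f) (z : ℍ) : AnalyticAt ℂ (↑ₕf) (z : ℂ) := by
  rw [Complex.analyticAt_iff_eventually_differentiableAt]
  filter_upwards [isOpen_upperHalfPlaneSet.mem_nhds z.im_pos] with w hw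
  exact hf ⟨w, hw⟩

lemma IsHol.isMero {f : ℍ → ℂ} (hf : IsHol f) : IsMero f := fun z => (M05_an hf z).meromorphicAt

private lemma M05_cont {f : ℍ → ℂ} (hf : IsHol f) (z : ℍ) :
    Tendsto (↑ₕf) (𝓝 (z : ℂ)) (𝓝 (f z)) := by
  have h := (hf z).continuousAt
  rw [ContinuousAt] at h
  simpa using h

private lemma M05_tend {f : ℍ → ℂ} (hf : IsHol f) (z : ℍ) :
    Tendsto (↑ₕf) (𝓝[≠] (z : ℂ)) (𝓝 (f z)) := (M05_cont hf z).mono_left nhdsWithin_le_nhds

lemma IsHol.continuous {f : ℍ → ℂ} (hf : IsHol f) : Continuous f := by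
  rw [continuous_iff_continuousAt]
  intro z
  have h := (M05_cont hf z).comp (continuous_coe.tendsto z)
  refine h.congr fun w => ?_
  simp

namespace Mer

lemma ord_mk_nonneg {f : ℍ → ℂ} (hf : IsHol f) (z : ℍ) : 0 ≤ ord z (mk f hf.isMero) := by
  rw [ord_mk]
  exact (M05_an hf z).meromorphicOrderAt_nonneg

lemma hasVal_mk {f : ℍ → ℂ} (hf : IsHol f) (z : ℍ) : 0 < ord z (mk f hf.isMero - cst (f z)) := by
  rw [cst_eq, mk_sub, ord_mk, ← tendsto_zero_iff_meromorphicOrderAt_pos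
    ((hf.isMero.sub (IsMero.const (f z))) z)]
  have h := (M05_tend hf z).sub_const (f z)
  rw [sub_self] at h
  exact h

lemma exists_hol {F : Mer} (h : ∀ z, 0 ≤ ord z F) : ∃ (f : ℍ → ℂ) (hf : IsHol f),
    mk f hf.isMero = F := by
  obtain ⟨f, hf, rfl⟩ := exists_rep F
  have hU : MeromorphicOn (↑ₕf) {z : ℂ | 0 < z.im} := fun w hw => hf ⟨w, hw⟩
  set g : ℂ → ℂ := toMeromorphicNFOn (↑ₕf) {z : ℂ | 0 < z.im} with hg
  have hne : ∀ z : ℍ, (↑ₕf) =ᶠ[𝓝[≠] (z : ℂ)] g := fun z =>
    (hU.toMeromorphicNFOn_eq_self_on_nhdsNE z.im_pos).symm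
  have hNF : MeromorphicNFOn g {z : ℂ | 0 < z.im} := meromorphicNFOn_toMeromorphicNFOn _ _
  have han : ∀ z : ℍ, AnalyticAt ℂ g z := by
    intro z
    rw [← (hNF z.im_pos).meromorphicOrderAt_nonneg_iff_analyticAt,
      ← meromorphicOrderAt_congr (hne z), ← ord_mk z hf]
    exact h z
  have heq : ∀ z : ℍ, (↑ₕ(fun w : ℍ => g w)) =ᶠ[𝓝 (z : ℂ)] g := by
    intro z
    filter_upwards [isOpen_upperHalfPlaneSet.mem_nhds z.im_pos] with w hw
    simp only [Function.comp]
    rw [ofComplex_apply_of_im_pos hw]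
  have hhol : IsHol (fun w : ℍ => g w) := fun z =>
    ((heq z).differentiableAt_iff).2 (han z).differentiableAt
  refine ⟨fun w => g w, hhol, ?_⟩
  rw [mk_eq_mk, eventually_codiscrete_iff]
  intro z
  filter_upwards [hne z, (heq z).filter_mono nhdsWithin_le_nhds] with w h1 h2
  have h3 : g (ofComplex w) = g w := h2
  rw [h3, ← h1]
  rfl

/-- Two holomorphic functions which agree outside a discrete set agree. -/
lemma hol_ext {f g : ℍ → ℂ} (hf : IsHol f) (hg : IsHol g)
    (h : mk f hf.isMero = mk g hg.isMero) : f = g := by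
  rw [mk_eq_mk, eventually_codiscrete_iff] at h
  ext z
  exact tendsto_nhds_unique (M05_tend hf z) ((M05_tend hg z).congr'
    ((h z).mono fun w hw => hw.symm))

end Mer

end Pool.Agent.Lib.MP_b9289b_nt
end
end

section

/-!
# M07: functions invariant under a cocompact group
`Cocompact Γ`: there is a compact set meeting every orbit.
`constant_of_invariant`: `F` has a holomorphic representative `f` (`exists_hol`), `‖f‖` is
`Γ`-invariant (`hol_ext`), so it attains its maximum on the compact set, hence on `ℍ`; by the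
maximum modulus principle (`Complex.eqOn_of_isPreconnected_of_isMaxOn_norm` ...) `f` is constant.
-/

open UpperHalfPlane Filter Topology MatrixGroups
open scoped ContDiff ComplexConjugate

noncomputable section

namespace Pool.Agent.Lib.MP_b9289b_nt

/-- A holomorphic function composed with an element of `SL(2,ℝ)` is holomorphic. -/
private lemma isHol_smul {f : ℍ → ℂ} (hf : IsHol f) (γ : SL(2, ℝ)) :
    IsHol (fun z => f (γ • z)) := by
  intro z
  have hdet : 0 < (γ : GL (Fin 2) ℝ).val.det := by simp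
  have h1 : DifferentiableAt ℂ (↑ₕf) ((γ • z : ℍ) : ℂ) := hf (γ • z)
  have h2 := (analyticAt_smul hdet z).differentiableAt
  have h3 : (fun w ↦ (((γ : GL (Fin 2) ℝ) • ofComplex w : ℍ) : ℂ) : ℂ → ℂ) (z : ℂ)
      = ((γ • z : ℍ) : ℂ) := by simp; rfl
  rw [← h3] at h1
  have h4 := DifferentiableAt.comp (z : ℂ) h1 h2
  refine h4.congr_of_eventuallyEq (Eventually.of_forall fun w => ?_)
  simp only [Function.comp, ofComplex_apply]
  rfl

/-- If `F` is holomorphic and every `γ ∈ Γ` maps `F` to `F` or to `-F` then `F` is constant. -/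
theorem constant_of_invariant {Γ : Subgroup SL(2, ℝ)} (hΓ : Cocompact Γ) {F : Mer}
    (h0 : ∀ z, 0 ≤ Mer.ord z F) (h : ∀ γ ∈ Γ, Mer.actS γ F = F ∨ Mer.actS γ F = -F) :
    ∃ c, F = Mer.cst c := by
  obtain ⟨f, hf, rfl⟩ := Mer.exists_hol h0
  obtain ⟨K, hK, hKΓ⟩ := hΓ
  have hnorm : ∀ γ ∈ Γ, ∀ z, ‖f (γ • z)‖ = ‖f z‖ := by
    intro γ hγ z
    rcases h γ hγ with h1 | h1
    · rw [Mer.actS_mk] at h1
      have h2 := Mer.hol_ext (isHol_smul hf γ) hf h1
      have h3 : f (γ • z) = f z := congrFun h2 z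
      rw [h3]
    · rw [Mer.actS_mk, Mer.mk_neg] at h1
      have hneg : IsHol (fun z => - f z) := fun z => (hf z).neg
      have h2 := Mer.hol_ext (isHol_smul hf γ) hneg h1
      have h3 : f (γ • z) = - f z := congrFun h2 z
      rw [h3, norm_neg]
  obtain ⟨γ₀, -, hγ₀K⟩ := hKΓ I
  obtain ⟨z₀, hz₀, hmax⟩ := hK.exists_isMaxOn ⟨_, hγ₀K⟩ (hf.continuous.norm.continuousOn)
  have hmax' : ∀ z, ‖f z‖ ≤ ‖f z₀‖ := by
    intro z
    obtain ⟨γ, hγ, hγK⟩ := hKΓ z
    rw [← hnorm γ hγ z]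
    exact hmax hγK
  refine ⟨f z₀, ?_⟩
  have hU : IsPreconnected {z : ℂ | 0 < z.im} := isConnected_uhp.isPreconnected
  have hd : DifferentiableOn ℂ (↑ₕf) {z : ℂ | 0 < z.im} := fun w hw =>
    (hf ⟨w, hw⟩).differentiableWithinAt
  have hm : IsMaxOn (norm ∘ (↑ₕf)) {z : ℂ | 0 < z.im} (z₀ : ℂ) := by
    intro w hw
    change ‖(↑ₕf) w‖ ≤ ‖(↑ₕf) (z₀ : ℂ)‖
    simp only [Function.comp, ofComplex_apply]
    exact hmax' _
  have heq := Complex.eqOn_of_isPreconnected_of_isMaxOn_norm hU isOpen_upperHalfPlaneSet hd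
    (z₀.im_pos) hm
  rw [Mer.cst_eq, Mer.mk_eq_mk]
  refine Eventually.of_forall fun z => ?_
  have h5 := heq z.im_pos
  simpa using h5

/-- A nonconstant invariant function has a pole. -/
theorem exists_pole {Γ : Subgroup SL(2, ℝ)} (hΓ : Cocompact Γ) {F : Mer} (hF : F ∈ Kf Γ)
    (hc : ∀ c, F ≠ Mer.cst c) : ∃ z, Mer.ord z F < 0 := by
  by_contra hcon
  push Not at hcon
  obtain ⟨c, hc'⟩ := constant_of_invariant hΓ hcon (fun γ hγ => Or.inl (mem_Kf'.1 hF γ hγ))
  exact hc c hc'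

/-- A nonconstant invariant function takes every value (apply `exists_pole` to `(F - c)⁻¹`). -/
theorem exists_eq_val {Γ : Subgroup SL(2, ℝ)} (hΓ : Cocompact Γ) {F : Mer} (hF : F ∈ Kf Γ)
    (hc : ∀ c, F ≠ Mer.cst c) (c : ℂ) : ∃ z, 0 < Mer.ord z (F - Mer.cst c) := by
  have hcst : Mer.cst c ∈ Kf Γ := fun γ _ => Mer.act_cst_sl γ c
  have hG : (F - Mer.cst c)⁻¹ ∈ Kf Γ := inv_mem (sub_mem hF hcst)
  have hGc : ∀ d, (F - Mer.cst c)⁻¹ ≠ Mer.cst d := by
    intro d hd
    have h1 : F - Mer.cst c = Mer.cst d⁻¹ := by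
      rw [map_inv₀, ← hd, inv_inv]
    refine hc (c + d⁻¹) ?_
    rw [map_add, ← h1]
    ring
  obtain ⟨z, hz⟩ := exists_pole hΓ hG hGc
  refine ⟨z, ?_⟩
  rw [Mer.ord_inv] at hz
  revert hz
  cases Mer.ord z (F - Mer.cst c) with
  | top => intro _; exact WithTop.coe_lt_top _
  | coe n =>
    intro hz
    have h2 : ((-n : ℤ) : WithTop ℤ) < ((0 : ℤ) : WithTop ℤ) := hz
    rw [WithTop.coe_lt_coe] at h2
    have h3 : (0 : ℤ) < n := by omega
    exact_mod_cast h3

/-- Cocompactness passes to subgroups of finite index, in the following form: `t` is a finite set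
such that every `γ ∈ Γ` is `γ = g * δ⁻¹`... i.e. `g * γ ∈ Γ'` for some `g ∈ t`.
(The compact set of `Γ'` is `⋃ g ∈ t, g • K`: if `γ • z ∈ K` then `(g * γ) • z ∈ g • K`.) -/
theorem Cocompact.of_finite {Γ Γ' : Subgroup SL(2, ℝ)} (hΓ : Cocompact Γ) (t : Set SL(2, ℝ))
    (ht : t.Finite) (h : ∀ γ ∈ Γ, ∃ g ∈ t, g * γ ∈ Γ') : Cocompact Γ' := by
  obtain ⟨K, hK, hKΓ⟩ := hΓ
  refine ⟨⋃ g ∈ t, (fun z : ℍ => g • z) '' K, ?_, fun z => ?_⟩
  · refine ht.isCompact_biUnion fun g _ => hK.image ?_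
    exact continuous_const_smul g
  · obtain ⟨γ, hγ, hγK⟩ := hKΓ z
    obtain ⟨g, hg, hgγ⟩ := h γ hγ
    refine ⟨g * γ, hgγ, ?_⟩
    simp only [Set.mem_iUnion]
    exact ⟨g, hg, γ • z, hγK, (mul_smul g γ z).symm⟩

end Pool.Agent.Lib.MP_b9289b_nt
end
end
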