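import Pool.Agent.Lib.MP_b9289b_nt.Mg.G012
import Pool.Agent.Lib.MP_b9289b_nt.Mg.G015
import Pool.Agent.Lib.MP_b9289b_nt.Mg.G003

section

/-! (K01) Algebra of `κ = -i (Ψ² - Ψ⁻²)`. -/

open UpperHalfPlane Metric Set Filter Topology MatrixGroups
open scoped ComplexConjugate

noncomputable section

namespace Pool.Agent.Lib.MP_b9289b_nt

private lemma sigma_pos' {g : GL (Fin 2) ℝ} (hg : 0 < g.val.det) (c : ℂ) : σ g c = c := by
  have h : (0 : ℝ) < g.det.val := hg
  rw [σ, if_pos h]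
  rfl

private lemma sigma_neg' {g : GL (Fin 2) ℝ} (hg : ¬ 0 < g.val.det) (c : ℂ) : σ g c = conj c := by
  have h : ¬ (0 : ℝ) < g.det.val := hg
  rw [σ, if_neg h]
  rfl

private lemma act_kap (g : GL (Fin 2) ℝ) (Ψ : Mer) : Mer.act g (kap Ψ) =
    Mer.cst (σ g (-Complex.I)) * ((Mer.act g Ψ) ^ 2 - ((Mer.act g Ψ) ^ 2)⁻¹) := by
  unfold kap
  rw [map_mul, map_sub, map_inv₀, map_pow, Mer.act_cst]

/-- Deck transformations preserve `κ`. PROOF: clear for positive determinant. For negative determinant `act g Ψ = Ψ⁻¹` and `act g` conjugates constants: `act g (kap Ψ) = cst i * ((Ψ²)⁻¹ - Ψ²) = kap Ψ`. -/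
theorem kap_tact {g : GL (Fin 2) ℝ} {Ψ : Mer} (h : tact g Ψ = Ψ) :
    Mer.act g (kap Ψ) = kap Ψ := by
  rw [act_kap]
  unfold tact at h
  by_cases hg : 0 < g.val.det
  · rw [if_pos hg] at h
    rw [h, sigma_pos' hg]
    rfl
  · rw [if_neg hg] at h
    have h1 : Mer.act g Ψ = Ψ⁻¹ := by rw [← h, inv_inv, h]
    rw [h1, sigma_neg' hg, map_neg, Complex.conj_I, neg_neg]
    unfold kap
    rw [map_neg, inv_pow, inv_inv]
    ring

variable {A : ℝ} {f : ℂ → ℂ} {ψ : ℍ → ℂ}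

/-- PROOF: `(i Ψ)² = -Ψ²`. -/
theorem IsPsi.kap_rot (h : IsPsi A f ψ) :
    Mer.actS (rotM (Real.pi / 2)) (kap h.mer) = -kap h.mer := by
  have h1 : Mer.cst Complex.I ^ 2 = -1 := by
    rw [← map_pow, Complex.I_sq, map_neg, map_one]
  unfold kap
  rw [map_mul, map_sub, map_inv₀, map_pow, Mer.actS_cst, h.actS_rot, mul_pow, h1, neg_one_mul,
    inv_neg]
  ring

/-- PROOF: `act J (cst (-i)) = cst i`. -/
theorem IsPsi.kap_J (h : IsPsi A f ψ) : Mer.act J (kap h.mer) = -kap h.mer := by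
  have hJ : ¬ 0 < (J : GL (Fin 2) ℝ).val.det := by
    have h1 : (J : GL (Fin 2) ℝ).val.det = -1 := by simp
    rw [h1]
    norm_num
  rw [act_kap, h.act_J, sigma_neg' hJ, map_neg, Complex.conj_I, neg_neg]
  unfold kap
  rw [map_neg]
  ring

variable {Ψ : Mer} {y : ℍ} {c : ℂ}

/-- PROOF: `ord Ψ² = 2`, `ord (Ψ²)⁻¹ = -2`, `Mer.ord_sub_of_lt`. -/
theorem ord_kap_zero (h : Mer.ord y Ψ = 1) : Mer.ord y (kap Ψ) = -2 := by
  have h1 : Mer.ord y (Ψ ^ 2) = 2 := by
    rw [Mer.ord_pow, h, mul_one]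
    rfl
  have h2 : Mer.ord y (Ψ ^ 2)⁻¹ = -2 := by rw [Mer.ord_inv, h1]
  have h3 : Mer.ord y (Ψ ^ 2)⁻¹ < Mer.ord y (Ψ ^ 2) := by
    rw [h1, h2]
    have : ((-2 : ℤ) : WithTop ℤ) < ((2 : ℤ) : WithTop ℤ) := WithTop.coe_lt_coe.2 (by norm_num)
    exact this
  unfold kap
  rw [Mer.ord_cst_mul _ _ (neg_ne_zero.2 Complex.I_ne_zero), Mer.ord_sub_comm,
    Mer.ord_sub_of_lt h3, h2]

/-- `κ - κ(c) = -i (Ψ - c)(Ψ + c)(Ψ² + c⁻²)/Ψ²`. -/
lemma kap_sub (hΨ : Ψ ≠ 0) (hc : c ≠ 0) : kap Ψ - Mer.cst (kc c) = Mer.cst (-Complex.I) *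
    ((Ψ - Mer.cst c) * (Ψ + Mer.cst c) * (Ψ ^ 2 + Mer.cst ((c ^ 2)⁻¹))) / Ψ ^ 2 := by
  have hC : Mer.cst c ≠ 0 := by
    rw [Ne, map_eq_zero]
    exact hc
  unfold kap kc
  rw [map_mul, map_sub, map_inv₀, map_pow, map_neg]
  generalize Mer.cst c = C at hC ⊢
  field_simp
  ring

private lemma ord_factors (hc : c ≠ 0) (hv : Mer.HasVal y Ψ c) :
    Ψ ≠ 0 ∧ Mer.ord y (Ψ + Mer.cst c) = 0 ∧ Mer.ord y (Ψ ^ 2) = 0 := by
  refine ⟨?_, ?_, ?_⟩
  · intro h0
    have h1 := hv.ord_eq_zero hc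
    rw [h0, Mer.ord_zero] at h1
    exact WithTop.top_ne_zero h1
  · refine (hv.add (Mer.hasVal_cst (c := c))).ord_eq_zero ?_
    intro h1
    have h2 : (2 : ℂ) * c = 0 := by
      rw [← h1]
      ring
    exact (mul_ne_zero two_ne_zero hc) h2
  · exact (hv.pow 2).ord_eq_zero (pow_ne_zero 2 hc)

/-- PROOF: `kap_sub`; at `y` the function `Ψ` has the value `c ≠ 0` (`Mer.HasVal`), `Ψ + c` the value `2 c ≠ 0`, `Ψ² + c⁻²` the value `c² + c⁻² ≠ 0` (as `c⁴ ≠ -1`). -/
theorem ord_kap (hc : c ≠ 0) (hc4 : c ^ 4 ≠ -1) {m : ℕ} (hm : 0 < m)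
    (h : Mer.ord y (Ψ - Mer.cst c) = (m : WithTop ℤ)) :
    Mer.ord y (kap Ψ - Mer.cst (kc c)) = (m : WithTop ℤ) := by
  have hv : Mer.HasVal y Ψ c := by
    unfold Mer.HasVal
    rw [h]
    exact_mod_cast hm
  have h0 := ord_factors hc hv
  have hs : Mer.ord y (Ψ ^ 2 + Mer.cst ((c ^ 2)⁻¹)) = 0 := by
    refine ((hv.pow 2).add (Mer.hasVal_cst (c := (c ^ 2)⁻¹))).ord_eq_zero ?_
    intro h1
    refine hc4 ?_
    have h2 : (c ^ 2 + (c ^ 2)⁻¹) * c ^ 2 = 0 := by rw [h1, zero_mul]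
    rw [add_mul, inv_mul_cancel₀ (pow_ne_zero 2 hc)] at h2
    have h3 : c ^ 4 + 1 = 0 := by
      rw [← h2]
      ring
    exact eq_neg_of_add_eq_zero_left h3
  rw [kap_sub h0.1 hc, Mer.ord_div, Mer.ord_cst_mul _ _ (neg_ne_zero.2 Complex.I_ne_zero),
    Mer.ord_mul, Mer.ord_mul, h, h0.2.1, h0.2.2, hs, add_zero, add_zero, sub_zero]

/-- PROOF: now `c⁻² = -c²`, so `Ψ² + c⁻² = (Ψ - c)(Ψ + c)`. -/
theorem ord_kap' (hc4 : c ^ 4 = -1) (h : Mer.ord y (Ψ - Mer.cst c) = 1) :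
    Mer.ord y (kap Ψ - Mer.cst (kc c)) = 2 := by
  have hc : c ≠ 0 := by
    intro h1
    rw [h1] at hc4
    norm_num at hc4
  have hv : Mer.HasVal y Ψ c := by
    unfold Mer.HasVal
    rw [h]
    exact one_pos
  have h0 := ord_factors hc hv
  have hs : Mer.ord y (Ψ ^ 2 + Mer.cst ((c ^ 2)⁻¹)) = 1 := by
    have h1 : (c ^ 2)⁻¹ = -(c ^ 2) := by
      refine inv_eq_of_mul_eq_one_right ?_
      have : c ^ 2 * -(c ^ 2) = -(c ^ 4) := by ring
      rw [this, hc4, neg_neg]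
    have h2 : Ψ ^ 2 + Mer.cst ((c ^ 2)⁻¹) = (Ψ - Mer.cst c) * (Ψ + Mer.cst c) := by
      rw [h1, map_neg, map_pow]
      ring
    rw [h2, Mer.ord_mul, h, h0.2.1, add_zero]
  rw [kap_sub h0.1 hc, Mer.ord_div, Mer.ord_cst_mul _ _ (neg_ne_zero.2 Complex.I_ne_zero),
    Mer.ord_mul, Mer.ord_mul, h, h0.2.1, h0.2.2, hs, add_zero, sub_zero]
  rfl

end Pool.Agent.Lib.MP_b9289b_nt
end
end

section

/-! (K03) The branching of `κ` on the closed octagon. -/

open UpperHalfPlane Metric Set Filter Topology MatrixGroups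
open scoped ComplexConjugate

noncomputable section

namespace Pool.Agent.Lib.MP_b9289b_nt

variable {A : ℝ} {f : ℂ → ℂ} {ψ : ℍ → ℂ}

lemma ss_tval {s : ℝ} (h0 : 0 < s) (h1 : s < 1) : ss (tval s) = s := by
  have h2 : (1 - s) ≠ 0 := by linarith
  have e1 : (1 + s) / (1 - s) - 1 = 2 * s / (1 - s) := by
    rw [div_sub_one h2]; congr 1; ring
  have e2 : (1 + s) / (1 - s) + 1 = 2 / (1 - s) := by
    rw [div_add_one h2]; congr 1; ring
  unfold ss tval
  rw [e1, e2, div_div_div_cancel_right₀ h2]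
  ring

/-- The finite special values are real with absolute value at most two. -/
lemma mem_specK_iff (h : IsPsi A f ψ) {c : ℂ} : c ∈ specK (tval (sval A ψ)) ↔
    ∃ r : ℝ, c = r ∧ (|r| = 2 ∨ |r| = 2 * sval A ψ) := by
  have hp := h.sval_pos
  unfold specK
  rw [ss_tval hp h.sval_lt]
  simp only [Set.mem_insert_iff, Set.mem_singleton_iff]
  constructor
  · rintro (rfl | rfl | rfl | rfl)
    · exact ⟨2, by simp, Or.inl (by norm_num)⟩
    · exact ⟨-2, by simp, Or.inl (by norm_num)⟩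
    · exact ⟨2 * sval A ψ, by push_cast; ring, Or.inr (abs_of_pos (by positivity))⟩
    · refine ⟨-(2 * sval A ψ), by push_cast; ring, Or.inr ?_⟩
      rw [abs_neg]
      exact abs_of_pos (by positivity)
  · rintro ⟨r, rfl, hr | hr⟩
    · rcases (abs_eq (by norm_num : (0 : ℝ) ≤ 2)).1 hr with rfl | rfl
      · left; simp
      · right; left; simp
    · rcases (abs_eq (by positivity : (0 : ℝ) ≤ 2 * sval A ψ)).1 hr with rfl | rfl
      · right; right; left; push_cast; ring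
      · right; right; right; push_cast; ring

/-- The four kinds of points of the closed octagon. PROOF: let `c = ψ y`. If `y ∈ oct A`: `‖c‖ < 1`; if `c = 0` the first case (`IsPsi.ord_one`, `ord_kap_zero`; `y = I` since `ψ = f ∘ cay` is injective on `oct A` and `f 0 = 0`), otherwise the fourth case: `ord_kap` (`c⁴ ≠ -1` as `‖c‖ < 1`), `kc_ne_of_norm_lt` and `mem_specK_iff`.
If `y` is on the frontier `‖c‖ = 1`, `kc c = 2 im (c²)` (`kc_unit`). If `y` is a corner: second case: `IsPsi.ord_two`, `IsPsi.corner_val`, `abs_im_I_pow`: `|im (c²)| = sval` (`< 1`, so `c⁴ ≠ -1` by `pow_four_eq_iff`). If `y` is not a corner and `c⁴ = -1`: third case: `ord_kap'`, `|im c²| = 1`.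
If `y` is not a corner and `c⁴ ≠ -1`: fourth case: `|2 im (c²)| = 2` is excluded by `pow_four_eq_iff`, `|2 im (c²)| = 2 sval` by `exists_I_pow` and `IsPsi.corner_of_val`. -/
theorem IsPsi.kinds (h : IsPsi A f ψ) {y : ℍ} (hy : y ∈ closure (oct A)) :
    (y = I ∧ Mer.ord y (kap h.mer) = -2) ∨
    (IsCorner A (cay y) ∧ ∃ c ∈ specK (tval (sval A ψ)), Mer.ord y (kap h.mer - Mer.cst c) = 2) ∨
    (y ∉ oct A ∧ ψ y ^ 4 = -1 ∧ ∃ c ∈ specK (tval (sval A ψ)), Mer.ord y (kap h.mer - Mer.cst c) = 2) ∨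
    ∃ c, c ∉ specK (tval (sval A ψ)) ∧ Mer.ord y (kap h.mer - Mer.cst c) = 1 := by
  have hp := h.sval_pos
  have hl := h.sval_lt
  by_cases hin : y ∈ oct A
  · have hlt := h.norm_lt hin
    have hnc : ¬ IsCorner A (cay y) := fun hc => not_mem_oct_of_isCorner hc hin
    have h1 := h.ord_one hy hnc
    by_cases h0 : ψ y = 0
    · left
      rw [h0, map_zero, sub_zero] at h1
      refine ⟨?_, ord_kap_zero h1⟩
      have hI : (I : ℍ) ∈ oct A := by
        show cay I ∈ octD A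
        rw [cay_I]
        exact (star_octD h.ok).zero_mem
      apply h.injOn hy (subset_closure hI)
      rw [h0, h.eq _ hI, cay_I, h.rmap.zero]
    · right; right; right
      have hc4 : ψ y ^ 4 ≠ -1 := by
        intro h4
        have h5 := congrArg norm h4
        rw [norm_pow, norm_neg, norm_one] at h5
        have h6 : ‖ψ y‖ ^ 4 < 1 := pow_lt_one₀ (norm_nonneg _) hlt (by norm_num)
        exact h6.ne h5
      refine ⟨kc (ψ y), ?_, ?_⟩
      · rw [mem_specK_iff h]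
        rintro ⟨r, hr, hr'⟩
        refine kc_ne_of_norm_lt h0 hlt (r := r) ?_ hr
        rcases hr' with h7 | h7
        · exact h7.le
        · rw [h7]; linarith
      · have h8 := ord_kap h0 hc4 (m := 1) one_pos (by exact_mod_cast h1)
        exact_mod_cast h8
  · have hn := h.norm_eq hy hin
    have h0 : ψ y ≠ 0 := by
      intro h0
      rw [h0, norm_zero] at hn
      exact zero_ne_one hn
    have hk := kc_unit hn
    have habs : ∀ x : ℝ, |2 * x| = 2 * |x| := by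
      intro x
      rw [abs_mul, abs_of_pos (by norm_num : (0 : ℝ) < 2)]
    by_cases hc : IsCorner A (cay y)
    · right; left
      refine ⟨hc, kc (ψ y), ?_, ?_⟩
      · obtain ⟨k, hk2⟩ := h.corner_val hc
        have h2 := abs_im_I_pow hk2
        rw [mem_specK_iff h]
        refine ⟨_, hk, Or.inr ?_⟩
        rw [habs, h2]
        rfl
      · obtain ⟨k, hk2⟩ := h.corner_val hc
        have h2 := abs_im_I_pow hk2
        have hc4 : ψ y ^ 4 ≠ -1 := by
          rw [Ne, pow_four_eq_iff hn, h2]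
          exact hl.ne
        have h8 := ord_kap h0 hc4 (m := 2) two_pos (by exact_mod_cast h.ord_two hc)
        exact_mod_cast h8
    · by_cases hc4 : ψ y ^ 4 = -1
      · right; right; left
        refine ⟨hin, hc4, kc (ψ y), ?_, ord_kap' hc4 (h.ord_one hy hc)⟩
        rw [mem_specK_iff h]
        refine ⟨_, hk, Or.inl ?_⟩
        rw [habs, (pow_four_eq_iff hn).1 hc4]
        norm_num
      · right; right; right
        refine ⟨kc (ψ y), ?_, ?_⟩
        · rw [mem_specK_iff h]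
          rintro ⟨r, hr, hr'⟩
          rw [hk] at hr
          have hr2 := Complex.ofReal_injective hr
          rw [← hr2, habs] at hr'
          rcases hr' with h7 | h7
          · apply hc4
            rw [pow_four_eq_iff hn]
            linarith
          · have h9 : |((ψ y) ^ 2).im| = |((ψ (toH (corner A))) ^ 2).im| := by
              have : sval A ψ = |((ψ (toH (corner A))) ^ 2).im| := rfl
              rw [← this]
              linarith
            have h10 := isCorner_corner h.ok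
            have h11 : cay (toH (corner A)) = corner A := cay_toH h10.1.1
            have h12 : toH (corner A) ∈ closure (oct A) := by
              rw [closure_oct h.ok, Set.mem_ofPred_eq, h11]
              exact h10.1
            have h13 : toH (corner A) ∉ oct A :=
              not_mem_oct_of_isCorner (by rw [h11]; exact h10)
            obtain ⟨k, hk3⟩ := exists_I_pow hn (h.norm_eq h12 h13) h9
            exact hc (h.corner_of_val hy hk3)
        · have h8 := ord_kap h0 hc4 (m := 1) one_pos (by exact_mod_cast h.ord_one hy hc)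
          exact_mod_cast h8

end Pool.Agent.Lib.MP_b9289b_nt
end
end

section

/-! (K04) Rotations fixing `κ`. -/

open UpperHalfPlane Metric Set Filter Topology MatrixGroups
open scoped ComplexConjugate

noncomputable section

namespace Pool.Agent.Lib.MP_b9289b_nt

variable {A : ℝ} {f : ℂ → ℂ} {ψ : ℍ → ℂ}

/-- PROOF: multiply `g` by `(√ det g)⁻¹`. `g` and a real multiple act in the same way on `ℍ`, and on `Mer` (`Mer.act_mk`, `σ` is the identity). -/
theorem exists_sl (g : GL (Fin 2) ℝ) (hg : 0 < g.val.det) : ∃ γ : SL(2, ℝ),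
    (∀ z : ℍ, γ • z = g • z) ∧ ∀ F : Mer, Mer.actS γ F = Mer.act g F := by
  set s : ℝ := √ g.val.det with hs
  have hs0 : 0 < s := Real.sqrt_pos.2 hg
  have hs2 : s ^ 2 = g.val.det := Real.sq_sqrt hg.le
  have hdet : (s⁻¹ • g.val).det = 1 := by
    rw [Matrix.det_smul, Fintype.card_fin, inv_pow, hs2]
    exact inv_mul_cancel₀ hg.ne'
  let γ : SL(2, ℝ) := ⟨s⁻¹ • g.val, hdet⟩
  have h1 : ∀ z : ℍ, γ • z = g • z := by
    intro z
    apply UpperHalfPlane.ext
    rw [coe_smul_of_det_pos (g := g) hg, specialLinearGroup_apply]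
    have h2 : ∀ i j, (γ i j : ℝ) = s⁻¹ * g i j := fun i j => rfl
    simp only [h2, num, denom]
    have hsc : (s : ℂ) ≠ 0 := by exact_mod_cast hs0.ne'
    have hd := denom_ne_zero g z
    simp only [denom] at hd
    simp only [Algebra.algebraMap_self, RingHom.id_apply]
    push_cast
    rw [show ((s : ℂ)⁻¹ * (g 0 0 : ℂ) * (z : ℂ) + (s : ℂ)⁻¹ * (g 0 1 : ℂ)) =
      (s : ℂ)⁻¹ * ((g 0 0 : ℂ) * z + (g 0 1 : ℂ)) by ring,
      show ((s : ℂ)⁻¹ * (g 1 0 : ℂ) * (z : ℂ) + (s : ℂ)⁻¹ * (g 1 1 : ℂ)) =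
      (s : ℂ)⁻¹ * ((g 1 0 : ℂ) * z + (g 1 1 : ℂ)) by ring]
    rw [mul_div_mul_left _ _ (inv_ne_zero hsc)]
  refine ⟨γ, h1, fun F => ?_⟩
  obtain ⟨f, hf, rfl⟩ := Mer.exists_rep F
  rw [Mer.actS_mk, Mer.act_mk, Mer.mk_eq_mk]
  refine Eventually.of_forall fun z => ?_
  have h3 : 0 < g.det.val := hg
  rw [σ, if_pos h3, h1]
  rfl

private lemma det_mul_neg {g h : GL (Fin 2) ℝ} (hg : g.val.det < 0) (hh : h.val.det < 0) :
    0 < (g * h).val.det := by
  rw [Units.val_mul, Matrix.det_mul]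
  exact mul_pos_of_neg_of_neg hg hh

private lemma det_J : (J : GL (Fin 2) ℝ).val.det < 0 := by
  simp

private lemma det_sl (γ : SL(2, ℝ)) : (γ : GL (Fin 2) ℝ).val.det = 1 := by simp

/-- PROOF: `IsPsi.deck`: `g • z ∈ closure`, `tact g Ψ = Ψ`, so `act g κ = κ` (`kap_tact`). If `0 < det g` use `exists_sl`. If `det g < 0` use `exists_sl` for `g' = J * rotM (π/2) * g`: `act g' κ = act g (act (rotM (π/2)) (act J κ)) = act g κ = κ` (`Mer.act_mul`, `IsPsi.kap_rot`, `IsPsi.kap_J`: two changes of sign), `g' • z ∈ closure` by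
`rot_mem_closure_oct`, `J_mem_closure_oct`. -/
theorem IsPsi.to_closure (h : IsPsi A f ψ) (z : ℍ) : ∃ γ : SL(2, ℝ),
    Mer.actS γ (kap h.mer) = kap h.mer ∧ γ • z ∈ closure (oct A) := by
  obtain ⟨g, h1, h2⟩ := h.deck z
  have h3 := kap_tact h2
  rcases lt_or_gt_of_ne g.det_ne_zero with hg | hg
  · have hd : 0 < (J * (rotM (Real.pi / 2) : GL (Fin 2) ℝ) * g).val.det := by
      rw [mul_assoc]
      refine det_mul_neg det_J ?_
      rw [Units.val_mul, Matrix.det_mul, det_sl, one_mul]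
      exact hg
    obtain ⟨γ, h4, h5⟩ := exists_sl _ hd
    refine ⟨γ, ?_, ?_⟩
    · rw [h5, Mer.act_mul, Mer.act_mul, h.kap_J, map_neg, ← Mer.actS_def, h.kap_rot, neg_neg, h3]
    · rw [h4, mul_smul, mul_smul]
      exact J_mem_closure_oct h.ok (rot_mem_closure_oct h.ok h1)
  · obtain ⟨γ, h4, h5⟩ := exists_sl g hg
    exact ⟨γ, by rw [h5, h3], by rw [h4]; exact h1⟩

private lemma negOne_smul (z : ℍ) : (-1 : SL(2, ℝ)) • z = z := by
  apply UpperHalfPlane.ext
  rw [specialLinearGroup_apply]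
  simp

private lemma exp_half_pi : Complex.exp (((Real.pi / 2 : ℝ) : ℂ) * Complex.I) = Complex.I := by
  push_cast
  exact Complex.exp_pi_div_two_mul_I

/-- The centre. PROOF: `γ = rotM π = rotM (π/2) * rotM (π/2)`: `actS γ κ = κ` (two changes of sign), `γ ≠ ± 1` (its matrix is `(0 1; -1 0)`). -/
theorem IsPsi.rot_center (h : IsPsi A f ψ) : ∃ γ : SL(2, ℝ), Mer.actS γ (kap h.mer) = kap h.mer ∧
    γ • (I : ℍ) = I ∧ γ ≠ 1 ∧ γ ≠ -1 := by
  have key : ∀ z : ℍ, cay ((rotM (Real.pi / 2) * rotM (Real.pi / 2)) • z) = -cay z := by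
    intro z
    rw [mul_smul, cay_rotM, cay_rotM, exp_half_pi, ← mul_assoc, Complex.I_mul_I, neg_one_mul]
  have hz : ∀ γ : SL(2, ℝ), (∀ z : ℍ, γ • z = z) → rotM (Real.pi / 2) * rotM (Real.pi / 2) ≠ γ := by
    intro γ hγ he
    have h1 := key (toH (1 / 2))
    rw [he, hγ, cay_toH (by norm_num)] at h1
    norm_num at h1
  refine ⟨rotM (Real.pi / 2) * rotM (Real.pi / 2), ?_, ?_, hz 1 fun z => one_smul _ _,
    hz (-1) fun z => ?_⟩
  · rw [Mer.actS_mul, h.kap_rot, map_neg, h.kap_rot, neg_neg]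
  · rw [mul_smul, rotM_smul_I, rotM_smul_I]
  · exact negOne_smul z

private lemma actS_of_triv {γ : SL(2, ℝ)} (hγ : ∀ z : ℍ, γ • z = z) (F : Mer) :
    Mer.actS γ F = F := by
  obtain ⟨f, hf, rfl⟩ := Mer.exists_rep F
  rw [Mer.actS_mk, Mer.mk_eq_mk]
  exact Eventually.of_forall fun z => by rw [hγ]

private lemma I_mem_oct (hA : OkA A) : (I : ℍ) ∈ oct A := by
  rw [oct, Set.mem_setOf_eq, cay_I]
  exact (star_octD hA).zero_mem

private lemma IsPsi.ord_I (h : IsPsi A f ψ) : Mer.ord I h.mer = 1 := by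
  have h0 : ψ I = 0 := by
    rw [h.eq I (I_mem_oct h.ok), cay_I]
    exact h.rmap.zero
  have hc : ¬ IsCorner A (cay I) := fun hc => not_mem_oct_of_isCorner hc (I_mem_oct h.ok)
  have h1 := h.ord_one (subset_closure (I_mem_oct h.ok)) hc
  rw [h0, map_zero, sub_zero] at h1
  exact h1

private lemma rotSide_aux (h : IsPsi A f ψ) {y : ℍ} (hy : y ∈ closure (oct A)) (hy' : y ∉ oct A)
    {τ : GL (Fin 2) ℝ} (hτ : τ.val.det < 0) (hτy : ψ (τ • y) = ψ y)
    (hτc : τ • y ∈ closure (oct A)) (hκ : Mer.act τ (kap h.mer) = kap h.mer)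
    {c : ℂ} (hc : c ≠ 0) (hΨ : Mer.act τ h.mer = Mer.cst c * h.mer) :
    ∃ γ : SL(2, ℝ), Mer.actS γ (kap h.mer) = kap h.mer ∧
    γ • y = y ∧ γ ≠ 1 ∧ γ ≠ -1 := by
  have e1 : τ • y = y := h.injOn hτc hy hτy
  obtain ⟨s, hs, hsy, hsΨ⟩ := h.side_refl hy hy'
  obtain ⟨γ, h4, h5⟩ := exists_sl (s * τ) (det_mul_neg hs hτ)
  have hne : ∀ δ : SL(2, ℝ), (∀ z : ℍ, δ • z = z) → γ ≠ δ := by
    intro δ hδ he
    have h6 : Mer.actS γ h.mer = h.mer := by rw [he, actS_of_triv hδ]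
    have h7 : Mer.act s h.mer = h.mer⁻¹ := by
      have h8 := hsΨ
      rw [tact, if_neg hs.le.not_gt] at h8
      rw [← h8, inv_inv]
      rw [h8]
    rw [h5, Mer.act_mul, h7, map_inv₀, hΨ] at h6
    have h9 := congrArg (Mer.ord I) h6
    rw [Mer.ord_inv, Mer.ord_mul, Mer.ord_cst _ hc, h.ord_I] at h9
    revert h9
    decide
  refine ⟨γ, ?_, ?_, hne 1 fun z => one_smul _ _, hne (-1) fun z => ?_⟩
  · rw [h5, Mer.act_mul, kap_tact hsΨ, hκ]
  · rw [h4, mul_smul, e1, hsy]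
  · exact negOne_smul z

/-- Points with `ψ⁴ = -1`. PROOF: `c = ψ y`, `‖c‖ = 1`, `c² = i^k` with `k = 1` or `k = 3` (`sq_eq_of_pow_four`). Let `τ = R^k J`, `R = rotM (π/2)`: `ψ (τ • y) = i^k conj c = i^k c⁻¹ = c`, so `τ • y = y` by `IsPsi.injOn`. `s` from `IsPsi.side_refl`; the element `s * τ` has positive determinant and fixes `y`;
`act (s * τ) κ = act τ (act s κ) = act τ κ = κ` (`kap_tact` for `s`; `k + 1` changes of sign for `τ`). `exists_sl` gives `γ`. If `γ = ± 1` then `act (s * τ) Ψ = Ψ`; but `act (s * τ) Ψ = act τ (Ψ⁻¹) = (act τ Ψ)⁻¹ = (const * Ψ)⁻¹` (`act_J`, `actS_rot`), so `Ψ²` would be a constant, and `Ψ` too; but `ψ` is injective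
on `oct A`. -/
theorem IsPsi.rot_side (h : IsPsi A f ψ) {y : ℍ} (hy : y ∈ closure (oct A)) (hy' : y ∉ oct A)
    (h4 : ψ y ^ 4 = -1) : ∃ γ : SL(2, ℝ), Mer.actS γ (kap h.mer) = kap h.mer ∧
    γ • y = y ∧ γ ≠ 1 ∧ γ ≠ -1 := by
  have hn := h.norm_eq hy hy'
  have hcc : ψ y * conj (ψ y) = 1 := by
    rw [Complex.mul_conj, Complex.normSq_eq_norm_sq, hn]; norm_num
  have hJ := J_mem_closure_oct h.ok hy
  have hR1 := rot_mem_closure_oct h.ok hJ
  have hR2 := rot_mem_closure_oct h.ok hR1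
  have hR3 := rot_mem_closure_oct h.ok hR2
  rcases sq_eq_of_pow_four h4 with hk | hk
  · refine rotSide_aux h hy hy' (τ := (rotM (Real.pi / 2) : GL (Fin 2) ℝ) * J) (c := conj Complex.I)
      ?_ ?_ ?_ ?_ ?_ ?_
    · rw [Units.val_mul, Matrix.det_mul, det_sl, one_mul]
      exact det_J
    · rw [mul_smul]
      change ψ (rotM (Real.pi / 2) • J • y) = ψ y
      rw [h.rot hJ, h.refl hy, ← hk]
      linear_combination ψ y * hcc
    · rw [mul_smul]
      exact hR1
    · rw [Mer.act_mul, ← Mer.actS_def, h.kap_rot, map_neg, h.kap_J, neg_neg]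
    · simp
    · rw [Mer.act_mul, ← Mer.actS_def, h.actS_rot, map_mul, h.act_J, Mer.act_cst, σ,
        if_neg (by simp)]
      rfl
  · refine rotSide_aux h hy hy' (τ := ((rotM (Real.pi / 2) * rotM (Real.pi / 2) *
      rotM (Real.pi / 2) : SL(2, ℝ)) : GL (Fin 2) ℝ) * J)
      (c := conj (Complex.I * (Complex.I * Complex.I)))
      ?_ ?_ ?_ ?_ ?_ ?_
    · rw [Units.val_mul, Matrix.det_mul, det_sl, one_mul]
      exact det_J
    · rw [mul_smul]
      change ψ ((rotM (Real.pi / 2) * rotM (Real.pi / 2) * rotM (Real.pi / 2)) • J • y) = ψ y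
      rw [mul_smul, mul_smul, h.rot hR2, h.rot hR1, h.rot hJ, h.refl hy]
      have h5 : Complex.I * (Complex.I * (Complex.I * conj (ψ y))) = -Complex.I * conj (ψ y) := by
        rw [← mul_assoc, Complex.I_mul_I]; ring
      rw [h5, ← hk]
      linear_combination ψ y * hcc
    · rw [mul_smul]
      change (rotM (Real.pi / 2) * rotM (Real.pi / 2) * rotM (Real.pi / 2)) • J • y ∈ _
      rw [mul_smul, mul_smul]
      exact hR3
    · rw [Mer.act_mul, ← Mer.actS_def, Mer.actS_mul, Mer.actS_mul]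
      simp only [h.kap_rot, h.kap_J, map_neg, neg_neg]
    · simp
    · rw [Mer.act_mul, ← Mer.actS_def, Mer.actS_mul, Mer.actS_mul]
      have hσ : Mer.act J (Mer.cst Complex.I) = Mer.cst (conj Complex.I) := by
        rw [Mer.act_cst, σ, if_neg (by simp)]
        rfl
      simp only [h.actS_rot, map_mul, Mer.actS_cst, h.act_J, hσ]
      ring

private lemma kap_actS {γ : SL(2, ℝ)} {F : Mer} (h : Mer.actS γ F = F) :
    Mer.actS γ (kap F) = kap F := by
  unfold kap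
  rw [map_mul, Mer.actS_cst, map_sub, map_inv₀, map_pow, h]

/-- PROOF: `IsPsi.kinds`: in the first case `rot_center`, in the second `IsPsi.corner_rot` (and `kap` of a fixed function is fixed), in the third `rot_side`; the fourth is impossible by `hs` (if `ord (κ - c) = 1` then `κ` has the value `c`, `Mer.HasVal.unique`; `ord κ ≥ 0`). -/
theorem IsPsi.rot_closure (h : IsPsi A f ψ) {y : ℍ} (hy : y ∈ closure (oct A))
    (hs : Mer.ord y (kap h.mer) = -2 ∨
      ∃ c ∈ specK (tval (sval A ψ)), Mer.ord y (kap h.mer - Mer.cst c) = 2) :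
    ∃ γ : SL(2, ℝ), Mer.actS γ (kap h.mer) = kap h.mer ∧ γ • y = y ∧ γ ≠ 1 ∧ γ ≠ -1 := by
  rcases h.kinds hy with ⟨rfl, -⟩ | ⟨hc, -⟩ | ⟨h1, h2, -⟩ | ⟨c, hc, h1⟩
  · exact h.rot_center
  · obtain ⟨γ, h1, h2, h3, h4⟩ := h.corner_rot hc
    exact ⟨γ, kap_actS h4, h1, h2, h3⟩
  · exact h.rot_side hy h1 h2
  · exfalso
    have hv : Mer.HasVal y (kap h.mer) c := by
      unfold Mer.HasVal
      rw [h1]
      exact zero_lt_one
    rcases hs with hs | ⟨c', hc', hs⟩
    · have h2 := hv.ord_nonneg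
      rw [hs] at h2
      revert h2
      decide
    · have hv' : Mer.HasVal y (kap h.mer) c' := by
        unfold Mer.HasVal
        rw [hs]
        exact zero_lt_two
      exact hc (by rw [hv.unique hv']; exact hc')

end Pool.Agent.Lib.MP_b9289b_nt
end
end
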